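import Pool.Agent.P.MP_d39174_gt.Defs

section
/-! The Lie algebra `sl(2, ℝ)` as Minkowski space, plane vectors, walls, frames. -/

namespace Pool.Agent.P.MP_d39174_gt

open UpperHalfPlane MatrixGroups

noncomputable section

/-- The traceless matrix `!![a, b; c, -a]`. -/
@[ext] structure V where
  a : ℝ
  b : ℝ
  c : ℝ

namespace V

instance : Zero V := ⟨⟨0, 0, 0⟩⟩
instance : Add V := ⟨fun x y => ⟨x.a + y.a, x.b + y.b, x.c + y.c⟩⟩
instance : Neg V := ⟨fun x => ⟨-x.a, -x.b, -x.c⟩⟩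
instance : Sub V := ⟨fun x y => ⟨x.a - y.a, x.b - y.b, x.c - y.c⟩⟩
instance : SMul ℝ V := ⟨fun t x => ⟨t * x.a, t * x.b, t * x.c⟩⟩

@[simp] lemma zero_a : (0 : V).a = 0 := rfl
@[simp] lemma zero_b : (0 : V).b = 0 := rfl
@[simp] lemma zero_c : (0 : V).c = 0 := rfl
@[simp] lemma add_a (x y : V) : (x + y).a = x.a + y.a := rfl
@[simp] lemma add_b (x y : V) : (x + y).b = x.b + y.b := rfl
@[simp] lemma add_c (x y : V) : (x + y).c = x.c + y.c := rfl
@[simp] lemma neg_a (x : V) : (-x).a = -x.a := rfl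
@[simp] lemma neg_b (x : V) : (-x).b = -x.b := rfl
@[simp] lemma neg_c (x : V) : (-x).c = -x.c := rfl
@[simp] lemma sub_a (x y : V) : (x - y).a = x.a - y.a := rfl
@[simp] lemma sub_b (x y : V) : (x - y).b = x.b - y.b := rfl
@[simp] lemma sub_c (x y : V) : (x - y).c = x.c - y.c := rfl
@[simp] lemma smul_a (t : ℝ) (x : V) : (t • x).a = t * x.a := rfl
@[simp] lemma smul_b (t : ℝ) (x : V) : (t • x).b = t * x.b := rfl
@[simp] lemma smul_c (t : ℝ) (x : V) : (t • x).c = t * x.c := rfl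

instance : AddCommGroup V where
  add_assoc x y z := by ext <;> simp [add_assoc]
  zero_add x := by ext <;> simp
  add_zero x := by ext <;> simp
  add_comm x y := by ext <;> simp [add_comm]
  neg_add_cancel x := by ext <;> simp
  sub_eq_add_neg x y := by ext <;> simp [sub_eq_add_neg]
  nsmul := nsmulRec
  zsmul := zsmulRec

instance : Module ℝ V where
  one_smul x := by ext <;> simp
  mul_smul s t x := by ext <;> simp [mul_assoc]
  smul_zero t := by ext <;> simp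
  smul_add t x y := by ext <;> simp [mul_add]
  add_smul s t x := by ext <;> simp [add_mul]
  zero_smul x := by ext <;> simp

/-- The matrix of a vector. -/
def mat (x : V) : Matrix (Fin 2) (Fin 2) ℝ := !![x.a, x.b; x.c, -x.a]

/-- The traceless part of a matrix. -/
def ofMat (M : Matrix (Fin 2) (Fin 2) ℝ) : V := ⟨(M 0 0 - M 1 1) / 2, M 0 1, M 1 0⟩

end V

lemma det_eq (g : SL(2, ℝ)) : g 0 0 * g 1 1 - g 0 1 * g 1 0 = 1 := by
  have h := g.det_coe
  rwa [Matrix.det_fin_two] at h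

lemma mul_apply' (g h : SL(2, ℝ)) (i j : Fin 2) :
    (g * h) i j = g i 0 * h 0 j + g i 1 * h 1 j := by
  simp [Matrix.mul_apply, Fin.sum_univ_two]

/-- The adjoint action `g • x = g x g⁻¹`. -/
instance : SMul SL(2, ℝ) V := ⟨fun g x =>
  ⟨x.a * (g 0 0 * g 1 1 + g 0 1 * g 1 0) - x.b * (g 0 0 * g 1 0) + x.c * (g 0 1 * g 1 1),
   -2 * x.a * (g 0 0 * g 0 1) + x.b * g 0 0 ^ 2 - x.c * g 0 1 ^ 2,
   2 * x.a * (g 1 0 * g 1 1) - x.b * g 1 0 ^ 2 + x.c * g 1 1 ^ 2⟩⟩

lemma ad_a (g : SL(2, ℝ)) (x : V) : (g • x).a =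
    x.a * (g 0 0 * g 1 1 + g 0 1 * g 1 0) - x.b * (g 0 0 * g 1 0) + x.c * (g 0 1 * g 1 1) := rfl
lemma ad_b (g : SL(2, ℝ)) (x : V) : (g • x).b =
    -2 * x.a * (g 0 0 * g 0 1) + x.b * g 0 0 ^ 2 - x.c * g 0 1 ^ 2 := rfl
lemma ad_c (g : SL(2, ℝ)) (x : V) : (g • x).c =
    2 * x.a * (g 1 0 * g 1 1) - x.b * g 1 0 ^ 2 + x.c * g 1 1 ^ 2 := rfl

instance : DistribMulAction SL(2, ℝ) V where
  one_smul x := by ext <;> simp [ad_a, ad_b, ad_c]
  mul_smul g h x := by ext <;> simp only [ad_a, ad_b, ad_c, mul_apply'] <;> ring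
  smul_zero g := by ext <;> simp [ad_a, ad_b, ad_c]
  smul_add g x y := by ext <;> simp only [ad_a, ad_b, ad_c, V.add_a, V.add_b, V.add_c] <;> ring

instance : SMulCommClass SL(2, ℝ) ℝ V where
  smul_comm g t x := by
    ext <;> simp only [ad_a, ad_b, ad_c, V.smul_a, V.smul_b, V.smul_c] <;> ring

instance : SMulCommClass ℝ SL(2, ℝ) V := SMulCommClass.symm _ _ _

/-- The form `tr (x y) / 2` of signature `(+, +, -)`. -/
def B (x y : V) : ℝ := x.a * y.a + (x.b * y.c + x.c * y.b) / 2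

/-- Half of the commutator. -/
def cr (x y : V) : V :=
  ⟨(x.b * y.c - x.c * y.b) / 2, x.a * y.b - x.b * y.a, x.c * y.a - x.a * y.c⟩

/-- The invariant volume form. -/
def det3 (x y z : V) : ℝ := B (cr x y) z

/-- Future timelike vectors. -/
def Fut (p : V) : Prop := B p p < 0 ∧ 0 < p.b

/-- The point of the hyperboloid attached to `z`. -/
def Hy (z : ℍ) : V := ⟨-z.re / z.im, (z.re ^ 2 + z.im ^ 2) / z.im, -1 / z.im⟩

open Classical in
/-- The point of `ℍ` on the ray of a future timelike vector. -/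
def pt (p : V) : ℍ :=
  if h : Fut p then ⟨⟨p.a / p.c, √(-B p p) / -p.c⟩, by
    have h1 := h.1
    have h2 := h.2
    have h3 : p.c < 0 := by
      by_contra h3
      unfold B at h1
      nlinarith [mul_self_nonneg p.a, mul_nonneg h2.le (not_lt.1 h3)]
    exact div_pos (Real.sqrt_pos.2 (by linarith)) (by linarith)⟩
  else I

open Classical in
/-- `cosh t + sinh t • n` for a unit vector `n`: the translation by `2 t` along the wall. -/
def ex (t : ℝ) (n : V) : SL(2, ℝ) :=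
  if h : B n n = 1 then
    ⟨!![Real.cosh t + Real.sinh t * n.a, Real.sinh t * n.b;
        Real.sinh t * n.c, Real.cosh t - Real.sinh t * n.a], by
      rw [Matrix.det_fin_two_of]
      unfold B at h
      have := Real.cosh_sq t
      linear_combination this - Real.sinh t ^ 2 * h⟩
  else 1

/-- Trace. -/
def tr (g : SL(2, ℝ)) : ℝ := g 0 0 + g 1 1

/-- Equality up to sign. -/
def PM (g h : SL(2, ℝ)) : Prop := h = g ∨ h = -g

/-- Plane vectors; nonzero ones represent ideal points `p / q`. -/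
@[ext] structure W where
  p : ℝ
  q : ℝ

instance : SMul SL(2, ℝ) W :=
  ⟨fun g x => ⟨g 0 0 * x.p + g 0 1 * x.q, g 1 0 * x.p + g 1 1 * x.q⟩⟩

lemma act_p (g : SL(2, ℝ)) (x : W) : (g • x).p = g 0 0 * x.p + g 0 1 * x.q := rfl
lemma act_q (g : SL(2, ℝ)) (x : W) : (g • x).q = g 1 0 * x.p + g 1 1 * x.q := rfl

instance : MulAction SL(2, ℝ) W where
  one_smul x := by ext <;> simp [act_p, act_q]
  mul_smul g h x := by ext <;> simp only [act_p, act_q, mul_apply'] <;> ring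

/-- Determinant of two plane vectors. -/
def br (x y : W) : ℝ := x.p * y.q - x.q * y.p

/-- The future null vector of an ideal point. -/
def N (x : W) : V := ⟨-(x.p * x.q), x.p ^ 2, -x.q ^ 2⟩

open Classical in
/-- An eigenvector of the unit vector `n` for the eigenvalue `1`: the ideal endpoint `e(n)`. -/
def ev (n : V) : W := if n.a = -1 ∧ n.c = 0 then ⟨n.b, 1 - n.a⟩ else ⟨1 + n.a, n.c⟩

/-- Cyclic orientation of three ideal points (only the sign matters). -/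
def oriW (x y z : W) : ℝ := br x y * br y z * br z x

/-- Cyclic orientation of the endpoints of three walls. -/
def ori (a b c : V) : ℝ := oriW (ev a) (ev b) (ev c)

/-- The geodesics `e(a) e(b)` and `e(c) e(d)` cross. -/
def Cr (a b c d : V) : Prop := ori a b c * ori a b d < 0

/-- The standard wall: the imaginary axis, with `e(w0) = ∞` and `e(-w0) = 0`. -/
def w0 : V := ⟨1, 0, 0⟩

/-- The base point `Hy I`. -/
def o0 : V := ⟨0, 1, -1⟩

/-- The nilpotent `!![0, 1; 0, 0]`. -/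
def E0 : V := ⟨0, 1, 0⟩

open Classical in
/-- A frame that carries the standard wall to `n`. -/
def fr (n : V) : SL(2, ℝ) := if h : ∃ g : SL(2, ℝ), g • w0 = n then h.choose else 1

/-- Affine coordinate of an ideal point when `e(w) = ∞`, `e(-w) = 0`. -/
def crdW (w : V) (x : W) : ℝ := ((fr w)⁻¹ • x).p / ((fr w)⁻¹ • x).q

/-- Affine coordinate of `e(a)` when `e(w) = ∞`, `e(-w) = 0`. -/
def crd (w a : V) : ℝ := crdW w (ev a)

/-- Working hypotheses on the group. -/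
structure Nice (Γ : Subgroup SL(2, ℝ)) : Prop where
  neg_one_mem : -1 ∈ Γ
  fin : ∀ (z : ℍ) (R : ℝ), {γ : SL(2, ℝ) | γ ∈ Γ ∧ dist z (γ • z) ≤ R}.Finite
  coc : ∃ R : ℝ, ∀ z : ℍ, ∃ γ ∈ Γ, dist (γ • z) I ≤ R
  hyp : ∀ γ ∈ Γ, γ ≠ 1 → γ ≠ -1 → 2 < |tr γ|

/-- The oriented walls with translation `ex l n` in `Γ`. -/
def SS (Γ : Subgroup SL(2, ℝ)) (l : ℝ) : Set V := {n | B n n = 1 ∧ ex l n ∈ Γ}

/-- The systole of `Γ` is `2 l`. -/
structure Sys (Γ : Subgroup SL(2, ℝ)) (l : ℝ) : Prop where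
  pos : 0 < l
  le : ∀ γ ∈ Γ, γ ≠ 1 → γ ≠ -1 → 2 * Real.cosh l ≤ |tr γ|
  ne : (SS Γ l).Nonempty

/-- `ex t n` generates the stabiliser of `n` modulo sign. -/
structure Prim (Γ : Subgroup SL(2, ℝ)) (n : V) (t : ℝ) : Prop where
  unit : B n n = 1
  pos : 0 < t
  mem : ex t n ∈ Γ
  gen : ∀ g ∈ Γ, g • n = n → ∃ m : ℤ, PM (ex (m * t) n) g

/-- A unit vector with a period in `Γ`. -/
def Per (Γ : Subgroup SL(2, ℝ)) (n : V) : Prop := B n n = 1 ∧ ∃ t, 0 < t ∧ ex t n ∈ Γ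

/-- Cocycles with values in `V`. -/
def Coc (Γ : Subgroup SL(2, ℝ)) (u : SL(2, ℝ) → V) : Prop :=
  ∀ γ ∈ Γ, ∀ δ ∈ Γ, u (γ * δ) = u γ + γ • u δ

/-- Same unoriented wall modulo `Γ`. -/
def Eqw (Γ : Subgroup SL(2, ℝ)) (m n : V) : Prop := ∃ g ∈ Γ, n = g • m ∨ n = -(g • m)

/-- Criticality in terms of walls. -/
def CritV (Γ : Subgroup SL(2, ℝ)) (l : ℝ) : Prop :=
  ∃ T : Finset V, (∀ n ∈ T, n ∈ SS Γ l) ∧ (∀ n ∈ SS Γ l, ∃! m, m ∈ T ∧ Eqw Γ m n) ∧
    ∃ c : V → ℝ, (∀ n ∈ T, 0 < c n) ∧ ∀ u, Coc Γ u → ∑ n ∈ T, c n * B (u (ex l n)) n = 0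

/-- A family of walls is locally finite. -/
def LF (S : Set V) : Prop := ∀ (z : ℍ) (R : ℝ), {n | n ∈ S ∧ |B n (Hy z)| ≤ R}.Finite

end

end Pool.Agent.P.MP_d39174_gt

end

section
/-! Algebra of the form, the adjoint action and equality up to sign. -/

namespace Pool.Agent.P.MP_d39174_gt

open UpperHalfPlane MatrixGroups

noncomputable section

set_option linter.unusedSimpArgs false

lemma B_comm (x y : V) : B x y = B y x := by
  simp only [B, V.add_a, V.add_b, V.add_c, V.sub_a, V.sub_b, V.sub_c, V.neg_a, V.neg_b, V.neg_c,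
    V.smul_a, V.smul_b, V.smul_c, V.zero_a, V.zero_b, V.zero_c]
  ring

@[simp] lemma B_add_left (x y z : V) : B (x + y) z = B x z + B y z := by
  simp only [B, V.add_a, V.add_b, V.add_c, V.sub_a, V.sub_b, V.sub_c, V.neg_a, V.neg_b, V.neg_c,
    V.smul_a, V.smul_b, V.smul_c, V.zero_a, V.zero_b, V.zero_c]
  ring

@[simp] lemma B_add_right (x y z : V) : B x (y + z) = B x y + B x z := by
  simp only [B, V.add_a, V.add_b, V.add_c, V.sub_a, V.sub_b, V.sub_c, V.neg_a, V.neg_b, V.neg_c,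
    V.smul_a, V.smul_b, V.smul_c, V.zero_a, V.zero_b, V.zero_c]
  ring

@[simp] lemma B_sub_left (x y z : V) : B (x - y) z = B x z - B y z := by
  simp only [B, V.add_a, V.add_b, V.add_c, V.sub_a, V.sub_b, V.sub_c, V.neg_a, V.neg_b, V.neg_c,
    V.smul_a, V.smul_b, V.smul_c, V.zero_a, V.zero_b, V.zero_c]
  ring

@[simp] lemma B_sub_right (x y z : V) : B x (y - z) = B x y - B x z := by
  simp only [B, V.add_a, V.add_b, V.add_c, V.sub_a, V.sub_b, V.sub_c, V.neg_a, V.neg_b, V.neg_c,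
    V.smul_a, V.smul_b, V.smul_c, V.zero_a, V.zero_b, V.zero_c]
  ring

@[simp] lemma B_neg_left (x y : V) : B (-x) y = -B x y := by
  simp only [B, V.add_a, V.add_b, V.add_c, V.sub_a, V.sub_b, V.sub_c, V.neg_a, V.neg_b, V.neg_c,
    V.smul_a, V.smul_b, V.smul_c, V.zero_a, V.zero_b, V.zero_c]
  ring

@[simp] lemma B_neg_right (x y : V) : B x (-y) = -B x y := by
  simp only [B, V.add_a, V.add_b, V.add_c, V.sub_a, V.sub_b, V.sub_c, V.neg_a, V.neg_b, V.neg_c,
    V.smul_a, V.smul_b, V.smul_c, V.zero_a, V.zero_b, V.zero_c]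
  ring

@[simp] lemma B_smul_left (t : ℝ) (x y : V) : B (t • x) y = t * B x y := by
  simp only [B, V.add_a, V.add_b, V.add_c, V.sub_a, V.sub_b, V.sub_c, V.neg_a, V.neg_b, V.neg_c,
    V.smul_a, V.smul_b, V.smul_c, V.zero_a, V.zero_b, V.zero_c]
  ring

@[simp] lemma B_smul_right (t : ℝ) (x y : V) : B x (t • y) = t * B x y := by
  simp only [B, V.add_a, V.add_b, V.add_c, V.sub_a, V.sub_b, V.sub_c, V.neg_a, V.neg_b, V.neg_c,
    V.smul_a, V.smul_b, V.smul_c, V.zero_a, V.zero_b, V.zero_c]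
  ring

@[simp] lemma B_zero_left (x : V) : B 0 x = 0 := by
  simp only [B, V.add_a, V.add_b, V.add_c, V.sub_a, V.sub_b, V.sub_c, V.neg_a, V.neg_b, V.neg_c,
    V.smul_a, V.smul_b, V.smul_c, V.zero_a, V.zero_b, V.zero_c]
  ring

@[simp] lemma B_zero_right (x : V) : B x 0 = 0 := by
  simp only [B, V.add_a, V.add_b, V.add_c, V.sub_a, V.sub_b, V.sub_c, V.neg_a, V.neg_b, V.neg_c,
    V.smul_a, V.smul_b, V.smul_c, V.zero_a, V.zero_b, V.zero_c]
  ring

lemma B_sum_left {ι : Type*} (s : Finset ι) (f : ι → V) (y : V) :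
    B (∑ i ∈ s, f i) y = ∑ i ∈ s, B (f i) y := by
  classical
  induction s using Finset.induction_on with
  | empty => simp
  | insert a s ha ih => rw [Finset.sum_insert ha, Finset.sum_insert ha, B_add_left, ih]

lemma B_sum_right {ι : Type*} (s : Finset ι) (f : ι → V) (y : V) :
    B y (∑ i ∈ s, f i) = ∑ i ∈ s, B y (f i) := by
  rw [B_comm, B_sum_left]; exact Finset.sum_congr rfl fun i _ => B_comm _ _

@[simp] lemma B_ad (g : SL(2, ℝ)) (x y : V) : B (g • x) (g • y) = B x y := by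
  have h : B (g • x) (g • y) = (g 0 0 * g 1 1 - g 0 1 * g 1 0) ^ 2 * B x y := by
    simp only [B, ad_a, ad_b, ad_c]; ring
  rw [h, det_eq]; ring

lemma B_ad_left (g : SL(2, ℝ)) (x y : V) : B (g • x) y = B x (g⁻¹ • y) := by
  rw [← B_ad g x (g⁻¹ • y), smul_inv_smul]

lemma B_ad_right (g : SL(2, ℝ)) (x y : V) : B x (g • y) = B (g⁻¹ • x) y := by
  rw [← B_ad g (g⁻¹ • x) y, smul_inv_smul]

lemma eq_of_B {x y : V} (h : ∀ z, B x z = B y z) : x = y := by
  have h1 := h ⟨1, 0, 0⟩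
  have h2 := h ⟨0, 1, 0⟩
  have h3 := h ⟨0, 0, 1⟩
  simp only [B] at h1 h2 h3
  ext <;> linarith

lemma ne_neg_of_unit {n : V} (h : B n n = 1) : n ≠ -n := by
  intro e
  have h1 : B n n = B n (-n) := by rw [← e]
  rw [B_neg_right, h] at h1
  norm_num at h1

@[simp] lemma B_w0 : B w0 w0 = 1 := by simp [B, w0]

@[simp] lemma B_o0 : B o0 o0 = -1 := by norm_num [B, o0]

lemma ad_real (g : SL(2, ℝ)) (t : ℝ) (x : V) : g • (t • x) = t • (g • x) := smul_comm g t x

@[simp] lemma neg_ad (g : SL(2, ℝ)) (x : V) : (-g) • x = g • x := by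
  have e : ∀ i j, (-g) i j = -g i j := fun i j => by simp
  ext <;> simp only [ad_a, ad_b, ad_c, e] <;> ring

@[simp] lemma neg_act (g : SL(2, ℝ)) (z : ℍ) : (-g) • z = g • z := by
  apply UpperHalfPlane.ext
  rw [coe_specialLinearGroup_apply, coe_specialLinearGroup_apply]
  have e : ∀ i j, (-g) i j = -g i j := fun i j => by simp
  simp only [e, map_neg, Complex.ofReal_neg]
  rw [← neg_div_neg_eq]
  congr 1 <;> ring

lemma neg_apply' (g : SL(2, ℝ)) (i j : Fin 2) : (-g) i j = -g i j := by simp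

lemma inv_apply' (g : SL(2, ℝ)) :
    g⁻¹ 0 0 = g 1 1 ∧ g⁻¹ 0 1 = -g 0 1 ∧ g⁻¹ 1 0 = -g 1 0 ∧ g⁻¹ 1 1 = g 0 0 := by
  simp [Matrix.SpecialLinearGroup.coe_inv, Matrix.adjugate_fin_two]

lemma one_ne_neg_one' : (1 : SL(2, ℝ)) ≠ -1 := by
  intro h
  have := congrArg (fun g : SL(2, ℝ) => g 0 0) h
  simp only [neg_apply'] at this
  norm_num at this


lemma mat_ad (g : SL(2, ℝ)) (x : V) : (g • x).mat = g.1 * x.mat * (g⁻¹).1 := by
  obtain ⟨h1, h2, h3, h4⟩ := inv_apply' g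
  ext i j
  fin_cases i <;> fin_cases j <;>
    simp [V.mat, Matrix.mul_apply, Fin.sum_univ_two, ad_a, ad_b, ad_c, Matrix.adjugate_fin_two] <;> ring

lemma mat_add (x y : V) : (x + y).mat = x.mat + y.mat := by
  ext i j
  fin_cases i <;> fin_cases j <;> simp [V.mat] <;> ring

lemma mat_sub (x y : V) : (x - y).mat = x.mat - y.mat := by
  ext i j
  fin_cases i <;> fin_cases j <;> simp [V.mat] <;> ring

lemma mat_smul (t : ℝ) (x : V) : (t • x).mat = t • x.mat := by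
  ext i j
  fin_cases i <;> fin_cases j <;> simp [V.mat] <;> ring

lemma mat_zero : (0 : V).mat = 0 := by
  ext i j
  fin_cases i <;> fin_cases j <;> simp [V.mat] <;> ring

lemma mat_trace (x : V) : x.mat.trace = 0 := by simp [V.mat, Matrix.trace_fin_two]

lemma ofMat_mat (x : V) : V.ofMat x.mat = x := by ext <;> simp [V.mat, V.ofMat]

lemma mat_ofMat {M : Matrix (Fin 2) (Fin 2) ℝ} (h : M.trace = 0) : (V.ofMat M).mat = M := by
  rw [Matrix.trace_fin_two] at h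
  ext i j
  fin_cases i <;> fin_cases j <;> simp [V.mat, V.ofMat] <;> linarith

lemma B_eq_trace (x y : V) : B x y = (x.mat * y.mat).trace / 2 := by
  simp [V.mat, Matrix.trace_fin_two, B]; ring

lemma tr_eq (g : SL(2, ℝ)) : tr g = g.1.trace := by rw [Matrix.trace_fin_two]; rfl

lemma tr_neg (g : SL(2, ℝ)) : tr (-g) = -tr g := by simp only [tr, neg_apply']; ring

lemma tr_inv (g : SL(2, ℝ)) : tr g⁻¹ = tr g := by
  obtain ⟨h1, h2, h3, h4⟩ := inv_apply' g
  simp only [tr, h1, h4]; ring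

lemma tr_conj (g h : SL(2, ℝ)) : tr (g * h * g⁻¹) = tr h := by
  obtain ⟨h1, h2, h3, h4⟩ := inv_apply' g
  simp only [tr, mul_apply', h1, h2, h3, h4]
  linear_combination (h 0 0 + h 1 1) * det_eq g


lemma cr_ad (g : SL(2, ℝ)) (x y : V) : g • cr x y = cr (g • x) (g • y) := by
  have h := det_eq g
  have e : cr (g • x) (g • y) = (g 0 0 * g 1 1 - g 0 1 * g 1 0) • (g • cr x y) := by
    ext <;> simp only [cr, ad_a, ad_b, ad_c, V.smul_a, V.smul_b, V.smul_c] <;> ring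
  rw [e, h, one_smul]

lemma cr_swap (x y : V) : cr y x = -cr x y := by
  ext <;> simp only [cr, B, det3, V.add_a, V.add_b, V.add_c, V.sub_a, V.sub_b, V.sub_c, V.neg_a, V.neg_b,
    V.neg_c, V.smul_a, V.smul_b, V.smul_c, V.zero_a, V.zero_b, V.zero_c] <;> ring

lemma cr_neg_left (x y : V) : cr (-x) y = -cr x y := by
  ext <;> simp only [cr, B, det3, V.add_a, V.add_b, V.add_c, V.sub_a, V.sub_b, V.sub_c, V.neg_a, V.neg_b,
    V.neg_c, V.smul_a, V.smul_b, V.smul_c, V.zero_a, V.zero_b, V.zero_c] <;> ring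

lemma cr_neg_right (x y : V) : cr x (-y) = -cr x y := by
  ext <;> simp only [cr, B, det3, V.add_a, V.add_b, V.add_c, V.sub_a, V.sub_b, V.sub_c, V.neg_a, V.neg_b,
    V.neg_c, V.smul_a, V.smul_b, V.smul_c, V.zero_a, V.zero_b, V.zero_c] <;> ring

lemma cr_add_right (x y z : V) : cr x (y + z) = cr x y + cr x z := by
  ext <;> simp only [cr, B, det3, V.add_a, V.add_b, V.add_c, V.sub_a, V.sub_b, V.sub_c, V.neg_a, V.neg_b,
    V.neg_c, V.smul_a, V.smul_b, V.smul_c, V.zero_a, V.zero_b, V.zero_c] <;> ring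

lemma cr_smul_right (t : ℝ) (x y : V) : cr x (t • y) = t • cr x y := by
  ext <;> simp only [cr, B, det3, V.add_a, V.add_b, V.add_c, V.sub_a, V.sub_b, V.sub_c, V.neg_a, V.neg_b,
    V.neg_c, V.smul_a, V.smul_b, V.smul_c, V.zero_a, V.zero_b, V.zero_c] <;> ring

lemma B_cr_left (x y : V) : B x (cr x y) = 0 := by simp only [cr, B, det3]; ring

lemma B_cr_right (x y : V) : B y (cr x y) = 0 := by simp only [cr, B, det3]; ring

lemma B_cr_cr (x y : V) : B (cr x y) (cr x y) = B x y ^ 2 - B x x * B y y := by simp only [cr, B, det3]; ring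

lemma cr_cr (x y z : V) : cr x (cr y z) = B x y • z - B x z • y := by
  ext <;> simp only [cr, B, det3, V.add_a, V.add_b, V.add_c, V.sub_a, V.sub_b, V.sub_c, V.neg_a, V.neg_b,
    V.neg_c, V.smul_a, V.smul_b, V.smul_c, V.zero_a, V.zero_b, V.zero_c] <;> ring

lemma det3_ad (g : SL(2, ℝ)) (x y z : V) : det3 (g • x) (g • y) (g • z) = det3 x y z := by rw [det3, ← cr_ad, B_ad, det3]

lemma det3_cyc (x y z : V) : det3 y z x = det3 x y z := by simp only [cr, B, det3]; ring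

lemma det3_swap (x y z : V) : det3 y x z = -det3 x y z := by simp only [cr, B, det3]; ring

lemma cramer (x y c d : V) :
    det3 y c d • x - det3 x c d • y + det3 x y d • c - det3 x y c • d = 0 := by
  ext <;> simp only [cr, B, det3, V.add_a, V.add_b, V.add_c, V.sub_a, V.sub_b, V.sub_c, V.neg_a, V.neg_b,
    V.neg_c, V.smul_a, V.smul_b, V.smul_c, V.zero_a, V.zero_b, V.zero_c] <;> ring

private lemma VA_par {c v : V} (hc : c ≠ 0) (h : cr v c = 0) : ∃ t : ℝ, v = t • c := by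
  have p1 := congrArg V.a h
  have p2 := congrArg V.b h
  have p3 := congrArg V.c h
  simp only [cr, V.zero_a, V.zero_b, V.zero_c] at p1 p2 p3
  by_cases ha : c.a = 0
  · by_cases hb : c.b = 0
    · have hcc : c.c ≠ 0 := fun e => hc (by ext <;> simp [ha, hb, e])
      refine ⟨v.c / c.c, ?_⟩
      ext <;> simp only [V.smul_a, V.smul_b, V.smul_c] <;> field_simp <;> linarith
    · refine ⟨v.b / c.b, ?_⟩
      ext <;> simp only [V.smul_a, V.smul_b, V.smul_c] <;> field_simp <;> linarith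
  · refine ⟨v.a / c.a, ?_⟩
    ext <;> simp only [V.smul_a, V.smul_b, V.smul_c] <;> field_simp <;> linarith

private lemma VA_fix {k : SL(2, ℝ)} {n : V} (h : k • n = n) : cr (V.ofMat k.1) n = 0 := by
  have hm : (k • n).mat * k.1 = k.1 * n.mat := by
    rw [mat_ad, mul_assoc, ← Matrix.SpecialLinearGroup.coe_mul, inv_mul_cancel]; simp
  rw [h] at hm
  have a := congrFun (congrFun hm 0) 0
  have b := congrFun (congrFun hm 0) 1
  have c := congrFun (congrFun hm 1) 0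
  simp [V.mat, Matrix.mul_apply, Fin.sum_univ_two] at a b c
  ext <;> simp only [cr, V.ofMat, V.zero_a, V.zero_b, V.zero_c] <;> linarith

/-- A vector orthogonal to three independent vectors vanishes. -/
lemma eq_zero_of_det3 {x y z v : V} (h : det3 x y z ≠ 0) (hx : B x v = 0) (hy : B y v = 0)
    (hz : B z v = 0) : v = 0 := by
  apply eq_of_B
  intro w
  have e := congrArg (fun u => B u v) (cramer x y z w)
  simp only [B_add_left, B_sub_left, B_smul_left, B_zero_left, hx, hy, hz] at e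
  have e' : det3 x y z * B w v = 0 := by linarith
  rw [B_zero_left, B_comm]
  exact (mul_eq_zero.1 e').resolve_left h

/-- A vector orthogonal to two independent vectors is a multiple of their product. -/
lemma exists_smul_cr {x y v : V} (h : cr x y ≠ 0) (hx : B x v = 0) (hy : B y v = 0) :
    ∃ t : ℝ, v = t • cr x y := by
  apply VA_par h
  rw [cr_cr, B_comm v x, B_comm v y, hx, hy]; simp

/-- Expansion in an orthonormal basis with one timelike vector. -/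
lemma expand_on {n p : V} (hn : B n n = 1) (hp : B p p = -1) (h : B n p = 0) (v : V) :
    v = B v n • n - B v p • p + B v (cr n p) • cr n p := by
  have hc : B (cr n p) (cr n p) = 1 := by rw [B_cr_cr, h, hn, hp]; norm_num
  have hd : det3 n p (cr n p) ≠ 0 := by rw [det3, hc]; norm_num
  have h' : B p n = 0 := by rw [B_comm]; exact h
  have a1 : B n (cr n p) = 0 := B_cr_left n p
  have a2 : B p (cr n p) = 0 := B_cr_right n p
  have a3 : B (cr n p) n = 0 := by rw [B_comm]; exact a1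
  have a4 : B (cr n p) p = 0 := by rw [B_comm]; exact a2
  rw [← sub_eq_zero]
  apply eq_zero_of_det3 hd
  · simp only [B_sub_right, B_add_right, B_smul_right, hn, h, a1, B_comm n v]; ring
  · simp only [B_sub_right, B_add_right, B_smul_right, hp, h', a2, B_comm p v]; ring
  · simp only [B_sub_right, B_add_right, B_smul_right, hc, a3, a4, B_comm (cr n p) v]; ring


lemma PM.refl (g : SL(2, ℝ)) : PM g g := Or.inl rfl

lemma PM.symm {g h : SL(2, ℝ)} (e : PM g h) : PM h g := by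
  rcases e with rfl | rfl
  · exact Or.inl rfl
  · exact Or.inr (neg_neg g).symm

lemma PM.trans {g h k : SL(2, ℝ)} (e : PM g h) (e' : PM h k) : PM g k := by
  rcases e with rfl | rfl <;> rcases e' with rfl | rfl <;> simp [PM]

lemma PM.mul {g g' h h' : SL(2, ℝ)} (e : PM g g') (e' : PM h h') : PM (g * h) (g' * h') := by
  rcases e with rfl | rfl <;> rcases e' with rfl | rfl <;> simp [PM]

lemma PM.inv {g h : SL(2, ℝ)} (e : PM g h) : PM g⁻¹ h⁻¹ := by
  rcases e with rfl | rfl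
  · exact Or.inl rfl
  · exact Or.inr inv_neg

lemma PM.neg (g : SL(2, ℝ)) : PM g (-g) := Or.inr rfl

lemma PM.ad {g h : SL(2, ℝ)} (e : PM g h) (x : V) : g • x = h • x := by
  rcases e with rfl | rfl
  · rfl
  · rw [neg_ad]

lemma PM.act {g h : SL(2, ℝ)} (e : PM g h) (z : ℍ) : g • z = h • z := by
  rcases e with rfl | rfl
  · rfl
  · rw [neg_act]

lemma PM.abs_tr {g h : SL(2, ℝ)} (e : PM g h) : |tr g| = |tr h| := by
  rcases e with rfl | rfl
  · rfl
  · rw [tr_neg, abs_neg]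

lemma PM.mem {Γ : Subgroup SL(2, ℝ)} (h1 : -1 ∈ Γ) {g h : SL(2, ℝ)} (e : PM g h) (hg : g ∈ Γ) :
    h ∈ Γ := by
  rcases e with rfl | rfl
  · exact hg
  · have := Γ.mul_mem h1 hg
    rwa [neg_one_mul] at this

lemma pm_one_iff (g : SL(2, ℝ)) : PM 1 g ↔ g = 1 ∨ g = -1 := Iff.rfl

lemma pm_iff_inv_mul (g h : SL(2, ℝ)) : PM g h ↔ PM 1 (g⁻¹ * h) := by
  constructor
  · intro e
    have := PM.mul (PM.refl g⁻¹) e
    rwa [inv_mul_cancel] at this
  · intro e
    have := PM.mul (PM.refl g) e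
    rwa [mul_one, mul_inv_cancel_left] at this

/-- Two independent vectors determine a group element up to sign. -/
lemma pm_of_ad {g h : SL(2, ℝ)} {n m : V} (hc : cr n m ≠ 0) (hn : g • n = h • n)
    (hm : g • m = h • m) : PM g h := by
  rw [pm_iff_inv_mul]
  set k := g⁻¹ * h with hk
  have kn : k • n = n := by rw [hk, mul_smul, ← hn, inv_smul_smul]
  have km : k • m = m := by rw [hk, mul_smul, ← hm, inv_smul_smul]
  have c1 := VA_fix kn
  have c2 := VA_fix km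
  set u := V.ofMat k.1 with hu
  have hu0 : u = 0 := by
    have ea : u.a • cr n m = 0 ∧ u.b • cr n m = 0 ∧ u.c • cr n m = 0 := by
      have p1 := congrArg V.a c1
      have p2 := congrArg V.b c1
      have p3 := congrArg V.c c1
      have q1 := congrArg V.a c2
      have q2 := congrArg V.b c2
      have q3 := congrArg V.c c2
      simp only [cr, V.zero_a, V.zero_b, V.zero_c] at p1 p2 p3 q1 q2 q3
      refine ⟨?_, ?_, ?_⟩ <;> ext <;>
        simp only [cr, V.smul_a, V.smul_b, V.smul_c, V.zero_a, V.zero_b, V.zero_c]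
      · linear_combination (m.c / 2) * p2 + (m.b / 2) * p3 + n.a * q1
      · linear_combination n.a * q2 - m.a * p2
      · linear_combination n.a * q3 - m.a * p3
      · linear_combination n.b * q1 - m.b * p1
      · linear_combination n.b * q2 - m.b * p2
      · linear_combination m.c * p2 + 2 * m.a * p1 + n.b * q3
      · linear_combination n.c * q1 - m.c * p1
      · linear_combination m.b * p3 + 2 * m.a * p1 + n.c * q2
      · linear_combination n.c * q3 - m.c * p3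
    ext
    · exact (smul_eq_zero.1 ea.1).resolve_right hc
    · exact (smul_eq_zero.1 ea.2.1).resolve_right hc
    · exact (smul_eq_zero.1 ea.2.2).resolve_right hc
  have e1 : (k 0 0 - k 1 1) / 2 = 0 := congrArg V.a hu0
  have e2 : k 0 1 = 0 := congrArg V.b hu0
  have e3 : k 1 0 = 0 := congrArg V.c hu0
  have hd := det_eq k
  have e4 : k 1 1 = k 0 0 := by linarith
  rw [e2, e4] at hd
  have e5 : (k 0 0 - 1) * (k 0 0 + 1) = 0 := by linarith
  rcases mul_eq_zero.1 e5 with e6 | e6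
  · left
    ext i j
    fin_cases i <;> fin_cases j <;> simp [e2, e3, e4] <;> linarith
  · right
    ext i j
    fin_cases i <;> fin_cases j <;> simp [e2, e3, e4] <;> linarith

lemma tr_of_flip {g : SL(2, ℝ)} {n : V} (hn : B n n = 1) (h : g • n = -n) : tr g = 0 := by
  have hd := det_eq g
  have p1 := congrArg V.a h
  have p2 := congrArg V.b h
  have p3 := congrArg V.c h
  simp only [ad_a, ad_b, ad_c, V.neg_a, V.neg_b, V.neg_c] at p1 p2 p3
  have hm : (g • n).mat * g.1 = g.1 * n.mat := by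
    rw [mat_ad, mul_assoc, ← Matrix.SpecialLinearGroup.coe_mul, inv_mul_cancel]; simp
  rw [h] at hm
  have a := congrFun (congrFun hm 0) 0
  have b := congrFun (congrFun hm 0) 1
  have c := congrFun (congrFun hm 1) 0
  have d := congrFun (congrFun hm 1) 1
  simp [V.mat, Matrix.mul_apply, Fin.sum_univ_two] at a b c d
  unfold B at hn
  unfold tr
  linear_combination (-(g 0 0 + g 1 1)) * hn - (n.a / 2) * a - (n.c / 2) * b - (n.b / 2) * c + (n.a / 2) * d

/-- An element that fixes a timelike vector is not hyperbolic. -/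
lemma abs_tr_le_of_fix {g : SL(2, ℝ)} {p : V} (hp : B p p < 0) (h : g • p = p) :
    |tr g| ≤ 2 := by
  have c1 := VA_fix h
  have hp0 : p ≠ 0 := by
    rintro rfl
    simp at hp
  obtain ⟨t, ht⟩ := VA_par hp0 c1
  have e1 : (g 0 0 - g 1 1) / 2 = t * p.a := congrArg V.a ht
  have e2 : g 0 1 = t * p.b := congrArg V.b ht
  have e3 : g 1 0 = t * p.c := congrArg V.c ht
  have hd := det_eq g
  have : tr g ^ 2 = 4 + 4 * t ^ 2 * B p p := by
    unfold tr B
    have e4 : g 0 0 = g 1 1 + 2 * (t * p.a) := by linarith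
    rw [e2, e3, e4] at hd
    rw [e4]
    linear_combination 4 * hd
  have h2 : tr g ^ 2 ≤ 2 ^ 2 := by nlinarith [sq_nonneg t]
  exact abs_le_of_sq_le_sq' h2 (by norm_num) |> abs_le.2

/-- A cocycle vanishes on `± 1`. -/
lemma Coc.pm {Γ : Subgroup SL(2, ℝ)} (h1 : -1 ∈ Γ) {u : SL(2, ℝ) → V} (hu : Coc Γ u)
    {g h : SL(2, ℝ)} (hg : g ∈ Γ) (e : PM g h) : u h = u g := by
  rcases e with rfl | rfl
  · rfl
  · have o : u 1 = 0 := by
      have := hu 1 Γ.one_mem 1 Γ.one_mem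
      rw [mul_one, one_smul] at this
      simpa using this
    have n1 : u (-1) = 0 := by
      have := hu (-1) h1 (-1) h1
      rw [neg_mul_neg, mul_one, o, neg_ad, one_smul, ← two_smul ℝ] at this
      exact (smul_eq_zero.1 this.symm).resolve_left two_ne_zero
    have := hu g hg (-1) h1
    rw [mul_neg_one, n1, smul_zero, add_zero] at this
    exact this

lemma Coc.one {Γ : Subgroup SL(2, ℝ)} {u : SL(2, ℝ) → V} (hu : Coc Γ u) : u 1 = 0 := by
  have := hu 1 Γ.one_mem 1 Γ.one_mem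
  rw [mul_one, one_smul] at this
  simpa using this

lemma Coc.inv {Γ : Subgroup SL(2, ℝ)} {u : SL(2, ℝ) → V} (hu : Coc Γ u) {g : SL(2, ℝ)}
    (hg : g ∈ Γ) : u g⁻¹ = -(g⁻¹ • u g) := by
  have := hu g⁻¹ (Γ.inv_mem hg) g hg
  rw [inv_mul_cancel, hu.one] at this
  exact eq_neg_of_add_eq_zero_left this.symm

lemma Eqw.refl (Γ : Subgroup SL(2, ℝ)) (n : V) : Eqw Γ n n := ⟨1, Γ.one_mem, Or.inl (one_smul _ _).symm⟩

lemma Eqw.symm {Γ : Subgroup SL(2, ℝ)} {m n : V} (h : Eqw Γ m n) : Eqw Γ n m := by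
  obtain ⟨g, hg, e | e⟩ := h
  · exact ⟨g⁻¹, Γ.inv_mem hg, Or.inl (by rw [e, inv_smul_smul])⟩
  · exact ⟨g⁻¹, Γ.inv_mem hg, Or.inr (by rw [e, smul_neg, inv_smul_smul, neg_neg])⟩

lemma Eqw.trans {Γ : Subgroup SL(2, ℝ)} {k m n : V} (h : Eqw Γ k m) (h' : Eqw Γ m n) :
    Eqw Γ k n := by
  obtain ⟨g, hg, e | e⟩ := h <;> obtain ⟨g', hg', e' | e'⟩ := h'
  · exact ⟨g' * g, Γ.mul_mem hg' hg, Or.inl (by rw [e', e, mul_smul])⟩
  · exact ⟨g' * g, Γ.mul_mem hg' hg, Or.inr (by rw [e', e, mul_smul])⟩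
  · exact ⟨g' * g, Γ.mul_mem hg' hg, Or.inr (by rw [e', e, mul_smul, smul_neg])⟩
  · exact ⟨g' * g, Γ.mul_mem hg' hg, Or.inl (by rw [e', e, mul_smul, smul_neg, neg_neg])⟩


end

end Pool.Agent.P.MP_d39174_gt

end

section
/-! One-parameter groups of translations along walls. -/

namespace Pool.Agent.P.MP_d39174_gt

open UpperHalfPlane MatrixGroups

noncomputable section

private lemma sl_ext {g h : SL(2, ℝ)} (h0 : g 0 0 = h 0 0) (h1 : g 0 1 = h 0 1)
    (h2 : g 1 0 = h 1 0) (h3 : g 1 1 = h 1 1) : g = h := by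
  ext i j
  fin_cases i <;> fin_cases j
  exacts [h0, h1, h2, h3]

private lemma ex_of_not {n : V} (h : ¬ B n n = 1) (t : ℝ) : ex t n = 1 := by
  unfold ex
  rw [dif_neg h]

lemma ex_apply {n : V} (h : B n n = 1) (t : ℝ) :
    ex t n 0 0 = Real.cosh t + Real.sinh t * n.a ∧ ex t n 0 1 = Real.sinh t * n.b ∧
      ex t n 1 0 = Real.sinh t * n.c ∧ ex t n 1 1 = Real.cosh t - Real.sinh t * n.a := by
  unfold ex
  rw [dif_pos h]
  exact ⟨rfl, rfl, rfl, rfl⟩
lemma ex_val {n : V} (h : B n n = 1) (t : ℝ) :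
    (ex t n).1 = Real.cosh t • (1 : Matrix (Fin 2) (Fin 2) ℝ) + Real.sinh t • n.mat := by
  obtain ⟨h0, h1, h2, h3⟩ := ex_apply h t
  ext i j
  fin_cases i <;> fin_cases j
  · simpa [V.mat] using h0
  · simpa [V.mat] using h1
  · simpa [V.mat] using h2
  · simpa [V.mat, sub_eq_add_neg] using h3
lemma ex_zero (n : V) : ex 0 n = 1 := by
  by_cases h : B n n = 1
  · obtain ⟨h0, h1, h2, h3⟩ := ex_apply h 0
    apply sl_ext
    · simpa using h0
    · simpa using h1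
    · simpa using h2
    · simpa using h3
  · exact ex_of_not h 0
lemma ex_add (s t : ℝ) (n : V) : ex (s + t) n = ex s n * ex t n := by
  by_cases h : B n n = 1
  · obtain ⟨a0, a1, a2, a3⟩ := ex_apply h s
    obtain ⟨b0, b1, b2, b3⟩ := ex_apply h t
    obtain ⟨c0, c1, c2, c3⟩ := ex_apply h (s + t)
    unfold B at h
    apply sl_ext <;>
      simp only [mul_apply', a0, a1, a2, a3, b0, b1, b2, b3, c0, c1, c2, c3, Real.cosh_add,
        Real.sinh_add]
    · linear_combination (-(Real.sinh s * Real.sinh t)) * h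
    · ring
    · ring
    · linear_combination (-(Real.sinh s * Real.sinh t)) * h
  · rw [ex_of_not h, ex_of_not h, ex_of_not h, mul_one]
lemma ex_neg (t : ℝ) (n : V) : ex (-t) n = (ex t n)⁻¹ := by
  rw [eq_inv_iff_mul_eq_one, ← ex_add, neg_add_cancel, ex_zero]
lemma ex_neg_right (t : ℝ) (n : V) : ex t (-n) = ex (-t) n := by
  by_cases h : B n n = 1
  · have h' : B (-n) (-n) = 1 := by simpa using h
    obtain ⟨a0, a1, a2, a3⟩ := ex_apply h' t
    obtain ⟨b0, b1, b2, b3⟩ := ex_apply h (-t)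
    apply sl_ext <;>
      simp only [a0, a1, a2, a3, b0, b1, b2, b3, Real.cosh_neg, Real.sinh_neg, V.neg_a, V.neg_b,
        V.neg_c] <;> ring
  · have h' : ¬ B (-n) (-n) = 1 := by simpa using h
    rw [ex_of_not h, ex_of_not h']
lemma ex_zpow (t : ℝ) (n : V) (m : ℤ) : ex t n ^ m = ex (m * t) n := by
  induction m using Int.induction_on with
  | zero => simp [ex_zero]
  | succ k ih =>
    rw [zpow_add_one, ih, ← ex_add]
    congr 1
    push_cast
    ring
  | pred k ih =>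
    rw [zpow_sub_one, ih, ← ex_neg, ← ex_add]
    congr 1
    push_cast
    ring
lemma ex_pow (t : ℝ) (n : V) (m : ℕ) : ex t n ^ m = ex (m * t) n := by
  rw [← zpow_natCast, ex_zpow, Int.cast_natCast]
lemma ex_conj (g : SL(2, ℝ)) (t : ℝ) (n : V) : g * ex t n * g⁻¹ = ex t (g • n) := by
  by_cases h : B n n = 1
  · have h' : B (g • n) (g • n) = 1 := by rw [B_ad, h]
    obtain ⟨a0, a1, a2, a3⟩ := ex_apply h t
    obtain ⟨b0, b1, b2, b3⟩ := ex_apply h' t
    obtain ⟨c0, c1, c2, c3⟩ := inv_apply' g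
    have hd := det_eq g
    apply sl_ext <;>
      simp only [mul_apply', a0, a1, a2, a3, b0, b1, b2, b3, c0, c1, c2, c3, ad_a, ad_b, ad_c]
    · linear_combination Real.cosh t * hd
    · ring
    · ring
    · linear_combination Real.cosh t * hd
  · have h' : ¬ B (g • n) (g • n) = 1 := by rwa [B_ad]
    rw [ex_of_not h, ex_of_not h', mul_one, mul_inv_cancel]
lemma tr_ex {n : V} (h : B n n = 1) (t : ℝ) : tr (ex t n) = 2 * Real.cosh t := by
  obtain ⟨a0, -, -, a3⟩ := ex_apply h t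
  rw [tr, a0, a3]
  ring
lemma ex_ad_self (t : ℝ) (n : V) : ex t n • n = n := by
  by_cases h : B n n = 1
  · obtain ⟨a0, a1, a2, a3⟩ := ex_apply h t
    have hc := Real.cosh_sq t
    unfold B at h
    ext <;> simp only [ad_a, ad_b, ad_c, a0, a1, a2, a3]
    · linear_combination n.a * hc - Real.sinh t ^ 2 * n.a * h
    · linear_combination n.b * hc - Real.sinh t ^ 2 * n.b * h
    · linear_combination n.c * hc - Real.sinh t ^ 2 * n.c * h
  · rw [ex_of_not h, one_smul]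
lemma B_ex_ad (t : ℝ) (n x : V) : B (ex t n • x) n = B x n :=
  calc B (ex t n • x) n = B (ex t n • x) (ex t n • n) := by rw [ex_ad_self]
    _ = B x n := B_ad _ _ _
lemma ex_ad_perp {n x : V} (h : B n n = 1) (hx : B n x = 0) (t : ℝ) :
    ex t n • x = Real.cosh (2 * t) • x + Real.sinh (2 * t) • cr n x := by
  obtain ⟨a0, a1, a2, a3⟩ := ex_apply h t
  unfold B at h hx
  ext <;> simp only [ad_a, ad_b, ad_c, a0, a1, a2, a3, V.add_a, V.add_b, V.add_c, V.smul_a,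
    V.smul_b, V.smul_c, cr, Real.cosh_two_mul, Real.sinh_two_mul]
  · linear_combination Real.sinh t ^ 2 * x.a * h - 2 * Real.sinh t ^ 2 * n.a * hx
  · linear_combination Real.sinh t ^ 2 * x.b * h - 2 * Real.sinh t ^ 2 * n.b * hx
  · linear_combination Real.sinh t ^ 2 * x.c * h - 2 * Real.sinh t ^ 2 * n.c * hx
private lemma ex_ne_neg {n m : V} (hn : B n n = 1) (hm : B m m = 1) (s t : ℝ) :
    ex t m ≠ -ex s n := by
  intro h
  have h1 := congrArg tr h
  rw [tr_neg, tr_ex hn, tr_ex hm] at h1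
  linarith [Real.cosh_pos s, Real.cosh_pos t]

lemma ex_inj {n m : V} (hn : B n n = 1) (hm : B m m = 1) {t : ℝ} (ht : t ≠ 0)
    (h : PM (ex t n) (ex t m)) : n = m := by
  rcases h with h | h
  · obtain ⟨a0, a1, a2, -⟩ := ex_apply hn t
    obtain ⟨b0, b1, b2, -⟩ := ex_apply hm t
    have hs : Real.sinh t ≠ 0 := Real.sinh_ne_zero.2 ht
    rw [h] at b0 b1 b2
    ext
    · exact mul_left_cancel₀ hs (by linarith)
    · exact mul_left_cancel₀ hs (by linarith)
    · exact mul_left_cancel₀ hs (by linarith)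
  · exact absurd h (ex_ne_neg hn hm t t)
lemma ex_pm_inj {n : V} (hn : B n n = 1) {s t : ℝ} (h : PM (ex s n) (ex t n)) : s = t := by
  rcases h with h | h
  · obtain ⟨a0, a1, a2, a3⟩ := ex_apply hn s
    obtain ⟨b0, b1, b2, b3⟩ := ex_apply hn t
    rw [h] at b0 b1 b2 b3
    unfold B at hn
    apply Real.sinh_injective
    linear_combination (-(Real.sinh s - Real.sinh t)) * hn
      + n.a / 2 * ((b0 - a0) - (b3 - a3)) + n.c / 2 * (b1 - a1) + n.b / 2 * (b2 - a2)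
  · exact absurd h (ex_ne_neg hn hn s t)
lemma ex_ne_one {n : V} (hn : B n n = 1) {t : ℝ} (ht : t ≠ 0) : ex t n ≠ 1 ∧ ex t n ≠ -1 := by
  constructor
  · intro h
    exact ht (ex_pm_inj hn (s := 0) (Or.inl (by rw [h, ex_zero]))).symm
  · intro h
    exact ht (ex_pm_inj hn (s := 0) (Or.inr (by rw [h, ex_zero]))).symm
private lemma one_lt_cosh_two {t : ℝ} (ht : t ≠ 0) : 1 < Real.cosh (2 * t) :=
  Real.one_lt_cosh.2 (mul_ne_zero two_ne_zero ht)

private lemma cr_cr_perp {n v : V} (hn : B n n = 1) (hv : B n v = 0) : cr n (cr n v) = v := by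
  rw [cr_cr, hn, hv, one_smul, zero_smul, sub_zero]

private lemma eq_zero_of_fix {n v : V} (hn : B n n = 1) (hv : B n v = 0) {t : ℝ} (ht : t ≠ 0)
    (h : ex t n • v = v) : v = 0 := by
  rw [ex_ad_perp hn hv] at h
  have h1 := congrArg (cr n) h
  rw [cr_add_right, cr_smul_right, cr_smul_right, cr_cr_perp hn hv] at h1
  have hc := Real.cosh_sq (2 * t)
  have hp : 2 * (Real.cosh (2 * t) - 1) ≠ 0 := by linarith [one_lt_cosh_two ht]
  have ha := congrArg V.a h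
  have hb := congrArg V.b h
  have hcc := congrArg V.c h
  have ha1 := congrArg V.a h1
  have hb1 := congrArg V.b h1
  have hc1 := congrArg V.c h1
  simp only [V.add_a, V.add_b, V.add_c, V.smul_a, V.smul_b, V.smul_c] at ha hb hcc ha1 hb1 hc1
  ext
  · refine mul_left_cancel₀ hp ?_
    rw [V.zero_a]
    linear_combination Real.sinh (2 * t) * ha1 - (Real.cosh (2 * t) - 1) * ha + v.a * hc
  · refine mul_left_cancel₀ hp ?_
    rw [V.zero_b]
    linear_combination Real.sinh (2 * t) * hb1 - (Real.cosh (2 * t) - 1) * hb + v.b * hc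
  · refine mul_left_cancel₀ hp ?_
    rw [V.zero_c]
    linear_combination Real.sinh (2 * t) * hc1 - (Real.cosh (2 * t) - 1) * hcc + v.c * hc

/-- A nontrivial translation fixes only its own wall among unit vectors. -/
lemma eq_of_ex_fix {n m : V} (hn : B n n = 1) (hm : B m m = 1) {t : ℝ} (ht : t ≠ 0)
    (h : ex t n • m = m) : m = n ∨ m = -n := by
  have hv : B n (m - B n m • n) = 0 := by simp [hn]
  have h0 : m - B n m • n = 0 := by
    refine eq_zero_of_fix hn hv ht ?_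
    rw [smul_sub, ad_real, h, ex_ad_self]
  have h1 : m = B n m • n := sub_eq_zero.1 h0
  have h2 : B n m * B n m = 1 := by
    have h3 : B m m = B (B n m • n) (B n m • n) := by rw [← h1]
    rw [B_smul_left, B_smul_right, hn, hm, mul_one] at h3
    exact h3.symm
  rcases mul_self_eq_one_iff.1 h2 with h3 | h3
  · left
    rw [h1, h3, one_smul]
  · right
    rw [h1, h3, neg_one_smul]
private lemma exists_ex_pos {g : SL(2, ℝ)} (h : 2 < tr g) :
    ∃ n t, B n n = 1 ∧ 0 < t ∧ ex t n = g := by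
  have h1 : 1 < tr g / 2 := by linarith
  have ht := Real.arcosh_pos h1
  have hc := Real.cosh_arcosh h1.le
  generalize Real.arcosh (tr g / 2) = t at ht hc
  have hs : Real.sinh t ≠ 0 := Real.sinh_ne_zero.2 ht.ne'
  have hq := Real.cosh_sq t
  have hd := det_eq g
  unfold tr at hc
  have hn : B ((Real.sinh t)⁻¹ • V.ofMat g.1) ((Real.sinh t)⁻¹ • V.ofMat g.1) = 1 := by
    have h2 : B (V.ofMat g.1) (V.ofMat g.1) = Real.sinh t * Real.sinh t := by
      change (g 0 0 - g 1 1) / 2 * ((g 0 0 - g 1 1) / 2) + (g 0 1 * g 1 0 + g 1 0 * g 0 1) / 2 = _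
      rw [hc] at hq
      linear_combination hq - hd
    rw [B_smul_left, B_smul_right, h2]
    field_simp
  refine ⟨_, t, hn, ht, ?_⟩
  obtain ⟨a0, a1, a2, a3⟩ := ex_apply hn t
  have e0 : (V.ofMat g.1).a = (g 0 0 - g 1 1) / 2 := rfl
  have e1 : (V.ofMat g.1).b = g 0 1 := rfl
  have e2 : (V.ofMat g.1).c = g 1 0 := rfl
  apply sl_ext
  · rw [a0, V.smul_a, mul_inv_cancel_left₀ hs, e0, hc]
    ring
  · rw [a1, V.smul_b, mul_inv_cancel_left₀ hs, e1]
  · rw [a2, V.smul_c, mul_inv_cancel_left₀ hs, e2]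
  · rw [a3, V.smul_a, mul_inv_cancel_left₀ hs, e0, hc]
    ring

lemma exists_ex {g : SL(2, ℝ)} (h : 2 < |tr g|) :
    ∃ n t, B n n = 1 ∧ 0 < t ∧ PM (ex t n) g := by
  rcases lt_abs.1 h with h1 | h1
  · obtain ⟨n, t, hn, ht, e⟩ := exists_ex_pos h1
    exact ⟨n, t, hn, ht, Or.inl e.symm⟩
  · rw [← tr_neg] at h1
    obtain ⟨n, t, hn, ht, e⟩ := exists_ex_pos h1
    exact ⟨n, t, hn, ht, Or.inr (by rw [e, neg_neg])⟩
private lemma stab_ex_pos {g : SL(2, ℝ)} {n : V} (hn : B n n = 1) (h : g • n = n)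
    (hp : 0 ≤ tr g) : ∃ t, ex t n = g := by
  have hd := det_eq g
  have ha := congrArg V.a h
  have hb := congrArg V.b h
  have hc := congrArg V.c h
  rw [ad_a] at ha
  rw [ad_b] at hb
  rw [ad_c] at hc
  have h0 : cr n (V.ofMat g.1) = 0 := by
    ext
    · change (n.b * g 1 0 - n.c * g 0 1) / 2 = 0
      linear_combination (-(g 0 0) / 2) * ha - g 1 0 / 2 * hb
        + (g 0 0 * n.a + g 0 1 * n.c) / 2 * hd
    · change n.a * g 0 1 - n.b * ((g 0 0 - g 1 1) / 2) = 0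
      linear_combination (-(g 0 1) / 2) * ha - g 1 1 / 2 * hb
        + (g 0 0 * n.b - g 0 1 * n.a) / 2 * hd
    · change n.c * ((g 0 0 - g 1 1) / 2) - n.a * g 1 0 = 0
      linear_combination (-(g 0 0) / 2) * hc + g 1 0 / 2 * ha
        + (g 1 0 * n.a + g 1 1 * n.c) / 2 * hd
  have h1 := cr_cr n n (V.ofMat g.1)
  rw [h0, hn, one_smul] at h1
  have h2 : cr n 0 = 0 := by
    rw [← zero_smul ℝ (0 : V), cr_smul_right, zero_smul, zero_smul]
  rw [h2] at h1
  have h3 := (sub_eq_zero.1 h1.symm)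
  generalize B n (V.ofMat g.1) = β at h3
  have e0 : (g 0 0 - g 1 1) / 2 = β * n.a := congrArg V.a h3
  have e1 : g 0 1 = β * n.b := congrArg V.b h3
  have e2 : g 1 0 = β * n.c := congrArg V.c h3
  have hs := Real.sinh_arsinh β
  have hq : Real.cosh (Real.arsinh β) = tr g / 2 := by
    have h4 := Real.cosh_sq (Real.arsinh β)
    rw [hs] at h4
    refine (sq_eq_sq₀ (Real.cosh_pos _).le (by linarith)).1 ?_
    unfold B at hn
    rw [h4, tr]
    rw [e1, e2] at hd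
    linear_combination (-1 : ℝ) * hd - β ^ 2 * hn - ((g 0 0 - g 1 1) / 2 + β * n.a) * e0
  obtain ⟨a0, a1, a2, a3⟩ := ex_apply hn (Real.arsinh β)
  rw [hs] at a0 a1 a2 a3
  rw [hq, tr] at a0 a3
  refine ⟨Real.arsinh β, sl_ext ?_ ?_ ?_ ?_⟩ <;> linarith

lemma stab_ex {g : SL(2, ℝ)} {n : V} (hn : B n n = 1) (h : g • n = n) :
    ∃ t, PM (ex t n) g := by
  rcases le_total 0 (tr g) with h1 | h1
  · obtain ⟨t, e⟩ := stab_ex_pos hn h h1
    exact ⟨t, Or.inl e.symm⟩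
  · obtain ⟨t, e⟩ := stab_ex_pos (g := -g) hn (by rw [neg_ad, h]) (by rw [tr_neg]; linarith)
    exact ⟨t, Or.inr (by rw [e, neg_neg])⟩
lemma trace_mat_mul_ex {n : V} (hn : B n n = 1) (t : ℝ) (x : V) :
    (x.mat * (ex t n).1).trace = 2 * Real.sinh t * B x n := by
  rw [ex_val hn, Matrix.mul_add, Matrix.mul_smul, Matrix.mul_smul, Matrix.mul_one,
    Matrix.trace_add, Matrix.trace_smul, Matrix.trace_smul, mat_trace, B_eq_trace]
  simp only [smul_eq_mul]
  ring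
lemma exists_ad_sub {n v : V} (hn : B n n = 1) {t : ℝ} (ht : t ≠ 0) (hv : B v n = 0) :
    ∃ k : V, ex t n • k - k = v := by
  rw [B_comm] at hv
  have hw : B n (cr n v) = 0 := B_cr_left n v
  have hp : Real.cosh (2 * t) - 1 ≠ 0 := by linarith [one_lt_cosh_two ht]
  have hc := Real.cosh_sq (2 * t)
  obtain ⟨y, hy⟩ : ∃ y, 2 * (Real.cosh (2 * t) - 1) * y = Real.sinh (2 * t) :=
    ⟨Real.sinh (2 * t) / (2 * (Real.cosh (2 * t) - 1)), by field_simp⟩
  have hz : 2 * Real.sinh (2 * t) * y = Real.cosh (2 * t) + 1 := by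
    refine mul_left_cancel₀ hp ?_
    linear_combination Real.sinh (2 * t) * hy - hc
  refine ⟨(-1 / 2 : ℝ) • v + y • cr n v, ?_⟩
  rw [smul_add, ad_real, ad_real, ex_ad_perp hn hv, ex_ad_perp hn hw, cr_cr_perp hn hv]
  generalize cr n v = w
  ext <;> simp only [V.add_a, V.add_b, V.add_c, V.smul_a, V.smul_b, V.smul_c, V.sub_a, V.sub_b,
    V.sub_c]
  · linear_combination v.a / 2 * hz + w.a / 2 * hy
  · linear_combination v.b / 2 * hz + w.b / 2 * hy
  · linear_combination v.c / 2 * hz + w.c / 2 * hy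
private lemma tr_ex_mul {n m : V} (hn : B n n = 1) (hm : B m m = 1) (s t : ℝ) :
    tr (ex s n * ex t m) =
      2 * (Real.cosh s * Real.cosh t + Real.sinh s * Real.sinh t * B n m) := by
  obtain ⟨a0, a1, a2, a3⟩ := ex_apply hn s
  obtain ⟨b0, b1, b2, b3⟩ := ex_apply hm t
  simp only [tr, mul_apply', a0, a1, a2, a3, b0, b1, b2, b3, B]
  ring

private lemma B_ex_ad_self {a w : V} (ha : B a a = 1) (hw : B w w = 1) (l : ℝ) :
    B (ex l a • w) w = 1 + 2 * Real.sinh l ^ 2 * (1 - B a w ^ 2) := by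
  obtain ⟨v, hv⟩ : ∃ v, w = B a w • a + v := ⟨w - B a w • a, by abel⟩
  generalize hβ : B a w = β at hv
  have h1 : B a v = 0 := by
    rw [hv, B_add_right, B_smul_right, ha] at hβ
    linarith
  have h1' : B v a = 0 := by rw [B_comm, h1]
  have h2 : B v v = 1 - β ^ 2 := by
    rw [hv] at hw
    simp only [B_add_left, B_add_right, B_smul_left, B_smul_right, ha, h1, h1'] at hw
    linarith
  have h3 : B (cr a v) a = 0 := by rw [B_comm, B_cr_left]
  have h4 : B (cr a v) v = 0 := by rw [B_comm, B_cr_right]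
  rw [hv, smul_add, ad_real, ex_ad_self, ex_ad_perp ha h1]
  simp only [B_add_left, B_add_right, B_smul_left, B_smul_right, ha, h1, h1', h2, h3, h4,
    Real.cosh_two_mul, Real.cosh_sq]
  ring

lemma tr_comm {a w : V} (ha : B a a = 1) (hw : B w w = 1) (l : ℝ) :
    tr (ex l a * ex l w * (ex l a)⁻¹ * (ex l w)⁻¹) =
      2 - 4 * Real.sinh l ^ 4 * (1 - B a w ^ 2) := by
  have h1 : B (ex l a • w) (ex l a • w) = 1 := by rw [B_ad, hw]
  rw [ex_conj, ← ex_neg, tr_ex_mul h1 hw, B_ex_ad_self ha hw, Real.cosh_neg, Real.sinh_neg]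
  linear_combination 2 * Real.cosh_sq l
lemma exists_fr {n : V} (hn : B n n = 1) : ∃ g : SL(2, ℝ), g • w0 = n := by
  unfold B at hn
  by_cases h : 1 + n.a = 0
  · refine ⟨⟨!![n.b, -1 / 2; 2, n.c / 4], ?_⟩, ?_⟩
    · rw [Matrix.det_fin_two_of]
      linear_combination 1 / 4 * hn + (1 - n.a) / 4 * h
    · ext
      · change 1 * (n.b * (n.c / 4) + -1 / 2 * 2) - 0 * (n.b * 2) + 0 * (-1 / 2 * (n.c / 4)) = n.a
        linear_combination 1 / 4 * hn + (1 - n.a) / 4 * h - h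
      · change -2 * 1 * (n.b * (-1 / 2)) + 0 * n.b ^ 2 - 0 * (-1 / 2) ^ 2 = n.b
        ring
      · change 2 * 1 * (2 * (n.c / 4)) - 0 * 2 ^ 2 + 0 * (n.c / 4) ^ 2 = n.c
        ring
  · obtain ⟨y, hy⟩ : ∃ y, 2 * (1 + n.a) * y = -n.b := ⟨-n.b / (2 * (1 + n.a)), by field_simp⟩
    have hz : 2 * y * n.c = n.a - 1 := by
      refine mul_left_cancel₀ h ?_
      linear_combination n.c * hy - hn
    refine ⟨⟨!![1 + n.a, y; n.c, 1 / 2], ?_⟩, ?_⟩
    · rw [Matrix.det_fin_two_of]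
      linear_combination (-1 / 2 : ℝ) * hz
    · ext
      · change 1 * ((1 + n.a) * (1 / 2) + y * n.c) - 0 * ((1 + n.a) * n.c) + 0 * (y * (1 / 2)) = n.a
        linear_combination 1 / 2 * hz
      · change -2 * 1 * ((1 + n.a) * y) + 0 * (1 + n.a) ^ 2 - 0 * y ^ 2 = n.b
        linear_combination (-1 : ℝ) * hy
      · change 2 * 1 * (n.c * (1 / 2)) - 0 * n.c ^ 2 + 0 * (1 / 2) ^ 2 = n.c
        ring
lemma fr_w0 {n : V} (hn : B n n = 1) : fr n • w0 = n := by
  have h := exists_fr hn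
  unfold fr
  rw [dif_pos h]
  exact h.choose_spec

end

end Pool.Agent.P.MP_d39174_gt

end

section
/-! Systolic walls, primitive periods, weights. -/

namespace Pool.Agent.P.MP_d39174_gt

open UpperHalfPlane MatrixGroups

noncomputable section

private lemma VE2_ad {Γ : Subgroup SL(2, ℝ)} {u : SL(2, ℝ) → V} (hu : Coc Γ u) {l : ℝ} {m : V}
    (hm : ex l m ∈ Γ) {g : SL(2, ℝ)} (hg : g ∈ Γ) :
    B (u (ex l (g • m))) (g • m) = B (u (ex l m)) m := by
  have hc : ex l (g • m) = g * ex l m * g⁻¹ := (ex_conj g l m).symm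
  have h1 : u (ex l (g • m)) = u g + g • u (ex l m) - ex l (g • m) • u g := by
    rw [hc, hu _ (Γ.mul_mem hg hm) _ (Γ.inv_mem hg), hu _ hg _ hm, hu.inv hg, smul_neg,
      ← mul_smul, sub_eq_add_neg]
  rw [h1, B_sub_left, B_add_left, B_ex_ad, B_ad]
  ring

private lemma VE2_neg {Γ : Subgroup SL(2, ℝ)} {u : SL(2, ℝ) → V} (hu : Coc Γ u) {l : ℝ} {m : V}
    (hm : ex l m ∈ Γ) : B (u (ex l (-m))) (-m) = B (u (ex l m)) m := by
  rw [ex_neg_right, ex_neg, hu.inv hm, B_neg_left, B_neg_right, neg_neg, ← ex_neg, B_ex_ad]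

lemma SS.ad {Γ : Subgroup SL(2, ℝ)} {l : ℝ} {n : V} (hn : n ∈ SS Γ l) {g : SL(2, ℝ)}
    (hg : g ∈ Γ) : g • n ∈ SS Γ l :=
  ⟨by rw [B_ad]; exact hn.1, by
    rw [← ex_conj]; exact Γ.mul_mem (Γ.mul_mem hg hn.2) (Γ.inv_mem hg)⟩

lemma SS.neg {Γ : Subgroup SL(2, ℝ)} {l : ℝ} {n : V} (hn : n ∈ SS Γ l) : -n ∈ SS Γ l :=
  ⟨by rw [B_neg_left, B_neg_right, neg_neg]; exact hn.1, by
    rw [ex_neg_right, ex_neg]; exact Γ.inv_mem hn.2⟩

/-- The derivative of the length of a systole along a cocycle depends only on the class. -/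
lemma Coc.B_eqw {Γ : Subgroup SL(2, ℝ)} {u : SL(2, ℝ) → V} (hu : Coc Γ u) {l : ℝ} {m n : V}
    (hm : m ∈ SS Γ l) (h : Eqw Γ m n) : B (u (ex l n)) n = B (u (ex l m)) m := by
  obtain ⟨g, hg, rfl | rfl⟩ := h
  · exact VE2_ad hu hm.2 hg
  · rw [VE2_neg hu (SS.ad hm hg).2, VE2_ad hu hm.2 hg]

lemma SS.eqw {Γ : Subgroup SL(2, ℝ)} {l : ℝ} {m n : V} (hm : m ∈ SS Γ l) (h : Eqw Γ m n) :
    n ∈ SS Γ l := by
  obtain ⟨g, hg, rfl | rfl⟩ := h
  · exact SS.ad hm hg
  · exact SS.neg (SS.ad hm hg)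

lemma Prim.ad {Γ : Subgroup SL(2, ℝ)} {n : V} {t : ℝ} (h : Prim Γ n t) {g : SL(2, ℝ)}
    (hg : g ∈ Γ) : Prim Γ (g • n) t where
  unit := by rw [B_ad]; exact h.unit
  pos := h.pos
  mem := by rw [← ex_conj]; exact Γ.mul_mem (Γ.mul_mem hg h.mem) (Γ.inv_mem hg)
  gen k hk e := by
    have e' : (g⁻¹ * k * g) • n = n := by
      rw [mul_smul, mul_smul, e, inv_smul_smul]
    obtain ⟨m, hm⟩ := h.gen _ (Γ.mul_mem (Γ.mul_mem (Γ.inv_mem hg) hk) hg) e'
    refine ⟨m, ?_⟩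
    have := ((PM.refl g).mul hm).mul (PM.refl g⁻¹)
    rw [ex_conj] at this
    convert this using 1
    group

lemma Prim.neg {Γ : Subgroup SL(2, ℝ)} {n : V} {t : ℝ} (h : Prim Γ n t) : Prim Γ (-n) t where
  unit := by rw [B_neg_left, B_neg_right, neg_neg]; exact h.unit
  pos := h.pos
  mem := by rw [ex_neg_right, ex_neg]; exact Γ.inv_mem h.mem
  gen k hk e := by
    have e' : k • n = n := by
      rw [smul_neg] at e
      exact neg_injective e
    obtain ⟨m, hm⟩ := h.gen k hk e'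
    refine ⟨-m, ?_⟩
    rw [ex_neg_right]
    convert hm using 2
    push_cast
    ring

lemma Prim.uniq {Γ : Subgroup SL(2, ℝ)} {n : V} {s t : ℝ} (h : Prim Γ n s) (h' : Prim Γ n t) :
    s = t := by
  obtain ⟨a, ha⟩ := h.gen _ h'.mem (ex_ad_self t n)
  obtain ⟨b, hb⟩ := h'.gen _ h.mem (ex_ad_self s n)
  have e1 := ex_pm_inj h.unit ha
  have e2 := ex_pm_inj h.unit hb
  have hs := h.pos
  have ht := h'.pos
  have ha1 : (1 : ℝ) ≤ a := by
    have : (0 : ℝ) < a := by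
      by_contra hh
      push Not at hh
      nlinarith
    have : (0 : ℤ) < a := by exact_mod_cast this
    exact_mod_cast this
  have hb1 : (1 : ℝ) ≤ b := by
    have : (0 : ℝ) < b := by
      by_contra hh
      push Not at hh
      nlinarith
    have : (0 : ℤ) < b := by exact_mod_cast this
    exact_mod_cast this
  apply le_antisymm <;> nlinarith

lemma Per.ad {Γ : Subgroup SL(2, ℝ)} {n : V} (h : Per Γ n) {g : SL(2, ℝ)} (hg : g ∈ Γ) :
    Per Γ (g • n) := by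
  obtain ⟨h1, t, ht, hm⟩ := h
  have := SS.ad (l := t) ⟨h1, hm⟩ hg
  exact ⟨this.1, t, ht, this.2⟩

lemma Per.neg {Γ : Subgroup SL(2, ℝ)} {n : V} (h : Per Γ n) : Per Γ (-n) := by
  obtain ⟨h1, t, ht, hm⟩ := h
  have := SS.neg (l := t) ⟨h1, hm⟩
  exact ⟨this.1, t, ht, this.2⟩

/-- Redistribution of the weights of a critical point over any finite family of systolic walls
that meets every class. -/
lemma CritV.redistribute {Γ : Subgroup SL(2, ℝ)} {l : ℝ} (h : CritV Γ l) {ι : Type*} [Fintype ι]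
    (w : ι → V) (hw : ∀ i, w i ∈ SS Γ l) (hc : ∀ n ∈ SS Γ l, ∃ i, Eqw Γ (w i) n) :
    ∃ c : ι → ℝ, (∀ i, 0 < c i) ∧
      ∀ u, Coc Γ u → ∑ i, c i * B (u (ex l (w i))) (w i) = 0 := by
  classical
  obtain ⟨T, hT, hU, c, hc0, hs⟩ := h
  choose m hm hmu using fun i => hU (w i) (hw i)
  have hsurj : ∀ n ∈ T, ∃ i, m i = n := by
    intro n hn
    obtain ⟨i, hi⟩ := hc n (hT n hn)
    exact ⟨i, (hmu i n ⟨hn, hi.symm⟩).symm⟩
  have hcard : ∀ n ∈ T, (0 : ℝ) < ((Finset.univ.filter fun j => m j = n).card : ℝ) := by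
    intro n hn
    obtain ⟨i, hi⟩ := hsurj n hn
    have : 0 < (Finset.univ.filter fun j => m j = n).card :=
      Finset.card_pos.2 ⟨i, by simp [hi]⟩
    exact_mod_cast this
  refine ⟨fun i => c (m i) / ((Finset.univ.filter fun j => m j = m i).card : ℝ),
    fun i => div_pos (hc0 _ (hm i).1) (hcard _ (hm i).1), fun u hu => ?_⟩
  rw [← hs u hu, ← Finset.sum_fiberwise_of_maps_to (s := Finset.univ) (t := T) (g := m)
    (fun i _ => (hm i).1)]
  refine Finset.sum_congr rfl fun n hn => ?_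
  have : ∀ i ∈ Finset.univ.filter fun j => m j = n,
      c (m i) / ((Finset.univ.filter fun j => m j = m i).card : ℝ) * B (u (ex l (w i))) (w i) =
        c n / ((Finset.univ.filter fun j => m j = n).card : ℝ) * B (u (ex l n)) n := by
    intro i hi
    have e : m i = n := (Finset.mem_filter.1 hi).2
    rw [hu.B_eqw (hT _ (hm i).1) (hm i).2, e]
  rw [Finset.sum_congr rfl this, Finset.sum_const, nsmul_eq_mul]
  have := (hcard n hn).ne'
  field_simp

end

end Pool.Agent.P.MP_d39174_gt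

end

section
/-! The hyperboloid model. -/

namespace Pool.Agent.P.MP_d39174_gt

open UpperHalfPlane MatrixGroups

noncomputable section

lemma Hy_unit (z : ℍ) : B (Hy z) (Hy z) = -1 := by
  have := z.im_pos.ne'
  simp only [B, Hy]
  field_simp
  ring

lemma Hy_fut (z : ℍ) : Fut (Hy z) := by
  have := z.im_pos
  refine ⟨by rw [Hy_unit]; norm_num, ?_⟩
  simp only [Hy]
  positivity

lemma VH_re_im (g : SL(2, ℝ)) (z : ℍ) : ∃ D : ℝ, D ≠ 0 ∧
    D = (g 1 0 * z.re + g 1 1) ^ 2 + (g 1 0 * z.im) ^ 2 ∧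
    (g • z).re = ((g 0 0 * z.re + g 0 1) * (g 1 0 * z.re + g 1 1) + g 0 0 * g 1 0 * z.im ^ 2) / D ∧
    (g • z).im = z.im / D := by
  have hd := det_eq g
  have hy := z.im_pos
  have h0 : 0 < (g 1 0 * z.re + g 1 1) ^ 2 + (g 1 0 * z.im) ^ 2 := by
    by_cases h : g 1 0 = 0
    · have : g 1 1 ≠ 0 := fun h' => by simp [h, h'] at hd
      simp only [h, zero_mul, zero_add]
      positivity
    · positivity
  have e := coe_specialLinearGroup_apply g z
  have e1 := congrArg Complex.re e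
  have e2 := congrArg Complex.im e
  simp only [Algebra.algebraMap_self, RingHom.id_apply, Complex.div_re, Complex.div_im,
    Complex.normSq_apply, Complex.add_re, Complex.add_im, Complex.mul_re, Complex.mul_im,
    Complex.ofReal_re, Complex.ofReal_im, coe_re, coe_im, zero_mul, sub_zero, add_zero,
    ← sq, ← add_div, ← sub_div] at e1 e2
  refine ⟨_, h0.ne', rfl, e1.trans (congrArg (· / _) ?_), e2.trans (congrArg (· / _) ?_)⟩
  · ring
  · linear_combination z.im * hd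

lemma Hy_smul (g : SL(2, ℝ)) (z : ℍ) : Hy (g • z) = g • Hy z := by
  obtain ⟨D, h0, hD, h1, h2⟩ := VH_re_im g z
  have hd := det_eq g
  have hy := z.im_pos.ne'
  ext
  · simp only [ad_a, Hy, h1, h2]
    field_simp
    ring
  · simp only [ad_b, Hy, h1, h2]
    field_simp
    rw [hD]
    linear_combination (-z.im ^ 2 * (g 0 0 * g 1 1 - g 0 1 * g 1 0 + 1)) * hd
  · simp only [ad_c, Hy, h1, h2]
    field_simp
    rw [hD]
    ring

lemma Hy_I : Hy I = o0 := by
  ext <;> simp [Hy, o0]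

lemma cosh_dist_eq (z w : ℍ) : Real.cosh (dist z w) = -B (Hy z) (Hy w) := by
  have := z.im_pos.ne'
  have := w.im_pos.ne'
  rw [cosh_dist']
  simp only [B, Hy]
  field_simp
  ring

lemma VH_c_neg {p : V} (h : Fut p) : p.c < 0 := by
  have h1 := h.1
  by_contra h3
  unfold B at h1
  nlinarith [mul_self_nonneg p.a, mul_nonneg h.2.le (not_lt.1 h3)]

lemma Hy_pt {p : V} (h : Fut p) : Hy (pt p) = (1 / √(-B p p)) • p := by
  have hc := (VH_c_neg h).ne
  have h1 : 0 < -B p p := neg_pos.2 h.1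
  have h2 := Real.sq_sqrt h1.le
  have h3 := (Real.sqrt_pos.2 h1).ne'
  have e1 : (pt p).re = p.a / p.c := by rw [pt, dif_pos h]; rfl
  have e2 : (pt p).im = √(-B p p) / -p.c := by rw [pt, dif_pos h]; rfl
  ext
  · simp only [Hy, e1, e2, V.smul_a]
    field_simp
  · simp only [Hy, e1, e2, V.smul_b]
    generalize √(-B p p) = s at h2 h3 ⊢
    unfold B at h2
    field_simp
    linear_combination -h2
  · simp only [Hy, e1, e2, V.smul_c]
    field_simp

lemma Hy_pt_unit {p : V} (h : Fut p) (h1 : B p p = -1) : Hy (pt p) = p := by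
  rw [Hy_pt h, h1]
  simp

lemma Hy_inj {z w : ℍ} (h : Hy z = Hy w) : z = w := by
  have hz := z.im_pos.ne'
  have hw := w.im_pos.ne'
  have h1 : -1 / z.im = -1 / w.im := congrArg V.c h
  have h2 : -z.re / z.im = -w.re / w.im := congrArg V.a h
  have h3 : z.im = w.im := by
    field_simp at h1
    linarith
  rw [h3] at h2
  field_simp at h2
  exact ext_re_im (by linarith) h3

lemma pt_Hy (z : ℍ) : pt (Hy z) = z :=
  Hy_inj (Hy_pt_unit (Hy_fut z) (Hy_unit z))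

lemma Fut.B_N {p : V} (h : Fut p) {x : W} (hx : x ≠ ⟨0, 0⟩) : B p (N x) < 0 := by
  have h1 := h.1
  have h2 := h.2
  have e : p.b * (-2 * B p (N x)) = (p.b * x.q + p.a * x.p) ^ 2 + -B p p * x.p ^ 2 := by
    simp only [B, N]
    ring
  have h3 : 0 < (p.b * x.q + p.a * x.p) ^ 2 + -B p p * x.p ^ 2 := by
    have h4 : 0 < -B p p := neg_pos.2 h1
    by_cases hp : x.p = 0
    · have hq : x.q ≠ 0 := fun hq => hx (W.ext hp hq)
      rw [hp, mul_zero, add_zero]
      positivity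
    · positivity
  have := (mul_pos_iff_of_pos_left h2).1 (e ▸ h3)
  linarith

lemma Fut.ad {p : V} (h : Fut p) (g : SL(2, ℝ)) : Fut (g • p) := by
  refine ⟨by rw [B_ad]; exact h.1, ?_⟩
  have hd := det_eq g
  have h1 := h.B_N (x := ⟨-g 0 1, g 0 0⟩) fun e => by
    have e1 : -g 0 1 = 0 := congrArg W.p e
    have e2 : g 0 0 = 0 := congrArg W.q e
    rw [e2, neg_eq_zero.1 e1] at hd
    simp at hd
  simp only [B, N] at h1
  rw [ad_b]
  linarith

lemma pt_ad (g : SL(2, ℝ)) {p : V} (h : Fut p) : pt (g • p) = g • pt p :=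
  Hy_inj (by
  rw [Hy_smul, Hy_pt h, Hy_pt (h.ad g), B_ad, ad_real])

lemma Fut.smul {p : V} (h : Fut p) {t : ℝ} (ht : 0 < t) : Fut (t • p) := by
  refine ⟨?_, mul_pos ht h.2⟩
  rw [B_smul_left, B_smul_right]
  exact mul_neg_of_pos_of_neg ht (mul_neg_of_pos_of_neg ht h.1)

lemma VH_id (p q : V) : -2 * B p q * (p.b * q.b) =
    (q.a * p.b - p.a * q.b) ^ 2 + p.b ^ 2 * -B q q + q.b ^ 2 * -B p p := by
  unfold B
  ring

lemma VH_pos {p q : V} (h : Fut p) (hq : B q q < 0) : 0 < -2 * B p q * (p.b * q.b) := by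
  have h1 := neg_pos.2 h.1
  have h2 := h.2
  have h3 := neg_pos.2 hq
  rw [VH_id]
  positivity

lemma Fut.B_neg {p q : V} (h : Fut p) (h' : Fut q) : B p q < 0 := by
  have := (mul_pos_iff_of_pos_right (mul_pos h.2 h'.2)).1 (VH_pos h h'.1)
  linarith

lemma Fut.of_B {p q : V} (h : Fut p) (hq : B q q < 0) (hpq : B p q < 0) : Fut q :=
  ⟨hq, (mul_pos_iff_of_pos_left h.2).1
  ((mul_pos_iff_of_pos_left (by linarith)).1 (VH_pos h hq))⟩

lemma Fut.add {p q : V} (h : Fut p) (h' : Fut q) : Fut (p + q) := by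
  refine ⟨?_, add_pos h.2 h'.2⟩
  simp only [B_add_left, B_add_right]
  linarith [h.1, h'.1, h.B_neg h', h'.B_neg h]

lemma Fut.comb {p q : V} (h : Fut p) (h' : Fut q) {s t : ℝ} (hs : 0 ≤ s) (ht : 0 ≤ t)
    (hst : 0 < s + t) : Fut (s • p + t • q) := by
  rcases hs.eq_or_lt with rfl | hs'
  · rw [zero_smul, zero_add]
    exact h'.smul (by linarith)
  rcases ht.eq_or_lt with rfl | ht'
  · rw [zero_smul, add_zero]
    exact h.smul hs'
  exact (h.smul hs').add (h'.smul ht')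

/-- The orthogonal complement of a timelike vector is positive definite. -/
lemma B_pos_of_perp {p v : V} (h : B p p < 0) (hv : B p v = 0) (h0 : v ≠ 0) : 0 < B v v := by
  have hc : p.c ≠ 0 := fun hc => by
    unfold B at h
    rw [hc] at h
    nlinarith [mul_self_nonneg p.a]
  have e : p.c ^ 2 * B v v = (p.c * v.a - p.a * v.c) ^ 2 + -B p p * v.c ^ 2 := by
    unfold B at hv ⊢
    linear_combination (2 * p.c * v.c) * hv
  have h1 := neg_pos.2 h
  refine (mul_pos_iff_of_pos_left (by positivity : 0 < p.c ^ 2)).1 (e ▸ ?_)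
  by_cases h2 : v.c = 0
  · have h3 : v.a ≠ 0 := fun h3 => h0 (by
      unfold B at hv
      rw [h2, h3] at hv
      refine V.ext h3 ((mul_eq_zero.1 (by linarith : p.c * v.b = 0)).resolve_left hc) h2)
    rw [h2, mul_zero, sub_zero]
    positivity
  · positivity

lemma Fut.cs {p q : V} (h : Fut p) (h' : Fut q) : B p p * B q q ≤ B p q ^ 2 := by
  rw [← sub_nonneg, ← B_cr_cr]
  by_cases h0 : cr p q = 0
  · simp [h0]
  · exact (B_pos_of_perp h.1 (B_cr_left p q) h0).le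

lemma Fut.or_neg {q : V} (hq : B q q < 0) : Fut q ∨ Fut (-q) := by
  rcases lt_trichotomy q.b 0 with h | h | h
  · exact Or.inr ⟨by simpa using hq, neg_pos.2 h⟩
  · unfold B at hq
    rw [h] at hq
    nlinarith [mul_self_nonneg q.a]
  · exact Or.inl ⟨hq, h⟩

lemma Fut.foot {p n : V} (h : Fut p) (hn : B n n = 1) {s : ℝ} (h0 : 0 ≤ s) (h1 : s ≤ 1) :
    Fut (p - (s * B n p) • n) := by
  have h2 := mul_nonneg h0 (mul_self_nonneg (B n p))
  have h3 := mul_nonneg h2 (sub_nonneg.2 h1)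
  refine h.of_B ?_ ?_ <;>
    simp only [B_sub_left, B_sub_right, B_smul_left, B_smul_right, hn, B_comm p n] <;>
    nlinarith [h.1]

lemma Fut.add_N {p : V} (h : Fut p) (x : W) {s : ℝ} (hs : 0 ≤ s) : Fut (p + s • N x) := by
  have h1 : B p (N x) ≤ 0 := by
    by_cases hx : x = ⟨0, 0⟩
    · simp [hx, B, N]
    · exact (h.B_N hx).le
  have h2 : B (N x) (N x) = 0 := by
    simp only [B, N]
    ring
  refine ⟨?_, add_pos_of_pos_of_nonneg h.2 (mul_nonneg hs (sq_nonneg x.p))⟩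
  simp only [B_add_left, B_add_right, B_smul_left, B_smul_right, h2, B_comm (N x) p]
  nlinarith [h.1, mul_nonneg hs (neg_nonneg.2 h1)]

/-- Every future null vector is a square. -/
lemma exists_N {p e : V} (h : Fut p) (he : B e e = 0) (hpe : B p e < 0) :
    ∃ x : W, x ≠ ⟨0, 0⟩ ∧ e = N x := by
  have h1 : 0 ≤ -2 * B p e * (p.b * e.b) := by
    have := neg_pos.2 h.1
    rw [VH_id, he, neg_zero]
    positivity
  have h2 : 0 ≤ e.b := (mul_nonneg_iff_of_pos_left h.2).1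
    ((mul_nonneg_iff_of_pos_left (by linarith)).1 h1)
  unfold B at he hpe
  rcases h2.eq_or_lt with h3 | h3
  · rw [← h3] at he hpe
    have h4 : e.a = 0 := mul_self_eq_zero.1 (by linarith)
    rw [h4] at hpe
    have h5 : 0 < -e.c := (mul_pos_iff_of_pos_left h.2).1 (by linarith)
    refine ⟨⟨0, √(-e.c)⟩, fun hx => (Real.sqrt_pos.2 h5).ne' (congrArg W.q hx), ?_⟩
    ext <;> simp [N, h4, ← h3, Real.sq_sqrt h5.le]
  · have h4 := (Real.sqrt_pos.2 h3).ne'
    have h5 := Real.sq_sqrt h3.le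
    refine ⟨⟨√e.b, -e.a / √e.b⟩, fun hx => h4 (congrArg W.p hx), ?_⟩
    ext
    · simp only [N]
      field_simp
    · exact h5.symm
    · simp only [N, div_pow, h5]
      field_simp
      linarith

lemma continuous_B_Hy (n : V) : Continuous fun z : ℍ => B n (Hy z) := by
  have h1 : Continuous fun z : ℍ => (z.im)⁻¹ := continuous_im.inv₀ fun z => z.im_pos.ne'
  have h2 := continuous_re
  have h3 := continuous_im
  simp only [B, Hy, div_eq_mul_inv]
  fun_prop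

lemma VH_foot {n : V} (hn : B n n = 1) (z : ℍ) : Fut (Hy z - B n (Hy z) • n) := by
  simpa using (Hy_fut z).foot hn zero_le_one le_rfl

lemma VH_B_foot {n : V} (hn : B n n = 1) (p q : V) :
    B (p - B n p • n) (q - B n q • n) = B p q - B n p * B n q := by
  simp only [B_sub_left, B_sub_right, B_smul_left, B_smul_right, hn, B_comm p n]
  ring

/-- The signed distance to a wall is 1-Lipschitz. -/
lemma lip {n : V} (hn : B n n = 1) (z w : ℍ) :
    |Real.arsinh (B n (Hy z)) - Real.arsinh (B n (Hy w))| ≤ dist z w := by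
  have h1 := (VH_foot hn z).cs (VH_foot hn w)
  have h2 := (VH_foot hn z).B_neg (VH_foot hn w)
  simp only [VH_B_foot hn, Hy_unit] at h1 h2
  rw [← abs_of_nonneg (dist_nonneg (x := z) (y := w)), ← Real.cosh_le_cosh, Real.cosh_sub,
    Real.cosh_arsinh, Real.cosh_arsinh, Real.sinh_arsinh, Real.sinh_arsinh, cosh_dist_eq,
    ← Real.sqrt_mul (by positivity), sub_le_iff_le_add, Real.sqrt_le_left (by linarith)]
  linarith

lemma abs_B_le_sinh {n : V} (hn : B n n = 1) {z w : ℍ} (hw : B n (Hy w) = 0) {R : ℝ}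
    (h : dist z w ≤ R) : |B n (Hy z)| ≤ Real.sinh R := by
  have h1 := lip hn z w
  rw [hw, Real.arsinh_zero, sub_zero] at h1
  rw [← Real.sinh_arsinh (B n (Hy z)), Real.abs_sinh, Real.sinh_le_sinh]
  exact h1.trans h

/-- The foot of the perpendicular. -/
lemma exists_foot {n : V} (hn : B n n = 1) (z : ℍ) :
    ∃ w : ℍ, B n (Hy w) = 0 ∧ dist z w = Real.arsinh |B n (Hy z)| ∧
      Hy w = (1 / √(1 + B n (Hy z) ^ 2)) • (Hy z - B n (Hy z) • n) := by
  have h1 := Hy_pt (VH_foot hn z)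
  rw [VH_B_foot hn, Hy_unit, show -(-1 - B n (Hy z) * B n (Hy z)) = 1 + B n (Hy z) ^ 2 by ring]
    at h1
  refine ⟨_, ?_, Real.cosh_injOn dist_nonneg (Real.arsinh_nonneg_iff.2 (abs_nonneg _)) ?_, h1⟩
  · simp [h1, hn]
  · have h2 : 0 < 1 + B n (Hy z) ^ 2 := by positivity
    have h3 := Real.sq_sqrt h2.le
    have h4 := (Real.sqrt_pos.2 h2).ne'
    rw [cosh_dist_eq, h1, Real.cosh_arsinh, sq_abs, B_smul_right, B_sub_right, B_smul_right,
      Hy_unit, B_comm (Hy z) n]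
    field_simp
    linarith

lemma cosh_disp {n : V} (hn : B n n = 1) (t : ℝ) (z : ℍ) :
    Real.cosh (dist z (ex t n • z)) = 1 + 2 * Real.sinh t ^ 2 * (1 + B n (Hy z) ^ 2) := by
  have h1 := VH_B_foot hn (Hy z) (Hy z)
  have h2 : B n (Hy z - B n (Hy z) • n) = 0 := by simp [hn]
  have h3 : Hy z = B n (Hy z) • n + (Hy z - B n (Hy z) • n) := by abel
  rw [Hy_unit] at h1
  rw [cosh_dist_eq, Hy_smul]
  generalize Hy z - B n (Hy z) • n = f at h1 h2 h3
  generalize B n (Hy z) = β at h1 h3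
  rw [h3, smul_add, ad_real, ex_ad_self, ex_ad_perp hn h2]
  simp only [B_add_left, B_add_right, B_smul_left, B_smul_right, hn, h1, h2, B_comm f n,
    B_cr_left, B_cr_right, Real.cosh_two_mul, Real.cosh_sq]
  ring

lemma dist_ex_of_wall {n : V} (hn : B n n = 1) (t : ℝ) {z : ℍ} (hz : B n (Hy z) = 0) :
    dist z (ex t n • z) = 2 * |t| := by
  refine Real.cosh_injOn dist_nonneg (show 0 ≤ 2 * |t| by positivity) ?_
  rw [cosh_disp hn, hz, Real.cosh_two_mul, Real.cosh_sq, ← Real.abs_sinh, sq_abs]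
  ring

lemma le_dist_ex {n : V} (hn : B n n = 1) (t : ℝ) (z : ℍ) : 2 * |t| ≤ dist z (ex t n • z) := by
  rw [← abs_of_nonneg (dist_nonneg (x := z)), ← abs_two, ← abs_mul, ← Real.cosh_le_cosh,
    cosh_disp hn, Real.cosh_two_mul, Real.cosh_sq]
  nlinarith [mul_nonneg (sq_nonneg (Real.sinh t)) (sq_nonneg (B n (Hy z)))]

lemma len_ex {n : V} (hn : B n n = 1) (t : ℝ) : len (ex t n) = 2 * |t| := by
  obtain ⟨w, hw, -⟩ := exists_foot hn I
  refine le_antisymm ((ciInf_le ⟨0, ?_⟩ w).trans_eq (dist_ex_of_wall hn t hw))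
    (le_ciInf (le_dist_ex hn t))
  rintro _ ⟨z, rfl⟩
  exact dist_nonneg

lemma len_pm {g h : SL(2, ℝ)} (e : PM g h) : len g = len h := by
  simp only [len, e.act]

end

end Pool.Agent.P.MP_d39174_gt

end

section
/-! Segments, balls, pairs of walls, packing. -/

namespace Pool.Agent.P.MP_d39174_gt

open UpperHalfPlane MatrixGroups

noncomputable section

lemma VH2_pars {n p : V} (hn : B n n = 1) (hp : B p p = -1) (h : B n p = 0) (v : V) :
    B v v = B v n ^ 2 - B v p ^ 2 + B v (cr n p) ^ 2 := by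
  have h1 := congrArg (B v) (expand_on hn hp h v)
  rw [B_add_right, B_sub_right, B_smul_right, B_smul_right, B_smul_right] at h1
  linarith

lemma VH2_cr_cr (x y u v : V) : B (cr x y) (cr u v) = B x v * B y u - B x u * B y v := by
  simp only [B, cr]
  ring

lemma VH2_gram (x y v : V) : B v (cr x y) ^ 2 = B x x * B v y ^ 2 + B y y * B v x ^ 2 +
    B v v * B x y ^ 2 - B x x * B y y * B v v - 2 * B x y * B v x * B v y := by
  simp only [B, cr]
  ring

lemma VH2_param {n p q : V} (hn : B n n = 1) (hp : Fut p) (hp1 : B p p = -1) (hq : Fut q)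
    (hq1 : B q q = -1) (h1 : B n p = 0) (h2 : B n q = 0) :
    ∃ s : ℝ, q = Real.cosh s • p + Real.sinh s • cr n p := by
  refine ⟨Real.arsinh (B q (cr n p)), ?_⟩
  have h3 := VH2_pars hn hp1 h1 q
  have h4 := hq.B_neg hp
  have h5 : B q n = 0 := by rw [B_comm, h2]
  have h6 : √(1 + B q (cr n p) ^ 2) = -B q p := by
    rw [Real.sqrt_eq_iff_mul_self_eq (by positivity) (by linarith)]
    rw [hq1, h5] at h3
    linarith
  rw [Real.cosh_arsinh, Real.sinh_arsinh, h6]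
  have h7 := expand_on hn hp1 h1 q
  rw [h5, zero_smul, zero_sub, ← _root_.neg_smul] at h7
  exact h7

lemma VH2_dist {n : V} {z x : ℍ} {s : ℝ}
    (h : Hy x = Real.cosh s • Hy z + Real.sinh s • cr n (Hy z)) : dist z x = |s| := by
  have h1 : Real.cosh (dist z x) = Real.cosh |s| := by
    rw [cosh_dist_eq, h, B_add_right, B_smul_right, B_smul_right, Hy_unit, B_cr_right,
      Real.cosh_abs]
    ring
  exact Real.cosh_strictMonoOn.injOn dist_nonneg (abs_nonneg s) h1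

lemma VH2_nat {K A C t : ℝ} (ht : 0 < t) (h : 0 < A + C) :
    ∃ j : ℕ, 0 < K + Real.cosh (2 * (j * t)) * A + Real.sinh (2 * (j * t)) * C := by
  obtain ⟨j, hj⟩ := exists_nat_gt ((|A - C| - K) / (t * (A + C)))
  rw [div_lt_iff₀ (by positivity)] at hj
  refine ⟨j, ?_⟩
  rw [Real.cosh_eq, Real.sinh_eq]
  have h0 : 0 ≤ 2 * (j * t) := by positivity
  have h1 := Real.add_one_le_exp (2 * (j * t))
  have h2 : Real.exp (-(2 * (j * t))) ≤ 1 := Real.exp_le_one_iff.2 (by linarith)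
  have h3 := Real.exp_pos (-(2 * (j * t)))
  have h4 := mul_le_mul_of_nonneg_right h1 h.le
  have h5 := mul_le_mul_of_nonneg_left (neg_abs_le (A - C)) h3.le
  have h6 := mul_le_mul_of_nonneg_right h2 (abs_nonneg (A - C))
  have h7 := abs_nonneg (A - C)
  linarith

lemma VH2_int {K A C t : ℝ} (ht : 0 < t) (h : A ^ 2 < C ^ 2) :
    ∃ j : ℤ, 0 < K + Real.cosh (2 * (j * t)) * A + Real.sinh (2 * (j * t)) * C := by
  by_cases h1 : 0 < A + C
  · obtain ⟨j, hj⟩ := VH2_nat (K := K) ht h1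
    exact ⟨j, by exact_mod_cast hj⟩
  · have h2 : 0 < A + -C := by
      by_contra h2
      nlinarith [mul_nonneg (neg_nonneg.2 (not_lt.1 h1)) (neg_nonneg.2 (not_lt.1 h2))]
    obtain ⟨j, hj⟩ := VH2_nat (K := K) ht h2
    refine ⟨-j, ?_⟩
    have h3 : 2 * (((-(j : ℤ) : ℤ) : ℝ) * t) = -(2 * (j * t)) := by
      push_cast
      ring
    rw [h3, Real.cosh_neg, Real.sinh_neg]
    linarith

/-- Points of the segment from `z` to `w`. -/
lemma dist_add_of_comb {z w y : ℍ} {s t : ℝ} (hs : 0 ≤ s) (ht : 0 ≤ t)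
    (h : Hy y = s • Hy z + t • Hy w) : dist z y + dist y w = dist z w := by
  have hc := cosh_dist_eq z w
  have h0 := Hy_unit y
  have h1 := cosh_dist_eq z y
  have h2 := cosh_dist_eq y w
  rw [h] at h0 h1 h2
  simp only [B_add_left, B_add_right, B_smul_left, B_smul_right, Hy_unit,
    B_comm (Hy w) (Hy z)] at h0 h1 h2
  have hb : B (Hy z) (Hy w) = -Real.cosh (dist z w) := by linarith
  rw [hb] at h0 h1 h2
  have e0 := Real.cosh_sq (dist z w)
  have p0 : 0 ≤ Real.sinh (dist z w) := Real.sinh_nonneg_iff.2 dist_nonneg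
  have e1 : Real.sinh (dist z y) = t * Real.sinh (dist z w) := by
    refine (pow_left_inj₀ (Real.sinh_nonneg_iff.2 dist_nonneg) (mul_nonneg ht p0) two_ne_zero).1 ?_
    rw [Real.sinh_sq, h1]
    linear_combination t ^ 2 * e0 - h0
  have e2 : Real.sinh (dist y w) = s * Real.sinh (dist z w) := by
    refine (pow_left_inj₀ (Real.sinh_nonneg_iff.2 dist_nonneg) (mul_nonneg hs p0) two_ne_zero).1 ?_
    rw [Real.sinh_sq, h2]
    linear_combination s ^ 2 * e0 - h0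
  refine Real.cosh_strictMonoOn.injOn (add_nonneg dist_nonneg dist_nonneg) dist_nonneg ?_
  rw [Real.cosh_add, e1, e2, h1, h2]
  linear_combination -(s * t) * e0 - Real.cosh (dist z w) * h0

/-- Strict triangle inequality at a crossing point. -/
lemma dist_lt_of_cross {a w : V} (ha : B a a = 1) (hw : B w w = 1) (h : |B a w| < 1)
    {z x y : ℍ} (hza : B a (Hy z) = 0) (hzw : B w (Hy z) = 0) (hx : B a (Hy x) = 0)
    (hy : B w (Hy y) = 0) (hxz : x ≠ z) (hyz : y ≠ z) : dist x y < dist x z + dist z y := by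
  obtain ⟨s, hs⟩ := VH2_param ha (Hy_fut z) (Hy_unit z) (Hy_fut x) (Hy_unit x) hza hx
  obtain ⟨t, ht⟩ := VH2_param hw (Hy_fut z) (Hy_unit z) (Hy_fut y) (Hy_unit y) hzw hy
  have h1 := VH2_dist hs
  have h2 := VH2_dist ht
  have h3 : 0 < Real.sinh |s| := Real.sinh_pos_iff.2 (h1 ▸ dist_pos.2 hxz.symm)
  have h4 : 0 < Real.sinh |t| := Real.sinh_pos_iff.2 (h2 ▸ dist_pos.2 hyz.symm)
  have h5 : Real.cosh (dist x y) =
      Real.cosh s * Real.cosh t - Real.sinh s * Real.sinh t * B a w := by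
    rw [cosh_dist_eq, hs, ht]
    simp only [B_add_left, B_add_right, B_smul_left, B_smul_right, Hy_unit, VH2_cr_cr, hza,
      B_cr_right, B_comm (cr a (Hy z)) (Hy z)]
    ring
  have h6 : Real.cosh (dist x y) < Real.cosh (|s| + |t|) := by
    rw [h5, Real.cosh_add, Real.cosh_abs, Real.cosh_abs]
    have h7 := neg_abs_le (Real.sinh s * Real.sinh t * B a w)
    rw [abs_mul, abs_mul, Real.abs_sinh, Real.abs_sinh] at h7
    have h8 := mul_lt_mul_of_pos_left h (mul_pos h3 h4)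
    linarith
  rw [Real.cosh_lt_cosh, abs_of_nonneg dist_nonneg, abs_of_nonneg (by positivity)] at h6
  rw [dist_comm x z, h1, h2]
  exact h6

lemma seg_zero {n : V} {z w : ℍ} (hz : B n (Hy z) ≤ 0) (hw : 0 ≤ B n (Hy w)) :
    ∃ (y : ℍ) (s t : ℝ), 0 ≤ s ∧ 0 ≤ t ∧ Hy y = s • Hy z + t • Hy w ∧ B n (Hy y) = 0 := by
  rcases hz.eq_or_lt with h | h
  · exact ⟨z, 1, 0, zero_le_one, le_rfl, by rw [one_smul, zero_smul, add_zero], h⟩
  · have hf := (Hy_fut z).comb (Hy_fut w) hw (neg_pos.2 h).le (by linarith)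
    have h1 := Hy_pt hf
    have h2 : 0 ≤ 1 / √(-B (B n (Hy w) • Hy z + -B n (Hy z) • Hy w)
      (B n (Hy w) • Hy z + -B n (Hy z) • Hy w)) := by positivity
    refine ⟨pt (B n (Hy w) • Hy z + -B n (Hy z) • Hy w), _, _, mul_nonneg h2 hw,
      mul_nonneg h2 (neg_pos.2 h).le, ?_, ?_⟩
    · rw [h1, smul_add, smul_smul, smul_smul]
    · rw [h1, B_smul_right, B_add_right n, B_smul_right, B_smul_right]
      ring

/-- Balls are convex. -/
lemma dist_le_of_comb3 {c x y z v : ℍ} {R r s t : ℝ} (hr : 0 ≤ r) (hs : 0 ≤ s) (ht : 0 ≤ t)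
    (hx : dist c x ≤ R) (hy : dist c y ≤ R) (hz : dist c z ≤ R)
    (h : Hy v = r • Hy x + s • Hy y + t • Hy z) : dist c v ≤ R := by
  have hR : 0 ≤ R := dist_nonneg.trans hx
  have hc : ∀ u : ℍ, dist c u ≤ R → -B (Hy c) (Hy u) ≤ Real.cosh R := fun u hu => by
    rw [← cosh_dist_eq, Real.cosh_le_cosh, abs_of_nonneg dist_nonneg, abs_of_nonneg hR]
    exact hu
  have h1 : ∀ u u' : ℍ, 1 ≤ -B (Hy u) (Hy u') := fun u u' => by
    rw [← cosh_dist_eq]
    exact Real.one_le_cosh _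
  have h0 := Hy_unit v
  rw [h] at h0
  simp only [B_add_left, B_add_right, B_smul_left, B_smul_right, Hy_unit, B_comm (Hy y) (Hy x),
    B_comm (Hy z) (Hy x), B_comm (Hy z) (Hy y)] at h0
  have h2 : (r + s + t) ^ 2 ≤ 1 ^ 2 := by
    have a1 := mul_le_mul_of_nonneg_left (h1 x y) (mul_nonneg hr hs)
    have a2 := mul_le_mul_of_nonneg_left (h1 x z) (mul_nonneg hr ht)
    have a3 := mul_le_mul_of_nonneg_left (h1 y z) (mul_nonneg hs ht)
    linarith
  have h3 : r + s + t ≤ 1 := (abs_le_of_sq_le_sq' h2 zero_le_one).2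
  have h4 : Real.cosh (dist c v) ≤ Real.cosh R := by
    rw [cosh_dist_eq, h, B_add_right, B_add_right, B_smul_right, B_smul_right, B_smul_right]
    have a1 := mul_le_mul_of_nonneg_left (hc x hx) hr
    have a2 := mul_le_mul_of_nonneg_left (hc y hy) hs
    have a3 := mul_le_mul_of_nonneg_left (hc z hz) ht
    have a4 := mul_le_mul_of_nonneg_right h3 (Real.cosh_pos R).le
    linarith
  rwa [Real.cosh_le_cosh, abs_of_nonneg dist_nonneg, abs_of_nonneg hR] at h4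

/-- A wall that misses a ball has constant sign on it. -/
lemma sign_const_ball {n : V} (hn : B n n = 1) {c z w : ℍ} {R : ℝ}
    (h : Real.sinh R < |B n (Hy c)|) (hz : dist c z ≤ R) (hw : dist c w ≤ R) :
    0 < B n (Hy z) * B n (Hy w) := by
  have h1 := abs_le.1 ((lip hn c z).trans hz)
  have h2 := abs_le.1 ((lip hn c w).trans hw)
  rcases lt_abs.1 h with h3 | h3
  · have h4 := Real.arsinh_lt_arsinh.2 h3
    rw [Real.arsinh_sinh] at h4
    exact mul_pos (Real.arsinh_pos_iff.1 (by linarith)) (Real.arsinh_pos_iff.1 (by linarith))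
  · have h4 := Real.arsinh_lt_arsinh.2 h3
    rw [Real.arsinh_sinh, Real.arsinh_neg] at h4
    exact mul_pos_of_neg_of_neg (Real.arsinh_neg_iff.1 (by linarith))
      (Real.arsinh_neg_iff.1 (by linarith))

lemma exists_on_wall {n : V} (hn : B n n = 1) : ∃ z : ℍ, B n (Hy z) = 0 := by
  obtain ⟨w, hw, -⟩ := exists_foot hn I
  exact ⟨w, hw⟩

lemma abs_B_le_cosh {n m : V} (hn : B n n = 1) (hm : B m m = 1) {z w : ℍ}
    (hz : B n (Hy z) = 0) (hw : B m (Hy w) = 0) : |B n m| ≤ Real.cosh (dist z w) := by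
  have h1 := VH2_pars hn (Hy_unit z) hz m
  have h2 := abs_B_le_sinh hm hw (le_refl (dist z w))
  have h3 := pow_le_pow_left₀ (abs_nonneg _) h2 2
  rw [sq_abs] at h3
  refine abs_le_of_sq_le_sq ?_ (Real.cosh_pos _).le
  rw [Real.cosh_sq, B_comm n m]
  nlinarith [sq_nonneg (B m (cr n (Hy z)))]

lemma exists_cross {n m : V} (hn : B n n = 1) (hm : B m m = 1) (h : |B n m| < 1) :
    ∃ z : ℍ, B n (Hy z) = 0 ∧ B m (Hy z) = 0 := by
  have h1 : B (cr n m) (cr n m) < 0 := by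
    rw [B_cr_cr, hn, hm]
    have := (sq_lt_one_iff_abs_lt_one _).2 h
    linarith
  rcases Fut.or_neg h1 with h2 | h2
  · refine ⟨pt (cr n m), ?_, ?_⟩
    · rw [Hy_pt h2, B_smul_right, B_cr_left, mul_zero]
    · rw [Hy_pt h2, B_smul_right, B_cr_right, mul_zero]
  · refine ⟨pt (-cr n m), ?_, ?_⟩
    · rw [Hy_pt h2, B_smul_right, B_neg_right n, B_cr_left, neg_zero, mul_zero]
    · rw [Hy_pt h2, B_smul_right, B_neg_right m, B_cr_right, neg_zero, mul_zero]

lemma cross_of_common {n m p : V} (hn : B n n = 1) (hm : B m m = 1) (hp : B p p < 0)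
    (h1 : B n p = 0) (h2 : B m p = 0) : |B n m| < 1 ∨ m = n ∨ m = -n := by
  by_cases e1 : m = n
  · exact Or.inr (Or.inl e1)
  by_cases e2 : m = -n
  · exact Or.inr (Or.inr e2)
  have h3 := B_pos_of_perp (v := m - n) hp
    (by rw [B_sub_right, B_comm p m, B_comm p n, h1, h2, sub_zero]) (sub_ne_zero.2 e1)
  have h4 := B_pos_of_perp (v := m + n) hp
    (by rw [B_add_right, B_comm p m, B_comm p n, h1, h2, add_zero])
    (fun h => e2 (eq_neg_of_add_eq_zero_left h))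
  simp only [B_add_left, B_add_right, B_sub_left, B_sub_right, hn, hm, B_comm m n] at h3 h4
  exact Or.inl (abs_lt.2 ⟨by linarith, by linarith⟩)

/-- Two distinct walls meet in at most one point. -/
lemma eq_of_two_common {n m : V} (hn : B n n = 1) (hm : B m m = 1) {z w : ℍ} (hzw : z ≠ w)
    (h1 : B n (Hy z) = 0) (h2 : B m (Hy z) = 0) (h3 : B n (Hy w) = 0) (h4 : B m (Hy w) = 0) :
    m = n ∨ m = -n := by
  have h5 : 0 < B (cr (Hy z) (Hy w)) (cr (Hy z) (Hy w)) := by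
    rw [B_cr_cr, Hy_unit, Hy_unit]
    have h6 := cosh_dist_eq z w
    have h7 := Real.one_lt_cosh.2 (dist_ne_zero.2 hzw)
    nlinarith
  have h6 : cr (Hy z) (Hy w) ≠ 0 := fun h => by
    rw [h, B_zero_left] at h5
    exact lt_irrefl _ h5
  obtain ⟨s, hs⟩ := exists_smul_cr h6 ((B_comm _ _).trans h1) ((B_comm _ _).trans h3)
  obtain ⟨t, ht⟩ := exists_smul_cr h6 ((B_comm _ _).trans h2) ((B_comm _ _).trans h4)
  rw [hs, B_smul_left, B_smul_right] at hn
  rw [ht, B_smul_left, B_smul_right] at hm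
  have h7 : t * t = s * s := mul_right_cancel₀ h5.ne' (by linarith)
  rcases mul_self_eq_mul_self_iff.1 h7 with h8 | h8
  · exact Or.inl (by rw [hs, ht, h8])
  · exact Or.inr (by rw [hs, ht, h8, _root_.neg_smul])

/-- A wall disjoint from `n` lies on one side of `n`. -/
lemma sign_const_wall {n m p q : V} (hn : B n n = 1) (hm : B m m = 1) (h : 1 ≤ |B n m|)
    (h1 : m ≠ n) (h2 : m ≠ -n) (hp : Fut p) (hq : Fut q) (hmp : B m p = 0) (hmq : B m q = 0) :
    0 < B n p * B n q := by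
  have key : ∀ r, Fut r → B m r = 0 → B n r ≠ 0 := fun r hr h3 h4 => by
    rcases cross_of_common hn hm hr.1 h4 h3 with h5 | h5 | h5
    · exact absurd h5 (not_lt.2 h)
    · exact h1 h5
    · exact h2 h5
  by_contra h3
  have h4 : 0 ≤ -(B n p * B n q) := neg_nonneg.2 (not_lt.1 h3)
  have h5 : 0 < B n q ^ 2 := sq_pos_of_ne_zero (key q hq hmq)
  refine key _ (hp.comb hq h5.le h4 (by linarith)) ?_ ?_
  · rw [B_add_right, B_smul_right, B_smul_right, hmp, hmq]
    ring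
  · rw [B_add_right, B_smul_right, B_smul_right]
    ring

/-- Opposite disjoint half-planes. -/
lemma pos_of_far {n m p q : V} (hn : B n n = 1) (hm : B m m = 1) (h : B n m < -1) (hp : Fut p)
    (hnp : 0 ≤ B n p) (hmp : 0 ≤ B m p) (hq : Fut q) (hmq : B m q ≤ 0) : 0 < B n q := by
  have h1 : B (n + m) (n + m) < 0 := by
    simp only [B_add_left, B_add_right, hn, hm, B_comm m n]
    linarith
  rcases Fut.or_neg h1 with h2 | h2
  · have h3 := h2.B_neg hp
    rw [B_add_left] at h3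
    linarith
  · have h3 := h2.B_neg hq
    rw [B_neg_left, B_add_left] at h3
    linarith

/-- Nested half-planes. -/
lemma nested_of_gt {n m : V} (hn : B n n = 1) (hm : B m m = 1) (h : 1 < B n m) :
    Fut (n - m) ∨ Fut (m - n) := by
  have h1 : B (n - m) (n - m) < 0 := by
    simp only [B_sub_left, B_sub_right, hn, hm, B_comm m n]
    linarith
  rw [← neg_sub n m]
  exact Fut.or_neg h1

lemma near_translate {n : V} (hn : B n n = 1) {t : ℝ} (ht : 0 < t) {z w : ℍ}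
    (hz : B n (Hy z) = 0) (hw : B n (Hy w) = 0) :
    ∃ m : ℤ, dist z (ex (m * t) n • w) ≤ t := by
  obtain ⟨s, hs⟩ := VH2_param hn (Hy_fut z) (Hy_unit z) (Hy_fut w) (Hy_unit w) hz hw
  refine ⟨round (-s / (2 * t)), ?_⟩
  have h1 := abs_sub_round (-s / (2 * t))
  generalize round (-s / (2 * t)) = m at h1 ⊢
  have h2 : Hy (ex (m * t) n • w) = Real.cosh (2 * (m * t) + s) • Hy z +
      Real.sinh (2 * (m * t) + s) • cr n (Hy z) := by
    rw [Hy_smul, ex_ad_perp hn hw, hs, cr_add_right, cr_smul_right, cr_smul_right, cr_cr, hn, hz,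
      Real.cosh_add, Real.sinh_add]
    module
  rw [VH2_dist h2]
  have h3 : 2 * (m * t) + s = -(2 * t) * (-s / (2 * t) - m) := by
    field_simp
    ring
  rw [h3, abs_mul, abs_neg, abs_of_pos (by positivity : 0 < 2 * t)]
  nlinarith

/-- Points of a wall in terms of a base point and the tangent vector. -/
lemma wall_param {n p q : V} (hn : B n n = 1) (hp : Fut p) (hp1 : B p p = -1) (hq : Fut q)
    (hq1 : B q q = -1) (h1 : B n p = 0) (h2 : B n q = 0) :
    ∃ s : ℝ, q = Real.cosh s • p + Real.sinh s • cr n p :=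
  VH2_param hn hp hp1 hq hq1 h1 h2

/-- The orbit of a point under a translation visits both sides of a wall crossing its axis. -/
lemma both_signs {n m p : V} (hn : B n n = 1) (hm : B m m = 1) (h : |B n m| < 1) {t : ℝ}
    (ht : 0 < t) (hp : Fut p) :
    (∃ j : ℤ, 0 < B n (ex (j * t) m • p)) ∧ ∃ j : ℤ, B n (ex (j * t) m • p) < 0 := by
  obtain ⟨q, hq⟩ : ∃ q, q = p - B m p • m := ⟨_, rfl⟩
  have h1 : B m q = 0 := by rw [hq, B_sub_right, B_smul_right, hm, mul_one, sub_self]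
  have h2 : B q q < 0 := by
    have h3 := hp.1
    have h4 := mul_self_nonneg (B m p)
    rw [hq]
    simp only [B_sub_left, B_sub_right, B_smul_left, B_smul_right, hm, B_comm p m]
    linarith
  have h3 : B n q ^ 2 < B n (cr m q) ^ 2 := by
    rw [VH2_gram, hm, hn, h1]
    have h4 := (sq_lt_one_iff_abs_lt_one _).2 h
    have h5 := mul_pos (neg_pos.2 h2) (sub_pos.2 h4)
    linarith
  have h4 : ∀ s, B n (ex s m • p) =
      B m p * B n m + Real.cosh (2 * s) * B n q + Real.sinh (2 * s) * B n (cr m q) := fun s => by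
    have h5 : ex s m • p = ex s m • (B m p • m + q) := by rw [hq, add_sub_cancel]
    rw [h5, smul_add, ad_real, ex_ad_self, ex_ad_perp hm h1, B_add_right, B_add_right,
      B_smul_right, B_smul_right, B_smul_right, add_assoc]
  simp only [h4]
  refine ⟨VH2_int ht h3, ?_⟩
  obtain ⟨j, hj⟩ := VH2_int (K := -(B m p * B n m)) (A := -B n q) (C := -B n (cr m q)) ht
    (by rwa [neg_sq, neg_sq])
  exact ⟨j, by linarith⟩

end

end Pool.Agent.P.MP_d39174_gt

end

section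
/-! Packing and locally finite families of walls. -/

namespace Pool.Agent.P.MP_d39174_gt

open UpperHalfPlane MatrixGroups

noncomputable section

lemma VH3_abs (x : ℝ) : Real.arsinh |x| = |Real.arsinh x| := by
  rcases le_total 0 x with h | h
  · rw [abs_of_nonneg h, abs_of_nonneg (Real.arsinh_nonneg_iff.2 h)]
  · rw [abs_of_nonpos h, abs_of_nonpos (Real.arsinh_nonpos_iff.2 h), Real.arsinh_neg]

lemma VH3_lip {n : V} (hn : B n n = 1) (z w : ℍ) :
    Real.arsinh |B n (Hy z)| ≤ Real.arsinh |B n (Hy w)| + dist z w := by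
  rw [VH3_abs, VH3_abs]
  linarith [lip hn z w, abs_sub_abs_le_abs_sub (Real.arsinh (B n (Hy z)))
    (Real.arsinh (B n (Hy w)))]

/-- The nearest wall of a locally finite family. -/
lemma VH3_min {S : Set V} (hS : LF S) (uS : ∀ n ∈ S, B n n = 1) (nS : S.Nonempty) :
    ∃ m : ℍ → V, (∀ z, m z ∈ S ∧ ∀ n ∈ S, |B (m z) (Hy z)| ≤ |B n (Hy z)|) ∧
      (Continuous fun z => Real.arsinh |B (m z) (Hy z)|) ∧ ∃ z, |B (m z) (Hy z)| ≤ 0 := by
  obtain ⟨n0, h0⟩ := nS
  have h : ∀ z, ∃ a ∈ S, ∀ n ∈ S, |B a (Hy z)| ≤ |B n (Hy z)| := fun z => by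
    obtain ⟨a, ha, hm⟩ := Set.exists_min_image _ (fun n => |B n (Hy z)|) (hS z |B n0 (Hy z)|)
      ⟨n0, h0, le_rfl⟩
    refine ⟨a, ha.1, fun n hn => ?_⟩
    rcases le_total |B n (Hy z)| |B n0 (Hy z)| with h | h
    · exact hm n ⟨hn, h⟩
    · exact ha.2.trans h
  choose m h1 h2 using h
  refine ⟨m, fun z => ⟨h1 z, h2 z⟩, (LipschitzWith.of_le_add fun z w => ?_).continuous, ?_⟩
  · exact (Real.arsinh_le_arsinh.2 (h2 z _ (h1 w))).trans (VH3_lip (uS _ (h1 w)) z w)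
  · obtain ⟨z, hz⟩ := exists_on_wall (uS n0 h0)
    exact ⟨z, (h2 z n0 h0).trans (by rw [hz, abs_zero])⟩

/-- Uniform packing bound. -/
lemma pack (R c : ℝ) (hc : 0 < c) : ∃ M : ℕ, ∀ (z : ℍ) (s : Set ℍ), (∀ y ∈ s, dist z y ≤ R) →
    (∀ x ∈ s, ∀ y ∈ s, x ≠ y → c ≤ dist x y) → s.Finite ∧ s.ncard ≤ M := by
  obtain ⟨t, -, tf, ht⟩ := finite_cover_balls_of_compact (isCompact_closedBall (I : ℍ) R)
    (half_pos hc)
  refine ⟨t.ncard, fun z s h1 h2 => ?_⟩
  obtain ⟨g, hg⟩ := MulAction.exists_smul_eq SL(2, ℝ) z I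
  have h : ∀ y ∈ s, ∃ x ∈ t, dist (g • y) x < c / 2 := fun y hy => by
    have : g • y ∈ Metric.closedBall (I : ℍ) R := by
      rw [Metric.mem_closedBall, ← hg, dist_smul, dist_comm]
      exact h1 y hy
    simpa only [Set.mem_iUnion, Metric.mem_ball, exists_prop] using ht this
  choose! f f1 f2 using h
  have hi : Set.InjOn f s := fun x hx y hy e => by
    by_contra hne
    have a1 := h2 x hx y hy hne
    have a2 := f2 x hx
    have a3 := f2 y hy
    have a4 := dist_triangle_right (g • x) (g • y) (f y)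
    rw [e] at a2
    rw [dist_smul] at a4
    linarith
  exact ⟨Set.Finite.of_injOn f1 hi tf, Set.ncard_le_ncard_of_injOn f f1 hi tf⟩

/-- Two families of walls have an equidistant point. -/
lemma exists_equidistant {S T : Set V} (hS : LF S) (hT : LF T) (uS : ∀ n ∈ S, B n n = 1)
    (uT : ∀ n ∈ T, B n n = 1) (nS : S.Nonempty) (nT : T.Nonempty) :
    ∃ (z : ℍ) (a b : V), a ∈ S ∧ b ∈ T ∧ |B a (Hy z)| = |B b (Hy z)| ∧
      ∀ n, n ∈ S ∨ n ∈ T → |B a (Hy z)| ≤ |B n (Hy z)| := by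
  obtain ⟨a, a1, a2, x, a3⟩ := VH3_min hS uS nS
  obtain ⟨b, b1, b2, y, b3⟩ := VH3_min hT uT nT
  obtain ⟨z, hz⟩ := intermediate_value_univ₂ (a := x) (b := y) a2 b2
    (Real.arsinh_le_arsinh.2 (a3.trans (abs_nonneg _)))
    (Real.arsinh_le_arsinh.2 (b3.trans (abs_nonneg _)))
  have e := Real.arsinh_injective hz
  exact ⟨z, a z, b z, (a1 z).1, (b1 z).1, e, fun n hn =>
    hn.elim ((a1 z).2 n) fun h => e.trans_le ((b1 z).2 n h)⟩

/-- Finitely many walls of a locally finite family come close to a segment. -/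
lemma LF.finite_seg {S : Set V} (hS : LF S) (uS : ∀ n ∈ S, B n n = 1) {p q : V} (hp : Fut p)
    (hq : Fut q) (r : ℝ) :
    {n | n ∈ S ∧ ∃ s ∈ Set.Icc (0 : ℝ) 1, |B n ((1 - s) • p + s • q)| ≤ r}.Finite := by
  have p0 : 0 < -B p p := neg_pos.2 hp.1
  have q0 : 0 < -B q q := neg_pos.2 hq.1
  have m0 : 0 < min (-B p p) (-B q q) / 2 := half_pos (lt_min p0 q0)
  refine (hS (pt p) (Real.sinh (Real.arsinh (|r| / √(min (-B p p) (-B q q) / 2)) +
    dist (pt p) (pt q)))).subset ?_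
  rintro n ⟨hn, s, ⟨s0, s1⟩, hs⟩
  refine ⟨hn, ?_⟩
  have s2 : 0 ≤ 1 - s := sub_nonneg.2 s1
  have hx : Fut ((1 - s) • p + s • q) := hp.comb hq s2 s0 (by linarith)
  have hm : min (-B p p) (-B q q) / 2 ≤ -B ((1 - s) • p + s • q) ((1 - s) • p + s • q) := by
    simp only [B_add_left, B_add_right, B_smul_left, B_smul_right]
    rw [B_comm q p]
    nlinarith [mul_le_mul_of_nonneg_left (min_le_left (-B p p) (-B q q)) (sq_nonneg (1 - s)),
      mul_le_mul_of_nonneg_left (min_le_right (-B p p) (-B q q)) (sq_nonneg s),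
      mul_nonneg (mul_nonneg s0 s2) (neg_pos.2 (hp.B_neg hq)).le,
      mul_nonneg m0.le (sq_nonneg (1 - 2 * s))]
  set x := (1 - s) • p + s • q with hxd
  have r0 : 0 < √(-B x x) := Real.sqrt_pos.2 (neg_pos.2 hx.1)
  have e : Hy (pt x) = (1 / √(-B x x) * (1 - s) * √(-B p p)) • Hy (pt p) +
      (1 / √(-B x x) * s * √(-B q q)) • Hy (pt q) := by
    rw [Hy_pt hx, Hy_pt hp, Hy_pt hq, smul_smul, smul_smul, mul_assoc _ √(-B p p),
      mul_assoc _ √(-B q q), mul_one_div_cancel (Real.sqrt_pos.2 p0).ne',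
      mul_one_div_cancel (Real.sqrt_pos.2 q0).ne', mul_one, mul_one, mul_smul, mul_smul,
      ← smul_add]
  have d := dist_add_of_comb (by positivity) (by positivity) e
  have k : |B n (Hy (pt x))| ≤ |r| / √(min (-B p p) (-B q q) / 2) := by
    rw [Hy_pt hx, B_smul_right, abs_mul, abs_of_pos (by positivity), one_div, inv_mul_eq_div]
    exact div_le_div₀ (abs_nonneg r) (hs.trans (le_abs_self r)) (Real.sqrt_pos.2 m0)
      (Real.sqrt_le_sqrt hm)
  rw [← Real.sinh_arsinh |B n (Hy (pt p))|, Real.sinh_le_sinh]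
  linarith [VH3_lip (uS n hn) (pt p) (pt x), Real.arsinh_le_arsinh.2 k,
    dist_nonneg (x := pt x) (y := pt q)]

lemma LF.mono {S T : Set V} (hS : LF S) (h : T ⊆ S) : LF T :=
  fun z R => (hS z R).subset fun _ hn => ⟨h hn.1, hn.2⟩

end

end Pool.Agent.P.MP_d39174_gt

end

section
/-! Ideal points, cyclic orientation, crossing. -/

namespace Pool.Agent.P.MP_d39174_gt

open UpperHalfPlane MatrixGroups

noncomputable section

lemma br_ad (g : SL(2, ℝ)) (x y : W) : br (g • x) (g • y) = br x y := by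
  simp only [br, act_p, act_q]
  linear_combination (x.p * y.q - x.q * y.p) * det_eq g
lemma br_swap (x y : W) : br y x = -br x y := by
  simp only [br]
  ring
lemma br_self (x : W) : br x x = 0 := by
  simp only [br]
  ring
lemma N_ad (g : SL(2, ℝ)) (x : W) : N (g • x) = g • N x := by
  ext <;> simp only [N, act_p, act_q, ad_a, ad_b, ad_c] <;> ring
lemma B_N_N (x y : W) : B (N x) (N y) = -br x y ^ 2 / 2 := by
  simp only [B, N, br]
  ring
lemma oriW_ad (g : SL(2, ℝ)) (x y z : W) : oriW (g • x) (g • y) (g • z) = oriW x y z := by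
  simp only [oriW, br_ad]
lemma plucker (x y c d : W) : br x y * br c d + br x c * br d y + br x d * br y c = 0 := by
  simp only [br]
  ring
lemma VW_br {n : V} (h : B n n = 1) : br (ev n) (ev (-n)) ≠ 0 := by
  unfold B at h
  simp only [ev, br, V.neg_a, V.neg_b, V.neg_c, neg_inj, neg_eq_zero]
  split_ifs with h1 h2 h2
  · linarith [h1.1, h2.1]
  · simp only [h1.1, h1.2]
    norm_num
  · simp only [h2.1, h2.2]
    norm_num
  · intro h3
    have h4 : n.c = 0 := by linarith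
    rw [h4] at h
    rcases mul_self_eq_one_iff.1 (by linarith : n.a * n.a = 1) with h5 | h5
    exacts [h2 ⟨h5, h4⟩, h1 ⟨h5, h4⟩]

lemma ev_ne {n : V} (h : B n n = 1) : ev n ≠ ⟨0, 0⟩ := by
  intro h0
  have h1 := VW_br h
  rw [h0] at h1
  simp [br] at h1
lemma br_ev_neg {n : V} (h : B n n = 1) : br (ev n) (ev (-n)) ≠ 0 := VW_br h
/-- `ev n` is an eigenvector of `n` for the eigenvalue `1`. -/
lemma ev_eig {n : V} (h : B n n = 1) :
    n.a * (ev n).p + n.b * (ev n).q = (ev n).p ∧ n.c * (ev n).p - n.a * (ev n).q = (ev n).q := by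
  unfold B at h
  unfold ev
  split_ifs with h1
  · simp only [h1.1, h1.2]
    constructor <;> ring
  · exact ⟨by linear_combination h, by ring⟩

/-- Eigenvectors for the eigenvalue `1`. -/
def VWE (n : V) (x : W) : Prop := n.a * x.p + n.b * x.q = x.p ∧ n.c * x.p - n.a * x.q = x.q

lemma VW_prop {n : V} {x y : W} (hx : VWE n x) (hy : VWE n y) : br x y = 0 := by
  unfold br
  linear_combination (-y.q * hx.1 + y.p * hx.2 - x.p * hy.2 + x.q * hy.1) / 2

lemma VW_scale {x y : W} (h : br x y = 0) (hy : y ≠ ⟨0, 0⟩) : ∃ t : ℝ, x = ⟨t * y.p, t * y.q⟩ := by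
  unfold br at h
  by_cases h1 : y.p = 0
  · have h2 : y.q ≠ 0 := fun h2 => hy (W.ext h1 h2)
    refine ⟨x.q / y.q, W.ext ?_ (div_mul_cancel₀ _ h2).symm⟩
    rw [h1, mul_zero, sub_zero] at h
    simp only [h1, mul_zero]
    exact (mul_eq_zero.1 h).resolve_right h2
  · refine ⟨x.p / y.p, W.ext (div_mul_cancel₀ _ h1).symm ?_⟩
    field_simp
    linear_combination -h

lemma VW_of_br {n : V} (h : B n n = 1) {x : W} (hx : br x (ev n) = 0) : VWE n x := by
  obtain ⟨t, rfl⟩ := VW_scale hx (ev_ne h)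
  exact ⟨by linear_combination t * (ev_eig h).1, by linear_combination t * (ev_eig h).2⟩

lemma VW_neg {n : V} (h : B n n = 1) : B (-n) (-n) = 1 := by
  rwa [B_neg_left, B_neg_right, neg_neg]

lemma VW_co {n : V} {u v : W} (hu : VWE n u) (hv : VWE (-n) v) :
    n.a * br u v = u.p * v.q + u.q * v.p ∧ n.b * br u v = -2 * u.p * v.p ∧
      n.c * br u v = 2 * u.q * v.q := by
  obtain ⟨h1, h2⟩ := hu
  obtain ⟨h3, h4⟩ := hv
  simp only [V.neg_a, V.neg_b, V.neg_c] at h3 h4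
  unfold br
  exact ⟨by linear_combination v.q * h1 + u.q * h3, by linear_combination -u.p * h3 - v.p * h1,
    by linear_combination v.q * h2 + u.q * h4⟩

lemma VW_key {a b : V} (ha : B a a = 1) (hb : B b b = 1) :
    (1 - B a b) * (br (ev a) (ev (-a)) * br (ev b) (ev (-b))) =
      2 * (br (ev a) (ev b) * br (ev (-a)) (ev (-b))) ∧
    (1 + B a b) * (br (ev a) (ev (-a)) * br (ev b) (ev (-b))) =
      -2 * (br (ev a) (ev (-b)) * br (ev (-a)) (ev b)) := by
  obtain ⟨h1, h2, h3⟩ := VW_co (ev_eig ha) (ev_eig (VW_neg ha))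
  obtain ⟨k1, k2, k3⟩ := VW_co (ev_eig hb) (ev_eig (VW_neg hb))
  have e : B a b * (br (ev a) (ev (-a)) * br (ev b) (ev (-b))) =
      a.a * br (ev a) (ev (-a)) * (b.a * br (ev b) (ev (-b))) +
        (a.b * br (ev a) (ev (-a)) * (b.c * br (ev b) (ev (-b))) +
          a.c * br (ev a) (ev (-a)) * (b.b * br (ev b) (ev (-b)))) / 2 := by
    unfold B
    ring
  rw [h1, h2, h3, k1, k2, k3] at e
  rw [sub_mul, add_mul, e]
  unfold br
  constructor <;> ring
lemma ev_ad (g : SL(2, ℝ)) {n : V} (h : B n n = 1) :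
    ∃ t : ℝ, t ≠ 0 ∧ ev (g • n) = ⟨t * (g • ev n).p, t * (g • ev n).q⟩ := by
  have h' : B (g • n) (g • n) = 1 := by rwa [B_ad]
  obtain ⟨h1, h2⟩ := ev_eig h
  have h3 : VWE (g • n) (g • ev n) := by
    simp only [VWE, act_p, act_q, ad_a, ad_b, ad_c]
    exact ⟨by linear_combination (g 0 0 * g 1 1 - g 0 1 * g 1 0) * (g 0 0 * h1 + g 0 1 * h2) +
        (g 0 0 * (ev n).p + g 0 1 * (ev n).q) * det_eq g,
      by linear_combination (g 0 0 * g 1 1 - g 0 1 * g 1 0) * (g 1 0 * h1 + g 1 1 * h2) +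
        (g 1 0 * (ev n).p + g 1 1 * (ev n).q) * det_eq g⟩
  obtain ⟨t, ht⟩ := VW_scale (VW_prop (ev_eig h') h3) fun h0 => br_ev_neg h (by
    rw [← br_ad g, h0]
    simp [br])
  refine ⟨t, ?_, ht⟩
  rintro rfl
  exact ev_ne h' (by simpa using ht)
lemma ex_ev {n : V} (h : B n n = 1) (t : ℝ) :
    ex t n • ev n = ⟨Real.exp t * (ev n).p, Real.exp t * (ev n).q⟩ := by
  obtain ⟨h1, h2⟩ := ev_eig h
  obtain ⟨e1, e2, e3, e4⟩ := ex_apply h t
  ext
  · simp only [act_p, e1, e2, ← Real.cosh_add_sinh]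
    linear_combination Real.sinh t * h1
  · simp only [act_q, e3, e4, ← Real.cosh_add_sinh]
    linear_combination Real.sinh t * h2

lemma VW_br_mul (s t : ℝ) (x y : W) :
    br ⟨s * x.p, s * x.q⟩ ⟨t * y.p, t * y.q⟩ = s * t * br x y := by
  simp only [br]
  ring
lemma br_ev_ad (g : SL(2, ℝ)) {a b : V} (ha : B a a = 1) (hb : B b b = 1) :
    br (ev (g • a)) (ev (g • b)) = 0 ↔ br (ev a) (ev b) = 0 := by
  obtain ⟨s, hs, e1⟩ := ev_ad g ha
  obtain ⟨t, ht, e2⟩ := ev_ad g hb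
  rw [e1, e2, VW_br_mul, br_ad, mul_eq_zero, or_iff_right (mul_ne_zero hs ht)]
/-- A unit vector is determined by its two endpoints. -/
lemma eq_of_ev {a b : V} (ha : B a a = 1) (hb : B b b = 1) (h1 : br (ev a) (ev b) = 0)
    (h2 : br (ev (-a)) (ev (-b)) = 0) : a = b := by
  obtain ⟨e1, e2, e3⟩ := VW_co (ev_eig ha) (ev_eig (VW_neg ha))
  obtain ⟨k1, k2, k3⟩ := VW_co (VW_of_br hb h1) (VW_of_br (VW_neg hb) h2)
  exact V.ext (mul_right_cancel₀ (br_ev_neg ha) (e1.trans k1.symm))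
    (mul_right_cancel₀ (br_ev_neg ha) (e2.trans k2.symm))
    (mul_right_cancel₀ (br_ev_neg ha) (e3.trans k3.symm))
lemma B_eq_one_of_ev {a b : V} (ha : B a a = 1) (hb : B b b = 1) (h : br (ev a) (ev b) = 0) :
    B a b = 1 := by
  have h1 := (VW_key ha hb).1
  rw [h, zero_mul, mul_zero, mul_eq_zero,
    or_iff_left (mul_ne_zero (br_ev_neg ha) (br_ev_neg hb)), sub_eq_zero] at h1
  exact h1.symm
lemma ev_of_B_eq_one {a b : V} (ha : B a a = 1) (hb : B b b = 1) (h : B a b = 1) :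
    br (ev a) (ev b) = 0 ∨ br (ev (-a)) (ev (-b)) = 0 := by
  have h1 := (VW_key ha hb).1
  rw [h, sub_self, zero_mul] at h1
  exact mul_eq_zero.1 (by linarith)
lemma ori_ad (g : SL(2, ℝ)) {a b c : V} (ha : B a a = 1) (hb : B b b = 1) (hc : B c c = 1) :
    ∃ k : ℝ, 0 < k ∧ ori (g • a) (g • b) (g • c) = k * ori a b c := by
  obtain ⟨s, hs, e1⟩ := ev_ad g ha
  obtain ⟨t, ht, e2⟩ := ev_ad g hb
  obtain ⟨r, hr, e3⟩ := ev_ad g hc
  refine ⟨(s * t * r) ^ 2, by positivity, ?_⟩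
  simp only [ori, oriW, e1, e2, e3, VW_br_mul, br_ad]
  ring
lemma ori_cyc (a b c : V) : ori b c a = ori a b c := by
  simp only [ori, oriW, br]
  ring
lemma ori_swap (a b c : V) : ori b a c = -ori a b c := by
  simp only [ori, oriW, br]
  ring
lemma ori_swap' (a b c : V) : ori a c b = -ori a b c := by
  simp only [ori, oriW, br]
  ring
lemma ori_self (a b : V) : ori a a b = 0 := by
  simp only [ori, oriW, br]
  ring
lemma ori_ne_zero {a b c : V} (h1 : br (ev a) (ev b) ≠ 0) (h2 : br (ev b) (ev c) ≠ 0)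
    (h3 : br (ev c) (ev a) ≠ 0) : ori a b c ≠ 0 :=
  mul_ne_zero (mul_ne_zero h1 h2) h3
lemma br_ne_of_ori {a b c : V} (h : ori a b c ≠ 0) :
    br (ev a) (ev b) ≠ 0 ∧ br (ev b) (ev c) ≠ 0 ∧ br (ev c) (ev a) ≠ 0 :=
  ⟨left_ne_zero_of_mul (left_ne_zero_of_mul h), right_ne_zero_of_mul (left_ne_zero_of_mul h),
    right_ne_zero_of_mul h⟩
lemma Cr.ad {a b c d : V} (g : SL(2, ℝ)) (ha : B a a = 1) (hb : B b b = 1) (hc : B c c = 1)
    (hd : B d d = 1) : Cr (g • a) (g • b) (g • c) (g • d) ↔ Cr a b c d := by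
  obtain ⟨k, hk, e1⟩ := ori_ad g ha hb hc
  obtain ⟨l, hl, e2⟩ := ori_ad g ha hb hd
  rw [Cr, Cr, e1, e2, mul_mul_mul_comm, ← neg_pos, ← mul_neg,
    mul_pos_iff_of_pos_left (mul_pos hk hl), neg_pos]
lemma VW_cross {a b c d : V} (h1 : ori a b c < 0) (h2 : 0 < ori a b d) :
    0 < ori c d a ∧ ori c d b < 0 := by
  obtain ⟨-, h3, h4⟩ := br_ne_of_ori h1.ne
  have e1 : br (ev a) (ev b) ^ 2 * ori c d a =
      br (ev d) (ev a) ^ 2 * -ori a b c + br (ev c) (ev a) ^ 2 * ori a b d := by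
    simp only [ori, oriW, br]
    ring
  have e2 : br (ev a) (ev b) ^ 2 * -ori c d b =
      br (ev b) (ev d) ^ 2 * -ori a b c + br (ev b) (ev c) ^ 2 * ori a b d := by
    simp only [ori, oriW, br]
    ring
  have h5 := neg_pos.2 h1
  have h6 : 0 < br (ev a) (ev b) ^ 2 := sq_pos_of_ne_zero (br_ne_of_ori h1.ne).1
  rw [← neg_pos (a := ori c d b), ← mul_pos_iff_of_pos_left h6, e1,
    ← mul_pos_iff_of_pos_left (b := -ori c d b) h6, e2]
  generalize -ori a b c = t at h5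
  constructor <;> positivity

lemma Cr.symm {a b c d : V} (h : Cr a b c d) : Cr c d a b := by
  rcases mul_neg_iff.1 h with ⟨h1, h2⟩ | ⟨h1, h2⟩
  · obtain ⟨h3, h4⟩ := VW_cross h2 h1
    rw [Cr, ori_swap d c a, ori_swap d c b, neg_mul_neg]
    exact mul_neg_of_pos_of_neg h3 h4
  · exact mul_neg_of_pos_of_neg (VW_cross h1 h2).1 (VW_cross h1 h2).2
lemma Cr.swap_left {a b c d : V} (h : Cr a b c d) : Cr b a c d := by
  rwa [Cr, ori_swap a b c, ori_swap a b d, neg_mul_neg]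
lemma Cr.swap_right {a b c d : V} (h : Cr a b c d) : Cr a b d c := by
  rwa [Cr, mul_comm]
lemma Cr.ne {a b c d : V} (h : Cr a b c d) : a ≠ b ∧ c ≠ a ∧ c ≠ b ∧ d ≠ a ∧ d ≠ b ∧ c ≠ d := by
  obtain ⟨h1, h2, h3⟩ := br_ne_of_ori (left_ne_zero_of_mul (ne_of_lt h))
  obtain ⟨-, h4, h5⟩ := br_ne_of_ori (right_ne_zero_of_mul (ne_of_lt h))
  refine ⟨?_, ?_, ?_, ?_, ?_, ?_⟩ <;> rintro rfl
  exacts [h1 (br_self _), h3 (br_self _), h2 (br_self _), h5 (br_self _), h4 (br_self _),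
    not_lt.2 (mul_self_nonneg _) h]
/-- The cyclic order of four points of a crossing. -/
lemma ori_of_cross {a b c d : V} (h1 : ori a b c < 0) (h2 : 0 < ori a b d) :
    0 < ori c d a ∧ ori c d b < 0 := VW_cross h1 h2
/-- The side of an ideal point with respect to a wall. -/
lemma B_N_ev {a : V} (ha : B a a = 1) (x : W) :
    ∃ k : ℝ, 0 < k ∧ B a (N x) = k * oriW (ev a) x (ev (-a)) := by
  obtain ⟨h1, h2, h3⟩ := VW_co (ev_eig ha) (ev_eig (VW_neg ha))
  have h0 := br_ev_neg ha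
  refine ⟨(br (ev a) (ev (-a)) ^ 2)⁻¹, by positivity, ?_⟩
  rw [eq_inv_mul_iff_mul_eq₀ (pow_ne_zero 2 h0)]
  simp only [B, N, oriW, br] at h1 h2 h3 ⊢
  linear_combination ((ev a).p * (ev (-a)).q - (ev a).q * (ev (-a)).p) *
    (-(x.p * x.q) * h1 - x.q ^ 2 / 2 * h2 + x.p ^ 2 / 2 * h3)
lemma cross_iff_Cr {a w : V} (ha : B a a = 1) (hw : B w w = 1) :
    |B w a| < 1 ↔ Cr w (-w) a (-a) := by
  obtain ⟨h1, h2⟩ := VW_key hw ha
  have h3 := br_ev_neg hw
  have h4 := br_ev_neg ha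
  have e : ori w (-w) a * ori w (-w) (-a) =
      -(br (ev w) (ev (-w)) ^ 4 * br (ev a) (ev (-a)) ^ 2 / 4 * (1 - B w a ^ 2)) := by
    have e1 : ori w (-w) a * ori w (-w) (-a) = -(br (ev w) (ev (-w)) ^ 2 / 4 *
        (2 * (br (ev w) (ev a) * br (ev (-w)) (ev (-a))) *
          (-2 * (br (ev w) (ev (-a)) * br (ev (-w)) (ev a))))) := by
      simp only [ori, oriW, br]
      ring
    rw [e1, ← h1, ← h2]
    ring
  rw [Cr, e, neg_lt_zero, mul_pos_iff_of_pos_left (by positivity), sub_pos,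
    sq_lt_one_iff_abs_lt_one]

end

end Pool.Agent.P.MP_d39174_gt

end

section
/-! Walls facing each other. -/

namespace Pool.Agent.P.MP_d39174_gt

open UpperHalfPlane MatrixGroups

noncomputable section

/-- The wall `b` lies on the positive side of `a`. -/
def Fac (a b : V) : Prop := 0 < ori a b (-a) ∧ 0 < ori a (-b) (-a)

private lemma VWF_pos {x y : ℝ} (h : 0 < x * y ^ 2) : 0 < x := by
  by_contra h0
  nlinarith [mul_nonneg (neg_nonneg.2 (not_lt.1 h0)) (sq_nonneg y)]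

private lemma VWF_negB (a x : V) : B (-a) x = -B a x := by
  unfold B
  simp only [V.neg_a, V.neg_b, V.neg_c]
  ring

private lemma VWF_iff {a b : V} (ha : B a a = 1) :
    Fac a b ↔ 0 < B a (N (ev b)) ∧ 0 < B a (N (ev (-b))) := by
  obtain ⟨k, hk, e⟩ := B_N_ev ha (ev b)
  obtain ⟨k', hk', e'⟩ := B_N_ev ha (ev (-b))
  rw [e, e', mul_pos_iff_of_pos_left hk, mul_pos_iff_of_pos_left hk']
  rfl

private lemma VWF_co {n : V} (h : B n n = 1) :
    n.a * br (ev n) (ev (-n)) = (ev n).p * (ev (-n)).q + (ev n).q * (ev (-n)).p ∧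
      n.b * br (ev n) (ev (-n)) = -2 * (ev n).p * (ev (-n)).p ∧
      n.c * br (ev n) (ev (-n)) = 2 * (ev n).q * (ev (-n)).q :=
  VW_co (VW_of_br h (br_self _)) (VW_of_br (VW_neg h) (br_self _))

private lemma VWF_key {b : V} (hb : B b b = 1) (x y : V) :
    br (ev b) (ev (-b)) ^ 2 * (B x y - B x b * B y b) =
      -2 * (B x (N (ev b)) * B y (N (ev (-b))) + B x (N (ev (-b))) * B y (N (ev b))) := by
  obtain ⟨h1, h2, h3⟩ := VWF_co hb
  generalize ev b = u at *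
  generalize ev (-b) = v at *
  have e : ∀ z : V, br u v * B z b =
      z.a * (u.p * v.q + u.q * v.p) + z.b * (u.q * v.q) - z.c * (u.p * v.p) := by
    intro z
    unfold B
    linear_combination z.a * h1 + z.b / 2 * h3 + z.c / 2 * h2
  have e2 : br u v ^ 2 * (B x b * B y b) = (br u v * B x b) * (br u v * B y b) := by ring
  rw [mul_sub, e2, e, e]
  unfold B N br
  ring

private lemma VWF_sq {a b : V} (ha : B a a = 1) (hb : B b b = 1) :
    1 < |B a b| ↔ 0 < B a (N (ev b)) * B a (N (ev (-b))) := by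
  have h := VWF_key hb a a
  have hD : 0 < br (ev b) (ev (-b)) ^ 2 := sq_pos_of_ne_zero (br_ev_neg hb)
  rw [ha] at h
  rw [← one_lt_sq_iff_one_lt_abs]
  constructor
  · intro h1
    nlinarith [mul_pos hD (sub_pos.2 h1)]
  · intro h1
    by_contra h2
    nlinarith [mul_nonneg hD.le (sub_nonneg.2 (not_lt.1 h2))]

private lemma VWF_br {a b : V} : Fac a b ↔
    0 < br (ev a) (ev (-a)) * br (ev a) (ev b) * br (ev (-a)) (ev b) ∧
    0 < br (ev a) (ev (-a)) * br (ev a) (ev (-b)) * br (ev (-a)) (ev (-b)) := by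
  have e : ∀ x : W, oriW (ev a) x (ev (-a)) =
      br (ev a) (ev (-a)) * br (ev a) x * br (ev (-a)) x := by
    intro x
    unfold oriW br
    ring
  unfold Fac ori
  rw [e, e]

private lemma VWF_br' {a b : V} : Fac b a ↔
    0 < br (ev b) (ev (-b)) * br (ev a) (ev b) * br (ev a) (ev (-b)) ∧
    0 < br (ev b) (ev (-b)) * br (ev (-a)) (ev b) * br (ev (-a)) (ev (-b)) := by
  have e : ∀ x : W, oriW (ev b) x (ev (-b)) =
      br (ev b) (ev (-b)) * br x (ev b) * br x (ev (-b)) := by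
    intro x
    unfold oriW br
    ring
  unfold Fac ori
  rw [e, e]

private lemma VWF_det {a b c : V} (ha : B a a = 1) (hb : B b b = 1) (hc : B c c = 1) :
    det3 a b c * (br (ev a) (ev (-a)) * br (ev b) (ev (-b)) * br (ev c) (ev (-c))) =
      -2 * (br (ev a) (ev (-b)) * br (ev b) (ev (-c)) * br (ev c) (ev (-a)) +
        br (ev (-a)) (ev b) * br (ev (-b)) (ev c) * br (ev (-c)) (ev a)) := by
  obtain ⟨a1, a2, a3⟩ := VWF_co ha
  obtain ⟨b1, b2, b3⟩ := VWF_co hb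
  obtain ⟨c1, c2, c3⟩ := VWF_co hc
  generalize ev a = u at *
  generalize ev (-a) = u' at *
  generalize ev b = v at *
  generalize ev (-b) = v' at *
  generalize ev c = w at *
  generalize ev (-c) = w' at *
  have e : det3 a b c * (br u u' * br v v' * br w w') =
      ((a.b * br u u') * (b.c * br v v') - (a.c * br u u') * (b.b * br v v')) / 2 *
        (c.a * br w w') +
      (((a.a * br u u') * (b.b * br v v') - (a.b * br u u') * (b.a * br v v')) *
        (c.c * br w w') +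
      ((a.c * br u u') * (b.a * br v v') - (a.a * br u u') * (b.c * br v v')) *
        (c.b * br w w')) / 2 := by
    unfold det3 B cr
    ring
  rw [e, a1, a2, a3, b1, b2, b3, c1, c2, c3]
  unfold br
  ring

lemma Fac.ad {a b : V} (g : SL(2, ℝ)) (ha : B a a = 1) (hb : B b b = 1) :
    Fac (g • a) (g • b) ↔ Fac a b := by
  obtain ⟨k, hk, e⟩ := ori_ad g ha hb (VW_neg ha)
  obtain ⟨k', hk', e'⟩ := ori_ad g ha (VW_neg hb) (VW_neg ha)
  unfold Fac
  rw [← smul_neg, ← smul_neg, e, e', mul_pos_iff_of_pos_left hk, mul_pos_iff_of_pos_left hk']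
lemma Fac.neg_right {a b : V} (h : Fac a b) : Fac a (-b) := by
  refine ⟨h.2, ?_⟩
  rw [neg_neg]
  exact h.1
lemma fac_of_point {a b p : V} (ha : B a a = 1) (hb : B b b = 1) (h : 1 < |B a b|) (hp : Fut p)
    (hbp : B b p = 0) (hap : 0 < B a p) : Fac a b := by
  have h1 := (VWF_sq ha hb).1 h
  have k := VWF_key hb a p
  have hD : 0 < br (ev b) (ev (-b)) ^ 2 := sq_pos_of_ne_zero (br_ev_neg hb)
  have p1 := hp.B_N (ev_ne hb)
  have p2 := hp.B_N (ev_ne (VW_neg hb))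
  rw [B_comm p b, hbp, mul_zero, sub_zero] at k
  rw [VWF_iff ha]
  rcases mul_pos_iff.1 h1 with h2 | h2
  · exact h2
  · exfalso
    nlinarith [mul_pos hD hap, mul_pos_of_neg_of_neg h2.1 p2, mul_pos_of_neg_of_neg h2.2 p1]
lemma Fac.pos {a b p : V} (ha : B a a = 1) (hb : B b b = 1) (h : Fac a b) (hp : Fut p)
    (hbp : B b p = 0) : 0 < B a p := by
  have k := VWF_key hb a p
  have p1 := hp.B_N (ev_ne hb)
  have p2 := hp.B_N (ev_ne (VW_neg hb))
  rw [B_comm p b, hbp, mul_zero, sub_zero] at k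
  obtain ⟨h1, h2⟩ := (VWF_iff ha).1 h
  refine VWF_pos (y := br (ev b) (ev (-b))) ?_
  nlinarith [mul_pos h1 (neg_pos.2 p2), mul_pos h2 (neg_pos.2 p1)]
lemma Fac.one_lt {a b : V} (ha : B a a = 1) (hb : B b b = 1) (h : Fac a b) : 1 < |B a b| := by
  obtain ⟨h1, h2⟩ := (VWF_iff ha).1 h
  exact (VWF_sq ha hb).2 (mul_pos h1 h2)
lemma fac_or {a b : V} (ha : B a a = 1) (hb : B b b = 1) (h : 1 < |B a b|) :
    Fac a b ∨ Fac (-a) b := by
  rw [VWF_iff ha, VWF_iff (VW_neg ha), VWF_negB, VWF_negB, neg_pos, neg_pos]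
  exact mul_pos_iff.1 ((VWF_sq ha hb).1 h)
lemma Fac.lt {a b : V} (ha : B a a = 1) (hb : B b b = 1) (h : Fac a b) (h' : Fac b a) :
    B a b < -1 := by
  obtain ⟨h1, -⟩ := VWF_br.1 h
  obtain ⟨h2, -⟩ := VWF_br'.1 h'
  obtain ⟨-, k⟩ := VW_key ha hb
  generalize br (ev a) (ev (-a)) = D at *
  generalize br (ev b) (ev (-b)) = E at *
  generalize br (ev a) (ev b) = p at *
  generalize br (ev a) (ev (-b)) = q at *
  generalize br (ev (-a)) (ev b) = r at *
  have h3 : 0 < D * E * (q * r) := VWF_pos (y := p) (by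
    have := mul_pos h1 h2
    linarith [show D * p * r * (E * p * q) = D * E * (q * r) * p ^ 2 by ring])
  have h4 : 0 < -(1 + B a b) := VWF_pos (y := D * E) (by
    have : -(1 + B a b) * (D * E) ^ 2 = 2 * (D * E * (q * r)) := by
      linear_combination (-(D * E)) * k
    linarith)
  linarith
lemma Fac.of_lt {a b : V} (ha : B a a = 1) (hb : B b b = 1) (h : B a b < -1)
    (h' : 0 < ori a b (-a)) : Fac a b ∧ Fac b a := by
  have e : ori a b (-a) = br (ev a) (ev (-a)) * br (ev a) (ev b) * br (ev (-a)) (ev b) := by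
    unfold ori oriW br
    ring
  rw [e] at h'
  rw [VWF_br, VWF_br']
  obtain ⟨k1, k2⟩ := VW_key ha hb
  have hD := br_ev_neg ha
  have hE := br_ev_neg hb
  generalize br (ev a) (ev (-a)) = D at *
  generalize br (ev b) (ev (-b)) = E at *
  generalize br (ev a) (ev b) = p at *
  generalize br (ev a) (ev (-b)) = q at *
  generalize br (ev (-a)) (ev b) = r at *
  generalize br (ev (-a)) (ev (-b)) = s at *
  have hDE : 0 < (D * E) ^ 2 := sq_pos_of_ne_zero (mul_ne_zero hD hE)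
  have h1 : 0 < D * E * (q * r) := by
    have : -(1 + B a b) * (D * E) ^ 2 = 2 * (D * E * (q * r)) := by
      linear_combination (-(D * E)) * k2
    have h0 : 0 < -(1 + B a b) * (D * E) ^ 2 := mul_pos (by linarith) hDE
    linarith
  have h2 : 0 < D * E * (p * s) := by
    have : (1 - B a b) * (D * E) ^ 2 = 2 * (D * E * (p * s)) := by
      linear_combination (D * E) * k1
    have h0 : 0 < (1 - B a b) * (D * E) ^ 2 := mul_pos (by linarith) hDE
    linarith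
  refine ⟨⟨h', VWF_pos (y := D * E * p * r) ?_⟩, VWF_pos (y := D * r) ?_,
    VWF_pos (y := D * p) ?_⟩
  · have := mul_pos h' (mul_pos h1 h2)
    linarith [show D * p * r * (D * E * (q * r) * (D * E * (p * s))) =
      D * q * s * (D * E * p * r) ^ 2 by ring]
  · have := mul_pos h' h1
    linarith [show D * p * r * (D * E * (q * r)) = E * p * q * (D * r) ^ 2 by ring]
  · have := mul_pos h' h2
    linarith [show D * p * r * (D * E * (p * s)) = E * r * s * (D * p) ^ 2 by ring]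
/-- For three mutually facing walls the volume form detects the cyclic order. -/
lemma det3_ori {a b c : V} (ha : B a a = 1) (hb : B b b = 1) (hc : B c c = 1) (ab : Fac a b)
    (ba : Fac b a) (bc : Fac b c) (cb : Fac c b) (ac : Fac a c) (ca : Fac c a) :
    det3 a b c * ori a b c < 0 := by
  obtain ⟨r1, -⟩ := VWF_br.1 ab
  obtain ⟨q1, -⟩ := VWF_br'.1 ba
  obtain ⟨r2, -⟩ := VWF_br.1 bc
  obtain ⟨q2, -⟩ := VWF_br'.1 cb
  obtain ⟨r3, -⟩ := VWF_br.1 ca
  obtain ⟨q3, -⟩ := VWF_br'.1 ac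
  have k := VWF_det ha hb hc
  unfold ori oriW
  generalize br (ev a) (ev (-a)) = D at *
  generalize br (ev b) (ev (-b)) = E at *
  generalize br (ev c) (ev (-c)) = F at *
  generalize br (ev a) (ev b) = p1 at *
  generalize br (ev b) (ev c) = p2 at *
  generalize br (ev c) (ev a) = p3 at *
  generalize br (ev a) (ev (-b)) = x1 at *
  generalize br (ev b) (ev (-c)) = x2 at *
  generalize br (ev c) (ev (-a)) = x3 at *
  generalize br (ev (-a)) (ev b) = y1 at *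
  generalize br (ev (-b)) (ev c) = y2 at *
  generalize br (ev (-c)) (ev a) = y3 at *
  have hq := mul_pos q1 (mul_pos q2 q3)
  have hr := mul_pos r1 (mul_pos r2 r3)
  have h0 : 0 < -(det3 a b c * (p1 * p2 * p3)) := VWF_pos (y := D * E * F) (by
    have : -(det3 a b c * (p1 * p2 * p3)) * (D * E * F) ^ 2 =
        2 * (E * p1 * x1 * (F * p2 * x2 * (D * p3 * x3))) +
          2 * (D * p1 * y1 * (E * p2 * y2 * (F * p3 * y3))) := by
      linear_combination (-(p1 * p2 * p3 * (D * E * F))) * k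
    linarith)
  linarith
/-- Two walls facing each other across `w`. -/
lemma B_le_mul {w x y : V} (hw : B w w = 1) (hx : B x x = 1) (hy : B y y = 1) (h1 : Fac w x)
    (h2 : Fac x w) (h3 : Fac (-w) y) (h4 : Fac y w) :
    B w x < -1 ∧ 1 < B w y ∧ B x y ≤ B w x * B w y := by
  refine ⟨Fac.lt hw hx h1 h2, ?_, ?_⟩
  · have := Fac.lt (VW_neg hw) hy h3 h4.neg_right
    rw [VWF_negB] at this
    linarith
  · have k := VWF_key hw x y
    obtain ⟨x1, x2⟩ := (VWF_iff hx).1 h2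
    obtain ⟨y1, y2⟩ := (VWF_iff hy).1 h4
    have h0 : 0 < -(B x y - B x w * B y w) := VWF_pos (y := br (ev w) (ev (-w))) (by
      nlinarith [mul_pos x1 y2, mul_pos x2 y1])
    rw [B_comm w x, B_comm w y]
    linarith

end

end Pool.Agent.P.MP_d39174_gt

end

section
/-! The affine coordinate attached to a wall. -/

namespace Pool.Agent.P.MP_d39174_gt

open UpperHalfPlane MatrixGroups

noncomputable section

/-- The endpoint of `a` has a finite coordinate for `w`. -/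
def Fin' (w a : V) : Prop := br (ev w) (ev a) ≠ 0

/-- The endpoint of `a` in the frame of `w`. -/
def VW2X (w a : V) : W := (fr w)⁻¹ • ev a

lemma VW2_crd (w a : V) : crd w a = (VW2X w a).p / (VW2X w a).q := rfl
lemma VW2_brX (w a b : V) : br (ev a) (ev b) = br (VW2X w a) (VW2X w b) := (br_ad _ _ _).symm
lemma VW2_sc (g : SL(2, ℝ)) (t : ℝ) (y : W) :
    g • (⟨t * y.p, t * y.q⟩ : W) = ⟨t * (g • y).p, t * (g • y).q⟩ := by
  ext <;> simp only [act_p, act_q] <;> ring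
lemma VW2_inv {w : V} (hw : B w w = 1) : (fr w)⁻¹ • w = w0 := by
  rw [inv_smul_eq_iff, fr_w0 hw]
lemma VW2_self {w : V} (hw : B w w = 1) : ∃ s : ℝ, s ≠ 0 ∧ VW2X w w = ⟨s, 0⟩ := by
  obtain ⟨t, ht, e⟩ := ev_ad (fr w) B_w0
  rw [fr_w0 hw] at e
  refine ⟨t * 2, mul_ne_zero ht two_ne_zero, ?_⟩
  rw [VW2X, e, VW2_sc, inv_smul_smul]
  have h : ev w0 = ⟨2, 0⟩ := by
    simp only [ev, w0]
    norm_num
  rw [h, mul_zero]
lemma VW2_neg {w : V} (hw : B w w = 1) : ∃ s : ℝ, s ≠ 0 ∧ VW2X w (-w) = ⟨0, s⟩ := by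
  obtain ⟨t, ht, e⟩ := ev_ad (fr w) (VW_neg B_w0)
  rw [smul_neg, fr_w0 hw] at e
  refine ⟨t * 2, mul_ne_zero ht two_ne_zero, ?_⟩
  rw [VW2X, e, VW2_sc, inv_smul_smul]
  have h : ev (-w0) = ⟨0, 2⟩ := by
    simp only [ev, w0, V.neg_a, V.neg_b, V.neg_c]
    norm_num
  rw [h, mul_zero]
lemma VW2_brw {w : V} (hw : B w w = 1) :
    ∃ s : ℝ, s ≠ 0 ∧ ∀ a, br (ev w) (ev a) = s * (VW2X w a).q := by
  obtain ⟨s, hs, e⟩ := VW2_self hw
  refine ⟨s, hs, fun a => ?_⟩
  rw [VW2_brX w, e]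
  simp only [br, zero_mul, sub_zero]
lemma VW2_q {w a : V} (hw : B w w = 1) (ha : Fin' w a) : (VW2X w a).q ≠ 0 := by
  obtain ⟨s, -, e⟩ := VW2_brw hw
  rw [Fin', e] at ha
  exact right_ne_zero_of_mul ha
lemma VW2_p {w a : V} (hw : B w w = 1) (ha : Fin' w a) :
    (VW2X w a).p = crd w a * (VW2X w a).q := (div_mul_cancel₀ _ (VW2_q hw ha)).symm
lemma VW2_br {w a b : V} (hw : B w w = 1) (ha : Fin' w a) (hb : Fin' w b) :
    br (ev a) (ev b) = (VW2X w a).q * (VW2X w b).q * (crd w a - crd w b) := by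
  rw [VW2_brX w, br, VW2_p hw ha, VW2_p hw hb]
  ring
lemma VW2_E (g : SL(2, ℝ)) {a : V} (ha : B a a = 1) : VWE (g • a) (g • ev a) := by
  refine VW_of_br (by rwa [B_ad]) ?_
  obtain ⟨t, -, e⟩ := ev_ad g ha
  rw [e]
  simp only [br]
  ring
lemma VW2_co {w a : V} (hw : B w w = 1) (ha : B a a = 1) (h1 : Fin' w a) (h2 : Fin' w (-a)) :
    crd w a - crd w (-a) ≠ 0 ∧
      ((fr w)⁻¹ • a).a * (crd w a - crd w (-a)) = crd w a + crd w (-a) ∧
      ((fr w)⁻¹ • a).b * (crd w a - crd w (-a)) = -2 * (crd w a * crd w (-a)) ∧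
      ((fr w)⁻¹ • a).c * (crd w a - crd w (-a)) = 2 := by
  have e2 := VW2_E (fr w)⁻¹ (VW_neg ha)
  rw [smul_neg] at e2
  obtain ⟨k1, k2, k3⟩ := VW_co (u := VW2X w a) (v := VW2X w (-a)) (VW2_E (fr w)⁻¹ ha) e2
  have h0 := br_ev_neg ha
  have hq := mul_ne_zero (VW2_q hw h1) (VW2_q hw h2)
  rw [← VW2_brX, VW2_br hw h1 h2] at k1 k2 k3
  rw [VW2_br hw h1 h2] at h0
  rw [VW2_p hw h1, VW2_p hw h2] at k1 k2
  exact ⟨right_ne_zero_of_mul h0, mul_left_cancel₀ hq (by linear_combination k1),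
    mul_left_cancel₀ hq (by linear_combination k2), mul_left_cancel₀ hq (by linear_combination k3)⟩

lemma fin'_neg {w : V} (hw : B w w = 1) : Fin' w (-w) := br_ev_neg hw
lemma crd_neg_self {w : V} (hw : B w w = 1) : crd w (-w) = 0 := by
  obtain ⟨s, -, e⟩ := VW2_neg hw
  rw [VW2_crd, e, zero_div]
lemma crd_eq_iff {w a b : V} (hw : B w w = 1) (ha : Fin' w a) (hb : Fin' w b) :
    crd w a = crd w b ↔ br (ev a) (ev b) = 0 := by
  rw [VW2_br hw ha hb, mul_eq_zero, or_iff_right (mul_ne_zero (VW2_q hw ha) (VW2_q hw hb)),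
    sub_eq_zero]
lemma crd_ne_zero {w a : V} (hw : B w w = 1) (ha : Fin' w a) (ha' : Fin' (-w) a) :
    crd w a ≠ 0 := by
  intro h
  rw [← crd_neg_self hw, crd_eq_iff hw ha (fin'_neg hw)] at h
  exact ha' (by rw [br_swap, h, neg_zero])
lemma ori_crd {w a b c : V} (hw : B w w = 1) (ha : Fin' w a) (hb : Fin' w b) (hc : Fin' w c) :
    ∃ k : ℝ, 0 < k ∧
      ori a b c = k * ((crd w a - crd w b) * (crd w b - crd w c) * (crd w c - crd w a)) := by
  have h1 := VW2_q hw ha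
  have h2 := VW2_q hw hb
  have h3 := VW2_q hw hc
  refine ⟨((VW2X w a).q * (VW2X w b).q * (VW2X w c).q) ^ 2, by positivity, ?_⟩
  rw [ori, oriW, VW2_br hw ha hb, VW2_br hw hb hc, VW2_br hw hc ha]
  ring
lemma ori_crd' {w b c : V} (hw : B w w = 1) (hb : Fin' w b) (hc : Fin' w c) :
    ∃ k : ℝ, 0 < k ∧ ori w b c = k * (crd w c - crd w b) := by
  obtain ⟨s, hs, e⟩ := VW2_brw hw
  have h2 := VW2_q hw hb
  have h3 := VW2_q hw hc
  refine ⟨(s * (VW2X w b).q * (VW2X w c).q) ^ 2, by positivity, ?_⟩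
  rw [ori, oriW, VW2_br hw hb hc, br_swap (ev w) (ev c), e, e]
  ring
lemma ori_pos_iff {w b c : V} (hw : B w w = 1) (hb : Fin' w b) (hc : Fin' w c) :
    0 < ori w b c ↔ crd w b < crd w c := by
  obtain ⟨k, hk, e⟩ := ori_crd' hw hb hc
  rw [e, mul_pos_iff_of_pos_left hk, sub_pos]
lemma side_iff {w a : V} (hw : B w w = 1) (ha : Fin' w a) :
    (0 < ori w a (-w) ↔ crd w a < 0) ∧ (ori w a (-w) < 0 ↔ 0 < crd w a) := by
  obtain ⟨k, hk, e⟩ := ori_crd' hw ha (fin'_neg hw)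
  rw [crd_neg_self hw, zero_sub] at e
  constructor
  · rw [e, mul_pos_iff_of_pos_left hk, neg_pos]
  · rw [e, mul_neg, neg_lt_zero, mul_pos_iff_of_pos_left hk]
lemma Cr_crd {w a b c d : V} (hw : B w w = 1) (ha : Fin' w a) (hb : Fin' w b) (hc : Fin' w c)
    (hd : Fin' w d) : Cr a b c d ↔ crd w a ≠ crd w b ∧
      (crd w b - crd w c) * (crd w c - crd w a) * ((crd w b - crd w d) * (crd w d - crd w a))
        < 0 := by
  obtain ⟨k, hk, e1⟩ := ori_crd hw ha hb hc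
  obtain ⟨l, hl, e2⟩ := ori_crd hw ha hb hd
  have e : ori a b c * ori a b d = k * l * (crd w a - crd w b) ^ 2 *
      ((crd w b - crd w c) * (crd w c - crd w a) * ((crd w b - crd w d) * (crd w d - crd w a))) := by
    rw [e1, e2]
    ring
  rw [Cr, e]
  by_cases h : crd w a = crd w b
  · simp [h]
  · have h1 : crd w a - crd w b ≠ 0 := sub_ne_zero.2 h
    rw [and_iff_right h, ← neg_pos, ← mul_neg, mul_pos_iff_of_pos_left (by positivity), neg_pos]
lemma Cr_crd' {w b c d : V} (hw : B w w = 1) (hb : Fin' w b) (hc : Fin' w c) (hd : Fin' w d) :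
    Cr w b c d ↔ (crd w c - crd w b) * (crd w d - crd w b) < 0 := by
  obtain ⟨k, hk, e1⟩ := ori_crd' hw hb hc
  obtain ⟨l, hl, e2⟩ := ori_crd' hw hb hd
  rw [Cr, e1, e2, mul_mul_mul_comm, ← neg_pos, ← mul_neg,
    mul_pos_iff_of_pos_left (mul_pos hk hl), neg_pos]
lemma Fin'.ad {w a : V} (g : SL(2, ℝ)) (hw : B w w = 1) (ha : B a a = 1) :
    Fin' (g • w) (g • a) ↔ Fin' w a := (br_ev_ad g hw ha).not
lemma crd_ad (g : SL(2, ℝ)) {w : V} (hw : B w w = 1) :
    ∃ k : ℝ, 0 < k ∧ ∀ a, B a a = 1 → crd (g • w) (g • a) = k * crd w a := by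
  have hw' : B (g • w) (g • w) = 1 := by rwa [B_ad]
  obtain ⟨h, hh⟩ : ∃ h, h = (fr (g • w))⁻¹ * g * fr w := ⟨_, rfl⟩
  have e : h • w0 = w0 := by rw [hh, mul_smul, mul_smul, fr_w0 hw, VW2_inv hw']
  have ea := congrArg V.a e
  have eb := congrArg V.b e
  have ec := congrArg V.c e
  simp only [ad_a, ad_b, ad_c, w0] at ea eb ec
  have h1 : h 0 0 * h 1 1 = 1 := by linear_combination (ea + det_eq h) / 2
  have h2 : h 0 1 = 0 := by linear_combination -h 1 1 / 2 * eb - h 0 1 * h1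
  have h3 : h 1 0 = 0 := by linear_combination h 0 0 / 2 * ec - h 1 0 * h1
  have h4 : h 0 0 ≠ 0 := left_ne_zero_of_mul (h1.trans_ne one_ne_zero)
  have h5 : h 0 0 / h 1 1 = h 0 0 ^ 2 := by
    rw [div_eq_iff (right_ne_zero_of_mul (h1.trans_ne one_ne_zero))]
    linear_combination -h 0 0 * h1
  refine ⟨h 0 0 ^ 2, by positivity, fun a ha => ?_⟩
  obtain ⟨t, ht, e1⟩ := ev_ad g ha
  have e2 : (fr (g • w))⁻¹ • g • ev a = h • VW2X w a := by
    rw [hh, VW2X, mul_smul, mul_smul, smul_inv_smul]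
  rw [VW2_crd, VW2X, e1, VW2_sc, e2, mul_div_mul_left _ _ ht, act_p, act_q, h2, h3, zero_mul,
    zero_mul, add_zero, zero_add, mul_div_mul_comm, h5, VW2_crd]
lemma crd_ex {w a : V} (hw : B w w = 1) (ha : B a a = 1) (t : ℝ) :
    crd w (ex t w • a) = Real.exp (2 * t) * crd w a := by
  obtain ⟨s, hs, e1⟩ := ev_ad (ex t w) ha
  have e2 : (fr w)⁻¹ • ex t w • ev a = ex t w0 • VW2X w a := by
    have e3 := ex_conj (fr w) t w0
    rw [fr_w0 hw] at e3
    rw [← e3, VW2X, mul_smul, mul_smul, inv_smul_smul]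
  obtain ⟨k1, k2, k3, k4⟩ := ex_apply B_w0 t
  simp only [w0, mul_one, mul_zero, Real.cosh_add_sinh, Real.cosh_sub_sinh] at k1 k2 k3 k4
  rw [VW2_crd, VW2X, e1, VW2_sc, e2, mul_div_mul_left _ _ hs, act_p, act_q]
  simp only [w0]
  rw [k1, k2, k3, k4, zero_mul, zero_mul, add_zero, zero_add, mul_div_mul_comm, ← Real.exp_sub,
    VW2_crd, show t - -t = 2 * t by ring]
lemma crd_neg_left {w : V} (hw : B w w = 1) :
    ∃ k : ℝ, 0 < k ∧ ∀ a, Fin' w a → Fin' (-w) a → crd (-w) a = -k / crd w a := by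
  obtain ⟨h, hh⟩ : ∃ h, h = (fr (-w))⁻¹ * fr w := ⟨_, rfl⟩
  have e : h • w0 = -w0 := by
    rw [hh, mul_smul, fr_w0 hw, ← VW2_inv (VW_neg hw), smul_neg, neg_neg]
  have ea := congrArg V.a e
  have eb := congrArg V.b e
  have ec := congrArg V.c e
  simp only [ad_a, ad_b, ad_c, w0, V.neg_a, V.neg_b, V.neg_c] at ea eb ec
  have h1 : h 0 1 * h 1 0 = -1 := by linear_combination (ea - det_eq h) / 2
  have h2 : h 0 0 = 0 := by linear_combination h 1 0 / 2 * eb + h 0 0 * h1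
  have h3 : h 1 1 = 0 := by linear_combination -h 0 1 / 2 * ec + h 1 1 * h1
  have h0 : h 0 1 * h 1 0 ≠ 0 := h1.trans_ne (by norm_num)
  have h4 : h 0 1 ≠ 0 := left_ne_zero_of_mul h0
  have h5 : h 0 1 / h 1 0 = -h 0 1 ^ 2 := by
    rw [div_eq_iff (right_ne_zero_of_mul h0)]
    linear_combination h 0 1 * h1
  refine ⟨h 0 1 ^ 2, by positivity, fun a _ _ => ?_⟩
  have e2 : VW2X (-w) a = h • VW2X w a := by
    rw [hh, VW2X, VW2X, mul_smul, smul_inv_smul]
  rw [VW2_crd, e2, act_p, act_q, h2, h3, zero_mul, zero_mul, add_zero, zero_add, mul_div_mul_comm,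
    h5, VW2_crd, div_div_eq_mul_div, mul_div_assoc]
lemma B_crd {w a : V} (hw : B w w = 1) (ha : B a a = 1) (h1 : Fin' w a) (h2 : Fin' w (-a)) :
    crd w a ≠ crd w (-a) ∧ B w a = (crd w a + crd w (-a)) / (crd w a - crd w (-a)) := by
  obtain ⟨k0, k1, -, -⟩ := VW2_co hw ha h1 h2
  refine ⟨sub_ne_zero.1 k0, ?_⟩
  rw [eq_div_iff k0, ← k1, ← B_ad (fr w)⁻¹, VW2_inv hw]
  simp only [B, w0]
  ring
lemma cross_iff_crd {w a : V} (hw : B w w = 1) (ha : B a a = 1) (h1 : Fin' w a)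
    (h2 : Fin' w (-a)) : |B w a| < 1 ↔ crd w a * crd w (-a) < 0 := by
  rw [cross_iff_Cr ha hw, Cr_crd' hw (fin'_neg hw) h1 h2, crd_neg_self hw, sub_zero, sub_zero]
lemma fin'_of_cross {w a : V} (hw : B w w = 1) (ha : B a a = 1) (h : |B w a| < 1) :
    Fin' w a ∧ Fin' w (-a) ∧ Fin' (-w) a ∧ Fin' (-w) (-a) := by
  rw [cross_iff_Cr ha hw] at h
  obtain ⟨-, h2, h3⟩ := br_ne_of_ori (left_ne_zero_of_mul (ne_of_lt h))
  obtain ⟨-, h4, h5⟩ := br_ne_of_ori (right_ne_zero_of_mul (ne_of_lt h))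
  exact ⟨fun e => h3 (by rw [br_swap, e, neg_zero]), fun e => h5 (by rw [br_swap, e, neg_zero]),
    h2, h4⟩
lemma fac_iff_crd {w a : V} (hw : B w w = 1) (h1 : Fin' w a) (h2 : Fin' w (-a)) :
    (Fac w a ↔ crd w a < 0 ∧ crd w (-a) < 0) ∧
      (Fac (-w) a ↔ 0 < crd w a ∧ 0 < crd w (-a)) := by
  have e : ∀ x, ori (-w) x w = -ori w x (-w) := fun x => by
    simp only [ori, oriW, br]
    ring
  constructor
  · rw [Fac, (side_iff hw h1).1, (side_iff hw h2).1]
  · rw [Fac, neg_neg, e, e, neg_pos, neg_pos, (side_iff hw h1).2, (side_iff hw h2).2]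
/-- The point at height `y` on the wall `a`. -/
def onW (a : V) (y : ℝ) : ℍ := fr a • pt ⟨0, y, -1 / y⟩

lemma VW2_onW (a : V) {y : ℝ} (hy : 0 < y) : Hy (onW a y) = fr a • (⟨0, y, -1 / y⟩ : V) := by
  have h : B ⟨0, y, -1 / y⟩ ⟨0, y, -1 / y⟩ = -1 := by
    simp only [B]
    field_simp
    ring
  rw [onW, Hy_smul, Hy_pt_unit ⟨by rw [h]; norm_num, hy⟩ h]
lemma VW2_abs {r s : ℝ} (h : r * s < 0) : |r - s| = |r| + |s| ∧ |(|r| - |s|)| = |r + s| := by
  rcases mul_neg_iff.1 h with ⟨h1, h2⟩ | ⟨h1, h2⟩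
  · rw [abs_of_pos h1, abs_of_neg h2, abs_of_pos (by linarith : 0 < r - s), sub_neg_eq_add]
    exact ⟨by ring, rfl⟩
  · rw [abs_of_neg h1, abs_of_pos h2, abs_of_neg (by linarith : r - s < 0),
      show -r - s = -(r + s) by ring, abs_neg]
    exact ⟨by ring, rfl⟩
lemma B_onW_self {a : V} (ha : B a a = 1) {y : ℝ} (hy : 0 < y) : B a (Hy (onW a y)) = 0 := by
  rw [VW2_onW a hy, B_ad_right, VW2_inv ha]
  simp [B, w0]
lemma B_onW {a w : V} (ha : B a a = 1) (hw : B w w = 1) (h1 : Fin' a w) (h2 : Fin' a (-w))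
    {y : ℝ} (hy : 0 < y) : B w (Hy (onW a y)) =
      (crd a w * crd a (-w) / y + y) / (crd a w - crd a (-w)) := by
  obtain ⟨k0, -, k2, k3⟩ := VW2_co ha hw h1 h2
  rw [VW2_onW a hy, B_ad_right, eq_div_iff k0]
  simp only [B]
  linear_combination -1 / y / 2 * k2 + y / 2 * k3
/-- A wall crossing `a` at a definite angle has endpoints of comparable size. -/
lemma ratio_bound (β : ℝ) (hβ : β < 1) : ∃ ρ : ℝ, 1 ≤ ρ ∧ ∀ a w : V, B a a = 1 → B w w = 1 →
    |B a w| ≤ β → |crd a w| ≤ ρ * |crd a (-w)| ∧ |crd a (-w)| ≤ ρ * |crd a w| := by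
  have hb : 0 < 1 - β := sub_pos.2 hβ
  refine ⟨max 1 (2 / (1 - β)), le_max_left _ _, fun a w ha hw h => ?_⟩
  obtain ⟨h1, h2, -, -⟩ := fin'_of_cross ha hw (h.trans_lt hβ)
  obtain ⟨e1, e2⟩ := VW2_abs ((cross_iff_crd ha hw h1 h2).1 (h.trans_lt hβ))
  obtain ⟨k0, k1⟩ := B_crd ha hw h1 h2
  rw [k1, abs_div, div_le_iff₀ (abs_pos.2 (sub_ne_zero.2 k0)), e1, ← e2, abs_le] at h
  have p1 := abs_nonneg (crd a w)
  have p2 := abs_nonneg (crd a (-w))
  generalize |crd a w| = x at *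
  generalize |crd a (-w)| = y at *
  constructor
  · refine le_trans ?_ (mul_le_mul_of_nonneg_right (le_max_right _ _) p2)
    rw [div_mul_eq_mul_div, le_div_iff₀ hb]
    nlinarith [h.2, mul_nonneg hb.le p2]
  · refine le_trans ?_ (mul_le_mul_of_nonneg_right (le_max_right _ _) p1)
    rw [div_mul_eq_mul_div, le_div_iff₀ hb]
    nlinarith [h.1, mul_nonneg hb.le p1]
/-- A wall crossing `a` at a definite angle with an endpoint of size about `y` passes close to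
the point at height `y`. -/
lemma window_bound (β M : ℝ) (hβ : β < 1) (hM : 1 ≤ M) : ∃ R : ℝ, ∀ (a w : V) (y : ℝ),
    B a a = 1 → B w w = 1 → |B a w| ≤ β → 0 < y → |crd a w| ≤ M * y → y ≤ M * |crd a w| →
      |B w (Hy (onW a y))| ≤ R := by
  refine ⟨2 * M, fun a w y ha hw h hy b1 b2 => ?_⟩
  obtain ⟨h1, h2, -, -⟩ := fin'_of_cross ha hw (h.trans_lt hβ)
  obtain ⟨e1, -⟩ := VW2_abs ((cross_iff_crd ha hw h1 h2).1 (h.trans_lt hβ))
  obtain ⟨k0, -⟩ := B_crd ha hw h1 h2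
  rw [B_onW ha hw h1 h2 hy, abs_div, div_le_iff₀ (abs_pos.2 (sub_ne_zero.2 k0)), e1]
  refine (abs_add_le _ _).trans ?_
  rw [abs_div, abs_mul, abs_of_pos hy]
  have p1 := abs_nonneg (crd a w)
  have p2 := abs_nonneg (crd a (-w))
  have k : |crd a w| * |crd a (-w)| / y ≤ M * |crd a (-w)| := by
    rw [div_le_iff₀ hy]
    nlinarith [mul_le_mul_of_nonneg_right b1 p2]
  nlinarith [mul_nonneg (zero_le_one.trans hM) p1, mul_nonneg (zero_le_one.trans hM) p2]

end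

end Pool.Agent.P.MP_d39174_gt

end

section
/-! Discrete cocompact groups of hyperbolic elements. -/

namespace Pool.Agent.P.MP_d39174_gt

open UpperHalfPlane MatrixGroups

noncomputable section

variable {Γ : Subgroup SL(2, ℝ)}

lemma Nice.noflip (h : Nice Γ) {g : SL(2, ℝ)} (hg : g ∈ Γ) {n : V} (hn : B n n = 1) :
    g • n ≠ -n := by
  intro e
  have h1 : g ≠ 1 := fun h1 => ne_neg_of_unit hn (by rwa [h1, one_smul] at e)
  have h2 : g ≠ -1 := fun h2 => ne_neg_of_unit hn (by rwa [h2, neg_ad, one_smul] at e)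
  have h3 := h.hyp g hg h1 h2
  rw [tr_of_flip hn e, abs_zero] at h3
  linarith

lemma Nice.pm_of_fix (h : Nice Γ) {g : SL(2, ℝ)} (hg : g ∈ Γ) {p : V} (hp : B p p < 0)
    (e : g • p = p) : PM 1 g := by
  by_contra h1
  rw [pm_one_iff, not_or] at h1
  exact (h.hyp g hg h1.1 h1.2).not_ge (abs_tr_le_of_fix hp e)

lemma Nice.exists_ex (h : Nice Γ) {g : SL(2, ℝ)} (hg : g ∈ Γ) (h1 : ¬ PM 1 g) :
    ∃ n t, B n n = 1 ∧ 0 < t ∧ PM (ex t n) g ∧ ex t n ∈ Γ := by
  rw [pm_one_iff, not_or] at h1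
  obtain ⟨n, t, hn, ht, e⟩ := MP_d39174_gt.exists_ex (h.hyp g hg h1.1 h1.2)
  exact ⟨n, t, hn, ht, e, e.symm.mem h.neg_one_mem hg⟩

lemma Nice.exists_prim (h : Nice Γ) {n : V} (hn : Per Γ n) : ∃ t, Prim Γ n t := by
  obtain ⟨hu, t₀, h0, hm⟩ := hn
  obtain ⟨z, hz⟩ := exists_on_wall hu
  have hA : {s : ℝ | 0 < s ∧ s ≤ t₀ ∧ ex s n ∈ Γ}.Finite := by
    refine Set.Finite.of_injOn (f := fun s => ex s n) (fun s hs => ?_)
      (fun s _ s' _ e => ex_pm_inj hu (Or.inl e.symm)) (h.fin z (2 * t₀))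
    refine ⟨hs.2.2, ?_⟩
    rw [dist_ex_of_wall hu s hz, abs_of_pos hs.1]
    linarith [hs.2.1]
  obtain ⟨t, ht, hmin⟩ := hA.exists_minimal ⟨t₀, h0, le_rfl, hm⟩
  refine ⟨t, hu, ht.1, ht.2.2, fun g hg e => ?_⟩
  obtain ⟨s, hs⟩ := stab_ex hu e
  have h1 : ex (s - ⌊s / t⌋ * t) n ∈ Γ := by
    rw [sub_eq_add_neg, ex_add, ex_neg, ← ex_zpow]
    exact mul_mem (hs.symm.mem h.neg_one_mem hg) (inv_mem (zpow_mem ht.2.2 _))
  have h2 := Int.sub_floor_div_mul_nonneg s ht.1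
  have h3 := Int.sub_floor_div_mul_lt s ht.1
  refine ⟨⌊s / t⌋, ?_⟩
  rcases h2.eq_or_lt with h4 | h4
  · rwa [← sub_eq_zero.1 h4.symm]
  · exact absurd (hmin ⟨h4, h3.le.trans ht.2.1, h1⟩ h3.le) h3.not_ge

lemma grp_fricke (g k : SL(2, ℝ)) : tr (g * k * g⁻¹ * k⁻¹) =
    tr g ^ 2 + tr k ^ 2 + tr (g * k) ^ 2 - tr g * tr k * tr (g * k) - 2 := by
  obtain ⟨a1, a2, a3, a4⟩ := inv_apply' g
  obtain ⟨b1, b2, b3, b4⟩ := inv_apply' k
  simp only [tr, mul_apply', a1, a2, a3, a4, b1, b2, b3, b4]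
  linear_combination ((g 0 0 + g 1 1) ^ 2 - 2) * det_eq k +
    ((k 0 0 + k 1 1) ^ 2 - 2 * (k 0 0 * k 1 1 - k 0 1 * k 1 0)) * det_eq g

lemma grp_tr_mul {a b : V} (ha : B a a = 1) (hb : B b b = 1) (s t : ℝ) : tr (ex s a * ex t b) =
    2 * Real.cosh s * Real.cosh t + 2 * Real.sinh s * Real.sinh t * B a b := by
  obtain ⟨a1, a2, a3, a4⟩ := ex_apply ha s
  obtain ⟨b1, b2, b3, b4⟩ := ex_apply hb t
  simp only [tr, mul_apply', a1, a2, a3, a4, b1, b2, b3, b4, B]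
  ring

/-- Walls with periods are not asymptotic. -/
lemma Nice.eq_of_br (h : Nice Γ) {a b : V} (ha : Per Γ a) (hb : Per Γ b)
    (e : br (ev a) (ev b) = 0) : a = b := by
  obtain ⟨ua, s, hs, ha⟩ := ha
  obtain ⟨ub, t, ht, hb⟩ := hb
  have h1 : tr (ex s a * ex t b * (ex s a)⁻¹ * (ex t b)⁻¹) = 2 := by
    rw [grp_fricke, grp_tr_mul ua ub, tr_ex ua, tr_ex ub, B_eq_one_of_ev ua ub e]
    linear_combination (4 - 4 * Real.cosh t ^ 2) * Real.cosh_sq s -
      4 * Real.sinh s ^ 2 * Real.cosh_sq t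
  have h2 : ex s a * ex t b * (ex s a)⁻¹ * (ex t b)⁻¹ = 1 := by
    by_contra h2
    have h3 := h.hyp _ (mul_mem (mul_mem (mul_mem ha hb) (inv_mem ha)) (inv_mem hb)) h2 fun h3 => by
      rw [h3, tr_neg, ← ex_zero a, tr_ex ua, Real.cosh_zero] at h1
      linarith
    rw [h1, abs_two] at h3
    exact h3.false
  rw [mul_inv_eq_one, ex_conj] at h2
  rcases eq_of_ex_fix ua ub hs.ne' (ex_inj (by rw [B_ad, ub]) ub ht.ne' (Or.inl h2.symm)) with
    h3 | h3
  · exact h3.symm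
  · exact absurd (h3 ▸ e) (br_ev_neg ua)

lemma Nice.fin' (h : Nice Γ) {a b : V} (ha : Per Γ a) (hb : Per Γ b) (e : a ≠ b) :
    Fin' a b := fun e' => e (h.eq_of_br ha hb e')

lemma Nice.abs_B_ne_one (h : Nice Γ) {a b : V} (ha : Per Γ a) (hb : Per Γ b) (e : b ≠ a)
    (e' : b ≠ -a) : |B a b| ≠ 1 := by
  have key : ∀ c, Per Γ c → B a c = 1 → c = a := fun c hc h1 =>
    (ev_of_B_eq_one ha.1 hc.1 h1).elim (fun h2 => (h.eq_of_br ha hc h2).symm)
      fun h2 => neg_injective (h.eq_of_br ha.neg hc.neg h2).symm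
  intro h1
  rcases eq_or_eq_neg_of_abs_eq h1 with h2 | h2
  · exact e (key b hb h2)
  · exact e' (neg_eq_iff_eq_neg.1 (key _ hb.neg (by rw [B_neg_right, h2, neg_neg])))

/-- The orbit of a wall with a period is locally finite. -/
lemma Nice.lf_orbit (h : Nice Γ) {n : V} (hn : Per Γ n) : LF {m | ∃ g ∈ Γ, m = g • n} := by
  obtain ⟨hu, t, ht, hm⟩ := hn
  intro z R
  have hu' : ∀ m, (∃ g ∈ Γ, m = g • n) → B m m = 1 := by
    rintro _ ⟨g, -, rfl⟩
    rw [B_ad, hu]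
  refine Set.Finite.of_injOn (f := fun m => ex t m) (fun m hm' => ?_)
    (fun m h1 m' h2 e => ex_inj (hu' m h1.1) (hu' m' h2.1) ht.ne' (Or.inl e.symm))
    (h.fin z (1 + 2 * Real.sinh t ^ 2 * (1 + R ^ 2)))
  refine ⟨?_, ?_⟩
  · obtain ⟨g, hg, rfl⟩ := hm'.1
    simp only [← ex_conj]
    exact mul_mem (mul_mem hg hm) (inv_mem hg)
  · refine ((Real.self_le_sinh_iff.2 dist_nonneg).trans (Real.sinh_lt_cosh _).le).trans ?_
    have h1 := pow_le_pow_left₀ (abs_nonneg _) hm'.2 2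
    rw [sq_abs] at h1
    rw [cosh_disp (hu' m hm'.1)]
    gcongr

lemma Nice.lf_of_fin (h : Nice Γ) {S : Set V} (hS : ∀ n ∈ S, Per Γ n) {F : Finset V}
    (hF : ∀ n ∈ S, ∃ g ∈ Γ, ∃ m ∈ F, n = g • m) : LF S := by
  intro z R
  refine ((F.finite_toSet.inter_of_left {m | Per Γ m}).biUnion
    fun m hm => h.lf_orbit hm.2 z R).subset fun n hn => ?_
  obtain ⟨g, hg, m, hm, e⟩ := hF n hn.1
  have h1 := (hS n hn.1).ad (inv_mem hg)
  rw [e, inv_smul_smul] at h1
  exact Set.mem_biUnion (⟨hm, h1⟩ : m ∈ (F : Set V) ∩ {m | Per Γ m}) ⟨⟨g, hg, e⟩, hn.2⟩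

/-- Every point is at bounded distance from an invariant family of walls. -/
lemma Nice.near_wall (h : Nice Γ) {n : V} (hn : B n n = 1) :
    ∃ R : ℝ, ∀ z : ℍ, ∃ g ∈ Γ, |B (g • n) (Hy z)| ≤ R := by
  obtain ⟨R, hR⟩ := h.coc
  obtain ⟨w, hw⟩ := exists_on_wall hn
  refine ⟨Real.sinh (R + dist I w), fun z => ?_⟩
  obtain ⟨γ, hγ, hd⟩ := hR z
  refine ⟨γ⁻¹, inv_mem hγ, ?_⟩
  rw [← B_ad_right, ← Hy_smul]
  exact abs_B_le_sinh hn hw ((dist_triangle _ I _).trans (by linarith))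

/-- A locally finite invariant family of walls has finitely many orbits. -/
lemma Nice.fin_orbits (h : Nice Γ) {S : Set V} (hS : LF S) (uS : ∀ n ∈ S, B n n = 1)
    (iS : ∀ g ∈ Γ, ∀ n ∈ S, g • n ∈ S) :
    ∃ F : Finset V, (∀ m ∈ F, m ∈ S) ∧ ∀ n ∈ S, ∃ g ∈ Γ, ∃ m ∈ F, n = g • m := by
  obtain ⟨R, hR⟩ := h.coc
  refine ⟨(hS I (Real.sinh R)).toFinset, fun m hm => ((Set.Finite.mem_toFinset _).1 hm).1,
    fun n hn => ?_⟩
  obtain ⟨z, hz⟩ := exists_on_wall (uS n hn)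
  obtain ⟨γ, hγ, hd⟩ := hR z
  refine ⟨γ⁻¹, inv_mem hγ, γ • n, (Set.Finite.mem_toFinset _).2 ⟨iS γ hγ n hn, ?_⟩,
    (inv_smul_smul γ n).symm⟩
  exact abs_B_le_sinh (w := γ • z) (uS _ (iS γ hγ n hn)) (by rw [Hy_smul, B_ad, hz])
    (by rwa [dist_comm])

end

end Pool.Agent.P.MP_d39174_gt

end

section
/-! Systole and generation. -/

namespace Pool.Agent.P.MP_d39174_gt

open UpperHalfPlane MatrixGroups

noncomputable section

variable {Γ : Subgroup SL(2, ℝ)}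

/-- There are finitely many translation lengths below any bound. -/
lemma Nice.fin_lengths (h : Nice Γ) (R : ℝ) :
    {t : ℝ | 0 < t ∧ t ≤ R ∧ ∃ n, B n n = 1 ∧ ex t n ∈ Γ}.Finite := by
  obtain ⟨R₀, hR₀⟩ := h.coc
  refine ((h.fin I (2 * R₀ + 2 * R)).image fun g => Real.arcosh (tr g / 2)).subset ?_
  rintro t ⟨ht, htR, n, hn, hm⟩
  obtain ⟨z, hz⟩ := exists_on_wall hn
  obtain ⟨γ, hγ, hd⟩ := hR₀ z
  refine ⟨γ * ex t n * γ⁻¹, ⟨Γ.mul_mem (Γ.mul_mem hγ hm) (Γ.inv_mem hγ), ?_⟩, ?_⟩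
  · have h1 : dist (γ • z) ((γ * ex t n * γ⁻¹) • γ • z) = 2 * t := by
      rw [mul_smul, inv_smul_smul, mul_smul, dist_smul, dist_ex_of_wall hn t hz, abs_of_pos ht]
    have h2 : dist ((γ * ex t n * γ⁻¹) • γ • z) ((γ * ex t n * γ⁻¹) • I) ≤ R₀ := by
      rwa [dist_smul]
    have h3 := dist_triangle4 I (γ • z) ((γ * ex t n * γ⁻¹) • γ • z) ((γ * ex t n * γ⁻¹) • I)
    rw [dist_comm I (γ • z)] at h3
    linarith
  · show Real.arcosh (tr (γ * ex t n * γ⁻¹) / 2) = t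
    rw [tr_conj, tr_ex hn, mul_div_cancel_left₀ _ two_ne_zero, Real.arcosh_cosh ht.le]
lemma Nice.exists_ne (h : Nice Γ) : ∃ g ∈ Γ, ¬ PM 1 g := by
  by_contra hc
  obtain ⟨R, hR⟩ := h.coc
  obtain ⟨γ, hγ, hd⟩ := hR (ex (|R| + 1) w0 • I)
  have h1 : PM 1 γ := by
    by_contra h1
    exact hc ⟨γ, hγ, h1⟩
  rw [← h1.act, one_smul, dist_comm] at hd
  have h2 := le_dist_ex B_w0 (|R| + 1) I
  rw [abs_of_pos (by positivity)] at h2
  linarith [le_abs_self R, abs_nonneg R]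
lemma Nice.exists_sys (h : Nice Γ) : ∃ l, Sys Γ l := by
  obtain ⟨g, hg, h1⟩ := h.exists_ne
  obtain ⟨n, t, hn, ht, -, hm⟩ := h.exists_ex hg h1
  obtain ⟨l, ⟨hl, hlt, m, hm1, hm2⟩, hmin⟩ :=
    Set.exists_min_image _ id (h.fin_lengths t) ⟨t, ht, le_rfl, n, hn, hm⟩
  refine ⟨l, hl, fun γ hγ k1 k2 => ?_, m, hm1, hm2⟩
  obtain ⟨n', t', hn', ht', e, hm'⟩ :=
    h.exists_ex hγ fun e => ((pm_one_iff γ).1 e).elim k1 k2
  have hle : l ≤ t' := by
    rcases le_total t' t with k | k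
    · exact hmin t' ⟨ht', k, n', hn', hm'⟩
    · exact hlt.trans k
  rw [← e.abs_tr, tr_ex hn', abs_of_pos (by positivity)]
  have := Real.cosh_le_cosh.2 (show |l| ≤ |t'| by rwa [abs_of_pos hl, abs_of_pos ht'])
  linarith
lemma Nice.lf_SS (h : Nice Γ) {l : ℝ} (hl : 0 < l) : LF (SS Γ l) := by
  intro z R
  refine Set.Finite.of_injOn (f := fun n => ex l n) ?_ ?_
    (h.fin z (1 + 2 * Real.sinh l ^ 2 * (1 + R ^ 2)))
  · rintro n ⟨hn, hR⟩
    refine ⟨hn.2, ?_⟩
    have h1 := cosh_disp hn.1 l z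
    have h2 := Real.self_le_sinh_iff.2 (dist_nonneg (x := z) (y := ex l n • z))
    have h3 := Real.sinh_lt_cosh (dist z (ex l n • z))
    have h4 : B n (Hy z) ^ 2 ≤ R ^ 2 := sq_le_sq' (abs_le.1 hR).1 (abs_le.1 hR).2
    show dist z (ex l n • z) ≤ _
    nlinarith [sq_nonneg (Real.sinh l)]
  · rintro n ⟨hn, -⟩ m ⟨hm, -⟩ e
    exact ex_inj hn.1 hm.1 hl.ne' (Or.inl e.symm)
lemma SS.per {l : ℝ} (hl : 0 < l) {n : V} (hn : n ∈ SS Γ l) : Per Γ n := ⟨hn.1, l, hl, hn.2⟩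
lemma Sys.le_of_mem {l : ℝ} (s : Sys Γ l) {n : V} (hn : B n n = 1) {t : ℝ} (ht : t ≠ 0)
    (hm : ex t n ∈ Γ) : l ≤ |t| := by
  have h1 := s.le _ hm (ex_ne_one hn ht).1 (ex_ne_one hn ht).2
  rw [tr_ex hn, abs_of_pos (by positivity)] at h1
  have h2 := Real.cosh_le_cosh.1 (show Real.cosh l ≤ Real.cosh t by linarith)
  rwa [abs_of_pos s.pos] at h2
lemma Sys.prim (h : Nice Γ) {l : ℝ} (s : Sys Γ l) {n : V} (hn : n ∈ SS Γ l) : Prim Γ n l := by
  refine ⟨hn.1, s.pos, hn.2, fun g hg e => ?_⟩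
  obtain ⟨t, ht⟩ := stab_ex hn.1 e
  have hm : ex t n ∈ Γ := ht.symm.mem h.neg_one_mem hg
  refine ⟨⌊t / l⌋, ?_⟩
  have h1 : (⌊t / l⌋ : ℝ) * l ≤ t := (le_div_iff₀ s.pos).1 (Int.floor_le _)
  have h2 : t < ((⌊t / l⌋ : ℝ) + 1) * l := (div_lt_iff₀ s.pos).1 (Int.lt_floor_add_one _)
  have h3 : ex (t + -((⌊t / l⌋ : ℝ) * l)) n ∈ Γ := by
    rw [ex_add, ex_neg, ← ex_zpow]
    exact Γ.mul_mem hm (Γ.inv_mem (Γ.zpow_mem hn.2 _))
  have h4 : t + -((⌊t / l⌋ : ℝ) * l) = 0 := by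
    by_contra h4
    have h5 := s.le_of_mem hn.1 h4 h3
    rw [abs_of_nonneg (by linarith)] at h5
    linarith
  rwa [show (⌊t / l⌋ : ℝ) * l = t by linarith]
lemma Sys.le_dist (h : Nice Γ) {l : ℝ} (s : Sys Γ l) {g : SL(2, ℝ)} (hg : g ∈ Γ) (h1 : ¬ PM 1 g)
    (z : ℍ) : 2 * l ≤ dist z (g • z) := by
  obtain ⟨n, t, hn, ht, e, hm⟩ := h.exists_ex hg h1
  rw [← e.act]
  linarith [s.le_of_mem hn ht.ne' hm, le_dist_ex hn t z]
lemma Sys.uniq {l l' : ℝ} (s : Sys Γ l) (s' : Sys Γ l') : l = l' := by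
  obtain ⟨n, hn⟩ := s.ne
  obtain ⟨m, hm⟩ := s'.ne
  have h1 := s.le_of_mem hm.1 s'.pos.ne' hm.2
  have h2 := s'.le_of_mem hn.1 s.pos.ne' hn.2
  rw [abs_of_pos s'.pos] at h1
  rw [abs_of_pos s.pos] at h2
  exact le_antisymm h1 h2
/-- Generation from a connected invariant graph. -/
lemma closure_eq_of_conn {X : Type*} [MulAction SL(2, ℝ) X] {S : Set X} {R : X → X → Prop}
    (iS : ∀ g ∈ Γ, ∀ x ∈ S, g • x ∈ S) (iR : ∀ g ∈ Γ, ∀ x y, R x y → R (g • x) (g • y))
    (conn : ∀ U : Set X, (∀ x ∈ U, ∀ y ∈ S, R x y → y ∈ U) → (∃ x ∈ S, x ∈ U) → S ⊆ U)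
    {Y : Set X} (hY : Y ⊆ S) (nY : Y.Nonempty) {H : Subgroup SL(2, ℝ)} (hH : H ≤ Γ)
    (h1 : ∀ y ∈ Y, ∀ x ∈ S, R y x → ∃ g ∈ H, ∃ y' ∈ Y, x = g • y')
    (h2 : ∀ y ∈ Y, ∀ g ∈ Γ, g • y ∈ Y → g ∈ H) : H = Γ := by
  obtain ⟨y₀, hy₀⟩ := nY
  have hU : S ⊆ {x | ∃ g ∈ H, ∃ y ∈ Y, x = g • y} := by
    refine conn _ ?_ ⟨y₀, hY hy₀, 1, H.one_mem, y₀, hy₀, (one_smul _ _).symm⟩
    rintro x ⟨g, hg, y, hy, rfl⟩ x' hx' r
    have hg' := Γ.inv_mem (hH hg)
    have r' := iR _ hg' _ _ r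
    rw [inv_smul_smul] at r'
    obtain ⟨g', k1, y', k2, k3⟩ := h1 y hy _ (iS _ hg' _ hx') r'
    exact ⟨g * g', H.mul_mem hg k1, y', k2, by rw [mul_smul, ← k3, smul_inv_smul]⟩
  refine le_antisymm hH fun g hg => ?_
  obtain ⟨k, hk, y, hy, e⟩ := hU (iS g hg _ (hY hy₀))
  have h3 : k⁻¹ * g ∈ H := by
    refine h2 y₀ hy₀ _ (Γ.mul_mem (Γ.inv_mem (hH hk)) hg) ?_
    rwa [mul_smul, e, inv_smul_smul]
  simpa using H.mul_mem hk h3
/-- The first Betti number is at most the number of generators. -/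
lemma finrank_le_of_closure {F : Finset SL(2, ℝ)} (h : Subgroup.closure (F : Set SL(2, ℝ)) = Γ) :
    Module.Finite ℝ (Additive Γ →+ ℝ) ∧ Module.finrank ℝ (Additive Γ →+ ℝ) ≤ F.card := by
  subst h
  let e : (Additive (Subgroup.closure (F : Set SL(2, ℝ))) →+ ℝ) →ₗ[ℝ] (F → ℝ) :=
    { toFun := fun φ x => φ (Additive.ofMul ⟨x.1, Subgroup.subset_closure x.2⟩)
      map_add' := fun _ _ => rfl
      map_smul' := fun _ _ => rfl }
  have hi : Function.Injective e := by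
    rw [injective_iff_map_eq_zero]
    intro φ hφ
    have key : ∀ g (hg : g ∈ Subgroup.closure (F : Set SL(2, ℝ))),
        φ (Additive.ofMul ⟨g, hg⟩) = 0 := by
      intro g hg
      induction hg using Subgroup.closure_induction with
      | mem x hx => exact congrFun hφ ⟨x, hx⟩
      | one => exact φ.map_zero
      | mul x y hx hy k1 k2 =>
        have := φ.map_add (Additive.ofMul ⟨x, hx⟩) (Additive.ofMul ⟨y, hy⟩)
        rw [k1, k2, add_zero] at this
        exact this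
      | inv x hx k1 =>
        have := φ.map_neg (Additive.ofMul ⟨x, hx⟩)
        rw [k1, neg_zero] at this
        exact this
    exact AddMonoidHom.ext fun a => key (Additive.toMul a).1 (Additive.toMul a).2
  refine ⟨Module.Finite.of_injective e hi, ?_⟩
  have := LinearMap.finrank_le_finrank_of_injective hi
  rwa [Module.finrank_fintype_fun_eq_card, Fintype.card_coe] at this

end

end Pool.Agent.P.MP_d39174_gt

end

section
/-! From the statement to the working definitions and back. -/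

namespace Pool.Agent.P.MP_d39174_gt

open UpperHalfPlane MatrixGroups

noncomputable section

variable {Γ : Subgroup SL(2, ℝ)}

/-- The traceless part of a group element. -/
private def Bridge_x (g : SL(2, ℝ)) : V := ⟨(g 0 0 - g 1 1) / 2, g 0 1, g 1 0⟩

private lemma Bridge_xx (g : SL(2, ℝ)) : B (Bridge_x g) (Bridge_x g) = (tr g / 2) ^ 2 - 1 := by
  have hd := det_eq g
  simp only [B, Bridge_x, tr]
  linear_combination (-1 : ℝ) * hd

private lemma Bridge_fix (g : SL(2, ℝ)) : g • Bridge_x g = Bridge_x g := by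
  have hd := det_eq g
  ext
  · simp only [ad_a, Bridge_x]
    linear_combination ((g 0 0 - g 1 1) / 2) * hd
  · simp only [ad_b, Bridge_x]
    linear_combination (g 0 1) * hd
  · simp only [ad_c, Bridge_x]
    linear_combination (g 1 0) * hd

private lemma Bridge_disp (g : SL(2, ℝ)) (z : ℍ) :
    Real.cosh (dist z (g • z)) =
      1 + 2 * B (Bridge_x g) (Bridge_x g) + 2 * B (Bridge_x g) (Hy z) ^ 2 := by
  rw [cosh_dist_eq, Hy_smul]
  have hp := Hy_unit z
  have hd := det_eq g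
  generalize Hy z = p at hp
  simp only [B, Bridge_x, ad_a, ad_b, ad_c] at hp ⊢
  linear_combination
    (-(((g 0 0 + g 1 1) / 2) ^ 2 + (((g 0 0 - g 1 1) / 2) ^ 2 + g 0 1 * g 1 0))) * hp + hd

private lemma Bridge_null {x : V} (hx : B x x = 0) :
    ∃ k : ℝ, ∀ s : ℝ, 0 < s → ∃ z : ℍ, B x (Hy z) = k * s := by
  unfold B at hx
  by_cases hc : x.c = 0
  · have ha : x.a = 0 := by
      rw [hc] at hx
      have : x.a * x.a = 0 := by linarith
      exact mul_self_eq_zero.1 this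
    refine ⟨-x.b / 2, fun s hs => ⟨⟨⟨0, s⁻¹⟩, inv_pos.2 hs⟩, ?_⟩⟩
    simp only [B, Hy, ha, hc]
    change 0 * (-(0 : ℝ) / s⁻¹) + (x.b * (-1 / s⁻¹) + 0 * (((0 : ℝ) ^ 2 + s⁻¹ ^ 2) / s⁻¹)) / 2 = _
    field_simp
    ring
  · refine ⟨x.c / 2, fun s hs => ⟨⟨⟨x.a / x.c, s⟩, hs⟩, ?_⟩⟩
    simp only [B, Hy]
    change x.a * (-(x.a / x.c) / s) +
      (x.b * (-1 / s) + x.c * (((x.a / x.c) ^ 2 + s ^ 2) / s)) / 2 = _
    have hb : x.b = -(x.a ^ 2) / x.c := by
      field_simp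
      linarith
    rw [hb]
    field_simp
    ring

/-- An element that is not hyperbolic has arbitrarily small displacements. -/
private lemma Bridge_small {g : SL(2, ℝ)} (hg : |tr g| ≤ 2) {ε : ℝ} (hε : 0 < ε) :
    ∃ z : ℍ, dist z (g • z) < ε := by
  have hx := Bridge_xx g
  have h2 : (tr g / 2) ^ 2 ≤ 1 := by
    have := abs_le.1 hg
    nlinarith [this.1, this.2]
  rcases (show B (Bridge_x g) (Bridge_x g) ≤ 0 by linarith).lt_or_eq with hlt | heq
  · rcases Fut.or_neg hlt with hf | hf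
    · refine ⟨pt (Bridge_x g), ?_⟩
      rw [← pt_ad g hf, Bridge_fix, dist_self]
      exact hε
    · refine ⟨pt (-Bridge_x g), ?_⟩
      rw [← pt_ad g hf, smul_neg, Bridge_fix, dist_self]
      exact hε
  · obtain ⟨k, hk⟩ := Bridge_null heq
    have hc : 1 < Real.cosh ε := Real.one_lt_cosh.2 hε.ne'
    have ht : Filter.Tendsto (fun s : ℝ => 1 + 2 * (k * s) ^ 2) (nhdsWithin 0 (Set.Ioi 0))
        (nhds 1) := by
      have : Continuous (fun s : ℝ => 1 + 2 * (k * s) ^ 2) := by fun_prop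
      have h0 := this.tendsto 0
      simp only [mul_zero, ne_eq, OfNat.ofNat_ne_zero, not_false_eq_true, zero_pow,
        add_zero] at h0
      exact h0.mono_left nhdsWithin_le_nhds
    obtain ⟨s, hs1, hs2⟩ := ((ht.eventually (gt_mem_nhds hc)).and self_mem_nhdsWithin).exists
    obtain ⟨z, hz⟩ := hk s hs2
    refine ⟨z, ?_⟩
    have hd := Bridge_disp g z
    rw [heq, hz] at hd
    have h3 : Real.cosh (dist z (g • z)) < Real.cosh ε := by
      rw [hd]
      linarith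
    have h4 := Real.cosh_lt_cosh.1 h3
    rwa [abs_of_nonneg dist_nonneg, abs_of_pos hε] at h4

private lemma Bridge_fin {g : ℕ} (h : IsSurfaceGroup g Γ) (z : ℍ) (R : ℝ) :
    {γ : SL(2, ℝ) | γ ∈ Γ ∧ dist z (γ • z) ≤ R}.Finite := by
  have := h.discrete
  have hf := finite_disjoint_inter_image (Γ := Γ) (isCompact_singleton (x := z))
    (isCompact_closedBall z R)
  refine (hf.image Subtype.val).subset ?_
  rintro γ ⟨hγ, hd⟩
  refine ⟨⟨γ, hγ⟩, ⟨γ • z, ⟨z, rfl, rfl⟩, ?_⟩, rfl⟩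
  rw [Metric.mem_closedBall, dist_comm]
  exact hd

/-- Displacements of nontrivial elements are bounded below. -/
private lemma Bridge_lower {g : ℕ} (h : IsSurfaceGroup g Γ) :
    ∃ ε : ℝ, 0 < ε ∧ ∀ γ ∈ Γ, γ ≠ 1 → γ ≠ -1 → ∀ z : ℍ, ε ≤ dist z (γ • z) := by
  obtain ⟨K, hK, hcov⟩ := h.cocompact
  obtain ⟨R, hR⟩ := hK.isBounded.subset_closedBall I
  have hF : {γ : SL(2, ℝ) | (γ ∈ Γ ∧ dist I (γ • I) ≤ 2 * R + 1) ∧ γ ≠ 1 ∧ γ ≠ -1}.Finite :=
    (Bridge_fin h I (2 * R + 1)).subset fun γ hγ => hγ.1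
  have hev : ∀ᶠ ε in nhdsWithin (0 : ℝ) (Set.Ioi 0),
      ∀ γ ∈ {γ : SL(2, ℝ) | (γ ∈ Γ ∧ dist I (γ • I) ≤ 2 * R + 1) ∧ γ ≠ 1 ∧ γ ≠ -1},
        ∀ z ∈ K, ε ≤ dist z (γ • z) := by
    rw [Filter.eventually_all_finite hF]
    rintro γ ⟨⟨hγ, -⟩, h1, h2⟩
    have hc : Continuous fun z : ℍ => dist z (γ • z) := by fun_prop
    obtain ⟨a, ha, hb⟩ := hK.exists_forall_le' hc.continuousOn (a := 0) fun z _ => by
      rw [dist_pos]
      intro e
      rcases h.free γ hγ z e.symm with e' | e'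
      · exact h1 e'
      · exact h2 e'
    filter_upwards [nhdsWithin_le_nhds (gt_mem_nhds ha)] with ε hε z hz
    exact le_trans (le_of_lt hε) (hb z hz)
  obtain ⟨ε, ⟨hε1, hε2⟩, hε3⟩ := ((hev.and self_mem_nhdsWithin).and
    (nhdsWithin_le_nhds (gt_mem_nhds (zero_lt_one' ℝ)))).exists
  refine ⟨ε, hε2, fun γ hγ h1 h2 z => ?_⟩
  obtain ⟨k, hk, hkz⟩ := hcov z
  have e : dist z (γ • z) = dist (k • z) ((k * γ * k⁻¹) • k • z) := by
    rw [← mul_smul, inv_mul_cancel_right, mul_smul, dist_smul]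
  rw [e]
  by_contra hlt
  rw [not_le] at hlt
  refine absurd (hε1 (k * γ * k⁻¹) ⟨⟨Γ.mul_mem (Γ.mul_mem hk hγ) (Γ.inv_mem hk), ?_⟩, ?_, ?_⟩
    (k • z) hkz) (not_le.2 hlt)
  · have h3 : dist (k • z) I ≤ R := hR hkz
    have h4 : dist ((k * γ * k⁻¹) • k • z) ((k * γ * k⁻¹) • I) = dist (k • z) I := dist_smul _ _ _
    have h5 := dist_triangle4 I (k • z) ((k * γ * k⁻¹) • k • z) ((k * γ * k⁻¹) • I)
    rw [dist_comm I (k • z)] at h5
    have h6 : ε < 1 := hε3
    linarith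
  · intro e'
    apply h1
    calc γ = k⁻¹ * (k * γ * k⁻¹) * k := by group
      _ = 1 := by rw [e']; group
  · intro e'
    apply h2
    calc γ = k⁻¹ * (k * γ * k⁻¹) * k := by group
      _ = -1 := by rw [e']; simp

private lemma Bridge_not_pm {γ : SL(2, ℝ)} (h1 : γ ≠ 1) (h2 : γ ≠ -1) : ¬ PM 1 γ := fun e => by
  rcases (pm_one_iff γ).1 e with e | e
  · exact h1 e
  · exact h2 e

private lemma Bridge_mat_inj {x y : V} (h : x.mat = y.mat) : x = y := by
  rw [← ofMat_mat x, h, ofMat_mat]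

private lemma Bridge_same_of_pm {γ δ : SL(2, ℝ)} (e : PM γ δ) : SameGeodesic Γ γ δ := by
  refine ⟨1, Γ.one_mem, ?_⟩
  rcases e with e | e
  · exact Or.inl (by simpa using e)
  · exact Or.inr (Or.inl (by simpa using e))

lemma IsSurfaceGroup.nice {g : ℕ} (h : IsSurfaceGroup g Γ) : Nice Γ := by
  refine ⟨h.neg_one_mem, Bridge_fin h, ?_, fun γ hγ h1 h2 => ?_⟩
  · obtain ⟨K, hK, hcov⟩ := h.cocompact
    obtain ⟨R, hR⟩ := hK.isBounded.subset_closedBall I
    refine ⟨R, fun z => ?_⟩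
    obtain ⟨γ, hγ, hz⟩ := hcov z
    exact ⟨γ, hγ, hR hz⟩
  · by_contra hle
    obtain ⟨ε, hε, hlow⟩ := Bridge_lower h
    obtain ⟨z, hz⟩ := Bridge_small (not_lt.1 hle) hε
    exact absurd (hlow γ hγ h1 h2 z) (not_le.2 hz)

lemma Nice.isSurfaceGroup (h : Nice Γ) {g : ℕ}
    (hg : Module.finrank ℝ (Additive Γ →+ ℝ) = 2 * g) : IsSurfaceGroup g Γ := by
  refine ⟨h.neg_one_mem, ?_, fun γ hγ z e => ?_, ?_, hg⟩
  · apply discreteTopology_of_isOpen_singleton_one
    have hc : Continuous fun γ : Γ => dist I ((γ : SL(2, ℝ)) • I) := by fun_prop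
    refine isOpen_singleton_of_finite_mem_nhds (1 : Γ)
      (s := {γ : Γ | dist I ((γ : SL(2, ℝ)) • I) < 1}) ?_ ?_
    · refine (isOpen_lt hc continuous_const).mem_nhds ?_
      simp
    · refine ((h.fin I 1).preimage Subtype.val_injective.injOn).subset ?_
      intro γ hγ
      exact ⟨γ.2, le_of_lt hγ⟩
  · refine (pm_one_iff γ).1 (h.pm_of_fix hγ (p := Hy z) ?_ ?_)
    · rw [Hy_unit]
      norm_num
    · rw [← Hy_smul, e]
  · obtain ⟨R, hR⟩ := h.coc
    exact ⟨Metric.closedBall I R, isCompact_closedBall I R, hR⟩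

lemma Sys.sys_eq (h : Nice Γ) {l : ℝ} (s : Sys Γ l) : sys Γ = 2 * l := by
  apply IsLeast.csInf_eq
  constructor
  · obtain ⟨n, hn, hm⟩ := s.ne
    obtain ⟨h1, h2⟩ := ex_ne_one hn s.pos.ne'
    exact ⟨ex l n, ⟨hm, h1, h2⟩, by rw [len_ex hn, abs_of_pos s.pos]⟩
  · rintro _ ⟨γ, ⟨hγ, h1, h2⟩, rfl⟩
    obtain ⟨n, t, hn, ht, e, hm⟩ := h.exists_ex hγ (Bridge_not_pm h1 h2)
    have := s.le_of_mem hn ht.ne' hm
    rw [← len_pm e, len_ex hn]
    linarith

lemma Sys.isSystolic_iff (h : Nice Γ) {l : ℝ} (s : Sys Γ l) (γ : SL(2, ℝ)) :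
    IsSystolic Γ γ ↔ ∃ n ∈ SS Γ l, PM (ex l n) γ := by
  constructor
  · rintro ⟨hγ, h1, h2, hl⟩
    obtain ⟨n, t, hn, ht, e, hm⟩ := h.exists_ex hγ (Bridge_not_pm h1 h2)
    rw [← len_pm e, len_ex hn, s.sys_eq h, abs_of_pos ht] at hl
    obtain rfl : t = l := by linarith
    exact ⟨n, ⟨hn, hm⟩, e⟩
  · rintro ⟨n, ⟨hn, hm⟩, e⟩
    have hne := ex_ne_one hn s.pos.ne'
    have h0 : ¬ PM 1 γ := fun e' => Bridge_not_pm hne.1 hne.2 (e'.trans e.symm)
    refine ⟨e.mem h.neg_one_mem hm, fun e' => h0 ((pm_one_iff γ).2 (Or.inl e')),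
      fun e' => h0 ((pm_one_iff γ).2 (Or.inr e')), ?_⟩
    rw [← len_pm e, len_ex hn, s.sys_eq h, abs_of_pos s.pos]

lemma sameGeodesic_iff (h : Nice Γ) {l : ℝ} (hl : 0 < l) {m n : V} (hm : B m m = 1)
    (hn : B n n = 1) {γ δ : SL(2, ℝ)} (e : PM (ex l m) γ) (e' : PM (ex l n) δ) :
    SameGeodesic Γ γ δ ↔ Eqw Γ m n := by
  have k1 : ∀ g : SL(2, ℝ), PM (ex l (g • m)) (g * γ * g⁻¹) := fun g => by
    rw [← ex_conj]
    exact ((PM.refl g).mul e).mul (PM.refl _)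
  have k2 : ∀ g : SL(2, ℝ), PM (ex l (-(g • m))) (g * γ⁻¹ * g⁻¹) := fun g => by
    rw [← smul_neg, ← ex_conj, ex_neg_right, ex_neg]
    exact ((PM.refl g).mul e.inv).mul (PM.refl _)
  have u1 : ∀ g : SL(2, ℝ), B (g • m) (g • m) = 1 := fun g => by rw [B_ad, hm]
  have u2 : ∀ g : SL(2, ℝ), B (-(g • m)) (-(g • m)) = 1 := fun g => by
    rw [B_neg_left, B_neg_right, neg_neg, u1]
  constructor
  · rintro ⟨g, hg, hd⟩
    refine ⟨g, hg, ?_⟩
    have hd' : PM (g * γ * g⁻¹) δ ∨ PM (g * γ⁻¹ * g⁻¹) δ := by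
      rcases hd with hd | hd | hd | hd
      · exact Or.inl (Or.inl hd)
      · exact Or.inl (Or.inr hd)
      · exact Or.inr (Or.inl hd)
      · exact Or.inr (Or.inr hd)
    rcases hd' with hd' | hd'
    · exact Or.inl (ex_inj (u1 g) hn hl.ne' (((k1 g).trans hd').trans e'.symm)).symm
    · exact Or.inr (ex_inj (u2 g) hn hl.ne' (((k2 g).trans hd').trans e'.symm)).symm
  · rintro ⟨g, hg, hd⟩
    refine ⟨g, hg, ?_⟩
    rcases hd with rfl | rfl
    · rcases (k1 g).symm.trans e' with hd | hd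
      · exact Or.inl hd
      · exact Or.inr (Or.inl hd)
    · rcases (k2 g).symm.trans e' with hd | hd
      · exact Or.inr (Or.inr (Or.inl hd))
      · exact Or.inr (Or.inr (Or.inr hd))

lemma dlen_eq {l : ℝ} (hl : 0 < l) {n : V} (hn : B n n = 1) {γ : SL(2, ℝ)} (e : PM (ex l n) γ)
    (x : V) : dlen γ x.mat = 2 * B x n := by
  have ht : ∀ t : ℝ, ((1 + t • x.mat) * (ex l n).1).trace =
      2 * (Real.cosh l + t * (Real.sinh l * B x n)) := fun t => by
    rw [add_mul, one_mul, smul_mul_assoc, Matrix.trace_add, Matrix.trace_smul, ← tr_eq, tr_ex hn,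
      trace_mat_mul_ex hn, smul_eq_mul]
    ring
  have habs : ∀ t : ℝ, |((1 + t • x.mat) * γ.1).trace| / 2 =
      |Real.cosh l + t * (Real.sinh l * B x n)| := fun t => by
    rcases e with rfl | rfl
    · rw [ht, abs_mul, abs_two]
      ring
    · rw [Matrix.SpecialLinearGroup.coe_neg, mul_neg, Matrix.trace_neg, abs_neg, ht, abs_mul,
        abs_two]
      ring
  have hc : 1 < Real.cosh l := Real.one_lt_cosh.2 hl.ne'
  have hs : 0 < Real.sinh l := Real.sinh_pos_iff.2 hl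
  have d1 : HasDerivAt (fun t : ℝ => Real.cosh l + t * (Real.sinh l * B x n))
      (Real.sinh l * B x n) 0 := by
    simpa using ((hasDerivAt_id (0 : ℝ)).mul_const (Real.sinh l * B x n)).const_add (Real.cosh l)
  have d2 : HasDerivAt Real.arcosh (Real.sinh l)⁻¹
      (Real.cosh l + 0 * (Real.sinh l * B x n)) := by
    rw [zero_mul, add_zero]
    have := Real.hasDerivAt_arcosh (x := Real.cosh l) hc
    rwa [show Real.cosh l ^ 2 - 1 = Real.sinh l ^ 2 by rw [Real.cosh_sq]; ring,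
      Real.sqrt_sq hs.le] at this
  have d3 := (d2.comp (0 : ℝ) d1).const_mul 2
  have hev : (fun t : ℝ => 2 * Real.arcosh (|((1 + t • x.mat) * γ.1).trace| / 2)) =ᶠ[nhds 0]
      fun t : ℝ => 2 * (Real.arcosh ∘ fun t : ℝ =>
        Real.cosh l + t * (Real.sinh l * B x n)) t := by
    have h0 : ∀ᶠ t in nhds (0 : ℝ), 0 < Real.cosh l + t * (Real.sinh l * B x n) :=
      d1.continuousAt.eventually (lt_mem_nhds (by simpa using Real.cosh_pos l))
    filter_upwards [h0] with t h1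
    rw [habs, abs_of_pos h1]
    rfl
  unfold dlen
  rw [hev.deriv_eq, d3.deriv]
  field_simp

lemma isCritical_iff (h : Nice Γ) {l : ℝ} (s : Sys Γ l) : IsCritical Γ ↔ CritV Γ l := by
  classical
  constructor
  · rintro ⟨T, hT, hU, c, hc, hs⟩
    have hν : ∀ γ ∈ T, ∃ n ∈ SS Γ l, PM (ex l n) γ := fun γ hγ =>
      (s.isSystolic_iff h γ).1 (hT γ hγ)
    choose! ν hν1 hν2 using hν
    have hinj : Set.InjOn ν (T : Set SL(2, ℝ)) := fun γ hγ δ hδ e => by
      have e1 : PM γ δ := (hν2 γ hγ).symm.trans (e ▸ hν2 δ hδ)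
      exact (hU δ (hT δ hδ)).unique ⟨hγ, Bridge_same_of_pm e1⟩
        ⟨hδ, Bridge_same_of_pm (PM.refl δ)⟩
    refine ⟨T.image ν, ?_, fun n hn => ?_, fun n => c (Function.invFunOn ν T n), ?_,
      fun u hu => ?_⟩
    · intro n hn
      obtain ⟨γ, hγ, rfl⟩ := Finset.mem_image.1 hn
      exact hν1 γ hγ
    · obtain ⟨γ, ⟨hγ, hsame⟩, huniq⟩ :=
        hU (ex l n) ((s.isSystolic_iff h _).2 ⟨n, hn, PM.refl _⟩)
      refine ⟨ν γ, ⟨Finset.mem_image_of_mem ν hγ,
        (sameGeodesic_iff h s.pos (hν1 γ hγ).1 hn.1 (hν2 γ hγ) (PM.refl _)).1 hsame⟩, ?_⟩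
      rintro m ⟨hm, hmn⟩
      obtain ⟨δ, hδ, rfl⟩ := Finset.mem_image.1 hm
      rw [huniq δ ⟨hδ,
        (sameGeodesic_iff h s.pos (hν1 δ hδ).1 hn.1 (hν2 δ hδ) (PM.refl _)).2 hmn⟩]
    · intro n hn
      obtain ⟨γ, hγ, rfl⟩ := Finset.mem_image.1 hn
      show 0 < c (Function.invFunOn ν T (ν γ))
      rw [hinj.leftInvOn_invFunOn hγ]
      exact hc γ hγ
    · have h1 := hs (fun γ => (u γ).mat) ⟨fun γ _ => mat_trace _, fun γ hγ δ hδ => by
        show (u (γ * δ)).mat = (u γ).mat + γ.1 * (u δ).mat * (γ⁻¹).1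
        rw [hu γ hγ δ hδ, mat_add, mat_ad]⟩
      rw [Finset.sum_image hinj]
      have h2 : ∑ γ ∈ T, c γ * dlen γ (u γ).mat =
          2 * ∑ γ ∈ T, c (Function.invFunOn ν T (ν γ)) * B (u (ex l (ν γ))) (ν γ) := by
        rw [Finset.mul_sum]
        refine Finset.sum_congr rfl fun γ hγ => ?_
        rw [hinj.leftInvOn_invFunOn hγ, dlen_eq s.pos (hν1 γ hγ).1 (hν2 γ hγ),
          hu.pm h.neg_one_mem (hν1 γ hγ).2 (hν2 γ hγ)]
        ring
      linarith
  · rintro ⟨T, hT, hU, c, hc, hs⟩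
    have hinj : Set.InjOn (ex l) (T : Set V) := fun m hm n hn e =>
      ex_inj (hT m hm).1 (hT n hn).1 s.pos.ne' (Or.inl e.symm)
    refine ⟨T.image (ex l), ?_, fun δ hδ => ?_, fun γ => c (Function.invFunOn (ex l) T γ), ?_,
      fun u hu => ?_⟩
    · intro γ hγ
      obtain ⟨n, hn, rfl⟩ := Finset.mem_image.1 hγ
      exact (s.isSystolic_iff h _).2 ⟨n, hT n hn, PM.refl _⟩
    · obtain ⟨n, hn, e⟩ := (s.isSystolic_iff h δ).1 hδ
      obtain ⟨m, ⟨hm, hmn⟩, huniq⟩ := hU n hn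
      refine ⟨ex l m, ⟨Finset.mem_image_of_mem _ hm,
        (sameGeodesic_iff h s.pos (hT m hm).1 hn.1 (PM.refl _) e).2 hmn⟩, ?_⟩
      rintro γ ⟨hγ, hsame⟩
      obtain ⟨k, hk, rfl⟩ := Finset.mem_image.1 hγ
      rw [huniq k ⟨hk, (sameGeodesic_iff h s.pos (hT k hk).1 hn.1 (PM.refl _) e).1 hsame⟩]
    · intro γ hγ
      obtain ⟨n, hn, rfl⟩ := Finset.mem_image.1 hγ
      show 0 < c (Function.invFunOn (ex l) T (ex l n))
      rw [hinj.leftInvOn_invFunOn hn]
      exact hc n hn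
    · have h1 := hs (fun γ => V.ofMat (u γ)) fun γ hγ δ hδ => by
        apply Bridge_mat_inj
        rw [mat_add, mat_ad, mat_ofMat (hu.1 _ (Γ.mul_mem hγ hδ)), mat_ofMat (hu.1 _ hγ),
          mat_ofMat (hu.1 _ hδ)]
        exact hu.2 γ hγ δ hδ
      rw [Finset.sum_image hinj]
      have h2 : ∑ n ∈ T, c (Function.invFunOn (ex l) T (ex l n)) * dlen (ex l n) (u (ex l n)) =
          2 * ∑ n ∈ T, c n * B (V.ofMat (u (ex l n))) n := by
        rw [Finset.mul_sum]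
        refine Finset.sum_congr rfl fun n hn => ?_
        rw [hinj.leftInvOn_invFunOn hn, ← mat_ofMat (hu.1 _ (hT n hn).2),
          dlen_eq s.pos (hT n hn).1 (PM.refl _), ofMat_mat]
        ring
      linarith

lemma cls_eq_of_conj {Γ Δ : Subgroup SL(2, ℝ)} {M : SL(2, ℝ)}
    (h : ∀ γ, γ ∈ Δ ↔ M⁻¹ * γ * M ∈ Γ) : cls Δ = cls Γ := by
  ext Θ
  constructor
  · rintro ⟨N, hN⟩
    refine ⟨N * M, fun γ => ?_⟩
    rw [hN, h, show M⁻¹ * (N⁻¹ * γ * N) * M = (N * M)⁻¹ * γ * (N * M) by group]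
  · rintro ⟨N, hN⟩
    refine ⟨N * M⁻¹, fun γ => ?_⟩
    rw [hN, h, show M⁻¹ * ((N * M⁻¹)⁻¹ * γ * (N * M⁻¹)) * M = N⁻¹ * γ * N by group]

lemma conj_of_cls_eq {Γ Δ : Subgroup SL(2, ℝ)} (h : cls Δ = cls Γ) :
    ∃ M : SL(2, ℝ), ∀ γ, γ ∈ Δ ↔ M⁻¹ * γ * M ∈ Γ := by
  have h1 : Δ ∈ cls Δ := ⟨1, fun γ => by simp⟩
  rw [h] at h1
  exact h1

end

end Pool.Agent.P.MP_d39174_gt

end

section
/-! Geometry of systoles. -/

namespace Pool.Agent.P.MP_d39174_gt

open UpperHalfPlane MatrixGroups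

noncomputable section

variable {Γ : Subgroup SL(2, ℝ)} {l : ℝ}

lemma sysG_ad {a : V} (ha : a ∈ SS Γ l) {g : SL(2, ℝ)} (hg : g ∈ Γ) : g • a ∈ SS Γ l :=
  ⟨(B_ad g a a).trans ha.1, ex_conj g l a ▸ Γ.mul_mem (Γ.mul_mem hg ha.2) (Γ.inv_mem hg)⟩

lemma sysG_mem {a : V} (ha : a ∈ SS Γ l) (m : ℤ) : ex (m * l) a ∈ Γ :=
  ex_zpow l a m ▸ Γ.zpow_mem ha.2 m

lemma sysG_B (t : ℝ) (a x : V) : B a (ex t a • x) = B a x := by
  rw [B_comm, B_ex_ad, B_comm]

lemma sysG_fix (h : Nice Γ) (s : Sys Γ l) {a : V} (ha : a ∈ SS Γ l) {g : SL(2, ℝ)} (hg : g ∈ Γ)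
    (m : ℤ) {z : ℍ} (hz : dist z (ex (m * l) a • g⁻¹ • z) < 2 * l) : g • a = a := by
  have h1 : PM 1 (ex (m * l) a * g⁻¹) := by
    by_contra h1
    have := s.le_dist h (Γ.mul_mem (sysG_mem ha m) (Γ.inv_mem hg)) h1 z
    rw [mul_smul] at this
    linarith
  have h2 := h1.ad (g • a)
  rwa [one_smul, mul_smul, inv_smul_smul, ex_ad_self] at h2

lemma sysG_inv (m : ℤ) (a : V) {x y : V} (e : ex (m * l) a • x = y) :
    x = ex (((-m : ℤ) : ℝ) * l) a • y := by
  rw [Int.cast_neg, neg_mul, ex_neg, ← e, inv_smul_smul]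

/-- Collar inequality. -/
lemma collar (h : Nice Γ) (hl : 0 < l) {a w : V} (ha : a ∈ SS Γ l) (hw : w ∈ SS Γ l)
    (hc : |B a w| < 1) : 1 ≤ Real.sinh l ^ 4 * (1 - B a w ^ 2) := by
  have h1 := tr_comm ha.1 hw.1 l
  have h2 : 0 < Real.sinh l ^ 4 * (1 - B a w ^ 2) :=
    mul_pos (pow_pos (Real.sinh_pos_iff.2 hl) 4) (sub_pos.2 ((sq_lt_one_iff_abs_lt_one _).2 hc))
  have h3 : tr 1 = 2 := by
    simp [tr]
    norm_num
  by_cases e1 : ex l a * ex l w * (ex l a)⁻¹ * (ex l w)⁻¹ = 1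
  · rw [e1] at h1
    linarith
  by_cases e2 : ex l a * ex l w * (ex l a)⁻¹ * (ex l w)⁻¹ = -1
  · rw [e2, tr_neg] at h1
    linarith
  have h4 := h.hyp _ (Γ.mul_mem (Γ.mul_mem (Γ.mul_mem ha.2 hw.2) (Γ.inv_mem ha.2))
    (Γ.inv_mem hw.2)) e1 e2
  rcases lt_abs.1 h4 with h5 | h5 <;> linarith
lemma half_le_of_cross (h : Nice Γ) (hl : 0 < l) {a w : V} (ha : a ∈ SS Γ l) (hw : w ∈ SS Γ l)
    (hc : |B a w| < 1) : 1 / 2 ≤ l := by
  have h1 := collar h hl ha hw hc
  by_contra h2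
  have h3 := Real.add_one_le_exp (-l)
  have h4 : Real.exp l * Real.exp (-l) = 1 := by rw [← Real.exp_add, add_neg_cancel, Real.exp_zero]
  have h5 : Real.sinh l < 1 := by
    rw [Real.sinh_eq]
    nlinarith [Real.exp_pos l]
  have h6 := Real.sinh_pos_iff.2 hl
  have h7 : Real.sinh l ^ 4 < 1 := pow_lt_one₀ h6.le h5 (by norm_num)
  nlinarith [mul_nonneg (pow_pos h6 4).le (sq_nonneg (B a w))]
lemma angle_bound (C : ℝ) : ∃ β : ℝ, β < 1 ∧ ∀ (Γ : Subgroup SL(2, ℝ)) (l : ℝ), Nice Γ → 0 < l →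
    l ≤ C → ∀ a ∈ SS Γ l, ∀ w ∈ SS Γ l, |B a w| < 1 → |B a w| ≤ β := by
  have h0 : 0 < Real.sinh C ^ 4 + 1 := by positivity
  refine ⟨1 - 1 / (2 * (Real.sinh C ^ 4 + 1)), sub_lt_self _ (by positivity),
    fun Γ l h hl hC a ha w hw hc => ?_⟩
  have h1 := collar h hl ha hw hc
  have h2 : Real.sinh l ^ 4 ≤ Real.sinh C ^ 4 :=
    pow_le_pow_left₀ (Real.sinh_pos_iff.2 hl).le (Real.sinh_le_sinh.2 hC) 4
  have h3 : 1 - B a w ^ 2 ≤ 2 * (1 - |B a w|) := by nlinarith [sq_abs (B a w), sq_nonneg (1 - |B a w|)]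
  have h4 := mul_le_mul (h2.trans (le_add_of_nonneg_right zero_le_one)) h3
    (sub_pos.2 ((sq_lt_one_iff_abs_lt_one _).2 hc)).le h0.le
  rw [le_sub_comm, div_le_iff₀ (by positivity)]
  linarith
/-- Systoles are simple. -/
lemma simple (h : Nice Γ) (s : Sys Γ l) {a : V} (ha : a ∈ SS Γ l) {g : SL(2, ℝ)} (hg : g ∈ Γ)
    (h1 : g • a ≠ a) : 1 < |B a (g • a)| := by
  have hb := sysG_ad ha hg
  refine lt_of_le_of_ne (not_lt.1 fun hc => h1 ?_)
    (h.abs_B_ne_one (SS.per s.pos ha) (SS.per s.pos hb) h1 (h.noflip hg ha.1)).symm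
  obtain ⟨z, z1, z2⟩ := exists_cross ha.1 hb.1 hc
  obtain ⟨m, hm⟩ := near_translate ha.1 s.pos z1 (w := g⁻¹ • z) (by rwa [Hy_smul, ← B_ad_left])
  exact sysG_fix h s ha hg m (hm.trans_lt (by linarith [s.pos]))
/-- Two systoles cross at most once. -/
lemma once (h : Nice Γ) (s : Sys Γ l) {a w : V} (ha : a ∈ SS Γ l) (hw : w ∈ SS Γ l)
    {g : SL(2, ℝ)} (hg : g ∈ Γ) (h1 : |B w a| < 1) (h2 : |B w (g • a)| < 1) :
    ∃ m : ℤ, g • a = ex (m * l) w • a := by
  obtain ⟨p, p1, p2⟩ := exists_cross hw.1 ha.1 h1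
  obtain ⟨q, q1, q2⟩ := exists_cross hw.1 (sysG_ad ha hg).1 h2
  obtain ⟨m, hm⟩ := near_translate hw.1 s.pos p1 q1
  have q3 : B a (Hy (g⁻¹ • q)) = 0 := by rwa [Hy_smul, ← B_ad_left]
  obtain ⟨k, hk⟩ := near_translate ha.1 s.pos p2 q3
  refine ⟨-m, sysG_inv m w ?_⟩
  rw [← mul_smul]
  refine sysG_fix h s ha (Γ.mul_mem (sysG_mem hw m) hg) k (z := ex (m * l) w • q) ?_
  rw [mul_inv_rev, mul_smul, inv_smul_smul]
  have := s.pos
  by_cases e1 : ex (m * l) w • q = p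
  · rw [e1]
    linarith
  by_cases e2 : ex (k * l) a • g⁻¹ • q = p
  · rw [e2, dist_comm]
    linarith
  have h3 := dist_lt_of_cross hw.1 ha.1 h1 p1 p2 (by rwa [Hy_smul, sysG_B])
    (by rwa [Hy_smul, sysG_B]) e1 e2
  rw [dist_comm _ p] at h3
  linarith
/-- Uniform bound for the number of systolic walls near a point. -/
lemma packS (C R : ℝ) : ∃ M : ℕ, ∀ (Γ : Subgroup SL(2, ℝ)) (l : ℝ), Nice Γ → Sys Γ l →
    1 / 2 ≤ l → l ≤ C → ∀ z : ℍ, {n | n ∈ SS Γ l ∧ |B n (Hy z)| ≤ R}.ncard ≤ M := by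
  obtain ⟨M, hM⟩ := pack (1 + 2 * Real.sinh C ^ 2 * (1 + R ^ 2)) 1 one_pos
  refine ⟨M, fun Γ l h s hl hC z => ?_⟩
  have key : ∀ n ∈ SS Γ l, ∀ n' ∈ SS Γ l, n ≠ n' → 1 ≤ dist (ex l n • z) (ex l n' • z) :=
    fun n hn n' hn' e => by
      have h1 := s.le_dist h (Γ.mul_mem (Γ.inv_mem hn.2) hn'.2)
        (fun h1 => e (ex_inj hn.1 hn'.1 s.pos.ne' ((pm_iff_inv_mul _ _).2 h1))) z
      rw [← dist_smul (ex l n), mul_smul, smul_inv_smul] at h1
      linarith
  rw [← Set.InjOn.ncard_image (f := fun n => ex l n • z) fun n hn n' hn' e => by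
    by_contra h1
    have h2 := key n hn.1 n' hn'.1 h1
    rw [show ex l n • z = ex l n' • z from e, dist_self] at h2
    linarith]
  refine (hM z _ ?_ ?_).2
  · rintro _ ⟨n, hn, rfl⟩
    refine ((Real.self_le_sinh_iff.2 dist_nonneg).trans (Real.sinh_lt_cosh _).le).trans ?_
    have h1 := (Real.sinh_pos_iff.2 s.pos).le
    have h2 := Real.sinh_le_sinh.2 hC
    have h3 : B n (Hy z) ^ 2 ≤ R ^ 2 := sq_le_sq' (abs_le.1 hn.2).1 (abs_le.1 hn.2).2
    rw [cosh_disp hn.1.1]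
    gcongr
  · rintro _ ⟨n, hn, rfl⟩ _ ⟨n', hn', rfl⟩ e
    exact key n hn.1 n' hn'.1 fun h1 => e (by rw [h1])
/-- Uniform bound for the number of systolic walls crossing a given one, modulo its period. -/
lemma exists_nb (C : ℝ) : ∃ M : ℕ, ∀ (Γ : Subgroup SL(2, ℝ)) (l : ℝ), Nice Γ → Sys Γ l →
    1 / 2 ≤ l → l ≤ C → ∀ a ∈ SS Γ l, ∃ F : Finset V, F.card ≤ M ∧
      (∀ w ∈ F, w ∈ SS Γ l ∧ |B a w| < 1) ∧
      ∀ w ∈ SS Γ l, |B a w| < 1 → ∃ m : ℤ, ∃ v ∈ F, w = ex (m * l) a • v := by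
  obtain ⟨M, hM⟩ := packS C (Real.sinh C)
  refine ⟨M, fun Γ l h s hl hC a ha => ?_⟩
  obtain ⟨z, hz⟩ := exists_on_wall ha.1
  have h1 := h.lf_SS s.pos z (Real.sinh C)
  have h2 : {n | (n ∈ SS Γ l ∧ |B a n| < 1) ∧ |B n (Hy z)| ≤ Real.sinh C} ⊆
      {n | n ∈ SS Γ l ∧ |B n (Hy z)| ≤ Real.sinh C} := fun n hn => ⟨hn.1.1, hn.2⟩
  refine ⟨(h1.subset h2).toFinset, ?_, fun w hw => ((Set.Finite.mem_toFinset _).1 hw).1,
    fun w hw hc => ?_⟩
  · rw [← Set.ncard_eq_toFinset_card _ (h1.subset h2)]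
    exact (Set.ncard_le_ncard h2 h1).trans (hM Γ l h s hl hC z)
  obtain ⟨p, p1, p2⟩ := exists_cross ha.1 hw.1 hc
  obtain ⟨m, hm⟩ := near_translate ha.1 s.pos hz p1
  have h3 := sysG_ad hw (sysG_mem ha m)
  exact ⟨-m, ex (m * l) a • w, (Set.Finite.mem_toFinset _).2 ⟨⟨h3, by rwa [sysG_B]⟩,
    abs_B_le_sinh h3.1 (by rwa [Hy_smul, B_ad]) (hm.trans hC)⟩, sysG_inv m a rfl⟩

end

end Pool.Agent.P.MP_d39174_gt

end

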