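import Pool.Agent.P.MP_d39174_gt.All.M1

section
/-! The finite combinatorial type of a critical point and its realisations. -/

namespace Pool.Agent.P.MP_d39174_gt

open UpperHalfPlane MatrixGroups

noncomputable section

open Finset

abbrev M2 := Matrix (Fin 2) (Fin 2) ℝ

def mA (x : ℝ) : M2 := !![x, 1 / x; 0, 1 / x]
def mB (x : ℝ) : M2 := !![x, 0; x, 1 / x]
def mJ (s s' y x : ℝ) : M2 := !![1, s; 0, 1] * !![x / y, 0; y * s' * x, y / x]

def Nm : SL(2, ℝ) := ⟨!![0, -1; 1, -1], by simp [Matrix.det_fin_two_of]⟩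
def Um (s : ℝ) : SL(2, ℝ) := ⟨!![1, s; 0, 1], by simp [Matrix.det_fin_two_of]⟩
open Classical in
def Sm (x : ℝ) : SL(2, ℝ) :=
  if h : x ≠ 0 then ⟨!![0, -1 / x; x, 0], by
    rw [Matrix.det_fin_two_of]; field_simp; ring⟩ else 1

/-- Product of the shears along `i` steps of a fan. -/
def Pr {D : Type} (φ : Equiv.Perm D) (x : D → ℝ) (d : D) (i : ℕ) : ℝ :=
  ∏ m ∈ range i, x ((φ ^ (m + 1)) d)

/-- Position of the far end of the wall, for a fan of period `f`. -/
def sig {D : Type} (φ : Equiv.Perm D) (x : D → ℝ) (d : D) (f : ℕ) : ℝ :=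
  (∑ i ∈ range f, Pr φ x d i ^ 2) / (1 - Pr φ x d f ^ 2)

/-- The exponential path with slope `ξ`. -/
def pth {D : Type} (x ξ : D → ℝ) (t : ℝ) : D → ℝ := fun d => x d * Real.exp (t * ξ d)

/-- Ordered product of the first `m` matrices. -/
def mprod (A : ℕ → M2) : ℕ → M2
  | 0 => 1
  | m + 1 => mprod A m * A m

/-- Darts `D` with a trivalent ribbon structure and a pairing `κ` of base darts, and strands `S`
that record how the systoles pass through the triangulation. -/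
@[ext] structure Mdl (D S : Type) where
  ι : Equiv.Perm D
  ν : Equiv.Perm D
  κ : Equiv.Perm D
  on : S → Bool
  bs : S → D
  kd : S → Fin 3
  oi : S → ℕ
  oj : S → ℕ
  nx : S → S

namespace Mdl

variable {D S : Type} (M : Mdl D S)

def φ : Equiv.Perm D := M.ι * M.ν * M.ν
def ψ : Equiv.Perm D := M.ι * M.ν
def per (d : D) : ℕ := Function.minimalPeriod M.φ d
def sg (x : D → ℝ) (d : D) : ℝ := sig M.φ x d (M.per d)
def base (s : S) : D := (M.φ⁻¹ ^ M.oi s) (M.bs s)
def tgt (s : S) : D := (M.φ ^ M.oj s) (M.κ (M.base s))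
def step (s : S) : D :=
  if M.kd s = 0 then M.φ (M.bs s) else if M.kd s = 1 then M.ψ (M.bs s) else M.ι (M.tgt s)
def tw (x y : D → ℝ) (s : S) : ℝ :=
  y (M.base s) * Pr M.φ x (M.base s) (M.oi s) * Pr M.φ x (M.κ (M.base s)) (M.oj s)
def mat (x y : D → ℝ) (s : S) : M2 :=
  if M.kd s = 0 then mA (x (M.φ (M.bs s))) else if M.kd s = 1 then mB (x (M.ψ (M.bs s)))
  else mJ (M.sg x (M.bs s)) (M.sg x (M.tgt s)) (M.tw x y s) (x (M.tgt s))
def trW (x y : D → ℝ) (s : S) : ℝ :=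
  (mprod (fun m => M.mat x y (M.nx^[m] s)) (Function.minimalPeriod M.nx s)).trace

/-- Parameters that realise the type as a critical point with trace `T`. -/
structure Real [Fintype S] (x y : D → ℝ) (T : ℝ) : Prop where
  x_pos : ∀ d, 0 < x d
  y_pos : ∀ d, 0 < y d
  x_ι : ∀ d, x (M.ι d) = x d
  y_κ : ∀ d, y (M.κ d) = y d
  lt : ∀ d, Pr M.φ x d (M.per d) < 1
  fan : ∀ d, Pr M.φ x d (M.per d) + 1 / Pr M.φ x d (M.per d) = T
  tr : ∀ s, M.on s → M.trW x y s = T
  crit : ∃ c : S → ℝ, (∀ s, M.on s → 0 < c s) ∧ ∀ (ξ η : D → ℝ) (μ : ℝ),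
    (∀ d, ξ (M.ι d) = ξ d) → (∀ d, η (M.κ d) = η d) →
    (∀ d, ∑ m ∈ range (M.per d), ξ ((M.φ ^ (m + 1)) d) = μ) →
    ∑ s ∈ univ.filter (fun s => M.on s),
      c s * deriv (fun t => M.trW (pth x ξ t) (pth y η t) s) 0 = 0
  periodic : ∀ s, M.on s → s ∈ Function.periodicPts M.nx
  cover : ∀ β, M.κ β ≠ β → ∃ s, M.on s ∧ M.kd s = 2 ∧ M.base s = β
  base_ex : ∀ d, ∃ i : ℕ, M.κ ((M.φ ^ i) d) ≠ (M.φ ^ i) d

/-- Holonomy along paths of darts. -/
inductive Reach (x y : D → ℝ) (d₀ : D) : D → SL(2, ℝ) → Prop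
  | base : Reach x y d₀ d₀ 1
  | neg {d g} : Reach x y d₀ d g → Reach x y d₀ d (-g)
  | nu {d g} : Reach x y d₀ d g → Reach x y d₀ (M.ν d) (g * Nm)
  | io {d g} : Reach x y d₀ d g → Reach x y d₀ (M.ι d) (g * Sm (x d))
  | ka {d g} : M.κ d ≠ d → Reach x y d₀ d g →
      Reach x y d₀ (M.κ d) (g * Um (M.sg x d) * Sm (y d) * Um (-M.sg x (M.κ d)))

/-- `Γ` is the holonomy group of the parameters. -/
def Gen (Γ : Subgroup SL(2, ℝ)) (x y : D → ℝ) : Prop :=
  ∀ d₀, ∃ F : SL(2, ℝ), ∀ g, g ∈ Γ ↔ M.Reach x y d₀ d₀ (F⁻¹ * g * F)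

open Classical in
/-- Combinatorial constraints used for counting. -/
structure Shape [Fintype D] [Fintype S] (k m₀ D₀ : ℕ) : Prop where
  ne : Nonempty D
  ι_ι : ∀ d, M.ι (M.ι d) = d
  ι_ne : ∀ d, M.ι d ≠ d
  ν3 : ∀ d, M.ν (M.ν (M.ν d)) = d
  ν_ne : ∀ d, M.ν d ≠ d
  κ_κ : ∀ d, M.κ (M.κ d) = d
  trans : ∀ U : Set D, (∀ d ∈ U, M.ι d ∈ U) → (∀ d ∈ U, M.ν d ∈ U) → U.Nonempty → U = Set.univ
  base_ex : ∀ d, ∃ i : ℕ, M.κ ((M.φ ^ i) d) ≠ (M.φ ^ i) d
  base_uniq : ∀ β β', M.κ β ≠ β → M.κ β' ≠ β' → M.φ.SameCycle β β' → β = β'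
  card_base : (univ.filter fun β => M.κ β ≠ β).card = 2 * k
  nx : ∀ s, M.on s → M.on (M.nx s) ∧ M.bs (M.nx s) = M.step s
  off : ∀ s, M.on s → M.kd s ≠ 2 → M.oi s = 0 ∧ M.oj s = 0
  jump : ∀ s, M.on s → M.kd s = 2 → M.κ (M.base s) ≠ M.base s ∧ M.oi s ≤ M.per (M.base s) ∧
    M.oj s ≤ m₀ * M.per (M.κ (M.base s))
  fib : ∀ d, (univ.filter fun s => M.on s ∧ M.bs s = d).card ≤ D₀
  fib2 : ∀ β, (univ.filter fun s => M.on s ∧ M.kd s = 2 ∧ M.base s = β).card ≤ D₀

end Mdl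

/-- Number of cycles, fixed points included. -/
def cyc {X : Type} (σ : Equiv.Perm X) : ℕ := Nat.card (Quotient (Equiv.Perm.SameCycle.setoid σ))

/-- The involution `j` splits the cycles of `c` as much as possible. -/
def MaxSplit {X : Type} [Fintype X] [DecidableEq X] (c j : Equiv.Perm X) : Prop :=
  (∀ x, j (j x) = x) ∧ j.support.card + 2 = 2 * cyc (c * j)

/-- Ribbon structures labelled along the contour of a spanning tree. -/
def Lab (n r : ℕ) (ι ν : Equiv.Perm (Fin n)) : Prop :=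
  ∃ jT jS jR : Equiv.Perm (Fin n), MaxSplit (finRotate n) jT ∧ (∀ x, jR (jR x) = x) ∧
    jR.support.card = 2 * r ∧ cyc (finRotate n * jR) = 1 ∧ MaxSplit (finRotate n * jR) jS ∧
    ν = finRotate n * jT ∧ ι = jT * jS * jR

/-- Types in canonical form. -/
def Canon (n D₀ r k b : ℕ) : Set (Mdl (Fin n) (Fin n × Fin D₀)) :=
  {M | Lab n r M.ι M.ν ∧ (∀ d, M.κ (M.κ d) = d) ∧ M.κ.support.card = 2 * k ∧
    (∀ s, M.bs s = s.1) ∧ (∀ s, (M.nx s).1 = M.step s) ∧ ∑ s, M.oi s ≤ b ∧ ∑ s, M.oj s ≤ b}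

end

end Pool.Agent.P.MP_d39174_gt

end

section
/-! Merging and splitting cycles. -/

set_option linter.unusedSectionVars false

namespace Pool.Agent.P.MP_d39174_gt

open UpperHalfPlane MatrixGroups

noncomputable section

open Equiv Equiv.Perm

variable {X : Type} [Fintype X] [DecidableEq X]

omit [DecidableEq X] in
/-- A set closed under `σ` is a union of cycles. -/
lemma PermA_closed {σ : Perm X} {U : X → Prop} (hU : ∀ a, U a → U (σ a)) {a b : X}
    (h : σ.SameCycle a b) (ha : U a) : U b := by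
  obtain ⟨i, rfl⟩ := h.exists_nat_pow_eq
  induction i with
  | zero => exact ha
  | succ i ih => rw [pow_succ', Perm.mul_apply]; exact hU _ (ih ⟨i, by simp⟩)

omit [DecidableEq X] in
lemma PermA_imp {σ τ : Perm X} (hs : ∀ a, τ.SameCycle a (σ a)) {a b : X}
    (h : σ.SameCycle a b) : τ.SameCycle a b :=
  PermA_closed (U := fun b => τ.SameCycle a b) (fun b hb => hb.trans (hs b)) h (SameCycle.refl _ _)

omit [DecidableEq X] in
lemma PermA_le {σ τ : Perm X} (h : ∀ a b, σ.SameCycle a b → τ.SameCycle a b) : cyc τ ≤ cyc σ := by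
  refine Nat.card_le_card_of_surjective
    (Quotient.map' (s₁ := SameCycle.setoid σ) (s₂ := SameCycle.setoid τ) id h) fun q => ?_
  induction q using Quotient.inductionOn with
  | h a => exact ⟨Quotient.mk _ a, rfl⟩

omit [DecidableEq X] in
lemma PermA_pos (σ : Perm X) (a : X) : 0 < Function.minimalPeriod σ a :=
  Function.minimalPeriod_pos_of_mem_periodicPts (σ.injective.mem_periodicPts a)

lemma PermA_card (σ : Perm X) (a : X) :
    (Finset.univ.filter fun b => σ.SameCycle a b).card = Function.minimalPeriod σ a := by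
  refine Finset.card_eq_of_bijective (fun i _ => σ^[i] a) (fun b hb => ?_) (fun i _ => ?_)
    (fun i j hi hj e => Function.iterate_injOn_Iio_minimalPeriod hi hj e)
  · obtain ⟨i, rfl⟩ := (Finset.mem_filter.1 hb).2.exists_nat_pow_eq
    exact ⟨i % Function.minimalPeriod σ a, Nat.mod_lt _ (PermA_pos σ a),
      Function.iterate_mod_minimalPeriod_eq⟩
  · exact Finset.mem_filter.2 ⟨Finset.mem_univ _, ⟨i, by rw [zpow_natCast]; rfl⟩⟩

/-- Merging two classes lowers the number of classes by one. -/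
lemma card_quot_merge {r r' : Setoid X} {x y : X} (h : ¬ r x y)
    (e : ∀ a b, r' a b ↔ r a b ∨ ((r a x ∨ r a y) ∧ (r b x ∨ r b y))) :
    Nat.card (Quotient r') + 1 = Nat.card (Quotient r) := by
  classical
  rw [← Nat.card_congr (optionSubtypeNe (Quotient.mk r y)), Finite.card_option]
  congr 1
  symm
  refine Nat.card_eq_of_bijective (fun q => Quotient.map' (s₁ := r) (s₂ := r') id
    (fun a b hab => (e a b).2 (Or.inl hab)) q.1) ⟨?_, fun q => ?_⟩
  · rintro ⟨p, hp⟩ ⟨q, hq⟩ hpq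
    induction p using Quotient.inductionOn with
    | h a =>
    induction q using Quotient.inductionOn with
    | h b =>
    have h1 : r' a b := Quotient.exact hpq
    have ha : ¬ r a y := fun h => hp (Quotient.sound h)
    have hb : ¬ r b y := fun h => hq (Quotient.sound h)
    refine Subtype.ext (Quotient.sound ?_)
    rcases (e a b).1 h1 with h2 | ⟨h2, h3⟩
    · exact h2
    · exact r.trans (h2.resolve_right ha) (r.symm (h3.resolve_right hb))
  · induction q using Quotient.inductionOn with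
    | h a =>
    by_cases ha : r a y
    · refine ⟨⟨Quotient.mk r x, fun h' => h (Quotient.exact h')⟩, Quotient.sound ?_⟩
      exact (e x a).2 (Or.inr ⟨Or.inl (r.refl x), Or.inr ha⟩)
    · exact ⟨⟨Quotient.mk r a, fun h' => ha (Quotient.exact h')⟩, rfl⟩

lemma sameCycle_mul_swap {σ : Perm X} {x y : X} (h : ¬ σ.SameCycle x y) (a b : X) :
    (σ * swap x y).SameCycle a b ↔ σ.SameCycle a b ∨
      ((σ.SameCycle a x ∨ σ.SameCycle a y) ∧ (σ.SameCycle b x ∨ σ.SameCycle b y)) := by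
  have ex : (σ * swap x y) x = σ y := by simp
  have ey : (σ * swap x y) y = σ x := by simp
  have eo : ∀ c, c ≠ x → c ≠ y → (σ * swap x y) c = σ c := fun c h1 h2 => by
    rw [Perm.mul_apply, swap_apply_of_ne_of_ne h1 h2]
  constructor
  · intro hab
    refine PermA_closed (U := fun b => σ.SameCycle a b ∨
      ((σ.SameCycle a x ∨ σ.SameCycle a y) ∧ (σ.SameCycle b x ∨ σ.SameCycle b y))) (fun c hc => ?_)
      hab (Or.inl (SameCycle.refl _ _))
    by_cases h1 : c = x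
    · subst h1
      rw [ex]
      exact Or.inr ⟨hc.elim Or.inl And.left, Or.inr (sameCycle_apply_left.2 (SameCycle.refl _ _))⟩
    by_cases h2 : c = y
    · subst h2
      rw [ey]
      exact Or.inr ⟨hc.elim Or.inr And.left, Or.inl (sameCycle_apply_left.2 (SameCycle.refl _ _))⟩
    rw [eo c h1 h2]
    simpa only [sameCycle_apply_left, sameCycle_apply_right] using hc
  · have hxy : (σ * swap x y).SameCycle x y := by
      by_contra hn
      refine hn (PermA_closed (σ := σ)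
        (U := fun c => (σ * swap x y).SameCycle x c ∧ σ.SameCycle y c) (fun c hc => ?_)
        (a := σ y) (b := y) (sameCycle_apply_left.2 (SameCycle.refl _ _))
        ⟨ex ▸ sameCycle_apply_right.2 (SameCycle.refl _ _),
          sameCycle_apply_right.2 (SameCycle.refl _ _)⟩).1
      have h1 : c ≠ x := fun e => h (e ▸ hc.2).symm
      have h2 : c ≠ y := fun e => hn (e ▸ hc.1)
      exact ⟨eo c h1 h2 ▸ sameCycle_apply_right.2 hc.1, sameCycle_apply_right.2 hc.2⟩
    have hs : ∀ c, (σ * swap x y).SameCycle c (σ c) := fun c => by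
      by_cases h1 : c = x
      · subst h1
        exact ey ▸ sameCycle_apply_right.2 hxy
      by_cases h2 : c = y
      · subst h2
        exact ex ▸ sameCycle_apply_right.2 hxy.symm
      exact eo c h1 h2 ▸ sameCycle_apply_right.2 (SameCycle.refl _ _)
    have hx : ∀ c, σ.SameCycle c x ∨ σ.SameCycle c y → (σ * swap x y).SameCycle c x := fun c hc =>
      hc.elim (PermA_imp hs) fun h' => (PermA_imp hs h').trans hxy.symm
    rintro (hab | ⟨h1, h2⟩)
    · exact PermA_imp hs hab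
    · exact (hx a h1).trans (hx b h2).symm

lemma cyc_mul_swap {σ : Perm X} {x y : X} (h : ¬ σ.SameCycle x y) :
    cyc (σ * swap x y) + 1 = cyc σ :=
  card_quot_merge (r := SameCycle.setoid σ) (r' := SameCycle.setoid (σ * swap x y)) h
    (sameCycle_mul_swap h)

lemma cyc_mul_swap_le (σ : Perm X) (x y : X) : cyc (σ * swap x y) ≤ cyc σ + 1 := by
  by_cases h : (σ * swap x y).SameCycle x y
  · refine (PermA_le fun a b => PermA_imp fun c => ?_).trans (Nat.le_succ _)
    have e : σ c = (σ * swap x y) (swap x y c) := by simp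
    rw [e, sameCycle_apply_right]
    by_cases h1 : c = x
    · subst h1
      rwa [swap_apply_left]
    by_cases h2 : c = y
    · subst h2
      rw [swap_apply_right]
      exact h.symm
    rw [swap_apply_of_ne_of_ne h1 h2]
  · have := cyc_mul_swap h
    rw [mul_assoc, swap_mul_self, mul_one] at this
    omega

lemma cyc_inv (σ : Perm X) : cyc σ⁻¹ = cyc σ :=
  le_antisymm (PermA_le fun _ _ => sameCycle_inv.2) (PermA_le fun _ _ => sameCycle_inv.1)

lemma cyc_permCongr {Y : Type} [Fintype Y] [DecidableEq Y] (e : X ≃ Y) (σ : Perm X) :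
    cyc (e.permCongr σ) = cyc σ := by
  refine (Nat.card_congr (Quotient.congr (ra := SameCycle.setoid σ)
    (rb := SameCycle.setoid (e.permCongr σ)) e fun a b => ?_)).symm
  have hz : ∀ i : ℤ, (e.permCongr σ) ^ i = e.permCongr (σ ^ i) := fun i =>
    (map_zpow e.permCongrHom σ i).symm
  change σ.SameCycle a b ↔ (e.permCongr σ).SameCycle (e a) (e b)
  simp only [SameCycle, hz, permCongr_apply, symm_apply_apply, EmbeddingLike.apply_eq_iff_eq]

lemma cyc_eq_one_iff [Nonempty X] (σ : Perm X) : cyc σ = 1 ↔ ∀ a b, σ.SameCycle a b := by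
  rw [cyc, Nat.card_eq_one_iff_unique]
  constructor
  · rintro ⟨h, -⟩ a b
    exact Quotient.exact (s := SameCycle.setoid σ) (Subsingleton.elim _ _)
  · intro h
    refine ⟨⟨fun p q => ?_⟩, ⟨Quotient.mk _ (Classical.arbitrary X)⟩⟩
    induction p using Quotient.inductionOn with
    | h a =>
    induction q using Quotient.inductionOn with
    | h b => exact Quotient.sound (h a b)

lemma exists_rotate {σ : Perm X} (h : cyc σ = 1) :
    ∃ e : X ≃ Fin (Fintype.card X), e.permCongr σ = finRotate _ := by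
  obtain ⟨q⟩ := (Nat.card_eq_one_iff_unique.1 h).2
  have x₀ : X := q.out
  have : Nonempty X := ⟨x₀⟩
  have hall := (cyc_eq_one_iff σ).1 h
  have hm : Function.minimalPeriod σ x₀ = Fintype.card X := by
    rw [← PermA_card, Finset.filter_true_of_mem fun b _ => hall x₀ b, Finset.card_univ]
  have hb : Function.Bijective fun i : Fin (Fintype.card X) => σ^[i] x₀ := by
    refine (Fintype.bijective_iff_injective_and_card _).2 ⟨fun i j e => Fin.ext ?_, by simp⟩
    exact Function.iterate_injOn_Iio_minimalPeriod (i.2.trans_eq hm.symm) (j.2.trans_eq hm.symm) e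
  have hmod : ∀ k, σ^[k % Fintype.card X] x₀ = σ^[k] x₀ := fun k => by
    rw [← hm, Function.iterate_mod_minimalPeriod_eq]
  refine ⟨(Equiv.ofBijective _ hb).symm, Equiv.ext fun i => ?_⟩
  rw [permCongr_apply, symm_symm, Equiv.symm_apply_eq, ofBijective_apply, ofBijective_apply,
    finRotate_apply, Fin.val_add, Fin.val_one', Nat.add_mod_mod, hmod,
    Function.iterate_succ_apply']

lemma three_mul_cyc {ν : Perm X} (h : ∀ d, ν (ν (ν d)) = d) (h' : ∀ d, ν d ≠ d) :
    3 * cyc ν = Fintype.card X := by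
  classical
  have : Fact (Nat.Prime 3) := ⟨Nat.prime_three⟩
  let := Fintype.ofFinite (Quotient (SameCycle.setoid ν))
  rw [← Finset.card_univ, Finset.card_eq_sum_card_fiberwise
    (f := Quotient.mk (SameCycle.setoid ν)) (t := Finset.univ) fun _ _ => Finset.mem_univ _,
    cyc, Nat.card_eq_fintype_card, ← Finset.card_univ, mul_comm, ← smul_eq_mul,
    ← Finset.sum_const]
  refine Finset.sum_congr rfl fun q _ => ?_
  induction q using Quotient.inductionOn with
  | h a =>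
  rw [← Function.minimalPeriod_eq_prime (f := ν) (p := 3) (x := a) (h a) (h' a), ← PermA_card]
  congr 1
  ext b
  simp only [Finset.mem_filter, Finset.mem_univ, true_and]
  exact ⟨fun hb => Quotient.sound hb.symm, fun hb => (Quotient.exact hb).symm⟩

lemma cyc_eq_card {σ : Perm X} {s : Finset X} (h : ∀ d, ∃ i : ℕ, (σ ^ i) d ∈ s)
    (h' : ∀ a ∈ s, ∀ b ∈ s, σ.SameCycle a b → a = b) : cyc σ = s.card := by
  rw [← Fintype.card_coe, ← Nat.card_eq_fintype_card]
  refine (Nat.card_eq_of_bijective (fun a : s => Quotient.mk (SameCycle.setoid σ) a.1)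
    ⟨fun a b e => Subtype.ext (h' _ a.2 _ b.2 (Quotient.exact e)), fun q => ?_⟩).symm
  induction q using Quotient.inductionOn with
  | h a =>
  obtain ⟨i, hi⟩ := h a
  exact ⟨⟨_, hi⟩, Quotient.sound (sameCycle_pow_left.2 (SameCycle.refl _ _))⟩

lemma sum_minimalPeriod_le {σ : Perm X} {s : Finset X}
    (h' : ∀ a ∈ s, ∀ b ∈ s, σ.SameCycle a b → a = b) :
    ∑ a ∈ s, Function.minimalPeriod σ a ≤ Fintype.card X := by
  simp only [← PermA_card]
  rw [← Finset.card_biUnion]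
  · exact Finset.card_le_univ _
  · intro a ha b hb hab
    refine Finset.disjoint_left.2 fun c h1 h2 => hab (h' a ha b hb ?_)
    exact (Finset.mem_filter.1 h1).2.trans (Finset.mem_filter.1 h2).2.symm

/-- Spanning tree: a part of the involution `j` that joins all cycles of `σ` into one. -/
lemma exists_tree [Nonempty X] (σ j : Perm X) (hj : ∀ x, j (j x) = x)
    (h : ∀ U : Set X, (∀ d ∈ U, σ d ∈ U) → (∀ d ∈ U, j d ∈ U) → U.Nonempty → U = Set.univ) :
    ∃ t : Perm X, (∀ x, t x = x ∨ t x = j x) ∧ (∀ x, t (t x) = x) ∧ cyc (σ * t) = 1 ∧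
      t.support.card + 2 = 2 * cyc σ := by
  induction hn : cyc σ using Nat.strong_induction_on generalizing σ j with
  | _ n ih =>
  by_cases h1 : ∀ x, σ.SameCycle x (j x)
  · have h2 : cyc σ = 1 := (cyc_eq_one_iff σ).2 fun a b => by
      have := h {c | σ.SameCycle a c} (fun d hd => sameCycle_apply_right.2 hd)
        (fun d hd => SameCycle.trans hd (h1 d)) ⟨a, SameCycle.refl _ _⟩
      exact (this.symm ▸ Set.mem_univ b : b ∈ {c | σ.SameCycle a c})
    exact ⟨1, fun _ => Or.inl rfl, fun _ => rfl, by rwa [mul_one], by simp [← hn, h2]⟩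
  obtain ⟨x, hx⟩ := not_forall.1 h1
  have hne : x ≠ j x := fun e => hx (e ▸ SameCycle.refl _ _)
  have hc := cyc_mul_swap hx
  have e1 : (j * swap x (j x)) x = x := by simp [hj]
  have e2 : (j * swap x (j x)) (j x) = j x := by simp
  have e3 : ∀ c, c ≠ x → c ≠ j x → (j * swap x (j x)) c = j c := fun c a b => by
    rw [Perm.mul_apply, swap_apply_of_ne_of_ne a b]
  have e4 : ∀ c, c ≠ x → c ≠ j x → j c ≠ x ∧ j c ≠ j x := fun c a b =>
    ⟨fun e => b (by rw [← e, hj]), fun e => a (j.injective e)⟩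
  obtain ⟨t, t1, t2, t3, t4⟩ := ih _ (by omega) (σ * swap x (j x)) (j * swap x (j x))
    (fun c => by
      by_cases a : c = x
      · rw [a, e1, e1]
      by_cases b : c = j x
      · rw [b, e2, e2]
      rw [e3 c a b, e3 _ (e4 c a b).1 (e4 c a b).2, hj])
    (fun U hU hU' hne => by
      have hcl : ∀ a b, (σ * swap x (j x)).SameCycle a b → a ∈ U → b ∈ U := fun a b hab =>
        PermA_closed (U := fun c => c ∈ U) hU hab
      refine h U (fun d hd => hcl d _ ((sameCycle_mul_swap hx _ _).2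
        (Or.inl (sameCycle_apply_right.2 (SameCycle.refl _ _)))) hd) (fun d hd => ?_) hne
      have hxy : (σ * swap x (j x)).SameCycle x (j x) := (sameCycle_mul_swap hx _ _).2
        (Or.inr ⟨Or.inl (SameCycle.refl _ _), Or.inr (SameCycle.refl _ _)⟩)
      by_cases a : d = x
      · rw [a] at hd ⊢
        exact hcl _ _ hxy hd
      by_cases b : d = j x
      · rw [b] at hd ⊢
        rw [hj]
        exact hcl _ _ hxy.symm hd
      exact e3 d a b ▸ hU' d hd) rfl
  have f1 : t x = x := (t1 x).elim id fun e => e.trans e1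
  have f2 : t (j x) = j x := (t1 (j x)).elim id fun e => e.trans e2
  have hd : Perm.Disjoint (swap x (j x)) t := fun c => by
    by_cases a : c = x
    · exact Or.inr (a ▸ f1)
    by_cases b : c = j x
    · exact Or.inr (b ▸ f2)
    exact Or.inl (swap_apply_of_ne_of_ne a b)
  refine ⟨swap x (j x) * t, fun c => ?_, fun c => ?_, by rwa [← mul_assoc], ?_⟩
  · by_cases a : c = x
    · rw [a, Perm.mul_apply, f1, swap_apply_left]
      exact Or.inr rfl
    by_cases b : c = j x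
    · rw [b, Perm.mul_apply, f2, swap_apply_right, hj]
      exact Or.inr rfl
    rcases t1 c with e | e
    · rw [Perm.mul_apply, e, swap_apply_of_ne_of_ne a b]
      exact Or.inl rfl
    · rw [Perm.mul_apply, e, e3 c a b, swap_apply_of_ne_of_ne (e4 c a b).1 (e4 c a b).2]
      exact Or.inr rfl
  · rw [Perm.mul_apply, hd.commute.eq, Perm.mul_apply, t2, swap_apply_self]
  · rw [hd.card_support_mul, card_support_swap hne]
    omega

end

end Pool.Agent.P.MP_d39174_gt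

end

section
/-! Counting involutions. -/

namespace Pool.Agent.P.MP_d39174_gt

open UpperHalfPlane MatrixGroups

noncomputable section

open Equiv Equiv.Perm

section

variable {X : Type} [Fintype X] [DecidableEq X]

lemma permB_split {j : Perm X} (hj : ∀ x, j (j x) = x) {x : X} (hx : j x ≠ x) :
    (∀ y, (swap x (j x) * j) ((swap x (j x) * j) y) = y) ∧
      (swap x (j x) * j).support.card + 2 = j.support.card ∧
      ∀ y, y ≠ x → y ≠ j x → (swap x (j x) * j) y = j y := by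
  have h1 : (swap x (j x) * j) x = x := by simp
  have h2 : (swap x (j x) * j) (j x) = j x := by simp [hj]
  have h3 : ∀ y, y ≠ x → y ≠ j x → (swap x (j x) * j) y = j y := fun y a b =>
    swap_apply_of_ne_of_ne (fun e => b (by rw [← e, hj])) fun e => a (j.injective e)
  refine ⟨fun y => ?_, ?_, h3⟩
  · by_cases a : y = x
    · rw [a, h1, h1]
    by_cases b : y = j x
    · rw [b, h2, h2]
    rw [h3 y a b, h3 _ (fun e => b (by rw [← e, hj])) fun e => a (j.injective e), hj]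
  · have h4 : j.support = insert x (insert (j x) (swap x (j x) * j).support) := by
      ext y
      by_cases a : y = x
      · simp [a, hx]
      by_cases b : y = j x
      · simp [b, hj, hx.symm]
      simp only [mem_support, Finset.mem_insert, a, b, false_or, h3 y a b]
    rw [h4, Finset.card_insert_of_notMem, Finset.card_insert_of_notMem]
    · simp only [mem_support, h2, ne_eq, not_true, not_false_iff]
    · simp only [Finset.mem_insert, mem_support, h1, hx.symm, ne_eq, not_true, or_self, not_false_iff]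

lemma permB_le (m : ℕ) : ∀ σ j : Perm X, (∀ x, j (j x) = x) → j.support.card = m →
    2 * cyc (σ * j) ≤ 2 * cyc σ + m := by
  induction m using Nat.strong_induction_on with
  | _ m ih =>
    intro σ j hj hm
    by_cases h : ∃ x, j x ≠ x
    · obtain ⟨x, hx⟩ := h
      obtain ⟨h1, h2, -⟩ := permB_split hj hx
      have h3 := ih _ (by omega) (σ * swap x (j x)) _ h1 rfl
      have h4 := cyc_mul_swap_le σ x (j x)
      rw [mul_assoc, swap_mul_self_mul] at h3
      omega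
    · obtain rfl : j = 1 := Equiv.ext fun x => not_not.1 fun e => h ⟨x, e⟩
      simp

end

lemma permB_ext {n : ℕ} {j j' : Perm (Fin n)} (hj : ∀ x, j (j x) = x) (hj' : ∀ x, j' (j' x) = x)
    (h : ∀ x, x < j x ∨ x < j' x → j x = j' x) : j = j' := by
  refine Equiv.ext fun x => ?_
  by_cases h1 : x < j x ∨ x < j' x
  · exact h x h1
  rw [not_or, not_lt, not_lt] at h1
  rcases h1.1.lt_or_eq with h2 | h2
  · have := h (j x) (Or.inl (by rwa [hj]))
    rw [hj] at this
    exact j'.injective (this.symm.trans (hj' x).symm)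
  rcases h1.2.lt_or_eq with h3 | h3
  · have := h (j' x) (Or.inr (by rwa [hj']))
    rw [hj'] at this
    exact j.injective ((hj x).trans this.symm)
  · rw [h2, h3]

lemma permB_card {α β : Type} [Finite β] (S : Set α) (R : α → β → Prop) (h1 : ∀ a ∈ S, ∃ b, R a b)
    (h2 : ∀ a ∈ S, ∀ a' ∈ S, ∀ b, R a b → R a' b → a = a') : S.Finite ∧ S.ncard ≤ Nat.card β := by
  choose f hf using h1
  have h3 : Function.Injective fun a : S => f a.1 a.2 := fun a a' e =>
    Subtype.ext (h2 _ a.2 _ a'.2 _ (hf _ a.2) (by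
      rw [show f a.1 a.2 = f a'.1 a'.2 from e]
      exact hf _ a'.2))
  exact ⟨Finite.of_injective _ h3, Nat.card_le_card_of_injective _ h3⟩

/-- An involution that splits a full cycle maximally is non-crossing. -/
lemma MaxSplit.noncross {n : ℕ} {j : Perm (Fin n)} (h : MaxSplit (finRotate n) j) {a b : Fin n}
    (h1 : a < b) (h2 : b < j a) : j b < j a := by
  by_contra h3
  have h4 : j a < j b := lt_of_le_of_ne (not_lt.1 h3) fun e => h1.ne (j.injective e)
  obtain ⟨a1, a2, a3⟩ := permB_split h.1 (h1.trans h2).ne'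
  have a4 := a3 b h1.ne' h2.ne
  obtain ⟨b1, b2, -⟩ := permB_split a1 (x := b) (a4 ▸ (h2.trans h4).ne')
  rw [a4] at b1 b2
  obtain ⟨n, rfl⟩ : ∃ m, n = m + 2 := ⟨n - 2, by have := b.2; have := Fin.lt_def.1 h1; omega⟩
  have c1 : cyc (finRotate (n + 2)) = 1 := (cyc_eq_one_iff _).2 fun x y =>
    isCycle_finRotate.sameCycle (mem_support.1 (support_finRotate ▸ Finset.mem_univ x))
      (mem_support.1 (support_finRotate ▸ Finset.mem_univ y))
  have c2 : ∀ i : ℕ, a < ((finRotate (n + 2) * swap a (j a)) ^ i) b ∧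
      ((finRotate (n + 2) * swap a (j a)) ^ i) b ≤ j a := fun i => by
    induction i with
    | zero => exact ⟨h1, h2.le⟩
    | succ i ih =>
      rw [pow_succ', Perm.mul_apply, Perm.mul_apply]
      generalize ((finRotate (n + 2) * swap a (j a)) ^ i) b = x at ih
      have key : ∀ y, a ≤ y → y < j a → a < finRotate (n + 2) y ∧ finRotate (n + 2) y ≤ j a :=
        fun y d1 d2 => by
          have : (finRotate (n + 2) y : ℕ) = y + 1 :=
            coe_finRotate_of_ne_last (d2.trans_le (Fin.le_last _)).ne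
          simp only [Fin.lt_def, Fin.le_def] at d1 d2 ⊢
          omega
      rcases ih.2.lt_or_eq with d | d
      · rw [swap_apply_of_ne_of_ne ih.1.ne' d.ne]
        exact key x ih.1.le d
      · rw [d, swap_apply_right]
        exact key a le_rfl (h1.trans h2)
  have c3 := cyc_mul_swap (σ := finRotate (n + 2) * swap a (j a)) (x := b) (y := j b) fun e => by
    obtain ⟨i, hi⟩ := e.exists_nat_pow_eq
    exact h3 (lt_of_le_of_ne (hi ▸ (c2 i).2) h4.ne')
  have c4 := cyc_mul_swap_le (finRotate (n + 2)) a (j a)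
  have c5 := permB_le _ (finRotate (n + 2) * swap a (j a) * swap b (j b)) _ b1 rfl
  rw [mul_assoc, swap_mul_self_mul, mul_assoc, swap_mul_self_mul] at c5
  have c6 := h.2
  omega
lemma ncard_maxSplit_rot (n : ℕ) :
    {j : Perm (Fin n) | MaxSplit (finRotate n) j}.ncard ≤ 4 ^ n := by
  have key : ∀ j j' : Perm (Fin n), MaxSplit (finRotate n) j → (∀ x, j' (j' x) = x) →
      (∀ x, x < j' x → x < j x) → ∀ y, j' y < y → (∀ z < y, j z < z → j z = j' z) →
      ¬ j y < j' y := fun j j' h h' ho y hy ih e => by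
    have h1 := h.noncross e (by rwa [h.1])
    rw [h.1] at h1
    have h2 := ih _ h1 (by
      rw [h.1]
      exact ho _ (by rwa [h']))
    rw [h.1] at h2
    exact h1.ne' (j'.injective h2)
  refine (permB_card _ (fun j (p : Set (Fin n) × Set (Fin n)) =>
    p = ({x | x < j x}, {x | j x < x})) (fun j _ => ⟨_, rfl⟩) fun j h j' h' p e e' => ?_).2.trans_eq ?_
  · obtain ⟨e1, e2⟩ := Prod.ext_iff.1 (e.symm.trans e')
    have o : ∀ x, x < j x ↔ x < j' x := Set.ext_iff.1 e1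
    have c : ∀ x, j x < x ↔ j' x < x := Set.ext_iff.1 e2
    have h1 : ∀ y, j y < y → j y = j' y := fun y => by
      induction y using WellFoundedLT.induction with
      | ind y ih =>
        exact fun hy => le_antisymm
          (not_lt.1 (key j' j h' h.1 (fun x => (o x).1) y hy fun z hz d => (ih z hz ((c z).2 d)).symm))
          (not_lt.1 (key j j' h h'.1 (fun x => (o x).2) y ((c y).1 hy) ih))
    refine permB_ext h.1 h'.1 fun x hx => ?_
    have h2 := h1 (j x) (by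
      rw [h.1]
      exact hx.elim id (o x).2)
    rw [h.1] at h2
    exact j'.injective (h2.symm.trans (h'.1 x).symm)
  · simp [← mul_pow]
lemma ncard_maxSplit {n : ℕ} {c : Perm (Fin n)} (h : cyc c = 1) :
    {j : Perm (Fin n) | MaxSplit c j}.ncard ≤ 4 ^ n := by
  obtain ⟨e, he⟩ := exists_rotate h
  refine (Set.ncard_le_ncard_of_injOn e.permCongr (fun j hj => ?_)
    e.permCongr.injective.injOn).trans ((ncard_maxSplit_rot _).trans_eq (by simp))
  refine ⟨fun x => by simp [hj.1], ?_⟩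
  rw [← he, ← permCongr_mul, cyc_permCongr, ← hj.2]
  congr 1
  exact (Finset.card_equiv e fun x => by simp).symm
lemma ncard_invol (n r : ℕ) :
    {j : Perm (Fin n) | (∀ x, j (j x) = x) ∧ j.support.card = 2 * r}.ncard ≤ 2 ^ n * n ^ r := by
  refine (permB_card _ (fun j (p : Finset (Fin n) × (Fin r → Fin n)) =>
    (∀ x, x ∈ p.1 ↔ x < j x) ∧ ∃ h : p.1.card = r, ∀ i, p.2 i = j (p.1.orderEmbOfFin h i))
    (fun j hj => ?_) fun j h j' h' p e e' => permB_ext h.1 h'.1 fun x hx => ?_).2.trans_eq (by simp)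
  · have h1 : (Finset.univ.filter fun x => x < j x).card = r := by
      have h2 := Finset.card_filter_add_card_filter_not (s := j.support) fun x => x < j x
      have h3 : (j.support.filter fun x => x < j x) = Finset.univ.filter fun x => x < j x := by
        ext x
        simpa using fun h => h.ne'
      have h4 : (Finset.univ.filter fun x => x < j x).card =
          (j.support.filter fun x => ¬ x < j x).card := Finset.card_equiv j fun x => by
        simp only [Finset.mem_filter, Finset.mem_univ, true_and, mem_support, hj.1, not_lt]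
        exact lt_iff_le_and_ne.trans and_comm
      have h5 := hj.2
      rw [h3] at h2
      omega
    exact ⟨(_, fun i => j (Finset.orderEmbOfFin _ h1 i)), by simp, h1, fun _ => rfl⟩
  · obtain ⟨e1, h1, e2⟩ := e
    obtain ⟨e3, h2, e4⟩ := e'
    obtain ⟨i, rfl⟩ : x ∈ Set.range (p.1.orderEmbOfFin h1) := by
      rw [Finset.range_orderEmbOfFin]
      exact hx.elim (e1 x).2 (e3 x).2
    rw [← e2, e4]
lemma ncard_lab (n r : ℕ) :
    {p : Perm (Fin n) × Perm (Fin n) | Lab n r p.1 p.2}.ncard ≤ 32 ^ n * n ^ r := by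
  classical
  set I := Finset.univ.filter fun j : Perm (Fin n) =>
    ((∀ x, j (j x) = x) ∧ j.support.card = 2 * r) ∧ cyc (finRotate n * j) = 1 with hI
  have h1 : I.card ≤ 2 ^ n * n ^ r := by
    rw [← Set.ncard_coe_finset]
    exact (Set.ncard_le_ncard (fun j hj => (Finset.mem_filter.1 hj).2.1)).trans (ncard_invol n r)
  calc _ ≤ (⋃ jR ∈ I, (fun q : Perm (Fin n) × Perm (Fin n) => (q.1 * q.2 * jR, finRotate n * q.1)) ''
        ({j | MaxSplit (finRotate n) j} ×ˢ {j | MaxSplit (finRotate n * jR) j})).ncard := by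
        refine Set.ncard_le_ncard ?_
        rintro ⟨ι, ν⟩ ⟨jT, jS, jR, a1, a2, a3, a4, a5, rfl, rfl⟩
        exact Set.mem_biUnion (Finset.mem_filter.2 ⟨Finset.mem_univ _, ⟨a2, a3⟩, a4⟩)
          ⟨(jT, jS), ⟨a1, a5⟩, rfl⟩
    _ ≤ I.card • (4 ^ n * 4 ^ n) := (I.set_ncard_biUnion_le _).trans (Finset.sum_le_card_nsmul _ _ _
        fun jR hj => (Set.ncard_image_le (Set.toFinite _)).trans (Set.ncard_prod.trans_le
          (Nat.mul_le_mul (ncard_maxSplit_rot n) (ncard_maxSplit (Finset.mem_filter.1 hj).2.2))))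
    _ ≤ 2 ^ n * n ^ r * (4 ^ n * 4 ^ n) := Nat.mul_le_mul_right _ h1
    _ = _ := by rw [mul_right_comm, ← mul_pow, ← mul_pow]; rfl
/-- Functions to `ℕ` with bounded sum. -/
lemma ncard_sum_le {I : Type} [Fintype I] (b : ℕ) :
    {f : I → ℕ | ∑ i, f i ≤ b}.Finite ∧
      {f : I → ℕ | ∑ i, f i ≤ b}.ncard ≤ 2 ^ (b + Fintype.card I) := by
  classical
  refine (permB_card _ (fun f (s : Sym (Option I) b) => ∀ i, s.1.count (some i) = f i)
    (fun f hf => ⟨⟨∑ o : Option I, Multiset.replicate (o.elim (b - ∑ i, f i) f) o, ?_⟩, fun i => ?_⟩)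
    fun f _ f' _ s e e' => funext fun i => (e i).symm.trans (e' i)).imp_right fun h => h.trans ?_
  · rw [Multiset.card_sum]
    simp only [Multiset.card_replicate, Fintype.sum_option, Option.elim]
    exact Nat.sub_add_cancel hf
  · simp [Multiset.count_sum', Multiset.count_replicate]
  · rw [Nat.card_eq_fintype_card, Sym.card_sym_eq_choose, Fintype.card_option]
    exact (Nat.choose_le_two_pow _ _).trans_eq (by congr 1; omega)
lemma ncard_canon (n D₀ r k b : ℕ) : (Canon n D₀ r k b).Finite ∧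
    (Canon n D₀ r k b).ncard ≤
      64 ^ n * n ^ (r + k) * (6 * D₀) ^ (n * D₀) * 4 ^ (b + n * D₀) := by
  obtain ⟨f1, f2⟩ := ncard_sum_le (I := Fin n × Fin D₀) b
  set T := {p : Perm (Fin n) × Perm (Fin n) | Lab n r p.1 p.2} ×ˢ
    {j : Perm (Fin n) | (∀ x, j (j x) = x) ∧ j.support.card = 2 * k} ×ˢ
    (Set.univ : Set ((Fin n × Fin D₀ → Bool) × (Fin n × Fin D₀ → Fin 3) ×
      (Fin n × Fin D₀ → Fin D₀))) ×ˢ
    {f : Fin n × Fin D₀ → ℕ | ∑ i, f i ≤ b} ×ˢ {f : Fin n × Fin D₀ → ℕ | ∑ i, f i ≤ b} with hT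
  have h1 : T.Finite := (Set.toFinite _).prod ((Set.toFinite _).prod
    ((Set.toFinite _).prod (f1.prod f1)))
  have h2 : Set.MapsTo (fun M : Mdl (Fin n) (Fin n × Fin D₀) =>
      ((M.ι, M.ν), M.κ, (M.on, M.kd, fun s => (M.nx s).2), M.oi, M.oj)) (Canon n D₀ r k b) T :=
    fun M hM => ⟨hM.1, ⟨hM.2.1, hM.2.2.1⟩, trivial, hM.2.2.2.2.2⟩
  have h3 : Set.InjOn (fun M : Mdl (Fin n) (Fin n × Fin D₀) =>
      ((M.ι, M.ν), M.κ, (M.on, M.kd, fun s => (M.nx s).2), M.oi, M.oj)) (Canon n D₀ r k b) := by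
    rintro ⟨ι, ν, κ, on, bs, kd, oi, oj, nx⟩ ⟨-, -, -, a1, a2, -⟩
      ⟨ι', ν', κ', on', bs', kd', oi', oj', nx'⟩ ⟨-, -, -, b1, b2, -⟩ e
    simp only [Prod.mk.injEq] at e
    obtain ⟨⟨rfl, rfl⟩, rfl, ⟨rfl, rfl, e⟩, rfl, rfl⟩ := e
    obtain rfl : bs = bs' := funext fun s => (a1 s).trans (b1 s).symm
    obtain rfl : nx = nx' := funext fun s => Prod.ext ((a2 s).trans (b2 s).symm) (congrFun e s)
    rfl
  refine ⟨Set.Finite.of_injOn h2 h3 h1, (Set.ncard_le_ncard_of_injOn _ h2 h3 h1).trans ?_⟩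
  simp only [hT, Set.ncard_prod, Set.ncard_univ, Nat.card_eq_fintype_card, Fintype.card_prod,
    Fintype.card_fun, Fintype.card_fin, Fintype.card_bool] at f2 ⊢
  refine (Nat.mul_le_mul (ncard_lab n r) (Nat.mul_le_mul (ncard_invol n k)
    (Nat.mul_le_mul_left _ (Nat.mul_le_mul f2 f2)))).trans_eq ?_
  rw [show 64 = 32 * 2 from rfl, show 6 = 2 * 3 from rfl, show 4 = 2 * 2 from rfl]
  simp only [mul_pow, pow_add]
  ring

end

end Pool.Agent.P.MP_d39174_gt

end

section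
/-! Log-convex functions and convexity of lengths. -/

namespace Pool.Agent.P.MP_d39174_gt

open UpperHalfPlane MatrixGroups

noncomputable section

open Finset

/-- Nonnegative log-convex functions on the unit interval. -/
def LC (f : ℝ → ℝ) : Prop :=
  (∀ t ∈ Set.Icc (0 : ℝ) 1, 0 ≤ f t) ∧ ∀ a ∈ Set.Icc (0 : ℝ) 1, ∀ b ∈ Set.Icc (0 : ℝ) 1,
    ∀ θ ∈ Set.Icc (0 : ℝ) 1, f ((1 - θ) * a + θ * b) ≤ f a ^ (1 - θ) * f b ^ θ

lemma Rigid1_mem {a b θ : ℝ} (ha : a ∈ Set.Icc (0 : ℝ) 1) (hb : b ∈ Set.Icc (0 : ℝ) 1)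
    (hθ : θ ∈ Set.Icc (0 : ℝ) 1) : (1 - θ) * a + θ * b ∈ Set.Icc (0 : ℝ) 1 :=
  convex_Icc (0 : ℝ) 1 ha hb (sub_nonneg.2 hθ.2) hθ.1 (sub_add_cancel 1 θ)

lemma Rigid1_self {c : ℝ} (h : 0 ≤ c) (θ : ℝ) : c ^ (1 - θ) * c ^ θ = c := by
  rw [← Real.rpow_add' h (by simp), sub_add_cancel, Real.rpow_one]

lemma Rigid1_exp {c : ℝ} (h : 0 ≤ c) (u v θ : ℝ) :
    (c * Real.exp u) ^ (1 - θ) * (c * Real.exp v) ^ θ = c * Real.exp ((1 - θ) * u + θ * v) := by
  rw [Real.mul_rpow h (Real.exp_pos _).le, Real.mul_rpow h (Real.exp_pos _).le, ← Real.exp_mul,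
    ← Real.exp_mul, mul_mul_mul_comm, Rigid1_self h, ← Real.exp_add, mul_comm u, mul_comm v]

lemma Rigid1_holder {a b c d θ : ℝ} (ha : 0 ≤ a) (hb : 0 ≤ b) (hc : 0 ≤ c) (hd : 0 ≤ d)
    (hθ : θ ∈ Set.Icc (0 : ℝ) 1) :
    a ^ (1 - θ) * b ^ θ + c ^ (1 - θ) * d ^ θ ≤ (a + c) ^ (1 - θ) * (b + d) ^ θ := by
  rcases hθ.1.eq_or_lt with rfl | h0
  · simp
  rcases hθ.2.eq_or_lt with rfl | h1
  · simp
  have h1' : 0 < 1 - θ := sub_pos.2 h1
  rcases (add_nonneg ha hc).eq_or_lt with hP | hP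
  · obtain rfl : a = 0 := by linarith
    obtain rfl : c = 0 := by linarith
    simp [Real.zero_rpow h1'.ne']
  rcases (add_nonneg hb hd).eq_or_lt with hQ | hQ
  · obtain rfl : b = 0 := by linarith
    obtain rfl : d = 0 := by linarith
    simp [Real.zero_rpow h0.ne']
  have k1 := Real.geom_mean_le_arith_mean2_weighted h1'.le h0.le (div_nonneg ha hP.le)
    (div_nonneg hb hQ.le) (sub_add_cancel 1 θ)
  have k2 := Real.geom_mean_le_arith_mean2_weighted h1'.le h0.le (div_nonneg hc hP.le)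
    (div_nonneg hd hQ.le) (sub_add_cancel 1 θ)
  rw [Real.div_rpow ha hP.le, Real.div_rpow hb hQ.le, div_mul_div_comm] at k1
  rw [Real.div_rpow hc hP.le, Real.div_rpow hd hQ.le, div_mul_div_comm] at k2
  have e : (1 - θ) * (a / (a + c)) + θ * (b / (b + d)) +
      ((1 - θ) * (c / (a + c)) + θ * (d / (b + d))) = 1 := by
    field_simp
    ring
  have k3 := add_le_add k1 k2
  rwa [e, ← add_div,
    div_le_one (mul_pos (Real.rpow_pos_of_pos hP _) (Real.rpow_pos_of_pos hQ _))] at k3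

lemma LC.congr {f g : ℝ → ℝ} (h : LC f) (e : ∀ t ∈ Set.Icc (0 : ℝ) 1, g t = f t) : LC g := by
  refine ⟨fun t ht => e t ht ▸ h.1 t ht, fun a ha b hb θ hθ => ?_⟩
  rw [e _ (Rigid1_mem ha hb hθ), e a ha, e b hb]
  exact h.2 a ha b hb θ hθ
lemma LC.const {c : ℝ} (h : 0 ≤ c) : LC fun _ => c :=
  ⟨fun _ _ => h, fun _ _ _ _ θ _ => (Rigid1_self h θ).ge⟩
lemma LC.exp {c : ℝ} (h : 0 ≤ c) (k : ℝ) : LC fun t => c * Real.exp (t * k) := by
  refine ⟨fun t _ => mul_nonneg h (Real.exp_pos _).le, fun a _ b _ θ _ => le_of_eq ?_⟩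
  show c * Real.exp (((1 - θ) * a + θ * b) * k) = _
  rw [Rigid1_exp h, add_mul, mul_assoc, mul_assoc]
lemma LC.add {f g : ℝ → ℝ} (hf : LC f) (hg : LC g) : LC fun t => f t + g t :=
  ⟨fun t ht => add_nonneg (hf.1 t ht) (hg.1 t ht), fun a ha b hb θ hθ =>
    (add_le_add (hf.2 a ha b hb θ hθ) (hg.2 a ha b hb θ hθ)).trans
      (Rigid1_holder (hf.1 a ha) (hf.1 b hb) (hg.1 a ha) (hg.1 b hb) hθ)⟩
lemma LC.mul {f g : ℝ → ℝ} (hf : LC f) (hg : LC g) : LC fun t => f t * g t := by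
  refine ⟨fun t ht => mul_nonneg (hf.1 t ht) (hg.1 t ht), fun a ha b hb θ hθ => ?_⟩
  rw [Real.mul_rpow (hf.1 a ha) (hg.1 a ha), Real.mul_rpow (hf.1 b hb) (hg.1 b hb),
    mul_mul_mul_comm]
  exact mul_le_mul (hf.2 a ha b hb θ hθ) (hg.2 a ha b hb θ hθ) (hg.1 _ (Rigid1_mem ha hb hθ))
    (mul_nonneg (Real.rpow_nonneg (hf.1 a ha) _) (Real.rpow_nonneg (hf.1 b hb) _))
lemma LC.sum {ι : Type*} {s : Finset ι} {f : ι → ℝ → ℝ} (h : ∀ i ∈ s, LC (f i)) :
    LC fun t => ∑ i ∈ s, f i t := by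
  classical
  induction s using Finset.induction_on with
  | empty => exact (LC.const le_rfl).congr fun t _ => sum_empty
  | insert i s hi ih =>
    exact ((h i (mem_insert_self i s)).add (ih fun j hj => h j (mem_insert_of_mem hj))).congr
      fun t _ => sum_insert hi
lemma LC.geom {c k : ℝ} (h : 0 ≤ c) (h1 : ∀ t ∈ Set.Icc (0 : ℝ) 1, c * Real.exp (t * k) < 1) :
    LC fun t => 1 / (1 - c * Real.exp (t * k)) := by
  refine ⟨fun t ht => (one_div_pos.2 (sub_pos.2 (h1 t ht))).le, fun a ha b hb θ hθ => ?_⟩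
  have pa := sub_pos.2 (h1 a ha)
  have pb := sub_pos.2 (h1 b hb)
  have k1 := Rigid1_holder pa.le pb.le ((LC.exp h k).1 a ha) ((LC.exp h k).1 b hb) hθ
  have k2 := (LC.exp h k).2 a ha b hb θ hθ
  rw [sub_add_cancel, sub_add_cancel, Real.one_rpow, Real.one_rpow, mul_one] at k1
  show 1 / _ ≤ (1 / _) ^ (1 - θ) * (1 / _) ^ θ
  rw [Real.div_rpow zero_le_one pa.le, Real.div_rpow zero_le_one pb.le, Real.one_rpow,
    Real.one_rpow, div_mul_div_comm, mul_one]
  refine one_div_le_one_div_of_le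
    (mul_pos (Real.rpow_pos_of_pos pa _) (Real.rpow_pos_of_pos pb _)) ?_
  linarith
/-- In a sum of log-convex functions that takes the same value at `0`, `1/2`, `1`, every term
takes the same value at `0` and `1`. -/
lemma LC.split {m r : ℝ → ℝ} (hm : LC m) (hr : LC r) (h1 : m (1 / 2) + r (1 / 2) = m 0 + r 0)
    (h2 : m 1 + r 1 = m 0 + r 0) : m 0 = m 1 := by
  have z0 : (0 : ℝ) ∈ Set.Icc (0 : ℝ) 1 := ⟨le_rfl, zero_le_one⟩
  have z1 : (1 : ℝ) ∈ Set.Icc (0 : ℝ) 1 := ⟨zero_le_one, le_rfl⟩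
  have key : ∀ {f : ℝ → ℝ}, LC f → ∃ u v : ℝ, u * u = f 0 ∧ v * v = f 1 ∧ f (1 / 2) ≤ u * v := by
    intro f hf
    have := hf.2 0 z0 1 z1 (1 / 2) ⟨by norm_num, by norm_num⟩
    rw [show (1 : ℝ) - 1 / 2 = 1 / 2 by norm_num, mul_zero, zero_add, mul_one,
      ← Real.sqrt_eq_rpow, ← Real.sqrt_eq_rpow] at this
    exact ⟨_, _, Real.mul_self_sqrt (hf.1 0 z0), Real.mul_self_sqrt (hf.1 1 z1), this⟩
  obtain ⟨u, v, e1, e2, e3⟩ := key hm
  obtain ⟨u', v', f1, f2, f3⟩ := key hr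
  have : (u - v) ^ 2 ≤ 0 := by nlinarith [sq_nonneg (u' - v')]
  have huv : u = v := sub_eq_zero.1 (pow_eq_zero_iff two_ne_zero |>.1
    (le_antisymm this (sq_nonneg _)))
  rw [← e1, ← e2, huv]

/-- Matrix paths with log-convex entries. -/
def MLC (A : ℝ → M2) : Prop := ∀ i j, LC fun t => A t i j

lemma MLC.one : MLC fun _ => 1 := fun i j => LC.const (by
  rw [Matrix.one_apply]
  split_ifs
  exacts [zero_le_one, le_rfl])
lemma MLC.mul {A A' : ℝ → M2} (h : MLC A) (h' : MLC A') : MLC fun t => A t * A' t :=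
  fun i j => (LC.sum (s := univ) fun k _ => (h i k).mul (h' k j)).congr
    fun _ _ => Matrix.mul_apply
lemma MLC.mprod {A : ℕ → ℝ → M2} (h : ∀ m, MLC (A m)) (p : ℕ) :
    MLC fun t => mprod (fun m => A m t) p := by
  induction p with
  | zero => exact MLC.one
  | succ p ih => exact ih.mul (h p)
lemma det_mprod {A : ℕ → M2} (h : ∀ m, (A m).det = 1) (p : ℕ) : (mprod A p).det = 1 := by
  induction p with
  | zero => exact Matrix.det_one
  | succ p ih => rw [mprod, Matrix.det_mul, ih, h, mul_one]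
lemma mprod_succ' (A : ℕ → M2) (p : ℕ) :
    mprod A (p + 1) = A 0 * mprod (fun m => A (m + 1)) p := by
  induction p with
  | zero => simp [mprod]
  | succ p ih => rw [mprod, ih, mprod, mul_assoc]
lemma mprod_diag_pos {A : ℕ → M2} (h0 : ∀ m i j, 0 ≤ A m i j) (h1 : ∀ m i, 0 < A m i i) (p : ℕ) :
    (∀ i j, 0 ≤ mprod A p i j) ∧ ∀ i, 0 < mprod A p i i := by
  induction p with
  | zero =>
    refine ⟨fun i j => ?_, fun i => by simp [mprod]⟩
    rw [mprod, Matrix.one_apply]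
    split_ifs
    exacts [zero_le_one, le_rfl]
  | succ p ih =>
    refine ⟨fun i j => ?_, fun i => ?_⟩
    · rw [mprod, Matrix.mul_apply]
      exact sum_nonneg fun k _ => mul_nonneg (ih.1 i k) (h0 p k j)
    · rw [mprod, Matrix.mul_apply]
      exact sum_pos' (fun k _ => mul_nonneg (ih.1 i k) (h0 p k i))
        ⟨i, mem_univ i, mul_pos (ih.2 i) (h1 p i)⟩

lemma Rigid1_tr_pow {A : M2} (hd : A.det = 1) {L : ℝ} (hL : A.trace = 2 * Real.cosh L) (n : ℕ) :
    (A ^ n).trace = 2 * Real.cosh (n * L) := by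
  have ch : A * A = A.trace • A - 1 := by
    rw [Matrix.det_fin_two] at hd
    ext i j
    fin_cases i <;> fin_cases j <;>
      simp [Matrix.mul_apply, Fin.sum_univ_two, Matrix.trace_fin_two] <;> linarith
  induction n using Nat.twoStepInduction with
  | zero => simp
  | one => simpa using hL
  | more n h0 h1 =>
    have e : A ^ (n + 2) = A.trace • A ^ (n + 1) - A ^ n := by
      rw [pow_succ, pow_succ, mul_assoc, ch, mul_sub, mul_one, Matrix.mul_smul]
    rw [e, Matrix.trace_sub, Matrix.trace_smul, h0, h1, hL, smul_eq_mul]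
    have a1 := Real.cosh_add (((n + 1 : ℕ) : ℝ) * L) L
    have a2 := Real.cosh_sub (((n + 1 : ℕ) : ℝ) * L) L
    rw [show ((n + 1 : ℕ) : ℝ) * L + L = ((n + 2 : ℕ) : ℝ) * L by push_cast; ring] at a1
    rw [show ((n + 1 : ℕ) : ℝ) * L - L = (n : ℝ) * L by push_cast; ring] at a2
    linarith

lemma Rigid1_cosh {x : ℝ} (hx : 0 ≤ x) :
    Real.exp x ≤ 2 * Real.cosh x ∧ 2 * Real.cosh x ≤ 2 * Real.exp x := by
  have h1 := Real.exp_pos (-x)
  have h2 : Real.exp (-x) ≤ Real.exp x := Real.exp_le_exp.2 (by linarith)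
  rw [Real.cosh_eq]
  constructor <;> linarith

/-- Convexity of the translation length. -/
lemma kingman {A : ℝ → M2} (h : MLC A) (hd : ∀ t ∈ Set.Icc (0 : ℝ) 1, (A t).det = 1) :
    (∀ t ∈ Set.Icc (0 : ℝ) 1, 2 ≤ (A t).trace) ∧
      ConvexOn ℝ (Set.Icc (0 : ℝ) 1) fun t => Real.arcosh ((A t).trace / 2) := by
  have h2 : ∀ t ∈ Set.Icc (0 : ℝ) 1, 2 ≤ (A t).trace := fun t ht => by
    have e := hd t ht
    have a := (h 0 0).1 t ht
    have d := (h 1 1).1 t ht
    have bc := mul_nonneg ((h 0 1).1 t ht) ((h 1 0).1 t ht)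
    rw [Matrix.det_fin_two] at e
    rw [Matrix.trace_fin_two]
    refine le_of_sq_le_sq ?_ (add_nonneg a d)
    nlinarith [sq_nonneg (A t 0 0 - A t 1 1)]
  have h3 : ∀ t ∈ Set.Icc (0 : ℝ) 1, 1 ≤ (A t).trace / 2 := fun t ht => by linarith [h2 t ht]
  refine ⟨h2, convex_Icc 0 1, fun a ha b hb u θ hu hθ huθ => ?_⟩
  obtain rfl : u = 1 - θ := by linarith
  have hθ' : θ ∈ Set.Icc (0 : ℝ) 1 := ⟨hθ, by linarith⟩
  have hm := Rigid1_mem ha hb hθ'
  set L : ℝ → ℝ := fun t => Real.arcosh ((A t).trace / 2) with hL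
  show L ((1 - θ) * a + θ * b) ≤ (1 - θ) * L a + θ * L b
  have L0 : ∀ (n : ℕ), ∀ t ∈ Set.Icc (0 : ℝ) 1, 0 ≤ n * L t := fun n t ht =>
    mul_nonneg n.cast_nonneg (Real.arcosh_nonneg (h3 t ht))
  have hp : ∀ n : ℕ, MLC fun t => A t ^ n := fun n => by
    induction n with
    | zero => simpa only [pow_zero] using MLC.one
    | succ n ih => simpa only [pow_succ] using ih.mul h
  have hc : ∀ n : ℕ, LC fun t => 2 * Real.cosh (n * L t) := fun n =>
    (((hp n) 0 0).add ((hp n) 1 1)).congr fun t ht => by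
      rw [← Rigid1_tr_pow (hd t ht) (by rw [Real.cosh_arcosh (h3 t ht)]; ring) n,
        Matrix.trace_fin_two]
  have key : ∀ n : ℕ, n * (L ((1 - θ) * a + θ * b) - ((1 - θ) * L a + θ * L b)) ≤ 1 := by
    intro n
    have k1 := (Rigid1_cosh (L0 n _ hm)).1.trans ((hc n).2 a ha b hb θ hθ')
    have k2 := k1.trans (mul_le_mul
      (Real.rpow_le_rpow ((hc n).1 a ha) (Rigid1_cosh (L0 n a ha)).2 hu)
      (Real.rpow_le_rpow ((hc n).1 b hb) (Rigid1_cosh (L0 n b hb)).2 hθ)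
      (Real.rpow_nonneg ((hc n).1 b hb) _) (Real.rpow_nonneg (by positivity) _))
    rw [Rigid1_exp zero_le_two] at k2
    have k3 : (2 : ℝ) ≤ Real.exp 1 := by linarith [Real.add_one_le_exp (1 : ℝ)]
    have k4 := k2.trans (mul_le_mul_of_nonneg_right k3 (Real.exp_pos _).le)
    rw [← Real.exp_add, Real.exp_le_exp] at k4
    linarith
  by_contra hlt
  have hδ := sub_pos.2 (not_le.1 hlt)
  obtain ⟨n, hn⟩ := exists_nat_gt (1 / (L ((1 - θ) * a + θ * b) - ((1 - θ) * L a + θ * L b)))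
  exact absurd (key n) (not_le.2 ((div_lt_iff₀ hδ).1 hn))

lemma Rigid1_slope {f : ℝ → ℝ} {T : ℝ} (hT : 2 < T)
    (hc : ConvexOn ℝ (Set.Icc (0 : ℝ) 1) fun t => Real.arcosh (f t / 2)) (h0 : f 0 = T)
    (d0 : DifferentiableAt ℝ f 0) {y : ℝ} (y0 : 0 < y) (y1 : y ≤ 1) :
    (√((T / 2) ^ 2 - 1))⁻¹ / 2 * deriv f 0 * y ≤ Real.arcosh (f y / 2) - Real.arcosh (T / 2) := by
  have hd : HasDerivAt (fun t => Real.arcosh (f t / 2))
      ((√((f 0 / 2) ^ 2 - 1))⁻¹ * (deriv f 0 / 2)) 0 :=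
    HasDerivAt.comp (h₂ := Real.arcosh) (h := fun t => f t / 2) (0 : ℝ)
      (Real.hasDerivAt_arcosh (x := f 0 / 2) (by rw [h0]; exact Set.mem_Ioi.2 (by linarith)))
      (d0.hasDerivAt.div_const 2)
  have := hc.le_slope_of_hasDerivAt ⟨le_rfl, zero_le_one⟩ ⟨y0.le, y1⟩ y0 hd
  rw [slope_def_field, sub_zero, le_div_iff₀ y0, h0] at this
  linarith

lemma Rigid1_pos {T : ℝ} (hT : 2 < T) : 0 < (√((T / 2) ^ 2 - 1))⁻¹ / 2 :=
  half_pos (inv_pos.2 (Real.sqrt_pos.2 (by nlinarith)))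

lemma Rigid1_le {ι : Type*} {s : Finset ι} (hs : s.Nonempty) {f : ι → ℝ → ℝ} {T T' : ℝ}
    (hT : 2 < T) (hT' : 2 < T')
    (hc : ∀ i ∈ s, ConvexOn ℝ (Set.Icc (0 : ℝ) 1) fun t => Real.arcosh (f i t / 2))
    (h0 : ∀ i ∈ s, f i 0 = T) (h1 : ∀ i ∈ s, f i 1 = T')
    (d0 : ∀ i ∈ s, DifferentiableAt ℝ (f i) 0) {c : ι → ℝ} (p : ∀ i ∈ s, 0 < c i)
    (e : ∑ i ∈ s, c i * deriv (f i) 0 = 0) : T ≤ T' := by
  by_contra hlt
  have h3 : Real.arcosh (T' / 2) < Real.arcosh (T / 2) :=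
    (Real.arcosh_lt_arcosh (by linarith) (by linarith)).2 (by linarith [not_le.1 hlt])
  refine (sum_neg (fun i hi => mul_neg_of_pos_of_neg (p i hi) ?_) hs).ne e
  have := Rigid1_slope hT (hc i hi) (h0 i hi) (d0 i hi) one_pos le_rfl
  rw [h1 i hi, mul_one] at this
  exact neg_of_mul_neg_right (this.trans_lt (sub_neg.2 h3)) (Rigid1_pos hT).le

/-- Two critical endpoints force constant traces. -/
lemma tr_const {ι : Type*} {s : Finset ι} (hs : s.Nonempty) {f : ι → ℝ → ℝ} {T T' : ℝ}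
    (hT : 2 < T) (hT' : 2 < T') (h2 : ∀ i ∈ s, ∀ t ∈ Set.Icc (0 : ℝ) 1, 2 ≤ f i t)
    (hc : ∀ i ∈ s, ConvexOn ℝ (Set.Icc (0 : ℝ) 1) fun t => Real.arcosh (f i t / 2))
    (h0 : ∀ i ∈ s, f i 0 = T) (h1 : ∀ i ∈ s, f i 1 = T')
    (d0 : ∀ i ∈ s, DifferentiableAt ℝ (f i) 0)
    (d1 : ∀ i ∈ s, DifferentiableAt ℝ (fun t => f i (1 - t)) 0)
    {c c' : ι → ℝ} (p : ∀ i ∈ s, 0 < c i) (p' : ∀ i ∈ s, 0 < c' i)
    (e : ∑ i ∈ s, c i * deriv (f i) 0 = 0)
    (e' : ∑ i ∈ s, c' i * deriv (fun t => f i (1 - t)) 0 = 0) :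
    T = T' ∧ ∀ i ∈ s, f i (1 / 2) = T := by
  have hc' : ∀ i ∈ s, ConvexOn ℝ (Set.Icc (0 : ℝ) 1) fun t => Real.arcosh (f i (1 - t) / 2) := by
    refine fun i hi => ⟨convex_Icc 0 1, fun a ha b hb u v hu hv huv => ?_⟩
    have := (hc i hi).2 (x := 1 - a) ⟨by linarith [ha.2], by linarith [ha.1]⟩ (y := 1 - b)
      ⟨by linarith [hb.2], by linarith [hb.1]⟩ hu hv huv
    rwa [show u • (1 - a) + v • (1 - b) = 1 - (u • a + v • b) by
      simp only [smul_eq_mul]; linear_combination huv] at this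
  obtain rfl : T = T' := le_antisymm (Rigid1_le hs hT hT' hc h0 h1 d0 p e)
    (Rigid1_le (f := fun i t => f i (1 - t)) hs hT' hT hc' (by simpa using h1) (by simpa using h0)
      d1 p' e')
  refine ⟨rfl, fun i hi => ?_⟩
  have hK := Rigid1_pos hT
  have hz : c i * deriv (f i) 0 = 0 := by
    refine (sum_eq_zero_iff_of_nonpos fun j hj => mul_nonpos_of_nonneg_of_nonpos (p j hj).le ?_).1
      e i hi
    have := Rigid1_slope hT (hc j hj) (h0 j hj) (d0 j hj) one_pos le_rfl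
    rw [h1 j hj, mul_one, sub_self] at this
    exact nonpos_of_mul_nonpos_right this hK
  have k1 := Rigid1_slope hT (hc i hi) (h0 i hi) (d0 i hi) one_half_pos one_half_lt_one.le
  rw [(mul_eq_zero.1 hz).resolve_left (p i hi).ne', mul_zero, zero_mul, sub_nonneg] at k1
  have k2 := (hc i hi).2 (x := 0) ⟨le_rfl, zero_le_one⟩ (y := 1) ⟨zero_le_one, le_rfl⟩
    one_half_pos.le one_half_pos.le (add_halves 1)
  simp only [smul_eq_mul, mul_zero, zero_add, mul_one, h0 i hi, h1 i hi] at k2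
  have k3 := h2 i hi (1 / 2) ⟨one_half_pos.le, one_half_lt_one.le⟩
  have k4 := (Real.arcosh_le_arcosh (by linarith) (by linarith)).1 k1
  have k5 := (Real.arcosh_le_arcosh (x := f i (1 / 2) / 2) (y := T / 2) (by linarith)
    (by linarith)).1 (by linarith)
  linarith

end

end Pool.Agent.P.MP_d39174_gt

end

section
/-! The step matrices along an exponential path. -/

namespace Pool.Agent.P.MP_d39174_gt

open UpperHalfPlane MatrixGroups

noncomputable section

open Finset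

variable {D S : Type}

lemma rigid2_ne {X : ℝ} (h0 : 0 < X) (h : X ≠ 1) : 1 - X ^ 2 ≠ 0 := fun e =>
  h ((pow_eq_one_iff_of_nonneg h0.le two_ne_zero).1 (sub_eq_zero.1 e).symm)
lemma rigid2_pth {x : D → ℝ} (hx : ∀ d, 0 < x d) (ξ : D → ℝ) (t : ℝ) (d : D) : 0 < pth x ξ t d :=
  mul_pos (hx d) (Real.exp_pos _)
lemma rigid2_mJ (s s' y x : ℝ) :
    mJ s s' y x = !![x / y + s * (y * s' * x), s * (y / x); y * s' * x, y / x] := by
  simp [mJ]

lemma Pr_pos (φ : Equiv.Perm D) {x : D → ℝ} (hx : ∀ d, 0 < x d) (d : D) (i : ℕ) :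
    0 < Pr φ x d i := prod_pos fun _ _ => hx _
lemma Pr_succ (φ : Equiv.Perm D) (x : D → ℝ) (d : D) (i : ℕ) :
    Pr φ x d (i + 1) = Pr φ x d i * x ((φ ^ (i + 1)) d) := prod_range_succ _ _
lemma Pr_succ' (φ : Equiv.Perm D) (x : D → ℝ) (d : D) (i : ℕ) :
    Pr φ x d (i + 1) = x (φ d) * Pr φ x (φ d) i := by
  unfold Pr
  rw [prod_range_succ', mul_comm, zero_add, pow_one]
  simp only [pow_succ _ (_ + 1), Equiv.Perm.mul_apply]
lemma Pr_add (φ : Equiv.Perm D) (x : D → ℝ) (d : D) (i j : ℕ) :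
    Pr φ x d (i + j) = Pr φ x d i * Pr φ x ((φ ^ i) d) j := by
  unfold Pr
  rw [prod_range_add]
  refine congrArg _ (prod_congr rfl fun m _ => ?_)
  rw [← Equiv.Perm.mul_apply, ← pow_add, show m + 1 + i = i + m + 1 by omega]
lemma Pr_pth (φ : Equiv.Perm D) (x ξ : D → ℝ) (t : ℝ) (d : D) (i : ℕ) :
    Pr φ (pth x ξ t) d i =
      Pr φ x d i * Real.exp (t * ∑ m ∈ range i, ξ ((φ ^ (m + 1)) d)) := by
  simp only [Pr, pth]
  rw [prod_mul_distrib, mul_sum, Real.exp_sum]
lemma pth_zero (x ξ : D → ℝ) : pth x ξ 0 = x := by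
  funext d
  simp [pth]
lemma sig_pos (φ : Equiv.Perm D) {x : D → ℝ} (hx : ∀ d, 0 < x d) {d : D} {f : ℕ}
    (h : Pr φ x d f < 1) : 0 < sig φ x d f := by
  have h0 := Pr_pos φ hx d f
  refine div_pos (sum_pos (fun i _ => pow_pos (Pr_pos φ hx d i) 2) ?_) (by nlinarith)
  rcases f with _ | f
  · simp [Pr] at h
  · simp
/-- The recursion that characterises `sig`. -/
lemma sig_rec (φ : Equiv.Perm D) {x : D → ℝ} (hx : ∀ d, 0 < x d) {d : D} {f : ℕ}
    (h : Pr φ x d f ≠ 1) (hp : x ((φ ^ (f + 1)) d) = x (φ d)) :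
    sig φ x d f = 1 + x (φ d) ^ 2 * sig φ x (φ d) f := by
  have h1 : Pr φ x (φ d) f = Pr φ x d f := by
    have h2 := Pr_succ' φ x d f
    rw [Pr_succ, hp, mul_comm] at h2
    exact (mul_left_cancel₀ (hx _).ne' h2).symm
  have h2 : x (φ d) ^ 2 * ∑ i ∈ range f, Pr φ x (φ d) i ^ 2 =
      ∑ i ∈ range f, Pr φ x d i ^ 2 + Pr φ x d f ^ 2 - 1 := by
    rw [← sum_range_succ, sum_range_succ', mul_sum]
    simp only [Pr_succ', mul_pow]
    simp [Pr]
  have h3 := rigid2_ne (Pr_pos φ hx d f) h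
  rw [sig, sig, h1, ← mul_div_assoc, h2]
  field_simp
  ring
lemma sig_eq_of_rec (φ : Equiv.Perm D) {x s : D → ℝ} (hx : ∀ d, 0 < x d)
    (hs : ∀ d, s d = 1 + x (φ d) ^ 2 * s (φ d)) {d : D} {f : ℕ} (h : Pr φ x d f ≠ 1)
    (hp : s ((φ ^ f) d) = s d) : s d = sig φ x d f := by
  have key : ∀ n, s d = ∑ i ∈ range n, Pr φ x d i ^ 2 + Pr φ x d n ^ 2 * s ((φ ^ n) d) := by
    intro n
    induction n with
    | zero => simp [Pr]
    | succ n ih =>
      rw [sum_range_succ, Pr_succ, pow_succ' φ, Equiv.Perm.mul_apply, ih, hs ((φ ^ n) d)]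
      ring
  have h1 := key f
  rw [hp] at h1
  rw [sig, eq_div_iff (rigid2_ne (Pr_pos φ hx d f) h)]
  linear_combination h1
lemma differentiableAt_sig (φ : Equiv.Perm D) {x : D → ℝ} (hx : ∀ d, 0 < x d) (ξ : D → ℝ) {d : D}
    {f : ℕ} (h : Pr φ x d f ≠ 1) :
    DifferentiableAt ℝ (fun t => sig φ (pth x ξ t) d f) 0 := by
  simp only [sig, Pr_pth]
  refine DifferentiableAt.div (by fun_prop) (by fun_prop) ?_
  simpa using rigid2_ne (Pr_pos φ hx d f) h
lemma lc_sig (φ : Equiv.Perm D) {x : D → ℝ} (hx : ∀ d, 0 < x d) (ξ : D → ℝ) {d : D} {f : ℕ}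
    (h : ∀ t ∈ Set.Icc (0 : ℝ) 1, Pr φ (pth x ξ t) d f < 1) :
    LC fun t => sig φ (pth x ξ t) d f := by
  have e : ∀ t i, Pr φ (pth x ξ t) d i ^ 2 =
      Pr φ x d i ^ 2 * Real.exp (t * (2 * ∑ m ∈ range i, ξ ((φ ^ (m + 1)) d))) := fun t i => by
    rw [Pr_pth, mul_pow, ← Real.exp_nat_mul]
    congr 2
    push_cast
    ring
  simp only [sig, e, div_eq_mul_one_div (∑ i ∈ range f, _)]
  refine (LC.sum fun i _ => LC.exp (sq_nonneg _) _).mul (LC.geom (sq_nonneg _) fun t ht => ?_)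
  rw [← e]
  exact pow_lt_one₀ (Pr_pos φ (rigid2_pth hx ξ t) d f).le (h t ht) two_ne_zero

namespace Mdl

variable (M : Mdl D S)

lemma rigid2_tw {x y : D → ℝ} (hx : ∀ d, 0 < x d) (hy : ∀ d, 0 < y d) (s : S) : 0 < M.tw x y s :=
  mul_pos (mul_pos (hy _) (Pr_pos _ hx _ _)) (Pr_pos _ hx _ _)
lemma rigid2_tw_pth (x y ξ η : D → ℝ) (s : S) :
    ∃ k, ∀ t, M.tw (pth x ξ t) (pth y η t) s = M.tw x y s * Real.exp (t * k) := by
  refine ⟨η (M.base s) + ∑ m ∈ range (M.oi s), ξ ((M.φ ^ (m + 1)) (M.base s)) +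
    ∑ m ∈ range (M.oj s), ξ ((M.φ ^ (m + 1)) (M.κ (M.base s))), fun t => ?_⟩
  rw [tw, tw, Pr_pth, Pr_pth, pth, mul_add, mul_add, Real.exp_add, Real.exp_add]
  ring

lemma det_mat {x y : D → ℝ} (hx : ∀ d, 0 < x d) (hy : ∀ d, 0 < y d) (s : S) :
    (M.mat x y s).det = 1 := by
  have h1 := (M.rigid2_tw hx hy s).ne'
  have h2 := (hx (M.tgt s)).ne'
  have h3 := (hx (M.φ (M.bs s))).ne'
  have h4 := (hx (M.ψ (M.bs s))).ne'
  unfold mat
  split_ifs
  · simp [mA, Matrix.det_fin_two_of, h3]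
  · simp [mB, Matrix.det_fin_two_of, h4]
  · rw [rigid2_mJ, Matrix.det_fin_two_of]
    field_simp
    ring
lemma mat_pos {x y : D → ℝ} (hx : ∀ d, 0 < x d) (hy : ∀ d, 0 < y d)
    (h : ∀ d, Pr M.φ x d (M.per d) < 1) (s : S) :
    (∀ i j, 0 ≤ M.mat x y s i j) ∧ ∀ i, 0 < M.mat x y s i i := by
  have h1 := M.rigid2_tw hx hy s
  have h2 := hx (M.tgt s)
  have h3 := hx (M.φ (M.bs s))
  have h4 := hx (M.ψ (M.bs s))
  have h5 : 0 < M.sg x (M.bs s) := sig_pos _ hx (h _)
  have h6 : 0 < M.sg x (M.tgt s) := sig_pos _ hx (h _)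
  unfold mat
  split_ifs
  · refine ⟨fun i j => ?_, fun i => ?_⟩
    · fin_cases i <;> fin_cases j <;> simp [mA, h3.le]
    · fin_cases i <;> simp [mA, h3]
  · refine ⟨fun i j => ?_, fun i => ?_⟩
    · fin_cases i <;> fin_cases j <;> simp [mB, h4.le]
    · fin_cases i <;> simp [mB, h4]
  · rw [rigid2_mJ]
    refine ⟨fun i j => ?_, fun i => ?_⟩
    · fin_cases i <;> fin_cases j <;> simp <;> positivity
    · fin_cases i <;> simp <;> positivity
lemma mlc_mat {x y : D → ℝ} (hx : ∀ d, 0 < x d) (hy : ∀ d, 0 < y d) (ξ η : D → ℝ)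
    (h : ∀ t ∈ Set.Icc (0 : ℝ) 1, ∀ d, Pr M.φ (pth x ξ t) d (M.per d) < 1) (s : S) :
    MLC fun t => M.mat (pth x ξ t) (pth y η t) s := by
  have e1 : ∀ d, LC fun t => pth x ξ t d := fun d => LC.exp (hx d).le _
  have e2 : ∀ d, LC fun t => (pth x ξ t d)⁻¹ := fun d =>
    (LC.exp (inv_pos.2 (hx d)).le (-ξ d)).congr fun t _ => by
      rw [pth, mul_inv, ← Real.exp_neg, mul_neg]
  obtain ⟨k, hk⟩ := M.rigid2_tw_pth x y ξ η s
  have e3 : LC fun t => M.tw (pth x ξ t) (pth y η t) s :=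
    (LC.exp (M.rigid2_tw hx hy s).le k).congr fun t _ => hk t
  have e4 : LC fun t => (M.tw (pth x ξ t) (pth y η t) s)⁻¹ :=
    (LC.exp (inv_pos.2 (M.rigid2_tw hx hy s)).le (-k)).congr fun t _ => by
      rw [hk, mul_inv, ← Real.exp_neg, mul_neg]
  have e5 : ∀ d, LC fun t => M.sg (pth x ξ t) d := fun d => lc_sig _ hx ξ fun t ht => h t ht d
  have e0 : LC fun _ => 0 := LC.const le_rfl
  intro i j
  unfold mat
  split_ifs
  · fin_cases i <;> fin_cases j
    · simpa [mA] using e1 _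
    · simpa [mA] using e2 _
    · simpa [mA] using e0
    · simpa [mA] using e2 _
  · fin_cases i <;> fin_cases j
    · simpa [mB] using e1 _
    · simpa [mB] using e0
    · simpa [mB] using e1 _
    · simpa [mB] using e2 _
  · simp only [rigid2_mJ, div_eq_mul_inv]
    fin_cases i <;> fin_cases j
    · simpa using ((e1 _).mul e4).add ((e5 _).mul ((e3.mul (e5 _)).mul (e1 _)))
    · simpa using (e5 _).mul (e3.mul (e2 _))
    · simpa using (e3.mul (e5 _)).mul (e1 _)
    · simpa using e3.mul (e2 _)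
lemma differentiableAt_trW {x y : D → ℝ} (hx : ∀ d, 0 < x d) (hy : ∀ d, 0 < y d) (ξ η : D → ℝ)
    (h : ∀ d, Pr M.φ x d (M.per d) < 1) (s : S) :
    DifferentiableAt ℝ (fun t => M.trW (pth x ξ t) (pth y η t) s) 0 := by
  have e1 : ∀ d, DifferentiableAt ℝ (fun t => pth x ξ t d) 0 := fun d => by
    simp only [pth]
    fun_prop
  have e2 : ∀ d, DifferentiableAt ℝ (fun t => (pth x ξ t d)⁻¹) 0 := fun d =>
    (e1 d).inv (rigid2_pth hx ξ 0 d).ne'
  have e5 : ∀ d, DifferentiableAt ℝ (fun t => M.sg (pth x ξ t) d) 0 := fun d =>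
    differentiableAt_sig _ hx ξ (h d).ne
  have key : ∀ s i j, DifferentiableAt ℝ (fun t => M.mat (pth x ξ t) (pth y η t) s i j) 0 := by
    intro s i j
    obtain ⟨k, hk⟩ := M.rigid2_tw_pth x y ξ η s
    have e3 : DifferentiableAt ℝ (fun t => M.tw (pth x ξ t) (pth y η t) s) 0 := by
      simp only [hk]
      fun_prop
    have e4 : DifferentiableAt ℝ (fun t => (M.tw (pth x ξ t) (pth y η t) s)⁻¹) 0 :=
      e3.inv (M.rigid2_tw (rigid2_pth hx ξ 0) (rigid2_pth hy η 0) s).ne'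
    unfold mat
    split_ifs
    · fin_cases i <;> fin_cases j
      · simpa [mA] using e1 _
      · simpa [mA] using e2 _
      · simp [mA]
      · simpa [mA] using e2 _
    · fin_cases i <;> fin_cases j
      · simpa [mB] using e1 _
      · simp [mB]
      · simpa [mB] using e1 _
      · simpa [mB] using e2 _
    · simp only [rigid2_mJ, div_eq_mul_inv]
      fin_cases i <;> fin_cases j
      · simpa using ((e1 _).fun_mul e4).fun_add
          ((e5 _).fun_mul ((e3.fun_mul (e5 _)).fun_mul (e1 _)))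
      · simpa using (e5 _).fun_mul (e3.fun_mul (e2 _))
      · simpa using (e3.fun_mul (e5 _)).fun_mul (e1 _)
      · simpa using e3.fun_mul (e2 _)
  have key2 : ∀ p i j, DifferentiableAt ℝ
      (fun t => mprod (fun m => M.mat (pth x ξ t) (pth y η t) (M.nx^[m] s)) p i j) 0 := by
    intro p
    induction p with
    | zero => exact fun i j => differentiableAt_const _
    | succ p ih =>
      intro i j
      simp only [mprod, Matrix.mul_apply, Fin.sum_univ_two]
      exact ((ih _ _).fun_mul (key _ _ _)).fun_add ((ih _ _).fun_mul (key _ _ _))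
  simp only [trW, Matrix.trace_fin_two]
  exact (key2 _ _ _).fun_add (key2 _ _ _)

end Mdl

end

end Pool.Agent.P.MP_d39174_gt

end

section
/-! Two realisations of the same type are conjugate. -/

namespace Pool.Agent.P.MP_d39174_gt

open UpperHalfPlane MatrixGroups

noncomputable section

open Finset

/-- Equal values at `0`, `1 / 2` and `1`. -/
def RigidC (f : ℝ → ℝ) : Prop := f (1 / 2) = f 0 ∧ f 1 = f 0

lemma Rigid_half {f : ℝ → ℝ} (h : LC f) (e : f 1 = f 0) : f (1 / 2) ≤ f 0 := by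
  have h0 : (0 : ℝ) ∈ Set.Icc (0 : ℝ) 1 := ⟨le_rfl, zero_le_one⟩
  have h1 := h.2 0 h0 1 ⟨zero_le_one, le_rfl⟩ (1 / 2) ⟨by norm_num, by norm_num⟩
  rw [e, ← Real.rpow_add' (h.1 0 h0) (by norm_num)] at h1
  simpa using h1

lemma Rigid_split {m r : ℝ → ℝ} (hm : LC m) (hr : LC r) (h : RigidC fun t => m t + r t) :
    RigidC m ∧ RigidC r := by
  obtain ⟨h1, h2⟩ := h
  have e := (hm.split hr h1 h2).symm
  have e' : r 1 = r 0 := by linarith
  have a := Rigid_half hm e
  have b := Rigid_half hr e'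
  exact ⟨⟨by linarith, e⟩, by linarith, e'⟩

lemma Rigid_sum {s : Finset ℕ} {f : ℕ → ℝ → ℝ} (hf : ∀ i ∈ s, LC (f i))
    (h : RigidC fun t => ∑ i ∈ s, f i t) {i : ℕ} (hi : i ∈ s) : f i 1 = f i 0 := by
  simp only [← add_sum_erase s _ hi] at h
  exact (Rigid_split (hf i hi) (LC.sum fun j hj => hf j (mem_of_mem_erase hj)) h).1.2

lemma Rigid_root {a b : ℝ} (a0 : 0 < a) (a1 : a < 1) (b0 : 0 < b) (b1 : b < 1)
    (h : a + 1 / a = b + 1 / b) : a = b := by
  have h1 : (a - b) * (1 - a * b) = 0 := by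
    field_simp at h
    linear_combination -h
  have h2 : 0 < 1 - a * b := by nlinarith
  linarith [(mul_eq_zero.1 h1).resolve_right h2.ne']

lemma Rigid_two {a : ℝ} (a0 : 0 < a) (a1 : a < 1) : 2 < a + 1 / a := by
  rw [add_div' _ _ _ a0.ne', lt_div_iff₀ a0]
  nlinarith [mul_pos (sub_pos.2 a1) (sub_pos.2 a1)]

lemma Rigid_one {D : Type} {x x' : D → ℝ} (hx : ∀ d, 0 < x d) (hx' : ∀ d, 0 < x' d) :
    pth x (fun d => Real.log (x' d) - Real.log (x d)) 1 = x' := funext fun d => by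
  have := (hx d).ne'
  rw [pth, one_mul, Real.exp_sub, Real.exp_log (hx d), Real.exp_log (hx' d)]
  field_simp

lemma Rigid_rev {D : Type} (x ξ : D → ℝ) (t : ℝ) :
    pth (pth x ξ 1) (fun d => -ξ d) t = pth x ξ (1 - t) := funext fun d => by
  simp only [pth, mul_assoc, ← Real.exp_add]
  congr 2
  ring

lemma Rigid_pos {D : Type} {x : D → ℝ} (hx : ∀ d, 0 < x d) (ξ : D → ℝ) (t : ℝ) (d : D) :
    0 < pth x ξ t d := mul_pos (hx d) (Real.exp_pos _)

variable {D S : Type} [Fintype D] [Fintype S]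

omit [Fintype D] in
/-- The traces are constant along the path that joins two realisations. -/
lemma Rigid_tr (M : Mdl D S) [Nonempty D] {x y ξ η : D → ℝ} {T T' : ℝ} (h : M.Real x y T)
    (h' : M.Real (pth x ξ 1) (pth y η 1) T') (hξ : ∀ d, ξ (M.ι d) = ξ d)
    (hη : ∀ d, η (M.κ d) = η d) :
    (∀ t d, Pr M.φ (pth x ξ t) d (M.per d) = Pr M.φ x d (M.per d)) ∧
      ∀ s, M.on s → RigidC fun t => M.trW (pth x ξ t) (pth y η t) s := by
  classical
  obtain ⟨d₀⟩ := ‹Nonempty D›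
  have hX : ∀ d, Pr M.φ x d (M.per d) = Pr M.φ x d₀ (M.per d₀) := fun d =>
    Rigid_root (Pr_pos _ h.x_pos _ _) (h.lt d) (Pr_pos _ h.x_pos _ _) (h.lt d₀)
      ((h.fan d).trans (h.fan d₀).symm)
  have hX' : ∀ d, Pr M.φ (pth x ξ 1) d (M.per d) = Pr M.φ (pth x ξ 1) d₀ (M.per d₀) := fun d =>
    Rigid_root (Pr_pos _ h'.x_pos _ _) (h'.lt d) (Pr_pos _ h'.x_pos _ _) (h'.lt d₀)
      ((h'.fan d).trans (h'.fan d₀).symm)
  obtain ⟨μ, hμ⟩ : ∃ μ, ∀ d, ∑ m ∈ range (M.per d), ξ ((M.φ ^ (m + 1)) d) = μ :=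
    ⟨_, fun d => by
      have a := hX' d
      rw [Pr_pth, Pr_pth, hX d, one_mul, one_mul] at a
      exact Real.exp_injective (mul_left_cancel₀ (Pr_pos _ h.x_pos _ _).ne' a)⟩
  have hlt : ∀ t ∈ Set.Icc (0 : ℝ) 1, ∀ d, Pr M.φ (pth x ξ t) d (M.per d) < 1 := fun t ht d => by
    have a := h'.lt d
    have b := Pr_pos M.φ h.x_pos d (M.per d)
    rw [Pr_pth, hμ] at a ⊢
    rcases le_total μ 0 with c | c
    · refine lt_of_le_of_lt ?_ (h.lt d)
      exact mul_le_of_le_one_right b.le (Real.exp_le_one_iff.2 (mul_nonpos_of_nonneg_of_nonpos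
        ht.1 c))
    · exact lt_of_le_of_lt (mul_le_mul_of_nonneg_left (Real.exp_le_exp.2
        (mul_le_mul_of_nonneg_right ht.2 c)) b.le) a
  have hk := fun s => kingman (MLC.mprod (fun m => M.mlc_mat h.x_pos h.y_pos ξ η hlt (M.nx^[m] s))
    (Function.minimalPeriod M.nx s)) fun t _ => det_mprod (fun m =>
      M.det_mat (Rigid_pos h.x_pos ξ t) (Rigid_pos h.y_pos η t) _) _
  obtain ⟨c, p, e⟩ := h.crit
  obtain ⟨c', p', e'⟩ := h'.crit
  have e1 := e' (fun d => -ξ d) (fun d => -η d) (-μ) (fun d => by rw [hξ]) (fun d => by rw [hη])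
    fun d => by rw [sum_neg_distrib, hμ]
  have d1 := M.differentiableAt_trW h'.x_pos h'.y_pos (fun d => -ξ d) (fun d => -η d) h'.lt
  simp only [Rigid_rev] at e1 d1
  obtain ⟨i, hi⟩ := h.base_ex d₀
  obtain ⟨s₀, hs₀, -⟩ := h.cover _ hi
  obtain ⟨eT, e2⟩ := tr_const (s := univ.filter fun s => M.on s)
    (f := fun s t => M.trW (pth x ξ t) (pth y η t) s) (T := T) (T' := T')
    ⟨s₀, mem_filter.2 ⟨mem_univ _, hs₀⟩⟩
    (h.fan d₀ ▸ Rigid_two (Pr_pos _ h.x_pos _ _) (h.lt d₀))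
    (h'.fan d₀ ▸ Rigid_two (Pr_pos _ h'.x_pos _ _) (h'.lt d₀)) (fun s _ => (hk s).1)
    (fun s _ => (hk s).2) (fun s hs => by rw [pth_zero, pth_zero, h.tr s (mem_filter.1 hs).2])
    (fun s hs => h'.tr s (mem_filter.1 hs).2)
    (fun s _ => M.differentiableAt_trW h.x_pos h.y_pos ξ η h.lt s) (fun s _ => d1 s)
    (fun s hs => p s (mem_filter.1 hs).2) (fun s hs => p' s (mem_filter.1 hs).2)
    (e ξ η μ hξ hη hμ) e1
  have a := Rigid_root (Pr_pos _ h'.x_pos _ _) (h'.lt d₀) (Pr_pos _ h.x_pos _ _) (h.lt d₀)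
    ((h'.fan d₀).trans (eT.symm.trans (h.fan d₀).symm))
  rw [Pr_pth, hμ, one_mul, mul_eq_left₀ (Pr_pos _ h.x_pos _ _).ne', Real.exp_eq_one_iff] at a
  refine ⟨fun t d => by rw [Pr_pth, hμ, a, mul_zero, Real.exp_zero, mul_one], fun s hs => ?_⟩
  have b : M.trW (pth x ξ 0) (pth y η 0) s = T := by rw [pth_zero, pth_zero, h.tr s hs]
  exact ⟨(e2 s (mem_filter.2 ⟨mem_univ _, hs⟩)).trans b.symm,
    (h'.tr s hs).trans (eT.symm.trans b.symm)⟩

lemma Rigid_key (M : Mdl D S) {x y ξ η : D → ℝ} {T : ℝ} (h : M.Real x y T)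
    (hX : ∀ t d, Pr M.φ (pth x ξ t) d (M.per d) = Pr M.φ x d (M.per d)) {s : S} (hs : M.on s)
    (hk : M.kd s = 2) (hC : RigidC fun t => M.trW (pth x ξ t) (pth y η t) s) :
    (∀ d, M.φ.SameCycle (M.base s) d → pth x ξ 1 d = x d) ∧
      (pth x ξ 1 = x → pth y η 1 (M.base s) = y (M.base s)) := by
  classical
  have hlt : ∀ t d, Pr M.φ (pth x ξ t) d (M.per d) < 1 := fun t d => (hX t d).symm ▸ h.lt d
  have px := Rigid_pos h.x_pos ξ
  have py := Rigid_pos h.y_pos η
  obtain ⟨q, hq⟩ := Nat.exists_eq_succ_of_ne_zero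
    (Function.minimalPeriod_pos_of_mem_periodicPts (h.periodic s hs)).ne'
  obtain ⟨R, hR⟩ : ∃ R : ℝ → M2, R = fun t =>
      mprod (fun m => M.mat (pth x ξ t) (pth y η t) (M.nx^[m + 1] s)) q := ⟨_, rfl⟩
  have lR : MLC R := hR ▸ MLC.mprod (fun m =>
    M.mlc_mat h.x_pos h.y_pos ξ η (fun t _ => hlt t) (M.nx^[m + 1] s)) q
  have pR : ∀ t, 0 < R t 0 0 := fun t => hR ▸ (mprod_diag_pos
    (fun m => (M.mat_pos (px t) (py t) (hlt t) _).1)
    (fun m => (M.mat_pos (px t) (py t) (hlt t) _).2) q).2 0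
  have lA := M.mlc_mat h.x_pos h.y_pos ξ η (fun t _ => hlt t) s
  have e1 : ∀ t, M.trW (pth x ξ t) (pth y η t) s =
      M.mat (pth x ξ t) (pth y η t) s 0 0 * R t 0 0 +
        (M.mat (pth x ξ t) (pth y η t) s 0 1 * R t 1 0 +
          M.mat (pth x ξ t) (pth y η t) s 1 0 * R t 0 1 +
          M.mat (pth x ξ t) (pth y η t) s 1 1 * R t 1 1) := fun t => by
    rw [Mdl.trW, hq, mprod_succ', hR]
    simp only [Matrix.trace_fin_two, Matrix.mul_apply, Fin.sum_univ_two, Function.iterate_zero,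
      id_eq]
    ring
  simp only [e1] at hC
  have c1 := (Rigid_split ((lA 0 0).mul (lR 0 0)) ((((lA 0 1).mul (lR 1 0)).add
    ((lA 1 0).mul (lR 0 1))).add ((lA 1 1).mul (lR 1 1))) hC).1
  obtain ⟨k, hw⟩ : ∃ k, ∀ t, M.tw (pth x ξ t) (pth y η t) s = M.tw x y s * Real.exp (t * k) :=
    ⟨η (M.base s) + ∑ m ∈ range (M.oi s), ξ ((M.φ ^ (m + 1)) (M.base s)) +
      ∑ m ∈ range (M.oj s), ξ ((M.φ ^ (m + 1)) (M.κ (M.base s))), fun t => by
        simp only [Mdl.tw, Pr_pth, mul_add, Real.exp_add]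
        rw [pth]
        ring⟩
  have pw : 0 < M.tw x y s :=
    mul_pos (mul_pos (h.y_pos _) (Pr_pos _ h.x_pos _ _)) (Pr_pos _ h.x_pos _ _)
  have pG : 0 < 1 / (1 - Pr M.φ x (M.bs s) (M.per (M.bs s)) ^ 2) :=
    one_div_pos.2 (sub_pos.2 (pow_lt_one₀ (Pr_pos _ h.x_pos _ _).le (h.lt _) two_ne_zero))
  obtain ⟨A, hA⟩ : ∃ A : ℝ → ℝ, A = fun t => 1 / (1 - Pr M.φ x (M.bs s) (M.per (M.bs s)) ^ 2) *
      (M.tw x y s * Real.exp (t * k)) * M.sg (pth x ξ t) (M.tgt s) * pth x ξ t (M.tgt s) *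
        R t 0 0 := ⟨_, rfl⟩
  have lA' : LC A := hA ▸ ((((LC.const pG.le).mul (LC.exp pw.le k)).mul
    (lc_sig M.φ h.x_pos ξ fun t _ => hlt t _)).mul (LC.exp (h.x_pos _).le _)).mul (lR 0 0)
  have pA : 0 < A 0 := hA ▸ mul_pos (mul_pos (mul_pos (mul_pos pG (mul_pos pw (Real.exp_pos _)))
    (sig_pos M.φ (px 0) (hlt 0 _))) (px 0 _)) (pR 0)
  have e2 : ∀ t, M.mat (pth x ξ t) (pth y η t) s 0 0 * R t 0 0 =
      x (M.tgt s) / M.tw x y s * Real.exp (t * (ξ (M.tgt s) - k)) * R t 0 0 +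
        ∑ i ∈ range (M.per (M.bs s)), Pr M.φ (pth x ξ t) (M.bs s) i *
          Pr M.φ (pth x ξ t) (M.bs s) i * A t := fun t => by
    have a : M.sg (pth x ξ t) (M.bs s) = (∑ i ∈ range (M.per (M.bs s)),
        Pr M.φ (pth x ξ t) (M.bs s) i * Pr M.φ (pth x ξ t) (M.bs s) i) *
          (1 / (1 - Pr M.φ x (M.bs s) (M.per (M.bs s)) ^ 2)) := by
      rw [Mdl.sg, sig, hX, mul_one_div]
      simp only [sq]
    have b : pth x ξ t (M.tgt s) / (M.tw x y s * Real.exp (t * k)) =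
        x (M.tgt s) / M.tw x y s * Real.exp (t * (ξ (M.tgt s) - k)) := by
      rw [pth, mul_sub, Real.exp_sub, div_mul_div_comm]
    rw [← sum_mul, Mdl.mat, if_neg (by rw [hk]; decide), if_neg (by rw [hk]; decide), hw, a, hA,
      ← b]
    simp only [mJ, Matrix.mul_apply, Fin.sum_univ_two, Matrix.of_apply, Matrix.cons_val_zero,
      Matrix.cons_val_one, Matrix.cons_val', Matrix.cons_val_fin_one]
    ring
  have lP : ∀ i, LC fun t => Pr M.φ (pth x ξ t) (M.bs s) i := fun i =>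
    (LC.exp (Pr_pos M.φ h.x_pos (M.bs s) i).le _).congr fun t _ => Pr_pth _ _ _ _ _ _
  simp only [e2] at c1
  obtain ⟨c2, c3⟩ := Rigid_split ((LC.exp (div_pos (h.x_pos _) pw).le _).mul (lR 0 0))
    (LC.sum fun i _ => ((lP i).mul (lP i)).mul lA') c1
  have c4 := fun i (hi : i < M.per (M.bs s)) =>
    Rigid_sum (fun i _ => ((lP i).mul (lP i)).mul lA') c3 (mem_range.2 hi)
  have p0 : 0 < M.per (M.bs s) := Nat.pos_of_ne_zero fun e => by
    have := h.lt (M.bs s)
    simp [e, Pr] at this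
  have c5 : A 1 = A 0 := by simpa [Pr] using c4 0 p0
  have c6 : ∀ i ≤ M.per (M.bs s), Pr M.φ (pth x ξ 1) (M.bs s) i = Pr M.φ x (M.bs s) i :=
    fun i hi => by
      rcases hi.eq_or_lt with rfl | hi
      · exact hX _ _
      · have a := c4 i hi
        simp only [c5, pth_zero] at a
        exact (mul_self_inj_of_nonneg (Pr_pos _ (px 1) _ _).le (Pr_pos _ h.x_pos _ _).le).1
          (mul_right_cancel₀ pA.ne' a)
  refine ⟨fun d hd => ?_, fun e => ?_⟩
  · have a : M.φ.SameCycle (M.φ (M.bs s)) d := by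
      rw [Mdl.base, inv_pow, Equiv.Perm.inv_def, ← Equiv.Perm.inv_def, ← zpow_natCast,
        ← zpow_neg, Equiv.Perm.sameCycle_zpow_left] at hd
      exact Equiv.Perm.sameCycle_apply_left.2 hd
    obtain ⟨n, -, rfl⟩ := a.exists_pow_eq'
    have b : (M.φ ^ n) (M.φ (M.bs s)) = (M.φ ^ (n % M.per (M.bs s) + 1)) (M.bs s) := by
      rw [← Equiv.Perm.mul_apply, ← pow_succ, pow_succ', pow_succ', Equiv.Perm.mul_apply,
        Equiv.Perm.mul_apply, Equiv.Perm.coe_pow, Equiv.Perm.coe_pow, Mdl.per,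
        Function.iterate_mod_minimalPeriod_eq]
    have c := Nat.mod_lt n p0
    have d := c6 _ (Nat.succ_le_of_lt c)
    rw [Pr_succ, Pr_succ, c6 _ c.le] at d
    rw [b]
    exact mul_left_cancel₀ (Pr_pos _ h.x_pos _ _).ne' d
  · have a := c2.2
    have b := hw 1
    have hξ : ξ (M.tgt s) = 0 := by
      have := congrFun e (M.tgt s)
      rwa [pth, one_mul, mul_eq_left₀ (h.x_pos _).ne', Real.exp_eq_one_iff] at this
    rw [hA] at c5
    simp only [e, pth_zero, one_mul, zero_mul, Real.exp_zero, mul_one, hξ, zero_sub] at a b c5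
    have s1 := (sig_pos M.φ h.x_pos (h.lt (M.tgt s))).ne'
    have s2 := (h.x_pos (M.tgt s)).ne'
    have a1 : Real.exp (-k) * R 1 0 0 = R 0 0 0 :=
      mul_left_cancel₀ (div_pos (h.x_pos (M.tgt s)) pw).ne' (by rw [← a, mul_assoc])
    have a2 : Real.exp k * R 1 0 0 = R 0 0 0 :=
      mul_left_cancel₀ (mul_ne_zero (mul_ne_zero (mul_ne_zero pG.ne' pw.ne') s1) s2)
        (by rw [Mdl.sg] at c5; linear_combination c5)
    have a3 := Real.exp_injective (mul_right_cancel₀ (pR 1).ne' (a1.trans a2.symm))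
    have a4 : k = 0 := by linarith
    rw [a4, Real.exp_zero, mul_one, Mdl.tw, Mdl.tw] at b
    exact mul_right_cancel₀ (Pr_pos _ h.x_pos _ _).ne'
      (mul_right_cancel₀ (Pr_pos _ h.x_pos _ _).ne' b)

theorem Mdl.rigid (M : Mdl D S) {x y x' y' : D → ℝ} {T T' : ℝ} (h : M.Real x y T)
    (h' : M.Real x' y' T') : x = x' ∧ ∀ β, M.κ β ≠ β → y β = y' β := by
  rcases isEmpty_or_nonempty D with hD | hD
  · exact ⟨funext fun d => hD.elim d, fun d => hD.elim d⟩
  have ex := Rigid_one h.x_pos h'.x_pos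
  have ey := Rigid_one h.y_pos h'.y_pos
  have hξ : ∀ d, Real.log (x' (M.ι d)) - Real.log (x (M.ι d)) = Real.log (x' d) - Real.log (x d) :=
    fun d => by rw [h.x_ι, h'.x_ι]
  have hη : ∀ d, Real.log (y' (M.κ d)) - Real.log (y (M.κ d)) = Real.log (y' d) - Real.log (y d) :=
    fun d => by rw [h.y_κ, h'.y_κ]
  obtain ⟨a, b⟩ := Rigid_tr M h (ex.symm ▸ ey.symm ▸ h') hξ hη
  have e : x' = x := funext fun d => by
    obtain ⟨i, hi⟩ := h.base_ex d
    obtain ⟨s, h1, h2, h3⟩ := h.cover _ hi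
    have := (Rigid_key M h a h1 h2 (b s h1)).1 d (by
      rw [h3]
      exact Equiv.Perm.sameCycle_pow_left.2 (Equiv.Perm.SameCycle.refl _ _))
    rwa [ex] at this
  refine ⟨e.symm, fun β hβ => ?_⟩
  obtain ⟨s, h1, h2, rfl⟩ := h.cover _ hβ
  have := (Rigid_key M h a h1 h2 (b s h1)).2 (ex.trans e)
  rw [ey] at this
  exact this.symm

omit [Fintype D] [Fintype S] in
lemma Rigid_reach (M : Mdl D S) {x y y' : D → ℝ} (e : ∀ β, M.κ β ≠ β → y β = y' β) {d₀ d : D}
    {g : SL(2, ℝ)} (h : M.Reach x y d₀ d g) : M.Reach x y' d₀ d g := by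
  induction h with
  | base => exact .base
  | neg _ ih => exact .neg ih
  | nu _ ih => exact .nu ih
  | io _ ih => exact .io ih
  | ka hd _ ih => exact e _ hd ▸ .ka hd ih

theorem Mdl.cls_eq (M : Mdl D S) [Nonempty D] {x y x' y' : D → ℝ} {T T' : ℝ} (h : M.Real x y T)
    (h' : M.Real x' y' T') {Γ Γ' : Subgroup SL(2, ℝ)} (g : M.Gen Γ x y) (g' : M.Gen Γ' x' y') :
    cls Γ = cls Γ' := by
  obtain ⟨rfl, e⟩ := M.rigid h h'
  obtain ⟨d₀⟩ := ‹Nonempty D›
  obtain ⟨F, hF⟩ := g d₀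
  obtain ⟨F', hF'⟩ := g' d₀
  refine (cls_eq_of_conj (M := F' * F⁻¹) fun γ => ?_).symm
  have : F⁻¹ * ((F' * F⁻¹)⁻¹ * γ * (F' * F⁻¹)) * F = F'⁻¹ * γ * F' := by group
  rw [hF, hF', this]
  exact ⟨Rigid_reach M fun β hβ => (e β hβ).symm, Rigid_reach M e⟩

end

end Pool.Agent.P.MP_d39174_gt

end

section
/-! Reduction of a type to canonical form. -/

namespace Pool.Agent.P.MP_d39174_gt

open UpperHalfPlane MatrixGroups

noncomputable section

open Equiv Equiv.Perm Finset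

private lemma part_inv {D : Type} [Fintype D] [DecidableEq D] {j t : Perm D}
    (hj : ∀ x, j (j x) = x) (h : ∀ x, t x = x ∨ t x = j x) (ht : ∀ x, t (t x) = x) :
    (∀ x, t (j x) = j (t x)) ∧ (∀ x, (j * t) ((j * t) x) = x) ∧
      (j * t).support.card + t.support.card = j.support.card := by
  have c : ∀ x, t (j x) = j (t x) := by
    intro x
    rcases h x with e | e
    · rw [e]
      rcases h (j x) with e' | e'
      · exact e'
      · have := congrArg t e'
        rw [ht, hj, e] at this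
        rw [e', hj, this]
    · rw [e, hj, ← e, ht]
  refine ⟨c, fun x => by simp only [Perm.mul_apply]; rw [c, hj, ht], ?_⟩
  rw [← card_union_of_disjoint]
  · congr 1
    ext x
    simp only [mem_union, mem_support, Perm.mul_apply]
    rcases h x with e | e
    · rw [e]; simp
    · rw [e, hj]; simp
  · rw [Finset.disjoint_left]
    intro x h1 h2
    rw [mem_support] at h1 h2
    rcases h x with e | e
    · exact h2 e
    · exact h1 (by rw [Perm.mul_apply, e, hj])

private lemma card_supp_congr {D E : Type} [Fintype D] [DecidableEq D] [Fintype E] [DecidableEq E]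
    (e : D ≃ E) (σ : Perm D) : (e.permCongr σ).support.card = σ.support.card := by
  refine (card_equiv e fun x => ?_).symm
  simp [mem_support]

private lemma congr_mul {D E : Type} (e : D ≃ E) (σ τ : Perm D) :
    e.permCongr (σ * τ) = e.permCongr σ * e.permCongr τ := by
  ext x; simp

lemma exists_lab {D : Type} [Fintype D] [DecidableEq D] [Nonempty D] {ι ν : Perm D}
    (h1 : ∀ d, ι (ι d) = d) (h2 : ∀ d, ι d ≠ d) (h3 : ∀ d, ν (ν (ν d)) = d) (h4 : ∀ d, ν d ≠ d)
    (h : ∀ U : Set D, (∀ d ∈ U, ι d ∈ U) → (∀ d ∈ U, ν d ∈ U) → U.Nonempty → U = Set.univ) :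
    ∃ (e : D ≃ Fin (Fintype.card D)) (r : ℕ),
      6 * r + 6 * cyc (ι * ν * ν) = Fintype.card D + 12 ∧
        Lab _ r (e.permCongr ι) (e.permCongr ν) := by
  obtain ⟨jT, a1, a2, a3, a4⟩ := exists_tree ν ι h1 fun U u1 u2 => h U u2 u1
  obtain ⟨p1, p2, p3⟩ := part_inv h1 a1 a2
  obtain ⟨jS, b1, b2, b3, b4⟩ := exists_tree (ν * ι) (ι * jT) p2 (by
    intro U u1 u2 ⟨x, hx⟩
    have u3 : ∀ d ∈ U, (ν * jT) d ∈ U := by
      intro d hd
      have := u1 _ (u2 d hd)
      simpa only [Perm.mul_apply, h1] using this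
    have u4 : ∀ i : ℕ, ((ν * jT) ^ i) x ∈ U := by
      intro i
      induction i with
      | zero => simpa using hx
      | succ i ih => rw [pow_succ', Perm.mul_apply]; exact u3 _ ih
    refine Set.eq_univ_of_forall fun y => ?_
    obtain ⟨i, -, e⟩ := ((cyc_eq_one_iff _).1 a3 x y).exists_pow_eq'
    exact e ▸ u4 i)
  obtain ⟨q1, q2, q3⟩ := part_inv p2 b1 b2
  obtain ⟨e, he⟩ := exists_rotate a3
  obtain ⟨r, hr⟩ : 2 ∣ (ι * jT * jS).support.card :=
    two_dvd_card_support (by ext x; simpa [pow_two] using q2 x)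
  have n1 : ι.support.card = Fintype.card D := by
    rw [← card_univ]; congr 1; ext x; simp [h2]
  have n2 := three_mul_cyc h3 h4
  have n3 : cyc (ι * ν * ν) = cyc (ν * ι) := by
    rw [← cyc_inv (ν * ι)]
    congr 1
    rw [eq_inv_iff_mul_eq_one]
    ext x
    simp only [Perm.mul_apply, h3, h1, Perm.one_apply]
  have e1 : ν * jT * jT = ν := by ext x; simp only [Perm.mul_apply, a2]
  have e2 : ν * jT * (ι * jT * jS) = ν * ι * jS := by
    ext x; simp only [Perm.mul_apply, p1, a2]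
  have e3 : ν * ι * jS * jS = ν * ι := by ext x; simp only [Perm.mul_apply, b2]
  have e4 : jT * jS * (ι * jT * jS) = ι := by
    ext x
    have := q1 (jS x)
    simp only [Perm.mul_apply] at this ⊢
    rw [this, b2, p1, a2]
  have inv : ∀ σ : Perm D, (∀ x, σ (σ x) = x) → ∀ x, e.permCongr σ (e.permCongr σ x) = x := by
    intro σ hσ x; simp [hσ]
  refine ⟨e, r, by omega, e.permCongr jT, e.permCongr jS, e.permCongr (ι * jT * jS),
    ⟨inv _ a2, ?_⟩, inv _ q2, ?_, ?_, ⟨inv _ b2, ?_⟩, ?_, ?_⟩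
  · rw [card_supp_congr, ← he, ← congr_mul, e1, cyc_permCongr, a4]
  · rw [card_supp_congr, hr]
  · rw [← he, ← congr_mul, e2, cyc_permCongr, b3]
  · rw [card_supp_congr, ← he, ← congr_mul, ← congr_mul, e2, e3, cyc_permCongr, b4]
  · rw [← he, ← congr_mul, e1]
  · rw [← congr_mul, ← congr_mul, e4]

variable {D S : Type} [Fintype D] [Fintype S]

private lemma sum_fib {M : Mdl D S} {k m₀ D₀ : ℕ} (h : M.Shape k m₀ D₀) (f : S → ℕ) (g : D → ℕ)
    (h0 : ∀ s, M.on s → M.kd s ≠ 2 → f s = 0)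
    (h2 : ∀ s, M.on s → M.kd s = 2 → f s ≤ g (M.base s)) :
    ∑ s ∈ univ.filter (fun s => M.on s), f s ≤
      D₀ * ∑ β ∈ @filter D (fun β => M.κ β ≠ β) (fun _ => Classical.propDecidable _) univ, g β := by
  classical
  have e1 : ∑ s ∈ univ.filter (fun s => M.on s), f s =
      ∑ s ∈ univ.filter (fun s => M.on s ∧ M.kd s = 2), f s := by
    refine (sum_subset (fun s hs => ?_) fun s hs hs' => ?_).symm
    · simp only [mem_filter, mem_univ, true_and] at hs ⊢; exact hs.1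
    · simp only [mem_filter, mem_univ, true_and] at hs hs'
      exact h0 s hs fun e => hs' ⟨hs, e⟩
  have e2 := sum_fiberwise_of_maps_to (s := univ.filter fun s => M.on s ∧ M.kd s = 2)
    (t := @filter D (fun β => M.κ β ≠ β) (fun _ => Classical.propDecidable _) univ) (g := M.base)
    (fun s hs => by
      simp only [mem_filter, mem_univ, true_and] at hs ⊢
      exact (h.jump s hs.1 hs.2).1) f
  rw [e1, ← e2, mul_sum]
  refine sum_le_sum fun β _ => ?_
  refine (sum_le_card_nsmul _ _ (g β) fun s hs => ?_).trans ?_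
  · simp only [mem_filter, mem_univ, true_and] at hs
    exact hs.2 ▸ h2 s hs.1.1 hs.1.2
  · rw [smul_eq_mul]
    refine Nat.mul_le_mul_right _ (le_trans (card_le_card fun s hs => ?_) (h.fib2 β))
    simp only [mem_filter, mem_univ, true_and] at hs ⊢
    exact ⟨hs.1.1, hs.1.2, hs.2⟩

lemma Mdl.Shape.sum_le {M : Mdl D S} {k m₀ D₀ : ℕ} (h : M.Shape k m₀ D₀) :
    ∑ s ∈ univ.filter (fun s => M.on s), M.oi s ≤ D₀ * Fintype.card D ∧
      ∑ s ∈ univ.filter (fun s => M.on s), M.oj s ≤ D₀ * m₀ * Fintype.card D := by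
  classical
  have key : ∑ β ∈ univ.filter (fun β => M.κ β ≠ β), M.per β ≤ Fintype.card D :=
    sum_minimalPeriod_le fun a ha b hb =>
      h.base_uniq a b (mem_filter.1 ha).2 (mem_filter.1 hb).2
  have key2 : ∑ β ∈ univ.filter (fun β => M.κ β ≠ β), M.per (M.κ β) =
      ∑ β ∈ univ.filter (fun β => M.κ β ≠ β), M.per β := by
    refine sum_equiv M.κ (fun β => ?_) fun _ _ => rfl
    simp only [mem_filter, mem_univ, true_and, h.κ_κ]
    exact ne_comm
  constructor
  · refine (sum_fib h M.oi M.per (fun s a b => (h.off s a b).1)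
      fun s a b => (h.jump s a b).2.1).trans (Nat.mul_le_mul_left _ ?_)
    convert key
  · refine (sum_fib h M.oj (fun β => m₀ * M.per (M.κ β)) (fun s a b => (h.off s a b).2)
      fun s a b => (h.jump s a b).2.2).trans ?_
    rw [mul_assoc, ← mul_sum]
    refine Nat.mul_le_mul_left _ (Nat.mul_le_mul_left _ ?_)
    rw [← key2] at key
    convert key

end

end Pool.Agent.P.MP_d39174_gt

end

section
/-! Transport of a realised type to canonical form. -/

namespace Pool.Agent.P.MP_d39174_gt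

open UpperHalfPlane MatrixGroups

noncomputable section

open Equiv Equiv.Perm Finset

private lemma mp_semiconj {A A' : Type} {g : A → A'} {f : A → A} {f' : A' → A'}
    (hg : Function.Injective g) (h : Function.Semiconj g f f') (a : A) :
    Function.minimalPeriod f' (g a) = Function.minimalPeriod f a := by
  rw [Function.minimalPeriod_eq_minimalPeriod_iff]
  intro n
  unfold Function.IsPeriodicPt Function.IsFixedPt
  rw [← (h.iterate_right n).eq a, hg.eq_iff]

/-- The darts of two types correspond under `e`. -/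
private structure Dic {D S D' S' : Type} (M : Mdl D S) (M' : Mdl D' S') (e : D ≃ D') : Prop where
  ι : ∀ d, M'.ι (e d) = e (M.ι d)
  ν : ∀ d, M'.ν (e d) = e (M.ν d)
  κ : ∀ d, M'.κ (e d) = e (M.κ d)

section

variable {D S D' S' : Type} {M : Mdl D S} {M' : Mdl D' S'} {e : D ≃ D'}

private lemma Dic.symm (h : Dic M M' e) : Dic M' M e.symm :=
  ⟨fun d => e.injective (by rw [← h.ι]; simp), fun d => e.injective (by rw [← h.ν]; simp),
    fun d => e.injective (by rw [← h.κ]; simp)⟩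

private lemma Dic.φ (h : Dic M M' e) (d : D) : M'.φ (e d) = e (M.φ d) := by
  simp only [Mdl.φ, Perm.mul_apply, h.ν, h.ι]

private lemma Dic.ψ (h : Dic M M' e) (d : D) : M'.ψ (e d) = e (M.ψ d) := by
  simp only [Mdl.ψ, Perm.mul_apply, h.ν, h.ι]

private lemma Dic.φ_pow (h : Dic M M' e) (i : ℕ) (d : D) :
    (M'.φ ^ i) (e d) = e ((M.φ ^ i) d) := by
  induction i with
  | zero => rfl
  | succ i ih => rw [pow_succ', pow_succ', Perm.mul_apply, Perm.mul_apply, ih, h.φ]

private lemma Dic.φ_inv_pow (h : Dic M M' e) (i : ℕ) (d : D) :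
    (M'.φ⁻¹ ^ i) (e d) = e ((M.φ⁻¹ ^ i) d) := by
  rw [inv_pow, inv_pow, Perm.inv_eq_iff_eq, h.φ_pow]
  simp

private lemma Dic.per (h : Dic M M' e) (d : D) : M'.per (e d) = M.per d :=
  mp_semiconj e.injective (fun a => (h.φ a).symm) d

private lemma Dic.Pr (h : Dic M M' e) (z : D' → ℝ) (d : D) (i : ℕ) :
    Pr M'.φ z (e d) i = Pr M.φ (z ∘ e) d i := by
  simp only [MP_d39174_gt.Pr, h.φ_pow, Function.comp]

private lemma Dic.sg (h : Dic M M' e) (z : D' → ℝ) (d : D) :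
    M'.sg z (e d) = M.sg (z ∘ e) d := by
  simp only [Mdl.sg, sig, h.per, h.Pr]

private lemma Dic.reach (h : Dic M M' e) {x y : D' → ℝ} {d₀ d : D} {g : SL(2, ℝ)}
    (r : M.Reach (x ∘ e) (y ∘ e) d₀ d g) : M'.Reach x y (e d₀) (e d) g := by
  induction r with
  | base => exact .base
  | neg _ ih => exact .neg ih
  | nu _ ih => rw [← h.ν]; exact .nu ih
  | io _ ih => rw [← h.ι]; exact .io ih
  | @ka d g hk _ ih =>
    have := Mdl.Reach.ka (by rw [h.κ]; exact e.injective.ne hk) ih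
    rwa [h.κ, h.sg, h.sg] at this

private lemma Dic.gen (h : Dic M M' e) {x y : D' → ℝ} {Γ : Subgroup SL(2, ℝ)}
    (hg : M.Gen Γ (x ∘ e) (y ∘ e)) : M'.Gen Γ x y := by
  intro d₀
  obtain ⟨d₀, rfl⟩ := e.surjective d₀
  obtain ⟨F, hF⟩ := hg d₀
  refine ⟨F, fun g => (hF g).trans ⟨h.reach, fun r => ?_⟩⟩
  have := h.symm.reach (x := x ∘ e) (y := y ∘ e) (d₀ := e d₀) (d := e d₀) (g := F⁻¹ * g * F)
    (by simpa only [Function.comp_assoc, self_comp_symm, Function.comp_id] using r)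
  simpa only [symm_apply_apply] using this

/-- The active strands correspond under `j`. -/
private structure Dic2 (M : Mdl D S) (M' : Mdl D' S') (e : D ≃ D') (j : {s // M.on s} → S') :
    Prop extends Dic M M' e where
  inj : Function.Injective j
  on : ∀ i, M'.on i ↔ ∃ s, j s = i
  bs : ∀ s, M'.bs (j s) = e (M.bs s)
  kd : ∀ s, M'.kd (j s) = M.kd s
  oi : ∀ s, M'.oi (j s) = M.oi s
  oj : ∀ s, M'.oj (j s) = M.oj s
  hn : ∀ s, M.on s → M.on (M.nx s)
  nx : ∀ s, M'.nx (j s) = j ⟨M.nx s, hn s s.2⟩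

variable {j : {s // M.on s} → S'}

private lemma Dic2.base (h : Dic2 M M' e j) (s) : M'.base (j s) = e (M.base s) := by
  simp only [Mdl.base, h.oi, h.bs, h.toDic.φ_inv_pow]

private lemma Dic2.tgt (h : Dic2 M M' e j) (s) : M'.tgt (j s) = e (M.tgt s) := by
  simp only [Mdl.tgt, h.oj, h.base, h.κ, h.toDic.φ_pow]

private lemma Dic2.step (h : Dic2 M M' e j) (s) : M'.step (j s) = e (M.step s) := by
  simp only [Mdl.step, h.kd, h.bs, h.tgt, h.toDic.φ, h.toDic.ψ, h.ι, apply_ite e]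

private lemma Dic2.mat (h : Dic2 M M' e j) (x y : D' → ℝ) (s) :
    M'.mat x y (j s) = M.mat (x ∘ e) (y ∘ e) s := by
  simp only [Mdl.mat, Mdl.tw, h.kd, h.bs, h.tgt, h.toDic.φ, h.toDic.ψ, h.toDic.sg, h.base, h.κ,
    h.toDic.Pr, h.oi, h.oj, Function.comp_apply]

private lemma Dic2.mp (h : Dic2 M M' e j) (s) :
    Function.minimalPeriod M'.nx (j s) = Function.minimalPeriod M.nx s := by
  let f : {s // M.on s} → {s // M.on s} := fun s => ⟨M.nx s, h.hn s s.2⟩
  rw [mp_semiconj (f := f) h.inj (fun a => (h.nx a).symm) s,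
    mp_semiconj (f := f) (f' := M.nx) Subtype.val_injective (fun _ => rfl) s]

private lemma Dic2.trW (h : Dic2 M M' e j) (x y : D' → ℝ) (s) :
    M'.trW x y (j s) = M.trW (x ∘ e) (y ∘ e) s := by
  let f : {s // M.on s} → {s // M.on s} := fun s => ⟨M.nx s, h.hn s s.2⟩
  have s1 : Function.Semiconj j f M'.nx := fun a => (h.nx a).symm
  have s2 : Function.Semiconj Subtype.val f M.nx := fun _ => rfl
  unfold Mdl.trW
  rw [h.mp]
  congr 2
  funext m
  rw [← (s1.iterate_right m).eq s, h.mat, (s2.iterate_right m).eq s]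

private lemma Dic2.sum [Fintype S] [Fintype S'] (h : Dic2 M M' e j) {A : Type} [AddCommMonoid A]
    (f : S → A) (f' : S' → A) (hf : ∀ s, f' (j s) = f s) :
    ∑ i ∈ univ.filter (fun i => M'.on i), f' i = ∑ s ∈ univ.filter (fun s => M.on s), f s := by
  refine (sum_bij (fun s hs => j ⟨s, (mem_filter.1 hs).2⟩) (fun s hs => ?_) (fun s hs t ht e => ?_)
    (fun i hi => ?_) fun s hs => (hf ⟨s, _⟩).symm).symm
  · exact mem_filter.2 ⟨mem_univ _, (h.on _).2 ⟨_, rfl⟩⟩
  · exact congrArg Subtype.val (h.inj e)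
  · obtain ⟨s, rfl⟩ := (h.on i).1 (mem_filter.1 hi).2
    exact ⟨s, mem_filter.2 ⟨mem_univ _, s.2⟩, rfl⟩

private lemma Dic2.real [Fintype S] [Fintype S'] (h : Dic2 M M' e j) {x y : D' → ℝ} {T : ℝ}
    (r : M.Real (x ∘ e) (y ∘ e) T) : M'.Real x y T := by
  classical
  have sur : ∀ {p : D' → Prop}, (∀ d, p (e d)) → ∀ d, p d := fun hp d => by
    obtain ⟨d, rfl⟩ := e.surjective d
    exact hp d
  refine ⟨sur r.x_pos, sur r.y_pos, sur fun d => ?_, sur fun d => ?_, sur fun d => ?_,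
    sur fun d => ?_, fun i hi => ?_, ?_, fun i hi => ?_, sur fun β hβ => ?_, sur fun d => ?_⟩
  · rw [h.ι]; exact r.x_ι d
  · rw [h.κ]; exact r.y_κ d
  · rw [h.toDic.per, h.toDic.Pr]; exact r.lt d
  · rw [h.toDic.per, h.toDic.Pr]; exact r.fan d
  · obtain ⟨s, rfl⟩ := (h.on i).1 hi
    rw [h.trW]; exact r.tr s s.2
  · obtain ⟨c, c1, c2⟩ := r.crit
    refine ⟨Function.extend j (fun s => c s) 0, fun i hi => ?_, fun ξ η μ h1 h2 h3 => ?_⟩
    · obtain ⟨s, rfl⟩ := (h.on i).1 hi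
      rw [h.inj.extend_apply]; exact c1 s s.2
    · refine Eq.trans (h.sum _ _ fun s => ?_) (c2 (ξ ∘ e) (η ∘ e) μ
        (fun d => by simpa only [h.ι, Function.comp_apply] using h1 (e d))
        (fun d => by simpa only [h.κ, Function.comp_apply] using h2 (e d))
        (fun d => by simpa only [h.toDic.per, h.toDic.φ_pow, Function.comp_apply] using h3 (e d)))
      simp only [h.inj.extend_apply, h.trW]
      rfl
  · obtain ⟨s, rfl⟩ := (h.on i).1 hi
    rw [← Function.minimalPeriod_pos_iff_mem_periodicPts, h.mp,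
      Function.minimalPeriod_pos_iff_mem_periodicPts]
    exact r.periodic s s.2
  · rw [h.κ] at hβ
    obtain ⟨s, s1, s2, s3⟩ := r.cover β fun e' => hβ (congrArg e e')
    exact ⟨j ⟨s, s1⟩, (h.on _).2 ⟨_, rfl⟩, by rw [h.kd]; exact s2, by rw [h.base]; exact congrArg e s3⟩
  · obtain ⟨i, hi⟩ := r.base_ex d
    exact ⟨i, by rw [h.toDic.φ_pow, h.κ]; exact e.injective.ne hi⟩

end

variable {D S : Type} [Fintype D] [Fintype S]

private lemma exists_idx {M : Mdl D S} {k m₀ D₀ : ℕ} (h : M.Shape k m₀ D₀) :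
    ∃ u : {s // M.on s} → Fin D₀, ∀ s t, M.bs s.1 = M.bs t.1 → u s = u t → s = t := by
  classical
  have key : ∀ d, ∃ v : {s // M.on s ∧ M.bs s = d} → Fin D₀, Function.Injective v := by
    intro d
    have : Fintype.card {s // M.on s ∧ M.bs s = d} ≤ Fintype.card (Fin D₀) := by
      rw [Fintype.card_subtype, Fintype.card_fin]
      refine le_trans (card_le_card fun s hs => ?_) (h.fib d)
      simpa only [mem_filter, mem_univ, true_and] using hs
    obtain ⟨v⟩ := Function.Embedding.nonempty_of_card_le this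
    exact ⟨v, v.injective⟩
  choose v hv using key
  refine ⟨fun s => v (M.bs s) ⟨s, s.2, rfl⟩, fun s t e e' => ?_⟩
  have e2 : ∀ d (hd : M.bs t.1 = d), v (M.bs t) ⟨t, t.2, rfl⟩ = v d ⟨t, t.2, hd⟩ := by
    rintro _ rfl; rfl
  have := hv _ (e'.trans (e2 _ e.symm))
  exact Subtype.ext (congrArg (fun z : {s' // M.on s' ∧ M.bs s' = M.bs s.1} => z.1) this)

theorem exists_canon {M : Mdl D S} {k m₀ D₀ : ℕ} (h : M.Shape k m₀ D₀) {x y : D → ℝ} {T : ℝ}
    (hr : M.Real x y T) {Γ : Subgroup SL(2, ℝ)} (hg : M.Gen Γ x y) :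
    ∃ (r : ℕ) (M' : Mdl (Fin (Fintype.card D)) (Fin (Fintype.card D) × Fin D₀))
      (x' y' : Fin (Fintype.card D) → ℝ), 6 * r + 12 * k = Fintype.card D + 12 ∧
      M' ∈ Canon (Fintype.card D) D₀ r k (D₀ * (m₀ + 1) * Fintype.card D) ∧
      M'.Real x' y' T ∧ M'.Gen Γ x' y' := by
  classical
  have := h.ne
  obtain ⟨e, r, h1, h2⟩ := exists_lab h.ι_ι h.ι_ne h.ν3 h.ν_ne h.trans
  have h3 : cyc M.φ = (univ.filter fun β => M.κ β ≠ β).card :=
    cyc_eq_card (fun d => (h.base_ex d).imp fun i hi => mem_filter.2 ⟨mem_univ _, hi⟩)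
      fun a ha b hb => h.base_uniq a b (mem_filter.1 ha).2 (mem_filter.1 hb).2
  have h4 : (univ.filter fun β => M.κ β ≠ β).card = 2 * k := by
    rw [← h.card_base]
  obtain ⟨u, hu⟩ := exists_idx h
  let j : {s // M.on s} → Fin (Fintype.card D) × Fin D₀ := fun s => (e (M.bs s), u s)
  have hj : Function.Injective j := fun s t e' =>
    hu s t (e.injective (congrArg Prod.fst e')) (congrArg Prod.snd e')
  let M' : Mdl (Fin (Fintype.card D)) (Fin (Fintype.card D) × Fin D₀) :=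
    { ι := e.permCongr M.ι
      ν := e.permCongr M.ν
      κ := e.permCongr M.κ
      on := fun i => decide (∃ s, j s = i)
      bs := Prod.fst
      kd := Function.extend j (fun s => M.kd s) fun _ => 0
      oi := Function.extend j (fun s => M.oi s) fun _ => 0
      oj := Function.extend j (fun s => M.oj s) fun _ => 0
      nx := Function.extend j (fun s => j ⟨M.nx s, (h.nx s s.2).1⟩)
        fun i => (e (M.φ (e.symm i.1)), i.2) }
  have dd : Dic M M' e := ⟨fun d => by simp [M'], fun d => by simp [M'], fun d => by simp [M']⟩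
  have d2 : Dic2 M M' e j :=
    { dd with
      inj := hj
      on := fun i => by simp [M']
      bs := fun _ => rfl
      kd := fun s => by simp only [M', hj.extend_apply]
      oi := fun s => by simp only [M', hj.extend_apply]
      oj := fun s => by simp only [M', hj.extend_apply]
      hn := fun s hs => (h.nx s hs).1
      nx := fun s => by simp only [M', hj.extend_apply] }
  have ex : (x ∘ e.symm) ∘ e = x := by funext d; simp
  have ey : (y ∘ e.symm) ∘ e = y := by funext d; simp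
  have sm : ∀ f : S → ℕ, ∑ i, Function.extend j (fun s => f s) (fun _ => 0) i =
      ∑ s ∈ univ.filter (fun s => M.on s), f s := by
    intro f
    rw [← d2.sum f (Function.extend j (fun s => f s) fun _ => 0) fun s => hj.extend_apply _ _ s]
    refine (sum_subset (filter_subset _ _) fun i _ hi => ?_).symm
    refine Function.extend_apply' _ _ _ fun hh => hi (mem_filter.2 ⟨mem_univ _, (d2.on i).2 hh⟩)
  obtain ⟨s1, s2⟩ := h.sum_le
  refine ⟨r, M', x ∘ e.symm, y ∘ e.symm, ?_, ⟨h2, fun d => ?_, ?_, fun _ => rfl, fun i => ?_, ?_, ?_⟩,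
    d2.real (by rwa [ex, ey]), dd.gen (by rwa [ex, ey])⟩
  · have : cyc (M.ι * M.ν * M.ν) = 2 * k := h3.trans h4
    omega
  · simp [M', h.κ_κ]
  · rw [← h4]
    refine (card_equiv e fun d => ?_).symm
    simp [M', mem_support]
  · by_cases hi : ∃ s, j s = i
    · obtain ⟨s, rfl⟩ := hi
      rw [d2.nx, d2.step, ← (h.nx s s.2).2]
    · have k0 : M'.kd i = 0 := by simp only [M', Function.extend_apply' _ _ _ hi]
      have k1 : M'.nx i = (e (M.φ (e.symm i.1)), i.2) := by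
        simp only [M', Function.extend_apply' _ _ _ hi]
      rw [k1, Mdl.step, if_pos k0, ← dd.φ, apply_symm_apply]
  · refine (sm M.oi).le.trans (s1.trans (Nat.mul_le_mul_right _ ?_))
    exact Nat.le_mul_of_pos_right _ (Nat.succ_pos _)
  · refine (sm M.oj).le.trans (s2.trans (Nat.mul_le_mul_right _ ?_))
    exact Nat.mul_le_mul_left _ (Nat.le_succ _)

end

end Pool.Agent.P.MP_d39174_gt

end

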