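import Pool.Agent.P.MP_d39174_gt.All.M1

section
/-! Wall systems and their spun triangulations. -/

namespace Pool.Agent.P.MP_d39174_gt

open UpperHalfPlane MatrixGroups

noncomputable section

/-- An invariant family of pairwise disjoint periodic walls with finitely many orbits. -/
structure WallSys (Γ : Subgroup SL(2, ℝ)) (A : Set V) : Prop where
  per : ∀ a ∈ A, Per Γ a
  inv : ∀ g ∈ Γ, ∀ a ∈ A, g • a ∈ A
  neg : ∀ a ∈ A, -a ∈ A
  sep : ∀ a ∈ A, ∀ b ∈ A, b ≠ a → b ≠ -a → 1 < |B a b|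
  fin : ∃ F : Finset V, ∀ a ∈ A, ∃ g ∈ Γ, ∃ m ∈ F, a = g • m
  ne : A.Nonempty

/-- `p` is at least as far from every wall of `A` as from the walls `n` with `B n p = 1`. -/
def Wit (A : Set V) (p : V) : Prop := Fut p ∧ ∀ n ∈ A, 1 ≤ |B n p|

/-- Delaunay pairs. -/
def Del (A : Set V) (a b : V) : Prop :=
  a ∈ A ∧ b ∈ A ∧ a ≠ b ∧ ∃ p, Wit A p ∧ B a p = 1 ∧ B b p = 1

/-- A triangulation of the complement of a wall system by Delaunay pairs. -/
structure Tr (Γ : Subgroup SL(2, ℝ)) where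
  A : Set V
  E : Set (V × V)
  nice : Nice Γ
  ws : WallSys Γ A
  del : ∀ d ∈ E, Del A d.1 d.2
  symm : ∀ a b, (a, b) ∈ E → (b, a) ∈ E
  inv : ∀ g ∈ Γ, ∀ a b, (a, b) ∈ E → (g • a, g • b) ∈ E
  fac : ∀ d ∈ E, Fac d.1 d.2
  ncr : ∀ d ∈ E, ∀ e ∈ E, ¬ Cr d.1 d.2 e.1 e.2
  ncw : ∀ d ∈ E, ∀ c ∈ A, ¬ Cr c (-c) d.1 d.2
  tri : ∀ a b, (a, b) ∈ E → ∃ c, (b, c) ∈ E ∧ (c, a) ∈ E ∧ 0 < ori a b c
  fin : ∃ F : Finset (V × V), ∀ d ∈ E, ∃ g ∈ Γ, ∃ e ∈ F, d = (g • e.1, g • e.2)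
  has : ∀ a ∈ A, ∃ b, (a, b) ∈ E
  conn : ∀ S : Set V, (∀ a ∈ S, -a ∈ S) → (∀ a ∈ S, ∀ b, (a, b) ∈ E → b ∈ S) →
    (∃ a ∈ A, a ∈ S) → A ⊆ S

namespace Tr

variable {Γ : Subgroup SL(2, ℝ)} (T : Tr Γ)

/-- Darts. -/
def D : Type := {d : V × V // d ∈ T.E}

variable {T}

def D.a (d : T.D) : V := d.1.1
def D.b (d : T.D) : V := d.1.2
/-- The third vertex of the triangle on the positive side of a dart. -/
def D.c (d : T.D) : V := (T.tri d.a d.b d.2).choose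

lemma D.ext {d e : T.D} (h1 : d.a = e.a) (h2 : d.b = e.b) : d = e :=
  Subtype.ext (Prod.ext h1 h2)
lemma D.mem (d : T.D) : (d.a, d.b) ∈ T.E := d.2
lemma D.mem_bc (d : T.D) : (d.b, d.c) ∈ T.E := (T.tri d.a d.b d.2).choose_spec.1
lemma D.mem_ca (d : T.D) : (d.c, d.a) ∈ T.E := (T.tri d.a d.b d.2).choose_spec.2.1
lemma D.ori_pos (d : T.D) : 0 < ori d.a d.b d.c := (T.tri d.a d.b d.2).choose_spec.2.2
lemma D.a_mem (d : T.D) : d.a ∈ T.A := (T.del d.1 d.2).1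
lemma D.b_mem (d : T.D) : d.b ∈ T.A := (T.del d.1 d.2).2.1
lemma D.c_mem (d : T.D) : d.c ∈ T.A := (T.del _ d.mem_ca).1
lemma D.a_ne_b (d : T.D) : d.a ≠ d.b := (T.del d.1 d.2).2.2.1
lemma unit {a : V} (h : a ∈ T.A) : B a a = 1 := (T.ws.per a h).1
lemma D.a_unit (d : T.D) : B d.a d.a = 1 := unit d.a_mem
lemma D.b_unit (d : T.D) : B d.b d.b = 1 := unit d.b_mem
lemma D.c_unit (d : T.D) : B d.c d.c = 1 := unit d.c_mem
lemma D.fac (d : T.D) : Fac d.a d.b := T.fac d.1 d.2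

/-- The third vertex is unique. -/
lemma D.c_eq (d : T.D) {c : V} (h1 : (d.b, c) ∈ T.E) (h2 : (c, d.a) ∈ T.E)
    (h3 : 0 < ori d.a d.b c) : c = d.c := by
  by_contra hne
  have hc : c ∈ T.A := (T.del _ h2).1
  have per := T.ws.per
  have f1 := T.nice.fin' (per _ d.a_mem) (per _ d.b_mem) d.a_ne_b
  have f2 : Fin' d.a c :=
    T.nice.fin' (per _ d.a_mem) (per _ hc) (T.del _ h2).2.2.1.symm
  have f3 : Fin' d.a d.c :=
    T.nice.fin' (per _ d.a_mem) (per _ d.c_mem) (T.del _ d.mem_ca).2.2.1.symm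
  have l1 := (ori_pos_iff d.a_unit f1 f2).1 h3
  have l2 := (ori_pos_iff d.a_unit f1 f3).1 d.ori_pos
  have l3 : crd d.a c ≠ crd d.a d.c := fun e =>
    hne (T.nice.eq_of_br (per _ hc) (per _ d.c_mem) ((crd_eq_iff d.a_unit f2 f3).1 e))
  rcases lt_or_gt_of_ne l3 with l | l
  · exact T.ncr _ (T.symm _ _ h2) _ d.mem_bc
      ((Cr_crd' d.a_unit f2 f1 f3).2 (mul_neg_of_neg_of_pos (by linarith) (by linarith)))
  · exact T.ncr _ (T.symm _ _ d.mem_ca) _ h1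
      ((Cr_crd' d.a_unit f3 f1 f2).2 (mul_neg_of_neg_of_pos (by linarith) (by linarith)))

def nuf (d : T.D) : T.D := ⟨(d.b, d.c), d.mem_bc⟩

lemma nuf_c (d : T.D) : (nuf d).c = d.a :=
  ((nuf d).c_eq d.mem_ca d.mem (by
    show 0 < ori d.b d.c d.a
    rw [ori_cyc]; exact d.ori_pos)).symm

lemma nuf3 (d : T.D) : nuf (nuf (nuf d)) = d :=
  D.ext (nuf_c d) (nuf_c (nuf d))

variable (T)

/-- Reversal of a dart. -/
def ι : Equiv.Perm T.D where
  toFun d := ⟨(d.b, d.a), T.symm _ _ d.2⟩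
  invFun d := ⟨(d.b, d.a), T.symm _ _ d.2⟩
  left_inv _ := rfl
  right_inv _ := rfl

/-- Rotation of a dart in its triangle. -/
def ν : Equiv.Perm T.D where
  toFun := nuf
  invFun d := nuf (nuf d)
  left_inv := nuf3
  right_inv := nuf3

/-- The next dart in the fan at `d.a`. -/
def φ : Equiv.Perm T.D := T.ι * T.ν * T.ν

/-- The dart with the same endpoint `d.b` on the far side of the triangle. -/
def ψ : Equiv.Perm T.D := T.ι * T.ν

instance : MulAction Γ T.D where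
  smul g d := ⟨((g : SL(2, ℝ)) • d.a, (g : SL(2, ℝ)) • d.b), T.inv g g.2 _ _ d.2⟩
  one_smul d := D.ext (one_smul SL(2, ℝ) d.a) (one_smul SL(2, ℝ) d.b)
  mul_smul g h d := D.ext (mul_smul (g : SL(2, ℝ)) h d.a) (mul_smul (g : SL(2, ℝ)) h d.b)

variable {T}

@[simp] lemma ι_a (d : T.D) : (T.ι d).a = d.b := rfl
@[simp] lemma ι_b (d : T.D) : (T.ι d).b = d.a := rfl
@[simp] lemma ι_ι (d : T.D) : T.ι (T.ι d) = d := rfl
@[simp] lemma ν_a (d : T.D) : (T.ν d).a = d.b := rfl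
@[simp] lemma ν_b (d : T.D) : (T.ν d).b = d.c := rfl
@[simp] lemma ν_c (d : T.D) : (T.ν d).c = d.a := nuf_c d
@[simp] lemma ν_ν_ν (d : T.D) : T.ν (T.ν (T.ν d)) = d := nuf3 d
lemma φ_apply (d : T.D) : T.φ d = T.ι (T.ν (T.ν d)) := rfl
lemma ψ_apply (d : T.D) : T.ψ d = T.ι (T.ν d) := rfl
@[simp] lemma φ_a (d : T.D) : (T.φ d).a = d.a := nuf_c d
@[simp] lemma φ_b (d : T.D) : (T.φ d).b = d.c := rfl
@[simp] lemma ψ_a (d : T.D) : (T.ψ d).a = d.c := rfl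
@[simp] lemma ψ_b (d : T.D) : (T.ψ d).b = d.b := rfl
@[simp] lemma smul_a (g : Γ) (d : T.D) : (g • d).a = (g : SL(2, ℝ)) • d.a := rfl
@[simp] lemma smul_b (g : Γ) (d : T.D) : (g • d).b = (g : SL(2, ℝ)) • d.b := rfl

lemma smul_c (g : Γ) (d : T.D) : (g • d).c = (g : SL(2, ℝ)) • d.c := by
  refine ((g • d).c_eq (T.inv g g.2 _ _ d.mem_bc) (T.inv g g.2 _ _ d.mem_ca) ?_).symm
  obtain ⟨k, hk, e⟩ := ori_ad g d.a_unit d.b_unit d.c_unit
  rw [smul_a, smul_b, e]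
  exact mul_pos hk d.ori_pos

lemma ι_smul (g : Γ) (d : T.D) : T.ι (g • d) = g • T.ι d := rfl
lemma ν_smul (g : Γ) (d : T.D) : T.ν (g • d) = g • T.ν d := D.ext rfl (smul_c g d)
lemma φ_smul (g : Γ) (d : T.D) : T.φ (g • d) = g • T.φ d := by
  rw [φ_apply, ν_smul, ν_smul, ι_smul, φ_apply]
lemma ψ_smul (g : Γ) (d : T.D) : T.ψ (g • d) = g • T.ψ d := by
  rw [ψ_apply, ν_smul, ι_smul, ψ_apply]

/-- Position of a dart in its fan (a negative number that increases along `φ`). -/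
def D.r (d : T.D) : ℝ := crd d.a d.b

/-- Cross ratio of two darts on the two sides of a wall. -/
def rho (d d' : T.D) : ℝ := -(crd d.a d.b / crd d.a d'.b)

/-- A choice of base pairs of darts, one orbit for each wall. -/
structure Base (T : Tr Γ) where
  S : Set (T.D × T.D)
  opp : ∀ p ∈ S, p.2.a = -p.1.a
  symm : ∀ p ∈ S, (p.2, p.1) ∈ S
  inv : ∀ g : Γ, ∀ p ∈ S, (g • p.1, g • p.2) ∈ S
  ex : ∀ a ∈ T.A, ∃ p ∈ S, p.1.a = a
  uniq : ∀ p ∈ S, ∀ q ∈ S, p.1.a = q.1.a → ∃ g : Γ, q = (g • p.1, g • p.2)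

end Tr

end

end Pool.Agent.P.MP_d39174_gt

end

section
/-! Delaunay pairs: local properties. -/

namespace Pool.Agent.P.MP_d39174_gt

open UpperHalfPlane MatrixGroups

noncomputable section

variable {Γ : Subgroup SL(2, ℝ)} {A : Set V}

lemma WallSys.lf (h : Nice Γ) (w : WallSys Γ A) : LF A := by
  obtain ⟨F, hF⟩ := w.fin
  exact h.lf_of_fin w.per hF

lemma Wit.ad (w : WallSys Γ A) {p : V} (hp : Wit A p) {g : SL(2, ℝ)} (hg : g ∈ Γ) :
    Wit A (g • p) := by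
  refine ⟨hp.1.ad g, fun n hn => ?_⟩
  rw [B_ad_right]
  exact hp.2 _ (w.inv _ (Γ.inv_mem hg) _ hn)

lemma Del.symm {a b : V} (h : Del A a b) : Del A b a := by
  obtain ⟨ha, hb, hne, p, hp, h1, h2⟩ := h
  exact ⟨hb, ha, hne.symm, p, hp, h2, h1⟩

lemma Del.ad (w : WallSys Γ A) {a b : V} (h : Del A a b) {g : SL(2, ℝ)} (hg : g ∈ Γ) :
    Del A (g • a) (g • b) := by
  obtain ⟨ha, hb, hne, p, hp, h1, h2⟩ := h
  exact ⟨w.inv g hg a ha, w.inv g hg b hb, fun e => hne (MulAction.injective g e), g • p,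
    hp.ad w hg, by rw [B_ad, h1], by rw [B_ad, h2]⟩

/-- A nearest wall lies on the side of `p` of every other wall. -/
lemma nearest_fac (w : WallSys Γ A) {p x c : V} (hp : Wit A p) (hx : x ∈ A) (hxp : B x p = 1)
    (hc : c ∈ A) (hcp : 0 < B c p) (hne : c ≠ x) : Fac c x := by
  have ux := (w.per x hx).1
  have uc := (w.per c hc).1
  have h1 : 1 ≤ B c p := by
    have h2 := hp.2 c hc
    rwa [abs_of_pos hcp] at h2
  have hf : Fut (p - x) := by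
    have h2 := hp.1.foot ux zero_le_one le_rfl
    rwa [hxp, one_mul, one_smul] at h2
  have h0 : B x (p - x) = 0 := by rw [B_sub_right, hxp, ux, sub_self]
  have h2 : x ≠ -c := by
    intro e
    rw [e, B_neg_left] at hxp
    linarith
  have h3 := w.sep c hc x hx hne.symm h2
  refine fac_of_point uc ux h3 hf h0 ?_
  by_contra h4
  have h5 : B c (p - x) ≤ 0 := not_lt.1 h4
  have h6 : 1 ≤ B c x := by
    rw [B_sub_right] at h5
    linarith
  rw [abs_of_pos (by linarith)] at h3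
  rcases nested_of_gt uc ux h3 with h7 | h7
  · have h8 := h7.B_neg hp.1
    rw [B_sub_left, hxp] at h8
    linarith
  · have h8 := h7.B_neg hf
    rw [B_sub_left, h0] at h8
    linarith

lemma Del.fac (w : WallSys Γ A) {a b : V} (h : Del A a b) : Fac a b := by
  obtain ⟨ha, hb, hne, p, hp, h1, h2⟩ := h
  exact nearest_fac w hp hb h2 ha (by rw [h1]; exact one_pos) hne

lemma Del.not_cr_wall (w : WallSys Γ A) {x y c : V} (h : Del A x y) (hc : c ∈ A) :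
    ¬ Cr c (-c) x y := by
  obtain ⟨hx, hy, -, p, hp, h1, h2⟩ := h
  have key : ∀ c ∈ A, 0 < B c p → ¬ Cr c (-c) x y := by
    intro c hc hcp hcr
    obtain ⟨-, xc, -, yc, -, -⟩ := hcr.ne
    have f1 := (nearest_fac w hp hx h1 hc hcp xc.symm).1
    have f2 := (nearest_fac w hp hy h2 hc hcp yc.symm).1
    unfold Cr at hcr
    rw [ori_swap' c x (-c), ori_swap' c y (-c), neg_mul_neg] at hcr
    exact absurd (mul_pos f1 f2) (not_lt.2 hcr.le)
  intro hcr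
  rcases lt_or_ge 0 (B c p) with h3 | h3
  · exact key c hc h3 hcr
  · refine key (-c) (w.neg c hc) ?_ (by rw [neg_neg]; exact hcr.swap_left)
    have h4 := hp.2 c hc
    rw [abs_of_nonpos h3] at h4
    rw [B_neg_left]
    linarith

private lemma Del1_ge {p c : V} (hp : Wit A p) (hc : c ∈ A) (h : 0 < B c p) : 1 ≤ B c p := by
  have h1 := hp.2 c hc
  rwa [abs_of_pos h] at h1

private lemma Del1_pos (h : Nice Γ) (w : WallSys Γ A) {p x y c d : V} (hp : Wit A p)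
    (hx : x ∈ A) (hy : y ∈ A) (hc : c ∈ A) (hd : d ∈ A) (h1 : B x p = 1) (h2 : B y p = 1)
    (hf : Fac c d) (hcr : Cr c d x y) : 0 < B c p := by
  by_contra hn
  have h3 : 0 < B (-c) p := by
    have h4 := hp.2 c hc
    rw [abs_of_nonpos (not_lt.1 hn)] at h4
    rw [B_neg_left]
    linarith
  have uc := (w.per c hc).1
  obtain ⟨cd, xc, -, yc, -, -⟩ := hcr.ne
  have fd : Fin' c d := h.fin' (w.per c hc) (w.per d hd) cd
  have ld : crd c d < 0 := (side_iff uc fd).1.1 hf.1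
  have key : ∀ z ∈ A, B z p = 1 → z ≠ c → Fin' c z ∧ 0 ≤ crd c z := by
    intro z hz hzp hzc
    have fz : Fin' c z := h.fin' (w.per c hc) (w.per z hz) hzc.symm
    refine ⟨fz, ?_⟩
    by_cases e : -c = z
    · rw [← e, crd_neg_self uc]
    · have f := nearest_fac w hp hz hzp (w.neg c hc) h3 e
      have fz' : Fin' c (-z) := h.fin' (w.per c hc) (w.per _ (w.neg z hz))
        (fun e' => e (by rw [e', neg_neg]))
      exact ((fac_iff_crd uc fz fz').2.1 f).1.le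
  obtain ⟨fx, lx⟩ := key x hx h1 xc
  obtain ⟨fy, ly⟩ := key y hy h2 yc
  have h5 := (Cr_crd' uc fd fx fy).1 hcr
  have h6 : 0 < (crd c x - crd c d) * (crd c y - crd c d) :=
    mul_pos (by linarith) (by linarith)
  linarith

private lemma Del1_share (h : Nice Γ) (w : WallSys Γ A) {p q x y c d : V} (hp : Wit A p)
    (hq : Wit A q) (hx : x ∈ A) (hy : y ∈ A) (hc : c ∈ A) (hd : d ∈ A) (h1 : B x p = 1)
    (h2 : B y p = 1) (h3 : B c q = 1) (h4 : B d q = 1) (o1 : ori x y c < 0)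
    (o2 : 0 < ori x y d) : B c p = 1 ∧ B d p = 1 := by
  have hcr : Cr x y c d := mul_neg_of_neg_of_pos o1 o2
  obtain ⟨xy, cx, cy, dx, dy, cd⟩ := hcr.ne
  have ux := (w.per x hx).1
  have uy := (w.per y hy).1
  have uc := (w.per c hc).1
  have ud := (w.per d hd).1
  have fxy : Fac x y := nearest_fac w hp hy h2 hx (by rw [h1]; exact one_pos) xy
  have fyx : Fac y x := nearest_fac w hp hx h1 hy (by rw [h2]; exact one_pos) xy.symm
  have fcd : Fac c d := nearest_fac w hq hd h4 hc (by rw [h3]; exact one_pos) cd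
  have fdc : Fac d c := nearest_fac w hq hc h3 hd (by rw [h4]; exact one_pos) cd.symm
  have pc : 0 < B c p := Del1_pos h w hp hx hy hc hd h1 h2 fcd hcr.symm
  have pd : 0 < B d p := Del1_pos h w hp hx hy hd hc h1 h2 fdc hcr.symm.swap_left
  have qx : 0 < B x q := Del1_pos h w hq hc hd hx hy h3 h4 fxy hcr
  have qy : 0 < B y q := Del1_pos h w hq hc hd hy hx h3 h4 fyx hcr.swap_left
  have fcx : Fac c x := nearest_fac w hp hx h1 hc pc cx
  have fcy : Fac c y := nearest_fac w hp hy h2 hc pc cy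
  have fdx : Fac d x := nearest_fac w hp hx h1 hd pd dx
  have fdy : Fac d y := nearest_fac w hp hy h2 hd pd dy
  have fxc : Fac x c := nearest_fac w hq hc h3 hx qx cx.symm
  have fxd : Fac x d := nearest_fac w hq hd h4 hx qx dx.symm
  have fyc : Fac y c := nearest_fac w hq hc h3 hy qy cy.symm
  have fyd : Fac y d := nearest_fac w hq hd h4 hy qy dy.symm
  obtain ⟨o3, o4⟩ := ori_of_cross o1 o2
  have d1 : 0 < det3 x y c :=
    pos_of_mul_neg_left (det3_ori ux uy uc fxy fyx fyc fcy fxc fcx) o1.le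
  have d2 : det3 x y d < 0 :=
    neg_of_mul_neg_left (det3_ori ux uy ud fxy fyx fyd fdy fxd fdx) o2.le
  have d3 : det3 x c d < 0 := by
    rw [← det3_cyc]
    exact neg_of_mul_neg_left (det3_ori uc ud ux fcd fdc fdx fxd fcx fxc) o3.le
  have d4 : 0 < det3 y c d := by
    rw [← det3_cyc]
    exact pos_of_mul_neg_left (det3_ori uc ud uy fcd fdc fdy fyd fcy fyc) o4.le
  have e1 := congrArg (fun v => B v p) (cramer x y c d)
  have e2 := congrArg (fun v => B v q) (cramer x y c d)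
  simp only [B_sub_left, B_add_left, B_smul_left, B_zero_left, h1, h2, h3, h4, mul_one] at e1 e2
  have g1 := Del1_ge hp hc pc
  have g2 := Del1_ge hp hd pd
  have g3 := Del1_ge hq hx qx
  have g4 := Del1_ge hq hy qy
  have m1 : 0 ≤ -det3 x y d * (B c p - 1) := mul_nonneg (by linarith) (by linarith)
  have m2 : 0 ≤ det3 x y c * (B d p - 1) := mul_nonneg d1.le (by linarith)
  have m3 : 0 ≤ det3 y c d * (B x q - 1) := mul_nonneg d4.le (by linarith)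
  have m4 : 0 ≤ -det3 x c d * (B y q - 1) := mul_nonneg (by linarith) (by linarith)
  have z1 : -det3 x y d * (B c p - 1) = 0 := by linarith
  have z2 : det3 x y c * (B d p - 1) = 0 := by linarith
  constructor
  · rcases mul_eq_zero.1 z1 with e | e
    · linarith
    · linarith
  · rcases mul_eq_zero.1 z2 with e | e
    · linarith
    · linarith

/-- Crossing Delaunay pairs belong to the same cell. -/
lemma share (h : Nice Γ) (w : WallSys Γ A) {p q x y c d : V} (hp : Wit A p) (hq : Wit A q)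
    (hx : x ∈ A) (hy : y ∈ A) (hc : c ∈ A) (hd : d ∈ A) (h1 : B x p = 1) (h2 : B y p = 1)
    (h3 : B c q = 1) (h4 : B d q = 1) (hcr : Cr x y c d) : B c p = 1 ∧ B d p = 1 := by
  rcases mul_neg_iff.1 hcr with ⟨o1, o2⟩ | ⟨o1, o2⟩
  · exact (Del1_share h w hp hq hx hy hd hc h1 h2 h4 h3 o2 o1).symm
  · exact Del1_share h w hp hq hx hy hc hd h1 h2 h3 h4 o1 o2

lemma wit_uniq (h : Nice Γ) (w : WallSys Γ A) {p q a b c : V} (hp : Wit A p) (ha : a ∈ A)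
    (hb : b ∈ A) (hc : c ∈ A) (ab : a ≠ b) (bc : b ≠ c) (ca : c ≠ a) (h1 : B a p = 1)
    (h2 : B b p = 1) (h3 : B c p = 1) (h4 : B a q = 1) (h5 : B b q = 1) (h6 : B c q = 1) :
    p = q := by
  have pa : 0 < B a p := by rw [h1]; exact one_pos
  have pb : 0 < B b p := by rw [h2]; exact one_pos
  have pc : 0 < B c p := by rw [h3]; exact one_pos
  have hd := det3_ori (w.per a ha).1 (w.per b hb).1 (w.per c hc).1
    (nearest_fac w hp hb h2 ha pa ab) (nearest_fac w hp ha h1 hb pb ab.symm)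
    (nearest_fac w hp hc h3 hb pb bc) (nearest_fac w hp hb h2 hc pc bc.symm)
    (nearest_fac w hp hc h3 ha pa ca.symm) (nearest_fac w hp ha h1 hc pc ca)
  have hd' : det3 a b c ≠ 0 := by
    intro e
    rw [e, zero_mul] at hd
    exact lt_irrefl _ hd
  refine sub_eq_zero.1 (eq_zero_of_det3 hd' ?_ ?_ ?_)
  · rw [B_sub_right, h1, h4, sub_self]
  · rw [B_sub_right, h2, h5, sub_self]
  · rw [B_sub_right, h3, h6, sub_self]

lemma cell_finite (h : Nice Γ) (w : WallSys Γ A) {p : V} (hp : Fut p) :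
    {x | x ∈ A ∧ B x p = 1}.Finite := by
  refine ((w.lf h).finite_seg (fun n hn => (w.per n hn).1) hp hp 1).subset ?_
  rintro x ⟨hx, h1⟩
  refine ⟨hx, 0, ⟨le_rfl, zero_le_one⟩, ?_⟩
  rw [sub_zero, one_smul, zero_smul, add_zero, h1, abs_one]

/-- A Delaunay pair does not cross its own translates. -/
lemma Del.not_cr_self (h : Nice Γ) (w : WallSys Γ A) {a b : V} (hd : Del A a b) {g : SL(2, ℝ)}
    (hg : g ∈ Γ) : ¬ Cr a b (g • a) (g • b) := by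
  intro hcr
  obtain ⟨ha, hb, hne, p, hp, h1, h2⟩ := hd
  have ha' := w.inv g hg a ha
  have hb' := w.inv g hg b hb
  have h3 : B (g • a) (g • p) = 1 := by rw [B_ad, h1]
  have h4 : B (g • b) (g • p) = 1 := by rw [B_ad, h2]
  obtain ⟨h5, -⟩ := share h w hp (hp.ad w hg) ha hb ha' hb' h1 h2 h3 h4 hcr
  obtain ⟨h6, h7⟩ := share h w (hp.ad w hg) hp ha' hb' ha hb h3 h4 h1 h2 hcr.symm
  obtain ⟨-, n1, n2, -, -, -⟩ := hcr.ne
  have e := wit_uniq h w hp ha hb ha' hne n2.symm n1 h1 h2 h5 h6 h7 h3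
  have e' := (h.pm_of_fix hg hp.1.1 e.symm).ad a
  rw [one_smul] at e'
  exact n1 e'.symm

end

end Pool.Agent.P.MP_d39174_gt

end

section
/-! Delaunay pairs: existence, finiteness, connectedness. -/

namespace Pool.Agent.P.MP_d39174_gt

open UpperHalfPlane MatrixGroups

noncomputable section

variable {Γ : Subgroup SL(2, ℝ)} {A : Set V}

private lemma Del2_B_pt {p : V} (hp : Fut p) (n : V) :
    B n p = √(-B p p) * B n (Hy (pt p)) := by
  have h0 : 0 < √(-B p p) := Real.sqrt_pos.2 (by linarith [hp.1])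
  rw [Hy_pt hp, B_smul_right]
  field_simp

private lemma Del2_sign (w : WallSys Γ A) {n p : V} (hn : n ∈ A) (h : 1 ≤ |B n p|) :
    ∃ m ∈ A, (m = n ∨ m = -n) ∧ 1 ≤ B m p := by
  rcases le_abs'.1 h with h | h
  · exact ⟨-n, w.neg n hn, Or.inr rfl, by rw [B_neg_left]; linarith⟩
  · exact ⟨n, hn, Or.inl rfl, h⟩

private lemma Del2_first_hit (h : Nice Γ) (w : WallSys Γ A) {p q : V} (hp : Wit A p) (hq : Fut q)
    (hn : ∃ n ∈ A, |B n q| < 1) :
    ∃ s : ℝ, ∃ c ∈ A, Wit A ((1 - s) • p + s • q) ∧ B c ((1 - s) • p + s • q) = 1 ∧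
      B c q < 1 ∧ 1 ≤ B c p := by
  let T : Set V := {n | n ∈ A ∧ 1 ≤ B n p ∧ B n q < 1}
  let σ : V → ℝ := fun n => (B n p - 1) / (B n p - B n q)
  have hσ : ∀ n ∈ T, 0 ≤ σ n ∧ σ n ≤ 1 ∧ σ n * (B n p - B n q) = B n p - 1 := by
    rintro n ⟨-, h1, h2⟩
    have h3 : 0 < B n p - B n q := by linarith
    refine ⟨div_nonneg (by linarith) h3.le, (div_le_one h3).2 (by linarith), ?_⟩
    exact div_mul_cancel₀ _ h3.ne'
  have hval : ∀ n ∈ T, B n ((1 - σ n) • p + σ n • q) = 1 := by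
    intro n hn
    rw [B_add_right, B_smul_right, B_smul_right]
    linear_combination -(hσ n hn).2.2
  have hfin : T.Finite := by
    refine ((w.lf h).finite_seg (fun n hn => (w.per n hn).1) hp.1 hq 1).subset ?_
    intro n hn
    exact ⟨hn.1, σ n, ⟨(hσ n hn).1, (hσ n hn).2.1⟩, by rw [hval n hn, abs_one]⟩
  have hne : T.Nonempty := by
    obtain ⟨n, hnA, hnq⟩ := hn
    obtain ⟨m, hm, e, h1⟩ := Del2_sign w hnA (hp.2 n hnA)
    have := abs_lt.1 hnq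
    refine ⟨m, hm, h1, ?_⟩
    rcases e with e | e
    · rw [e]; exact this.2
    · rw [e, B_neg_left]; linarith [this.1]
  obtain ⟨c, hc, hmin⟩ := Set.exists_min_image T σ hfin hne
  obtain ⟨s0, s1, -⟩ := hσ c hc
  have key : ∀ m ∈ A, 1 ≤ B m p → 1 ≤ B m ((1 - σ c) • p + σ c • q) := by
    intro m hm h1
    rw [B_add_right, B_smul_right, B_smul_right]
    by_cases h2 : B m q < 1
    · have hT : m ∈ T := ⟨hm, h1, h2⟩
      have h3 := (hσ m hT).2.2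
      have h4 := mul_le_mul_of_nonneg_right (hmin m hT) (show 0 ≤ B m p - B m q by linarith)
      linarith
    · have h3 := not_lt.1 h2
      nlinarith [mul_nonneg s0 (sub_nonneg.2 h3), mul_nonneg (sub_nonneg.2 s1) (sub_nonneg.2 h1)]
  refine ⟨σ c, c, hc.1, ⟨hp.1.comb hq (by linarith) s0 (by linarith), ?_⟩, hval c hc,
    hc.2.2, hc.2.1⟩
  intro n hnA
  obtain ⟨m, hm, e, h1⟩ := Del2_sign w hnA (hp.2 n hnA)
  have h2 := key m hm h1
  rcases e with e | e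
  · rw [e] at h2
    exact h2.trans (le_abs_self _)
  · rw [e, B_neg_left] at h2
    exact h2.trans (neg_le_abs _)

private lemma Del2_ne_zero (w : WallSys Γ A) {a n : V} (ha : a ∈ A) (hn : n ∈ A) (h1 : n ≠ a)
    (h2 : n ≠ -a) {z : ℍ} (hz : B a (Hy z) = 0) : B n (Hy z) ≠ 0 := by
  intro h0
  rcases cross_of_common (w.per a ha).1 (w.per n hn).1 (Hy_fut z).1 hz h0 with e | e | e
  · linarith [w.sep a ha n hn h1 h2]
  · exact h1 e
  · exact h2 e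

/-- Witnesses are bounded away from the light cone. -/
lemma wit_bound (h : Nice Γ) (w : WallSys Γ A) :
    ∃ ε : ℝ, 0 < ε ∧ ∀ p, Fut p → B p p > -ε → ∃ n ∈ A, |B n p| < 1 := by
  obtain ⟨a, ha⟩ := w.ne
  obtain ⟨R, hR⟩ := h.near_wall (w.per a ha).1
  have hR1 : 0 < |R| + 1 := by positivity
  refine ⟨(1 / (|R| + 1)) ^ 2, by positivity, fun p hp hpp => ?_⟩
  obtain ⟨g, hg, hb⟩ := hR (pt p)
  refine ⟨g • a, w.inv g hg a ha, ?_⟩
  have h1 : √(-B p p) < 1 / (|R| + 1) :=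
    (Real.sqrt_lt' (by positivity)).2 (by linarith)
  have h0 : 0 ≤ √(-B p p) := Real.sqrt_nonneg _
  rw [Del2_B_pt hp, abs_mul, abs_of_nonneg h0]
  have h2 : |B (g • a) (Hy (pt p))| ≤ |R| + 1 := by linarith [le_abs_self R]
  calc √(-B p p) * |B (g • a) (Hy (pt p))| ≤ √(-B p p) * (|R| + 1) :=
        mul_le_mul_of_nonneg_left h2 h0
    _ < 1 / (|R| + 1) * (|R| + 1) := mul_lt_mul_of_pos_right h1 hR1
    _ = 1 := by field_simp

private lemma Del2_wit_le (h : Nice Γ) (w : WallSys Γ A) :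
    ∃ ε : ℝ, 0 < ε ∧ (∀ p, Fut p → B p p > -ε → ∃ n ∈ A, |B n p| < 1) ∧
      ∀ p, Wit A p → B p p ≤ -ε := by
  obtain ⟨ε, h0, h1⟩ := wit_bound h w
  refine ⟨ε, h0, h1, fun p hp => ?_⟩
  by_contra h2
  obtain ⟨n, hn, h3⟩ := h1 p hp.1 (not_le.1 h2)
  linarith [hp.2 n hn]

lemma exists_third (h : Nice Γ) (w : WallSys Γ A) {a b : V} (hd : Del A a b) :
    ∃ p c, Wit A p ∧ c ∈ A ∧ B a p = 1 ∧ B b p = 1 ∧ B c p = 1 ∧ 0 < ori a b c := by
  obtain ⟨ε, hε, hb, hw⟩ := Del2_wit_le h w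
  have fab := hd.fac w
  have fba := hd.symm.fac w
  obtain ⟨ha, hbA, hab, p, hp, hap, hbp⟩ := hd
  have ua := (w.per a ha).1
  have ub := (w.per b hbA).1
  have hlt := Fac.lt ua ub fab fba
  obtain ⟨v, hv⟩ : ∃ v, v = cr a b := ⟨_, rfl⟩
  have hγ : 0 < B v v := by
    rw [hv, B_cr_cr, ua, ub]
    nlinarith
  have hav : B a v = 0 := by rw [hv]; exact B_cr_left a b
  have hbv : B b v = 0 := by rw [hv]; exact B_cr_right a b
  have hP := hw p hp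
  obtain ⟨t, ht, et⟩ : ∃ t : ℝ, 0 < t ∧ B v v * t ^ 2 + 2 * B p v * t = -(B p p + ε / 2) := by
    have hD : B p v ^ 2 < B p v ^ 2 - B v v * (B p p + ε / 2) := by
      nlinarith [mul_pos hγ (show 0 < -(B p p + ε / 2) by linarith)]
    obtain ⟨r, hr0, hr⟩ : ∃ r : ℝ, 0 ≤ r ∧ r ^ 2 = B p v ^ 2 - B v v * (B p p + ε / 2) :=
      ⟨√_, Real.sqrt_nonneg _, Real.sq_sqrt ((sq_nonneg _).trans hD.le)⟩
    have h1 : B p v < r := by
      by_contra h1
      nlinarith [not_lt.1 h1]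
    refine ⟨(r - B p v) / B v v, div_pos (by linarith) hγ, ?_⟩
    field_simp
    linear_combination 2 * hr
  have hqq : B (p + t • v) (p + t • v) = -(ε / 2) := by
    simp only [B_add_left, B_add_right, B_smul_left, B_smul_right, B_comm v p]
    linear_combination et
  have hq : Fut (p + t • v) := by
    refine hp.1.of_B (by rw [hqq]; linarith) ?_
    rw [B_add_right, B_smul_right]
    nlinarith [mul_pos hγ (pow_pos ht 2)]
  obtain ⟨s, c, hc, hx, hcx, hcq, hcp⟩ :=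
    Del2_first_hit h w hp hq (hb _ hq (by rw [hqq]; linarith))
  have haq : B a (p + t • v) = 1 := by rw [B_add_right, B_smul_right, hap, hav]; ring
  have hbq : B b (p + t • v) = 1 := by rw [B_add_right, B_smul_right, hbp, hbv]; ring
  have hax : B a ((1 - s) • p + s • (p + t • v)) = 1 := by
    rw [B_add_right, B_smul_right, B_smul_right, hap, haq]; ring
  have hbx : B b ((1 - s) • p + s • (p + t • v)) = 1 := by
    rw [B_add_right, B_smul_right, B_smul_right, hbp, hbq]; ring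
  have hca : c ≠ a := fun e => by rw [e, haq] at hcq; exact lt_irrefl _ hcq
  have hcb : c ≠ b := fun e => by rw [e, hbq] at hcq; exact lt_irrefl _ hcq
  have hdet : det3 a b c < 0 := by
    rw [B_add_right, B_smul_right] at hcq
    have h1 : t * B c v < 0 := by linarith
    have h2 : B c v < 0 := by
      by_contra h2
      linarith [mul_nonneg ht.le (not_lt.1 h2)]
    rw [hv, B_comm] at h2
    exact h2
  have hor := det3_ori ua ub (w.per c hc).1 fab fba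
    (nearest_fac w hx hc hcx hbA (by rw [hbx]; exact one_pos) hcb.symm)
    (nearest_fac w hx hbA hbx hc (by rw [hcx]; exact one_pos) hcb)
    (nearest_fac w hx hc hcx ha (by rw [hax]; exact one_pos) hca.symm)
    (nearest_fac w hx ha hax hc (by rw [hcx]; exact one_pos) hca)
  refine ⟨_, c, hx, hc, hax, hbx, hcx, ?_⟩
  by_contra h0
  linarith [mul_nonneg_of_nonpos_of_nonpos hdet.le (not_lt.1 h0)]

lemma exists_del (h : Nice Γ) (w : WallSys Γ A) {a : V} (ha : a ∈ A) : ∃ b, Del A a b := by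
  obtain ⟨ε, hε, hb, -⟩ := Del2_wit_le h w
  have ua := (w.per a ha).1
  obtain ⟨z, hz⟩ := exists_on_wall ua
  have hz' : B (Hy z) a = 0 := by rw [B_comm]; exact hz
  obtain ⟨δ, hδ, hδ'⟩ : ∃ δ : ℝ, 0 < δ ∧ ∀ n ∈ A, n ≠ a → n ≠ -a → δ ≤ |B n (Hy z)| := by
    let T : Set V := {n | (n ∈ A ∧ |B n (Hy z)| ≤ 1) ∧ n ≠ a ∧ n ≠ -a}
    have hT : T.Finite := (w.lf h z 1).subset fun n hn => hn.1
    rcases T.eq_empty_or_nonempty with e | hne
    · refine ⟨1, one_pos, fun n hn h1 h2 => ?_⟩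
      by_contra h3
      have : n ∈ T := ⟨⟨hn, (not_le.1 h3).le⟩, h1, h2⟩
      rw [e] at this
      exact this
    · obtain ⟨m, hm, hmin⟩ := Set.exists_min_image T (fun n => |B n (Hy z)|) hT hne
      refine ⟨|B m (Hy z)|, abs_pos.2 (Del2_ne_zero w ha hm.1.1 hm.2.1 hm.2.2 hz),
        fun n hn h1 h2 => ?_⟩
      by_cases h3 : |B n (Hy z)| ≤ 1
      · exact hmin n ⟨⟨hn, h3⟩, h1, h2⟩
      · linarith [hm.1.2, not_le.1 h3]
  have hsq : ∀ l : ℝ, B (a + l • Hy z) (a + l • Hy z) = 1 - l ^ 2 := by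
    intro l
    simp only [B_add_left, B_add_right, B_smul_left, B_smul_right, ua, hz, hz', Hy_unit]
    ring
  have hfut : ∀ l : ℝ, 1 < l → Fut (a + l • Hy z) := by
    intro l hl
    refine (Hy_fut z).of_B (by rw [hsq]; nlinarith) ?_
    rw [B_add_right, B_smul_right, hz', Hy_unit]
    linarith
  have hone : ∀ l : ℝ, B a (a + l • Hy z) = 1 := by
    intro l
    rw [B_add_right, B_smul_right, ua, hz]; ring
  have hl0 : 0 < 2 / δ := by positivity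
  have hp : Wit A (a + (1 + 2 / δ) • Hy z) := by
    refine ⟨hfut _ (by linarith), fun n hn => ?_⟩
    by_cases h1 : n = a
    · rw [h1, hone, abs_one]
    by_cases h2 : n = -a
    · rw [h2, B_neg_left, hone, abs_neg, abs_one]
    have h3 := hδ' n hn h1 h2
    have h4 := VH2_pars ua (Hy_unit z) hz n
    rw [(w.per n hn).1] at h4
    have h5 : |B n a| ≤ 1 + |B n (Hy z)| := by
      refine abs_le_of_sq_le_sq' ?_ (by positivity) |> abs_le.2
      nlinarith [sq_nonneg (B n (cr a (Hy z))), sq_abs (B n (Hy z)), abs_nonneg (B n (Hy z))]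
    have h6 : 2 ≤ 2 / δ * |B n (Hy z)| := by
      have := mul_le_mul_of_nonneg_left h3 hl0.le
      rwa [div_mul_cancel₀ _ hδ.ne'] at this
    rw [B_add_right, B_smul_right]
    have h7 : |(1 + 2 / δ) * B n (Hy z)| = (1 + 2 / δ) * |B n (Hy z)| := by
      rw [abs_mul, abs_of_pos (by linarith)]
    have h8 := abs_sub (B n a + (1 + 2 / δ) * B n (Hy z)) (B n a)
    rw [add_sub_cancel_left, h7] at h8
    linarith
  obtain ⟨l, hl, hl2⟩ : ∃ l : ℝ, 1 < l ∧ l ^ 2 = 1 + ε / 2 :=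
    ⟨√(1 + ε / 2), (Real.lt_sqrt zero_le_one).2 (by linarith), Real.sq_sqrt (by linarith)⟩
  obtain ⟨s, c, hc, hx, hcx, hcq, -⟩ := Del2_first_hit h w hp (hfut l hl)
    (hb _ (hfut l hl) (by rw [hsq]; linarith))
  refine ⟨c, ha, hc, fun e => ?_, _, hx, ?_, hcx⟩
  · rw [← e, hone] at hcq
    exact lt_irrefl _ hcq
  · rw [B_add_right, B_smul_right, B_smul_right, hone, hone]; ring

lemma del_fin (h : Nice Γ) (w : WallSys Γ A) :
    ∃ F : Finset (V × V), ∀ a b, Del A a b → ∃ g ∈ Γ, ∃ e ∈ F, (a, b) = (g • e.1, g • e.2) := by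
  classical
  obtain ⟨ε, hε, -, hw⟩ := Del2_wit_le h w
  obtain ⟨R, hR⟩ := h.coc
  have hfin := w.lf h I (Real.sinh (Real.arsinh (1 / √ε) + R))
  refine ⟨hfin.toFinset ×ˢ hfin.toFinset, fun a b hd => ?_⟩
  obtain ⟨ha, hb, -, p, hp, hap, hbp⟩ := hd
  obtain ⟨g, hg, hgd⟩ := hR (pt p)
  have key : ∀ n ∈ A, B n p = 1 → g • n ∈ hfin.toFinset := by
    intro n hn h1
    have hm := w.inv g hg n hn
    rw [Set.Finite.mem_toFinset]
    refine ⟨hm, ?_⟩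
    have h2 := VH3_lip (w.per _ hm).1 I (g • pt p)
    rw [Hy_smul, B_ad, dist_comm] at h2
    have h0 : 0 < √ε := Real.sqrt_pos.2 hε
    have h3 : √ε ≤ √(-B p p) := Real.sqrt_le_sqrt (by linarith [hw p hp])
    have h4 : |B n (Hy (pt p))| ≤ 1 / √ε := by
      rw [Hy_pt hp.1, B_smul_right, h1, mul_one, abs_of_nonneg (by positivity)]
      exact one_div_le_one_div_of_le h0 h3
    have h5 := Real.arsinh_le_arsinh.2 h4
    rw [← Real.sinh_arsinh |B (g • n) (Hy I)|]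
    exact Real.sinh_le_sinh.2 (by linarith)
  refine ⟨g⁻¹, Γ.inv_mem hg, (g • a, g • b),
    Finset.mem_product.2 ⟨key a ha hap, key b hb hbp⟩, ?_⟩
  simp only [inv_smul_smul]

lemma del_conn (h : Nice Γ) (w : WallSys Γ A) {S : Set V} (h1 : ∀ a ∈ S, -a ∈ S)
    (h2 : ∀ a ∈ S, ∀ b, Del A a b → b ∈ S) (h3 : ∃ a ∈ A, a ∈ S) : A ⊆ S := by
  intro x hx
  by_contra hxS
  obtain ⟨a0, ha0, ha0S⟩ := h3
  obtain ⟨z, a, b, ha, hb, hab, hmin⟩ := exists_equidistant (S := A ∩ S) (T := A \ S)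
    ((w.lf h).mono Set.inter_subset_left) ((w.lf h).mono Set.sdiff_subset)
    (fun n hn => (w.per n hn.1).1) (fun n hn => (w.per n hn.1).1) ⟨a0, ha0, ha0S⟩ ⟨x, hx, hxS⟩
  have hv : 0 < |B a (Hy z)| := by
    refine abs_pos.2 fun h0 => ?_
    have h4 : b ≠ a := fun e => hb.2 (e ▸ ha.2)
    have h5 : b ≠ -a := fun e => hb.2 (e ▸ h1 a ha.2)
    apply Del2_ne_zero w ha.1 hb.1 h4 h5 h0
    rw [h0, abs_zero] at hab
    exact abs_eq_zero.1 hab.symm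
  obtain ⟨v, ev⟩ : ∃ v, v = |B a (Hy z)| := ⟨_, rfl⟩
  rw [← ev] at hv hmin
  have habs : ∀ n, |B n ((1 / v) • Hy z)| = |B n (Hy z)| / v := by
    intro n
    rw [B_smul_right, abs_mul, abs_of_pos (by positivity)]
    ring
  have hp : Wit A ((1 / v) • Hy z) := by
    refine ⟨(Hy_fut z).smul (by positivity), fun n hn => ?_⟩
    rw [habs, one_le_div hv]
    by_cases hn' : n ∈ S
    · exact hmin n (Or.inl ⟨hn, hn'⟩)
    · exact hmin n (Or.inr ⟨hn, hn'⟩)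
  have sgn : ∀ n ∈ A, |B n (Hy z)| = v →
      ∃ m ∈ A, (m = n ∨ m = -n) ∧ B m ((1 / v) • Hy z) = 1 := by
    intro n hn e
    have h4 : |B n ((1 / v) • Hy z)| = 1 := by rw [habs, e, div_self hv.ne']
    rcases (abs_eq zero_le_one).1 h4 with h5 | h5
    · exact ⟨n, hn, Or.inl rfl, h5⟩
    · exact ⟨-n, w.neg n hn, Or.inr rfl, by rw [B_neg_left, h5, neg_neg]⟩
  obtain ⟨a', ha', ea, hap⟩ := sgn a ha.1 ev.symm
  obtain ⟨b', hb', eb, hbp⟩ := sgn b hb.1 (hab.symm.trans ev.symm)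
  have haS : a' ∈ S := by
    rcases ea with e | e
    · rw [e]; exact ha.2
    · rw [e]; exact h1 a ha.2
  have hbS : b' ∉ S := by
    intro hh
    rcases eb with e | e
    · exact hb.2 (e ▸ hh)
    · have := h1 b' hh
      rw [e, neg_neg] at this
      exact hb.2 this
  exact hbS (h2 a' haS b' ⟨ha', hb', fun e => hbS (e ▸ haS), _, hp, hap, hbp⟩)


end

end Pool.Agent.P.MP_d39174_gt

end

section
/-! Existence of the triangulation. -/

namespace Pool.Agent.P.MP_d39174_gt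

open UpperHalfPlane MatrixGroups

noncomputable section

variable {Γ : Subgroup SL(2, ℝ)} {A : Set V}

/-- Invariant non-crossing families of Delaunay pairs. -/
structure Del3Fam (Γ : Subgroup SL(2, ℝ)) (A : Set V) (E : Set (V × V)) : Prop where
  del : ∀ d ∈ E, Del A d.1 d.2
  symm : ∀ a b, (a, b) ∈ E → (b, a) ∈ E
  inv : ∀ g ∈ Γ, ∀ a b, (a, b) ∈ E → (g • a, g • b) ∈ E
  ncr : ∀ d ∈ E, ∀ e ∈ E, ¬ Cr d.1 d.2 e.1 e.2

lemma del3_inv (w : WallSys Γ A) {a b c d : V} (ha : a ∈ A) (hb : b ∈ A) (hc : c ∈ A) (hd : d ∈ A)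
    {g : SL(2, ℝ)} (hg : g ∈ Γ) (h : Cr (g • a) (g • b) c d) : Cr a b (g⁻¹ • c) (g⁻¹ • d) := by
  have := (Cr.ad g⁻¹ (w.per _ (w.inv g hg a ha)).1 (w.per _ (w.inv g hg b hb)).1 (w.per c hc).1
    (w.per d hd).1).2 h
  rwa [inv_smul_smul, inv_smul_smul] at this

lemma del3_extend (h : Nice Γ) (w : WallSys Γ A) {E : Set (V × V)} (F : Del3Fam Γ A E) {a b : V}
    (hd : Del A a b) (hn : ∀ e ∈ E, ¬ Cr a b e.1 e.2) :
    Del3Fam Γ A (E ∪ {d | ∃ g ∈ Γ, d = (g • a, g • b) ∨ d = (g • b, g • a)}) := by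
  have ha := hd.1
  have hb := hd.2.1
  have k1 : ∀ g ∈ Γ, ∀ e ∈ E, ¬ Cr (g • a) (g • b) e.1 e.2 := fun g hg e he hc =>
    hn _ (F.inv g⁻¹ (inv_mem hg) e.1 e.2 he)
      (del3_inv w ha hb (F.del e he).1 (F.del e he).2.1 hg hc)
  have k2 : ∀ g ∈ Γ, ∀ g' ∈ Γ, ¬ Cr (g • a) (g • b) (g' • a) (g' • b) := fun g hg g' hg' hc => by
    have := del3_inv w ha hb (w.inv g' hg' a ha) (w.inv g' hg' b hb) hg hc
    rw [← mul_smul, ← mul_smul] at this
    exact hd.not_cr_self h w (mul_mem (inv_mem hg) hg') this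
  refine ⟨?_, ?_, ?_, ?_⟩
  · rintro d (hd' | ⟨g, hg, rfl | rfl⟩)
    · exact F.del d hd'
    · exact hd.ad w hg
    · exact hd.symm.ad w hg
  · rintro x y (hd' | ⟨g, hg, e | e⟩)
    · exact Or.inl (F.symm _ _ hd')
    · obtain ⟨rfl, rfl⟩ := Prod.ext_iff.1 e
      exact Or.inr ⟨g, hg, Or.inr rfl⟩
    · obtain ⟨rfl, rfl⟩ := Prod.ext_iff.1 e
      exact Or.inr ⟨g, hg, Or.inl rfl⟩
  · rintro k hk x y (hd' | ⟨g, hg, e | e⟩)
    · exact Or.inl (F.inv k hk _ _ hd')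
    · obtain ⟨rfl, rfl⟩ := Prod.ext_iff.1 e
      exact Or.inr ⟨k * g, mul_mem hk hg, Or.inl (by rw [mul_smul, mul_smul])⟩
    · obtain ⟨rfl, rfl⟩ := Prod.ext_iff.1 e
      exact Or.inr ⟨k * g, mul_mem hk hg, Or.inr (by rw [mul_smul, mul_smul])⟩
  · rintro d (hd' | ⟨g, hg, rfl | rfl⟩) e (he | ⟨g', hg', rfl | rfl⟩) hc
    · exact F.ncr d hd' e he hc
    · exact k1 g' hg' d hd' hc.symm
    · exact k1 g' hg' d hd' hc.swap_right.symm
    · exact k1 g hg e he hc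
    · exact k2 g hg g' hg' hc
    · exact k2 g hg g' hg' hc.swap_right
    · exact k1 g hg e he hc.swap_left
    · exact k2 g hg g' hg' hc.swap_left
    · exact k2 g hg g' hg' hc.swap_left.swap_right

/-- A maximal invariant non-crossing family of Delaunay pairs. -/
lemma exists_max (h : Nice Γ) (w : WallSys Γ A) : ∃ E : Set (V × V),
    (∀ d ∈ E, Del A d.1 d.2) ∧ (∀ a b, (a, b) ∈ E → (b, a) ∈ E) ∧
    (∀ g ∈ Γ, ∀ a b, (a, b) ∈ E → (g • a, g • b) ∈ E) ∧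
    (∀ d ∈ E, ∀ e ∈ E, ¬ Cr d.1 d.2 e.1 e.2) ∧
    ∀ a b, Del A a b → (∀ e ∈ E, ¬ Cr a b e.1 e.2) → (a, b) ∈ E := by
  obtain ⟨E, hE⟩ := zorn_subset {E | Del3Fam Γ A E} fun c hc hch => by
    refine ⟨⋃₀ c, ⟨?_, ?_, ?_, ?_⟩, fun s hs => Set.subset_sUnion_of_mem hs⟩
    · rintro d ⟨s, hs, hd⟩
      exact (hc hs).del d hd
    · rintro a b ⟨s, hs, hd⟩
      exact ⟨s, hs, (hc hs).symm a b hd⟩
    · rintro g hg a b ⟨s, hs, hd⟩
      exact ⟨s, hs, (hc hs).inv g hg a b hd⟩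
    · rintro d ⟨s, hs, hd⟩ e ⟨t, ht, he⟩
      rcases hch.total hs ht with l | l
      · exact (hc ht).ncr d (l hd) e he
      · exact (hc hs).ncr d hd e (l he)
  have F : Del3Fam Γ A E := hE.prop
  refine ⟨E, F.del, F.symm, F.inv, F.ncr, fun a b hd hn => ?_⟩
  refine hE.le_of_ge (del3_extend h w F hd hn) Set.subset_union_left
    (Or.inr ⟨1, one_mem _, Or.inl (by rw [one_smul, one_smul])⟩)

section Cell

variable (h : Nice Γ) (w : WallSys Γ A) {E : Set (V × V)} (F : Del3Fam Γ A E)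
  (hm : ∀ a b, Del A a b → (∀ e ∈ E, ¬ Cr a b e.1 e.2) → (a, b) ∈ E)
  {p a : V} (hp : Wit A p) (ha : a ∈ A) (hap : B a p = 1)

include h w ha in
lemma del3_fin {x : V} (hx : x ∈ A) (hne : x ≠ a) : Fin' a x :=
  h.fin' (w.per a ha) (w.per x hx) hne.symm

include h w F hp in
lemma del3_share {x y : V} (hx : x ∈ A) (hy : y ∈ A) (h1 : B x p = 1) (h2 : B y p = 1)
    {e : V × V} (he : e ∈ E) (hc : Cr x y e.1 e.2) : B e.1 p = 1 ∧ B e.2 p = 1 := by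
  obtain ⟨m1, m2, -, q, hq, q1, q2⟩ := F.del e he
  exact share h w hp hq hx hy m1 m2 h1 h2 q1 q2 hc

include h w F hm hp ha hap in
/-- An extreme point of the cell is joined to `a`. -/
lemma del3_ext {m : V} (hmA : m ∈ A) (hmp : B m p = 1) (hne : m ≠ a)
    (hx : (∀ x ∈ A, B x p = 1 → x ≠ a → crd a x ≤ crd a m) ∨
      ∀ x ∈ A, B x p = 1 → x ≠ a → crd a m ≤ crd a x) : (a, m) ∈ E := by
  refine hm a m ⟨ha, hmA, hne.symm, p, hp, hap, hmp⟩ fun e he hc => ?_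
  obtain ⟨s1, s2⟩ := del3_share h w F hp ha hmA hap hmp he hc
  have m1 := (F.del e he).1
  have m2 := (F.del e he).2.1
  have n1 := hc.ne.2.1
  have n2 := hc.ne.2.2.2.1
  have := (Cr_crd' (w.per a ha).1 (del3_fin h w ha hmA hne) (del3_fin h w ha m1 n1)
    (del3_fin h w ha m2 n2)).1 hc
  rcases hx with hx | hx
  · have t1 := hx _ m1 s1 n1
    have t2 := hx _ m2 s2 n2
    nlinarith [mul_nonneg (sub_nonneg.2 t1) (sub_nonneg.2 t2)]
  · have t1 := hx _ m1 s1 n1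
    have t2 := hx _ m2 s2 n2
    nlinarith [mul_nonneg (sub_nonneg.2 t1) (sub_nonneg.2 t2)]

lemma del3_sign {u v c d : ℝ} (huv : u < v) (hc : (v - c) * (c - u) * ((v - d) * (d - u)) < 0) :
    ((u < c ∧ c < v) ∧ (d < u ∨ v < d)) ∨ ((u < d ∧ d < v) ∧ (c < u ∨ v < c)) := by
  have k1 : ∀ x : ℝ, 0 < (v - x) * (x - u) → u < x ∧ x < v := fun x hx => by
    constructor <;> nlinarith
  have k2 : ∀ x : ℝ, (v - x) * (x - u) < 0 → x < u ∨ v < x := fun x hx => by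
    by_contra hn
    push Not at hn
    nlinarith [mul_nonneg (sub_nonneg.2 hn.1) (sub_nonneg.2 hn.2)]
  rcases mul_neg_iff.1 hc with l | l
  · exact Or.inl ⟨k1 c l.1, k2 d l.2⟩
  · exact Or.inr ⟨k1 d l.2, k2 c l.1⟩

include h w F hm hp ha in
/-- Two points of the cell are joined unless an edge leaves the interval between them. -/
lemma del3_join {u v : V} (hu : u ∈ A) (hup : B u p = 1) (hua : u ≠ a) (hv : v ∈ A)
    (hvp : B v p = 1) (hva : v ≠ a) (huv : crd a u < crd a v)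
    (hx : ∀ x y, (x, y) ∈ E → B x p = 1 → x ≠ a → crd a u < crd a x → crd a x < crd a v →
      (y = a ∨ (y ≠ a ∧ (crd a y < crd a u ∨ crd a v < crd a y))) → False) : (u, v) ∈ E := by
  have hne : u ≠ v := fun e => by rw [e] at huv; exact lt_irrefl _ huv
  refine hm u v ⟨hu, hv, hne, p, hp, hup, hvp⟩ fun e he hc => ?_
  obtain ⟨s1, s2⟩ := del3_share h w F hp hu hv hup hvp he hc
  obtain ⟨c, d⟩ := e
  have m1 : c ∈ A := (F.del _ he).1
  have m2 : d ∈ A := (F.del _ he).2.1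
  have ua := (w.per a ha).1
  have fu := del3_fin h w ha hu hua
  have fv := del3_fin h w ha hv hva
  have key : ∀ x, x ∈ A → (x, a) ∈ E → B x p = 1 → Cr a x u v → False := by
    intro x hxA hxE hxp hcr
    have hxa : x ≠ a := hcr.ne.1.symm
    have := (Cr_crd' ua (del3_fin h w ha hxA hxa) fu fv).1 hcr
    refine hx x a hxE hxp hxa ?_ ?_ (Or.inl rfl) <;> nlinarith
  by_cases hca : c = a
  · subst hca
    exact key d m2 (F.symm _ _ he) s2 hc.symm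
  by_cases hda : d = a
  · subst hda
    exact key c m1 he s1 hc.symm.swap_left
  have := ((Cr_crd ua fu fv (del3_fin h w ha m1 hca) (del3_fin h w ha m2 hda)).1 hc).2
  rcases del3_sign huv this with l | l
  · exact hx c d he s1 hca l.1.1 l.1.2 (Or.inr ⟨hda, l.2⟩)
  · exact hx d c (F.symm _ _ he) s2 hda l.1.1 l.1.2 (Or.inr ⟨hca, l.2⟩)

include h w F hm hp ha hap in
lemma del3_top {b : V} (hb : b ∈ A) (hbp : B b p = 1) (hba : b ≠ a) :
    ∃ m, (a, m) ∈ E ∧ B m p = 1 ∧ crd a b ≤ crd a m := by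
  have hf : {x | x ∈ A ∧ B x p = 1 ∧ x ≠ a}.Finite :=
    (cell_finite h w hp.1).subset fun x hx => ⟨hx.1, hx.2.1⟩
  obtain ⟨m, hm1, hm2⟩ := Set.exists_max_image _ (crd a) hf ⟨b, hb, hbp, hba⟩
  exact ⟨m, del3_ext h w F hm hp ha hap hm1.1 hm1.2.1 hm1.2.2
    (Or.inl fun x h1 h2 h3 => hm2 x ⟨h1, h2, h3⟩), hm1.2.1, hm2 b ⟨hb, hbp, hba⟩⟩

end Cell

lemma del3_tri (h : Nice Γ) (w : WallSys Γ A) {E : Set (V × V)} (F : Del3Fam Γ A E)
    (hm : ∀ a b, Del A a b → (∀ e ∈ E, ¬ Cr a b e.1 e.2) → (a, b) ∈ E) {a b : V}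
    (hab : (a, b) ∈ E) : ∃ c, (b, c) ∈ E ∧ (c, a) ∈ E ∧ 0 < ori a b c := by
  have hd : Del A a b := F.del _ hab
  have ha := hd.1
  have hb := hd.2.1
  have hba : b ≠ a := hd.2.2.1.symm
  have ua := (w.per a ha).1
  obtain ⟨p, c0, hp, hc0, hap, hbp, hcp, ho⟩ := exists_third h w hd
  have hca : c0 ≠ a := fun e => by
    rw [e, ori_cyc, ori_self] at ho
    exact lt_irrefl _ ho
  have fb := del3_fin h w ha hb hba
  have l0 := (ori_pos_iff ua fb (del3_fin h w ha hc0 hca)).1 ho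
  obtain ⟨m, m1, m2, m3⟩ := del3_top h w F hm hp ha hap hc0 hcp hca
  have hf : {x | (a, x) ∈ E ∧ B x p = 1 ∧ crd a b < crd a x}.Finite :=
    (cell_finite h w hp.1).subset fun x hx => ⟨(F.del _ hx.1).2.1, hx.2.1⟩
  obtain ⟨c, hc1, hc2⟩ := Set.exists_min_image _ (crd a) hf ⟨m, m1, m2, l0.trans_le m3⟩
  have hcA : c ∈ A := (F.del _ hc1.1).2.1
  have hcne : c ≠ a := (F.del _ hc1.1).2.2.1.symm
  have fc := del3_fin h w ha hcA hcne
  refine ⟨c, del3_join h w F hm hp ha hb hbp hba hcA hc1.2.1 hcne hc1.2.2 ?_, F.symm _ _ hc1.1,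
    (ori_pos_iff ua fb fc).2 hc1.2.2⟩
  intro x y hxy hxp hxa l1 l2 hy
  have fx := del3_fin h w ha (F.del _ hxy).1 hxa
  rcases hy with rfl | ⟨hya, l3 | l3⟩
  · exact absurd (hc2 x ⟨F.symm _ _ hxy, hxp, l1⟩) (not_le.2 l2)
  · exact F.ncr _ hab _ hxy ((Cr_crd' ua fb fx (del3_fin h w ha (F.del _ hxy).2.1 hya)).2
      (mul_neg_of_pos_of_neg (sub_pos.2 l1) (sub_neg.2 l3)))
  · exact F.ncr _ hc1.1 _ hxy ((Cr_crd' ua fc fx (del3_fin h w ha (F.del _ hxy).2.1 hya)).2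
      (mul_neg_of_neg_of_pos (sub_neg.2 l2) (sub_pos.2 l3)))

lemma del3_conn (h : Nice Γ) (w : WallSys Γ A) {E : Set (V × V)} (F : Del3Fam Γ A E)
    (hm : ∀ a b, Del A a b → (∀ e ∈ E, ¬ Cr a b e.1 e.2) → (a, b) ∈ E) {S : Set V}
    (hS : ∀ a ∈ S, ∀ b, (a, b) ∈ E → b ∈ S) {a b : V} (haS : a ∈ S) (hd : Del A a b) : b ∈ S := by
  by_contra hb
  obtain ⟨ha, hbA, -, p, hp, hap, hbp⟩ := hd
  have hf : {y | y ∈ A ∧ B y p = 1 ∧ y ∉ S}.Finite :=
    (cell_finite h w hp.1).subset fun x hx => ⟨hx.1, hx.2.1⟩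
  obtain ⟨y, ⟨y1, y2, y3⟩, hy⟩ := Set.exists_min_image _ (crd a) hf ⟨b, hbA, hbp, hb⟩
  have hya : y ≠ a := fun e => y3 (e ▸ haS)
  have hf' : {x | x ∈ A ∧ B x p = 1 ∧ x ≠ a ∧ crd a x < crd a y}.Finite :=
    (cell_finite h w hp.1).subset fun x hx => ⟨hx.1, hx.2.1⟩
  rcases Set.eq_empty_or_nonempty {x | x ∈ A ∧ B x p = 1 ∧ x ≠ a ∧ crd a x < crd a y} with e | e
  · refine y3 (hS a haS y (del3_ext h w F hm hp ha hap y1 y2 hya (Or.inr fun x h1 h2 h3 => ?_)))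
    by_contra hl
    exact (Set.eq_empty_iff_forall_notMem.1 e x) ⟨h1, h2, h3, not_le.1 hl⟩
  · obtain ⟨x, ⟨x1, x2, x3, x4⟩, hx⟩ := Set.exists_max_image _ (crd a) hf' e
    have hxS : x ∈ S := by
      by_contra hn
      exact absurd (hy x ⟨x1, x2, hn⟩) (not_le.2 x4)
    refine y3 (hS x hxS y (del3_join h w F hm hp ha x1 x2 x3 y1 y2 hya x4 ?_))
    intro u v huv hup hua l1 l2 _
    exact absurd (hx u ⟨(F.del _ huv).1, hup, hua, l2⟩) (not_le.2 l1)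

theorem exists_tr (h : Nice Γ) (w : WallSys Γ A) : ∃ T : Tr Γ, T.A = A := by
  obtain ⟨E, e1, e2, e3, e4, hm⟩ := exists_max h w
  have F : Del3Fam Γ A E := ⟨e1, e2, e3, e4⟩
  refine ⟨⟨A, E, h, w, e1, e2, e3, fun d hd => (e1 d hd).fac w, e4,
    fun d hd c hc => (e1 d hd).not_cr_wall w hc, fun a b hab => del3_tri h w F hm hab, ?_, ?_,
    fun S h1 h2 h3 => del_conn h w h1 (fun a ha b hd => del3_conn h w F hm h2 ha hd) h3⟩, rfl⟩
  · obtain ⟨T, hT⟩ := del_fin h w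
    exact ⟨T, fun d hd => hT d.1 d.2 (e1 d hd)⟩
  · intro a ha
    obtain ⟨b, -, hb, hne, p, hp, hap, hbp⟩ := exists_del h w ha
    obtain ⟨m, m1, -⟩ := del3_top h w F hm hp ha hap hb hbp hne.symm
    exact ⟨m, m1⟩

end

end Pool.Agent.P.MP_d39174_gt

end

section
/-! Fans of darts along a wall. -/

namespace Pool.Agent.P.MP_d39174_gt

open UpperHalfPlane MatrixGroups

noncomputable section

namespace Tr

variable {Γ : Subgroup SL(2, ℝ)} {T : Tr Γ}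

/-- The period of the fan modulo `Γ`. -/
def D.f (d : T.D) : ℕ := sInf {i : ℕ | 0 < i ∧ ∃ g : Γ, (T.φ ^ i) d = g • d}

lemma fin' {a b : V} (ha : a ∈ T.A) (hb : b ∈ T.A) (h : a ≠ b) : Fin' a b :=
  T.nice.fin' (T.ws.per _ ha) (T.ws.per _ hb) h
lemma fan_fin_c (d : T.D) : Fin' d.a d.c := fin' d.a_mem d.c_mem (T.del _ d.mem_ca).2.2.1.symm
lemma D.B_lt (d : T.D) : B d.a d.b < -1 := Fac.lt d.a_unit d.b_unit d.fac (T.ι d).fac
lemma D.b_ne_neg (d : T.D) : d.b ≠ -d.a := fun e => by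
  have h := d.B_lt
  rw [e, B_neg_right, d.a_unit] at h
  exact lt_irrefl _ h
lemma D.r_neg (d : T.D) : d.r < 0 :=
  (side_iff d.a_unit (fin' d.a_mem d.b_mem d.a_ne_b)).1.1 d.fac.1
lemma D.r_lt (d : T.D) : d.r < (T.φ d).r := by
  rw [D.r, D.r, φ_a, φ_b]
  exact (ori_pos_iff d.a_unit (fin' d.a_mem d.b_mem d.a_ne_b) (fan_fin_c d)).1 d.ori_pos
lemma eq_of_r {d e : T.D} (h : e.a = d.a) (h' : e.r = d.r) : e = d := by
  have f := fin' e.a_mem e.b_mem e.a_ne_b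
  rw [D.r, D.r, h] at h'
  rw [h] at f
  exact D.ext h (T.nice.eq_of_br (T.ws.per _ e.b_mem) (T.ws.per _ d.b_mem)
    ((crd_eq_iff d.a_unit f (fin' d.a_mem d.b_mem d.a_ne_b)).1 h'))
lemma no_between {d e : T.D} (h : e.a = d.a) (h' : d.r < e.r) : (T.φ d).r ≤ e.r := by
  by_contra hlt
  have f := fin' e.a_mem e.b_mem e.a_ne_b
  have m := e.mem
  rw [not_le, D.r, D.r, φ_a, φ_b, h] at hlt
  rw [D.r, D.r, h] at h'
  rw [h] at f m
  exact T.ncr _ m _ d.mem_bc ((Cr_crd' d.a_unit f (fin' d.a_mem d.b_mem d.a_ne_b) (fan_fin_c d)).2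
    (mul_neg_of_neg_of_pos (by linarith) (by linarith)))
lemma fan_inv (σ : Equiv.Perm T.D) (d : T.D) : σ (σ⁻¹ d) = d := σ.apply_symm_apply d
lemma φ_zpow_a (d : T.D) (i : ℤ) : ((T.φ ^ i) d).a = d.a := by
  induction i using Int.induction_on generalizing d with
  | zero => rfl
  | succ i ih => rw [zpow_add_one, Equiv.Perm.mul_apply, ih, φ_a]
  | pred i ih =>
    rw [zpow_sub_one, Equiv.Perm.mul_apply, ih, ← φ_a (T.φ⁻¹ d), fan_inv]
lemma φ_pow_a (d : T.D) (i : ℕ) : ((T.φ ^ i) d).a = d.a := by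
  rw [← zpow_natCast, φ_zpow_a]
lemma φ_zpow_smul (g : Γ) (d : T.D) (i : ℤ) : (T.φ ^ i) (g • d) = g • (T.φ ^ i) d := by
  induction i using Int.induction_on generalizing d with
  | zero => rfl
  | succ i ih => rw [zpow_add_one, Equiv.Perm.mul_apply, φ_smul, ih, Equiv.Perm.mul_apply]
  | pred i ih =>
    have e : T.φ⁻¹ (g • d) = g • T.φ⁻¹ d := T.φ.injective (by
      rw [φ_smul, fan_inv, fan_inv])
    rw [zpow_sub_one, Equiv.Perm.mul_apply, e, ih, Equiv.Perm.mul_apply]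
lemma φ_pow_smul (g : Γ) (d : T.D) (i : ℕ) : (T.φ ^ i) (g • d) = g • (T.φ ^ i) d := by
  rw [← zpow_natCast, φ_zpow_smul]
lemma r_zpow_strictMono (d : T.D) : StrictMono fun i : ℤ => ((T.φ ^ i) d).r :=
  strictMono_int_of_lt_succ fun i => by
    rw [add_comm, zpow_one_add, Equiv.Perm.mul_apply]
    exact D.r_lt _
lemma fan_mono (d : T.D) : StrictMono fun i : ℕ => ((T.φ ^ i) d).r :=
  strictMono_nat_of_lt_succ fun i => by
    rw [pow_succ', Equiv.Perm.mul_apply]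
    exact D.r_lt _
lemma φ_inv_apply (d : T.D) : T.φ⁻¹ d = T.ν (T.ι d) := T.φ.injective (by
  rw [fan_inv, φ_apply, ν_ν_ν, ι_ι])
lemma pm_of_smul_eq {g : Γ} {d : T.D} (h : g • d = d) : PM 1 g := by
  refine pm_of_ad (n := d.a) (m := d.b) (fun e => ?_) ?_ ?_
  · have h1 := B_cr_cr d.a d.b
    rw [e, B_zero_left, d.a_unit, d.b_unit] at h1
    nlinarith [d.B_lt]
  · rw [one_smul, ← smul_a, h]
  · rw [one_smul, ← smul_b, h]
lemma smul_of_pm {g h : Γ} (e : PM g h) (d : T.D) : g • d = h • d := D.ext (e.ad _) (e.ad _)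
lemma r_ex {g : Γ} {d : T.D} {t : ℝ} (h : PM (ex t d.a) g) :
    (g • d).a = d.a ∧ (g • d).r = Real.exp (2 * t) * d.r := by
  have e : (g • d).a = d.a := by rw [smul_a, ← h.ad, ex_ad_self]
  exact ⟨e, by rw [D.r, D.r, e, smul_b, ← h.ad, crd_ex d.a_unit d.b_unit]⟩
instance : Nonempty T.D := by
  obtain ⟨a, ha⟩ := T.ws.ne
  obtain ⟨b, hb⟩ := T.has a ha
  exact ⟨⟨(a, b), hb⟩⟩
lemma fan_reps : ∃ S : Set T.D, S.Finite ∧ ∀ d : T.D, ∃ g : Γ, ∃ e ∈ S, d = g • e := by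
  obtain ⟨F, hF⟩ := T.fin
  refine ⟨_, F.finite_toSet.preimage Subtype.val_injective.injOn, fun d => ?_⟩
  obtain ⟨g, hg, e, he, h⟩ := hF d.1 d.2
  refine ⟨⟨g, hg⟩, (⟨g, hg⟩ : Γ)⁻¹ • d, ?_, (smul_inv_smul _ _).symm⟩
  have h1 : d.a = g • e.1 := congrArg Prod.fst h
  have h2 : d.b = g • e.2 := congrArg Prod.snd h
  show (g⁻¹ • d.a, g⁻¹ • d.b) ∈ (F : Set (V × V))
  rwa [h1, h2, inv_smul_smul, inv_smul_smul]
lemma fan_int {t u : ℝ} (ht : 0 < t) (hu : 0 < u) (v : ℝ) :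
    {m : ℤ | u ≤ Real.exp (2 * (m * t)) ∧ Real.exp (2 * (m * t)) ≤ v}.Finite := by
  refine (Set.finite_Icc ⌈Real.log u / (2 * t)⌉ ⌊v / (2 * t)⌋).subset fun m hm => ⟨?_, ?_⟩
  · rw [Int.ceil_le, div_le_iff₀ (by positivity)]
    linarith [(Real.log_le_iff_le_exp hu).2 hm.1]
  · rw [Int.le_floor, le_div_iff₀ (by positivity)]
    linarith [hm.2, Real.add_one_le_exp (2 * (m * t))]
instance : Finite (MulAction.orbitRel.Quotient Γ T.D) := by
  obtain ⟨S, hS, h⟩ := fan_reps (T := T)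
  refine Set.finite_univ_iff.1 ((hS.image (Quotient.mk (MulAction.orbitRel Γ T.D))).subset ?_)
  rintro ⟨d⟩ -
  obtain ⟨g, e, he, rfl⟩ := h d
  exact ⟨e, he, (Quotient.sound (MulAction.mem_orbit e g)).symm⟩
lemma finite_window (a : V) {r₁ r₂ : ℝ} (h : r₂ < 0) :
    {e : T.D | e.a = a ∧ r₁ ≤ e.r ∧ e.r ≤ r₂}.Finite := by
  obtain ⟨S, hS, hr⟩ := fan_reps (T := T)
  refine (hS.biUnion (t := fun e₀ => {e : T.D | (e.a = a ∧ r₁ ≤ e.r ∧ e.r ≤ r₂) ∧
    ∃ g : Γ, e = g • e₀}) fun e₀ _ => ?_).subset fun e he => ?_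
  · by_contra hn
    obtain ⟨e₁, ⟨rfl, -⟩, g₁, h1⟩ := Set.Infinite.nonempty hn
    refine hn ?_
    obtain ⟨t, ht⟩ := T.nice.exists_prim (T.ws.per _ e₁.a_mem)
    have r0 := e₁.r_neg
    refine Set.Finite.of_finite_image (f := D.r) (((fan_int ht.pos (div_pos_of_neg_of_neg h r0)
      (r₁ / e₁.r)).image fun m : ℤ => Real.exp (2 * (m * t)) * e₁.r).subset ?_)
      fun e he e' he' h' => eq_of_r (he.1.1.trans he'.1.1.symm) h'
    rintro _ ⟨e, ⟨⟨h2, h3, h4⟩, g, h5⟩, rfl⟩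
    have h6 : e = (g * g₁⁻¹) • e₁ := by rw [h5, h1, mul_smul, inv_smul_smul]
    obtain ⟨m, hm⟩ := ht.gen _ (g * g₁⁻¹).2 (by rw [← smul_a, ← h6, h2])
    have h7 := (r_ex hm).2
    rw [← h6] at h7
    refine ⟨m, ⟨?_, ?_⟩, h7.symm⟩
    · rwa [div_le_iff_of_neg r0, ← h7]
    · rwa [le_div_iff_of_neg r0, ← h7]
  · obtain ⟨g, e₀, h0, h1⟩ := hr e
    exact Set.mem_biUnion h0 ⟨he, g, h1⟩
lemma fan_nat {d e : T.D} (h : e.a = d.a) (h' : d.r ≤ e.r) : ∃ i : ℕ, e = (T.φ ^ i) d := by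
  classical
  have hex : ∃ i : ℕ, e.r < ((T.φ ^ i) d).r := by
    by_contra hn
    refine (finite_window d.a (r₁ := d.r) e.r_neg).not_infinite
      (Set.infinite_of_injective_forall_mem (f := fun i : ℕ => (T.φ ^ i) d)
        (Function.Injective.of_comp (f := D.r) (fan_mono d).injective) fun i =>
        ⟨φ_pow_a d i, ?_, not_lt.1 fun h1 => hn ⟨i, h1⟩⟩)
    simpa only [pow_zero, Equiv.Perm.one_apply] using (fan_mono d).monotone (Nat.zero_le i)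
  have h1 := Nat.find_spec hex
  have h2 := fun j => Nat.find_min hex (m := j)
  generalize Nat.find hex = i at h1 h2
  rcases i with _ | i
  · rw [pow_zero, Equiv.Perm.one_apply] at h1
    exact absurd h' (not_le.2 h1)
  · have h3 := h.trans (φ_pow_a d i).symm
    refine ⟨i, eq_of_r h3 (le_antisymm (not_lt.1 fun h4 => ?_) (not_lt.1 (h2 i i.lt_succ_self)))⟩
    rw [pow_succ', Equiv.Perm.mul_apply] at h1
    exact (no_between h3 h4).not_gt h1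
lemma fan {d e : T.D} (h : e.a = d.a) : ∃ i : ℤ, e = (T.φ ^ i) d := by
  rcases le_total d.r e.r with h1 | h1
  · obtain ⟨i, hi⟩ := fan_nat h h1
    exact ⟨i, by rw [zpow_natCast, hi]⟩
  · obtain ⟨i, hi⟩ := fan_nat h.symm h1
    exact ⟨-i, by rw [zpow_neg, zpow_natCast, Equiv.Perm.eq_inv_iff_eq, hi]⟩
lemma exists_first {a : V} (ha : a ∈ T.A) {ω : ℝ} (hω : ω < 0) :
    ∃ d : T.D, d.a = a ∧ ω < d.r ∧ ∀ e : T.D, e.a = a → ω < e.r → d.r ≤ e.r := by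
  obtain ⟨b, hb⟩ := T.has a ha
  obtain ⟨-, t, ht, hm⟩ := T.ws.per a ha
  obtain ⟨d₀, rfl⟩ : ∃ d : T.D, d.a = a := ⟨⟨(a, b), hb⟩, rfl⟩
  have r0 := d₀.r_neg
  obtain ⟨n, hn⟩ := exists_pow_lt_of_lt_one (div_pos_of_neg_of_neg hω r0)
    (Real.exp_lt_one_iff.2 (show 2 * -t < 0 by linarith))
  have hg : ex (n * -t) d₀.a ∈ Γ := by
    rw [← ex_pow, ex_neg]
    exact Γ.pow_mem (Γ.inv_mem hm) n
  obtain ⟨h1, h2⟩ := r_ex (g := ⟨_, hg⟩) (PM.refl _)
  generalize (⟨_, hg⟩ : Γ) • d₀ = d₁ at h1 h2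
  have h3 : ω < d₁.r := by
    rw [h2, ← lt_div_iff_of_neg r0, mul_left_comm, Real.exp_nat_mul]
    exact hn
  obtain ⟨d, hd, hmin⟩ := Set.exists_min_image {e : T.D | e.a = d₀.a ∧ ω < e.r ∧ e.r ≤ d₁.r} D.r
    ((finite_window d₀.a (r₁ := ω) d₁.r_neg).subset fun e he => ⟨he.1, he.2.1.le, he.2.2⟩)
    ⟨d₁, h1, h3, le_rfl⟩
  refine ⟨d, hd.1, hd.2.1, fun e he he' => ?_⟩
  rcases le_total e.r d₁.r with h4 | h4
  · exact hmin e ⟨he, he', h4⟩
  · exact hd.2.2.trans h4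
lemma fan_mem {a : V} {t : ℝ} (h : Prim Γ a t) : ex (-t) a ∈ Γ := by
  rw [ex_neg]
  exact Γ.inv_mem h.mem
lemma fan_step (d : T.D) {t : ℝ} (h : Prim Γ d.a t) {γ : Γ} (e : PM (ex (-t) d.a) γ) :
    ∃ i : ℕ, 0 < i ∧ (T.φ ^ i) d = γ • d := by
  obtain ⟨h1, h2⟩ := r_ex e
  have h3 : d.r < (γ • d).r := by
    rw [h2]
    nlinarith [d.r_neg, Real.exp_lt_one_iff.2 (show 2 * -t < 0 by linarith [h.pos])]
  obtain ⟨i, hi⟩ := fan_nat h1 h3.le
  refine ⟨i, Nat.pos_of_ne_zero ?_, hi.symm⟩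
  rintro rfl
  rw [hi, pow_zero, Equiv.Perm.one_apply] at h3
  exact lt_irrefl _ h3
lemma fan_iter {d : T.D} {f : ℕ} {γ : Γ} (h : (T.φ ^ f) d = γ • d) (k : ℤ) :
    (T.φ ^ (f * k)) d = γ ^ k • d := by
  rw [← zpow_natCast] at h
  induction k using Int.induction_on with
  | zero => rw [mul_zero, zpow_zero, zpow_zero, one_smul, Equiv.Perm.one_apply]
  | succ k ih =>
    rw [mul_add, mul_one, zpow_add, Equiv.Perm.mul_apply, h, φ_zpow_smul, ih, ← mul_smul,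
      ← zpow_one_add, add_comm]
  | pred k ih =>
    refine (T.φ ^ (f : ℤ)).injective ?_
    rw [φ_zpow_smul, h, ← mul_smul, ← zpow_add_one, ← Equiv.Perm.mul_apply, ← zpow_add,
      sub_add_cancel, ← ih]
    congr 2
    ring
lemma D.f_pos (d : T.D) : 0 < d.f := by
  obtain ⟨t, ht⟩ := T.nice.exists_prim (T.ws.per _ d.a_mem)
  obtain ⟨i, h0, hi⟩ := fan_step d ht (γ := ⟨_, fan_mem ht⟩) (PM.refl _)
  exact (Nat.sInf_mem (s := {i : ℕ | 0 < i ∧ ∃ g : Γ, (T.φ ^ i) d = g • d}) ⟨i, h0, _, hi⟩).1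
lemma D.f_spec (d : T.D) {t : ℝ} (h : Prim Γ d.a t) {γ : Γ} (e : PM (ex (-t) d.a) γ) :
    (T.φ ^ d.f) d = γ • d := by
  obtain ⟨i, h0, hi⟩ := fan_step d h e
  obtain ⟨h1, g, hg⟩ : 0 < d.f ∧ ∃ g : Γ, (T.φ ^ d.f) d = g • d :=
    Nat.sInf_mem (s := {i : ℕ | 0 < i ∧ ∃ g : Γ, (T.φ ^ i) d = g • d}) ⟨i, h0, _, hi⟩
  have h2 : d.f ≤ i := Nat.sInf_le ⟨h0, _, hi⟩
  obtain ⟨m, hm⟩ := h.gen _ g.2 (by rw [← smul_a, ← hg, φ_pow_a])
  have r0 := d.r_neg
  have h3 := fan_mono d h1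
  have h4 := (r_ex hm).2
  have h5 := (r_ex e).2
  have h6 : Real.exp (2 * (m * t)) < 1 := by
    simp only [hg, h4, pow_zero, Equiv.Perm.one_apply] at h3
    nlinarith
  have h7 : (m : ℝ) + 1 ≤ 0 := by
    have h8 := Real.exp_lt_one_iff.1 h6
    have h9 : (m : ℝ) < 0 := by nlinarith [h.pos]
    exact_mod_cast h9
  have h8 : Real.exp (2 * (m * t)) ≤ Real.exp (2 * -t) :=
    Real.exp_le_exp.2 (by nlinarith [h.pos])
  have h9 : i ≤ d.f := (fan_mono d).le_iff_le.1 (by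
    simp only [hg, hi, h4, h5]
    exact mul_le_mul_of_nonpos_right h8 r0.le)
  rw [le_antisymm h2 h9, hi]
lemma D.pm_of_f (d : T.D) {t : ℝ} (h : Prim Γ d.a t) {γ : Γ} (e : (T.φ ^ d.f) d = γ • d) :
    PM (ex (-t) d.a) γ := by
  have h1 := d.f_spec h (γ := ⟨_, fan_mem h⟩) (PM.refl _)
  refine (pm_iff_inv_mul _ _).2 (pm_of_smul_eq (g := (⟨_, fan_mem h⟩ : Γ)⁻¹ * γ) (d := d) ?_)
  rw [mul_smul, ← e, h1, inv_smul_smul]
lemma D.f_dvd (d : T.D) (i : ℤ) : (∃ g : Γ, (T.φ ^ i) d = g • d) ↔ (d.f : ℤ) ∣ i := by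
  obtain ⟨t, ht⟩ := T.nice.exists_prim (T.ws.per _ d.a_mem)
  have h1 := fan_iter (d.f_spec ht (γ := ⟨_, fan_mem ht⟩) (PM.refl _))
  generalize (⟨_, fan_mem ht⟩ : Γ) = γ at h1
  refine ⟨fun ⟨g, hg⟩ => ?_, fun ⟨k, hk⟩ => ⟨_, hk ▸ h1 k⟩⟩
  have f0 : (0 : ℤ) < d.f := by exact_mod_cast d.f_pos
  have h2 := Int.emod_nonneg i f0.ne'
  have h3 := Int.emod_lt_of_pos i f0
  by_contra hn
  have h4 : i % d.f ≠ 0 := fun e => hn (Int.dvd_of_emod_eq_zero e)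
  rw [← Int.emod_add_mul_ediv i d.f, zpow_add, Equiv.Perm.mul_apply, h1, φ_zpow_smul,
    ← eq_inv_smul_iff, ← mul_smul, ← Int.toNat_of_nonneg h2, zpow_natCast] at hg
  have h5 : d.f ≤ (i % d.f).toNat := Nat.sInf_le ⟨by omega, _, hg⟩
  omega
lemma f_eq {d e : T.D} (h : e.a = d.a) : e.f = d.f := by
  obtain ⟨j, rfl⟩ := fan h
  refine congrArg sInf (Set.ext fun i => and_congr_right fun _ => exists_congr fun g => ?_)
  rw [← φ_zpow_smul, ← Equiv.Perm.mul_apply, ← zpow_natCast, ← zpow_add, add_comm, zpow_add,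
    Equiv.Perm.mul_apply, Equiv.apply_eq_iff_eq]
lemma f_smul (g : Γ) (d : T.D) : (g • d).f = d.f := by
  refine congrArg sInf (Set.ext fun i => and_congr_right fun _ => ⟨fun ⟨k, hk⟩ => ?_,
    fun ⟨k, hk⟩ => ?_⟩)
  · exact ⟨g⁻¹ * k * g, by rw [mul_smul, mul_smul, ← hk, φ_pow_smul, inv_smul_smul]⟩
  · exact ⟨g * k * g⁻¹, by rw [mul_smul, mul_smul, inv_smul_smul, φ_pow_smul, hk]⟩
/-- An index in a fan is controlled by the positions. -/
lemma index_le {d : T.D} {t : ℝ} (h : Prim Γ d.a t) {i m : ℕ}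
    (hr : ((T.φ ^ i) d).r ≤ Real.exp (-(2 * m * t)) * d.r) : i ≤ m * d.f := by
  have h1 := fan_iter (d.f_spec h (γ := ⟨_, fan_mem h⟩) (PM.refl _)) m
  have h2 := (r_ex (g := (⟨_, fan_mem h⟩ : Γ) ^ (m : ℤ)) (d := d) (t := (m : ℤ) * -t) (by
    rw [← ex_zpow]
    exact PM.refl _)).2
  rw [← h1, ← Nat.cast_mul, zpow_natCast, mul_comm d.f] at h2
  refine (fan_mono d).le_iff_le.1 (hr.trans (le_of_eq ?_))
  simp only [h2]
  congr 2
  push_cast
  ring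
lemma conn_darts {U : Set T.D} (h1 : ∀ d ∈ U, T.ι d ∈ U) (h2 : ∀ d ∈ U, T.ν d ∈ U)
    (h3 : ∀ a ∈ T.A, ∃ d d' : T.D, d.a = a ∧ d'.a = -a ∧ (d ∈ U → d' ∈ U)) (h4 : U.Nonempty) :
    U = Set.univ := by
  have k1 : ∀ (i : ℤ), ∀ d ∈ U, (T.φ ^ i) d ∈ U := fun i => by
    induction i using Int.induction_on with
    | zero => exact fun d hd => hd
    | succ i ih =>
      intro d hd
      rw [zpow_add_one, Equiv.Perm.mul_apply]
      exact ih _ (h1 _ (h2 _ (h2 _ hd)))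
    | pred i ih =>
      intro d hd
      rw [zpow_sub_one, Equiv.Perm.mul_apply, φ_inv_apply]
      exact ih _ (h2 _ (h1 _ hd))
  have k2 : ∀ d ∈ U, ∀ e : T.D, e.a = d.a → e ∈ U := fun d hd e he => by
    obtain ⟨i, rfl⟩ := fan he
    exact k1 i d hd
  have k3 := T.conn {a | ∃ d ∈ U, d.a = a} (by
    rintro _ ⟨d, hd, rfl⟩
    obtain ⟨e, e', a1, a2, a3⟩ := h3 _ d.a_mem
    exact ⟨e', a3 (k2 d hd e a1), a2⟩) (by
    rintro _ ⟨d, hd, rfl⟩ b hb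
    exact ⟨_, h1 _ (k2 d hd ⟨(d.a, b), hb⟩ rfl), rfl⟩) (by
    obtain ⟨d, hd⟩ := h4
    exact ⟨d.a, d.a_mem, d, hd, rfl⟩)
  refine Set.eq_univ_of_forall fun e => ?_
  obtain ⟨d, hd, he⟩ := k3 e.a_mem
  exact k2 d hd e he.symm

end Tr

end

end Pool.Agent.P.MP_d39174_gt

end

section
/-! Separating geodesics and abstract potentials. -/

namespace Pool.Agent.P.MP_d39174_gt

open UpperHalfPlane MatrixGroups

noncomputable section

open Classical in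
lemma potential {X I M : Type*} [AddCommGroup M] [Module ℝ M] (st : I → I)
    (hst : ∀ i, st (st i) = i) (t : I → X → ℝ) (m : I → M) (hm : ∀ i, m (st i) = -m i)
    (R0 : X → X → Prop) (R1 : X → I → X → Prop) (h0 : ∀ x y, R0 x y → ∀ i, t i y = t i x)
    (h1 : ∀ x i₀ y, R1 x i₀ y → ∀ i,
      t i y - t i x = (if i = i₀ then 1 else 0) - (if i = st i₀ then 1 else 0))
    (hne : ∀ x i₀ y, R1 x i₀ y → st i₀ ≠ i₀)
    (conn : ∀ U : Set X, (∀ x ∈ U, ∀ y, R0 x y → y ∈ U) → (∀ x ∈ U, ∀ i y, R1 x i y → y ∈ U) →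
      U.Nonempty → U = Set.univ) :
    ∃ Φ : X → M, (∀ x y, R0 x y → Φ y = Φ x) ∧ ∀ x i y, R1 x i y → Φ y = Φ x + m i := by
  rcases isEmpty_or_nonempty X with hX | ⟨⟨x₀⟩⟩
  · exact ⟨fun _ => 0, fun x => hX.elim x, fun x => hX.elim x⟩
  have hf := conn {x | {i | t i x ≠ t i x₀}.Finite}
    (fun x hx y hxy => by simpa only [Set.mem_ofPred_eq, h0 x y hxy] using hx)
    (fun x hx i₀ y hxy => ((Set.Finite.insert i₀ (Set.Finite.insert (st i₀) hx))).subset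
      fun i hi => by
        by_contra h2
        simp only [Set.mem_insert_iff, Set.mem_ofPred_eq, not_or, not_not] at h2
        have h3 := h1 x i₀ y hxy i
        rw [if_neg h2.1, if_neg h2.2.1, sub_zero, sub_eq_zero, h2.2.2] at h3
        exact hi h3) ⟨x₀, by simp⟩
  have hs : ∀ x, Function.HasFiniteSupport fun i => (t i x - t i x₀) • m i := fun x =>
    Set.Finite.subset (s := {i | t i x ≠ t i x₀}) (Set.eq_univ_iff_forall.1 hf x) fun i hi h2 =>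
      hi (by simp only [h2, sub_self, zero_smul])
  have hd : ∀ j, Function.HasFiniteSupport fun i => (if i = j then (1 : ℝ) else 0) • m i :=
    fun j => (Set.finite_singleton j).subset fun i hi => by
      by_contra h2
      exact hi (by simp only [if_neg (show ¬ i = j from h2), zero_smul])
  have he : ∀ j, ∑ᶠ i, (if i = j then (1 : ℝ) else 0) • m i = m j := fun j => by
    rw [finsum_eq_single _ j fun i hi => by rw [if_neg hi, zero_smul], if_pos rfl, one_smul]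
  refine ⟨fun x => (1 / 2 : ℝ) • ∑ᶠ i, (t i x - t i x₀) • m i, fun x y hxy => ?_,
    fun x i₀ y hxy => ?_⟩
  · simp only [h0 x y hxy]
  · have h2 : ∀ i, (t i y - t i x₀) • m i = (t i x - t i x₀) • m i +
        (if i = i₀ then (1 : ℝ) else 0) • m i - (if i = st i₀ then (1 : ℝ) else 0) • m i :=
      fun i => by
        rw [← add_smul, ← sub_smul, add_sub_assoc, ← h1 x i₀ y hxy i]
        congr 1
        ring
    simp only [h2]
    have h3 : Function.HasFiniteSupport fun i =>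
        (t i x - t i x₀) • m i + (if i = i₀ then (1 : ℝ) else 0) • m i := (hs x).add (hd i₀)
    rw [finsum_sub_distrib h3 (hd _), finsum_add_distrib (hs x) (hd i₀), he, he, hm]
    module

namespace Tr

variable {Γ : Subgroup SL(2, ℝ)} {T : Tr Γ}

/-- Edges of the triangulation and walls. -/
def Sep (T : Tr Γ) (u v : V) : Prop := (u, v) ∈ T.E ∨ (u ∈ T.A ∧ v = -u)

/-- The triangle of `d` lies on the positive side of the geodesic `e(u) e(v)`. -/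
def Sd (u v : V) (d : T.D) : Prop := 0 < ori u v d.a ∨ 0 < ori u v d.b ∨ 0 < ori u v d.c

private lemma Pot1_mem {u v : V} (h : T.Sep u v) : u ∈ T.A ∧ v ∈ T.A ∧ u ≠ v := by
  rcases h with h | ⟨h, rfl⟩
  · exact ⟨(T.del _ h).1, (T.del _ h).2.1, (T.del _ h).2.2.1⟩
  · exact ⟨h, T.ws.neg _ h, ne_neg_of_unit (unit h)⟩

private lemma Pot1_ne {u v z : V} (h : T.Sep u v) (hz : z ∈ T.A) (h1 : z ≠ u) (h2 : z ≠ v) :
    ori u v z ≠ 0 := by
  obtain ⟨a1, a2, a3⟩ := Pot1_mem h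
  exact ori_ne_zero (fin' a1 a2 a3) (fin' a2 hz h2.symm) (fin' hz a1 h1)

private lemma Pot1_edge {d : T.D} {z y : V} (hz : z = d.a ∨ z = d.b ∨ z = d.c)
    (hy : y = d.a ∨ y = d.b ∨ y = d.c) : z = y ∨ T.Sep z y := by
  rcases hz with rfl | rfl | rfl <;> rcases hy with rfl | rfl | rfl
  exacts [.inl rfl, .inr (.inl d.mem), .inr (.inl (T.symm _ _ d.mem_ca)),
    .inr (.inl (T.symm _ _ d.mem)), .inl rfl, .inr (.inl d.mem_bc), .inr (.inl d.mem_ca),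
    .inr (.inl (T.symm _ _ d.mem_bc)), .inl rfl]

lemma Sep.symm {u v : V} (h : T.Sep u v) : T.Sep v u := by
  rcases h with h | ⟨h, rfl⟩
  · exact .inl (T.symm _ _ h)
  · exact .inr ⟨T.ws.neg _ h, (neg_neg u).symm⟩
lemma Sep.not_cr {u v u' v' : V} (h : T.Sep u v) (h' : T.Sep u' v') : ¬ Cr u v u' v' := by
  intro hc
  rcases h with h | ⟨h, rfl⟩ <;> rcases h' with h' | ⟨h', rfl⟩
  · exact T.ncr _ h _ h' hc
  · exact T.ncw _ h _ h' hc.symm
  · exact T.ncw _ h' _ h hc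
  · exact absurd ((cross_iff_Cr (unit h') (unit h)).2 hc)
      (T.ws.sep _ h _ h' hc.ne.2.1 hc.ne.2.2.1).le.not_gt

private lemma Pot1_same {u v z y : V} (h : T.Sep u v) (h' : T.Sep z y) (h1 : z ≠ u) (h2 : z ≠ v)
    (hy : 0 < ori u v y) : 0 < ori u v z :=
  lt_of_le_of_ne (not_lt.1 fun h3 => h.not_cr h' (mul_neg_of_neg_of_pos h3 hy))
    (Pot1_ne h (Pot1_mem h').1 h1 h2).symm

lemma sd_of_vertex {u v z : V} (h : T.Sep u v) {d : T.D} (hz : z = d.a ∨ z = d.b ∨ z = d.c)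
    (h1 : z ≠ u) (h2 : z ≠ v) : (Sd u v d ↔ 0 < ori u v z) := by
  have key : ∀ y, y = d.a ∨ y = d.b ∨ y = d.c → 0 < ori u v y → 0 < ori u v z := fun y hy h3 => by
    rcases Pot1_edge hz hy with rfl | h4
    · exact h3
    · exact Pot1_same h h4 h1 h2 h3
  constructor
  · rintro (h3 | h3 | h3)
    exacts [key _ (.inl rfl) h3, key _ (.inr (.inl rfl)) h3, key _ (.inr (.inr rfl)) h3]
  · intro h3
    rcases hz with rfl | rfl | rfl
    exacts [.inl h3, .inr (.inl h3), .inr (.inr h3)]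
lemma sd_not {u v : V} (h : T.Sep u v) (d : T.D) : Sd v u d ↔ ¬ Sd u v d := by
  have a1 := d.a_ne_b
  have a2 : d.b ≠ d.c := (T.del _ d.mem_bc).2.2.1
  have a3 : d.c ≠ d.a := (T.del _ d.mem_ca).2.2.1
  obtain ⟨z, hz, h1, h2⟩ : ∃ z, (z = d.a ∨ z = d.b ∨ z = d.c) ∧ z ≠ u ∧ z ≠ v := by
    by_contra h3
    have b1 := not_and.1 (not_exists.1 h3 d.a) (.inl rfl)
    have b2 := not_and.1 (not_exists.1 h3 d.b) (.inr (.inl rfl))
    have b3 := not_and.1 (not_exists.1 h3 d.c) (.inr (.inr rfl))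
    grind
  have hA : z ∈ T.A := by
    rcases hz with rfl | rfl | rfl
    exacts [d.a_mem, d.b_mem, d.c_mem]
  rw [sd_of_vertex h.symm hz h2 h1, sd_of_vertex h hz h1 h2, ori_swap, neg_pos, not_lt]
  exact ⟨le_of_lt, fun h3 => lt_of_le_of_ne h3 (Pot1_ne h hA h1 h2)⟩
lemma sd_ν (u v : V) (d : T.D) : Sd u v (T.ν d) ↔ Sd u v d := by
  simp only [Sd, ν_a, ν_b, ν_c]
  tauto
lemma sd_self (d : T.D) : Sd d.a d.b d := .inr (.inr d.ori_pos)
lemma sd_wall (d : T.D) : Sd (-d.a) d.a d :=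
  .inr (.inl (d.fac.1.trans_eq (ori_cyc _ _ _)))
lemma sd_ι {u v : V} (h : T.Sep u v) {d : T.D} (h1 : ¬ (d.a = u ∧ d.b = v))
    (h2 : ¬ (d.a = v ∧ d.b = u)) : Sd u v (T.ι d) ↔ Sd u v d := by
  have a1 := d.a_ne_b
  have h3 : (d.a ≠ u ∧ d.a ≠ v) ∨ (d.b ≠ u ∧ d.b ≠ v) := by grind
  rcases h3 with h3 | h3
  · rw [sd_of_vertex h (d := T.ι d) (.inr (.inl rfl)) h3.1 h3.2,
      sd_of_vertex h (.inl rfl) h3.1 h3.2, ι_b]
  · rw [sd_of_vertex h (d := T.ι d) (.inl rfl) h3.1 h3.2,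
      sd_of_vertex h (.inr (.inl rfl)) h3.1 h3.2, ι_a]
lemma sd_opp {u v : V} (h : T.Sep u v) {d d' : T.D} (ho : d'.a = -d.a) (h1 : u ≠ d.a)
    (h2 : u ≠ -d.a) (h3 : v ≠ d.a) (h4 : v ≠ -d.a) : Sd u v d' ↔ Sd u v d := by
  have hw : T.Sep d.a (-d.a) := .inr ⟨d.a_mem, rfl⟩
  rw [sd_of_vertex h (.inl ho.symm) h2.symm h4.symm, sd_of_vertex h (.inl rfl) h1.symm h3.symm]
  exact ⟨Pot1_same h hw h1.symm h3.symm, Pot1_same h hw.symm h2.symm h4.symm⟩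
lemma sd_fan {e d' : T.D} (ho : d'.a = -e.a) : Sd e.a e.b d' := by
  refine .inl ?_
  rw [ho]
  exact e.fac.1

end Tr

end

end Pool.Agent.P.MP_d39174_gt

end

section
/-! Potentials and cocycles on a triangulation. -/

namespace Pool.Agent.P.MP_d39174_gt

open UpperHalfPlane MatrixGroups

noncomputable section

namespace Tr

variable {Γ : Subgroup SL(2, ℝ)} {T : Tr Γ} {M : Type*} [AddCommGroup M] [Module ℝ M]

lemma Pot_dart {a : V} (ha : a ∈ T.A) : ∃ d : T.D, d.a = a := by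
  obtain ⟨b, hb⟩ := T.has a ha
  exact ⟨⟨(a, b), hb⟩, rfl⟩

lemma Pot_wall {a : V} (ha : a ∈ T.A) : T.Sep (-a) a := Or.inr ⟨T.ws.neg a ha, (neg_neg a).symm⟩

lemma Pot_base (j : T.D → M) (hj : ∀ d, j (T.ι d) = -j d) (bb : V → T.D)
    (hb : ∀ a ∈ T.A, (bb a).a = a) (k : V → M) (hk : ∀ a ∈ T.A, k (-a) = -k a) :
    ∃ Φ : T.D → M, (∀ d, Φ (T.ν d) = Φ d) ∧ (∀ d, Φ (T.ι d) = Φ d + j d) ∧
      ∀ a ∈ T.A, Φ (bb (-a)) = Φ (bb a) + k a := by
  classical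
  obtain ⟨S, hS1, hS2⟩ : ∃ S : V → V → T.D → ℝ, (∀ u v x, Sd u v x → S u v x = 1 / 2) ∧
      ∀ u v x, ¬ Sd u v x → S u v x = -(1 / 2) :=
    ⟨fun u v x => if Sd u v x then 1 / 2 else -(1 / 2), fun _ _ _ h => if_pos h,
      fun _ _ _ h => if_neg h⟩
  have hSc : ∀ u v x y, (Sd u v y ↔ Sd u v x) → S u v y = S u v x := fun u v x y h => by
    by_cases h1 : Sd u v x
    · rw [hS1 _ _ _ h1, hS1 _ _ _ (h.2 h1)]
    · rw [hS2 _ _ _ h1, hS2 _ _ _ fun h2 => h1 (h.1 h2)]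
  have hSn : ∀ u v x, T.Sep u v → S v u x = -S u v x := fun u v x h => by
    by_cases h1 : Sd u v x
    · rw [hS1 _ _ _ h1, hS2 _ _ _ fun h2 => (sd_not h x).1 h2 h1]
    · rw [hS2 _ _ _ h1, hS1 _ _ _ ((sd_not h x).2 h1), neg_neg]
  obtain ⟨F, hF⟩ : ∃ F : T.D → T.D → ℝ, ∀ e z, F e z = S e.a e.b z +
      (1 / 2 - S e.a e.b (bb e.a)) * S (-e.a) e.a z -
      (1 / 2 - S e.b e.a (bb e.b)) * S (-e.b) e.b z := ⟨_, fun _ _ => rfl⟩
  have hFι : ∀ e z, F (T.ι e) z = -F e z := fun e z => by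
    rw [hF, hF, ι_a, ι_b, hSn e.a e.b z (Or.inl e.mem)]
    ring
  have hne : ∀ d : T.D, T.ι d ≠ d := fun d h => d.a_ne_b (congrArg D.a h).symm
  have hne' : ∀ a ∈ T.A, -a ≠ a := fun a ha => (ne_neg_of_unit (unit ha)).symm
  have i1 : ∀ a ∈ T.A, ∀ d, S (-a) a (T.ι d) = S (-a) a d := fun a ha d =>
    hSc _ _ _ _ (sd_ι (Pot_wall ha) (fun h => d.b_ne_neg (by rw [h.1, h.2, neg_neg]))
      fun h => d.b_ne_neg (by rw [h.1, h.2]))
  have i2 : ∀ d, F d (T.ι d) - F d d = -1 := fun d => by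
    have h1 := hS1 _ _ _ (sd_self d)
    have h2 := hS1 _ _ _ (sd_self (T.ι d))
    rw [ι_a, ι_b, hSn d.a d.b _ (Or.inl d.mem)] at h2
    rw [hF, hF, i1 _ d.a_mem, i1 _ d.b_mem]
    linarith
  have i3 : ∀ d e, e ≠ d → e ≠ T.ι d → F e (T.ι d) = F e d := fun d e h1 h2 => by
    rw [hF, hF, i1 _ e.a_mem, i1 _ e.b_mem, hSc _ _ _ _ (sd_ι (Or.inl e.mem)
      (fun h => h1 (D.ext h.1.symm h.2.symm)) fun h => h2 (D.ext h.2.symm h.1.symm))]
  have ho : ∀ a ∈ T.A, (bb (-a)).a = -(bb a).a := fun a ha => by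
    rw [hb a ha, hb _ (T.ws.neg a ha)]
  have w1 : ∀ a ∈ T.A, ∀ b ∈ T.A, b ≠ a → b ≠ -a → S (-b) b (bb (-a)) = S (-b) b (bb a) :=
    fun a ha b hb' h1 h2 => hSc _ _ _ _ (sd_opp (Pot_wall hb') (ho a ha)
      (by rw [hb a ha]; exact fun h => h2 (neg_eq_iff_eq_neg.1 h))
      (by rw [hb a ha]; exact fun h => h1 (neg_injective h))
      (by rwa [hb a ha]) (by rwa [hb a ha]))
  have w2 : ∀ a ∈ T.A, S (-a) a (bb a) = 1 / 2 := fun a ha => by
    have h := hS1 _ _ _ (sd_wall (bb a))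
    rwa [hb a ha] at h
  have w3 : ∀ a ∈ T.A, S (-a) a (bb (-a)) = -(1 / 2) := fun a ha => by
    have h := w2 _ (T.ws.neg a ha)
    rw [neg_neg, hSn _ _ _ (Pot_wall ha)] at h
    linarith
  have w4 : ∀ e : T.D, F e (bb (-e.a)) = F e (bb e.a) := fun e => by
    rw [hF, hF, w2 _ e.a_mem, w3 _ e.a_mem, w1 _ e.a_mem _ e.b_mem e.a_ne_b.symm e.b_ne_neg,
      hS1 _ _ _ (sd_fan (hb _ (T.ws.neg _ e.a_mem)))]
    ring
  have w5 : ∀ a, ∀ e : T.D, e.a = a ∨ e.a = -a → F e (bb (-a)) = F e (bb a) := by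
    rintro a e (h | h)
    · rw [← h, w4]
    · have h1 := w4 e
      rw [h, neg_neg] at h1
      exact h1.symm
  have w6 : ∀ a ∈ T.A, ∀ e : T.D, F e (bb (-a)) = F e (bb a) := fun a ha e => by
    by_cases h1 : e.a = a ∨ e.a = -a
    · exact w5 a e h1
    by_cases h2 : e.b = a ∨ e.b = -a
    · have h3 := w5 a (T.ι e) h2
      rwa [hFι, hFι, neg_inj] at h3
    rw [not_or] at h1 h2
    rw [hF, hF, w1 a ha _ e.a_mem h1.1 h1.2, w1 a ha _ e.b_mem h2.1 h2.2,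
      hSc _ _ _ _ (sd_opp (Or.inl e.mem) (ho a ha) (by rw [hb a ha]; exact h1.1)
        (by rw [hb a ha]; exact h1.2) (by rw [hb a ha]; exact h2.1) (by rw [hb a ha]; exact h2.2))]
  refine (potential (X := T.D) (I := T.D ⊕ T.A) (M := M)
    (Sum.map T.ι fun a => ⟨-a.1, T.ws.neg _ a.2⟩) ?_
    (Sum.elim (fun e z => -F e z) fun a z => -S (-a.1) a.1 z) (Sum.elim j fun a => k a.1) ?_
    (fun x y => y = T.ν x)
    (fun x i y => Sum.elim (fun d => x = d ∧ y = T.ι d)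
      (fun a : T.A => x = bb a.1 ∧ y = bb (-a.1)) i) ?_ ?_ ?_ ?_).imp fun Φ h =>
      ⟨fun d => h.1 d _ rfl, fun d => h.2 d (Sum.inl d) _ ⟨rfl, rfl⟩,
        fun a ha => h.2 _ (Sum.inr ⟨a, ha⟩) _ ⟨rfl, rfl⟩⟩
  · rintro (d | a)
    · rfl
    · exact congrArg Sum.inr (Subtype.ext (neg_neg a.1))
  · rintro (d | a)
    · exact hj d
    · exact hk a.1 a.2
  · rintro x y rfl (e | a)
    · simp only [Sum.elim_inl, hF, hSc _ _ _ _ (sd_ν _ _ x)]
    · simp only [Sum.elim_inr, hSc _ _ _ _ (sd_ν _ _ x)]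
  · rintro x (d | a) y ⟨rfl, rfl⟩ (e | b)
    · simp only [Sum.elim_inl, Sum.map_inl, Sum.inl.injEq]
      by_cases e1 : e = x
      · rw [if_pos e1, if_neg (e1 ▸ (hne e).symm), e1]
        linarith [i2 x]
      by_cases e2 : e = T.ι x
      · rw [if_neg e1, if_pos e2, e2, hFι, hFι]
        linarith [i2 x]
      · rw [if_neg e1, if_neg e2, i3 x e e1 e2, sub_self, sub_self]
    · simp only [Sum.elim_inr, Sum.map_inl, reduceCtorEq, if_false, i1 _ b.2, sub_self]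
    · simp only [Sum.elim_inl, Sum.map_inr, reduceCtorEq, if_false, w6 _ a.2, sub_self]
    · simp only [Sum.elim_inr, Sum.map_inr, Sum.inr.injEq, Subtype.ext_iff]
      by_cases e1 : b.1 = a.1
      · rw [if_pos e1, if_neg (e1 ▸ (hne' _ b.2).symm), e1, w2 _ a.2, w3 _ a.2]
        norm_num
      by_cases e2 : b.1 = -a.1
      · rw [if_neg e1, if_pos e2, e2, w2 _ (T.ws.neg _ a.2), neg_neg,
          hSn _ _ _ (Pot_wall a.2), w2 _ a.2]
        norm_num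
      · rw [if_neg e1, if_neg e2, w1 _ a.2 _ b.2 e1 e2, sub_self, sub_self]
  · rintro x (d | a) y - h
    · exact hne d (Sum.inl.inj h)
    · exact hne' _ a.2 (congrArg Subtype.val (Sum.inr.inj h))
  · intro U h1 h2 h3
    exact conn_darts (fun d hd => h2 d hd (Sum.inl d) _ ⟨rfl, rfl⟩) (fun d hd => h1 d hd _ rfl)
      (fun a ha => ⟨bb a, bb (-a), hb a ha, hb _ (T.ws.neg a ha),
        fun h => h2 _ h (Sum.inr ⟨a, ha⟩) _ ⟨rfl, rfl⟩⟩) h3

/-- Compatible jumps across edges and walls have a potential. -/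
theorem pot (j : T.D → M) (K : T.D → T.D → M) (hj : ∀ d, j (T.ι d) = -j d)
    (hK : ∀ d d', d'.a = -d.a → K d' d = -K d d')
    (hK' : ∀ d d', d'.a = -d.a → K (T.φ d) d' = K d d' + j (T.φ d)) :
    ∃ Φ : T.D → M, (∀ d, Φ (T.ν d) = Φ d) ∧ (∀ d, Φ (T.ι d) = Φ d + j d) ∧
      ∀ d d', d'.a = -d.a → Φ d' = Φ d + K d d' := by
  have hex : ∀ a : V, ∃ d : T.D, a ∈ T.A → d.a = a := fun a => by
    by_cases ha : a ∈ T.A
    · exact (Pot_dart ha).imp fun _ h _ => h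
    · exact ⟨Classical.arbitrary _, fun h => absurd h ha⟩
  choose bb hb using hex
  have ho : ∀ a ∈ T.A, (bb (-a)).a = -(bb a).a := fun a ha => by
    rw [hb a ha, hb _ (T.ws.neg a ha)]
  obtain ⟨Φ, h1, h2, h3⟩ := Pot_base j hj bb hb (fun a => K (bb a) (bb (-a))) fun a ha => by
    rw [neg_neg]
    exact hK _ _ (ho a ha)
  have s1 : ∀ d d', d'.a = -d.a → Φ (T.φ d) + K (T.φ d) d' = Φ d + K d d' := fun d d' h => by
    rw [hK' d d' h, φ_apply, h2, h1, h1, hj]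
    abel
  have s2 : ∀ d d', d'.a = -d.a → ∀ i : ℕ,
      Φ ((T.φ ^ i) d) + K ((T.φ ^ i) d) d' = Φ d + K d d' := fun d d' h i => by
    induction i with
    | zero => rfl
    | succ i ih => rw [pow_succ', Equiv.Perm.mul_apply, s1 _ _ (by rw [φ_pow_a, h]), ih]
  have s3 : ∀ d e d', e.a = d.a → d'.a = -d.a → Φ e + K e d' = Φ d + K d d' := by
    intro d e d' h h'
    rcases le_total d.r e.r with h4 | h4
    · obtain ⟨i, rfl⟩ := fan_nat h h4
      exact s2 d d' h' i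
    · obtain ⟨i, rfl⟩ := fan_nat h.symm h4
      exact (s2 e d' (by rw [h', h]) i).symm
  have s4 : ∀ d d', d'.a = -d.a → Φ d' = Φ d + K d d' → Φ d = Φ d' + K d' d := fun d d' h h' => by
    rw [h', hK d d' h, add_neg_cancel_right]
  refine ⟨Φ, h1, h2, fun d d' h => ?_⟩
  have e1 := hb _ (T.ws.neg _ d.a_mem)
  have e2 := (h3 _ d.a_mem).trans (s3 d (bb d.a) _ (hb _ d.a_mem) e1)
  have e3 : d.a = -d'.a := by rw [h, neg_neg]
  exact s4 d' d e3 ((s4 d _ e1 e2).trans (s3 d' _ d (e1.trans h.symm) e3))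

theorem pot_equiv (ρ : Γ → M →ₗ[ℝ] M) {j : T.D → M} {K : T.D → T.D → M} {Φ : T.D → M}
    (h1 : ∀ d, Φ (T.ν d) = Φ d) (h2 : ∀ d, Φ (T.ι d) = Φ d + j d)
    (h3 : ∀ d d', d'.a = -d.a → Φ d' = Φ d + K d d') (hj : ∀ (g : Γ) d, j (g • d) = ρ g (j d))
    (hK : ∀ (g : Γ) d d', d'.a = -d.a → K (g • d) (g • d') = ρ g (K d d')) (g : Γ) :
    ∃ v, ∀ d, Φ (g • d) = v + ρ g (Φ d) := by
  obtain ⟨d0⟩ : Nonempty T.D := inferInstance
  have h := conn_darts (U := {d : T.D | Φ (g • d) = (Φ (g • d0) - ρ g (Φ d0)) + ρ g (Φ d)})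
    (fun d hd => ?_) (fun d hd => ?_) (fun a ha => ?_) ⟨d0, (sub_add_cancel _ _).symm⟩
  · exact ⟨_, fun d => (h ▸ Set.mem_univ d :
      d ∈ {d : T.D | Φ (g • d) = (Φ (g • d0) - ρ g (Φ d0)) + ρ g (Φ d)})⟩
  · rw [Set.mem_ofPred_eq] at hd ⊢
    rw [← ι_smul, h2, h2, hd, hj, map_add, add_assoc]
  · rw [Set.mem_ofPred_eq] at hd ⊢
    rw [← ν_smul, h1, h1, hd]
  · obtain ⟨d, hd⟩ := Pot_dart ha
    obtain ⟨d', hd'⟩ := Pot_dart (T.ws.neg a ha)
    refine ⟨d, d', hd, hd', fun h4 => ?_⟩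
    have e : d'.a = -d.a := by rw [hd, hd']
    rw [Set.mem_ofPred_eq] at h4 ⊢
    rw [h3 (g • d) (g • d') (by rw [smul_a, smul_a, e, smul_neg]), h3 d d' e, h4, hK g d d' e,
      map_add, add_assoc]

theorem pot_coc (j : T.D → V) (K : T.D → T.D → V) (hj : ∀ d, j (T.ι d) = -j d)
    (hK : ∀ d d', d'.a = -d.a → K d' d = -K d d')
    (hK' : ∀ d d', d'.a = -d.a → K (T.φ d) d' = K d d' + j (T.φ d))
    (ej : ∀ (g : Γ) d, j (g • d) = (g : SL(2, ℝ)) • j d)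
    (eK : ∀ (g : Γ) d d', d'.a = -d.a → K (g • d) (g • d') = (g : SL(2, ℝ)) • K d d') :
    ∃ (Φ : T.D → V) (u : SL(2, ℝ) → V), Coc Γ u ∧ (∀ d, Φ (T.ν d) = Φ d) ∧
      (∀ d, Φ (T.ι d) = Φ d + j d) ∧ (∀ d d', d'.a = -d.a → Φ d' = Φ d + K d d') ∧
      ∀ (g : Γ) d, Φ (g • d) = u g + (g : SL(2, ℝ)) • Φ d := by
  classical
  obtain ⟨Φ, h1, h2, h3⟩ := pot j K hj hK hK'
  choose v hv using pot_equiv (fun g : Γ => DistribSMul.toLinearMap ℝ V (g : SL(2, ℝ)))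
    h1 h2 h3 ej eK
  have hu : ∀ (g : Γ) d, Φ (g • d) =
      (if h : (g : SL(2, ℝ)) ∈ Γ then v ⟨g, h⟩ else 0) + (g : SL(2, ℝ)) • Φ d := fun g d => by
    rw [dif_pos g.2]
    exact hv g d
  refine ⟨Φ, fun g => if h : g ∈ Γ then v ⟨g, h⟩ else 0, fun γ hγ δ hδ => ?_, h1, h2, h3, hu⟩
  obtain ⟨d⟩ : Nonempty T.D := inferInstance
  have e := hu (⟨γ, hγ⟩ * ⟨δ, hδ⟩) d
  rw [mul_smul, hu, hu, smul_add, ← add_assoc, ← mul_smul] at e
  exact (add_right_cancel e).symm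

end Tr

end

end Pool.Agent.P.MP_d39174_gt

end

section
/-! Base pairs and jumps across walls. -/

namespace Pool.Agent.P.MP_d39174_gt

open UpperHalfPlane MatrixGroups

noncomputable section

open Finset

namespace Tr

variable {Γ : Subgroup SL(2, ℝ)} {T : Tr Γ} {M : Type*} [AddCommGroup M] [Module ℝ M]

lemma exists_base (Q : T.D → T.D → Prop) (h1 : ∀ (g : Γ) d d', Q d d' → Q (g • d) (g • d'))
    (h2 : ∀ d d', d'.a = -d.a → Q d d' → Q d' d)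
    (h3 : ∀ a ∈ T.A, ∃ d d' : T.D, d.a = a ∧ d'.a = -a ∧ Q d d') :
    ∃ Bs : T.Base, ∀ p ∈ Bs.S, Q p.1 p.2 := by
  let σ : Setoid V := ⟨Eqw Γ, Eqw.refl Γ, Eqw.symm, Eqw.trans⟩
  let R : Set V := {a | a ∈ T.A ∧ (Quotient.mk σ a).out = a}
  have hR : ∀ a ∈ T.A, ∃ r ∈ R, Eqw Γ r a := fun a ha => by
    have e : Eqw Γ (Quotient.mk σ a).out a := Quotient.mk_out (s := σ) a
    refine ⟨_, ⟨?_, by rw [Quotient.out_eq]⟩, e⟩
    obtain ⟨g, hg, e | e⟩ := e.symm <;> rw [e]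
    exacts [T.ws.inv g hg a ha, T.ws.neg _ (T.ws.inv g hg a ha)]
  have hR' : ∀ a ∈ R, ∀ b ∈ R, Eqw Γ a b → a = b := fun a ha b hb e => by
    rw [← ha.2, ← hb.2, Quotient.sound (s := σ) e]
  choose! u v hu hv hQ using h3
  have hs : ∀ (g g' : Γ) (d : T.D), (g' * g⁻¹) • g • d = g' • d := fun g g' d => by
    rw [mul_smul, inv_smul_smul]
  refine ⟨⟨{p | ∃ a ∈ R, ∃ g : Γ, p = (g • u a, g • v a) ∨ p = (g • v a, g • u a)},
    ?_, ?_, ?_, ?_, ?_⟩, ?_⟩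
  · rintro _ ⟨a, ha, g, rfl | rfl⟩ <;> simp [hu a ha.1, hv a ha.1]
  · rintro _ ⟨a, ha, g, rfl | rfl⟩
    exacts [⟨a, ha, g, Or.inr rfl⟩, ⟨a, ha, g, Or.inl rfl⟩]
  · rintro g' _ ⟨a, ha, g, rfl | rfl⟩
    exacts [⟨a, ha, g' * g, Or.inl (by simp only [mul_smul])⟩,
      ⟨a, ha, g' * g, Or.inr (by simp only [mul_smul])⟩]
  · intro a ha
    obtain ⟨r, hr, g, hg, e | e⟩ := hR a ha
    · exact ⟨_, ⟨r, hr, ⟨g, hg⟩, Or.inl rfl⟩, by simp [hu r hr.1, e]⟩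
    · exact ⟨_, ⟨r, hr, ⟨g, hg⟩, Or.inr rfl⟩, by simp [hv r hr.1, e]⟩
  · have hf : ∀ a ∈ R, ∀ b ∈ R, ∀ g g' : Γ, (g : SL(2, ℝ)) • a ≠ -((g' : SL(2, ℝ)) • b) := by
      intro a ha b hb g g' e
      have e' : ((g'⁻¹ * g : Γ) : SL(2, ℝ)) • a = -b := by
        rw [Subgroup.coe_mul, Subgroup.coe_inv, mul_smul, e, smul_neg, inv_smul_smul]
      obtain rfl := hR' a ha b hb ⟨_, (g'⁻¹ * g).2, Or.inr (by rw [e', neg_neg])⟩
      exact T.nice.noflip (g'⁻¹ * g).2 (unit ha.1) e'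
    have he : ∀ a ∈ R, ∀ b ∈ R, ∀ g g' : Γ, (g : SL(2, ℝ)) • a = (g' : SL(2, ℝ)) • b → a = b :=
      fun a ha b hb g g' e => hR' a ha b hb ⟨_, (g'⁻¹ * g).2, Or.inl (by
        rw [Subgroup.coe_mul, Subgroup.coe_inv, mul_smul, e, inv_smul_smul])⟩
    rintro _ ⟨a, ha, g, rfl | rfl⟩ _ ⟨b, hb, g', rfl | rfl⟩ e <;>
      simp only [smul_a, hu a ha.1, hv a ha.1, hu b hb.1, hv b hb.1, smul_neg, neg_inj] at e
    · obtain rfl := he a ha b hb g g' e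
      exact ⟨g' * g⁻¹, by simp only [hs]⟩
    · exact absurd e (hf a ha b hb g g')
    · exact absurd e.symm (hf b hb a ha g' g)
    · obtain rfl := he a ha b hb g g' e
      exact ⟨g' * g⁻¹, by simp only [hs]⟩
  · rintro _ ⟨a, ha, g, rfl | rfl⟩
    · exact h1 g _ _ (hQ a ha.1)
    · exact h1 g _ _ (h2 _ _ (by rw [hu a ha.1, hv a ha.1]) (hQ a ha.1))

lemma Base.snd_eq (Bs : T.Base) {β β' β'' : T.D} (h : (β, β') ∈ Bs.S) (h' : (β, β'') ∈ Bs.S) :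
    β'' = β' := by
  obtain ⟨g, e⟩ := Bs.uniq _ h _ h' rfl
  obtain ⟨e1, e2⟩ := Prod.ext_iff.1 e
  rw [show β'' = g • β' from e2, ← smul_of_pm (g := 1) (pm_of_smul_eq e1.symm), one_smul]

lemma Base.not_orbit (Bs : T.Base) {p : T.D × T.D} (h : p ∈ Bs.S) (g : Γ) : g • p.1 ≠ p.2 :=
  fun e => T.nice.noflip g.2 p.1.a_unit (by rw [← Bs.opp p h, ← e, smul_a])

lemma Base.conn (Bs : T.Base) {U : Set T.D} (h1 : ∀ d ∈ U, T.ι d ∈ U) (h2 : ∀ d ∈ U, T.ν d ∈ U)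
    (h3 : ∀ p ∈ Bs.S, p.1 ∈ U → p.2 ∈ U) (h4 : U.Nonempty) : U = Set.univ := by
  refine conn_darts h1 h2 (fun a ha => ?_) h4
  obtain ⟨p, hp, e⟩ := Bs.ex a ha
  exact ⟨p.1, p.2, e, by rw [Bs.opp p hp, e], h3 p hp⟩

lemma f_opp {d d' : T.D} (h : d'.a = -d.a) {γ : Γ} (e : (T.φ ^ d.f) d = γ • d) :
    (T.φ ^ d'.f) (γ • d') = d' := by
  obtain ⟨t, ht⟩ := T.nice.exists_prim (T.ws.per _ d.a_mem)
  have h1 := (d.pm_of_f ht e).inv
  rw [← ex_neg, ← ex_neg_right, ← h] at h1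
  rw [φ_pow_smul, d'.f_spec (γ := γ⁻¹) (h ▸ ht.neg) h1, smul_inv_smul]

omit [AddCommGroup M] [Module ℝ M] in
lemma BaseL_const {F : T.D → M} (hF : ∀ d, F (T.φ d) = F d) {d e : T.D} (h : e.a = d.a) :
    F e = F d := by
  obtain ⟨i, rfl⟩ := fan h
  induction i using Int.induction_on with
  | zero => rfl
  | succ i ih => rw [add_comm, zpow_add, zpow_one, Equiv.Perm.mul_apply, hF, ih (φ_zpow_a _ _)]
  | pred i ih =>
    rw [← hF, ← Equiv.Perm.mul_apply, ← zpow_one_add, add_sub_cancel, ih (φ_zpow_a _ _)]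

omit [Module ℝ M] in
lemma BaseL_int (u : ℤ → M) : ∃ σ : ℤ → M, ∀ i, σ (i + 1) = σ i + u (i + 1) := by
  refine ⟨fun i => ∑ m ∈ range i.toNat, u (m + 1) - ∑ m ∈ range (-i).toNat, u (-m), fun i => ?_⟩
  rcases le_or_gt 0 i with hi | hi
  · lift i to ℕ using hi
    have h1 : (-((i : ℤ) + 1)).toNat = 0 := by omega
    have h2 : (-(i : ℤ)).toNat = 0 := by omega
    have h3 : ((i : ℤ) + 1).toNat = i + 1 := by omega
    simp only [h1, h2, h3, Int.toNat_natCast, sum_range_succ, sum_range_zero, sub_zero]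
  · obtain ⟨n, rfl⟩ : ∃ n : ℕ, i = -n - 1 := ⟨(-i - 1).toNat, by omega⟩
    have h1 : (-(n : ℤ) - 1).toNat = 0 := by omega
    have h2 : (-(n : ℤ)).toNat = 0 := by omega
    have h3 : (-(-(n : ℤ) - 1)).toNat = n + 1 := by omega
    simp only [sub_add_cancel, h1, h2, h3, neg_neg, Int.toNat_natCast, sum_range_succ,
      sum_range_zero]
    abel

omit [Module ℝ M] in
lemma BaseL_pot (h : T.D → M) : ∃ Ψ : T.D → M, ∀ d, Ψ (T.φ d) = Ψ d + h (T.φ d) := by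
  have h1 : ∀ a ∈ T.A, ∃ d : T.D, d.a = a := fun a ha =>
    (T.has a ha).elim fun b hb => ⟨⟨(a, b), hb⟩, rfl⟩
  choose! b hb using h1
  choose σ hσ using fun d : T.D => BaseL_int fun i => h ((T.φ ^ i) d)
  choose n hn using fun d : T.D => fan (hb d.a d.a_mem).symm
  refine ⟨fun d => σ (b d.a) (n d), fun d => ?_⟩
  have h2 : T.φ d = (T.φ ^ (n d + 1)) (b d.a) := by
    rw [add_comm, zpow_add, zpow_one, Equiv.Perm.mul_apply, ← hn]
  have h3 := hn (T.φ d)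
  rw [φ_a] at h3
  have h4 : n (T.φ d) = n d + 1 :=
    (r_zpow_strictMono (b d.a)).injective (congrArg D.r (h3.symm.trans h2))
  simp only [φ_a, h4, hσ, ← h2]

omit [Module ℝ M] in
lemma BaseL_pow {h Ψ : T.D → M} (hΨ : ∀ d, Ψ (T.φ d) = Ψ d + h (T.φ d)) (d : T.D) (n : ℕ) :
    Ψ ((T.φ ^ n) d) = Ψ d + ∑ m ∈ range n, h ((T.φ ^ (m + 1)) d) := by
  induction n with
  | zero => simp
  | succ n ih => rw [sum_range_succ, pow_succ', Equiv.Perm.mul_apply, hΨ, ih, add_assoc]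

lemma BaseL_fix {n k : V} (hn : B n n = 1) (hk : B k n = 0) {t : ℝ} (ht : t ≠ 0)
    (e : ex t n • k = k) : k = 0 := by
  rw [B_comm] at hk
  rw [ex_ad_perp hn hk] at e
  have e2 := congrArg (cr n) e
  rw [cr_add_right, cr_smul_right, cr_smul_right, cr_cr, hn, hk, one_smul, zero_smul,
    sub_zero] at e2
  have h1 : 1 < Real.cosh (2 * t) := Real.one_lt_cosh.2 (mul_ne_zero two_ne_zero ht)
  have h2 := Real.cosh_sq (2 * t)
  have e3 : (2 - 2 * Real.cosh (2 * t)) • k = 0 := by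
    linear_combination (norm := module) (Real.cosh (2 * t) - 1) • e - Real.sinh (2 * t) • e2 - h2 • k
  exact (smul_eq_zero.1 e3).resolve_left (by linarith)

/-- Extension of jumps from base pairs to all pairs. -/
theorem exK (Bs : T.Base) (ρ : Γ → M →ₗ[ℝ] M) (s : ℝ) (hs : s * s = 1) (h : T.D → M)
    (hh : ∀ (g : Γ) d, h (g • d) = ρ g (h d)) (K0 : T.D → T.D → M)
    (e1 : ∀ g : Γ, ∀ p ∈ Bs.S, K0 (g • p.1) (g • p.2) = ρ g (K0 p.1 p.2))
    (e2 : ∀ p ∈ Bs.S, K0 p.2 p.1 = s • K0 p.1 p.2)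
    (e3 : ∀ p ∈ Bs.S, ∀ γ : Γ, (T.φ ^ p.1.f) p.1 = γ • p.1 →
      K0 (γ • p.1) (γ • p.2) = K0 p.1 p.2 + ∑ m ∈ range p.1.f, h ((T.φ ^ (m + 1)) p.1) -
        s • ∑ m ∈ range p.2.f, h ((T.φ ^ (m + 1)) (γ • p.2))) :
    ∃ K : T.D → T.D → M, (∀ p ∈ Bs.S, K p.1 p.2 = K0 p.1 p.2) ∧
      (∀ (g : Γ) d d', d'.a = -d.a → K (g • d) (g • d') = ρ g (K d d')) ∧
      (∀ d d', d'.a = -d.a → K d' d = s • K d d') ∧
      ∀ d d', d'.a = -d.a → K (T.φ d) d' = K d d' + h (T.φ d) := by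
  obtain ⟨Ψ, hΨ⟩ := BaseL_pot h
  have hρ : ∀ (g : Γ) (d e : T.D), e.a = d.a → Ψ (g • e) - ρ g (Ψ e) = Ψ (g • d) - ρ g (Ψ d) :=
    fun g d e he => BaseL_const (F := fun d => Ψ (g • d) - ρ g (Ψ d)) (fun d => by
      rw [← φ_smul, hΨ, hΨ, φ_smul, hh, map_add]
      abel) he
  let C : T.D × T.D → M := fun p => K0 p.1 p.2 - Ψ p.1 - s • Ψ p.2
  have hC : ∀ p ∈ Bs.S, ∀ q ∈ Bs.S, p.1.a = q.1.a → C q = C p := by
    intro p hp q hq e
    obtain ⟨g, rfl⟩ := Bs.uniq p hp q hq e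
    obtain ⟨t, ht⟩ := T.nice.exists_prim (T.ws.per _ p.1.a_mem)
    obtain ⟨m, hm⟩ := ht.gen g g.2 e.symm
    let γ : Γ := ⟨ex t p.1.a, ht.mem⟩⁻¹
    have hγ : (γ : SL(2, ℝ)) = ex (-t) p.1.a := (ex_neg _ _).symm
    have h1 : ∀ q ∈ Bs.S, q.1.a = p.1.a → C (γ • q.1, γ • q.2) = C q := fun q hq e => by
      have h2 := q.1.f_spec (γ := γ) (e ▸ ht) (by rw [e, hγ]; exact PM.refl _)
      have h3 := BaseL_pow hΨ q.1 q.1.f
      have h4 := BaseL_pow hΨ (γ • q.2) q.2.f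
      rw [f_opp (Bs.opp q hq) h2] at h4
      rw [h2] at h3
      simp only [C, e3 q hq γ h2, h3, h4, smul_add]
      abel
    have h2 : ∀ i : ℤ, ((γ ^ i) • p.1).a = p.1.a := fun i => by
      rw [smul_a, Subgroup.coe_zpow, hγ, ex_zpow, ex_ad_self]
    have h3 : ∀ i : ℤ, C ((γ ^ (1 + i)) • p.1, (γ ^ (1 + i)) • p.2) =
        C ((γ ^ i) • p.1, (γ ^ i) • p.2) := fun i => by
      rw [zpow_one_add, mul_smul, mul_smul]
      exact h1 _ (Bs.inv _ p hp) (h2 i)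
    have h4 : ∀ i : ℤ, C ((γ ^ i) • p.1, (γ ^ i) • p.2) = C p := fun i => by
      induction i using Int.induction_on with
      | zero => simp
      | succ i ih => rw [add_comm, h3, ih]
      | pred i ih => rw [← h3, add_sub_cancel, ih]
    have h5 : PM ((γ ^ (-m) : Γ) : SL(2, ℝ)) g := by
      rwa [Subgroup.coe_zpow, hγ, ex_zpow, Int.cast_neg, neg_mul_neg]
    rw [← smul_of_pm h5, ← smul_of_pm h5, h4]
  choose! b hb hb' using Bs.ex
  have hK : ∀ p ∈ Bs.S, ∀ d : T.D, d.a = p.1.a → C (b d.a) = C p := fun p hp d e =>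
    hC p hp _ (hb _ d.a_mem) (by rw [hb' _ d.a_mem, e])
  refine ⟨fun d d' => C (b d.a) + Ψ d + s • Ψ d', fun p hp => ?_, fun g d d' e => ?_,
    fun d d' e => ?_, fun d d' _ => ?_⟩
  · simp only [hK p hp p.1 rfl, C]
    abel
  · have hp := hb _ d.a_mem
    have h1 := hb' _ d.a_mem
    have h2 := hρ g d _ h1
    have h3 := hρ g d' (b d.a).2 (by rw [Bs.opp _ hp, h1, e])
    simp only [hK _ (Bs.inv g _ hp) (g • d) (by rw [smul_a, smul_a, h1])]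
    simp only [C, e1 g _ hp, map_add, map_sub, map_smul]
    linear_combination (norm := module) -h2 - s • h3
  · have hp := hb _ d.a_mem
    simp only [hK _ (Bs.symm _ hp) d' (by rw [Bs.opp _ hp, hb' _ d.a_mem, e])]
    simp only [C, e2 _ hp, smul_add, smul_sub, smul_smul, hs, one_smul]
    abel
  · simp only [φ_a, hΨ]
    abel

/-- Balanced jumps in `V` extend across the walls. -/
theorem exK_V (h : T.D → V) (hh : ∀ (g : Γ) d, h (g • d) = (g : SL(2, ℝ)) • h d)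
    (bal : ∀ d d' : T.D, d'.a = -d.a → B (∑ m ∈ range d.f, h ((T.φ ^ (m + 1)) d)) d.a =
      B (∑ m ∈ range d'.f, h ((T.φ ^ (m + 1)) d')) d'.a) :
    ∃ K : T.D → T.D → V,
      (∀ (g : Γ) d d', d'.a = -d.a → K (g • d) (g • d') = (g : SL(2, ℝ)) • K d d') ∧
      (∀ d d', d'.a = -d.a → K d' d = -K d d') ∧
      ∀ d d', d'.a = -d.a → K (T.φ d) d' = K d d' + h (T.φ d) := by
  obtain ⟨Bs, -⟩ := exists_base (T := T) (fun _ _ => True) (fun _ _ _ _ => trivial)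
    (fun _ _ _ _ => trivial) fun a ha => by
      obtain ⟨b, hb⟩ := T.has a ha
      obtain ⟨b', hb'⟩ := T.has _ (T.ws.neg a ha)
      exact ⟨⟨(a, b), hb⟩, ⟨(-a, b'), hb'⟩, rfl, rfl, trivial⟩
  let Sol : T.D → T.D → V → Prop := fun d d' k => B k d.a = 0 ∧ ∀ γ : Γ,
    (T.φ ^ d.f) d = γ • d → (γ : SL(2, ℝ)) • k - k = ∑ m ∈ range d.f, h ((T.φ ^ (m + 1)) d) +
      ∑ m ∈ range d'.f, h ((T.φ ^ (m + 1)) (γ • d'))
  have hs : ∀ (g : Γ) (d : T.D) (n : ℕ), ∑ m ∈ range n, h ((T.φ ^ (m + 1)) (g • d)) =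
      (g : SL(2, ℝ)) • ∑ m ∈ range n, h ((T.φ ^ (m + 1)) d) := fun g d n => by
    simp only [φ_pow_smul, hh, smul_sum]
  have hex : ∀ d d' : T.D, d'.a = -d.a → ∃! k, Sol d d' k := fun d d' e => by
    obtain ⟨t, ht⟩ := T.nice.exists_prim (T.ws.per _ d.a_mem)
    let γ : Γ := ⟨ex t d.a, ht.mem⟩⁻¹
    have hγ : (γ : SL(2, ℝ)) = ex (-t) d.a := (ex_neg _ _).symm
    have ht' : -t ≠ 0 := neg_ne_zero.2 ht.pos.ne'
    have h1 : (γ • d').a = -d.a := by rw [smul_a, e, smul_neg, hγ, ex_ad_self]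
    have h2 := bal d _ h1
    rw [f_smul, h1, B_neg_right] at h2
    obtain ⟨k, hk⟩ := exists_ad_sub (v := ∑ m ∈ range d.f, h ((T.φ ^ (m + 1)) d) +
      ∑ m ∈ range d'.f, h ((T.φ ^ (m + 1)) (γ • d'))) d.a_unit ht' (by
        rw [B_add_left, h2, neg_add_cancel])
    have h3 : Sol d d' (k - B k d.a • d.a) := by
      refine ⟨by simp [d.a_unit], fun g hg => ?_⟩
      have h4 := d.pm_of_f ht hg
      rw [← h4.ad, ← smul_of_pm (g := γ) (hγ ▸ h4), ← hk, smul_sub, ad_real, ex_ad_self]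
      abel
    refine ⟨_, h3, fun k' h4 => sub_eq_zero.1 (BaseL_fix d.a_unit
      (by rw [B_sub_left, h4.1, h3.1, sub_zero]) ht' ?_)⟩
    have h5 := d.f_spec (γ := γ) ht (hγ ▸ PM.refl _)
    have h6 := (h4.2 γ h5).trans (h3.2 γ h5).symm
    rw [← hγ, smul_sub]
    linear_combination (norm := abel1) h6
  choose! K0 hK0 hU using hex
  have e1 : ∀ (g : Γ) (d d' : T.D), d'.a = -d.a →
      K0 (g • d) (g • d') = (g : SL(2, ℝ)) • K0 d d' := fun g d d' e => by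
    refine (hU _ _ (by rw [smul_a, smul_a, e, smul_neg]) _
      ⟨by rw [smul_a, B_ad, (hK0 d d' e).1], fun γ hγ => ?_⟩).symm
    rw [f_smul, φ_pow_smul, ← eq_inv_smul_iff, ← mul_smul, ← mul_smul] at hγ
    have h1 := congrArg ((g : SL(2, ℝ)) • ·) ((hK0 d d' e).2 _ hγ)
    simp only [smul_sub, smul_add, ← hs, mul_smul, Subgroup.coe_mul, Subgroup.coe_inv,
      smul_inv_smul] at h1
    rw [f_smul, f_smul, h1]
  have e2 : ∀ d d' : T.D, d'.a = -d.a → K0 d' d = (-1 : ℝ) • K0 d d' := fun d d' e => by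
    have e' : d.a = -d'.a := by rw [e, neg_neg]
    refine (hU _ _ e' _ ⟨by simp [e, (hK0 _ _ e).1], fun γ hγ => ?_⟩).symm
    have h1 := f_opp e' hγ
    rw [φ_pow_smul, ← eq_inv_smul_iff] at h1
    have h2 := congrArg ((γ : SL(2, ℝ)) • ·) ((hK0 _ _ e).2 _ h1)
    simp only [smul_sub, smul_add, ← hs, Subgroup.coe_inv, smul_inv_smul] at h2
    rw [neg_one_smul, smul_neg]
    linear_combination (norm := abel1) h2
  obtain ⟨K, -, k1, k2, k3⟩ := exK Bs (fun g => DistribSMul.toLinearMap ℝ V (g : SL(2, ℝ))) (-1)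
    (by norm_num) h hh K0 (fun g p hp => e1 g _ _ (Bs.opp p hp))
    (fun p hp => e2 _ _ (Bs.opp p hp)) fun p hp γ hγ => by
      rw [e1 γ _ _ (Bs.opp p hp), neg_one_smul]
      linear_combination (norm := abel1) (hK0 _ _ (Bs.opp p hp)).2 γ hγ
  exact ⟨K, k1, fun d d' e => by rw [k2 d d' e, neg_one_smul], k3⟩

end Tr

end

end Pool.Agent.P.MP_d39174_gt

end

section
/-! A maximal family of far apart systoles. -/

namespace Pool.Agent.P.MP_d39174_gt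

open UpperHalfPlane MatrixGroups

noncomputable section

variable {Γ : Subgroup SL(2, ℝ)} {l : ℝ}

/-- A maximal family of far apart systolic walls. -/
structure Far (Γ : Subgroup SL(2, ℝ)) (l : ℝ) (A : Set V) : Prop where
  sub : A ⊆ SS Γ l
  near : ∀ w ∈ SS Γ l, ∃ a ∈ A, w = a ∨ |B w a| < 1 ∨ ∃ v ∈ SS Γ l, |B w v| < 1 ∧ |B v a| < 1
  far : ∀ a ∈ A, ∀ a' ∈ A, ∀ w ∈ SS Γ l, |B w a| < 1 → |B w a'| < 1 → Eqw Γ a a'

/-- Two walls cross or are crossed by a common systolic wall. -/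
private def ChooseCl (Γ : Subgroup SL(2, ℝ)) (l : ℝ) (w a : V) : Prop :=
  |B w a| < 1 ∨ ∃ v ∈ SS Γ l, |B w v| < 1 ∧ |B v a| < 1

private lemma ChooseCl_symm {w a : V} (h : ChooseCl Γ l w a) : ChooseCl Γ l a w := by
  rcases h with h | ⟨v, hv, h1, h2⟩
  · exact Or.inl (by rwa [B_comm])
  · exact Or.inr ⟨v, hv, by rwa [B_comm], by rwa [B_comm]⟩

private lemma ChooseCl_eqw {w b a : V} (e : Eqw Γ w b) (h : ChooseCl Γ l b a) :
    ∃ a', Eqw Γ a a' ∧ ChooseCl Γ l w a' := by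
  obtain ⟨g, hg, e⟩ := e
  have key : ∀ x, |B b x| = |B w (g⁻¹ • x)| := by
    intro x
    rcases e with rfl | rfl
    · rw [B_ad_left]
    · rw [B_neg_left, abs_neg, B_ad_left]
  refine ⟨g⁻¹ • a, ⟨g⁻¹, Γ.inv_mem hg, Or.inl rfl⟩, ?_⟩
  rcases h with h | ⟨v, hv, h1, h2⟩
  · exact Or.inl (by rwa [← key])
  · exact Or.inr ⟨g⁻¹ • v, SS.ad hv (Γ.inv_mem hg), by rwa [← key], by rwa [B_ad]⟩

private lemma Choose_zorn (Γ : Subgroup SL(2, ℝ)) (l : ℝ) : ∃ A : Set V, A ⊆ SS Γ l ∧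
    (∀ a ∈ A, ∀ b, Eqw Γ a b → b ∈ A) ∧ (∀ a ∈ A, ∀ a' ∈ A, ChooseCl Γ l a a' → Eqw Γ a a') ∧
    ∀ w ∈ SS Γ l, ∃ a ∈ A, w = a ∨ ChooseCl Γ l w a := by
  obtain ⟨A, hA⟩ := zorn_subset {A : Set V | A ⊆ SS Γ l ∧ (∀ a ∈ A, ∀ b, Eqw Γ a b → b ∈ A) ∧
      ∀ a ∈ A, ∀ a' ∈ A, ChooseCl Γ l a a' → Eqw Γ a a'} (by
    intro c hc hch
    refine ⟨⋃₀ c, ⟨?_, ?_, ?_⟩, fun s hs => Set.subset_sUnion_of_mem hs⟩
    · rintro a ⟨s, hs, ha⟩
      exact (hc hs).1 ha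
    · rintro a ⟨s, hs, ha⟩ b e
      exact ⟨s, hs, (hc hs).2.1 a ha b e⟩
    · rintro a ⟨s, hs, ha⟩ a' ⟨t, ht, ha'⟩ e
      rcases hch.total hs ht with h | h
      · exact (hc ht).2.2 a (h ha) a' ha' e
      · exact (hc hs).2.2 a ha a' (h ha') e)
  obtain ⟨h1, h2, h3⟩ := hA.prop
  refine ⟨A, h1, h2, h3, fun w hw => ?_⟩
  by_contra hn
  have h4 : ∀ a ∈ A, ∀ b, Eqw Γ w b → ¬ ChooseCl Γ l b a := by
    intro a ha b e c
    obtain ⟨a', e', c'⟩ := ChooseCl_eqw e c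
    exact hn ⟨a', h2 a ha a' e', Or.inr c'⟩
  have h5 : A ∪ {b | Eqw Γ w b} ⊆ A := by
    refine hA.le_of_ge ⟨?_, ?_, ?_⟩ Set.subset_union_left
    · rintro a (ha | ha)
      · exact h1 ha
      · exact SS.eqw hw ha
    · rintro a (ha | ha) b e
      · exact Or.inl (h2 a ha b e)
      · exact Or.inr (Eqw.trans ha e)
    · rintro a (ha | ha) a' (ha' | ha') c
      · exact h3 a ha a' ha' c
      · exact absurd (ChooseCl_symm c) (h4 a ha a' ha')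
      · exact absurd c (h4 a' ha' a ha)
      · exact Eqw.trans (Eqw.symm ha) ha'
  exact hn ⟨w, h5 (Or.inr (Eqw.refl Γ w)), Or.inl rfl⟩

theorem exists_far (h : Nice Γ) (s : Sys Γ l) : ∃ A, WallSys Γ A ∧ Far Γ l A := by
  obtain ⟨A, h1, h2, h3, h4⟩ := Choose_zorn Γ l
  have per : ∀ a ∈ A, Per Γ a := fun a ha => SS.per s.pos (h1 ha)
  have inv : ∀ g ∈ Γ, ∀ a ∈ A, g • a ∈ A := fun g hg a ha => h2 a ha _ ⟨g, hg, Or.inl rfl⟩
  refine ⟨A, ⟨per, inv, fun a ha => h2 a ha _ ⟨1, Γ.one_mem, Or.inr (by rw [one_smul])⟩, ?_, ?_,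
    ?_⟩, h1, h4, fun a ha a' ha' w hw c1 c2 =>
      h3 a ha a' ha' (Or.inr ⟨w, hw, by rwa [B_comm], c2⟩)⟩
  · intro a ha b hb n1 n2
    by_cases e : Eqw Γ a b
    · obtain ⟨g, hg, rfl | rfl⟩ := e
      · exact simple h s (h1 ha) hg n1
      · rw [B_neg_right, abs_neg]
        exact simple h s (h1 ha) hg fun e => n2 (by rw [e])
    · exact lt_of_le_of_ne (not_lt.1 fun c => e (h3 a ha b hb (Or.inl c)))
        (h.abs_B_ne_one (per a ha) (per b hb) n1 n2).symm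
  · obtain ⟨F, -, hF⟩ := h.fin_orbits ((h.lf_SS s.pos).mono h1) (fun n hn => (h1 hn).1) inv
    exact ⟨F, hF⟩
  · obtain ⟨w, hw⟩ := s.ne
    obtain ⟨a, ha, -⟩ := h4 w hw
    exact ⟨a, ha⟩

private lemma Choose_step (s : Sys Γ l) {n m : V} (hn : n ∈ SS Γ l) (hm : B m m = 1)
    (h : |B n m| < 1) {z : ℍ} (hz : B n (Hy z) = 0) :
    ∃ g ∈ Γ, ∃ x : ℍ, B (g • m) (Hy x) = 0 ∧ dist z x ≤ l := by
  obtain ⟨x, x1, x2⟩ := exists_cross hn.1 hm h
  obtain ⟨k, hk⟩ := near_translate hn.1 s.pos hz x1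
  exact ⟨ex (k * l) n, sysG_mem hn k, ex (k * l) n • x, by rw [Hy_smul, B_ad, x2], hk⟩

lemma Far.nearK (s : Sys Γ l) {A : Set V} (w : WallSys Γ A) (f : Far Γ l A) {n : V}
    (hn : n ∈ SS Γ l) {z : ℍ} (hz : B n (Hy z) = 0) :
    ∃ a ∈ A, |B a (Hy z)| ≤ Real.sinh (2 * l) := by
  have hl := s.pos
  obtain ⟨a, ha, e | e | ⟨v, hv, e1, e2⟩⟩ := f.near n hn
  · refine ⟨a, ha, ?_⟩
    rw [← e, hz, abs_zero]
    exact Real.sinh_nonneg_iff.2 (by linarith)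
  · obtain ⟨g, hg, x, x1, x2⟩ := Choose_step s hn (f.sub ha).1 e hz
    exact ⟨g • a, w.inv g hg a ha,
      abs_B_le_sinh (f.sub (w.inv g hg a ha)).1 x1 (by linarith)⟩
  · obtain ⟨g, hg, x, x1, x2⟩ := Choose_step s hn hv.1 e1 hz
    have ha1 := w.inv g hg a ha
    obtain ⟨k, hk, y, y1, y2⟩ :=
      Choose_step s (SS.ad hv hg) (f.sub ha1).1 (by rwa [B_ad]) x1
    have ha2 := w.inv k hk _ ha1
    exact ⟨k • g • a, ha2,
      abs_B_le_sinh (f.sub ha2).1 y1 (by linarith [dist_triangle z x y])⟩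

private lemma Choose_rep (Γ : Subgroup SL(2, ℝ)) : ∃ (r : V → V) (k : V → SL(2, ℝ)),
    (∀ x, k x ∈ Γ ∧ x = k x • r x) ∧ ∀ g ∈ Γ, ∀ x, r (g • x) = r x := by
  have h1 : ∀ x : V, ∃ g ∈ Γ, x = g • Classical.epsilon fun y : V => ∃ g ∈ Γ, x = g • y :=
    fun x => Classical.epsilon_spec (p := fun y : V => ∃ g ∈ Γ, x = g • y)
      ⟨x, 1, Γ.one_mem, (one_smul _ _).symm⟩
  choose k hk using h1
  refine ⟨fun x => Classical.epsilon fun y : V => ∃ g ∈ Γ, x = g • y, k, hk, fun g hg x => ?_⟩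
  have e : (fun y : V => ∃ g' ∈ Γ, g • x = g' • y) = fun y : V => ∃ g' ∈ Γ, x = g' • y := by
    funext y
    apply propext
    constructor
    · rintro ⟨g', hg', e⟩
      exact ⟨g⁻¹ * g', Γ.mul_mem (Γ.inv_mem hg) hg', by rw [mul_smul, ← e, inv_smul_smul]⟩
    · rintro ⟨g', hg', e⟩
      exact ⟨g * g', Γ.mul_mem hg hg', by rw [mul_smul, ← e]⟩
  show Classical.epsilon (fun y : V => ∃ g' ∈ Γ, g • x = g' • y) = _
  rw [e]

/-- Generators from a finite set of orbit representatives. -/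
private lemma Choose_gen (h : Nice Γ) (s : Sys Γ l) {M : ℕ} {nb : V → Finset V}
    (c1 : ∀ a, (nb a).card ≤ M) (c2 : ∀ a ∈ SS Γ l, ∀ w ∈ nb a, w ∈ SS Γ l)
    (c3 : ∀ a ∈ SS Γ l, ∀ w ∈ SS Γ l, |B a w| < 1 → ∃ m : ℤ, ∃ v ∈ nb a, w = ex (m * l) a • v)
    (conn : ∀ U : Set V, (∀ x ∈ U, ∀ y ∈ SS Γ l, (|B x y| < 1 ∨ y = -x) → y ∈ U) →
      (∃ x ∈ SS Γ l, x ∈ U) → SS Γ l ⊆ U)
    {Y : Finset V} (y1 : ∀ y ∈ Y, y ∈ SS Γ l)
    (y2 : ∀ w ∈ SS Γ l, ∃ g ∈ Γ, ∃ y ∈ Y, w = g • y) :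
    Module.Finite ℝ (Additive Γ →+ ℝ) ∧
      Module.finrank ℝ (Additive Γ →+ ℝ) ≤ 1 + (M + 2) * Y.card := by
  classical
  obtain ⟨r, k, hk, hr⟩ := Choose_rep Γ
  have rr : ∀ x, r (r x) = r x := by
    intro x
    have e := hr _ (hk x).1 (r x)
    rw [← (hk x).2] at e
    exact e.symm
  have rS : ∀ x ∈ SS Γ l, r x ∈ SS Γ l := by
    intro x hx
    have e := SS.ad hx (Γ.inv_mem (hk x).1)
    have e' : (k x)⁻¹ • x = r x := by
      rw [inv_smul_eq_iff]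
      exact (hk x).2
    rwa [e'] at e
  obtain ⟨Z, hZ⟩ : ∃ Z, Z = Y.image r := ⟨_, rfl⟩
  have z0 : Z.card ≤ Y.card := hZ ▸ Finset.card_image_le
  have z1 : ∀ x ∈ SS Γ l, r x ∈ Z := by
    intro x hx
    obtain ⟨g, hg, y, hy, rfl⟩ := y2 x hx
    rw [hr g hg, hZ]
    exact Finset.mem_image_of_mem r hy
  have z2 : ∀ z ∈ Z, z ∈ SS Γ l ∧ r z = z := by
    intro z hz
    rw [hZ] at hz
    obtain ⟨y, hy, rfl⟩ := Finset.mem_image.1 hz
    exact ⟨rS y (y1 y hy), rr y⟩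
  obtain ⟨G, hG⟩ : ∃ G : Finset SL(2, ℝ), G = insert (-1)
      (Z.image (ex l) ∪ Z.image (fun y => k (-y)) ∪ (Z.biUnion nb).image k) := ⟨_, rfl⟩
  have g0 : G.card ≤ 1 + (M + 2) * Y.card := by
    have a1 := Finset.card_insert_le (-1 : SL(2, ℝ))
      (Z.image (ex l) ∪ Z.image (fun y => k (-y)) ∪ (Z.biUnion nb).image k)
    have a2 := Finset.card_union_le (Z.image (ex l) ∪ Z.image (fun y => k (-y)))
      ((Z.biUnion nb).image k)
    have a3 := Finset.card_union_le (Z.image (ex l)) (Z.image fun y => k (-y))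
    have a4 : (Z.image (ex l)).card ≤ Z.card := Finset.card_image_le
    have a5 : (Z.image fun y => k (-y)).card ≤ Z.card := Finset.card_image_le
    have a6 : ((Z.biUnion nb).image k).card ≤ (Z.biUnion nb).card := Finset.card_image_le
    have a7 : (Z.biUnion nb).card ≤ Z.card * M :=
      Finset.card_biUnion_le_card_mul Z nb M fun a _ => c1 a
    have a8 : Z.card * M ≤ Y.card * M := Nat.mul_le_mul_right M z0
    rw [hG]
    nlinarith
  have m0 : (-1 : SL(2, ℝ)) ∈ Subgroup.closure (G : Set SL(2, ℝ)) :=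
    Subgroup.subset_closure (by rw [hG]; exact Finset.mem_insert_self _ _)
  have m1 : ∀ y ∈ Z, ∀ m : ℤ, ex (m * l) y ∈ Subgroup.closure (G : Set SL(2, ℝ)) := by
    intro y hy m
    rw [← ex_zpow]
    refine Subgroup.zpow_mem _ (Subgroup.subset_closure ?_) m
    rw [hG]
    exact Finset.mem_insert_of_mem (Finset.mem_union_left _ (Finset.mem_union_left _
      (Finset.mem_image_of_mem _ hy)))
  have m2 : ∀ y ∈ Z, k (-y) ∈ Subgroup.closure (G : Set SL(2, ℝ)) := by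
    intro y hy
    refine Subgroup.subset_closure ?_
    rw [hG]
    exact Finset.mem_insert_of_mem (Finset.mem_union_left _ (Finset.mem_union_right _
      (Finset.mem_image_of_mem (fun y => k (-y)) hy)))
  have m3 : ∀ y ∈ Z, ∀ v ∈ nb y, k v ∈ Subgroup.closure (G : Set SL(2, ℝ)) := by
    intro y hy v hv
    refine Subgroup.subset_closure ?_
    rw [hG]
    exact Finset.mem_insert_of_mem (Finset.mem_union_right _
      (Finset.mem_image_of_mem k (Finset.mem_biUnion.2 ⟨y, hy, hv⟩)))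
  have hle : Subgroup.closure (G : Set SL(2, ℝ)) ≤ Γ := by
    rw [Subgroup.closure_le, hG]
    intro g hg
    rcases Finset.mem_insert.1 hg with rfl | hg
    · exact h.neg_one_mem
    rcases Finset.mem_union.1 hg with hg | hg
    · rcases Finset.mem_union.1 hg with hg | hg
      · obtain ⟨y, hy, rfl⟩ := Finset.mem_image.1 hg
        exact (z2 y hy).1.2
      · obtain ⟨y, -, rfl⟩ := Finset.mem_image.1 hg
        exact (hk _).1
    · obtain ⟨y, -, rfl⟩ := Finset.mem_image.1 hg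
      exact (hk _).1
  have hcl : Subgroup.closure (G : Set SL(2, ℝ)) = Γ := by
    obtain ⟨w, hw⟩ := s.ne
    refine closure_eq_of_conn (S := SS Γ l) (R := fun x y => |B x y| < 1 ∨ y = -x)
      (Y := (Z : Set V)) (fun g hg x hx => SS.ad hx hg) ?_ conn (fun y hy => (z2 y hy).1)
      ⟨r w, z1 w hw⟩ hle ?_ ?_
    · rintro g - x y (e | rfl)
      · exact Or.inl (by rwa [B_ad])
      · exact Or.inr (smul_neg g x)
    · rintro y hy x hx (e | rfl)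
      · obtain ⟨m, v, hv, rfl⟩ := c3 y (z2 y hy).1 x hx e
        refine ⟨ex (m * l) y * k v, Subgroup.mul_mem _ (m1 y hy m) (m3 y hy v hv), r v,
          z1 v (c2 y (z2 y hy).1 v hv), ?_⟩
        rw [mul_smul, ← (hk v).2]
      · exact ⟨k (-y), m2 y hy, r (-y), z1 _ hx, (hk _).2⟩
    · intro y hy g hg hgy
      have e : g • y = y := by rw [← (z2 _ hgy).2, hr g hg, (z2 y hy).2]
      obtain ⟨m, hm⟩ := (s.prim h (z2 y hy).1).gen g hg e
      exact hm.mem m0 (m1 y hy m)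
  obtain ⟨f1, f2⟩ := finrank_le_of_closure hcl
  exact ⟨f1, f2.trans g0⟩

/-- The first Betti number is bounded by a multiple of the number of orbits of the family. -/
theorem betti_le (C : ℝ) : ∃ c : ℕ, ∀ (Γ : Subgroup SL(2, ℝ)) (l : ℝ), Nice Γ → Sys Γ l →
    1 / 2 ≤ l → l ≤ C →
    (∀ U : Set V, (∀ x ∈ U, ∀ y ∈ SS Γ l, (|B x y| < 1 ∨ y = -x) → y ∈ U) →
      (∃ x ∈ SS Γ l, x ∈ U) → SS Γ l ⊆ U) →
    ∀ A, WallSys Γ A → Far Γ l A → ∀ F : Finset V, (∀ m ∈ F, m ∈ A) →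
    (∀ a ∈ A, ∃ g ∈ Γ, ∃ m ∈ F, a = g • m) →
    Module.Finite ℝ (Additive Γ →+ ℝ) ∧ Module.finrank ℝ (Additive Γ →+ ℝ) ≤ c * F.card := by
  classical
  obtain ⟨M, hM⟩ := exists_nb C
  refine ⟨1 + (M + 2) * (1 + M + M * M), fun Γ l h s hl hC conn A w f F hF1 hF2 => ?_⟩
  have ex1 : ∀ a : V, ∃ N : Finset V, N.card ≤ M ∧ (a ∈ SS Γ l → (∀ v ∈ N, v ∈ SS Γ l) ∧
      ∀ v ∈ SS Γ l, |B a v| < 1 → ∃ m : ℤ, ∃ u ∈ N, v = ex (m * l) a • u) := by
    intro a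
    by_cases ha : a ∈ SS Γ l
    · obtain ⟨N, n1, n2, n3⟩ := hM Γ l h s hl hC a ha
      exact ⟨N, n1, fun _ => ⟨fun v hv => (n2 v hv).1, n3⟩⟩
    · exact ⟨∅, Nat.zero_le _, fun h => absurd h ha⟩
  choose nb c1 c2 using ex1
  have step : ∀ y ∈ SS Γ l, ∀ g ∈ Γ, ∀ v ∈ SS Γ l, |B v (g • y)| < 1 →
      ∃ k ∈ Γ, ∃ u ∈ nb y, v = k • u := by
    intro y hy g hg v hv e
    obtain ⟨m, u, hu, e'⟩ := (c2 y hy).2 (g⁻¹ • v) (SS.ad hv (Γ.inv_mem hg))
      (by rwa [B_comm, ← B_ad_right])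
    refine ⟨g * ex (m * l) y, Γ.mul_mem hg (sysG_mem hy m), u, hu, ?_⟩
    rw [mul_smul, ← e', smul_inv_smul]
  have s0 : ∀ y ∈ F, y ∈ SS Γ l := fun y hy => f.sub (hF1 y hy)
  have s1 : ∀ y ∈ F.biUnion nb, y ∈ SS Γ l := by
    intro y hy
    obtain ⟨x, hx, hy⟩ := Finset.mem_biUnion.1 hy
    exact (c2 x (s0 x hx)).1 y hy
  have s2 : ∀ y ∈ (F.biUnion nb).biUnion nb, y ∈ SS Γ l := by
    intro y hy
    obtain ⟨x, hx, hy⟩ := Finset.mem_biUnion.1 hy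
    exact (c2 x (s1 x hx)).1 y hy
  obtain ⟨f1, f2⟩ := Choose_gen h s c1 (fun a ha => (c2 a ha).1) (fun a ha => (c2 a ha).2) conn
    (Y := F ∪ F.biUnion nb ∪ (F.biUnion nb).biUnion nb) (by
      intro y hy
      rcases Finset.mem_union.1 hy with hy | hy
      · rcases Finset.mem_union.1 hy with hy | hy
        · exact s0 y hy
        · exact s1 y hy
      · exact s2 y hy) (by
      intro x hx
      obtain ⟨a, ha, e⟩ := f.near x hx
      obtain ⟨g, hg, m, hm, rfl⟩ := hF2 a ha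
      rcases e with e | e | ⟨v, hv, e1, e2⟩
      · exact ⟨g, hg, m, Finset.mem_union_left _ (Finset.mem_union_left _ hm), e⟩
      · obtain ⟨k, hk, u, hu, e'⟩ := step m (s0 m hm) g hg x hx e
        exact ⟨k, hk, u, Finset.mem_union_left _ (Finset.mem_union_right _
          (Finset.mem_biUnion.2 ⟨m, hm, hu⟩)), e'⟩
      · obtain ⟨k, hk, u, hu, rfl⟩ := step m (s0 m hm) g hg v hv e2
        have hu' : u ∈ F.biUnion nb := Finset.mem_biUnion.2 ⟨m, hm, hu⟩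
        obtain ⟨k', hk', u', hu'', e'⟩ := step u (s1 u hu') k hk x hx e1
        exact ⟨k', hk', u', Finset.mem_union_right _ (Finset.mem_biUnion.2 ⟨u, hu', hu''⟩), e'⟩)
  refine ⟨f1, f2.trans ?_⟩
  have a0 : 1 ≤ F.card := by
    obtain ⟨a, ha⟩ := w.ne
    obtain ⟨g, -, m, hm, -⟩ := hF2 a ha
    exact Finset.card_pos.2 ⟨m, hm⟩
  have a1 := Finset.card_union_le (F ∪ F.biUnion nb) ((F.biUnion nb).biUnion nb)
  have a2 := Finset.card_union_le F (F.biUnion nb)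
  have a3 : (F.biUnion nb).card ≤ F.card * M :=
    Finset.card_biUnion_le_card_mul F nb M fun a _ => c1 a
  have a4 : ((F.biUnion nb).biUnion nb).card ≤ (F.biUnion nb).card * M :=
    Finset.card_biUnion_le_card_mul _ nb M fun a _ => c1 a
  have a5 : (F.biUnion nb).card * M ≤ F.card * M * M := Nat.mul_le_mul_right M a3
  have a6 : (F ∪ F.biUnion nb ∪ (F.biUnion nb).biUnion nb).card ≤ (1 + M + M * M) * F.card := by
    nlinarith
  have a7 := Nat.mul_le_mul_left (M + 2) a6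
  nlinarith

end

end Pool.Agent.P.MP_d39174_gt

end

section
/-! Walls that are not crossed by a locally finite family. -/

namespace Pool.Agent.P.MP_d39174_gt

open UpperHalfPlane MatrixGroups

noncomputable section

variable {Γ : Subgroup SL(2, ℝ)} {S : Set V}

lemma Fill1_trans {a b c : ℝ} (h : 0 < a * b) (h' : 0 < b * c) : 0 < a * c := by
  rcases pos_and_pos_or_neg_and_neg_of_mul_pos h with ⟨a1, b1⟩ | ⟨a1, b1⟩
  · exact mul_pos a1 ((mul_pos_iff_of_pos_left b1).1 h')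
  · exact mul_pos_of_neg_of_neg a1 (neg_of_mul_pos_right h' b1.le)

lemma Fill1_zpow {a b : SL(2, ℝ)} (e : PM a b) (j : ℤ) : PM (a ^ j) (b ^ j) := by
  induction j using Int.induction_on with
  | zero => exact PM.refl 1
  | succ i ih =>
    rw [zpow_add_one, zpow_add_one]
    exact ih.mul e
  | pred i ih =>
    rw [zpow_sub_one, zpow_sub_one]
    exact ih.mul e.inv

/-- An element that preserves the signs at a generic point is not crossed. -/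
lemma unc_of_stab (uS : ∀ n ∈ S, B n n = 1) (iS : ∀ g ∈ Γ, ∀ n ∈ S, g • n ∈ S) {p : V}
    (hp : Fut p) {g : SL(2, ℝ)} (hg : g ∈ Γ) (hs : ∀ n ∈ S, 0 < B n p * B n (g • p)) {m : V}
    {t : ℝ} (hm : B m m = 1) (ht : 0 < t) (e : PM (ex t m) g) : ∀ n ∈ S, ¬ |B n m| < 1 := by
  intro n hn hc
  have h1 : ∀ j : ℤ, 0 < B n (g ^ j • p) * B n (g ^ (j + 1) • p) := fun j => by
    have := hs _ (iS _ (Γ.inv_mem (Γ.zpow_mem hg j)) n hn)
    rwa [← B_ad_right, ← B_ad_right, ← mul_smul, ← zpow_add_one] at this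
  have h2 : ∀ j : ℤ, 0 < B n p * B n (g ^ j • p) := fun j => by
    induction j using Int.induction_on with
    | zero =>
      rw [zpow_zero, one_smul]
      exact Fill1_trans (hs n hn) (mul_comm (B n p) _ ▸ hs n hn)
    | succ i ih => exact Fill1_trans ih (h1 i)
    | pred i ih =>
      have := h1 (-i - 1)
      rw [sub_add_cancel, mul_comm] at this
      exact Fill1_trans ih this
  obtain ⟨⟨i, hi⟩, j, hj⟩ := both_signs (uS n hn) hm hc ht hp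
  rw [← ex_zpow, (Fill1_zpow e _).ad] at hi hj
  have := Fill1_trans (mul_comm (B n p) _ ▸ h2 i) (h2 j)
  exact absurd (mul_neg_of_pos_of_neg hi hj) (not_lt.2 this.le)

/-- If some periodic wall is not crossed, then a simple one is not crossed. -/
lemma exists_simple_unc (h : Nice Γ) (pS : ∀ n ∈ S, Per Γ n) (iS : ∀ g ∈ Γ, ∀ n ∈ S, g • n ∈ S)
    (nS : ∀ n ∈ S, -n ∈ S) {m : V} (hm : Per Γ m) (hu : ∀ n ∈ S, ¬ |B n m| < 1) :
    ∃ m', WallSys Γ {a | Eqw Γ m' a} ∧ ∀ n ∈ S, ∀ a, Eqw Γ m' a → ¬ |B n a| < 1 := by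
  classical
  obtain ⟨hm1, t0, p0, e0⟩ := hm
  obtain ⟨t, ⟨tp, tle, m', hm', um'⟩, hmin⟩ := Set.exists_min_image
    {t : ℝ | 0 < t ∧ t ≤ t0 ∧ ∃ a ∈ SS Γ t, ∀ n ∈ S, ¬ |B n a| < 1} id
    ((h.fin_lengths t0).subset fun t ⟨a1, a2, a, a3, _⟩ => ⟨a1, a2, a, a3⟩)
    ⟨t0, p0, le_rfl, m, ⟨hm1, e0⟩, hu⟩
  have unc : ∀ n ∈ S, ∀ a, Eqw Γ m' a → ¬ |B n a| < 1 := by
    rintro n hn a ⟨g, hg, rfl | rfl⟩
    · rw [B_ad_right]
      exact um' _ (iS _ (Γ.inv_mem hg) n hn)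
    · rw [B_neg_right, abs_neg, B_ad_right]
      exact um' _ (iS _ (Γ.inv_mem hg) n hn)
  have key : ∀ a, Eqw Γ m' a → ∀ g ∈ Γ, ¬ |B a (g • a)| < 1 := by
    intro a ha g hg hc
    obtain ⟨a1, a2⟩ := SS.eqw hm' ha
    have aS : a ∉ S := fun h' => unc _ (iS g hg a h') a ha (by rwa [B_comm])
    obtain ⟨z, z1, z2⟩ := exists_cross a1 (by rwa [B_ad]) hc
    obtain ⟨j, hj⟩ := near_translate a1 tp z1 (w := g⁻¹ • z) (by rwa [Hy_smul, ← B_ad_left])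
    rw [← mul_smul] at hj
    have hk : ex (j * t) a * g⁻¹ ∈ Γ := Γ.mul_mem (ex_zpow t a j ▸ Γ.zpow_mem a2 j) (Γ.inv_mem hg)
    have hk1 : ¬ PM 1 (ex (j * t) a * g⁻¹) := fun e => by
      have e1 := e.ad (g • a)
      rw [one_smul, mul_smul, inv_smul_smul, ex_ad_self] at e1
      rw [e1, a1, abs_one] at hc
      exact lt_irrefl _ hc
    obtain ⟨b, s, b1, sp, e, b2⟩ := h.exists_ex hk hk1
    have hs : ∀ n ∈ S, 0 < B n (Hy z) * B n ((ex (j * t) a * g⁻¹) • Hy z) := fun n hn =>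
      sign_const_wall (pS n hn).1 a1 (not_lt.1 (unc n hn a ha)) (fun e => aS (e ▸ hn))
        (fun e => aS (e ▸ nS n hn)) (Hy_fut z) ((Hy_fut z).ad _) z1
        (by rwa [mul_smul, B_comm, B_ex_ad, B_comm, ← B_ad_left])
    have d := le_dist_ex b1 s z
    rw [e.act, abs_of_pos sp] at d
    have := hmin s ⟨sp, by linarith, b, ⟨b1, b2⟩,
      unc_of_stab (fun n hn => (pS n hn).1) iS (Hy_fut z) hk hs b1 sp e⟩
    simp only [id] at this
    linarith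
  have per : ∀ a, Eqw Γ m' a → Per Γ a := fun a ha => SS.per tp (SS.eqw hm' ha)
  refine ⟨m', ⟨per, fun g hg a ha => Eqw.trans ha ⟨g, hg, Or.inl rfl⟩,
    fun a ha => Eqw.trans ha ⟨1, Γ.one_mem, Or.inr (by rw [one_smul])⟩,
    fun a ha b hb n1 n2 => ?_, ⟨{m', -m'}, ?_⟩, m', Eqw.refl Γ m'⟩, unc⟩
  · refine lt_of_le_of_ne ?_ (h.abs_B_ne_one (per a ha) (per b hb) n1 n2).symm
    obtain ⟨g, hg, rfl | rfl⟩ := (Eqw.symm ha).trans hb
    · exact not_lt.1 (key a ha g hg)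
    · rw [B_neg_right, abs_neg]
      exact not_lt.1 (key a ha g hg)
  · rintro a ⟨g, hg, rfl | rfl⟩
    · exact ⟨g, hg, m', Finset.mem_insert_self _ _, rfl⟩
    · exact ⟨g, hg, -m', Finset.mem_insert_of_mem (Finset.mem_singleton_self _),
        (smul_neg g m').symm⟩

/-- Rays leave every ball. -/
lemma Fill1_far {p : V} (hp : Fut p) {x : W} (hx : x ≠ ⟨0, 0⟩) (D : ℝ) :
    ∃ s : ℝ, 0 ≤ s ∧ D < dist (pt p) (pt (p + s • N x)) := by
  have hA : 0 < -B p p := neg_pos.2 hp.1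
  have hc : 0 < -B p (N x) := neg_pos.2 (hp.B_N hx)
  have hs : 0 ≤ 2 * -B p p * Real.cosh D ^ 2 / -B p (N x) := by positivity
  refine ⟨_, hs, lt_of_le_of_lt (le_abs_self D) ?_⟩
  have e : 2 * -B p p * Real.cosh D ^ 2 / -B p (N x) * -B p (N x) =
      2 * -B p p * Real.cosh D ^ 2 := div_mul_cancel₀ _ hc.ne'
  generalize 2 * -B p p * Real.cosh D ^ 2 / -B p (N x) = s at hs e ⊢
  have h2 := hp.add_N x hs
  have q0 : 0 < -B (p + s • N x) (p + s • N x) := neg_pos.2 h2.1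
  rw [← abs_of_nonneg (dist_nonneg (x := pt p)), ← Real.cosh_lt_cosh, cosh_dist_eq, Hy_pt hp,
    Hy_pt h2, B_smul_left, B_smul_right, ← mul_assoc, ← mul_neg, one_div_mul_one_div,
    ← Real.sqrt_mul hA.le, one_div, inv_mul_eq_div, lt_div_iff₀ (Real.sqrt_pos.2 (mul_pos hA q0))]
  refine lt_of_pow_lt_pow_left₀ 2 (neg_pos.2 (hp.B_neg h2)).le ?_
  rw [mul_pow, Real.sq_sqrt (mul_pos hA q0).le]
  simp only [B_add_left, B_add_right, B_smul_left, B_smul_right, B_N_N, br_self]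
  rw [B_comm (N x) p]
  have c0 := pow_pos (Real.cosh_pos D) 2
  generalize Real.cosh D ^ 2 = C, B p p = A, B p (N x) = c at *
  nlinarith [mul_pos hA hA, mul_nonneg hs hc.le, mul_pos hA c0, mul_pos (mul_pos hA hA) c0,
    mul_nonneg (mul_nonneg hs hc.le) hA.le]

/-- If every periodic wall is crossed, then every ray is crossed. -/
lemma ray_crossed (h : Nice Γ) (hS : LF S) (uS : ∀ n ∈ S, B n n = 1)
    (iS : ∀ g ∈ Γ, ∀ n ∈ S, g • n ∈ S) (fill : ∀ m, Per Γ m → ∃ n ∈ S, |B n m| < 1) {p : V}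
    (hp : Fut p) (hg : ∀ n ∈ S, B n p ≠ 0) {x : W} (hx : x ≠ ⟨0, 0⟩) :
    ∃ n ∈ S, B n p * B n (N x) < 0 := by
  by_contra hn
  have sg : ∀ n ∈ S, ∀ s : ℝ, 0 ≤ s → 0 < B n p * B n (Hy (pt (p + s • N x))) := by
    intro n hn' s hs
    have h1 : 0 ≤ B n p * B n (N x) := not_lt.1 fun h' => hn ⟨n, hn', h'⟩
    have h2 := hp.add_N x hs
    have h3 : 0 < 1 / √(-B (p + s • N x) (p + s • N x)) :=
      one_div_pos.2 (Real.sqrt_pos.2 (neg_pos.2 h2.1))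
    rw [Hy_pt h2, B_smul_right, mul_left_comm]
    refine mul_pos h3 ?_
    rw [B_add_right, B_smul_right]
    nlinarith [mul_self_pos.2 (hg n hn'), mul_nonneg hs h1]
  obtain ⟨R, hR⟩ := h.coc
  have inf : ¬ {g | g ∈ Γ ∧ ∃ s : ℝ, 0 ≤ s ∧ dist (g • pt (p + s • N x)) I ≤ R}.Finite := by
    intro hf
    obtain ⟨D, hD⟩ := (hf.image fun g => dist (g • pt p) I).bddAbove
    obtain ⟨s, hs, hd⟩ := Fill1_far hp hx (D + R)
    obtain ⟨g, g1, g2⟩ := hR (pt (p + s • N x))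
    have d1 : dist (g • pt p) I ≤ D := hD ⟨g, ⟨g1, s, hs, g2⟩, rfl⟩
    have d2 := dist_triangle_right (g • pt p) (g • pt (p + s • N x)) I
    rw [dist_smul] at d2
    linarith
  refine inf (Set.Finite.of_finite_fibers
    (fun g => {n | (n ∈ S ∧ |B n (Hy I)| ≤ Real.sinh R) ∧ 0 < B n (g • p)})
    ((hS I (Real.sinh R)).finite_subsets.subset ?_) ?_)
  · rintro _ ⟨g, -, rfl⟩
    exact fun n hn => hn.1
  rintro _ ⟨g, ⟨g1, s, hs, g2⟩, rfl⟩
  refine (Set.toFinite {g, -g}).subset ?_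
  rintro k ⟨⟨k1, r, hr, k2⟩, e⟩
  by_contra hk
  have hk' : ¬ PM 1 (g⁻¹ * k) := fun h' => hk ((pm_iff_inv_mul g k).2 h')
  have e' : ∀ n, n ∈ S ∧ |B n (Hy I)| ≤ Real.sinh R → (0 < B n (k • p) ↔ 0 < B n (g • p)) :=
    fun n hn => by simpa only [Set.mem_ofPred_eq, hn, true_and] using Set.ext_iff.1 e n
  have hs' : ∀ n ∈ S, 0 < B n (g • p) * B n (k • p) := by
    intro n hn
    have a1 := sg _ (iS _ (Γ.inv_mem g1) n hn) s hs
    have a2 := sg _ (iS _ (Γ.inv_mem k1) n hn) r hr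
    rw [← B_ad_right, ← B_ad_right, ← Hy_smul] at a1 a2
    rcases le_or_gt |B n (Hy I)| (Real.sinh R) with h1 | h1
    · have a3 := e' n ⟨hn, h1⟩
      rcases lt_or_gt_of_ne (left_ne_zero_of_mul a1.ne') with h2 | h2
      · exact mul_pos_of_neg_of_neg h2 (lt_of_le_of_ne (not_lt.1 fun h3 => h2.not_gt (a3.1 h3))
          (left_ne_zero_of_mul a2.ne'))
      · exact mul_pos h2 (a3.2 h2)
    · exact Fill1_trans a1 (Fill1_trans (sign_const_ball (uS n hn) h1 (dist_comm _ I ▸ g2)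
        (dist_comm _ I ▸ k2)) (mul_comm (B n (k • p)) _ ▸ a2))
  have hm := Γ.mul_mem (Γ.inv_mem g1) k1
  obtain ⟨b, t, b1, tp, e1, b2⟩ := h.exists_ex hm hk'
  obtain ⟨n, n1, n2⟩ := fill b ⟨b1, t, tp, b2⟩
  refine unc_of_stab uS iS hp hm (fun n hn => ?_) b1 tp e1 n n1 n2
  have := hs' _ (iS g g1 n hn)
  rwa [B_ad, B_ad_left, ← mul_smul] at this

end

end Pool.Agent.P.MP_d39174_gt

end

section
/-! Connectedness of the crossing graph. -/

namespace Pool.Agent.P.MP_d39174_gt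

open UpperHalfPlane MatrixGroups

noncomputable section

variable {Γ : Subgroup SL(2, ℝ)} {S : Set V}

lemma Fill2_sum {n m : V} (hn : B n n = 1) (hm : B m m = 1) (h : B n m < -1) :
    Fut (n + m) ∨ Fut (-(n + m)) := by
  refine Fut.or_neg ?_
  simp only [B_add_left, B_add_right, hn, hm, B_comm m n]
  linarith

lemma Fill2_neg {n : V} (hn : B n n = 1) : ∃ x : W, B n (N x) < 0 := by
  refine ⟨fr n • ⟨1, 1⟩, ?_⟩
  have e := B_ad (fr n) w0 (N ⟨1, 1⟩)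
  rw [fr_w0 hn] at e
  rw [N_ad, e]
  simp [B, w0, N]

lemma Fill2_pos (nS : ∀ n ∈ S, -n ∈ S) {n p : V} (hn : n ∈ S) (h : B n p ≠ 0) :
    ∃ m ∈ S, 0 < B m p ∧ (m = n ∨ m = -n) := by
  rcases h.lt_or_gt with h | h
  · exact ⟨-n, nS n hn, by rwa [B_neg_left, neg_pos], Or.inr rfl⟩
  · exact ⟨n, hn, h, Or.inl rfl⟩

lemma Fill2_lt {n m p : V} (hp : Fut p) (h : Fut (m - n)) : B m p < B n p := by
  have := h.B_neg hp
  rwa [B_sub_left, sub_neg] at this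

theorem conn_cross (h : Nice Γ) (hS : LF S) (pS : ∀ n ∈ S, Per Γ n) (nS : ∀ n ∈ S, -n ∈ S)
    (ray : ∀ p, Fut p → (∀ n ∈ S, B n p ≠ 0) → ∀ x : W, x ≠ ⟨0, 0⟩ →
      ∃ n ∈ S, B n p * B n (N x) < 0)
    (U : Set V) (hU : ∀ x ∈ U, ∀ y ∈ S, (|B x y| < 1 ∨ y = -x) → y ∈ U) (ne : ∃ x ∈ S, x ∈ U) :
    S ⊆ U := by
  by_contra hne
  obtain ⟨b₀, hb₀, hb₀'⟩ := Set.not_subset.1 hne
  obtain ⟨a₀, ha₀⟩ := ne
  have u : ∀ n ∈ S, B n n = 1 := fun n hn => (pS n hn).1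
  have n0 : ∀ n ∈ S ∩ U, -n ∈ S ∩ U := fun n hn =>
    ⟨nS n hn.1, hU n hn.2 _ (nS n hn.1) (Or.inr rfl)⟩
  have n1 : ∀ n ∈ S \ U, -n ∈ S \ U := fun n hn =>
    ⟨nS n hn.1, fun h1 => hn.2 (hU _ h1 n hn.1 (Or.inr (neg_neg n).symm))⟩
  have far : ∀ n ∈ S ∩ U, ∀ m ∈ S \ U, B n m < -1 ∨ 1 < B n m := fun n hn m hm => by
    have h1 := h.abs_B_ne_one (pS n hn.1) (pS m hm.1) (fun e => hm.2 (e ▸ hn.2))
      fun e => hm.2 (hU n hn.2 m hm.1 (Or.inr e))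
    have h2 : ¬ |B n m| < 1 := fun e => hm.2 (hU n hn.2 m hm.1 (Or.inl e))
    rcases lt_abs.1 (lt_of_le_of_ne (not_lt.1 h2) h1.symm) with h3 | h3
    · exact Or.inr h3
    · exact Or.inl (by linarith)
  obtain ⟨z, a, b, ha, hb, hab, hmin⟩ := exists_equidistant (S := S ∩ U) (T := S \ U)
    (fun z R => (hS z R).subset fun n hn => ⟨hn.1.1, hn.2⟩)
    (fun z R => (hS z R).subset fun n hn => ⟨hn.1.1, hn.2⟩)
    (fun n hn => u n hn.1) (fun n hn => u n hn.1) ⟨a₀, ha₀⟩ ⟨b₀, hb₀, hb₀'⟩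
  have hp := Hy_fut z
  have hl := hS z
  generalize Hy z = p at hab hmin hp hl
  have mem : ∀ n ∈ S, n ∈ S ∩ U ∨ n ∈ S \ U := fun n hn =>
    (em (n ∈ U)).imp (fun h1 => ⟨hn, h1⟩) fun h1 => ⟨hn, h1⟩
  have gen : ∀ n ∈ S, B n p ≠ 0 := fun n hn h0 => by
    have h1 := hmin n (mem n hn)
    rw [h0, abs_zero, abs_nonpos_iff] at h1
    have h2 : B b p = 0 := by rwa [h1, abs_zero, eq_comm, abs_eq_zero] at hab
    rcases far a ha b hb with h3 | h3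
    · rcases Fill2_sum (u a ha.1) (u b hb.1) h3 with h4 | h4 <;> simpa [h1, h2] using h4.B_neg hp
    · rcases nested_of_gt (u a ha.1) (u b hb.1) h3 with h4 | h4 <;>
        simpa [h1, h2] using Fill2_lt hp h4
  let O : Set V → Set (ℝ × ℝ) := fun T => {x | ∃ n ∈ T, (0 < B n p ∧
    ∀ m ∈ S, 0 < B m p → ¬ Fut (m - n)) ∧ B n (N ⟨x.1, x.2⟩) < 0}
  have op : ∀ T, IsOpen (O T) := fun T => isOpen_iff_eventually.2 fun x ⟨n, h1, h2, h3⟩ => by
    have hc : Continuous fun x : ℝ × ℝ => B n (N ⟨x.1, x.2⟩) := by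
      simp only [B, N]
      fun_prop
    exact ((isOpen_lt hc continuous_const).eventually_mem h3).mono fun y hy => ⟨n, h1, h2, hy⟩
  have nz : ∀ x : ℝ × ℝ, x ∈ ({0}ᶜ : Set (ℝ × ℝ)) → (⟨x.1, x.2⟩ : W) ≠ ⟨0, 0⟩ := fun x hx e =>
    hx (Prod.ext (congrArg W.p e) (congrArg W.q e))
  have non : ∀ T ⊆ S, (∀ n ∈ T, -n ∈ T) → ∀ c ∈ T, |B c p| = |B a p| →
      ({0}ᶜ ∩ O T).Nonempty := fun T hT nT c hc e => by
    obtain ⟨n, hn, h1, h2⟩ := Fill2_pos nT hc (gen c (hT hc))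
    obtain ⟨x, hx⟩ := Fill2_neg (u n (hT hn))
    refine ⟨(x.p, x.q), fun h0 => ?_, n, hn, ⟨h1, fun m hm h3 h4 => ?_⟩, hx⟩
    · obtain ⟨e1, e2⟩ := Prod.mk.inj h0
      simp [B, N, e1, e2] at hx
    · have h5 := hmin m (mem m hm)
      have h6 := Fill2_lt hp h4
      have h7 : |B n p| = |B c p| := by rcases h2 with rfl | rfl <;> simp
      rw [abs_of_pos h1] at h7
      rw [abs_of_pos h3] at h5
      linarith
  have cov : ({0}ᶜ : Set (ℝ × ℝ)) ⊆ O (S ∩ U) ∪ O (S \ U) := fun x hx => by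
    obtain ⟨c, hc, h1⟩ := ray p hp gen _ (nz x hx)
    obtain ⟨c', hc', h2, h3⟩ := Fill2_pos nS hc (gen c hc)
    have h4 : B c' (N ⟨x.1, x.2⟩) < 0 := by
      refine neg_of_mul_neg_right ?_ h2.le
      rcases h3 with rfl | rfl
      · exact h1
      · simpa using h1
    obtain ⟨n, ⟨hn, h5, h6, h7⟩, h8⟩ := Set.exists_min_image
      {n | n ∈ S ∧ 0 < B n p ∧ B n p ≤ B c' p ∧ B n (N ⟨x.1, x.2⟩) < 0} (fun n => B n p)
      ((hl (B c' p)).subset fun n hn => ⟨hn.1, by rw [abs_of_pos hn.2.1]; exact hn.2.2.1⟩)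
      ⟨c', hc', h2, le_rfl, h4⟩
    have h9 : ∀ m ∈ S, 0 < B m p → ¬ Fut (m - n) := fun m hm k1 k2 => by
      have k3 := Fill2_lt hp k2
      have k4 := k2.B_N (nz x hx)
      rw [B_sub_left] at k4
      exact (h8 m ⟨hm, k1, by linarith, by linarith⟩).not_gt k3
    exact (mem n hn).imp (fun k => ⟨n, k, ⟨h5, h9⟩, h7⟩) fun k => ⟨n, k, ⟨h5, h9⟩, h7⟩
  obtain ⟨x, hx, ⟨n, hn, ⟨h1, h2⟩, h3⟩, m, hm, ⟨h4, h5⟩, h6⟩ :=
    (isConnected_compl_singleton_of_one_lt_rank (E := ℝ × ℝ) (by simp [one_add_one_eq_two])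
      0).isPreconnected _ _ (op _) (op _) cov (non _ Set.inter_subset_left n0 a ha rfl)
      (non _ Set.sdiff_subset n1 b hb hab.symm)
  rcases far n hn m hm with h7 | h7
  · rcases Fill2_sum (u n hn.1) (u m hm.1) h7 with h8 | h8
    · have := h8.B_neg hp
      rw [B_add_left] at this
      linarith
    · have := h8.B_N (nz x hx)
      rw [B_neg_left, B_add_left] at this
      linarith
  · rcases nested_of_gt (u n hn.1) (u m hm.1) h7 with h8 | h8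
    · exact h5 n hn.1 h1 h8
    · exact h2 m hm.1 h4 h8

end

end Pool.Agent.P.MP_d39174_gt

end

section
/-! Areas: ideal triangles, balls, walls. -/

namespace Pool.Agent.P.MP_d39174_gt

open UpperHalfPlane MatrixGroups

noncomputable section

open MeasureTheory ENNReal

/-- The ideal triangle with vertices `∞, r, s`. -/
def Δ (r s : ℝ) : Set ℍ := {z | r ≤ z.re ∧ z.re ≤ s ∧ (z.re - r) * (s - z.re) ≤ z.im ^ 2}

lemma vol_smul (g : SL(2, ℝ)) (S : Set ℍ) : volume ((fun z => g • z) ⁻¹' S) = volume S :=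
  measure_preimage_smul volume (Matrix.SpecialLinearGroup.mapGL ℝ g) S

lemma measurableSet_Δ (r s : ℝ) : MeasurableSet (Δ r s) := by
  have h1 := UpperHalfPlane.continuous_re
  have h2 := UpperHalfPlane.continuous_im
  have h3 : IsClosed {z : ℍ | (z.re - r) * (s - z.re) ≤ z.im ^ 2} :=
    isClosed_le (by fun_prop) (by fun_prop)
  exact IsClosed.measurableSet (IsClosed.inter (isClosed_le continuous_const h1)
    (IsClosed.inter (isClosed_le h1 continuous_const) h3))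

lemma Area1_aff {t : ℝ} (ht : 0 < t) (b : ℝ) :
    ∃ g : SL(2, ℝ), ∀ z : ℍ, (g • z).re = t * z.re + b ∧ (g • z).im = t * z.im := by
  obtain ⟨u, hu, rfl⟩ : ∃ u : ℝ, 0 < u ∧ t = u * u :=
    ⟨√t, Real.sqrt_pos.2 ht, (Real.mul_self_sqrt ht.le).symm⟩
  refine ⟨⟨!![u, b / u; 0, 1 / u], by rw [Matrix.det_fin_two_of]; field_simp; ring⟩, fun z => ?_⟩
  obtain ⟨D, -, h1, h2, h3⟩ := VH_re_im
    ⟨!![u, b / u; 0, 1 / u], by rw [Matrix.det_fin_two_of]; field_simp; ring⟩ z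
  rw [h2, h3, h1]
  constructor <;> simp <;> field_simp

lemma Area1_inv (b : ℝ) : ∃ g : SL(2, ℝ), ∀ z : ℍ,
    (g • z).re = -(z.re - b) / ((z.re - b) ^ 2 + z.im ^ 2) ∧
      (g • z).im = z.im / ((z.re - b) ^ 2 + z.im ^ 2) := by
  refine ⟨⟨!![0, -1; 1, -b], by rw [Matrix.det_fin_two_of]; ring⟩, fun z => ?_⟩
  obtain ⟨D, -, h1, h2, h3⟩ := VH_re_im
    ⟨!![0, -1; 1, -b], by rw [Matrix.det_fin_two_of]; ring⟩ z
  rw [h2, h3, h1]
  constructor <;> simp [sub_eq_add_neg]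

lemma Area1_cusp {x y : ℝ} (h0 : 0 < y) (h1 : y ≤ 1 / 4) (h2 : |x| ≤ 1 / 2)
    (h3 : |x| ≤ x ^ 2 + y ^ 2) : |-x / (x ^ 2 + y ^ 2)| ≤ 1 ∧ 1 / 4 < y / (x ^ 2 + y ^ 2) := by
  have h4 : 0 < x ^ 2 + y ^ 2 := by positivity
  have h5 := abs_nonneg x
  rw [abs_div, abs_neg, abs_of_pos h4, div_le_one h4, lt_div_iff₀ h4]
  refine ⟨h3, ?_⟩
  rw [← sq_abs x] at h3 ⊢
  have h6 : |x| ≤ 2 * y ^ 2 := by nlinarith
  nlinarith

lemma Area1_strip : volume {z : ℍ | |z.re| ≤ 1 ∧ 1 / 4 < z.im} < ⊤ := by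
  have h1 := Complex.volume_preserving_equiv_real_prod.setLIntegral_comp_preimage_emb
    Complex.measurableEquivRealProd.measurableEmbedding
    (fun p : ℝ × ℝ => (((1 / ‖p.2‖₊) ^ 2 : NNReal) : ℝ≥0∞)) (Set.Icc (-1) 1 ×ˢ Set.Ioi (1 / 4))
  have h2 := (integrableOn_Ioi_rpow_of_lt (a := -2) (by norm_num) (c := 1 / 4) (by norm_num)).2
  rw [volume_eq_lintegral]
  refine lt_of_le_of_lt (lintegral_mono_set ?_) (h1.trans_lt ?_)
  · rintro _ ⟨z, hz, rfl⟩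
    exact ⟨abs_le.1 hz.1, hz.2⟩
  · rw [Measure.volume_eq_prod, ← Measure.prod_restrict, lintegral_prod _ (by fun_prop)]
    simp only [lintegral_const]
    refine ENNReal.mul_lt_top (lt_of_eq_of_lt ?_ h2) (by simp)
    refine setLIntegral_congr_fun measurableSet_Ioi fun y hy => ?_
    have h3 : (0 : ℝ) < y := lt_trans (by norm_num) hy
    simp only [enorm_eq_nnnorm, ENNReal.coe_inj]
    ext
    simp [Real.rpow_neg h3.le]

lemma Area1_univ : volume (Set.univ : Set ℍ) = ⊤ := by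
  have h1 : volume (Complex.measurableEquivRealProd ⁻¹' (Set.univ ×ˢ Set.Ioo 0 1)) = ⊤ := by
    rw [Complex.volume_preserving_equiv_real_prod.measure_preimage_equiv, Measure.volume_eq_prod,
      Measure.prod_prod]
    simp
  rw [eq_top_iff, volume_eq_lintegral, ← h1, ← setLIntegral_one]
  refine (setLIntegral_mono' (Complex.measurableEquivRealProd.measurable
    (MeasurableSet.univ.prod measurableSet_Ioo)) fun z hz => ?_).trans (lintegral_mono_set ?_)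
  · have h2 : 0 < z.im ∧ z.im < 1 := hz.2
    rw [ENNReal.one_le_coe_iff, ← NNReal.coe_le_coe]
    simp only [NNReal.coe_pow, NNReal.coe_div, NNReal.coe_one, coe_nnnorm, Real.norm_eq_abs,
      abs_of_pos h2.1]
    exact one_le_pow₀ (one_le_one_div h2.1 h2.2.le)
  · exact fun z hz => ⟨⟨z, hz.2.1⟩, trivial, rfl⟩

theorem vol_Δ : ∃ c : ℝ≥0∞, c ≠ ⊤ ∧ ∀ r s : ℝ, r < s → volume (Δ r s) ≤ c := by
  refine ⟨volume (Δ 0 1), ?_, fun r s h => ?_⟩
  · obtain ⟨g, hg⟩ := Area1_inv 0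
    obtain ⟨k, hk⟩ := Area1_inv 1
    set S : Set ℍ := {z : ℍ | |z.re| ≤ 1 ∧ 1 / 4 < z.im}
    have h1 : Δ 0 1 ⊆ S ∪ ((fun z => g • z) ⁻¹' S ∪ (fun z => k • z) ⁻¹' S) := by
      rintro z ⟨h1, h2, h3⟩
      rcases lt_or_ge (1 / 4) z.im with h4 | h4
      · exact .inl ⟨abs_le.2 ⟨by linarith, h2⟩, h4⟩
      rcases le_total z.re (1 / 2) with h5 | h5
      · refine .inr (.inl ?_)
        change |(g • z).re| ≤ 1 ∧ 1 / 4 < (g • z).im
        rw [(hg z).1, (hg z).2]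
        refine Area1_cusp z.im_pos h4 ?_ ?_ <;> rw [abs_of_nonneg (by linarith)] <;> nlinarith
      · refine .inr (.inr ?_)
        change |(k • z).re| ≤ 1 ∧ 1 / 4 < (k • z).im
        rw [(hk z).1, (hk z).2]
        refine Area1_cusp z.im_pos h4 ?_ ?_ <;> rw [abs_of_nonpos (by linarith)] <;> nlinarith
    refine ((measure_mono h1).trans_lt (measure_union_lt_top Area1_strip
      (measure_union_lt_top ?_ ?_))).ne <;> rw [vol_smul] <;> exact Area1_strip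
  · have h0 := sub_pos.2 h
    obtain ⟨g, hg⟩ := Area1_aff h0 r
    rw [← vol_smul g]
    refine measure_mono fun z hz => ?_
    obtain ⟨h1, h2, h3⟩ : r ≤ (g • z).re ∧ (g • z).re ≤ s ∧
      ((g • z).re - r) * (s - (g • z).re) ≤ (g • z).im ^ 2 := hz
    rw [(hg z).1] at h1 h2 h3
    rw [(hg z).2] at h3
    refine ⟨le_of_mul_le_mul_left (by linarith) h0, le_of_mul_le_mul_left (by linarith) h0,
      le_of_mul_le_mul_left ?_ (pow_pos h0 2)⟩
    linarith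

theorem vol_ball {c : ℝ≥0∞} (hc : c ≠ ⊤) :
    ∃ R : ℝ, ∀ l, R ≤ l → ∀ z : ℍ, c < volume (Metric.ball z l) := by
  have h1 := tendsto_measure_iUnion_atTop (μ := (volume : Measure ℍ))
    (s := fun n : ℕ => Metric.ball I (n : ℝ))
    fun m n h => Metric.ball_subset_ball (Nat.cast_le.2 h)
  rw [Metric.iUnion_ball_nat, Area1_univ] at h1
  obtain ⟨n, hn⟩ := (h1.eventually (lt_mem_nhds hc.lt_top)).exists
  refine ⟨n, fun l hl z => hn.trans_le ?_⟩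
  rw [← vol_smul z.toSL2R (Metric.ball z l)]
  refine measure_mono fun w hw => ?_
  have h2 := dist_smul z.toSL2R w I
  rw [toSL2R_smul_I] at h2
  exact (h2.trans_lt hw).trans_le hl

theorem vol_wall {n : V} (hn : B n n = 1) : volume {z : ℍ | B n (Hy z) = 0} = 0 := by
  have h1 : volume (Complex.measurableEquivRealProd ⁻¹' ({0} ×ˢ Set.univ)) = 0 := by
    rw [Complex.volume_preserving_equiv_real_prod.measure_preimage_equiv, Measure.volume_eq_prod,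
      Measure.prod_prod]
    simp
  rw [← vol_smul (fr n), volume_eq_lintegral]
  refine setLIntegral_measure_zero _ _ (measure_mono_null ?_ h1)
  rintro _ ⟨z, hz, rfl⟩
  have h2 : B n (Hy (fr n • z)) = 0 := hz
  have h3 := B_ad (fr n) w0 (Hy z)
  rw [fr_w0 hn, ← Hy_smul, h2] at h3
  refine ⟨?_, trivial⟩
  simpa [B, w0, Hy, z.im_ne_zero] using h3.symm

lemma Nice.countable {Γ : Subgroup SL(2, ℝ)} (h : Nice Γ) : (Γ : Set SL(2, ℝ)).Countable :=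
  (Set.countable_iUnion fun n : ℕ => (h.fin I n).countable).mono fun γ hγ =>
    Set.mem_iUnion.2 ⟨⌈dist I (γ • I)⌉₊, And.intro hγ (Nat.le_ceil _)⟩

/-- An embedded ball is not larger than sets whose translates cover almost everything. -/
theorem vol_ball_le {Γ : Subgroup SL(2, ℝ)} {l : ℝ} (h : Nice Γ) (s : Sys Γ l) {ι : Type}
    [Fintype ι] {T : ι → Set ℍ} (hT : ∀ i, MeasurableSet (T i)) {N : Set ℍ} (hN : volume N = 0)
    (cov : ∀ z, z ∉ N → ∃ i, ∃ γ ∈ Γ, γ • z ∈ T i) (z : ℍ) :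
    volume (Metric.ball z l) ≤ ∑ i, volume (T i) := by
  let P : Set SL(2, ℝ) := {γ | γ ∈ Γ ∧ (0 < γ 1 0 ∨ (γ 1 0 = 0 ∧ 0 < γ 1 1))}
  have : Countable P := (h.countable.mono fun _ hγ => hγ.1).to_subtype
  have h1 : ∀ γ ∈ Γ, ∃ δ : P, PM γ δ := fun γ hγ => by
    have h2 := (PM.neg γ).mem h.neg_one_mem hγ
    rcases lt_trichotomy 0 (γ 1 0) with e | e | e
    · exact ⟨⟨γ, hγ, .inl e⟩, PM.refl _⟩
    · rcases lt_trichotomy 0 (γ 1 1) with e' | e' | e'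
      · exact ⟨⟨γ, hγ, .inr ⟨e.symm, e'⟩⟩, PM.refl _⟩
      · have := det_eq γ
        rw [← e, ← e'] at this
        simp at this
      · exact ⟨⟨-γ, h2, .inr ⟨by rw [neg_apply', ← e, neg_zero], by rw [neg_apply']; linarith⟩⟩,
          PM.neg _⟩
    · exact ⟨⟨-γ, h2, .inl (by rw [neg_apply']; linarith)⟩, PM.neg _⟩
  have h2 : ∀ γ δ : P, γ ≠ δ → Disjoint (Metric.ball (γ.1 • z) l) (Metric.ball (δ.1 • z) l) :=
    fun γ δ e => by
      have h3 : ¬ PM γ.1 δ.1 := by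
        rintro (e' | e')
        · exact e (Subtype.ext e'.symm)
        · have h4 := γ.2.2
          have h5 := δ.2.2
          rw [e', neg_apply', neg_apply'] at h5
          rcases h4 with h4 | h4 <;> rcases h5 with h5 | h5 <;> linarith
      have h4 := s.le_dist h (mul_mem (inv_mem γ.2.1) δ.2.1) (mt (pm_iff_inv_mul _ _).2 h3) z
      rw [← dist_smul γ.1, mul_smul, smul_inv_smul] at h4
      exact Metric.ball_disjoint_ball (by linarith)
  have h3 : Metric.ball z l ⊆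
      N ∪ ⋃ i, ⋃ δ : P, (fun w => δ.1 • w) ⁻¹' (Metric.ball (δ.1 • z) l ∩ T i) := fun w hw => by
    refine or_iff_not_imp_left.2 fun h4 => ?_
    obtain ⟨i, γ, hγ, e⟩ := cov w h4
    obtain ⟨δ, e'⟩ := h1 γ hγ
    rw [e'.act w] at e
    exact Set.mem_iUnion₂.2 ⟨i, δ, (dist_smul δ.1 w z).trans_lt hw, e⟩
  refine (measure_mono h3).trans ((measure_union_le _ _).trans ?_)
  rw [hN, zero_add]
  refine (measure_iUnion_fintype_le _ _).trans (Finset.sum_le_sum fun i _ => ?_)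
  refine (measure_iUnion_le _).trans ?_
  simp only [vol_smul]
  rw [← measure_iUnion (fun γ δ e => (h2 γ δ e).mono Set.inter_subset_left Set.inter_subset_left)
    fun _ => measurableSet_ball.inter (hT i)]
  exact measure_mono (Set.iUnion_subset fun _ => Set.inter_subset_right)

end

end Pool.Agent.P.MP_d39174_gt

end

section
/-! Sides of the edges of a triangulation. -/

namespace Pool.Agent.P.MP_d39174_gt

open UpperHalfPlane MatrixGroups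

noncomputable section

/-- Abscissa of `z` when `e(a) = ∞`, `e(-a) = 0`. -/
def zc (a : V) (z : ℍ) : ℝ := ((fr a)⁻¹ • z).re

lemma zc_neg_iff {a : V} (ha : B a a = 1) (z : ℍ) : zc a z < 0 ↔ 0 < B a (Hy z) := by
  have e : B a (Hy z) = -zc a z / ((fr a)⁻¹ • z).im := by
    rw [← B_ad (fr a)⁻¹, VW2_inv ha, ← Hy_smul]
    simp only [B, w0, Hy, zc]
    ring
  rw [e, div_pos_iff_of_pos_right (im_pos _), neg_pos]

/-- Diagonal matrices act on abscissas by a dilation. -/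
lemma Area2_diag {h : SL(2, ℝ)} (h2 : h 0 1 = 0) (h3 : h 1 0 = 0) (z : ℍ) :
    (h • z).re = h 0 0 / h 1 1 * z.re := by
  obtain ⟨D, h0, hD, e, -⟩ := VH_re_im h z
  have h4 : h 1 1 ≠ 0 := fun e => h0 (by rw [hD, h3, e]; ring)
  rw [e, hD, h2, h3]
  field_simp
  ring

lemma zc_ex {a : V} (ha : B a a = 1) (t : ℝ) (z : ℍ) :
    zc a (ex t a • z) = Real.exp (2 * t) * zc a z := by
  have e2 : (fr a)⁻¹ • ex t a • z = ex t w0 • (fr a)⁻¹ • z := by
    have e3 := ex_conj (fr a) t w0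
    rw [fr_w0 ha] at e3
    rw [← e3, mul_smul, mul_smul, inv_smul_smul]
  obtain ⟨k1, k2, k3, k4⟩ := ex_apply B_w0 t
  have a1 : w0.a = 1 := rfl
  have a2 : w0.b = 0 := rfl
  have a3 : w0.c = 0 := rfl
  simp only [a1, a2, a3, mul_one, mul_zero, Real.cosh_add_sinh, Real.cosh_sub_sinh] at k1 k2 k3 k4
  rw [zc, e2, Area2_diag k2 k3, k1, k4, ← Real.exp_sub, show t - -t = 2 * t by ring, zc]

lemma Area2_ad (g : SL(2, ℝ)) {w : V} (hw : B w w = 1) :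
    ∃ k : ℝ, 0 < k ∧ (∀ a, B a a = 1 → crd (g • w) (g • a) = k * crd w a) ∧
      ∀ z, zc (g • w) (g • z) = k * zc w z := by
  have hw' : B (g • w) (g • w) = 1 := by rwa [B_ad]
  obtain ⟨h, hh⟩ : ∃ h, h = (fr (g • w))⁻¹ * g * fr w := ⟨_, rfl⟩
  have e : h • w0 = w0 := by rw [hh, mul_smul, mul_smul, fr_w0 hw, VW2_inv hw']
  have ea := congrArg V.a e
  have eb := congrArg V.b e
  have ec := congrArg V.c e
  simp only [ad_a, ad_b, ad_c, w0] at ea eb ec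
  have h1 : h 0 0 * h 1 1 = 1 := by linear_combination (ea + det_eq h) / 2
  have h2 : h 0 1 = 0 := by linear_combination -h 1 1 / 2 * eb - h 0 1 * h1
  have h3 : h 1 0 = 0 := by linear_combination h 0 0 / 2 * ec - h 1 0 * h1
  have h4 : h 0 0 ≠ 0 := left_ne_zero_of_mul (h1.trans_ne one_ne_zero)
  have h5 : h 0 0 / h 1 1 = h 0 0 ^ 2 := by
    rw [div_eq_iff (right_ne_zero_of_mul (h1.trans_ne one_ne_zero))]
    linear_combination -h 0 0 * h1
  refine ⟨h 0 0 ^ 2, by positivity, fun a ha => ?_, fun z => ?_⟩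
  · obtain ⟨t, ht, e1⟩ := ev_ad g ha
    have e2 : (fr (g • w))⁻¹ • g • ev a = h • VW2X w a := by
      rw [hh, VW2X, mul_smul, mul_smul, smul_inv_smul]
    rw [VW2_crd, VW2X, e1, VW2_sc, e2, mul_div_mul_left _ _ ht, act_p, act_q, h2, h3, zero_mul,
      zero_mul, add_zero, zero_add, mul_div_mul_comm, h5, VW2_crd]
  · have e2 : (fr (g • w))⁻¹ • g • z = h • (fr w)⁻¹ • z := by
      rw [hh, mul_smul, mul_smul, smul_inv_smul]
    rw [zc, e2, Area2_diag h2 h3, h5, zc]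

/-- Change of frame between two walls with distinct endpoints. -/
lemma Area2_chg {a b : V} (ha : B a a = 1) (hb : B b b = 1) (hab : Fin' a b) :
    ∃ k : ℝ, 0 < k ∧
      (∀ c, Fin' a c → Fin' b c → crd b c = crd b a - k / (crd a c - crd a b)) ∧
      ∀ z, zc b z = crd b a - k * ((zc a z - crd a b) /
        ((zc a z - crd a b) ^ 2 + ((fr a)⁻¹ • z).im ^ 2)) := by
  obtain ⟨g, hg⟩ : ∃ g, g = (fr b)⁻¹ * fr a := ⟨_, rfl⟩
  have eX : ∀ c, VW2X b c = g • VW2X a c := fun c => by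
    rw [hg, VW2X, VW2X, mul_smul, smul_inv_smul]
  have hd := det_eq g
  have h1 : g 1 1 = -(g 1 0 * crd a b) := by
    obtain ⟨s, -, e⟩ := VW2_self hb
    have e1 := congrArg W.q (eX b)
    rw [e, act_q, VW2_p ha hab] at e1
    exact mul_right_cancel₀ (VW2_q ha hab) (by linear_combination -e1)
  have h2 : g 1 0 ≠ 0 := fun e => by
    rw [h1, e] at hd
    simp at hd
  have h3 : g 0 1 = -(g 0 0 * crd a b) - 1 / g 1 0 := by
    field_simp
    rw [h1] at hd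
    linear_combination -hd
  have h4 : crd b a = g 0 0 / g 1 0 := by
    obtain ⟨s, hs, e⟩ := VW2_self ha
    rw [VW2_crd, eX, e, act_p, act_q]
    field_simp
    ring
  refine ⟨1 / g 1 0 ^ 2, by positivity, fun c hc hc' => ?_, fun z => ?_⟩
  · have h5 : crd a c - crd a b ≠ 0 := sub_ne_zero.2 fun e =>
      hc' ((crd_eq_iff ha hab hc).1 e.symm)
    have h6 := VW2_q ha hc
    have h7 : (VW2X b c).q = g 1 0 * (crd a c - crd a b) * (VW2X a c).q := by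
      rw [eX, act_q, VW2_p ha hc, h1]
      ring
    rw [VW2_crd b c, h7, eX, act_p, VW2_p ha hc, h4, h3]
    field_simp
    ring
  · have e2 : (fr b)⁻¹ • z = g • (fr a)⁻¹ • z := by rw [hg, mul_smul, smul_inv_smul]
    obtain ⟨D, -, hD, e, -⟩ := VH_re_im g ((fr a)⁻¹ • z)
    have h5 := ((fr a)⁻¹ • z).im_pos
    have h6 : D = g 1 0 ^ 2 * ((zc a z - crd a b) ^ 2 + ((fr a)⁻¹ • z).im ^ 2) := by
      rw [hD, h1, zc]
      ring
    have h7 : (zc a z - crd a b) ^ 2 + ((fr a)⁻¹ • z).im ^ 2 ≠ 0 := by positivity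
    rw [zc, e2, e, h6, h4, h3, h1, ← zc]
    field_simp
    ring

lemma Area2_surj (a : V) (t : ℝ) : ∃ z, zc a z = t :=
  ⟨fr a • (⟨⟨t, 1⟩, one_pos⟩ : ℍ), by rw [zc, inv_smul_smul]; rfl⟩

namespace Tr

variable {Γ : Subgroup SL(2, ℝ)} {T : Tr Γ}

/-- `z` is on the side of the triangle of `d`. -/
def Pos (d : T.D) (z : ℍ) : Prop := d.r ≤ zc d.a z

lemma pos_ι (d : T.D) (z : ℍ) : Pos (T.ι d) z ↔ zc d.a z ≤ d.r := by
  obtain ⟨k, hk, -, e⟩ := Area2_chg d.a_unit d.b_unit (fin' d.a_mem d.b_mem d.a_ne_b)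
  have h5 := ((fr d.a)⁻¹ • z).im_pos
  have h7 : 0 < (zc d.a z - crd d.a d.b) ^ 2 + ((fr d.a)⁻¹ • z).im ^ 2 := by positivity
  rw [Pos, D.r, D.r, ι_a, ι_b, e, le_sub_self_iff, ← not_lt, mul_pos_iff_of_pos_left hk,
    div_pos_iff_of_pos_right h7, sub_pos, not_lt]

lemma pos_ν (d : T.D) (z : ℍ) : Pos (T.ν d) z ↔
    (zc d.a z - d.r) * ((T.φ d).r - zc d.a z) ≤ ((fr d.a)⁻¹ • z).im ^ 2 := by
  obtain ⟨k, hk, e', e⟩ := Area2_chg d.a_unit d.b_unit (fin' d.a_mem d.b_mem d.a_ne_b)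
  have h5 := ((fr d.a)⁻¹ • z).im_pos
  have h7 : 0 < (zc d.a z - crd d.a d.b) ^ 2 + ((fr d.a)⁻¹ • z).im ^ 2 := by positivity
  have h8 := sub_pos.2 d.r_lt
  rw [D.r, D.r, φ_a, φ_b] at h8
  rw [Pos, D.r, D.r, D.r, ν_a, ν_b, φ_a, φ_b, e, e' _ (fan_fin_c d)
    (fin' d.b_mem d.c_mem (T.ν d).a_ne_b), sub_le_sub_iff_left, div_eq_mul_one_div k,
    mul_le_mul_iff_right₀ hk, div_le_div_iff₀ h7 h8]
  constructor <;> intro h <;> linarith

lemma pos_smul (g : Γ) (d : T.D) (z : ℍ) : Pos (g • d) ((g : SL(2, ℝ)) • z) ↔ Pos d z := by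
  obtain ⟨k, hk, e, e'⟩ := Area2_ad (g : SL(2, ℝ)) d.a_unit
  rw [Pos, Pos, D.r, D.r, smul_a, smul_b, e _ d.b_unit, e', mul_le_mul_iff_right₀ hk]

lemma pos_of_φ {d : T.D} {z : ℍ} (h : Pos (T.φ d) z) : Pos d z := by
  rw [Pos, φ_a] at h
  exact d.r_lt.le.trans h

lemma Area2_pos (d : T.D) (z : ℍ) : Pos d z ↔ zc (T.ν d).a z ≤ (T.φ (T.ν d)).r := by
  rw [← φ_a (T.ν d), ← pos_ι, φ_apply, ν_ν_ν, ι_ι]

lemma pos_of_ψ {d : T.D} {z : ℍ} (h : Pos (T.ψ d) z) : Pos d z := by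
  rw [ψ_apply, pos_ι] at h
  exact (Area2_pos d z).2 (h.trans (T.ν d).r_lt.le)

lemma exists_pos_φ (d : T.D) : ∃ z, Pos d z ∧ ¬ Pos (T.φ d) z := by
  obtain ⟨z, hz⟩ := Area2_surj d.a d.r
  refine ⟨z, hz.ge, ?_⟩
  rw [Pos, φ_a, hz, not_le]
  exact d.r_lt

lemma exists_pos_ψ (d : T.D) : ∃ z, Pos d z ∧ ¬ Pos (T.ψ d) z := by
  obtain ⟨z, hz⟩ := Area2_surj (T.ν d).a (T.φ (T.ν d)).r
  refine ⟨z, (Area2_pos d z).2 hz.le, ?_⟩
  rw [ψ_apply, pos_ι, hz, not_le]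
  exact (T.ν d).r_lt

lemma mem_Δ {d : T.D} {z : ℍ} (h1 : Pos d z) (h2 : ¬ Pos (T.φ d) z) (h3 : ¬ Pos (T.ψ d) z) :
    (fr d.a)⁻¹ • z ∈ Δ d.r (T.φ d).r := by
  rw [Pos, φ_a, not_le] at h2
  rw [ψ_apply, pos_ι, not_le] at h3
  exact ⟨h1, h2.le, (pos_ν d z).1 h3.le⟩

/-- A connected component of the graph stays on one side of each of its walls. -/
lemma Area2_side {b x : V} (hb : b ∈ T.A)
    (h : Relation.ReflTransGen (fun x y => (x, y) ∈ T.E) x b) :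
    x = b ∨ (x ≠ -b ∧ crd b x < 0) := by
  induction h using Relation.ReflTransGen.head_induction_on with
  | refl => exact Or.inl rfl
  | @head x y hxy _ ih =>
    by_cases hy : y = b
    · subst hy
      exact Or.inr ⟨D.b_ne_neg (T := T) ⟨(y, x), T.symm _ _ hxy⟩,
        D.r_neg (T := T) ⟨(y, x), T.symm _ _ hxy⟩⟩
    obtain ⟨h1, h2⟩ := ih.resolve_left hy
    by_cases hx : x = b
    · exact Or.inl hx
    have ub := unit hb
    have mx : x ∈ T.A := (T.del _ hxy).1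
    have my : y ∈ T.A := (T.del _ hxy).2.1
    have fy := fin' hb my (Ne.symm hy)
    have fx := fin' hb mx (Ne.symm hx)
    have h3 : x ≠ -b := by
      rintro rfl
      have h4 := ((fac_iff_crd ub fy (fin' hb (T.ws.neg _ my) fun e => h1 (by
        rw [e, neg_neg]))).2.1 (T.fac _ hxy)).1
      linarith
    refine Or.inr ⟨h3, (lt_or_gt_of_ne (crd_ne_zero ub fx
      (fin' (T.ws.neg _ hb) mx h3.symm))).resolve_right fun h4 => T.ncw _ hxy b hb ?_⟩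
    rw [Cr_crd' ub (fin'_neg ub) fx fy, crd_neg_self ub, sub_zero, sub_zero]
    exact mul_neg_of_pos_of_neg h4 h2

/-- The chamber of a point that is on no wall. -/
theorem exists_chamber {z : ℍ} (hz : ∀ a ∈ T.A, B a (Hy z) ≠ 0) : ∃ U : Set V, ∃ a ∈ T.A,
    a ∈ U ∧ (∀ d : T.D, d.a ∈ U → d.b ∈ U) ∧ (∀ b ∈ U, 0 < B b (Hy z)) ∧
      ∀ g ∈ Γ, g • a = a → ∀ b ∈ U, g • b ∈ U := by
  obtain ⟨a, ha, a0, am⟩ : ∃ a ∈ T.A, 0 < B a (Hy z) ∧ ∀ n ∈ T.A, B a (Hy z) ≤ |B n (Hy z)| := by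
    obtain ⟨m, hm, -⟩ := VH3_min (T.ws.lf T.nice) (fun _ => unit) T.ws.ne
    obtain ⟨h1, h2⟩ := hm z
    rcases lt_or_gt_of_ne (hz _ h1) with h | h
    · refine ⟨-m z, T.ws.neg _ h1, by rw [B_neg_left]; linarith, fun n hn => ?_⟩
      rw [B_neg_left]
      exact (neg_le_abs _).trans (h2 n hn)
    · exact ⟨m z, h1, h, fun n hn => (le_abs_self _).trans (h2 n hn)⟩
  have i0 := inv_pos.2 a0
  have hp : Wit T.A ((B a (Hy z))⁻¹ • Hy z) := ⟨(Hy_fut z).smul i0, fun n hn => by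
    rw [B_smul_right, abs_mul, abs_of_pos i0, ← div_eq_inv_mul, one_le_div a0]
    exact am n hn⟩
  refine ⟨{b | Relation.ReflTransGen (fun x y => (x, y) ∈ T.E) a b}, a, ha,
    Relation.ReflTransGen.refl, fun d hd => Relation.ReflTransGen.tail hd d.mem, fun b hb => ?_,
    fun g hg e b hb => ?_⟩
  · have mb : b ∈ T.A := by
      rcases Relation.ReflTransGen.cases_tail hb with rfl | ⟨c, -, hc⟩
      exacts [ha, (T.del _ hc).2.1]
    by_cases hab : a = b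
    · exact hab ▸ a0
    obtain ⟨h1, h2⟩ := (Area2_side mb hb).resolve_left hab
    refine (lt_or_gt_of_ne (hz b mb)).resolve_left fun h3 => ?_
    have h4 := nearest_fac T.ws hp ha (by rw [B_smul_right, inv_mul_cancel₀ a0.ne'])
      (T.ws.neg _ mb) (by
        rw [B_smul_right, B_neg_left]
        exact mul_pos i0 (neg_pos.2 h3)) h1.symm
    have h5 := ((fac_iff_crd (unit mb) (fin' mb ha (Ne.symm hab)) (fin' mb (T.ws.neg _ ha)
      fun e => h1 (by rw [e, neg_neg]))).2.1 h4).1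
    linarith
  · induction hb with
    | refl => exact e.symm ▸ Relation.ReflTransGen.refl
    | tail _ h ih => exact Relation.ReflTransGen.tail ih (T.inv g hg _ _ h)

end Tr

end

end Pool.Agent.P.MP_d39174_gt

end

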