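import Pool.Agent.P.MP_d39174_gt.All.M3
import Pool.Agent.P.MP_d39174_gt.All.M2
import Pool.Agent.P.MP_d39174_gt.All.M1

section
/-! Frames, shears and twists of a triangulation. -/

namespace Pool.Agent.P.MP_d39174_gt

open UpperHalfPlane MatrixGroups

noncomputable section

namespace Tr

variable {Γ : Subgroup SL(2, ℝ)} {T : Tr Γ}

/-- `F` carries `∞, 0, 1` to the vertices of the triangle of `d`. -/
def IsFr (d : T.D) (F : SL(2, ℝ)) : Prop :=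
  br (F • (⟨1, 0⟩ : W)) (ev d.a) = 0 ∧ br (F • (⟨0, 1⟩ : W)) (ev d.b) = 0 ∧
    br (F • (⟨1, 1⟩ : W)) (ev d.c) = 0

open Classical in
def D.F (d : T.D) : SL(2, ℝ) := if h : ∃ F, IsFr d F then h.choose else 1

open Classical in
/-- Exponential of half the shear. -/
def D.x (d : T.D) : ℝ := if h : ∃ x, 0 < x ∧ PM (d.F * Sm x) (T.ι d).F then h.choose else 1

open Classical in
def D.s (d : T.D) : ℝ := if h : ∃ s, (d.F * Um s) • w0 = d.a then h.choose else 0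

/-- The frame of the wall `d.a` attached to `d`. -/
def D.G (d : T.D) : SL(2, ℝ) := d.F * Um d.s

open Classical in
/-- Exponential of half the twist. -/
def yy (d d' : T.D) : ℝ := if h : ∃ y, 0 < y ∧ PM (d.G * Sm y) d'.G then h.choose else 1

end Tr

end

end Pool.Agent.P.MP_d39174_gt

end

section
/-! Properties of frames, shears and twists. -/

namespace Pool.Agent.P.MP_d39174_gt

open UpperHalfPlane MatrixGroups

noncomputable section

lemma Frame_ext {g h : SL(2, ℝ)} (h1 : g 0 0 = h 0 0) (h2 : g 0 1 = h 0 1) (h3 : g 1 0 = h 1 0)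
    (h4 : g 1 1 = h 1 1) : g = h := by
  ext i j
  fin_cases i <;> fin_cases j
  exacts [h1, h2, h3, h4]

lemma Frame_N : Nm 0 0 = 0 ∧ Nm 0 1 = -1 ∧ Nm 1 0 = 1 ∧ Nm 1 1 = -1 := ⟨rfl, rfl, rfl, rfl⟩

lemma Frame_U (s : ℝ) : Um s 0 0 = 1 ∧ Um s 0 1 = s ∧ Um s 1 0 = 0 ∧ Um s 1 1 = 1 :=
  ⟨rfl, rfl, rfl, rfl⟩

lemma Frame_S {x : ℝ} (h : x ≠ 0) :
    Sm x 0 0 = 0 ∧ Sm x 0 1 = -1 / x ∧ Sm x 1 0 = x ∧ Sm x 1 1 = 0 := by
  unfold Sm
  rw [dif_pos h]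
  exact ⟨rfl, rfl, rfl, rfl⟩

lemma Frame_D {x : ℝ} (h : 0 < x) : ex (Real.log x) w0 0 0 = x ∧ ex (Real.log x) w0 0 1 = 0 ∧
    ex (Real.log x) w0 1 0 = 0 ∧ ex (Real.log x) w0 1 1 = 1 / x := by
  obtain ⟨a, b, c, d⟩ := ex_apply B_w0 (Real.log x)
  rw [a, b, c, d]
  simp [w0, Real.exp_neg, Real.exp_log h]

lemma Frame_cancel {g a b : SL(2, ℝ)} (h : PM (g * a) (g * b)) : PM a b := by
  simpa only [inv_mul_cancel_left] using (PM.refl g⁻¹).mul h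

lemma Frame_SS {x : ℝ} (h : x ≠ 0) : Sm x * Sm x = -1 := by
  obtain ⟨a, b, c, d⟩ := Frame_S h
  apply Frame_ext <;> simp [mul_apply', a, b, c, d, h] <;> field_simp

lemma Frame_DS {x y : ℝ} (hx : 0 < x) (hy : 0 < y) : ex (Real.log x) w0 * Sm (x * y) = Sm y := by
  obtain ⟨a, b, c, d⟩ := Frame_S (mul_pos hx hy).ne'
  obtain ⟨a', b', c', d'⟩ := Frame_S hy.ne'
  obtain ⟨e1, e2, e3, e4⟩ := Frame_D hx
  apply Frame_ext <;> simp only [mul_apply', a, b, c, d, a', b', c', d', e1, e2, e3, e4] <;>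
    field_simp <;> ring

lemma Frame_key {x : ℝ} (hx : 0 < x) (s : ℝ) :
    Nm * Nm * Sm x * Um s = Um (1 + x ^ 2 * s) * ex (Real.log x) w0 := by
  obtain ⟨a, b, c, d⟩ := Frame_S hx.ne'
  obtain ⟨e1, e2, e3, e4⟩ := Frame_D hx
  apply Frame_ext <;> simp only [mul_apply', a, b, c, d, e1, e2, e3, e4, Frame_N, Frame_U] <;>
    field_simp <;> ring

lemma Frame_anti {k : SL(2, ℝ)} (h1 : k 0 0 = 0) (h2 : k 1 1 = 0) : ∃ x, 0 < x ∧ PM (Sm x) k := by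
  have hd := det_eq k
  rw [h1, zero_mul, zero_sub] at hd
  have h0 : k 1 0 ≠ 0 := fun h => by simp [h] at hd
  have h3 : k 0 1 = -1 / k 1 0 := by
    rw [eq_div_iff h0]
    linarith
  rcases h0.lt_or_gt with h | h
  · obtain ⟨a, b, c, d⟩ := Frame_S (neg_ne_zero.2 h0)
    refine ⟨-k 1 0, neg_pos.2 h, Or.inr (Frame_ext ?_ ?_ ?_ ?_)⟩ <;>
      simp only [neg_apply', a, b, c, d, h1, h2, h3, neg_zero, neg_neg, div_neg]
  · obtain ⟨a, b, c, d⟩ := Frame_S h0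
    exact ⟨k 1 0, h, Or.inl (Frame_ext (h1.trans a.symm) (h3.trans b.symm) c.symm
      (h2.trans d.symm))⟩

lemma Frame_br {F F' : SL(2, ℝ)} {x y : W} {a : V} (ha : B a a = 1) (h : br (F • x) (ev a) = 0)
    (h' : br (F' • y) (ev a) = 0) : br x ((F⁻¹ * F') • y) = 0 := by
  rw [← br_ad F, mul_smul, smul_inv_smul]
  exact VW_prop (VW_of_br ha h) (VW_of_br ha h')

lemma Frame_br_ad (g : SL(2, ℝ)) {x : W} {a : V} (ha : B a a = 1) (h : br x (ev a) = 0) :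
    br (g • x) (ev (g • a)) = 0 := by
  obtain ⟨t, -, e⟩ := ev_ad g ha
  have h1 := br_ad g x (ev a)
  rw [h] at h1
  rw [e]
  simp only [br] at h1 ⊢
  linear_combination t * h1

lemma Frame_ex {u v w : W} (h : 0 < oriW u v w) : ∃ F : SL(2, ℝ),
    br (F • (⟨1, 0⟩ : W)) u = 0 ∧ br (F • (⟨0, 1⟩ : W)) v = 0 ∧ br (F • (⟨1, 1⟩ : W)) w = 0 := by
  have h1 : (√(oriW u v w))⁻¹ ^ 2 * oriW u v w = 1 := by
    rw [inv_pow, Real.sq_sqrt h.le, inv_mul_cancel₀ h.ne']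
  generalize (√(oriW u v w))⁻¹ = l at h1
  refine ⟨⟨!![l * br w v * u.p, l * br u w * v.p; l * br w v * u.q, l * br u w * v.q], ?_⟩,
    ?_, ?_, ?_⟩
  · rw [Matrix.det_fin_two_of]
    simp only [oriW, br] at h1 ⊢
    linear_combination h1
  all_goals
    simp [br, act_p, act_q]
    ring

lemma Sm_apply {x : ℝ} (h : x ≠ 0) : (Sm x).1 = !![0, -1 / x; x, 0] := by
  unfold Sm
  rw [dif_pos h]
lemma Sm_pm_inj {x y : ℝ} (hx : 0 < x) (hy : 0 < y) (h : PM (Sm x) (Sm y)) : x = y := by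
  have a := (Frame_S hx.ne').2.2.1
  have b := (Frame_S hy.ne').2.2.1
  rcases h with h | h
  · rw [← a, ← b, h]
  · rw [h, neg_apply', a] at b
    linarith
lemma Sm_w0 {x : ℝ} (h : x ≠ 0) : Sm x • w0 = -w0 := by
  obtain ⟨a, b, c, d⟩ := Frame_S h
  ext <;> simp [ad_a, ad_b, ad_c, w0, a, b, c, d, h]
lemma Um_w0 (s : ℝ) : Um s • w0 = w0 - (2 * s) • E0 := by
  ext <;> simp [ad_a, ad_b, ad_c, w0, E0, Frame_U]
lemma Um_E0 (s : ℝ) : Um s • E0 = E0 := by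
  ext <;> simp [ad_a, ad_b, ad_c, E0, Frame_U]
lemma Um_mul (s t : ℝ) : Um s * Um t = Um (s + t) := by
  apply Frame_ext <;> simp only [mul_apply', Frame_U] <;> ring
lemma Um_zero : Um 0 = 1 := by
  apply Frame_ext <;> simp [Frame_U]
lemma NNS {x : ℝ} (h : x ≠ 0) : (Nm * Nm * Sm x).1 = mA x := by
  obtain ⟨a, b, c, d⟩ := Frame_S h
  have e := mul_apply' (Nm * Nm) (Sm x)
  ext i j
  refine (e i j).trans ?_
  fin_cases i <;> fin_cases j <;> simp [mul_apply', a, b, c, d, Frame_N, mA] <;> ring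
lemma NS {x : ℝ} (h : x ≠ 0) : (-(Nm * Sm x)).1 = mB x := by
  obtain ⟨a, b, c, d⟩ := Frame_S h
  ext i j
  refine ((neg_apply' _ i j).trans (congrArg Neg.neg (mul_apply' Nm (Sm x) i j))).trans ?_
  fin_cases i <;> fin_cases j <;> simp [a, b, c, d, Frame_N, mB] <;> ring
lemma USUS {s s' y x : ℝ} (hy : y ≠ 0) (hx : x ≠ 0) :
    (-(Um s * Sm y * Um (-s') * Sm x)).1 = mJ s s' y x := by
  obtain ⟨a, b, c, d⟩ := Frame_S hx
  obtain ⟨a', b', c', d'⟩ := Frame_S hy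
  have k : ∀ i j, (-(Um s * Sm y * Um (-s') * Sm x)) i j = mJ s s' y x i j := by
    simp only [Fin.forall_fin_two, neg_apply', mul_apply', a, b, c, d, a', b', c', d', Frame_U]
    refine ⟨⟨?_, ?_⟩, ?_, ?_⟩ <;> simp [mJ] <;> ring
  exact Matrix.ext k

namespace Tr

variable {Γ : Subgroup SL(2, ℝ)} {T : Tr Γ}

lemma D.isFr (d : T.D) : IsFr d d.F := by
  have h : ∃ F, IsFr d F := Frame_ex d.ori_pos
  unfold D.F
  rw [dif_pos h]
  exact h.choose_spec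
lemma IsFr.pm {d : T.D} {F F' : SL(2, ℝ)} (h : IsFr d F) (h' : IsFr d F') : PM F F' := by
  have h1 := Frame_br d.a_unit h.1 h'.1
  have h2 := Frame_br d.b_unit h.2.1 h'.2.1
  have h3 := Frame_br d.c_unit h.2.2 h'.2.2
  rw [pm_iff_inv_mul]
  generalize F⁻¹ * F' = k at h1 h2 h3
  have hd := det_eq k
  simp only [br, act_p, act_q] at h1 h2 h3
  have e1 : k 1 0 = 0 := by linarith
  have e2 : k 0 1 = 0 := by linarith
  have e3 : k 1 1 = k 0 0 := by linarith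
  rw [e1, e3, mul_zero, sub_zero] at hd
  rcases mul_self_eq_one_iff.1 hd with e | e
  · exact Or.inl (Frame_ext (by simp [e]) (by simp [e2]) (by simp [e1]) (by simp [e3, e]))
  · exact Or.inr (Frame_ext (by simp [e]) (by simp [e2]) (by simp [e1]) (by simp [e3, e]))
lemma F_ν (d : T.D) : PM (d.F * Nm) (T.ν d).F := by
  refine IsFr.pm ?_ (T.ν d).isFr
  obtain ⟨h1, h2, h3⟩ := d.isFr
  simp only [IsFr, ν_a, ν_b, ν_c, br, act_p, act_q, mul_apply', Frame_N] at h1 h2 h3 ⊢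
  exact ⟨by linear_combination h2, by linear_combination -h3, by linear_combination -h1⟩
lemma F_smul (g : Γ) (d : T.D) : PM ((g : SL(2, ℝ)) * d.F) (g • d).F := by
  refine IsFr.pm ?_ (g • d).isFr
  obtain ⟨h1, h2, h3⟩ := d.isFr
  simp only [IsFr, smul_a, smul_b, smul_c, mul_smul]
  exact ⟨Frame_br_ad _ d.a_unit h1, Frame_br_ad _ d.b_unit h2, Frame_br_ad _ d.c_unit h3⟩
lemma D.x_pos (d : T.D) : 0 < d.x := by
  unfold D.x
  split_ifs with h
  exacts [h.choose_spec.1, one_pos]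
lemma F_ι (d : T.D) : PM (d.F * Sm d.x) (T.ι d).F := by
  have h : ∃ x, 0 < x ∧ PM (d.F * Sm x) (T.ι d).F := by
    have h1 := Frame_br d.b_unit d.isFr.2.1 (T.ι d).isFr.1
    have h2 := Frame_br d.a_unit d.isFr.1 (T.ι d).isFr.2.1
    simp only [br, act_p, act_q] at h1 h2
    obtain ⟨x, hx, e⟩ := Frame_anti (k := d.F⁻¹ * (T.ι d).F) (by linarith) (by linarith)
    exact ⟨x, hx, by simpa only [mul_inv_cancel_left] using (PM.refl d.F).mul e⟩
  unfold D.x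
  rw [dif_pos h]
  exact h.choose_spec.2
lemma Frame_x {d : T.D} {x : ℝ} (hx : 0 < x) (h : PM (d.F * Sm x) (T.ι d).F) : d.x = x :=
  Sm_pm_inj d.x_pos hx (Frame_cancel ((F_ι d).trans h.symm))
lemma x_ι (d : T.D) : (T.ι d).x = d.x := by
  refine Frame_x d.x_pos (((F_ι d).symm.mul (PM.refl _)).trans ?_)
  rw [mul_assoc, Frame_SS d.x_pos.ne', mul_neg, mul_one, ι_ι]
  exact (PM.neg _).symm
lemma x_smul (g : Γ) (d : T.D) : (g • d).x = d.x := by
  refine Frame_x d.x_pos (((F_smul g d).symm.mul (PM.refl _)).trans ?_)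
  rw [mul_assoc, ι_smul]
  exact ((PM.refl _).mul (F_ι d)).trans (F_smul g _)
lemma F_φ (d : T.D) : PM (d.F * (Nm * Nm * Sm (T.φ d).x)) (T.φ d).F := by
  rw [φ_apply, x_ι, ← mul_assoc, ← mul_assoc]
  exact (((((F_ν d).mul (PM.refl _)).trans (F_ν _))).mul (PM.refl _)).trans (F_ι _)
lemma F_ψ (d : T.D) : PM (d.F * -(Nm * Sm (T.ψ d).x)) (T.ψ d).F := by
  rw [ψ_apply, x_ι, mul_neg, ← mul_assoc]
  exact (PM.neg _).symm.trans (((F_ν d).mul (PM.refl _)).trans (F_ι _))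
lemma G_w0 (d : T.D) : d.G • w0 = d.a := by
  have h : ∃ s, (d.F * Um s) • w0 = d.a := by
    have h1 := Frame_br_ad d.F⁻¹ d.a_unit d.isFr.1
    rw [inv_smul_smul] at h1
    obtain ⟨h2, h3⟩ := VW_of_br (by rw [B_ad]; exact d.a_unit) h1
    refine ⟨-(d.F⁻¹ • d.a).b / 2, ?_⟩
    rw [mul_smul, ← eq_inv_smul_iff, Um_w0]
    simp only [mul_one, mul_zero, add_zero, sub_zero] at h2 h3
    ext
    · simp [w0, E0, h2]
    · simp only [w0, E0, V.sub_b, V.smul_b]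
      ring
    · simp [w0, E0, h3]
  unfold D.G D.s
  rw [dif_pos h]
  exact h.choose_spec
lemma Frame_s {d : T.D} {s : ℝ} (h : (d.F * Um s) • w0 = d.a) : d.s = s := by
  have h1 := (G_w0 d).trans h.symm
  rw [D.G, mul_smul, mul_smul, smul_left_cancel_iff, Um_w0, Um_w0] at h1
  have h2 := congrArg V.b h1
  simp only [E0, V.sub_b, V.smul_b] at h2
  linarith
lemma D.s_pos (d : T.D) : 0 < d.s := by
  have h0 : 0 < oriW (ev d.a) (ev d.b) (ev (-d.a)) := d.fac.1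
  rw [← oriW_ad d.F⁻¹] at h0
  obtain ⟨h1, h2, -⟩ := d.isFr
  rw [← br_ad d.F⁻¹, inv_smul_smul] at h1 h2
  have h3 := (VW2_E d.F⁻¹ (VW_neg d.a_unit)).1
  have h4 : d.F⁻¹ • d.a = w0 - (2 * d.s) • E0 := by
    rw [← Um_w0, inv_smul_eq_iff, ← mul_smul]
    exact (G_w0 d).symm
  rw [smul_neg, h4] at h3
  generalize d.F⁻¹ • ev d.a = u at h0 h1
  generalize d.F⁻¹ • ev d.b = v at h0 h2
  generalize d.F⁻¹ • ev (-d.a) = w at h0 h3
  simp only [oriW, br, w0, E0, V.neg_a, V.neg_b, V.sub_a, V.sub_b, V.smul_a, V.smul_b] at h0 h1 h2 h3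
  have e1 : u.q = 0 := by linarith
  have e2 : v.p = 0 := by linarith
  have e3 : w.p = d.s * w.q := by linarith
  rw [e1, e2, e3] at h0
  by_contra hn
  nlinarith [mul_nonneg (neg_nonneg.2 (not_lt.1 hn)) (sq_nonneg (u.p * v.q * w.q))]
lemma s_smul (g : Γ) (d : T.D) : (g • d).s = d.s := by
  refine Frame_s ?_
  rw [← ((F_smul g d).mul (PM.refl _)).ad, mul_assoc, mul_smul, smul_a]
  exact congrArg _ (G_w0 d)
lemma Frame_φ (d : T.D) : PM (d.F * Um (1 + (T.φ d).x ^ 2 * (T.φ d).s) *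
    ex (Real.log (T.φ d).x) w0) (T.φ d).G := by
  rw [mul_assoc, ← Frame_key (T.φ d).x_pos, ← mul_assoc]
  exact (F_φ d).mul (PM.refl _)
lemma s_rec (d : T.D) : d.s = 1 + (T.φ d).x ^ 2 * (T.φ d).s := by
  refine Frame_s ?_
  have h := (Frame_φ d).ad w0
  rwa [mul_smul, ex_ad_self, G_w0, φ_a] at h
lemma Frame_Gφ (d : T.D) : PM (d.G * ex (Real.log (T.φ d).x) w0) (T.φ d).G := by
  have h := Frame_φ d
  rwa [← s_rec] at h
lemma Frame_Gs (g : Γ) (d : T.D) : PM ((g : SL(2, ℝ)) * d.G) (g • d).G := by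
  rw [D.G, D.G, s_smul, ← mul_assoc]
  exact (F_smul g d).mul (PM.refl _)
lemma G_φ_E0 (d : T.D) : (T.φ d).G • E0 = (T.φ d).x ^ 2 • d.G • E0 := by
  obtain ⟨a, b, c, e⟩ := Frame_D (T.φ d).x_pos
  rw [← (Frame_Gφ d).ad, mul_smul, ← ad_real]
  congr 1
  ext <;> simp [ad_a, ad_b, ad_c, E0, a, b, c]
lemma yy_pos (d d' : T.D) : 0 < yy d d' := by
  unfold yy
  split_ifs with h
  exacts [h.choose_spec.1, one_pos]
lemma Frame_yy' {d d' : T.D} (h : ∃ y, 0 < y ∧ PM (d.G * Sm y) d'.G) :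
    PM (d.G * Sm (yy d d')) d'.G := by
  unfold yy
  rw [dif_pos h]
  exact h.choose_spec.2
lemma Frame_yy {d d' : T.D} {y : ℝ} (hy : 0 < y) (h : PM (d.G * Sm y) d'.G) : yy d d' = y :=
  Sm_pm_inj (yy_pos d d') hy (Frame_cancel ((Frame_yy' ⟨y, hy, h⟩).trans h.symm))
lemma G_opp {d d' : T.D} (h : d'.a = -d.a) : PM (d.G * Sm (yy d d')) d'.G := by
  have h1 : (d.G⁻¹ * d'.G) • w0 = -w0 := by
    rw [mul_smul, G_w0, h, smul_neg, ← G_w0 d, inv_smul_smul]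
  have h2 : ∀ k : SL(2, ℝ), k • w0 = -w0 → k 0 0 = 0 ∧ k 1 1 = 0 := fun k e => by
    have hd := det_eq k
    have a := congrArg V.a e
    have b := congrArg V.b e
    have c := congrArg V.c e
    simp only [ad_a, ad_b, ad_c, w0, V.neg_a, V.neg_b, V.neg_c] at a b c
    exact ⟨by linear_combination (k 1 0 / 2) * b + (k 0 0 / 2) * (a - hd),
      by linear_combination (-k 0 1 / 2) * c + (k 1 1 / 2) * (a - hd)⟩
  obtain ⟨x, hx, e⟩ := Frame_anti (h2 _ h1).1 (h2 _ h1).2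
  exact Frame_yy' ⟨x, hx, by simpa only [mul_inv_cancel_left] using (PM.refl d.G).mul e⟩
lemma yy_symm {d d' : T.D} (h : d'.a = -d.a) : yy d' d = yy d d' := by
  refine Frame_yy (yy_pos d d') (((G_opp h).symm.mul (PM.refl _)).trans ?_)
  rw [mul_assoc, Frame_SS (yy_pos d d').ne', mul_neg, mul_one]
  exact (PM.neg _).symm
lemma yy_smul (g : Γ) {d d' : T.D} (h : d'.a = -d.a) : yy (g • d) (g • d') = yy d d' := by
  refine Frame_yy (yy_pos d d') (((Frame_Gs g d).symm.mul (PM.refl _)).trans ?_)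
  rw [mul_assoc]
  exact ((PM.refl _).mul (G_opp h)).trans (Frame_Gs g _)
lemma yy_φ {d d' : T.D} (h : d'.a = -d.a) : yy (T.φ d) d' = (T.φ d).x * yy d d' := by
  refine Frame_yy (mul_pos (T.φ d).x_pos (yy_pos d d'))
    (((Frame_Gφ d).symm.mul (PM.refl _)).trans ?_)
  rw [mul_assoc, Frame_DS (T.φ d).x_pos (yy_pos d d')]
  exact G_opp h
lemma yy_pow {d d' : T.D} (h : d'.a = -d.a) (i j : ℕ) :
    yy ((T.φ ^ i) d) ((T.φ ^ j) d') = yy d d' * Pr T.φ D.x d i * Pr T.φ D.x d' j := by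
  have key : ∀ {d d' : T.D}, d'.a = -d.a → ∀ i : ℕ,
      yy ((T.φ ^ i) d) d' = yy d d' * Pr T.φ D.x d i := by
    intro d d' h i
    induction i with
    | zero => simp [Pr]
    | succ i ih =>
      rw [Pr_succ, pow_succ', Equiv.Perm.mul_apply, yy_φ (by rwa [φ_pow_a]), ih]
      ring
  have h1 : d'.a = -((T.φ ^ i) d).a := by rwa [φ_pow_a]
  have h2 : ((T.φ ^ i) d).a = -d'.a := by rw [h1, neg_neg]
  rw [yy_symm (d := (T.φ ^ j) d') (d' := (T.φ ^ i) d) (by rw [h2, φ_pow_a]), key h2, ← yy_symm h2, key h]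
lemma F_opp {d d' : T.D} (h : d'.a = -d.a) :
    PM (d.F * Um d.s * Sm (yy d d') * Um (-d'.s)) d'.F := by
  have e := (G_opp h).mul (PM.refl (Um (-d'.s)))
  rwa [D.G, D.G, mul_assoc d'.F, Um_mul, add_neg_cancel, Um_zero, mul_one] at e
lemma F_jump {d d' : T.D} (h : d'.a = -d.a) :
    PM (d.F * -(Um d.s * Sm (yy d d') * Um (-d'.s) * Sm d'.x)) (T.ι d').F := by
  rw [mul_neg, ← mul_assoc, ← mul_assoc, ← mul_assoc]
  exact (PM.neg _).symm.trans (((F_opp h).mul (PM.refl _)).trans (F_ι _))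
lemma Pr_f (d : T.D) {t : ℝ} (h : Prim Γ d.a t) : Pr T.φ D.x d d.f = Real.exp (-t) := by
  have hp := Pr_pos T.φ (fun e : T.D => e.x_pos) d
  have key : ∀ i : ℕ, PM (d.G * ex (Real.log (Pr T.φ D.x d i)) w0) ((T.φ ^ i) d).G := by
    intro i
    induction i with
    | zero => simpa [Pr, ex_zero] using PM.refl _
    | succ i ih =>
      rw [Pr_succ, Real.log_mul (hp i).ne' (D.x_pos _).ne', ex_add, ← mul_assoc, pow_succ',
        Equiv.Perm.mul_apply]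
      exact (ih.mul (PM.refl _)).trans (Frame_Gφ _)
  have hm : ex (-t) d.a ∈ Γ := by
    rw [ex_neg]
    exact inv_mem h.mem
  have h1 := key d.f
  rw [d.f_spec h (γ := ⟨_, hm⟩) (PM.refl _)] at h1
  have h2 := h1.trans (Frame_Gs ⟨_, hm⟩ d).symm
  have h3 : ex (-t) d.a * d.G = d.G * ex (-t) w0 := by
    rw [← G_w0 d, ← ex_conj, inv_mul_cancel_right]
  simp only [h3] at h2
  rw [← ex_pm_inj B_w0 (Frame_cancel h2), Real.exp_log (hp _)]
lemma s_eq_sig (d : T.D) : d.s = sig T.φ D.x d d.f := by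
  obtain ⟨t, h⟩ := T.nice.exists_prim (T.ws.per _ d.a_mem)
  have hm : ex (-t) d.a ∈ Γ := by
    rw [ex_neg]
    exact inv_mem h.mem
  refine sig_eq_of_rec T.φ (fun e : T.D => e.x_pos) s_rec ?_ ?_
  · rw [Pr_f d h]
    exact (Real.exp_lt_one_iff.2 (neg_neg_of_pos h.pos)).ne
  · rw [d.f_spec h (γ := ⟨_, hm⟩) (PM.refl _), s_smul]

end Tr

end

end Pool.Agent.P.MP_d39174_gt

end

section
/-! Itineraries of walls through a triangulation. -/

namespace Pool.Agent.P.MP_d39174_gt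

open UpperHalfPlane MatrixGroups

noncomputable section

namespace Tr

variable {Γ : Subgroup SL(2, ℝ)} {T : Tr Γ}

/-- The wall `w` crosses the edge of `d` and enters the triangle of `d`. -/
def Crs (w : V) (d : T.D) : Prop := crd w d.a < 0 ∧ 0 < crd w d.b

def First (w : V) (d : T.D) : Prop := ∀ e : T.D, e.a = d.a → 0 < crd w e.b → crd w d.b ≤ crd w e.b

def Last (w : V) (d : T.D) : Prop := ∀ e : T.D, e.b = d.b → crd w e.a < 0 → crd w d.a ≤ crd w e.a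

/-- Stations of `w`. -/
def Stn (w : V) (d : T.D) : Prop :=
  Crs w d ∧ (|B w d.a| < 1 → First w d) ∧ (|B w d.b| < 1 → Last w d)

/-- `d` comes before `e` along `w`. -/
def Le (w : V) (d e : T.D) : Prop := crd w e.a ≤ crd w d.a ∧ crd w d.b ≤ crd w e.b

open Classical in
/-- The last dart crossed by `w` in the fan on the far side of the wall `d.a`. -/
def jmp (w : V) (d : T.D) : T.D :=
  if h : ∃ e : T.D, e.b = -d.a ∧ Crs w e ∧ Last w e then h.choose else d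

open Classical in
def kind (w : V) (d : T.D) : Fin 3 :=
  if w ∈ T.A then 0 else if |B w d.a| < 1 then 2 else if 0 < crd w d.c then 0 else 1

/-- The next station. -/
def τ (w : V) (d : T.D) : T.D :=
  if kind w d = 0 then T.φ d else if kind w d = 1 then T.ψ d else jmp w d

/-- Stations of a wall outside the system, or darts along a wall of the system. -/
def Str (w : V) (d : T.D) : Prop := (w ∉ T.A ∧ Stn w d) ∨ w = -d.a

/-- The step matrix. -/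
def smat (x : T.D → ℝ) (s : T.D → ℝ) (y : T.D → T.D → ℝ) (w : V) (d : T.D) : M2 :=
  if kind w d = 0 then mA (x (T.φ d)) else if kind w d = 1 then mB (x (T.ψ d))
  else mJ (s d) (s (T.ι (jmp w d))) (y d (T.ι (jmp w d))) (x (T.ι (jmp w d)))

end Tr

end

end Pool.Agent.P.MP_d39174_gt

end

section
/-! One step of an itinerary. -/

namespace Pool.Agent.P.MP_d39174_gt

open UpperHalfPlane MatrixGroups

noncomputable section

lemma Itin1_cyc {x y z : ℝ} : 0 < (x - y) * (y - z) * (z - x) ↔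
    (x < y ∧ y < z) ∨ (y < z ∧ z < x) ∨ (z < x ∧ x < y) := by
  constructor
  · intro h
    rcases pos_and_pos_or_neg_and_neg_of_mul_pos h with ⟨h1, h2⟩ | ⟨h1, h2⟩
    · rcases pos_and_pos_or_neg_and_neg_of_mul_pos h1 with ⟨h3, h4⟩ | ⟨h3, h4⟩
      · exact absurd h2 (by linarith)
      · exact Or.inl ⟨by linarith, by linarith⟩
    · rcases mul_neg_iff.1 h1 with ⟨h3, h4⟩ | ⟨h3, h4⟩
      · exact Or.inr (Or.inl ⟨by linarith, by linarith⟩)
      · exact Or.inr (Or.inr ⟨by linarith, by linarith⟩)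
  · rintro (⟨h1, h2⟩ | ⟨h1, h2⟩ | ⟨h1, h2⟩)
    · exact mul_pos (mul_pos_of_neg_of_neg (by linarith) (by linarith)) (by linarith)
    · exact mul_pos_of_neg_of_neg (mul_neg_of_pos_of_neg (by linarith) (by linarith)) (by linarith)
    · exact mul_pos_of_neg_of_neg (mul_neg_of_neg_of_pos (by linarith) (by linarith)) (by linarith)

lemma Itin1_ori {w a b c : V} (hw : B w w = 1) (ha : Fin' w a) (hb : Fin' w b) (hc : Fin' w c) :
    0 < ori a b c ↔ (crd w a < crd w b ∧ crd w b < crd w c) ∨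
      (crd w b < crd w c ∧ crd w c < crd w a) ∨ (crd w c < crd w a ∧ crd w a < crd w b) := by
  obtain ⟨k, hk, e⟩ := ori_crd hw ha hb hc
  rw [e, mul_pos_iff_of_pos_left hk, Itin1_cyc]

namespace Tr

variable {Γ : Subgroup SL(2, ℝ)} {T : Tr Γ} {w : V}

lemma fin'_of_not_mem (hw : Per Γ w) (h : w ∉ T.A) {a : V} (ha : a ∈ T.A) :
    Fin' w a ∧ Fin' (-w) a ∧ crd w a ≠ 0 ∧ |B w a| ≠ 1 := by
  have h1 : a ≠ w := fun e => h (e ▸ ha)
  have h2 : a ≠ -w := fun e => h (by simpa [e] using T.ws.neg a ha)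
  have f1 := T.nice.fin' hw (T.ws.per a ha) h1.symm
  have f2 := T.nice.fin' hw.neg (T.ws.per a ha) h2.symm
  exact ⟨f1, f2, crd_ne_zero hw.1 f1 f2, T.nice.abs_B_ne_one hw (T.ws.per a ha) h1 h2⟩

lemma Itin1_fin (hw : Per Γ w) (h : w ∉ T.A) {a : V} (ha : a ∈ T.A) : Fin' w a :=
  (fin'_of_not_mem hw h ha).1

lemma Itin1_neg (h : w ∉ T.A) : -w ∉ T.A := fun e => h (neg_neg w ▸ T.ws.neg _ e)

lemma crd_inj (hw : Per Γ w) (h : w ∉ T.A) {a b : V} (ha : a ∈ T.A) (hb : b ∈ T.A)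
    (e : crd w a = crd w b) : a = b :=
  T.nice.eq_of_br (T.ws.per a ha) (T.ws.per b hb)
    ((crd_eq_iff hw.1 (Itin1_fin hw h ha) (Itin1_fin hw h hb)).1 e)

lemma Itin1_mem {u v : V} (h : T.Sep u v) : u ∈ T.A ∧ v ∈ T.A := by
  rcases h with h | ⟨h, rfl⟩
  · exact ⟨(T.del _ h).1, (T.del _ h).2.1⟩
  · exact ⟨h, T.ws.neg _ h⟩

lemma Itin1_edge (d : T.D) : T.Sep d.a d.b := Or.inl d.mem

lemma Itin1_wall {a : V} (ha : a ∈ T.A) : T.Sep a (-a) := Or.inr ⟨ha, rfl⟩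

lemma Itin1_nc (hw : Per Γ w) (h : w ∉ T.A) {u v u' v' : V} (s : T.Sep u v) (s' : T.Sep u' v')
    (h1 : crd w u < crd w u') (h2 : crd w u' < crd w v) (h3 : crd w v < crd w v') : False := by
  refine s.not_cr s' ((Cr_crd hw.1 (Itin1_fin hw h (Itin1_mem s).1)
    (Itin1_fin hw h (Itin1_mem s).2) (Itin1_fin hw h (Itin1_mem s').1)
    (Itin1_fin hw h (Itin1_mem s').2)).2 ⟨(h1.trans h2).ne, ?_⟩)
  exact mul_neg_of_pos_of_neg (mul_pos (by linarith) (by linarith))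
    (mul_neg_of_neg_of_pos (by linarith) (by linarith))

lemma Itin1_cross (hw : Per Γ w) (h : w ∉ T.A) {a : V} (ha : a ∈ T.A) (h1 : |B w a| < 1) :
    (crd w a < 0 → 0 < crd w (-a)) ∧ (0 < crd w a → crd w (-a) < 0) := by
  have := (cross_iff_crd hw.1 (unit ha) (Itin1_fin hw h ha)
    (Itin1_fin hw h (T.ws.neg a ha))).1 h1
  exact ⟨fun h2 => pos_of_mul_neg_right this h2.le, fun h2 => neg_of_mul_neg_right this h2.le⟩

lemma Itin1_fac (hw : Per Γ w) (h : w ∉ T.A) (d : T.D) :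
    (crd w d.a < crd w d.b ∧ crd w d.b < crd w (-d.a)) ∨
      (crd w d.b < crd w (-d.a) ∧ crd w (-d.a) < crd w d.a) ∨
      (crd w (-d.a) < crd w d.a ∧ crd w d.a < crd w d.b) :=
  (Itin1_ori hw.1 (Itin1_fin hw h d.a_mem) (Itin1_fin hw h d.b_mem)
    (Itin1_fin hw h (T.ws.neg _ d.a_mem))).1 d.fac.1

lemma Itin1_tri (hw : Per Γ w) (h : w ∉ T.A) (d : T.D) :
    crd w d.b < crd w d.c ∨ crd w d.c < crd w d.a := by
  rcases (Itin1_ori hw.1 (Itin1_fin hw h d.a_mem) (Itin1_fin hw h d.b_mem)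
    (Itin1_fin hw h d.c_mem)).1 d.ori_pos with h2 | h2 | h2
  exacts [Or.inl h2.2, Or.inl h2.1, Or.inr h2.1]

lemma Itin1_btw (hw : Per Γ w) (h : w ∉ T.A) {d : T.D} (h1 : |B w d.a| < 1)
    (h2 : crd w d.a < 0) : crd w d.a < crd w d.b ∧ crd w d.b < crd w (-d.a) := by
  have h3 := (Itin1_cross hw h d.a_mem h1).1 h2
  rcases Itin1_fac hw h d with h4 | h4 | h4
  · exact h4
  · exact absurd h4.2 (by linarith)
  · exact absurd h4.1 (by linarith)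

lemma Le.antisymm (hw : Per Γ w) (h : w ∉ T.A) {d e : T.D} (h1 : Le w d e) (h2 : Le w e d) :
    d = e :=
  D.ext (crd_inj hw h d.a_mem e.a_mem (le_antisymm h2.1 h1.1))
    (crd_inj hw h d.b_mem e.b_mem (le_antisymm h1.2 h2.2))
lemma le_total' (hw : Per Γ w) (h : w ∉ T.A) {d e : T.D} (h1 : Crs w d) (h2 : Crs w e) :
    Le w d e ∨ Le w e d := by
  by_contra hc
  rw [not_or, Le, Le, not_and_or, not_and_or, not_le, not_le, not_le, not_le] at hc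
  obtain ⟨l | l, l' | l'⟩ := hc
  · exact lt_asymm l l'
  · exact Itin1_nc hw h (Itin1_edge d) (Itin1_edge e) l (h2.1.trans h1.2) l'
  · exact Itin1_nc hw h (Itin1_edge e) (Itin1_edge d) l' (h1.1.trans h2.2) l
  · exact lt_asymm l l'
lemma crd_neg_of_cross (hw : Per Γ w) (h : w ∉ T.A) {d : T.D} (h1 : Crs w d) :
    (|B w d.a| < 1 → crd w d.b < crd w (-d.a)) ∧ (|B w d.b| < 1 → crd w d.a < crd w (-d.b)) := by
  refine ⟨fun h2 => (Itin1_btw hw h h2 h1.1).2, fun h2 => ?_⟩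
  have h3 := (Itin1_cross hw h d.b_mem h2).2 h1.2
  rcases Itin1_fac hw h (T.ι d) with h4 | h4 | h4
  · exact absurd (h4.1.trans h1.1) h1.2.not_gt
  · exact h4.1
  · exact absurd (h4.2.trans h1.1) h1.2.not_gt

lemma Itin1_last (hw : Per Γ w) (h : w ∉ T.A) {d : T.D} (h1 : Crs w d) (h2 : |B w d.a| < 1) :
    Last w d := fun e he _ => not_lt.1 fun l =>
  Itin1_nc hw h (Itin1_edge e) (Itin1_wall d.a_mem) l (he ▸ h1.1.trans h1.2)
    (he ▸ (crd_neg_of_cross hw h h1).1 h2)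

lemma Itin1_first (hw : Per Γ w) (h : w ∉ T.A) {d : T.D} (h1 : Crs w d) (h2 : |B w d.b| < 1) :
    First w d := fun e he h0 => not_lt.1 fun l =>
  Itin1_nc hw h (Itin1_edge e) (Itin1_wall d.b_mem).symm (he ▸ (crd_neg_of_cross hw h h1).2 h2)
    (((Itin1_cross hw h d.b_mem h2).2 h1.2).trans h0) l

lemma Itin1_side (hw : Per Γ w) (h : w ∉ T.A) {a : V} (ha : a ∈ T.A) (h1 : |B w a| < 1)
    (h2 : crd w a < 0) : crd a (-w) < 0 ∧ 0 < crd a w := by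
  have h3 := (Itin1_cross hw h ha h1).1 h2
  have f := fin'_of_cross (unit ha) hw.1 (B_comm w a ▸ h1)
  have fa := Itin1_fin hw h ha
  have fn := Itin1_fin hw h (T.ws.neg a ha)
  refine ⟨(side_iff (unit ha) f.2.1).1.1 ((Itin1_ori hw.1 fa (fin'_neg hw.1) fn).2
    (Or.inl ?_)), (side_iff (unit ha) f.1).2.1 ?_⟩
  · rw [crd_neg_self hw.1]
    exact ⟨h2, h3⟩
  · obtain ⟨k, hk, e⟩ := ori_crd' hw.1 fn fa
    rw [← ori_cyc, e]
    exact mul_neg_of_pos_of_neg hk (by linarith)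

/-- The first dart in terms of the coordinate of the wall `d.a`. -/
lemma first_iff (hw : Per Γ w) (h : w ∉ T.A) {d : T.D} (h1 : |B w d.a| < 1) (h2 : crd w d.a < 0) :
    crd d.a (-w) < 0 ∧ 0 < crd d.a w ∧ ((Crs w d ∧ First w d) ↔
      (crd d.a (-w) < d.r ∧ ∀ e : T.D, e.a = d.a → crd d.a (-w) < e.r → d.r ≤ e.r)) := by
  have f := fin'_of_cross d.a_unit hw.1 (B_comm w d.a ▸ h1)
  have fa := Itin1_fin hw h d.a_mem
  have k0 : ∀ e : T.D, e.a = d.a → crd w d.a < crd w e.b ∧ Fin' d.a e.b ∧ e.r = crd d.a e.b :=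
    fun e he => ⟨he ▸ (Itin1_btw hw h (d := e) (he ▸ h1) (he ▸ h2)).1,
      he ▸ fin' e.a_mem e.b_mem e.a_ne_b, he ▸ rfl⟩
  have k1 : ∀ e : T.D, e.a = d.a → (crd d.a (-w) < e.r ↔ 0 < crd w e.b) := fun e he => by
    obtain ⟨l, fe, er⟩ := k0 e he
    rw [er, ← ori_pos_iff d.a_unit f.2.1 fe,
      Itin1_ori hw.1 fa (fin'_neg hw.1) (Itin1_fin hw h e.b_mem), crd_neg_self hw.1]
    refine ⟨?_, fun h3 => Or.inl ⟨h2, h3⟩⟩
    rintro (h3 | h3 | h3)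
    exacts [h3.2, h3.1, absurd h3.1 l.not_gt]
  have k2 : ∀ e : T.D, e.a = d.a → (d.r ≤ e.r ↔ crd w d.b ≤ crd w e.b) := fun e he => by
    obtain ⟨l, fe, er⟩ := k0 e he
    obtain ⟨l', fd, dr⟩ := k0 d rfl
    rw [← not_lt, ← not_lt, not_iff_not, er, dr, ← ori_pos_iff d.a_unit fe fd,
      Itin1_ori hw.1 fa (Itin1_fin hw h e.b_mem) (Itin1_fin hw h d.b_mem)]
    refine ⟨?_, fun h3 => Or.inl ⟨l, h3⟩⟩
    rintro (h3 | h3 | h3)
    exacts [h3.2, h3.1, absurd h3.1 l'.not_gt]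
  refine ⟨(Itin1_side hw h d.a_mem h1 h2).1, (Itin1_side hw h d.a_mem h1 h2).2, ?_⟩
  exact ⟨fun h3 => ⟨(k1 d rfl).2 h3.1.2, fun e he h4 => (k2 e he).2 (h3.2 e he ((k1 e he).1 h4))⟩,
    fun h3 => ⟨⟨h2, (k1 d rfl).1 h3.1⟩, fun e he h4 => (k2 e he).1 (h3.2 e he ((k1 e he).2 h4))⟩⟩

/-- Reversal of the wall exchanges first and last. -/
lemma crs_neg (hw : Per Γ w) (h : w ∉ T.A) (d : T.D) :
    (Crs (-w) (T.ι d) ↔ Crs w d) ∧ (Crs w d → (First (-w) (T.ι d) ↔ Last w d)) := by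
  obtain ⟨k, hk, e⟩ := crd_neg_left hw.1
  have e' : ∀ a ∈ T.A, crd (-w) a = -k / crd w a := fun a ha =>
    e a (fin'_of_not_mem hw h ha).1 (fin'_of_not_mem hw h ha).2.1
  have p1 : ∀ a ∈ T.A, crd (-w) a < 0 ↔ 0 < crd w a := fun a ha => by
    rw [e' a ha, neg_div, neg_lt_zero, div_pos_iff_of_pos_left hk]
  have p2 : ∀ a ∈ T.A, 0 < crd (-w) a ↔ crd w a < 0 := fun a ha => by
    rw [e' a ha, neg_div, ← div_neg, div_pos_iff_of_pos_left hk, neg_pos]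
  have p3 : ∀ a ∈ T.A, ∀ b ∈ T.A, crd w a < 0 → crd w b < 0 →
      (crd (-w) a ≤ crd (-w) b ↔ crd w a ≤ crd w b) := fun a ha b hb h1 h2 => by
    rw [e' a ha, e' b hb, neg_div, neg_div, ← div_neg, ← div_neg,
      div_le_div_iff_of_pos_left hk (neg_pos.2 h1) (neg_pos.2 h2), neg_le_neg_iff]
  refine ⟨((p1 _ d.b_mem).and (p2 _ d.a_mem)).trans and_comm, fun h1 => ⟨fun h2 u hu h3 => ?_,
    fun h2 u hu h3 => ?_⟩⟩
  · exact (p3 _ d.a_mem _ u.a_mem h1.1 h3).1 (h2 (T.ι u) hu ((p2 _ u.a_mem).2 h3))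
  · have h4 := (p2 _ u.b_mem).1 h3
    exact (p3 _ d.a_mem _ u.b_mem h1.1 h4).2 (h2 (T.ι u) hu h4)

lemma exists_first' (hw : Per Γ w) (h : w ∉ T.A) {x : V} (hx : x ∈ T.A) (h1 : |B w x| < 1)
    (h2 : crd w x < 0) : ∃ e : T.D, e.a = x ∧ Stn w e := by
  obtain ⟨d, rfl, h3⟩ := exists_first hx (Itin1_side hw h hx h1 h2).1
  have h4 := (first_iff hw h h1 h2).2.2.2 h3
  exact ⟨d, rfl, h4.1, fun _ => h4.2, fun _ => Itin1_last hw h h4.1 h1⟩

lemma exists_last (hw : Per Γ w) (h : w ∉ T.A) {y : V} (hy : y ∈ T.A) (h1 : |B w y| < 1)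
    (h2 : 0 < crd w y) : ∃ e : T.D, e.b = y ∧ Crs w e ∧ Last w e := by
  have h3 : |B (-w) y| < 1 := by rwa [B_neg_left, abs_neg]
  obtain ⟨k, hk, e⟩ := crd_neg_left hw.1
  obtain ⟨u, rfl, hu⟩ := exists_first' hw.neg (Itin1_neg h) hy h3 (by
    rw [e y (fin'_of_not_mem hw h hy).1 (fin'_of_not_mem hw h hy).2.1]
    exact div_neg_of_neg_of_pos (neg_neg_of_pos hk) h2)
  have c := (crs_neg hw h (T.ι u)).1.1 hu.1
  exact ⟨T.ι u, rfl, c, ((crs_neg hw h (T.ι u)).2 c).1 (hu.2.1 h3)⟩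
lemma jmp_spec (hw : Per Γ w) (h : w ∉ T.A) {d : T.D} (h1 : Crs w d) (h2 : |B w d.a| < 1) :
    (jmp w d).b = -d.a ∧ Stn w (jmp w d) := by
  have h3 : |B w (-d.a)| < 1 := by rwa [B_neg_right, abs_neg]
  have ex := exists_last hw h (T.ws.neg _ d.a_mem) h3 ((Itin1_cross hw h d.a_mem h2).1 h1.1)
  have hs := ex.choose_spec
  rw [jmp, dif_pos ex]
  exact ⟨hs.1, hs.2.1, fun _ => Itin1_first hw h hs.2.1 (by rwa [hs.1]), fun _ => hs.2.2⟩

lemma Itin1_τ (h : w ∉ T.A) (d : T.D) :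
    (|B w d.a| < 1 ∧ τ w d = jmp w d) ∨ (¬ |B w d.a| < 1 ∧ 0 < crd w d.c ∧ τ w d = T.φ d) ∨
      (¬ |B w d.a| < 1 ∧ ¬ 0 < crd w d.c ∧ τ w d = T.ψ d) := by
  by_cases h1 : |B w d.a| < 1
  · exact Or.inl ⟨h1, by simp [τ, kind, h, h1]⟩
  by_cases h2 : 0 < crd w d.c
  · exact Or.inr (Or.inl ⟨h1, h2, by simp [τ, kind, h, h1, h2]⟩)
  · exact Or.inr (Or.inr ⟨h1, h2, by simp [τ, kind, h, h1, h2]⟩)

lemma τ_stn (hw : Per Γ w) (h : w ∉ T.A) {d : T.D} (h1 : Stn w d) :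
    Stn w (τ w d) ∧ Le w d (τ w d) ∧ τ w d ≠ d := by
  have c := h1.1
  rcases Itin1_τ h d with ⟨h2, e⟩ | ⟨h2, h3, e⟩ | ⟨h2, h3, e⟩ <;> rw [e]
  · obtain ⟨j1, j2⟩ := jmp_spec hw h c h2
    have l : crd w d.b < crd w (jmp w d).b := j1 ▸ (crd_neg_of_cross hw h c).1 h2
    refine ⟨j2, ⟨not_lt.1 fun l' => ?_, l.le⟩, fun e' => by simp [e'] at l⟩
    exact Itin1_nc hw h (Itin1_edge d) (Itin1_edge _) l' (j2.1.1.trans c.2) l
  · have l : crd w d.b < crd w d.c :=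
      (Itin1_tri hw h d).resolve_right (c.1.trans h3).not_gt
    refine ⟨⟨⟨by simpa using c.1, h3⟩, fun h4 => absurd (by simpa using h4) h2, fun h4 => ?_⟩,
      ⟨by simp, l.le⟩, fun e' => l.ne (congrArg (fun u : T.D => crd w u.b) e').symm⟩
    have h5 := (Itin1_cross hw h d.c_mem h4).2 h3
    rcases Itin1_fac hw h (T.ψ d) with h6 | h6 | h6
    · exact absurd h6.1 l.not_gt
    · exact absurd (h6.1.trans h5) c.2.not_gt
    · exact absurd h6.2 l.not_gt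
  · have l : crd w d.c < crd w d.a :=
      (Itin1_tri hw h d).resolve_left fun l => h3 (c.2.trans l)
    refine ⟨⟨⟨l.trans c.1, c.2⟩, fun _ u hu h5 => not_lt.1 fun l' => ?_,
      fun h4 => absurd (h1.2.2 h4 (T.ψ d) rfl (l.trans c.1)) l.not_ge⟩, ⟨l.le, le_rfl⟩,
      fun e' => l.ne (congrArg (fun u : T.D => crd w u.a) e')⟩
    exact Itin1_nc hw h (Itin1_edge u) (Itin1_edge d) (hu ▸ l) (c.1.trans h5) l'
lemma no_skip (hw : Per Γ w) (h : w ∉ T.A) {d e : T.D} (h1 : Stn w d) (h2 : Stn w e)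
    (h3 : Le w d e) (h4 : d ≠ e) : Le w (τ w d) e := by
  have c := h1.1
  have c' := h2.1
  have n1 : crd w e.a = crd w d.a → crd w d.b < crd w e.b := fun e1 =>
    lt_of_le_of_ne h3.2 fun e2 => h4 (Le.antisymm hw h h3 ⟨e1.ge, e2.ge⟩)
  rcases Itin1_τ h d with ⟨h5, t⟩ | ⟨h5, h6, t⟩ | ⟨h5, h6, t⟩ <;> rw [t]
  · obtain ⟨j1, j2⟩ := jmp_spec hw h c h5
    have l : crd w e.a < crd w d.a := lt_of_le_of_ne h3.1 fun e1 => by
      have e2 := crd_inj hw h e.a_mem d.a_mem e1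
      exact (n1 e1).not_ge (h2.2.1 (e2 ▸ h5) d e2.symm c.2)
    have l' : crd w (jmp w d).b ≤ crd w e.b := j1 ▸ not_lt.1 fun l' =>
      Itin1_nc hw h (Itin1_edge e) (Itin1_wall d.a_mem) l (c.1.trans c'.2) l'
    refine (le_total' hw h j2.1 c').elim id fun h7 => ⟨?_, l'⟩
    have e3 := crd_inj hw h (jmp w d).b_mem e.b_mem (le_antisymm l' h7.2)
    exact h2.2.2 (by rwa [← e3, j1, B_neg_right, abs_neg]) _ e3 j2.1.1
  · have l : crd w d.b < crd w d.c :=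
      (Itin1_tri hw h d).resolve_right (c.1.trans h6).not_gt
    refine ⟨by simpa using h3.1, not_lt.1 fun l' => ?_⟩
    rcases h3.1.eq_or_lt with e1 | l1
    · exact Itin1_nc hw h (Itin1_edge e) (Itin1_edge (T.ν d)) (c'.1.trans c.2) (n1 e1) l'
    · exact Itin1_nc hw h (Itin1_edge e) (Itin1_edge (T.φ d)) (by simpa using l1)
        (by simpa using c.1.trans c'.2) l'
  · have l : crd w d.c < crd w d.a :=
      (Itin1_tri hw h d).resolve_left fun l => h6 (c.2.trans l)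
    refine ⟨not_lt.1 fun l' => ?_, h3.2⟩
    rcases h3.1.eq_or_lt with e1 | l1
    · exact Itin1_nc hw h (Itin1_edge (T.ψ d)) (Itin1_edge e) l' (c'.1.trans c.2) (n1 e1)
    · exact Itin1_nc hw h (Or.inl d.mem_ca) (Itin1_edge e) l' l1 (c.1.trans c'.2)

lemma Itin1_smul (hw : B w w = 1) (g : Γ) (d : T.D) :
    (Crs ((g : SL(2, ℝ)) • w) (g • d) ↔ Crs w d) ∧ (First ((g : SL(2, ℝ)) • w) (g • d) ↔ First w d) ∧
      (Last ((g : SL(2, ℝ)) • w) (g • d) ↔ Last w d) ∧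
      (0 < crd ((g : SL(2, ℝ)) • w) (g • d).c ↔ 0 < crd w d.c) := by
  obtain ⟨k, hk, e⟩ := crd_ad g hw
  have ea : ∀ u : T.D, crd ((g : SL(2, ℝ)) • w) ((g : SL(2, ℝ)) • u.a) = k * crd w u.a :=
    fun u => e _ u.a_unit
  have eb : ∀ u : T.D, crd ((g : SL(2, ℝ)) • w) ((g : SL(2, ℝ)) • u.b) = k * crd w u.b :=
    fun u => e _ u.b_unit
  have n : ∀ x : ℝ, k * x < 0 ↔ x < 0 := fun x => by
    rw [← neg_pos, ← mul_neg, mul_pos_iff_of_pos_left hk, neg_pos]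
  refine ⟨?_, ?_, ?_, ?_⟩
  · simp only [Crs, smul_a, smul_b, ea, eb, n, mul_pos_iff_of_pos_left hk]
  · rw [First, (MulAction.surjective g).forall]
    simp only [First, smul_a, smul_b, eb, smul_left_cancel_iff, mul_pos_iff_of_pos_left hk,
      mul_le_mul_iff_right₀ hk]
  · rw [Last, (MulAction.surjective g).forall]
    simp only [Last, smul_a, smul_b, ea, smul_left_cancel_iff, n, mul_le_mul_iff_right₀ hk]
  · rw [smul_c, e _ d.c_unit, mul_pos_iff_of_pos_left hk]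

lemma Itin1_smul_mem (g : Γ) : (g : SL(2, ℝ)) • w ∈ T.A ↔ w ∈ T.A :=
  ⟨fun h => inv_smul_smul (g : SL(2, ℝ)) w ▸ T.ws.inv _ (Γ.inv_mem g.2) _ h, T.ws.inv _ g.2 _⟩

lemma stn_smul (hw : B w w = 1) (g : Γ) (d : T.D) :
    Stn ((g : SL(2, ℝ)) • w) (g • d) ↔ Stn w d := by
  obtain ⟨h1, h2, h3, -⟩ := Itin1_smul hw g d
  rw [Stn, Stn, h1, h2, h3, smul_a, smul_b, B_ad, B_ad]
lemma str_smul (hw : B w w = 1) (g : Γ) (d : T.D) :
    Str ((g : SL(2, ℝ)) • w) (g • d) ↔ Str w d := by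
  rw [Str, Str, stn_smul hw, Itin1_smul_mem, smul_a, ← smul_neg, smul_left_cancel_iff]
lemma kind_smul (hw : B w w = 1) (g : Γ) (d : T.D) :
    kind ((g : SL(2, ℝ)) • w) (g • d) = kind w d := by
  simp only [kind, (Itin1_smul hw g d).2.2.2, smul_a, B_ad]
  by_cases h : w ∈ T.A
  · rw [if_pos h, if_pos ((Itin1_smul_mem g).2 h)]
  · rw [if_neg h, if_neg (mt (Itin1_smul_mem g).1 h)]
lemma kind_two {d : T.D} (h : Str w d) (hk : kind w d = 2) :
    w ∉ T.A ∧ Stn w d ∧ |B w d.a| < 1 ∧ τ w d = jmp w d := by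
  have h1 : w ∉ T.A := fun h1 => by simp [kind, h1] at hk
  have h2 : |B w d.a| < 1 := by
    by_contra h2
    by_cases h3 : 0 < crd w d.c <;> simp [kind, h1, h2, h3] at hk
  refine ⟨h1, (h.resolve_right fun e => h1 (e ▸ T.ws.neg _ d.a_mem)).2, h2, by simp [τ, hk]⟩
lemma τ_smul (hw : Per Γ w) (g : Γ) {d : T.D} (h : Str w d) :
    τ ((g : SL(2, ℝ)) • w) (g • d) = g • τ w d := by
  unfold τ
  rw [kind_smul hw.1]
  split_ifs with k0 k1
  · exact φ_smul g d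
  · exact ψ_smul g d
  · obtain ⟨h1, h2, h3, -⟩ := kind_two h (by omega)
    have hw' := hw.ad g.2
    have h1' := mt (Itin1_smul_mem g).1 h1
    have h3' : |B ((g : SL(2, ℝ)) • w) (g • d).a| < 1 := by rwa [smul_a, B_ad]
    obtain ⟨j1, j2⟩ := jmp_spec hw h1 h2.1 h3
    obtain ⟨i1, i2⟩ := jmp_spec hw' h1' ((Itin1_smul hw.1 g d).1.2 h2.1) h3'
    have j3 := (stn_smul hw.1 g _).2 j2
    have eb : (jmp ((g : SL(2, ℝ)) • w) (g • d)).b = (g • jmp w d).b := by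
      rw [i1, smul_b, j1, smul_neg, smul_a]
    have h4 : |B ((g : SL(2, ℝ)) • w) (jmp ((g : SL(2, ℝ)) • w) (g • d)).b| < 1 := by
      rwa [i1, B_neg_right, abs_neg]
    exact D.ext (crd_inj hw' h1' (D.a_mem _) (D.a_mem _) (le_antisymm
      (i2.2.2 h4 _ eb.symm j3.1.1) (j3.2.2 (eb ▸ h4) _ eb i2.1.1))) eb
lemma τ_str (hw : Per Γ w) {d : T.D} (h : Str w d) : Str w (τ w d) := by
  rcases h with h | h
  · exact Or.inl ⟨h.1, (τ_stn hw h.1 h.2).1⟩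
  · have h1 : w ∈ T.A := h ▸ T.ws.neg _ d.a_mem
    refine Or.inr ?_
    rw [show τ w d = T.φ d by simp [τ, kind, h1], φ_a, h]

end Tr

end

end Pool.Agent.P.MP_d39174_gt

end

section
/-! Periodicity of itineraries. -/

set_option linter.unusedVariables false

namespace Pool.Agent.P.MP_d39174_gt

open UpperHalfPlane MatrixGroups

noncomputable section

lemma Itin2_B {w : V} (hw : B w w = 1) (a : V) : B w a = ((fr w)⁻¹ • a).a := by
  rw [← B_ad (fr w)⁻¹, VW2_inv hw]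
  simp [B, w0]

lemma Itin2_onW (w a : V) {y : ℝ} (hy : 0 < y) :
    B a (Hy (onW w y)) = (((fr w)⁻¹ • a).c * y - ((fr w)⁻¹ • a).b / y) / 2 := by
  rw [VW2_onW w hy, B_ad_right]
  simp only [B]
  ring

lemma exists_near {w a : V} (hw : B w w = 1) (ha : B a a = 1) {M : ℝ} (hM : 1 ≤ M)
    (h : |B w a| ≤ M) : ∃ z : ℍ, B w (Hy z) = 0 ∧ |B a (Hy z)| ≤ M := by
  rw [Itin2_B hw] at h
  have h1 : B ((fr w)⁻¹ • a) ((fr w)⁻¹ • a) = 1 := by rwa [B_ad]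
  have key : ∃ y : ℝ, 0 < y ∧ |((fr w)⁻¹ • a).c| * y ≤ M ∧ |((fr w)⁻¹ • a).b| / y ≤ M := by
    generalize (fr w)⁻¹ • a = v at h h1
    by_cases hc : v.c = 0
    · refine ⟨|v.b| + 1, by positivity, by rw [hc]; simp; linarith, ?_⟩
      rw [div_le_iff₀ (by positivity)]
      nlinarith [abs_nonneg v.b]
    · have hc' : 0 < |v.c| := abs_pos.2 hc
      refine ⟨M / |v.c|, by positivity, by rw [mul_div_cancel₀ _ hc'.ne'], ?_⟩
      rw [div_div_eq_mul_div, div_le_iff₀ (by linarith), ← abs_mul, abs_le]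
      have h2 := sq_le_sq' (abs_le.1 h).1 (abs_le.1 h).2
      unfold B at h1
      constructor <;> nlinarith [sq_nonneg v.a]
  obtain ⟨y, hy, k1, k2⟩ := key
  refine ⟨onW w y, B_onW_self hw hy, ?_⟩
  rw [Itin2_onW w a hy, abs_div, abs_two, div_le_iff₀ two_pos]
  refine (abs_sub _ _).trans ?_
  rw [abs_mul, abs_div, abs_of_pos hy]
  linarith

lemma finite_near {Γ : Subgroup SL(2, ℝ)} {S : Set V} (hS : LF S) (uS : ∀ n ∈ S, B n n = 1)
    (iS : ∀ g ∈ Γ, ∀ n ∈ S, g • n ∈ S) {w : V} (hw : Per Γ w) (M : ℝ) {r₁ : ℝ} (r₂ : ℝ)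
    (h : 0 < r₁) : {a | a ∈ S ∧ |B w a| ≤ M ∧ r₁ ≤ |crd w a| ∧ |crd w a| ≤ r₂}.Finite := by
  refine (hS (onW w 1) (((1 + M) / r₁ + (1 + M) * r₂) / 2)).subset ?_
  rintro a ⟨ha, h1, h2, h3⟩
  refine ⟨ha, ?_⟩
  obtain ⟨e1, e2⟩ := VW2_E (fr w)⁻¹ (uS a ha)
  rw [Itin2_B hw.1] at h1
  rw [Itin2_onW w a one_pos]
  have e0 : crd w a = ((fr w)⁻¹ • ev a).p / ((fr w)⁻¹ • ev a).q := rfl
  generalize (fr w)⁻¹ • ev a = x at e0 e1 e2
  generalize (fr w)⁻¹ • a = v at h1 e1 e2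
  generalize crd w a = r at e0 h2 h3
  have hq : x.q ≠ 0 := fun hq => by
    rw [hq, div_zero] at e0
    rw [e0, abs_zero] at h2
    linarith
  have hp : x.p = r * x.q := by rw [e0, div_mul_cancel₀ _ hq]
  rw [hp] at e1 e2
  have f1 : v.b = (1 - v.a) * r := mul_right_cancel₀ hq (by linear_combination e1)
  have f2 : v.c * r = 1 + v.a := mul_right_cancel₀ hq (by linear_combination e2)
  have hM := abs_nonneg v.a
  have g1 : |v.b| ≤ (1 + M) * r₂ := by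
    rw [f1, abs_mul]
    exact mul_le_mul ((abs_sub _ _).trans (by rw [abs_one]; linarith)) h3 (abs_nonneg _)
      (by linarith)
  have g2 : |v.c| ≤ (1 + M) / r₁ := by
    rw [le_div_iff₀ h]
    refine (mul_le_mul_of_nonneg_left h2 (abs_nonneg _)).trans ?_
    rw [← abs_mul, f2]
    exact (abs_add_le _ _).trans (by rw [abs_one]; linarith)
  rw [mul_one, div_one, abs_div, abs_two]
  linarith [abs_sub v.c v.b]

/-- There are walls of the system on the positive side of every wall. -/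
lemma Itin2_side {Γ : Subgroup SL(2, ℝ)} (hn : Nice Γ) {A : Set V} (hA : WallSys Γ A) {v : V}
    (hv : B v v = 1) : ∃ a ∈ A, ∃ p, Fut p ∧ B a p = 0 ∧ 0 < B v p := by
  obtain ⟨a₀, h₀⟩ := hA.ne
  obtain ⟨R, hR⟩ := hn.near_wall (hA.per _ h₀).1
  have hb : B (⟨R + 1, 1 + (R + 1) ^ 2, -1⟩ : V) ⟨R + 1, 1 + (R + 1) ^ 2, -1⟩ = -1 := by
    simp only [B]
    ring
  have hf : Fut (⟨R + 1, 1 + (R + 1) ^ 2, -1⟩ : V) := ⟨by rw [hb]; norm_num, by positivity⟩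
  have hz : B v (Hy (fr v • pt (⟨R + 1, 1 + (R + 1) ^ 2, -1⟩ : V))) = R + 1 := by
    rw [Hy_smul, Hy_pt_unit hf hb, Itin2_B hv, inv_smul_smul]
  generalize fr v • pt (⟨R + 1, 1 + (R + 1) ^ 2, -1⟩ : V) = z at hz
  obtain ⟨g, hg, h1⟩ := hR z
  have ha := hA.inv g hg _ h₀
  obtain ⟨y, hy, hd, -⟩ := exists_foot (hA.per _ ha).1 z
  refine ⟨_, ha, Hy y, Hy_fut y, hy, ?_⟩
  have h2 := (abs_le.1 (lip hv z y)).2
  have h3 : Real.arsinh |B (g • a₀) (Hy z)| < Real.arsinh (R + 1) :=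
    Real.arsinh_lt_arsinh.2 (by linarith)
  rw [hz, hd] at h2
  exact Real.arsinh_pos_iff.1 (by linarith)

namespace Tr

variable {Γ : Subgroup SL(2, ℝ)} {T : Tr Γ} {w : V}

lemma Itin2_same (hw : Per Γ w) (h : w ∉ T.A) {a : V} (ha : a ∈ T.A) (h2 : ¬ |B w a| < 1) :
    0 < crd w a * crd w (-a) := by
  obtain ⟨f1, -, n1, -⟩ := fin'_of_not_mem hw h ha
  obtain ⟨f2, -, n2, -⟩ := fin'_of_not_mem hw h (T.ws.neg _ ha)
  exact lt_of_le_of_ne (not_lt.1 fun e => h2 ((cross_iff_crd hw.1 (unit ha) f1 f2).2 e))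
    (mul_ne_zero n1 n2).symm

/-- Facing relations at an ordinary station. -/
lemma fac_of_crs (hw : Per Γ w) (h : w ∉ T.A) {d : T.D} (h1 : Crs w d) (h2 : ¬ |B w d.a| < 1)
    (h3 : ¬ |B w d.b| < 1) : Fac w d.a ∧ Fac d.a w ∧ Fac (-w) d.b ∧ Fac d.b w := by
  have fa := (fin'_of_not_mem hw h d.a_mem).1
  have fa' := (fin'_of_not_mem hw h (T.ws.neg _ d.a_mem)).1
  have fb := (fin'_of_not_mem hw h d.b_mem).1
  have fb' := (fin'_of_not_mem hw h (T.ws.neg _ d.b_mem)).1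
  have fw := fin'_neg hw.1
  obtain ⟨ra, rb⟩ := h1
  have ra' : crd w (-d.a) < 0 := (neg_iff_neg_of_mul_pos (Itin2_same hw h d.a_mem h2)).1 ra
  have rb' : 0 < crd w (-d.b) := (pos_iff_pos_of_mul_pos (Itin2_same hw h d.b_mem h3)).1 rb
  have la : crd w (-d.a) < crd w d.a := by
    obtain ⟨k, hk, e⟩ := ori_crd hw.1 fa fb fa'
    have := d.fac.1
    rw [e] at this
    have h4 := (pos_iff_pos_of_mul_pos this).1 hk
    have h5 : (crd w d.a - crd w d.b) * (crd w d.b - crd w (-d.a)) < 0 :=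
      mul_neg_of_neg_of_pos (by linarith) (by linarith)
    linarith [(neg_iff_neg_of_mul_pos h4).1 h5]
  have lb : crd w (-d.b) < crd w d.b := by
    obtain ⟨k, hk, e⟩ := ori_crd hw.1 fb fa fb'
    have : 0 < ori d.b d.a (-d.b) := (T.ι d).fac.1
    rw [e] at this
    have h4 := (pos_iff_pos_of_mul_pos this).1 hk
    have h5 : (crd w d.b - crd w d.a) * (crd w d.a - crd w (-d.b)) < 0 :=
      mul_neg_of_pos_of_neg (by linarith) (by linarith)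
    linarith [(neg_iff_neg_of_mul_pos h4).1 h5]
  have key : ∀ a, Fin' w a → Fin' w (-a) → 0 < crd w a * crd w (-a) → crd w (-a) < crd w a →
      Fac a w := fun a f f' p l => by
    constructor
    · rw [← ori_cyc]
      exact (ori_pos_iff hw.1 f' f).2 l
    · obtain ⟨k, hk, e⟩ := ori_crd hw.1 f fw f'
      rw [e, crd_neg_self hw.1]
      exact mul_pos hk (mul_pos_of_neg_of_neg (by linarith) (by linarith))
  exact ⟨(fac_iff_crd hw.1 fa fa').1.2 ⟨ra, ra'⟩, key _ fa fa' (mul_pos_of_neg_of_neg ra ra') la,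
    (fac_iff_crd hw.1 fb fb').2.2 ⟨rb, rb'⟩, key _ fb fb' (mul_pos rb rb') lb⟩

lemma exists_stn (hw : Per Γ w) (h : w ∉ T.A) : ∃ d : T.D, Stn w d := by
  by_cases hc : ∃ a ∈ T.A, |B w a| < 1
  · obtain ⟨a, ha, h1⟩ := hc
    have ha' := T.ws.neg _ ha
    have h2 := (cross_iff_crd hw.1 (unit ha) (fin'_of_not_mem hw h ha).1
      (fin'_of_not_mem hw h ha').1).1 h1
    rcases mul_neg_iff.1 h2 with h3 | h3
    · obtain ⟨e, -, he⟩ := exists_first' hw h ha' (by rwa [B_neg_right, abs_neg]) h3.2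
      exact ⟨e, he⟩
    · obtain ⟨e, -, he⟩ := exists_first' hw h ha h1 h3.1
      exact ⟨e, he⟩
  have hc' : ∀ a ∈ T.A, ¬ |B w a| < 1 := fun a ha e => hc ⟨a, ha, e⟩
  have h1 : ∀ a ∈ T.A, 1 < |B w a| := fun a ha =>
    lt_of_le_of_ne (not_lt.1 (hc' a ha)) (fin'_of_not_mem hw h ha).2.2.2.symm
  by_contra hn
  have hd : ∀ a b, (a, b) ∈ T.E → crd w a < 0 → ¬ 0 < crd w b := fun a b e l l' =>
    hn ⟨⟨(a, b), e⟩, ⟨l, l'⟩, fun x => (hc' _ (D.a_mem _) x).elim,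
      fun x => (hc' _ (D.b_mem _) x).elim⟩
  obtain ⟨a, ha, p, hp, e1, e2⟩ := Itin2_side T.nice T.ws hw.1
  obtain ⟨b, hb, q, hq, e3, e4⟩ := Itin2_side T.nice T.ws (v := -w) (by simpa using hw.1)
  have la := ((fac_iff_crd hw.1 (fin'_of_not_mem hw h ha).1
    (fin'_of_not_mem hw h (T.ws.neg _ ha)).1).1.1
    (fac_of_point hw.1 (unit ha) (h1 a ha) hp e1 e2)).1
  have lb := ((fac_iff_crd hw.1 (fin'_of_not_mem hw h hb).1
    (fin'_of_not_mem hw h (T.ws.neg _ hb)).1).2.1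
    (fac_of_point (by simpa using hw.1) (unit hb) (by simpa using h1 b hb) hq e3 e4)).1
  have := T.conn {x | x ∈ T.A ∧ crd w x < 0}
    (fun x hx => ⟨T.ws.neg _ hx.1,
      (neg_iff_neg_of_mul_pos (Itin2_same hw h hx.1 (hc' _ hx.1))).1 hx.2⟩)
    (fun x hx y e => ⟨(T.del _ e).2.1, lt_of_le_of_ne (not_lt.1 (hd x y e hx.2))
      (fin'_of_not_mem hw h (T.del _ e).2.1).2.2.1⟩) ⟨a, ha, ha, la⟩ hb
  exact lt_asymm lb this.2

lemma finite_stn (hw : Per Γ w) (h : w ∉ T.A) {d e : T.D} (h1 : Crs w d) :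
    {x : T.D | Stn w x ∧ Le w d x ∧ Le w x e}.Finite := by
  obtain ⟨F, hF⟩ := T.fin
  obtain ⟨F', hF'⟩ := T.ws.fin
  have lf : LF T.A := T.nice.lf_of_fin T.ws.per hF'
  obtain ⟨M, hM1, hM⟩ : ∃ M : ℝ, 1 ≤ M ∧ ∀ x : T.D, -B x.a x.b ≤ M := by
    have h0 : 0 ≤ ∑ y ∈ F, |B y.1 y.2| := Finset.sum_nonneg fun _ _ => abs_nonneg _
    refine ⟨1 + ∑ y ∈ F, |B y.1 y.2|, by linarith, fun x => ?_⟩
    obtain ⟨g, -, y, hy, e⟩ := hF x.1 x.2
    have e1 : B x.a x.b = B y.1 y.2 := by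
      rw [D.a, D.b, e, B_ad]
    have := Finset.single_le_sum (f := fun y : V × V => |B y.1 y.2|) (fun _ _ => abs_nonneg _) hy
    linarith [neg_abs_le (B y.1 y.2)]
  have Fa := finite_near lf (fun _ => unit) T.ws.inv hw M (-crd w e.a) (neg_pos.2 h1.1)
  have Fb := finite_near lf (fun _ => unit) T.ws.inv hw M (crd w e.b) h1.2
  have ma : ∀ x : T.D, Stn w x ∧ Le w d x ∧ Le w x e → |B w x.a| ≤ M → x.a ∈ {a | a ∈ T.A ∧
      |B w a| ≤ M ∧ -crd w d.a ≤ |crd w a| ∧ |crd w a| ≤ -crd w e.a} := fun x hx l =>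
    ⟨x.a_mem, l, by rw [abs_of_neg hx.1.1.1]; linarith [hx.2.1.1],
      by rw [abs_of_neg hx.1.1.1]; linarith [hx.2.2.1]⟩
  have mb : ∀ x : T.D, Stn w x ∧ Le w d x ∧ Le w x e → |B w x.b| ≤ M → x.b ∈ {a | a ∈ T.A ∧
      |B w a| ≤ M ∧ crd w d.b ≤ |crd w a| ∧ |crd w a| ≤ crd w e.b} := fun x hx l =>
    ⟨x.b_mem, l, by rw [abs_of_pos hx.1.1.2]; exact hx.2.1.2,
      by rw [abs_of_pos hx.1.1.2]; exact hx.2.2.2⟩
  have A1 : {x : T.D | (Stn w x ∧ Le w d x ∧ Le w x e) ∧ |B w x.a| < 1}.Finite := by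
    refine Set.Finite.of_injOn (f := D.a) (fun x hx => ma x hx.1 (hx.2.le.trans hM1))
      (fun x hx y hy l => D.ext l (crd_inj hw h x.b_mem y.b_mem (le_antisymm ?_ ?_))) Fa
    · exact hx.1.1.2.1 hx.2 y l.symm hy.1.1.1.2
    · exact hy.1.1.2.1 hy.2 x l hx.1.1.1.2
  have A2 : {x : T.D | (Stn w x ∧ Le w d x ∧ Le w x e) ∧ |B w x.b| < 1}.Finite := by
    refine Set.Finite.of_injOn (f := D.b) (fun x hx => mb x hx.1 (hx.2.le.trans hM1))
      (fun x hx y hy l => D.ext (crd_inj hw h x.a_mem y.a_mem (le_antisymm ?_ ?_)) l) Fb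
    · exact hx.1.1.2.2 hx.2 y l.symm hy.1.1.1.1
    · exact hy.1.1.2.2 hy.2 x l hx.1.1.1.1
  have A3 : {x : T.D | (Stn w x ∧ Le w d x ∧ Le w x e) ∧ ¬ |B w x.a| < 1 ∧
      ¬ |B w x.b| < 1}.Finite := by
    refine Set.Finite.of_injOn (f := fun x => (x.a, x.b)) (fun x hx => ?_)
      (fun x _ y _ l => D.ext (congrArg Prod.fst l) (congrArg Prod.snd l)) (Fa.prod Fb)
    obtain ⟨k1, k2, k3, k4⟩ := fac_of_crs hw h hx.1.1.1 hx.2.1 hx.2.2
    obtain ⟨l1, l2, l3⟩ := B_le_mul hw.1 x.a_unit x.b_unit k1 k2 k3 k4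
    have l4 := hM x
    refine ⟨ma x hx.1 ?_, mb x hx.1 ?_⟩
    · rw [abs_of_neg (by linarith)]
      nlinarith
    · rw [abs_of_pos (by linarith)]
      nlinarith
  refine ((A1.union A2).union A3).subset fun x hx => ?_
  by_cases c1 : |B w x.a| < 1
  · exact Or.inl (Or.inl ⟨hx, c1⟩)
  by_cases c2 : |B w x.b| < 1
  · exact Or.inl (Or.inr ⟨hx, c2⟩)
  exact Or.inr ⟨hx, c1, c2⟩

lemma Itin2_trans {x y z : T.D} (h1 : Le w x y) (h2 : Le w y z) : Le w x z :=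
  ⟨h2.1.trans h1.1, h1.2.trans h2.2⟩

lemma Itin2_iter (hw : Per Γ w) (h : w ∉ T.A) (q : ℕ) {x : T.D} (hx : Stn w x) :
    Stn w ((τ w)^[q] x) ∧ Le w x ((τ w)^[q] x) := by
  induction q with
  | zero => exact ⟨hx, le_rfl, le_rfl⟩
  | succ q ih =>
    rw [Function.iterate_succ_apply']
    exact ⟨(τ_stn hw h ih.1).1, Itin2_trans ih.2 (τ_stn hw h ih.1).2.1⟩

lemma Itin2_reach (hw : Per Γ w) (h : w ∉ T.A) {e : T.D} (he : Stn w e) (n : ℕ) :
    ∀ x : T.D, Stn w x → Le w x e → {y : T.D | Stn w y ∧ Le w x y ∧ Le w y e}.ncard = n →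
      ∃ p : ℕ, (τ w)^[p] x = e ∧ ∀ q < p, Le w ((τ w)^[q] x) e ∧ (τ w)^[q] x ≠ e := by
  induction n using Nat.strong_induction_on with
  | _ n ih =>
  intro x hx hl hn
  by_cases hxe : x = e
  · exact ⟨0, hxe, fun q hq => absurd hq (Nat.not_lt_zero q)⟩
  obtain ⟨s1, s2, s3⟩ := τ_stn hw h hx
  obtain ⟨p, p1, p2⟩ := ih _ (hn ▸ Set.ncard_lt_ncard ⟨fun y hy => ⟨hy.1, Itin2_trans s2 hy.2.1,
      hy.2.2⟩, fun hs => s3 (Le.antisymm hw h (hs ⟨hx, ⟨le_rfl, le_rfl⟩, hl⟩).2.1 s2)⟩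
    (finite_stn hw h hx.1)) (τ w x) s1 (no_skip hw h hx he hl hxe) rfl
  refine ⟨p + 1, p1, fun q hq => ?_⟩
  cases q with
  | zero => exact ⟨hl, hxe⟩
  | succ q => exact p2 q (by omega)

/-- After finitely many steps the itinerary reaches the translate, and no translate earlier. -/
theorem itin {t : ℝ} (hw : Prim Γ w t) {d : T.D} (h : Str w d) {γ : Γ} (e : PM (ex t w) γ) :
    ∃ p : ℕ, 0 < p ∧ (τ w)^[p] d = γ • d ∧
      ∀ q, 0 < q → q < p → ∀ g : Γ, (g : SL(2, ℝ)) • w = w → (τ w)^[q] d ≠ g • d := by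
  rcases h with ⟨h, hd⟩ | h
  · have hp : Per Γ w := ⟨hw.unit, t, hw.pos, hw.mem⟩
    have hc : ∀ (s : ℝ) (g : Γ), PM (ex s w) g →
        crd w (g • d).a = Real.exp (2 * s) * crd w d.a ∧
          crd w (g • d).b = Real.exp (2 * s) * crd w d.b := fun s g k => by
      rw [smul_a, smul_b, ← k.ad, ← k.ad]
      exact ⟨crd_ex hw.unit d.a_unit s, crd_ex hw.unit d.b_unit s⟩
    have hγ : (γ : SL(2, ℝ)) • w = w := by rw [← e.ad, ex_ad_self]
    have he : Stn w (γ • d) := by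
      have := (stn_smul hw.unit γ d).2 hd
      rwa [hγ] at this
    have h1 : 1 < Real.exp (2 * t) := Real.one_lt_exp_iff.2 (by linarith [hw.pos])
    obtain ⟨ra, rb⟩ := hd.1
    obtain ⟨c1, c2⟩ := hc t γ e
    have hne : d ≠ γ • d := fun k => by
      rw [← k] at c2
      nlinarith
    obtain ⟨p, p1, p2⟩ := Itin2_reach hp h he _ d hd
      ⟨by rw [c1]; nlinarith, by rw [c2]; nlinarith⟩ rfl
    refine ⟨p, Nat.pos_of_ne_zero fun k => hne (by rw [← p1, k]; rfl), p1,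
      fun q q0 q1 g hg k => ?_⟩
    obtain ⟨m, hm⟩ := hw.gen g g.2 hg
    obtain ⟨-, c3⟩ := hc _ g hm
    obtain ⟨l1, l2⟩ := p2 q q1
    have l3 := (Itin2_iter hp h q hd).2
    rw [k] at l1 l2 l3
    have m1 : (m : ℝ) * t ≤ t := by
      have := l1.2
      rw [c2, c3] at this
      linarith [Real.exp_le_exp.1 (le_of_mul_le_mul_right this rb)]
    have m0 : 0 ≤ (m : ℝ) * t := by
      have := l3.2
      rw [c3] at this
      have h2 : 1 ≤ Real.exp (2 * (m * t)) := le_of_mul_le_mul_right (by linarith) rb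
      linarith [Real.one_le_exp_iff.1 h2]
    have m2 : (m : ℝ) ≤ 1 := le_of_mul_le_mul_right (by linarith) hw.pos
    have m3 : 0 ≤ (m : ℝ) := le_of_mul_le_mul_right (by linarith) hw.pos
    have m4 : m = 0 ∨ m = 1 := by
      have a1 : m ≤ 1 := by exact_mod_cast m2
      have a2 : 0 ≤ m := by exact_mod_cast m3
      omega
    rcases m4 with rfl | rfl
    · rw [Int.cast_zero, zero_mul, ex_zero] at hm
      rw [← smul_of_pm (g := 1) hm d, one_smul] at k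
      obtain ⟨q, rfl⟩ := Nat.exists_eq_succ_of_ne_zero q0.ne'
      obtain ⟨s1, s2, s3⟩ := τ_stn hp h hd
      have := (Itin2_iter hp h q s1).2
      rw [← Function.iterate_succ_apply, k] at this
      exact s3 (Le.antisymm hp h this s2)
    · rw [Int.cast_one, one_mul] at hm
      exact l2 (smul_of_pm (hm.symm.trans e) d)
  · have hA : w ∈ T.A := h ▸ T.ws.neg _ d.a_mem
    have hτ : τ (T := T) w = T.φ := funext fun x => by simp [τ, kind, hA]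
    have hw' : Prim Γ d.a t := by
      have e1 : d.a = -w := by rw [h, neg_neg]
      refine ⟨d.a_unit, hw.pos, ?_, fun g hg k => ?_⟩
      · rw [e1, ex_neg_right, ex_neg]
        exact Γ.inv_mem hw.mem
      · rw [e1, smul_neg, neg_inj] at k
        obtain ⟨m, hm⟩ := hw.gen g hg k
        refine ⟨-m, ?_⟩
        rwa [e1, ex_neg_right, Int.cast_neg, neg_mul, neg_neg]
    rw [h, ex_neg_right] at e
    rw [hτ]
    refine ⟨d.f, d.f_pos, d.f_spec hw' e, fun q q0 q1 g _ k => ?_⟩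
    have h1 : (d.f : ℤ) ∣ q := (d.f_dvd q).1 ⟨g, by rw [zpow_natCast]; exact k⟩
    exact absurd (Nat.le_of_dvd q0 (Int.natCast_dvd_natCast.1 h1)) (not_le.2 q1)

end Tr

end

end Pool.Agent.P.MP_d39174_gt

end

section
/-! Strip deformations lengthen all walls that do not cross the system. -/

namespace Pool.Agent.P.MP_d39174_gt

open UpperHalfPlane MatrixGroups

noncomputable section

namespace Tr

variable {Γ : Subgroup SL(2, ℝ)} {T : Tr Γ}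

def stripQ (d : T.D) : ℝ := B d.a d.b ^ 2 - 1

def stripC (d : T.D) : ℝ := ∑ m ∈ Finset.range d.f, stripQ ((T.φ ^ (m + 1)) d)

def stripJ (d : T.D) : V := (stripC (T.ι d))⁻¹ • (d.b - B d.a d.b • d.a) -
  (stripC d)⁻¹ • (d.a - B d.a d.b • d.b)

lemma stripQ_pos (d : T.D) : 0 < stripQ d := by
  have := d.B_lt
  unfold stripQ
  nlinarith

lemma stripQ_smul (g : Γ) (d : T.D) : stripQ (g • d) = stripQ d := by
  simp only [stripQ, smul_a, smul_b, B_ad]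

lemma stripC_pos (d : T.D) : 0 < stripC d :=
  Finset.sum_pos (fun _ _ => stripQ_pos _) (Finset.nonempty_range_iff.2 d.f_pos.ne')

lemma stripC_smul (g : Γ) (d : T.D) : stripC (g • d) = stripC d := by
  simp only [stripC, f_smul, φ_pow_smul, stripQ_smul]

lemma stripC_φ (d : T.D) : stripC (T.φ d) = stripC d := by
  obtain ⟨g, hg⟩ := (d.f_dvd d.f).2 dvd_rfl
  rw [zpow_natCast] at hg
  have h1 := Finset.sum_range_succ (fun m => stripQ ((T.φ ^ (m + 1)) d)) d.f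
  rw [Finset.sum_range_succ', pow_succ' _ d.f, Equiv.Perm.mul_apply, hg, φ_smul, stripQ_smul,
    zero_add, pow_one, add_left_inj] at h1
  rw [stripC, f_eq (φ_a d)]
  exact h1

lemma stripC_pow (d : T.D) (m : ℕ) : stripC ((T.φ ^ m) d) = stripC d := by
  induction m with
  | zero => rfl
  | succ m ih => rw [pow_succ', Equiv.Perm.mul_apply, stripC_φ, ih]

lemma stripJ_ι (d : T.D) : stripJ (T.ι d) = -stripJ d := by
  simp only [stripJ, ι_a, ι_b, ι_ι, neg_sub, B_comm d.b]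

lemma stripJ_smul (g : Γ) (d : T.D) : stripJ (g • d) = (g : SL(2, ℝ)) • stripJ d := by
  simp only [stripJ, ι_smul, stripC_smul, smul_a, smul_b, B_ad, smul_sub, ad_real]

lemma stripJ_a (d : T.D) : B (stripJ d) d.a = (stripC d)⁻¹ * stripQ d := by
  simp only [stripJ, stripQ, B_sub_left, B_smul_left, d.a_unit, B_comm d.b]
  ring

lemma stripJ_sum (d : T.D) :
    B (∑ m ∈ Finset.range d.f, stripJ ((T.φ ^ (m + 1)) d)) d.a = 1 := by
  rw [B_sum_left, ← inv_mul_cancel₀ (stripC_pos d).ne', stripC.eq_1 d, Finset.mul_sum]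
  refine Finset.sum_congr rfl fun m _ => ?_
  rw [← φ_pow_a d (m + 1), stripJ_a, stripC_pow, stripC]

lemma stripJ_neg {w : V} (hw : Per Γ w) (h : w ∉ T.A) (h' : ∀ a ∈ T.A, ¬ |B w a| < 1) {d : T.D}
    (h1 : Crs w d) : B (stripJ d) w < 0 := by
  obtain ⟨a1, a2, a3, a4⟩ := fac_of_crs hw h h1 (h' _ d.a_mem) (h' _ d.b_mem)
  obtain ⟨b1, b2, b3⟩ := B_le_mul hw.1 d.a_unit d.b_unit a1 a2 a3 a4
  simp only [stripJ, B_sub_right, B_smul_right, B_comm _ w]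
  have c1 : 0 < B w d.a - B d.a d.b * B w d.b := by
    nlinarith [mul_pos (neg_pos.2 (b1.trans (by norm_num : (-1 : ℝ) < 0)))
      (by nlinarith : 0 < B w d.b ^ 2 - 1)]
  have c2 : B w d.b - B d.a d.b * B w d.a < 0 := by
    nlinarith [mul_pos (one_pos.trans b2) (by nlinarith : 0 < B w d.a ^ 2 - 1)]
  linarith [mul_pos (inv_pos.2 (stripC_pos d)) c1,
    mul_neg_of_pos_of_neg (inv_pos.2 (stripC_pos (T.ι d))) c2]

theorem strip_pos {m : V} (hA : ∀ a ∈ T.A, Eqw Γ m a) : ∃ u, Coc Γ u ∧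
    ∀ w t, Prim Γ w t → (∀ a ∈ T.A, ¬ |B w a| < 1) → 0 < B (u (ex t w)) w := by
  obtain ⟨K, k1, k2, k3⟩ := exK_V (T := T) stripJ stripJ_smul fun d d' _ => by
    rw [stripJ_sum, stripJ_sum]
  obtain ⟨Φ, u, hu, p1, p2, -, p3⟩ := pot_coc stripJ K stripJ_ι k2 k3 stripJ_smul k1
  have p4 : ∀ d, Φ (T.ι d) = Φ d - stripJ (T.ι d) := fun d => by
    rw [p2, stripJ_ι, sub_neg_eq_add]
  have p5 : ∀ d, Φ (T.φ d) = Φ d - stripJ (T.φ d) := fun d => by rw [φ_apply, p4, p1, p1]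
  have p6 : ∀ d, Φ (T.ψ d) = Φ d - stripJ (T.ψ d) := fun d => by rw [ψ_apply, p4, p1]
  refine ⟨u, hu, fun w t hw h' => ?_⟩
  have hp : Per Γ w := ⟨hw.unit, t, hw.pos, hw.mem⟩
  have step : ∀ d : T.D, Str w d → B (Φ d) w < B (Φ (τ w d)) w := fun d hd => by
    by_cases h : w ∈ T.A
    · obtain rfl : w = -d.a := hd.resolve_left fun e => e.1 h
      have h1 := mul_pos (inv_pos.2 (stripC_pos (T.φ d))) (stripQ_pos (T.φ d))
      rw [← stripJ_a, φ_a] at h1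
      simp only [τ, kind, if_pos h, if_true, p5, B_sub_left, B_neg_right]
      linarith
    · have h1 := stripJ_neg hp h h' (τ_stn hp h
        (hd.resolve_right fun e => h (e ▸ T.ws.neg _ d.a_mem)).2).1.1
      have h2 : Φ (τ w d) = Φ d - stripJ (τ w d) := by
        by_cases h3 : 0 < crd w d.c <;> simp [τ, kind, h, h' _ d.a_mem, h3, p5, p6]
      rw [h2, B_sub_left]
      linarith
  obtain ⟨d, hd⟩ : ∃ d : T.D, Str w d := by
    by_cases h : w ∈ T.A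
    · obtain ⟨b, hb⟩ := T.has _ (T.ws.neg _ h)
      exact ⟨⟨_, hb⟩, Or.inr (neg_neg w).symm⟩
    · obtain ⟨d, hd⟩ := exists_stn hp h
      exact ⟨d, Or.inl ⟨h, hd⟩⟩
  obtain ⟨p, h0, h1, -⟩ := itin hw hd (γ := ⟨_, hw.mem⟩) (PM.refl _)
  have h2 : ∀ n, Str w ((τ w)^[n] d) := fun n =>
    Function.Iterate.rec (Str w) hd (fun _ => τ_str hp) n
  have h3 := strictMono_nat_of_lt_succ (f := fun n => B (Φ ((τ w)^[n] d)) w) (fun n => by
    rw [Function.iterate_succ_apply']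
    exact step _ (h2 n)) h0
  simp only [h1, p3, B_add_left, B_ex_ad, Function.iterate_zero_apply] at h3
  linarith

end Tr

end

end Pool.Agent.P.MP_d39174_gt

end

section
/-! The systoles of a critical point fill. -/

namespace Pool.Agent.P.MP_d39174_gt

open UpperHalfPlane MatrixGroups

noncomputable section

variable {Γ : Subgroup SL(2, ℝ)} {l : ℝ}

theorem fill (h : Nice Γ) (s : Sys Γ l) (c : CritV Γ l) {m : V} (hm : Per Γ m) :
    ∃ n ∈ SS Γ l, |B n m| < 1 := by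
  by_contra hc
  push Not at hc
  obtain ⟨m', hw, hu⟩ := exists_simple_unc h (fun n hn => SS.per s.pos hn)
    (fun g hg n hn => SS.ad hn hg) (fun n hn => SS.neg hn) hm (fun n hn => not_lt.2 (hc n hn))
  obtain ⟨T, hT⟩ := exists_tr h hw
  obtain ⟨u, hu1, hu2⟩ := Tr.strip_pos (T := T) (m := m') (fun a ha => by rwa [hT] at ha)
  obtain ⟨F, h1, h2, c, h3, h4⟩ := c
  obtain ⟨n, hn⟩ := s.ne
  obtain ⟨n', hn', -⟩ := h2 n hn
  refine absurd (h4 u hu1) (ne_of_gt (Finset.sum_pos (fun i hi => mul_pos (h3 i hi)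
    (hu2 i l (s.prim h (h1 i hi)) fun a ha => hu i (h1 i hi) a (by rwa [hT] at ha)))
    ⟨n', hn'.1⟩))

theorem connS (h : Nice Γ) (s : Sys Γ l) (c : CritV Γ l) (U : Set V)
    (hU : ∀ x ∈ U, ∀ y ∈ SS Γ l, (|B x y| < 1 ∨ y = -x) → y ∈ U) (ne : ∃ x ∈ SS Γ l, x ∈ U) :
    SS Γ l ⊆ U :=
  conn_cross h (h.lf_SS s.pos) (fun _ hn => SS.per s.pos hn) (fun _ hn => SS.neg hn)
    (fun _ hp hg _ hx => ray_crossed h (h.lf_SS s.pos) (fun _ hn => hn.1)
      (fun _ hg _ hn => SS.ad hn hg) (fun _ hm => fill h s c hm) hp hg hx) U hU ne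

end

end Pool.Agent.P.MP_d39174_gt

end

section
/-! The number of darts is bounded by the first Betti number. -/

namespace Pool.Agent.P.MP_d39174_gt

open UpperHalfPlane MatrixGroups

noncomputable section

open Module Finset

lemma betti_lin {P H A K : Type} [AddCommGroup P] [Module ℝ P] [AddCommGroup H] [Module ℝ H]
    [AddCommGroup A] [Module ℝ A] [AddCommGroup K] [Module ℝ K] [Module.Finite ℝ H]
    [Module.Finite ℝ A] [Module.Finite ℝ K] (i : P →ₗ[ℝ] H) (hi : Function.Injective i)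
    (Ψ : P →ₗ[ℝ] A × K) (L : A →ₗ[ℝ] K) (h : ∀ a k, L a = 0 → ∃ Φ, Ψ Φ = (a, k)) :
    finrank ℝ A ≤ finrank ℝ H := by
  have := Module.Finite.of_injective i hi
  have h1 := (L ∘ₗ LinearMap.fst ℝ A K).finrank_range_add_finrank_ker
  have h2 := Submodule.finrank_mono (show LinearMap.ker (L ∘ₗ LinearMap.fst ℝ A K) ≤
    LinearMap.range Ψ from fun v hv => h v.1 v.2 hv)
  have h3 := Ψ.finrank_range_le
  have h4 := LinearMap.finrank_le_finrank_of_injective hi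
  have h5 := (LinearMap.range (L ∘ₗ LinearMap.fst ℝ A K)).finrank_le
  rw [finrank_prod] at h1
  omega

namespace Tr

variable {Γ : Subgroup SL(2, ℝ)} {T : Tr Γ}

lemma betti_ι (g : Γ) (d : T.D) : T.ι d ≠ g • d := fun e => by
  have h1 : d.b = (g : SL(2, ℝ)) • d.a := congrArg D.a e
  have h2 : d.a = (g : SL(2, ℝ)) • d.b := congrArg D.b e
  have h3 := T.nice.pm_of_fix g.2 (p := d.a + d.b) (by
    simp only [B_add_left, B_add_right, d.a_unit, d.b_unit, B_comm d.b d.a]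
    linarith [d.B_lt]) (by rw [smul_add, ← h1, ← h2, add_comm])
  rw [← h3.ad, one_smul] at h1
  exact d.a_ne_b h1.symm

lemma betti_ν (g : Γ) (d : T.D) : T.ν d ≠ g • d := fun e => by
  have h1 : d.b = (g : SL(2, ℝ)) • d.a := congrArg D.a e
  have h2 : d.c = (g : SL(2, ℝ)) • d.b := congrArg D.b e
  have h4 : d.a = (g : SL(2, ℝ)) • d.c := by rw [← smul_c, ← e, ν_c]
  have b1 := d.B_lt
  have b2 := (T.ν d).B_lt
  have b3 := (T.ν (T.ν d)).B_lt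
  simp only [ν_a, ν_b, ν_c] at b2 b3
  have h3 := T.nice.pm_of_fix g.2 (p := d.a + d.b + d.c) (by
    simp only [B_add_left, B_add_right, d.a_unit, d.b_unit, d.c_unit, B_comm d.b d.a,
      B_comm d.c d.b, B_comm d.a d.c]
    linarith) (by rw [smul_add, smul_add, ← h1, ← h2, ← h4]; abel)
  rw [← h3.ad, one_smul] at h1
  exact d.a_ne_b h1.symm

/-- Functions on triangles that change by a constant under each element of the group. -/
def bettiP (T : Tr Γ) : Submodule ℝ (T.D → ℝ) where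
  carrier := {Φ | (∀ d, Φ (T.ν d) = Φ d) ∧ ∀ g : Γ, ∃ c, ∀ d, Φ (g • d) = c + Φ d}
  zero_mem' := ⟨fun _ => rfl, fun _ => ⟨0, fun _ => by simp⟩⟩
  add_mem' := fun {a b} ha hb => ⟨fun d => by simp only [Pi.add_apply, ha.1, hb.1], fun g => by
    obtain ⟨c, hc⟩ := ha.2 g
    obtain ⟨c', hc'⟩ := hb.2 g
    exact ⟨c + c', fun d => by simp only [Pi.add_apply, hc, hc']; ring⟩⟩
  smul_mem' := fun t a ha => ⟨fun d => by simp only [Pi.smul_apply, ha.1], fun g => by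
    obtain ⟨c, hc⟩ := ha.2 g
    exact ⟨t * c, fun d => by simp only [Pi.smul_apply, hc, smul_eq_mul]; ring⟩⟩

lemma betti_sub (Φ : bettiP T) (g : Γ) (d e : T.D) :
    Φ.1 (g • d) - Φ.1 d = Φ.1 (g • e) - Φ.1 e := by
  obtain ⟨c, hc⟩ := Φ.2.2 g
  rw [hc, hc]
  ring

/-- The periods. -/
def bettiH (d : T.D) : bettiP T →ₗ[ℝ] (Additive Γ →+ ℝ) where
  toFun Φ := AddMonoidHom.mk' (fun g => Φ.1 (g.toMul • d) - Φ.1 d) fun g h => by
    rw [toMul_add, mul_smul, betti_sub Φ g.toMul d (h.toMul • d)]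
    ring
  map_add' a b := AddMonoidHom.ext fun g => by simp; ring
  map_smul' t a := AddMonoidHom.ext fun g => by simp; ring

lemma betti_pot (Bs : T.Base) (j : T.D → ℝ) (k : T.D → ℝ) (h1 : ∀ d, j (T.ι d) = -j d)
    (h2 : ∀ (g : Γ) d, j (g • d) = j d) (h3 : ∀ (g : Γ) d, k (g • d) = k d)
    (h4 : ∀ p ∈ Bs.S, ∑ m ∈ range p.1.f, j ((T.φ ^ (m + 1)) p.1) +
      ∑ m ∈ range p.2.f, j ((T.φ ^ (m + 1)) p.2) = 0) :
    ∃ Φ : bettiP T, (∀ d, Φ.1 (T.ι d) - Φ.1 d = j d) ∧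
      ∀ p ∈ Bs.S, Φ.1 p.2 - Φ.1 p.1 = k p.1 - k p.2 := by
  obtain ⟨K, a1, a2, a3, a4⟩ := exK Bs (fun _ => LinearMap.id) (-1) (by norm_num) j h2
    (fun d d' => k d - k d') (fun g p _ => by simp [h3]) (fun p _ => by simp) (fun p hp γ _ => by
      simp only [h3, φ_pow_smul, h2, smul_eq_mul]
      linarith [h4 p hp])
  obtain ⟨Φ, b1, b2, b3⟩ := pot j K h1 (fun d d' e => by simpa using a3 d d' e) a4
  refine ⟨⟨Φ, b1, pot_equiv (fun _ => LinearMap.id) b1 b2 b3 h2 a2⟩, fun d => by simp [b2],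
    fun p hp => ?_⟩
  simp [b3 _ _ (Bs.opp p hp), a1 p hp]

theorem card_le_betti [Module.Finite ℝ (Additive Γ →+ ℝ)] {D : Type} [Fintype D] {π : T.D → D}
    (h1 : Function.Surjective π) (h2 : ∀ d e, π d = π e ↔ ∃ g : Γ, e = g • d) :
    Fintype.card D ≤ 6 * Module.finrank ℝ (Additive Γ →+ ℝ) := by
  classical
  obtain ⟨s, hs⟩ := h1.hasRightInverse
  have hπ : ∀ (g : Γ) d, π (g • d) = π d := fun g d => ((h2 d _).2 ⟨g, rfl⟩).symm
  have hs' : ∀ d, ∃ g : Γ, s (π d) = g • d := fun d => (h2 d _).1 (hs _).symm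
  have hι : ∀ d, π (T.ι (s (π d))) = π (T.ι d) := fun d => by
    obtain ⟨g, hg⟩ := hs' d
    rw [hg, ι_smul, hπ]
  have hν : ∀ d, π (T.ν (s (π d))) = π (T.ν d) := fun d => by
    obtain ⟨g, hg⟩ := hs' d
    rw [hg, ν_smul, hπ]
  obtain ⟨Bs, -⟩ := exists_base (T := T) (fun _ _ => True) (fun _ _ _ _ => trivial)
    (fun _ _ _ _ => trivial) fun a ha => by
      obtain ⟨b, hb⟩ := T.has a ha
      obtain ⟨c, hc⟩ := T.has _ (T.ws.neg a ha)
      exact ⟨⟨_, hb⟩, ⟨_, hc⟩, rfl, rfl, trivial⟩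
  let ν' : Equiv.Perm D := ⟨fun q => π (T.ν (s q)), fun q => π (T.ν (s (π (T.ν (s q))))),
    fun q => by simp only [hν, ν_ν_ν, hs q], fun q => by simp only [hν, ν_ν_ν, hs q]⟩
  have c3 := three_mul_cyc (ν := ν') ν'.left_inv fun q e => by
    obtain ⟨g, hg⟩ := (h2 (s q) _).1 ((hs q).trans e.symm)
    exact betti_ν g _ hg
  let e := Fintype.equivFin D
  let O₁ := {q : D // e q < e (π (T.ι (s q)))}
  let O₂ := {q : D // ∃ p ∈ Bs.S, π p.1 = q ∧ e (π p.1) < e (π p.2)}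
  have c2 : Fintype.card D ≤ Fintype.card (O₁ ⊕ O₁) := Fintype.card_le_of_surjective
    (Sum.elim (fun q => q.1) fun q => π (T.ι (s q.1))) fun q => by
      rcases lt_trichotomy (e q) (e (π (T.ι (s q)))) with c | c | c
      · exact ⟨Sum.inl ⟨q, c⟩, rfl⟩
      · obtain ⟨g, hg⟩ := (h2 (s q) _).1 ((hs q).trans (e.injective c))
        exact absurd hg (betti_ι g _)
      · exact ⟨Sum.inr ⟨π (T.ι (s q)), by rwa [hι, ι_ι, hs q]⟩, by simp [hι, hs q]⟩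
  have hp : ∀ o : O₂, ∃ p ∈ Bs.S, π p.1 = o.1 ∧ e (π p.1) < e (π p.2) := fun o => o.2
  choose p p1 p2 p3 using hp
  have hq : ∀ q ∈ Bs.S, ∀ o : O₂, π q.1 = o.1 → ∃ g : Γ, q.1 = g • (p o).1 ∧ q.2 = g • (p o).2 :=
    fun q hq o h => by
      obtain ⟨g, hg⟩ := (h2 _ _).1 ((p2 o).trans h.symm)
      refine ⟨g, hg, Bs.snd_eq (Bs.inv g _ (p1 o)) ?_⟩
      rwa [← hg]
  obtain ⟨d₀⟩ : Nonempty T.D := inferInstance
  let Q := Quotient (Equiv.Perm.SameCycle.setoid ν')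
  let pr : T.D → (T.D → ℝ) →ₗ[ℝ] ℝ := fun d => LinearMap.proj d
  let pq : D → (D → ℝ) →ₗ[ℝ] ℝ := fun d => LinearMap.proj d
  let J : T.D → (D → ℝ) →ₗ[ℝ] ℝ := fun d => pq (π d) - pq (π (T.ι d))
  let F : T.D → (D → ℝ) →ₗ[ℝ] ℝ := fun d => ∑ m ∈ range d.f, J ((T.φ ^ (m + 1)) d)
  have hF : ∀ (g : Γ) d, F (g • d) = F d := fun g d => by
    simp only [F, J, f_smul, φ_pow_smul, ι_smul, hπ]
  have key := betti_lin
    ((bettiH d₀).prod ((LinearMap.pi fun c : Q => pr (s c.out)) ∘ₗ (bettiP T).subtype))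
    ((injective_iff_map_eq_zero _).2 fun Φ h => ?_)
    (((LinearMap.pi fun q : O₁ => pr (T.ι (s q.1)) - pr (s q.1)).prod
      (LinearMap.pi fun o : O₂ => pr (p o).2 - pr (p o).1)) ∘ₗ (bettiP T).subtype)
    ((LinearMap.pi fun o : O₂ => F (p o).1 + F (p o).2) ∘ₗ
      Function.ExtendByZero.linearMap ℝ (Subtype.val : O₁ → D)) fun u k h => ?_
  · rw [finrank_prod, finrank_fintype_fun_eq_card, finrank_fintype_fun_eq_card,
      ← Nat.card_eq_fintype_card (α := Q)] at key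
    rw [Fintype.card_sum] at c2
    have : cyc ν' = Nat.card Q := rfl
    omega
  · have a1 : ∀ (g : Γ) d, Φ.1 (g • d) = Φ.1 d := fun g d => by
      rw [← sub_eq_zero, betti_sub Φ g d d₀]
      exact DFunLike.congr_fun (congrArg Prod.fst h) (Additive.ofMul g)
    have a2 : ∀ d, Φ.1 (s (π d)) = Φ.1 d := fun d => by
      obtain ⟨g, hg⟩ := hs' d
      rw [hg, a1]
    have a3 : ∀ (i : ℕ) q, Φ.1 (s ((ν' ^ i) q)) = Φ.1 (s q) := fun i q => by
      induction i with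
      | zero => rfl
      | succ i ih =>
        rw [pow_succ', Equiv.Perm.mul_apply, ← ih]
        exact (a2 _).trans (Φ.2.1 _)
    ext d
    obtain ⟨i, -, hi⟩ := Equiv.Perm.SameCycle.exists_pow_eq'
      (Quotient.mk_out (s := Equiv.Perm.SameCycle.setoid ν') (π d))
    rw [← a2, ← hi, a3]
    exact congrFun (congrArg Prod.snd h) _
  · set u' := Function.ExtendByZero.linearMap ℝ (Subtype.val : O₁ → D) u with hu
    set k' := Function.ExtendByZero.linearMap ℝ (Subtype.val : O₂ → D) k with hk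
    have a1 : ∀ o : O₂, F (p o).1 u' + F (p o).2 u' = 0 := fun o => congrFun h o
    have a2 : ∀ q ∈ Bs.S, e (π q.1) < e (π q.2) → F q.1 u' + F q.2 u' = 0 := fun q hq' c => by
      obtain ⟨o, ho⟩ : ∃ o : O₂, π q.1 = o.1 := ⟨⟨_, q, hq', rfl, c⟩, rfl⟩
      obtain ⟨g, b1, b2⟩ := hq q hq' o ho
      rw [b1, b2, hF, hF, a1]
    obtain ⟨Φ, b1, b2⟩ := betti_pot Bs (fun d => J d u') (fun d => k' (π d))
      (fun d => by simp [J, pq]) (fun g d => by simp only [J, ι_smul, hπ]) (fun g d => by rw [hπ])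
      fun q hq' => by
        rw [← LinearMap.sum_apply, ← LinearMap.sum_apply]
        rcases lt_trichotomy (e (π q.1)) (e (π q.2)) with c | c | c
        · exact a2 q hq' c
        · obtain ⟨g, hg⟩ := (h2 _ _).1 (e.injective c)
          exact absurd hg.symm (Bs.not_orbit hq' g)
        · rw [add_comm]
          exact a2 (q.2, q.1) (Bs.symm q hq') c
    refine ⟨Φ, Prod.ext (funext fun q => (b1 _).trans ?_) (funext fun o => (b2 _ (p1 o)).trans ?_)⟩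
    · have c1 : u' q.1 = u q := Subtype.val_injective.extend_apply _ _ _
      have c2 : u' (π (T.ι (s q.1))) = 0 := Function.extend_apply' _ _ _ fun ⟨r, hr⟩ => by
        have := r.2
        rw [hr, hι, ι_ι, hs] at this
        exact lt_asymm this q.2
      simp [J, pq, hs q.1, c1, c2]
    · have c1 : k' o.1 = k o := Subtype.val_injective.extend_apply _ _ _
      have c2 : k' (π (p o).2) = 0 := Function.extend_apply' _ _ _ fun ⟨r, hr⟩ => by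
        obtain ⟨g, d1, d2⟩ := hq _ (Bs.symm _ (p1 o)) r hr.symm
        have := p3 o
        rw [show (p o).1 = _ from d2, show (p o).2 = _ from d1, hπ, hπ] at this
        exact lt_asymm this (p3 r)
      simp [p2, c1, c2]

end Tr

end

end Pool.Agent.P.MP_d39174_gt

end

section
/-! Step matrices of an itinerary and their products. -/

namespace Pool.Agent.P.MP_d39174_gt

open UpperHalfPlane MatrixGroups

noncomputable section

lemma Shear1_mul {P Q : ℝ → M2} {P' Q' : M2} (hP : ∀ i j, HasDerivAt (fun t => P t i j) (P' i j) 0)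
    (hQ : ∀ i j, HasDerivAt (fun t => Q t i j) (Q' i j) 0) (i j : Fin 2) :
    HasDerivAt (fun t => (P t * Q t) i j) ((P' * Q 0 + P 0 * Q') i j) 0 := by
  simp only [Matrix.add_apply, Matrix.mul_apply, Fin.sum_univ_two]
  exact (((hP i 0).fun_mul (hQ 0 j)).fun_add ((hP i 1).fun_mul (hQ 1 j))).congr_deriv (by ring)

lemma Shear1_ad (g : SL(2, ℝ)) (x : V) : (g • x).mat * g.1 = g.1 * x.mat := by
  rw [mat_ad, mul_assoc, ← Matrix.SpecialLinearGroup.coe_mul, inv_mul_cancel,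
    Matrix.SpecialLinearGroup.coe_one, mul_one]

lemma Shear1_exp (x ξ : ℝ) : HasDerivAt (fun t => x * Real.exp (t * ξ)) (ξ * x) 0 :=
  (((hasDerivAt_mul_const ξ).exp).const_mul x).congr_deriv (by simp [mul_comm])

lemma Shear1_inv {x : ℝ} (hx : 0 < x) (ξ : ℝ) :
    HasDerivAt (fun t => 1 / (x * Real.exp (t * ξ))) (-(ξ / x)) 0 := by
  refine ((hasDerivAt_const (0 : ℝ) (1 : ℝ)).fun_div (Shear1_exp x ξ)
    (by positivity)).congr_deriv ?_
  simp only [zero_mul, Real.exp_zero]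
  field_simp
  ring

/-- Product rule along a chain of frames. -/
lemma hasDerivAt_mprod {A : ℕ → ℝ → M2} {F g : ℕ → SL(2, ℝ)} {X Φ : ℕ → V}
    (h0 : ∀ m, (g m).1 = A m 0) (h1 : ∀ m, PM (F m * g m) (F (m + 1)))
    (h2 : ∀ m i j, HasDerivAt (fun t => A m t i j) (((X m).mat * A m 0) i j) 0)
    (h3 : ∀ m, Φ (m + 1) = Φ m + F m • X m) (p : ℕ) :
    ∃ G : SL(2, ℝ), G.1 = mprod (fun m => A m 0) p ∧ PM (F 0 * G) (F p) ∧
      HasDerivAt (fun t => (mprod (fun m => A m t) p).trace)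
        (((Φ p - Φ 0).mat * (F 0 * G * (F 0)⁻¹).1).trace) 0 := by
  have key : ∀ p, ∃ G : SL(2, ℝ), G.1 = mprod (fun m => A m 0) p ∧ PM (F 0 * G) (F p) ∧
      ∀ i j, HasDerivAt (fun t => mprod (fun m => A m t) p i j)
        ((((F 0)⁻¹ • (Φ p - Φ 0)).mat * G.1) i j) 0 := by
    intro p
    induction p with
    | zero =>
      refine ⟨1, rfl, by rw [mul_one]; exact PM.refl _, fun i j => ?_⟩
      rw [sub_self, smul_zero, mat_zero, zero_mul]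
      exact hasDerivAt_const _ _
    | succ p ih =>
      obtain ⟨G, e1, e2, e3⟩ := ih
      refine ⟨G * g p, by rw [Matrix.SpecialLinearGroup.coe_mul, e1, h0]; rfl, ?_, fun i j => ?_⟩
      · rw [← mul_assoc]
        exact (e2.mul (PM.refl _)).trans (h1 p)
      · refine (Shear1_mul (P := fun t => mprod (fun m => A m t) p) e3 (h2 p) i j).congr_deriv ?_
        rw [h3, add_sub_right_comm, smul_add, ← e2.ad, mul_smul, inv_smul_smul, mat_add,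
          Matrix.SpecialLinearGroup.coe_mul, h0, add_mul, ← e1]
        simp only [← mul_assoc, Shear1_ad]
  obtain ⟨G, e1, e2, e3⟩ := key p
  refine ⟨G, e1, e2, ?_⟩
  have h4 := (e3 0 0).fun_add (e3 1 1)
  simp only [← Matrix.trace_fin_two] at h4
  refine h4.congr_deriv ?_
  rw [mat_ad, inv_inv, mul_assoc, mul_assoc, Matrix.trace_mul_comm]
  simp only [Matrix.SpecialLinearGroup.coe_mul, mul_assoc]

lemma hasDerivAt_mA {x : ℝ} (hx : 0 < x) (ξ : ℝ) (i j : Fin 2) :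
    HasDerivAt (fun t => mA (x * Real.exp (t * ξ)) i j)
      (((ξ • (Nm * Nm * Sm x) • w0).mat * mA x) i j) 0 := by
  have e : (ξ • (Nm * Nm * Sm x) • w0).mat * mA x = !![ξ * x, -(ξ / x); 0, -(ξ / x)] := by
    rw [mat_smul, Matrix.smul_mul, ← NNS hx.ne', Shear1_ad, NNS hx.ne']
    ext i j
    fin_cases i <;> fin_cases j <;> simp [mA, V.mat, w0, div_eq_mul_inv]
  rw [e]
  fin_cases i <;> fin_cases j
  exacts [Shear1_exp x ξ, Shear1_inv hx ξ, hasDerivAt_const _ _, Shear1_inv hx ξ]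

lemma hasDerivAt_mB {x : ℝ} (hx : 0 < x) (ξ : ℝ) (i j : Fin 2) :
    HasDerivAt (fun t => mB (x * Real.exp (t * ξ)) i j)
      (((ξ • (-(Nm * Sm x)) • w0).mat * mB x) i j) 0 := by
  have e : (ξ • (-(Nm * Sm x)) • w0).mat * mB x = !![ξ * x, 0; ξ * x, -(ξ / x)] := by
    rw [mat_smul, Matrix.smul_mul, ← NS hx.ne', Shear1_ad, NS hx.ne']
    ext i j
    fin_cases i <;> fin_cases j <;> simp [mB, V.mat, w0, div_eq_mul_inv]
  rw [e]
  fin_cases i <;> fin_cases j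
  exacts [Shear1_exp x ξ, hasDerivAt_const _ _, Shear1_exp x ξ, Shear1_inv hx ξ]

lemma hasDerivAt_mJ {s s' : ℝ → ℝ} {ds ds' x y : ℝ} (hs : HasDerivAt s ds 0)
    (hs' : HasDerivAt s' ds' 0) (hx : 0 < x) (hy : 0 < y) (ξ η : ℝ) (i j : Fin 2) :
    HasDerivAt (fun t => mJ (s t) (s' t) (y * Real.exp (t * η)) (x * Real.exp (t * ξ)) i j)
      (((ds • E0 - η • Um (s 0) • w0 - ds' • (Um (s 0) * Sm y) • E0 -
        ξ • (Um (s 0) * Sm y * Um (-s' 0)) • w0).mat * mJ (s 0) (s' 0) y x) i j) 0 := by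
  have e0 : Sm y • E0 = ⟨0, 0, -y ^ 2⟩ := by
    have a0 : Sm y 0 0 = 0 := congrFun (congrFun (Sm_apply hy.ne') 0) 0
    have a1 : Sm y 1 0 = y := congrFun (congrFun (Sm_apply hy.ne') 1) 0
    ext <;> simp [ad_a, ad_b, ad_c, E0, a0, a1]
  have e1 : (Um (s 0) * Sm y) • E0 = ⟨-(y ^ 2 * s 0), y ^ 2 * s 0 ^ 2, -y ^ 2⟩ := by
    rw [mul_smul, e0]
    ext <;> simp [ad_a, ad_b, ad_c, Um]
  have e2 : (Um (s 0) * Sm y * Um (-s' 0)) • w0 =
      -(Um (s 0) • w0) + (2 * s' 0) • (Um (s 0) * Sm y) • E0 := by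
    rw [mul_smul, Um_w0, smul_sub, ad_real, mul_smul, Sm_w0 hy.ne', smul_neg, mul_neg,
      _root_.neg_smul, sub_neg_eq_add]
  have hX := Shear1_exp x ξ
  have hY := Shear1_exp y η
  refine (Shear1_mul (P := fun t => !![1, s t; 0, 1]) (P' := !![0, ds; 0, 0])
    (Q := fun t => !![x * Real.exp (t * ξ) / (y * Real.exp (t * η)), 0;
      y * Real.exp (t * η) * s' t * (x * Real.exp (t * ξ)),
        y * Real.exp (t * η) / (x * Real.exp (t * ξ))])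
    (Q' := !![(ξ - η) * x / y, 0; (η * s' 0 + ds' + ξ * s' 0) * (y * x), (η - ξ) * y / x])
    (fun i j => ?_) (fun i j => ?_) i j).congr_deriv ?_
  · fin_cases i <;> fin_cases j
    exacts [hasDerivAt_const _ _, hs, hasDerivAt_const _ _, hasDerivAt_const _ _]
  · fin_cases i <;> fin_cases j
    · refine (hX.fun_div hY (by positivity)).congr_deriv ?_
      simp
      field_simp
    · exact hasDerivAt_const _ _
    · refine ((hY.fun_mul hs').fun_mul hX).congr_deriv ?_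
      simp
      ring
    · refine (hY.fun_div hX (by positivity)).congr_deriv ?_
      simp
      field_simp
  · rw [e2, e1, Um_w0]
    fin_cases i <;> fin_cases j <;>
      simp [mJ, V.mat, w0, E0, Matrix.mul_apply, Fin.sum_univ_two] <;> field_simp <;> ring

namespace Tr

variable {Γ : Subgroup SL(2, ℝ)} {T : Tr Γ} {w : V}

lemma F_step (hw : Per Γ w) {d : T.D} (h : Str w d) :
    ∃ g : SL(2, ℝ), g.1 = smat D.x D.s yy w d ∧ PM (d.F * g) (τ w d).F := by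
  unfold smat τ
  split_ifs with h0 h1
  · exact ⟨_, NNS (D.x_pos _).ne', F_φ d⟩
  · exact ⟨_, NS (D.x_pos _).ne', F_ψ d⟩
  · obtain ⟨h2, h3, h4, -⟩ := kind_two h (by omega)
    exact ⟨_, USUS (yy_pos _ _).ne' (D.x_pos _).ne',
      F_jump (d' := T.ι (jmp w d)) (jmp_spec hw h2 h3.1 h4).1⟩

lemma smat_pos (w : V) (d : T.D) :
    (∀ i j, 0 ≤ smat D.x D.s yy w d i j) ∧ ∀ i, 0 < smat D.x D.s yy w d i i := by
  have h1 := (T.φ d).x_pos
  have h2 := (T.ψ d).x_pos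
  have h3 := (T.ι (jmp w d)).x_pos
  have h4 := (T.ι (jmp w d)).s_pos
  have h5 := d.s_pos
  have h6 := yy_pos d (T.ι (jmp w d))
  unfold smat
  split_ifs <;> simp only [Fin.forall_fin_two, mA, mB, mJ, Matrix.mul_fin_two, Matrix.of_apply,
    Matrix.cons_val', Matrix.cons_val_zero, Matrix.cons_val_one, Matrix.cons_val_fin_one] <;>
    refine ⟨⟨⟨?_, ?_⟩, ?_, ?_⟩, ?_, ?_⟩ <;> positivity

lemma trace_word (hw : Per Γ w) {d : T.D} (h : Str w d) {l : ℝ} {γ : Γ} (e : PM (ex l w) γ)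
    {p : ℕ} (hp : (τ w)^[p] d = γ • d) :
    (mprod (fun m => smat D.x D.s yy w ((τ w)^[m] d)) p).trace = 2 * Real.cosh l := by
  have hs : ∀ m, Str w ((τ w)^[m] d) := fun m => by
    induction m with
    | zero => exact h
    | succ m ih =>
      rw [Function.iterate_succ_apply']
      exact τ_str hw ih
  choose g hg hg' using fun m => F_step hw (hs m)
  obtain ⟨G, e1, e2, -⟩ := hasDerivAt_mprod (A := fun m _ => smat D.x D.s yy w ((τ w)^[m] d))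
    (F := fun m => ((τ w)^[m] d).F) (X := fun _ => 0) (Φ := fun _ => 0) hg
    (fun m => by simpa only [Function.iterate_succ_apply'] using hg' m)
    (fun m i j => by rw [mat_zero, zero_mul]; exact hasDerivAt_const _ _)
    (fun m => by rw [smul_zero, add_zero]) p
  simp only [hp, Function.iterate_zero_apply] at e2
  have e3 := ((e2.trans (F_smul γ d).symm).mul (PM.refl d.F⁻¹)).abs_tr
  obtain ⟨-, h2⟩ := mprod_diag_pos (fun m => (smat_pos w ((τ w)^[m] d)).1)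
    (fun m => (smat_pos w ((τ w)^[m] d)).2) p
  rw [tr_conj, mul_inv_cancel_right, ← e.abs_tr, tr_ex hw.1, tr_eq, e1, Matrix.trace_fin_two,
    abs_of_pos (add_pos (h2 0) (h2 1)), abs_of_pos (by positivity)] at e3
  rwa [Matrix.trace_fin_two]

end Tr

end

end Pool.Agent.P.MP_d39174_gt

end

section
/-! The cocycle of a shear and twist deformation. -/

namespace Pool.Agent.P.MP_d39174_gt

open UpperHalfPlane MatrixGroups

noncomputable section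

namespace Tr

variable {Γ : Subgroup SL(2, ℝ)} {T : Tr Γ}

/-- The far end of the wall along the path. -/
private def shS (ξ : T.D → ℝ) (d : T.D) (t : ℝ) : ℝ := sig T.φ (pth D.x ξ t) d d.f

private def shD (ξ : T.D → ℝ) (d : T.D) : ℝ := deriv (shS ξ d) 0

private lemma sh_Pr_ne (d : T.D) : Pr T.φ D.x d d.f ≠ 1 := by
  obtain ⟨t, ht⟩ := T.nice.exists_prim (T.ws.per _ d.a_mem)
  rw [Pr_f d ht]
  exact (Real.exp_lt_one_iff.2 (by linarith [ht.pos])).ne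

private lemma shS_zero (ξ : T.D → ℝ) (d : T.D) : shS ξ d 0 = d.s := by
  rw [shS, pth_zero, s_eq_sig]

private lemma shS_deriv (ξ : T.D → ℝ) (d : T.D) : HasDerivAt (shS ξ d) (shD ξ d) 0 :=
  (differentiableAt_sig T.φ D.x_pos ξ (sh_Pr_ne d)).hasDerivAt

private lemma pth_smul {ξ : T.D → ℝ} (h2 : ∀ (g : Γ) d, ξ (g • d) = ξ d) (t : ℝ) (g : Γ)
    (d : T.D) : pth D.x ξ t (g • d) = pth D.x ξ t d := by
  simp only [pth, x_smul, h2]

private lemma shD_smul {ξ : T.D → ℝ} (h2 : ∀ (g : Γ) d, ξ (g • d) = ξ d) (g : Γ) (d : T.D) :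
    shD ξ (g • d) = shD ξ d := by
  have h : shS ξ (g • d) = shS ξ d := by
    funext t
    simp only [shS, sig, Pr, f_smul, φ_pow_smul, pth_smul h2]
  rw [shD, h, shD]

private lemma shD_rec {ξ : T.D → ℝ} (h2 : ∀ (g : Γ) d, ξ (g • d) = ξ d) (d : T.D) :
    shD ξ d = (T.φ d).x ^ 2 * shD ξ (T.φ d) +
      2 * ξ (T.φ d) * (T.φ d).x ^ 2 * (T.φ d).s := by
  obtain ⟨t₀, ht⟩ := T.nice.exists_prim (T.ws.per _ d.a_mem)
  have hm : ex (-t₀) d.a ∈ Γ := by rw [ex_neg]; exact inv_mem ht.mem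
  have hf := d.f_spec ht (γ := ⟨_, hm⟩) (PM.refl _)
  have hc : ContinuousAt (fun t : ℝ => Pr T.φ (pth D.x ξ t) d d.f) 0 := by
    simp only [Pr_pth]
    fun_prop
  have hne : ∀ᶠ t in nhds (0 : ℝ), Pr T.φ (pth D.x ξ t) d d.f ≠ 1 :=
    hc.eventually_ne (by rw [pth_zero]; exact sh_Pr_ne d)
  have he : shS ξ d =ᶠ[nhds 0] fun t =>
      1 + ((T.φ d).x * Real.exp (t * ξ (T.φ d))) ^ 2 * shS ξ (T.φ d) t := by
    filter_upwards [hne] with t h
    rw [shS, shS, f_eq (φ_a d)]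
    refine sig_rec T.φ (fun e => mul_pos e.x_pos (Real.exp_pos _)) h ?_
    rw [pow_succ', Equiv.Perm.mul_apply, hf, φ_smul, x_smul, h2]
  have h1 : HasDerivAt (fun t : ℝ => (T.φ d).x * Real.exp (t * ξ (T.φ d)))
      ((T.φ d).x * ξ (T.φ d)) 0 := by
    have := (((hasDerivAt_id (0 : ℝ)).mul_const (ξ (T.φ d))).exp).const_mul (T.φ d).x
    simpa using this
  have h3 := (((h1.pow 2).mul (shS_deriv ξ (T.φ d))).const_add 1).congr_of_eventuallyEq he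
  rw [(shS_deriv ξ d).unique h3, shS_zero]
  simp only [Pi.pow_apply, zero_mul, Real.exp_zero, mul_one]
  push_cast
  ring

private lemma G_smul (g : Γ) (d : T.D) : PM ((g : SL(2, ℝ)) * d.G) (g • d).G := by
  rw [D.G, D.G, s_smul, ← mul_assoc]
  exact (F_smul g d).mul (PM.refl _)

private lemma G_E0 (d : T.D) : d.G • E0 = d.F • E0 := by rw [D.G, mul_smul, Um_E0]

private lemma F_w0 (d : T.D) : d.F • w0 = d.a + (2 * d.s) • d.G • E0 := by
  rw [← G_w0 d, G_E0, D.G, mul_smul, Um_w0, smul_sub, ad_real, sub_add_cancel]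

private def shJ (ξ : T.D → ℝ) (d : T.D) : V := -ξ d • d.F • w0

private def shK (ξ : T.D → ℝ) (η : T.D → T.D → ℝ) (d d' : T.D) : V :=
  shD ξ d • d.G • E0 - η d d' • d.a - shD ξ d' • d'.G • E0

private lemma shJ_ι {ξ : T.D → ℝ} (h1 : ∀ d, ξ (T.ι d) = ξ d) (d : T.D) :
    shJ ξ (T.ι d) = -shJ ξ d := by
  rw [shJ, shJ, h1, ← (F_ι d).ad, mul_smul, Sm_w0 d.x_pos.ne', smul_neg, smul_neg]

/-- One step of the itinerary: the logarithmic derivative of the step matrix. -/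
private lemma sh_step {ξ : T.D → ℝ} {η : T.D → T.D → ℝ} (h1 : ∀ d, ξ (T.ι d) = ξ d)
    {Φ : T.D → V} (p1 : ∀ d, Φ (T.ν d) = Φ d) (p2 : ∀ d, Φ (T.ι d) = Φ d + shJ ξ d)
    (p3 : ∀ d d', d'.a = -d.a → Φ d' = Φ d + shK ξ η d d') {w : V} (hw : Per Γ w) {d : T.D}
    (h : Str w d) :
    ∃ X : V, (∀ i j, HasDerivAt (fun t => smat (pth D.x ξ t) (fun e => shS ξ e t)
        (fun e e' => yy e e' * Real.exp (t * η e e')) w d i j)
        ((X.mat * smat D.x D.s yy w d) i j) 0) ∧ Φ (τ w d) = Φ d + d.F • X := by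
  by_cases k0 : kind w d = 0
  · refine ⟨ξ (T.φ d) • (Nm * Nm * Sm (T.φ d).x) • w0, fun i j => ?_, ?_⟩
    · simp only [smat, if_pos k0]
      exact hasDerivAt_mA (T.φ d).x_pos _ i j
    · have e := shJ_ι h1 (T.ν (T.ν d))
      rw [← φ_apply] at e
      rw [τ, if_pos k0, ad_real, ← mul_smul, (F_φ d).ad, φ_apply, p2, p1, p1, ← φ_apply,
        ← neg_eq_iff_eq_neg.2 e, shJ, _root_.neg_smul, neg_neg]
  by_cases k1 : kind w d = 1
  · refine ⟨ξ (T.ψ d) • (-(Nm * Sm (T.ψ d).x)) • w0, fun i j => ?_, ?_⟩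
    · simp only [smat, if_neg k0, if_pos k1]
      exact hasDerivAt_mB (T.ψ d).x_pos _ i j
    · have e := shJ_ι h1 (T.ν d)
      rw [← ψ_apply] at e
      rw [τ, if_neg k0, if_pos k1, ad_real, ← mul_smul, (F_ψ d).ad, ψ_apply, p2, p1, ← ψ_apply,
        ← neg_eq_iff_eq_neg.2 e, shJ, _root_.neg_smul, neg_neg]
  have k2 : kind w d = 2 := by
    generalize kind w d = k at k0 k1
    revert k
    decide
  obtain ⟨a1, a2, a3, a4⟩ := kind_two h k2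
  have ho : (T.ι (jmp w d)).a = -d.a := (jmp_spec hw a1 a2.1 a3).1
  set d' := T.ι (jmp w d) with hd'
  refine ⟨shD ξ d • E0 - η d d' • Um d.s • w0 - shD ξ d' • (Um d.s * Sm (yy d d')) • E0 -
    ξ d' • (Um d.s * Sm (yy d d') * Um (-d'.s)) • w0, fun i j => ?_, ?_⟩
  · simp only [smat, if_neg k0, if_neg k1]
    have := hasDerivAt_mJ (shS_deriv ξ d) (shS_deriv ξ d') d'.x_pos (yy_pos d d') (ξ d')
      (η d d') i j
    rw [shS_zero, shS_zero] at this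
    exact this
  · have e : jmp w d = T.ι d' := rfl
    have e1 : d.F • Um d.s • w0 = d.a := by rw [← mul_smul]; exact G_w0 d
    have e2 : d.F • (Um d.s * Sm (yy d d')) • E0 = d'.G • E0 := by
      rw [← mul_smul, ← mul_assoc]; exact (G_opp ho).ad E0
    have e3 : d.F • (Um d.s * Sm (yy d d') * Um (-d'.s)) • w0 = d'.F • w0 := by
      rw [← mul_smul, ← mul_assoc, ← mul_assoc]; exact (F_opp ho).ad w0
    rw [a4, e, p2, p3 d d' ho, smul_sub, smul_sub, smul_sub, ad_real, ad_real, ad_real, ad_real,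
      e1, e2, e3, shK, shJ, G_E0 d, _root_.neg_smul]
    abel

theorem shear_coc (ξ : T.D → ℝ) (η : T.D → T.D → ℝ) (h1 : ∀ d, ξ (T.ι d) = ξ d)
    (h2 : ∀ (g : Γ) d, ξ (g • d) = ξ d)
    (h3 : ∀ (g : Γ) d d', d'.a = -d.a → η (g • d) (g • d') = η d d')
    (h4 : ∀ d d', d'.a = -d.a → η d' d = η d d')
    (h5 : ∀ d d', d'.a = -d.a → η (T.φ d) d' = η d d' + ξ (T.φ d)) :
    ∃ u, Coc Γ u ∧ ∀ (w : V) (d : T.D) (l : ℝ) (γ : Γ) (p : ℕ), Per Γ w → Str w d →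
      PM (ex l w) γ → (τ w)^[p] d = γ • d →
      deriv (fun t => (mprod (fun m => smat (pth D.x ξ t)
        (fun e => sig T.φ (pth D.x ξ t) e e.f) (fun e e' => yy e e' * Real.exp (t * η e e')) w
          ((τ w)^[m] d)) p).trace) 0 = 2 * Real.sinh l * B (u (ex l w)) w := by
  obtain ⟨Φ, u, hu, p1, p2, p3, p4⟩ := pot_coc (shJ ξ) (shK ξ η) (shJ_ι h1)
    (fun d d' h => by
      rw [shK, shK, h4 d d' h, h, smul_neg]
      abel)
    (fun d d' h => by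
      rw [shK, shK, shJ, h5 d d' h, F_w0, G_φ_E0, φ_a, shD_rec h2 d]
      generalize d.G • E0 = Y
      generalize d'.G • E0 = Z
      module)
    (fun g d => by
      rw [shJ, shJ, h2, ← (F_smul g d).ad, mul_smul, ad_real])
    (fun g d d' h => by
      rw [shK, shK, shD_smul h2, shD_smul h2, h3 g d d' h, ← (G_smul g d).ad, ← (G_smul g d').ad,
        mul_smul, mul_smul, smul_a, smul_sub, smul_sub, ad_real, ad_real, ad_real])
  refine ⟨u, hu, fun w d l γ p hw hd e hp => ?_⟩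
  have hs : ∀ m, Str w ((τ w)^[m] d) := fun m => by
    induction m with
    | zero => exact hd
    | succ m ih => rw [Function.iterate_succ_apply']; exact τ_str hw ih
  choose g g1 g2 using fun m => F_step hw (hs m)
  choose X X1 X2 using fun m => sh_step (η := η) h1 p1 p2 p3 hw (hs m)
  have hA : ∀ m, smat (pth D.x ξ 0) (fun e => shS ξ e 0)
      (fun e e' => yy e e' * Real.exp (0 * η e e')) w ((τ w)^[m] d) =
      smat D.x D.s yy w ((τ w)^[m] d) := fun m => by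
    simp only [pth_zero, shS_zero, zero_mul, Real.exp_zero, mul_one]
  obtain ⟨G, G1, G2, G3⟩ := hasDerivAt_mprod
    (A := fun m t => smat (pth D.x ξ t) (fun e => shS ξ e t)
      (fun e e' => yy e e' * Real.exp (t * η e e')) w ((τ w)^[m] d))
    (F := fun m => ((τ w)^[m] d).F) (g := g) (X := X) (Φ := fun m => Φ ((τ w)^[m] d))
    (fun m => by rw [hA, g1])
    (fun m => by rw [Function.iterate_succ_apply']; exact g2 m)
    (fun m i j => by rw [hA]; exact X1 m i j)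
    (fun m => by rw [Function.iterate_succ_apply']; exact X2 m) p
  simp only [hA, Function.iterate_zero_apply, hp] at G1 G2 G3
  have t1 : tr G = 2 * Real.cosh l := by rw [tr_eq, G1, trace_word hw hd e hp]
  have q1 : PM (ex l w) (d.F * G * d.F⁻¹) := by
    have := ((G2.trans (F_smul γ d).symm).mul (PM.refl d.F⁻¹)).symm
    rw [mul_inv_cancel_right] at this
    exact e.trans this
  have q2 : d.F * G * d.F⁻¹ = ex l w := by
    rcases q1 with q | q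
    · exact q
    · have := tr_conj d.F G
      rw [q, tr_neg, tr_ex hw.1, t1] at this
      linarith [Real.cosh_pos l]
  have hm : ex l w ∈ Γ := e.symm.mem T.nice.neg_one_mem γ.2
  rw [q2, trace_mat_mul_ex hw.1, p4, Coc.pm T.nice.neg_one_mem hu hm e, ← e.ad, B_sub_left,
    B_add_left, B_ex_ad, add_sub_cancel_right] at G3
  exact G3.deriv

end Tr

end

end Pool.Agent.P.MP_d39174_gt

end

section
/-! The finite type as a quotient of the triangulation. -/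

namespace Pool.Agent.P.MP_d39174_gt

open UpperHalfPlane MatrixGroups

noncomputable section

namespace Tr

variable {Γ : Subgroup SL(2, ℝ)} {T : Tr Γ}

/-- `M` is the quotient by `Γ` of the darts and of the stations of systoles. -/
structure Lift (l : ℝ) (Bs : T.Base) (m₀ : ℕ) {D S : Type} (M : Mdl D S) (π : T.D → D)
    (ϖ : V → T.D → S) (x y : D → ℝ) : Prop where
  surj : Function.Surjective π
  π_eq : ∀ d e, π d = π e ↔ ∃ g : Γ, e = g • d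
  ι_eq : ∀ d, M.ι (π d) = π (T.ι d)
  ν_eq : ∀ d, M.ν (π d) = π (T.ν d)
  κ_base : ∀ p ∈ Bs.S, M.κ (π p.1) = π p.2
  κ_non : ∀ β, (∀ β', (β, β') ∉ Bs.S) → M.κ (π β) = π β
  on_all : ∀ s, M.on s = true
  ϖ_surj : ∀ s, ∃ w ∈ SS Γ l, ∃ d, Str w d ∧ ϖ w d = s
  ϖ_eq : ∀ w ∈ SS Γ l, ∀ d, Str w d → ∀ w' ∈ SS Γ l, ∀ d', Str w' d' →
    (ϖ w d = ϖ w' d' ↔ ∃ g : Γ, w' = (g : SL(2, ℝ)) • w ∧ d' = g • d)
  bs_eq : ∀ w ∈ SS Γ l, ∀ d, Str w d → M.bs (ϖ w d) = π d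
  nx_eq : ∀ w ∈ SS Γ l, ∀ d, Str w d → M.nx (ϖ w d) = ϖ w (τ w d)
  kd_eq : ∀ w ∈ SS Γ l, ∀ d, Str w d → M.kd (ϖ w d) = kind w d
  jump : ∀ w ∈ SS Γ l, ∀ d, Str w d → kind w d = 2 → ∃ p ∈ Bs.S,
    M.oi (ϖ w d) < p.1.f ∧ M.oj (ϖ w d) ≤ m₀ * p.2.f ∧ d = (T.φ ^ M.oi (ϖ w d)) p.1 ∧
      T.ι (jmp w d) = (T.φ ^ M.oj (ϖ w d)) p.2
  off : ∀ s, M.kd s ≠ 2 → M.oi s = 0 ∧ M.oj s = 0
  x_eq : ∀ d, x (π d) = d.x
  y_eq : ∀ p ∈ Bs.S, y (π p.1) = yy p.1 p.2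
  y_pos : ∀ d, 0 < y d
  y_κ : ∀ d, y (M.κ d) = y d

end Tr

end

end Pool.Agent.P.MP_d39174_gt

end

section
/-! Existence of the quotient type. -/

namespace Pool.Agent.P.MP_d39174_gt

open UpperHalfPlane MatrixGroups

noncomputable section

namespace Tr

variable {Γ : Subgroup SL(2, ℝ)} {T : Tr Γ}

/-- Orbits of darts. -/
abbrev Lift1Q (T : Tr Γ) : Type := MulAction.orbitRel.Quotient Γ T.D

def Lift1π (d : T.D) : Lift1Q T := Quotient.mk (MulAction.orbitRel Γ T.D) d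

lemma Lift1π_eq (d e : T.D) : Lift1π d = Lift1π e ↔ ∃ g : Γ, e = g • d := by
  unfold Lift1π
  rw [Quotient.eq, MulAction.orbitRel_apply, MulAction.mem_orbit_iff]
  constructor
  · rintro ⟨g, hg⟩
    exact ⟨g⁻¹, by rw [← hg, inv_smul_smul]⟩
  · rintro ⟨g, hg⟩
    exact ⟨g⁻¹, by rw [hg, inv_smul_smul]⟩

lemma Lift1π_smul (g : Γ) (d : T.D) : Lift1π (g • d) = Lift1π d :=
  ((Lift1π_eq d (g • d)).2 ⟨g, rfl⟩).symm

def Lift1out (q : Lift1Q T) : T.D := Quotient.out (s := MulAction.orbitRel Γ T.D) q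

lemma Lift1π_out (q : Lift1Q T) : Lift1π (Lift1out q) = q := Quotient.out_eq _

lemma Lift1out_π (d : T.D) : ∃ g : Γ, Lift1out (Lift1π d) = g • d :=
  (Lift1π_eq d _).1 (Lift1π_out _).symm

lemma Lift1surj (q : Lift1Q T) : ∃ d, Lift1π d = q := ⟨_, Lift1π_out q⟩

def Lift1map (f : T.D → T.D) (q : Lift1Q T) : Lift1Q T := Lift1π (f (Lift1out q))

lemma Lift1map_π {f : T.D → T.D} (hf : ∀ (g : Γ) d, f (g • d) = g • f d) (d : T.D) :
    Lift1map f (Lift1π d) = Lift1π (f d) := by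
  obtain ⟨g, hg⟩ := Lift1out_π d
  rw [Lift1map, hg, hf, Lift1π_smul]

def Lift1ι (T : Tr Γ) : Equiv.Perm (Lift1Q T) where
  toFun := Lift1map T.ι
  invFun := Lift1map T.ι
  left_inv q := by
    obtain ⟨d, rfl⟩ := Lift1surj q
    rw [Lift1map_π ι_smul, Lift1map_π ι_smul, ι_ι]
  right_inv q := by
    obtain ⟨d, rfl⟩ := Lift1surj q
    rw [Lift1map_π ι_smul, Lift1map_π ι_smul, ι_ι]

def Lift1ν (T : Tr Γ) : Equiv.Perm (Lift1Q T) where
  toFun := Lift1map T.ν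
  invFun q := Lift1map T.ν (Lift1map T.ν q)
  left_inv q := by
    obtain ⟨d, rfl⟩ := Lift1surj q
    show Lift1map T.ν (Lift1map T.ν (Lift1map T.ν _)) = _
    rw [Lift1map_π ν_smul, Lift1map_π ν_smul, Lift1map_π ν_smul, ν_ν_ν]
  right_inv q := by
    obtain ⟨d, rfl⟩ := Lift1surj q
    show Lift1map T.ν (Lift1map T.ν (Lift1map T.ν _)) = _
    rw [Lift1map_π ν_smul, Lift1map_π ν_smul, Lift1map_π ν_smul, ν_ν_ν]

open Classical in
def Lift1k (Bs : T.Base) (q : Lift1Q T) : Lift1Q T :=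
  if h : ∃ β', (Lift1out q, β') ∈ Bs.S then Lift1π h.choose else q

lemma Lift1k_base (Bs : T.Base) {p : T.D × T.D} (hp : p ∈ Bs.S) :
    Lift1k Bs (Lift1π p.1) = Lift1π p.2 := by
  obtain ⟨g, hg⟩ := Lift1out_π p.1
  have h1 : (Lift1out (Lift1π p.1), g • p.2) ∈ Bs.S := by rw [hg]; exact Bs.inv g p hp
  have h : ∃ β', (Lift1out (Lift1π p.1), β') ∈ Bs.S := ⟨_, h1⟩
  rw [Lift1k, dif_pos h, Bs.snd_eq h1 h.choose_spec, Lift1π_smul]

lemma Lift1_non (Bs : T.Base) {β : T.D} (hβ : ∀ β', (β, β') ∉ Bs.S) :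
    ¬ ∃ β', (Lift1out (Lift1π β), β') ∈ Bs.S := by
  obtain ⟨g, hg⟩ := Lift1out_π β
  rintro ⟨β', h⟩
  rw [hg] at h
  have := Bs.inv g⁻¹ _ h
  simp only [inv_smul_smul] at this
  exact hβ _ this

lemma Lift1k_non (Bs : T.Base) {β : T.D} (hβ : ∀ β', (β, β') ∉ Bs.S) :
    Lift1k Bs (Lift1π β) = Lift1π β := by
  rw [Lift1k, dif_neg (Lift1_non Bs hβ)]

lemma Lift1k_k (Bs : T.Base) (q : Lift1Q T) : Lift1k Bs (Lift1k Bs q) = q := by
  obtain ⟨β, rfl⟩ := Lift1surj q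
  by_cases h : ∃ β', (β, β') ∈ Bs.S
  · obtain ⟨β', h⟩ := h
    have e1 : Lift1k Bs (Lift1π β) = Lift1π β' := Lift1k_base Bs h
    have e2 : Lift1k Bs (Lift1π β') = Lift1π β := Lift1k_base Bs (Bs.symm _ h)
    rw [e1, e2]
  · have h' : ∀ β', (β, β') ∉ Bs.S := fun β' hh => h ⟨β', hh⟩
    rw [Lift1k_non Bs h', Lift1k_non Bs h']

def Lift1κ (Bs : T.Base) : Equiv.Perm (Lift1Q T) where
  toFun := Lift1k Bs
  invFun := Lift1k Bs
  left_inv := Lift1k_k Bs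
  right_inv := Lift1k_k Bs

open Classical in
def Lift1y (Bs : T.Base) (q : Lift1Q T) : ℝ :=
  if h : ∃ β', (Lift1out q, β') ∈ Bs.S then yy (Lift1out q) h.choose else 1

lemma Lift1y_base (Bs : T.Base) {p : T.D × T.D} (hp : p ∈ Bs.S) :
    Lift1y Bs (Lift1π p.1) = yy p.1 p.2 := by
  obtain ⟨g, hg⟩ := Lift1out_π p.1
  have h1 : (Lift1out (Lift1π p.1), g • p.2) ∈ Bs.S := by rw [hg]; exact Bs.inv g p hp
  have h : ∃ β', (Lift1out (Lift1π p.1), β') ∈ Bs.S := ⟨_, h1⟩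
  rw [Lift1y, dif_pos h, Bs.snd_eq h1 h.choose_spec, hg, yy_smul g (Bs.opp p hp)]

lemma Lift1y_pos (Bs : T.Base) (q : Lift1Q T) : 0 < Lift1y Bs q := by
  unfold Lift1y
  split_ifs
  · exact yy_pos _ _
  · exact one_pos

lemma Lift1y_k (Bs : T.Base) (q : Lift1Q T) : Lift1y Bs (Lift1k Bs q) = Lift1y Bs q := by
  obtain ⟨β, rfl⟩ := Lift1surj q
  by_cases h : ∃ β', (β, β') ∈ Bs.S
  · obtain ⟨β', h⟩ := h
    have e1 : Lift1k Bs (Lift1π β) = Lift1π β' := Lift1k_base Bs h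
    have e2 : Lift1y Bs (Lift1π β') = yy β' β := Lift1y_base Bs (Bs.symm _ h)
    have e3 : Lift1y Bs (Lift1π β) = yy β β' := Lift1y_base Bs h
    rw [e1, e2, e3, yy_symm (Bs.opp _ h)]
  · have h' : ∀ β', (β, β') ∉ Bs.S := fun β' hh => h ⟨β', hh⟩
    rw [Lift1k_non Bs h']

/-- Strands. -/
abbrev Lift1P (T : Tr Γ) (l : ℝ) : Type := {p : V × T.D // p.1 ∈ SS Γ l ∧ Str p.1 p.2}

def Lift1rel (T : Tr Γ) (l : ℝ) : Setoid (Lift1P T l) where
  r p q := ∃ g : Γ, q.1.1 = (g : SL(2, ℝ)) • p.1.1 ∧ q.1.2 = g • p.1.2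
  iseqv := ⟨fun p => ⟨1, by simp, by simp⟩,
    fun {p q} ⟨g, h1, h2⟩ => ⟨g⁻¹, by rw [h1]; simp, by rw [h2]; simp⟩,
    fun {p q r} ⟨g, h1, h2⟩ ⟨k, h3, h4⟩ =>
      ⟨k * g, by rw [h3, h1, Subgroup.coe_mul, mul_smul], by rw [h4, h2, mul_smul]⟩⟩

abbrev Lift1S (T : Tr Γ) (l : ℝ) : Type := Quotient (Lift1rel T l)

lemma Lift1S_finite {l : ℝ} (fin : ∀ d : T.D, {w | w ∈ SS Γ l ∧ Str w d}.Finite) :
    Finite (Lift1S T l) := by
  have : ∀ q : Lift1Q T, Finite {w | w ∈ SS Γ l ∧ Str w (Lift1out q)} := fun q => (fin _).to_subtype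
  refine Finite.of_surjective
    (fun x : Σ q : Lift1Q T, {w | w ∈ SS Γ l ∧ Str w (Lift1out q)} =>
      (Quotient.mk (Lift1rel T l) ⟨(x.2.1, Lift1out x.1), x.2.2⟩ : Lift1S T l)) ?_
  intro s
  obtain ⟨⟨⟨w, d⟩, hw, hs⟩, rfl⟩ := Quotient.exists_rep s
  obtain ⟨g, hg⟩ := Lift1out_π d
  refine ⟨⟨Lift1π d, ⟨(g : SL(2, ℝ)) • w, SS.ad hw g.2, ?_⟩⟩, ?_⟩
  · rw [hg]; exact (str_smul hw.1 g d).2 hs
  · exact (Quotient.sound (s := Lift1rel T l) ⟨g, rfl, hg⟩).symm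

open Classical in
def Lift1w {l : ℝ} (sub : T.A ⊆ SS Γ l) (w : V) (d : T.D) : Lift1S T l :=
  if h : w ∈ SS Γ l ∧ Str w d then Quotient.mk (Lift1rel T l) ⟨(w, d), h⟩
  else Quotient.mk (Lift1rel T l) ⟨(-d.a, d), SS.neg (sub d.a_mem), Or.inr rfl⟩

lemma Lift1w_of {l : ℝ} (sub : T.A ⊆ SS Γ l) {w : V} {d : T.D} (hw : w ∈ SS Γ l) (hs : Str w d) :
    Lift1w sub w d = Quotient.mk (Lift1rel T l) ⟨(w, d), hw, hs⟩ := by
  rw [Lift1w, dif_pos ⟨hw, hs⟩]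

lemma Lift1w_eq {l : ℝ} (sub : T.A ⊆ SS Γ l) {w w' : V} {d d' : T.D} (hw : w ∈ SS Γ l)
    (hs : Str w d) (hw' : w' ∈ SS Γ l) (hs' : Str w' d') :
    Lift1w sub w d = Lift1w sub w' d' ↔ ∃ g : Γ, w' = (g : SL(2, ℝ)) • w ∧ d' = g • d := by
  rw [Lift1w_of sub hw hs, Lift1w_of sub hw' hs', Quotient.eq]
  rfl

lemma Lift1w_out {l : ℝ} (sub : T.A ⊆ SS Γ l) {w : V} {d : T.D} (hw : w ∈ SS Γ l) (hs : Str w d) :
    ∃ g : Γ, (Lift1w sub w d).out.1.1 = (g : SL(2, ℝ)) • w ∧ (Lift1w sub w d).out.1.2 = g • d := by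
  rw [Lift1w_of sub hw hs]
  exact Quotient.exact (s := Lift1rel T l) (Quotient.out_eq _).symm

theorem exists_lift {l : ℝ} (hl : 0 < l) (sub : T.A ⊆ SS Γ l) (Bs : T.Base) {m₀ : ℕ}
    (fin : ∀ d : T.D, {w | w ∈ SS Γ l ∧ Str w d}.Finite)
    (hj : ∀ w ∈ SS Γ l, ∀ d : T.D, Str w d → kind w d = 2 → ∃ p ∈ Bs.S, ∃ i j : ℕ, i < p.1.f ∧
      j ≤ m₀ * p.2.f ∧ d = (T.φ ^ i) p.1 ∧ T.ι (jmp w d) = (T.φ ^ j) p.2) :
    ∃ (D S : Type) (_ : Fintype D) (_ : Fintype S) (M : Mdl D S) (π : T.D → D)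
      (ϖ : V → T.D → S) (x y : D → ℝ), Lift l Bs m₀ M π ϖ x y := by
  classical
  have := Lift1S_finite (T := T) fin
  have hch : ∀ s : Lift1S T l, ∃ i j : ℕ, (kind s.out.1.1 s.out.1.2 ≠ 2 → i = 0 ∧ j = 0) ∧
      (kind s.out.1.1 s.out.1.2 = 2 → ∃ p ∈ Bs.S, i < p.1.f ∧ j ≤ m₀ * p.2.f ∧
        s.out.1.2 = (T.φ ^ i) p.1 ∧ T.ι (jmp s.out.1.1 s.out.1.2) = (T.φ ^ j) p.2) := by
    intro s
    by_cases hk : kind s.out.1.1 s.out.1.2 = 2
    · obtain ⟨p, hp, i, j, h⟩ := hj _ s.out.2.1 _ s.out.2.2 hk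
      exact ⟨i, j, fun h' => absurd hk h', fun _ => ⟨p, hp, h⟩⟩
    · exact ⟨0, 0, fun _ => ⟨rfl, rfl⟩, fun h' => absurd h' hk⟩
  choose oi oj hoff hjump using hch
  let M : Mdl (Lift1Q T) (Lift1S T l) :=
    { ι := Lift1ι T, ν := Lift1ν T, κ := Lift1κ Bs, on := fun _ => true
      bs := fun s => Lift1π s.out.1.2, kd := fun s => kind s.out.1.1 s.out.1.2
      oi := oi, oj := oj, nx := fun s => Lift1w sub s.out.1.1 (τ s.out.1.1 s.out.1.2) }
  refine ⟨Lift1Q T, Lift1S T l, Fintype.ofFinite _, Fintype.ofFinite _, M, Lift1π, Lift1w sub,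
    fun q => (Lift1out q).x, Lift1y Bs, ?_⟩
  refine ⟨Lift1surj, Lift1π_eq, Lift1map_π ι_smul, Lift1map_π ν_smul,
    fun p hp => Lift1k_base Bs hp, fun β h => Lift1k_non Bs h, fun _ => rfl, ?_,
    fun w hw d hs w' hw' d' hs' => Lift1w_eq sub hw hs hw' hs', ?_, ?_, ?_, ?_, hoff, ?_,
    fun p hp => Lift1y_base Bs hp, Lift1y_pos Bs, Lift1y_k Bs⟩
  · intro s
    refine ⟨_, s.out.2.1, _, s.out.2.2, ?_⟩
    rw [Lift1w_of sub s.out.2.1 s.out.2.2]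
    exact Quotient.out_eq s
  · intro w hw d hs
    obtain ⟨g, -, h2⟩ := Lift1w_out sub hw hs
    show Lift1π _ = _
    rw [h2, Lift1π_smul]
  · intro w hw d hs
    obtain ⟨g, h1, h2⟩ := Lift1w_out sub hw hs
    show Lift1w sub _ (τ _ _) = _
    rw [h1, h2, τ_smul (SS.per hl hw) g hs]
    have h3 := τ_str (SS.per hl hw) hs
    exact ((Lift1w_eq sub hw h3 (SS.ad hw g.2) ((str_smul hw.1 g _).2 h3)).2 ⟨g, rfl, rfl⟩).symm
  · intro w hw d hs
    obtain ⟨g, h1, h2⟩ := Lift1w_out sub hw hs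
    show kind _ _ = _
    rw [h1, h2, kind_smul hw.1]
  · intro w hw d hs hk
    obtain ⟨g, h1, h2⟩ := Lift1w_out sub hw hs
    have hk' : kind ((g : SL(2, ℝ)) • w) (g • d) = 2 := by rw [kind_smul hw.1, hk]
    obtain ⟨p, hp, a1, a2, a3, a4⟩ := hjump (Lift1w sub w d) (by rw [h1, h2, hk'])
    rw [h2] at a3
    rw [h1, h2] at a4
    have hj' : jmp ((g : SL(2, ℝ)) • w) (g • d) = g • jmp w d := by
      rw [← (kind_two ((str_smul hw.1 g d).2 hs) hk').2.2.2, τ_smul (SS.per hl hw) g hs,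
        (kind_two hs hk).2.2.2]
    rw [hj', ι_smul] at a4
    refine ⟨(g⁻¹ • p.1, g⁻¹ • p.2), Bs.inv _ p hp, ?_, ?_, ?_, ?_⟩
    · rw [f_smul]; exact a1
    · rw [f_smul]; exact a2
    · show d = (T.φ ^ oi _) (g⁻¹ • p.1)
      rw [φ_pow_smul, ← a3, inv_smul_smul]
    · show _ = (T.φ ^ oj _) (g⁻¹ • p.2)
      rw [φ_pow_smul, ← a4, inv_smul_smul]
  · intro d
    obtain ⟨g, hg⟩ := Lift1out_π d
    show (Lift1out (Lift1π d)).x = _
    rw [hg, x_smul]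

end Tr

end

end Pool.Agent.P.MP_d39174_gt

end

section
/-! Dictionary between the triangulation and its quotient. -/

namespace Pool.Agent.P.MP_d39174_gt

open UpperHalfPlane MatrixGroups

noncomputable section

open Finset

namespace Tr.Lift

variable {Γ : Subgroup SL(2, ℝ)} {T : Tr Γ} {l : ℝ} {Bs : T.Base} {m₀ : ℕ} {D S : Type}
  {M : Mdl D S} {π : T.D → D} {ϖ : V → T.D → S} {x y : D → ℝ} (L : Lift l Bs m₀ M π ϖ x y)

include L

lemma π_smul (g : Γ) (d : T.D) : π (g • d) = π d :=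
  ((L.π_eq d _).2 ⟨g, rfl⟩).symm

lemma φ_eq (d : T.D) : M.φ (π d) = π (T.φ d) := by
  simp only [Mdl.φ, Equiv.Perm.mul_apply, L.ν_eq, L.ι_eq, φ_apply]

lemma ψ_eq (d : T.D) : M.ψ (π d) = π (T.ψ d) := by
  simp only [Mdl.ψ, Equiv.Perm.mul_apply, L.ν_eq, L.ι_eq, ψ_apply]

lemma φ_pow (i : ℕ) (d : T.D) : (M.φ ^ i) (π d) = π ((T.φ ^ i) d) := by
  induction i with
  | zero => rfl
  | succ i ih => rw [pow_succ', pow_succ', Equiv.Perm.mul_apply, ih, L.φ_eq, Equiv.Perm.mul_apply]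

lemma lift2_zpow (i : ℤ) (d : T.D) : (M.φ ^ i) (π d) = π ((T.φ ^ i) d) := by
  obtain ⟨n, rfl | rfl⟩ := i.eq_nat_or_neg
  · simpa using L.φ_pow n d
  · rw [zpow_neg, zpow_neg, zpow_natCast, zpow_natCast, Equiv.Perm.inv_eq_iff_eq, L.φ_pow]
    simp

lemma per_eq (d : T.D) : M.per (π d) = d.f := by
  have h : ∀ i : ℕ, Function.minimalPeriod M.φ (π d) ∣ i ↔ d.f ∣ i := fun i => by
    rw [← Function.isPeriodicPt_iff_minimalPeriod_dvd, ← Int.natCast_dvd_natCast, ← d.f_dvd,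
      zpow_natCast, ← L.π_eq, ← L.φ_pow, eq_comm, Equiv.Perm.coe_pow]
    rfl
  exact Nat.dvd_antisymm ((h _).2 dvd_rfl) ((h _).1 dvd_rfl)

lemma Pr_eq (z : D → ℝ) (d : T.D) (i : ℕ) : Pr M.φ z (π d) i = Pr T.φ (z ∘ π) d i :=
  prod_congr rfl fun _ _ => congrArg z (L.φ_pow _ d)

lemma sg_eq (z : D → ℝ) (d : T.D) : M.sg z (π d) = sig T.φ (z ∘ π) d d.f := by
  simp only [Mdl.sg, sig, L.per_eq, L.Pr_eq]

lemma sg_x (d : T.D) : M.sg x (π d) = d.s := by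
  rw [L.sg_eq, s_eq_sig, show x ∘ π = Tr.D.x from funext L.x_eq]

lemma κ_ne_iff (β : T.D) : M.κ (π β) ≠ π β ↔ ∃ β', (β, β') ∈ Bs.S := by
  refine ⟨fun h => by_contra fun h' => h (L.κ_non β fun β' e => h' ⟨β', e⟩), fun ⟨β', h⟩ e => ?_⟩
  obtain ⟨g, hg⟩ := (L.π_eq β β').1 (e.symm.trans (L.κ_base _ h))
  exact Bs.not_orbit h g hg.symm

lemma κ_κ (d : D) : M.κ (M.κ d) = d := by
  obtain ⟨β, rfl⟩ := L.surj d
  by_cases h : M.κ (π β) = π β
  · rw [h, h]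
  · obtain ⟨β', e⟩ := (L.κ_ne_iff β).1 h
    rw [L.κ_base _ e]
    exact L.κ_base _ (Bs.symm _ e)

lemma base_ex (d : D) : ∃ i : ℕ, M.κ ((M.φ ^ i) d) ≠ (M.φ ^ i) d := by
  obtain ⟨e, rfl⟩ := L.surj d
  obtain ⟨p, hp, h⟩ := Bs.ex _ e.a_mem
  obtain ⟨i, hi⟩ := fan h
  obtain ⟨g, hg⟩ := (e.f_dvd (e.f * (i / e.f))).2 (dvd_mul_right _ _)
  obtain ⟨r, hr⟩ := Int.eq_ofNat_of_zero_le (Int.emod_nonneg i (Nat.cast_ne_zero.2 e.f_pos.ne'))
  rw [← Int.emod_add_mul_ediv i e.f, hr, zpow_add, Equiv.Perm.mul_apply, hg, φ_zpow_smul,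
    zpow_natCast] at hi
  refine ⟨r, ?_⟩
  rw [L.φ_pow, ← L.π_smul g, ← hi]
  exact (L.κ_ne_iff _).2 ⟨p.2, hp⟩

lemma base_uniq {β β' : D} (h : M.κ β ≠ β) (h' : M.κ β' ≠ β') (e : M.φ.SameCycle β β') :
    β = β' := by
  obtain ⟨b, rfl⟩ := L.surj β
  obtain ⟨b', rfl⟩ := L.surj β'
  obtain ⟨c, hc⟩ := (L.κ_ne_iff b).1 h
  obtain ⟨c', hc'⟩ := (L.κ_ne_iff b').1 h'
  obtain ⟨i, hi⟩ := e
  rw [L.lift2_zpow] at hi
  obtain ⟨g, hg⟩ := (L.π_eq _ _).1 hi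
  obtain ⟨k, hk⟩ := Bs.uniq _ (Bs.inv g _ hc) _ hc' (by simp only [hg, smul_a, φ_zpow_a])
  rw [show b' = k • g • b from congrArg Prod.fst hk, L.π_smul, L.π_smul]

lemma base_eq {w : V} (hw : w ∈ SS Γ l) {d : T.D} (h : Str w d) {p : T.D × T.D} (hp : p ∈ Bs.S)
    (e : d = (T.φ ^ M.oi (ϖ w d)) p.1) (e' : T.ι (jmp w d) = (T.φ ^ M.oj (ϖ w d)) p.2) :
    M.base (ϖ w d) = π p.1 ∧ M.κ (M.base (ϖ w d)) = π p.2 ∧
      M.tgt (ϖ w d) = π (T.ι (jmp w d)) := by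
  have h1 : M.base (ϖ w d) = π p.1 := by
    rw [Mdl.base, inv_pow, Equiv.Perm.inv_eq_iff_eq, L.φ_pow, ← e, L.bs_eq w hw d h]
  refine ⟨h1, by rw [h1, L.κ_base p hp], ?_⟩
  rw [Mdl.tgt, h1, L.κ_base p hp, L.φ_pow, ← e']

omit L in
lemma lift2_two {k : Fin 3} (h0 : ¬ k = 0) (h1 : ¬ k = 1) : k = 2 := by omega

lemma step_eq {w : V} (hw : w ∈ SS Γ l) {d : T.D} (h : Str w d) :
    M.step (ϖ w d) = π (τ w d) := by
  rw [Mdl.step, τ, L.kd_eq w hw d h, L.bs_eq w hw d h]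
  split_ifs with h0 h1
  · exact L.φ_eq d
  · exact L.ψ_eq d
  · obtain ⟨p, hp, -, -, e, e'⟩ := L.jump w hw d h (lift2_two h0 h1)
    rw [(L.base_eq hw h hp e e').2.2, L.ι_eq, ι_ι]

lemma nx_iter (hl : 0 < l) {w : V} (hw : w ∈ SS Γ l) {d : T.D} (h : Str w d) (m : ℕ) :
    M.nx^[m] (ϖ w d) = ϖ w ((τ w)^[m] d) ∧ Str w ((τ w)^[m] d) := by
  induction m with
  | zero => exact ⟨rfl, h⟩
  | succ m ih =>
    rw [Function.iterate_succ_apply', Function.iterate_succ_apply', ih.1]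
    exact ⟨L.nx_eq w hw _ ih.2, τ_str (SS.per hl hw) ih.2⟩

lemma period (s : Sys Γ l) {w : V} (hw : w ∈ SS Γ l) {d : T.D} (h : Str w d) :
    ϖ w d ∈ Function.periodicPts M.nx ∧
      (τ w)^[Function.minimalPeriod M.nx (ϖ w d)] d = (⟨ex l w, hw.2⟩ : Γ) • d := by
  obtain ⟨p, h0, h1, h2⟩ := itin (s.prim T.nice hw) h (γ := ⟨ex l w, hw.2⟩) (PM.refl _)
  have h3 : ∀ q, Function.IsPeriodicPt M.nx q (ϖ w d) ↔
      ∃ g : Γ, w = (g : SL(2, ℝ)) • w ∧ (τ w)^[q] d = g • d := fun q => by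
    rw [← L.ϖ_eq w hw d h w hw _ (L.nx_iter s.pos hw h q).2, ← (L.nx_iter s.pos hw h q).1, eq_comm]
    rfl
  have h4 := (h3 p).2 ⟨_, (ex_ad_self l w).symm, h1⟩
  refine ⟨⟨p, h0, h4⟩, ?_⟩
  rcases (h4.minimalPeriod_le h0).eq_or_lt with c | c
  · rwa [c]
  · obtain ⟨g, a1, a2⟩ := (h3 _).1 (Function.isPeriodicPt_minimalPeriod _ _)
    exact absurd a2 (h2 _ (h4.minimalPeriod_pos h0) c g a1.symm)

/-- The step matrices of the quotient along a path of parameters. -/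
lemma mat_eq {w : V} (hw : w ∈ SS Γ l) {d : T.D} (h : Str w d) (ξ η : D → ℝ)
    (η' : T.D → T.D → ℝ) (h1 : ∀ p ∈ Bs.S, η' p.1 p.2 = η (π p.1))
    (h4 : ∀ d d', d'.a = -d.a → η' d' d = η' d d')
    (h5 : ∀ d d', d'.a = -d.a → η' (T.φ d) d' = η' d d' + ξ (π (T.φ d))) (t : ℝ) :
    M.mat (pth x ξ t) (pth y η t) (ϖ w d) = smat (pth Tr.D.x (ξ ∘ π) t)
      (fun e => sig T.φ (pth Tr.D.x (ξ ∘ π) t) e e.f)
      (fun e e' => yy e e' * Real.exp (t * η' e e')) w d := by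
  have e0 : pth x ξ t ∘ π = pth Tr.D.x (ξ ∘ π) t := funext fun e => by
    simp only [pth, Function.comp, L.x_eq]
  have h6 : ∀ (i : ℕ) d d', d'.a = -d.a → η' ((T.φ ^ i) d) d' =
      η' d d' + ∑ m ∈ range i, (ξ ∘ π) ((T.φ ^ (m + 1)) d) := fun i d d' e => by
    induction i with
    | zero => simp
    | succ i ih =>
      rw [sum_range_succ, ← add_assoc, ← ih, pow_succ', Equiv.Perm.mul_apply,
        h5 _ _ (by rwa [φ_pow_a])]
      rfl
  rw [Mdl.mat, smat, L.kd_eq w hw d h, L.bs_eq w hw d h, L.φ_eq, L.ψ_eq, ← e0]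
  split_ifs with a0 a1
  · rfl
  · rfl
  obtain ⟨p, hp, -, -, e, e'⟩ := L.jump w hw d h (lift2_two a0 a1)
  obtain ⟨b1, b2, b3⟩ := L.base_eq hw h hp e e'
  have ho := Bs.opp p hp
  rw [Mdl.tw, b2, b1, b3, L.sg_eq, L.sg_eq, L.Pr_eq, L.Pr_eq]
  congr 1
  generalize M.oi (ϖ w d) = i at e ⊢
  generalize M.oj (ϖ w d) = j at e' ⊢
  rw [e', e0, Pr_pth, Pr_pth, pth, L.y_eq p hp, ← h1 p hp]
  conv_rhs => rw [e]
  rw [yy_pow ho, h6 i _ _ (by rwa [φ_pow_a]), ← h4 p.1 ((T.φ ^ j) p.2) (by rwa [φ_pow_a]),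
    h6 j _ _ (by rw [ho, neg_neg]), h4 _ _ ho]
  simp only [mul_add, Real.exp_add]
  ring

lemma mat_eq' {w : V} (hw : w ∈ SS Γ l) {d : T.D} (h : Str w d) :
    M.mat x y (ϖ w d) = smat Tr.D.x Tr.D.s yy w d := by
  have := L.mat_eq hw h 0 0 (fun _ _ => 0) (fun _ _ => rfl) (fun _ _ _ => rfl)
    (fun _ _ _ => by simp) 0
  simpa only [pth_zero, ← s_eq_sig, mul_zero, Real.exp_zero, mul_one] using this

theorem gen : M.Gen Γ x y := by
  intro d₀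
  obtain ⟨e, rfl⟩ := L.surj d₀
  have h1 : ∀ q g, M.Reach x y (π e) q g → ∃ d, π d = q ∧ PM (e.F * g) d.F := fun q g h => by
    induction h with
    | base => exact ⟨e, rfl, by rw [mul_one]; exact PM.refl _⟩
    | neg _ ih =>
      obtain ⟨d, a1, a2⟩ := ih
      exact ⟨d, a1, by rw [mul_neg]; exact (PM.neg _).symm.trans a2⟩
    | nu _ ih =>
      obtain ⟨d, rfl, a2⟩ := ih
      exact ⟨_, (L.ν_eq d).symm, by rw [← mul_assoc]; exact (a2.mul (PM.refl _)).trans (F_ν d)⟩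
    | io _ ih =>
      obtain ⟨d, rfl, a2⟩ := ih
      exact ⟨_, (L.ι_eq d).symm, by
        rw [← mul_assoc, L.x_eq]
        exact (a2.mul (PM.refl _)).trans (F_ι d)⟩
    | ka c _ ih =>
      obtain ⟨d, rfl, a2⟩ := ih
      obtain ⟨d', hd⟩ := (L.κ_ne_iff d).1 c
      refine ⟨d', (L.κ_base _ hd).symm, ?_⟩
      rw [L.κ_base _ hd, L.y_eq _ hd, L.sg_x, L.sg_x, ← mul_assoc, ← mul_assoc, ← mul_assoc]
      exact (((a2.mul (PM.refl _)).mul (PM.refl _)).mul (PM.refl _)).trans (F_opp (Bs.opp _ hd))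
  have h2 : ∀ {q g g' k}, M.Reach x y (π e) q (e.F⁻¹ * g * k) → PM (g * k) g' →
      M.Reach x y (π e) q (e.F⁻¹ * g') := fun h c => by
    rw [mul_assoc] at h
    rcases c with rfl | rfl
    · exact h
    · rw [mul_neg]
      exact h.neg
  have h3 := Bs.conn (U := {d | M.Reach x y (π e) (π d) (e.F⁻¹ * d.F)})
    (fun d hd => by
      have := Mdl.Reach.io hd
      rw [L.ι_eq, L.x_eq] at this
      exact h2 this (F_ι d))
    (fun d hd => by
      have := Mdl.Reach.nu hd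
      rw [L.ν_eq] at this
      exact h2 this (F_ν d))
    (fun p hp hd => by
      have := Mdl.Reach.ka ((L.κ_ne_iff p.1).2 ⟨p.2, hp⟩) hd
      rw [L.κ_base p hp, L.y_eq p hp, L.sg_x, L.sg_x, mul_assoc e.F⁻¹, mul_assoc e.F⁻¹] at this
      exact h2 this (F_opp (Bs.opp p hp)))
    ⟨e, by
      rw [Set.mem_ofPred_eq, inv_mul_cancel]
      exact Mdl.Reach.base⟩
  refine ⟨e.F, fun g => ⟨fun hg => ?_, fun h => ?_⟩⟩
  · have a1 : M.Reach x y (π e) (π ((⟨g, hg⟩ : Γ) • e)) (e.F⁻¹ * ((⟨g, hg⟩ : Γ) • e).F) :=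
      h3.ge (Set.mem_univ _)
    rw [L.π_smul, ← mul_one (_ * _)] at a1
    rw [mul_assoc]
    exact h2 a1 (by rw [mul_one]; exact (F_smul ⟨g, hg⟩ e).symm)
  · obtain ⟨d, a1, a2⟩ := h1 _ _ h
    obtain ⟨γ, rfl⟩ := (L.π_eq e d).1 a1.symm
    have a3 := ((F_smul γ e).trans a2.symm).mul (PM.refl e.F⁻¹)
    rw [mul_inv_cancel_right, mul_assoc _ g, mul_inv_cancel_left, mul_inv_cancel_right] at a3
    exact a3.mem T.nice.neg_one_mem γ.2


end Tr.Lift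

end

end Pool.Agent.P.MP_d39174_gt

end

section
/-! The quotient type is realised as a critical point. -/

namespace Pool.Agent.P.MP_d39174_gt

open UpperHalfPlane MatrixGroups

noncomputable section

namespace Tr.Lift

variable {Γ : Subgroup SL(2, ℝ)} {T : Tr Γ} {l : ℝ} {Bs : T.Base} {m₀ : ℕ} {D S : Type}
  [Fintype S] {M : Mdl D S} {π : T.D → D} {ϖ : V → T.D → S} {x y : D → ℝ}

omit [Fintype S] in
private lemma Lift3_Pr (L : Lift l Bs m₀ M π ϖ x y) (s : Sys Γ l) (sub : T.A ⊆ SS Γ l) (d : D) :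
    Pr M.φ x d (M.per d) = Real.exp (-l) := by
  obtain ⟨e, rfl⟩ := L.surj d
  have hx : x ∘ π = Tr.D.x := funext L.x_eq
  rw [L.per_eq, L.Pr_eq, hx]
  exact Pr_f e (s.prim T.nice (sub e.a_mem))

private lemma Lift3_str {n : V} (hn : Per Γ n) : ∃ d : T.D, Str n d := by
  by_cases h : n ∈ T.A
  · obtain ⟨b, hb⟩ := T.has (-n) (T.ws.neg n h)
    exact ⟨⟨(-n, b), hb⟩, Or.inr (neg_neg n).symm⟩
  · obtain ⟨d, hd⟩ := exists_stn hn h
    exact ⟨d, Or.inl ⟨h, hd⟩⟩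

omit [Fintype S] in
private lemma Lift3_twist (L : Lift l Bs m₀ M π ϖ x y) (ξ η : D → ℝ) (μ : ℝ)
    (hη : ∀ d, η (M.κ d) = η d)
    (hμ : ∀ d, ∑ m ∈ Finset.range (M.per d), ξ ((M.φ ^ (m + 1)) d) = μ) :
    ∃ K : T.D → T.D → ℝ, (∀ p ∈ Bs.S, K p.1 p.2 = η (π p.1)) ∧
      (∀ (g : Γ) d d', d'.a = -d.a → K (g • d) (g • d') = K d d') ∧
      (∀ d d', d'.a = -d.a → K d' d = K d d') ∧
      ∀ d d', d'.a = -d.a → K (T.φ d) d' = K d d' + ξ (π (T.φ d)) := by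
  have hs : ∀ d : T.D, ∑ m ∈ Finset.range d.f, ξ (π ((T.φ ^ (m + 1)) d)) = μ := by
    intro d
    have h := hμ (π d)
    rw [L.per_eq] at h
    simpa only [L.φ_pow] using h
  obtain ⟨K, h1, h2, h3, h4⟩ := exK (M := ℝ) Bs (fun _ => LinearMap.id) 1 (one_mul 1)
    (fun d => ξ (π d)) (fun g d => by simp only [L.π_smul, LinearMap.id_apply])
    (fun β _ => η (π β)) (fun g p _ => by simp only [L.π_smul, LinearMap.id_apply])
    (fun p hp => by simp only [one_smul]; rw [← L.κ_base p hp, hη])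
    (fun p _ γ _ => by
      have e := hs (γ • p.2)
      rw [f_smul] at e
      simp only [one_smul]
      rw [e, hs, L.π_smul]
      ring)
  exact ⟨K, h1, fun g d d' h => by simpa only [LinearMap.id_apply] using h2 g d d' h,
    fun d d' h => by simpa only [one_smul] using h3 d d' h, h4⟩

theorem real (L : Lift l Bs m₀ M π ϖ x y) (s : Sys Γ l) (c : CritV Γ l) (sub : T.A ⊆ SS Γ l)
    (hj : ∀ a ∈ T.A, ∃ w ∈ SS Γ l, ∃ d : T.D, d.a = a ∧ Str w d ∧ kind w d = 2) :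
    M.Real x y (2 * Real.cosh l) := by
  have per : ∀ {w : V}, w ∈ SS Γ l → Per Γ w := fun hw => ⟨hw.1, l, s.pos, hw.2⟩
  refine ⟨fun d => ?_, L.y_pos, fun d => ?_, L.y_κ, fun d => ?_, fun d => ?_, fun σ _ => ?_, ?_,
    fun σ _ => ?_, fun β hβ => ?_, L.base_ex⟩
  · obtain ⟨e, rfl⟩ := L.surj d
    rw [L.x_eq]
    exact e.x_pos
  · obtain ⟨e, rfl⟩ := L.surj d
    rw [L.ι_eq, L.x_eq, L.x_eq, x_ι]
  · rw [Lift3_Pr L s sub]
    exact Real.exp_lt_one_iff.2 (neg_lt_zero.2 s.pos)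
  · rw [Lift3_Pr L s sub, Real.cosh_eq, one_div, ← Real.exp_neg, neg_neg]
    ring
  · obtain ⟨w, hw, d, h, rfl⟩ := L.ϖ_surj σ
    have e : (fun m => M.mat x y (M.nx^[m] (ϖ w d))) =
        fun m => smat Tr.D.x Tr.D.s yy w ((τ w)^[m] d) := by
      funext m
      obtain ⟨h1, h2⟩ := L.nx_iter s.pos hw h m
      rw [h1, L.mat_eq' hw h2]
    unfold Mdl.trW
    rw [e]
    exact trace_word (per hw) h (γ := ⟨ex l w, hw.2⟩) (PM.refl _) (L.period s hw h).2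
  · choose w hw d hd e using L.ϖ_surj
    obtain ⟨k, hk, hsum⟩ := c.redistribute w hw (fun n hn => by
      obtain ⟨d0, h0⟩ := Lift3_str (T := T) (per hn)
      obtain ⟨g, hg, -⟩ := (L.ϖ_eq _ (hw (ϖ n d0)) _ (hd (ϖ n d0)) n hn d0 h0).1 (e _)
      exact ⟨ϖ n d0, g, g.2, Or.inl hg⟩)
    refine ⟨k, fun σ _ => hk σ, fun ξ η μ hξ hη hμ => ?_⟩
    obtain ⟨K, h1, h2, h3, h4⟩ := Lift3_twist L ξ η μ hη hμ
    obtain ⟨u, hu, hder⟩ := shear_coc (ξ ∘ π) K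
      (fun d => by simp only [Function.comp_apply]; rw [← L.ι_eq, hξ])
      (fun g d => by simp only [Function.comp_apply, L.π_smul]) h2 h3 h4
    have key : ∀ σ, deriv (fun t => M.trW (pth x ξ t) (pth y η t) σ) 0 =
        2 * Real.sinh l * B (u (ex l (w σ))) (w σ) := by
      intro σ
      rw [← hder (w σ) (d σ) l ⟨ex l (w σ), (hw σ).2⟩ _ (per (hw σ)) (hd σ) (PM.refl _)
        (L.period s (hw σ) (hd σ)).2]
      congr 1
      funext t
      unfold Mdl.trW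
      rw [e σ]
      congr 2
      funext m
      obtain ⟨a1, a2⟩ := L.nx_iter s.pos (hw σ) (hd σ) m
      rw [e σ] at a1
      rw [a1, L.mat_eq (hw σ) a2 ξ η K h1 h3 h4 t]
    have hf : (Finset.univ.filter fun σ => M.on σ = true) = Finset.univ :=
      Finset.filter_true_of_mem fun σ _ => L.on_all σ
    rw [hf]
    calc ∑ σ, k σ * deriv (fun t => M.trW (pth x ξ t) (pth y η t) σ) 0
        = 2 * Real.sinh l * ∑ σ, k σ * B (u (ex l (w σ))) (w σ) := by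
          rw [Finset.mul_sum]
          exact Finset.sum_congr rfl fun σ _ => by rw [key]; ring
      _ = 0 := by rw [hsum u hu, mul_zero]
  · obtain ⟨w, hw, d, h, rfl⟩ := L.ϖ_surj σ
    exact (L.period s hw h).1
  · obtain ⟨b, rfl⟩ := L.surj β
    obtain ⟨b', hb⟩ := (L.κ_ne_iff b).1 hβ
    obtain ⟨w, hw, d, hda, h, hk⟩ := hj b.a b.a_mem
    obtain ⟨p, hp, -, -, e, e'⟩ := L.jump w hw d h hk
    refine ⟨ϖ w d, L.on_all _, by rw [L.kd_eq w hw d h, hk], ?_⟩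
    have ha : p.1.a = b.a := by rw [← hda, e, φ_pow_a]
    obtain ⟨g, hg⟩ := Bs.uniq p hp (b, b') hb ha
    have hb1 : b = g • p.1 := congrArg Prod.fst hg
    rw [(L.base_eq hw h hp e e').1, hb1, L.π_smul]

end Tr.Lift

end

end Pool.Agent.P.MP_d39174_gt

end

section
/-! The quotient type satisfies the counting constraints. -/

namespace Pool.Agent.P.MP_d39174_gt

open UpperHalfPlane MatrixGroups

noncomputable section

namespace Tr.Lift

variable {Γ : Subgroup SL(2, ℝ)} {T : Tr Γ} {l : ℝ} {Bs : T.Base} {m₀ : ℕ} {D S : Type}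
  [Fintype D] [Fintype S] {M : Mdl D S} {π : T.D → D} {ϖ : V → T.D → S} {x y : D → ℝ}

private lemma pm_pow {g h : SL(2, ℝ)} (e : PM g h) (k : ℕ) : PM (g ^ k) (h ^ k) := by
  induction k with
  | zero => rw [pow_zero, pow_zero]; exact PM.refl 1
  | succ k ih => rw [pow_succ, pow_succ]; exact ih.mul e

private lemma fix_of_pow {g : Γ} {d : T.D} {k : ℕ} (hk : 0 < k) (h : g ^ k • d = d) :
    g • d = d := by
  have h1 : PM 1 ((g ^ k : Γ) : SL(2, ℝ)) := pm_of_smul_eq h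
  have h2 : PM 1 (g : SL(2, ℝ)) := by
    by_contra h2
    obtain ⟨n, t, hn, ht, e, -⟩ := T.nice.exists_ex g.2 h2
    have h3 := pm_pow e k
    rw [ex_pow] at h3
    rw [Subgroup.coe_pow, ← ex_zero n] at h1
    have h4 := ex_pm_inj hn (h3.trans h1.symm)
    have h5 : (0 : ℝ) < k := Nat.cast_pos.2 hk
    exact (mul_pos h5 ht).ne' h4
  have h3 := smul_of_pm (g := 1) (h := g) h2 d
  rw [one_smul] at h3
  exact h3.symm

private lemma ι_not_orbit (g : Γ) (d : T.D) : T.ι d ≠ g • d := by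
  intro e
  have h1 : g ^ 2 • d = d := by
    rw [pow_two, mul_smul, ← e, ← ι_smul, ← e, ι_ι]
  rw [fix_of_pow two_pos h1] at e
  exact d.a_ne_b (congrArg Tr.D.a e).symm

private lemma ν_not_orbit (g : Γ) (d : T.D) : T.ν d ≠ g • d := by
  intro e
  have h1 : g ^ 3 • d = d := by
    rw [pow_three, mul_smul, mul_smul, ← e, ← ν_smul, ← e, ← ν_smul, ← ν_smul, ← e, ν_ν_ν]
  rw [fix_of_pow three_pos h1] at e
  exact d.a_ne_b (congrArg Tr.D.a e).symm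

private lemma card_le_of_sub {X Y : Type} {A : Finset Y} {U : Set X} (hU : U.Finite) (f : X → Y)
    {n : ℕ} (hn : U.ncard ≤ n) (h : ∀ a ∈ A, ∃ u ∈ U, f u = a) : A.card ≤ n := by
  rw [← Set.ncard_coe_finset]
  exact ((Set.ncard_le_ncard (fun a ha => h a ha) (hU.image f)).trans
    (Set.ncard_image_le hU)).trans hn

theorem shape (L : Lift l Bs m₀ M π ϖ x y) (hl : 0 < l) {D₀ : ℕ}
    (conn : ∀ U : Set T.D, (∀ g : Γ, ∀ d ∈ U, g • d ∈ U) → (∀ d ∈ U, T.ι d ∈ U) →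
      (∀ d ∈ U, T.ν d ∈ U) → U.Nonempty → U = Set.univ)
    (b1 : ∀ d : T.D, {w | w ∈ SS Γ l ∧ Str w d}.Finite ∧ {w | w ∈ SS Γ l ∧ Str w d}.ncard ≤ D₀)
    (b2 : ∀ β : T.D, {q : V × ℕ | q.1 ∈ SS Γ l ∧ q.2 ≤ β.f ∧ Str q.1 ((T.φ ^ q.2) β) ∧
        kind q.1 ((T.φ ^ q.2) β) = 2}.Finite ∧
      {q : V × ℕ | q.1 ∈ SS Γ l ∧ q.2 ≤ β.f ∧ Str q.1 ((T.φ ^ q.2) β) ∧
        kind q.1 ((T.φ ^ q.2) β) = 2}.ncard ≤ D₀) :
    ∃ k, M.Shape k m₀ D₀ ∧ ∃ F : Finset V, F.card ≤ 2 * k ∧ (∀ m ∈ F, m ∈ T.A) ∧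
      ∀ a ∈ T.A, ∃ g ∈ Γ, ∃ m ∈ F, a = g • m := by
  classical
  have hκ : M.κ ^ 2 = 1 := by
    ext d
    rw [pow_two, Equiv.Perm.mul_apply, L.κ_κ, Equiv.Perm.one_apply]
  obtain ⟨k, hk⟩ := Equiv.Perm.two_dvd_card_support hκ
  obtain ⟨σ, hσ⟩ := L.surj.hasRightInverse
  refine ⟨k, ⟨?_, ?_, ?_, ?_, ?_, L.κ_κ, ?_, L.base_ex, fun β β' h h' e => L.base_uniq h h' e, ?_,
    ?_, fun s _ h => L.off s h, ?_, ?_, ?_⟩, M.κ.support.image (fun q => (σ q).a), ?_, ?_, ?_⟩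
  · exact ⟨π (Classical.arbitrary T.D)⟩
  · intro q
    obtain ⟨d, rfl⟩ := L.surj q
    rw [L.ι_eq, L.ι_eq, ι_ι]
  · intro q e
    obtain ⟨d, rfl⟩ := L.surj q
    rw [L.ι_eq] at e
    obtain ⟨g, hg⟩ := (L.π_eq _ _).1 e.symm
    exact ι_not_orbit g d hg
  · intro q
    obtain ⟨d, rfl⟩ := L.surj q
    rw [L.ν_eq, L.ν_eq, L.ν_eq, ν_ν_ν]
  · intro q e
    obtain ⟨d, rfl⟩ := L.surj q
    rw [L.ν_eq] at e
    obtain ⟨g, hg⟩ := (L.π_eq _ _).1 e.symm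
    exact ν_not_orbit g d hg
  · intro U h1 h2 ⟨q, hq⟩
    have h := conn (π ⁻¹' U) (fun g d hd => by
        rw [Set.mem_preimage, L.π_smul]; exact hd)
      (fun d hd => by rw [Set.mem_preimage, ← L.ι_eq]; exact h1 _ hd)
      (fun d hd => by rw [Set.mem_preimage, ← L.ν_eq]; exact h2 _ hd)
      ⟨σ q, by rw [Set.mem_preimage, hσ q]; exact hq⟩
    refine Set.eq_univ_of_forall fun r => ?_
    have h3 : σ r ∈ π ⁻¹' U := by rw [h]; exact Set.mem_univ _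
    rwa [Set.mem_preimage, hσ r] at h3
  · rw [← hk]
    congr 1
  · intro s _
    obtain ⟨w, hw, d, hd, rfl⟩ := L.ϖ_surj s
    refine ⟨L.on_all _, ?_⟩
    rw [L.nx_eq w hw d hd, L.bs_eq w hw _ (τ_str (SS.per hl hw) hd), L.step_eq hw hd]
  · intro s _ h2
    obtain ⟨w, hw, d, hd, rfl⟩ := L.ϖ_surj s
    rw [L.kd_eq w hw d hd] at h2
    obtain ⟨p, hp, h3, h4, h5, h6⟩ := L.jump w hw d hd h2
    obtain ⟨e1, e2, -⟩ := L.base_eq hw hd hp h5 h6
    refine ⟨?_, ?_, ?_⟩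
    · rw [e1]
      exact (L.κ_ne_iff _).2 ⟨p.2, hp⟩
    · rw [e1, L.per_eq]
      exact h3.le
    · rw [e2, L.per_eq]
      exact h4
  · intro q
    refine card_le_of_sub (b1 (σ q)).1 (fun w => ϖ w (σ q)) (b1 (σ q)).2 fun s hs => ?_
    obtain ⟨w, hw, d, hd, rfl⟩ := L.ϖ_surj s
    have h1 := (Finset.mem_filter.1 hs).2.2
    rw [L.bs_eq w hw d hd, ← hσ q] at h1
    obtain ⟨g, hg⟩ := (L.π_eq _ _).1 h1
    have h2 : Str ((g : SL(2, ℝ)) • w) (σ q) := by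
      rw [hg]; exact (str_smul hw.1 g d).2 hd
    exact ⟨_, ⟨SS.ad hw g.2, h2⟩, ((L.ϖ_eq w hw d hd _ (SS.ad hw g.2) _ h2).2 ⟨g, rfl, hg⟩).symm⟩
  · intro q
    refine card_le_of_sub (b2 (σ q)).1 (fun r => ϖ r.1 ((T.φ ^ r.2) (σ q))) (b2 (σ q)).2
      fun s hs => ?_
    obtain ⟨w, hw, d, hd, rfl⟩ := L.ϖ_surj s
    obtain ⟨-, h2, h1⟩ := (Finset.mem_filter.1 hs).2
    rw [L.kd_eq w hw d hd] at h2
    obtain ⟨p, hp, h3, -, h5, h6⟩ := L.jump w hw d hd h2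
    rw [(L.base_eq hw hd hp h5 h6).1, ← hσ q] at h1
    obtain ⟨g, hg⟩ := (L.π_eq _ _).1 h1
    have h7 : (T.φ ^ M.oi (ϖ w d)) (σ q) = g • d := by
      rw [hg, φ_pow_smul, ← h5]
    have h8 : Str ((g : SL(2, ℝ)) • w) (g • d) := (str_smul hw.1 g d).2 hd
    refine ⟨((g : SL(2, ℝ)) • w, M.oi (ϖ w d)), ⟨SS.ad hw g.2, ?_, ?_, ?_⟩, ?_⟩
    · rw [hg, f_smul]
      exact h3.le
    · dsimp only
      rw [h7]
      exact h8
    · dsimp only
      rw [h7, kind_smul hw.1, h2]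
    · dsimp only
      rw [h7]
      exact ((L.ϖ_eq w hw d hd _ (SS.ad hw g.2) _ h8).2 ⟨g, rfl, rfl⟩).symm
  · rw [← hk]
    exact Finset.card_image_le
  · intro m hm
    obtain ⟨q, -, rfl⟩ := Finset.mem_image.1 hm
    exact (σ q).a_mem
  · intro a ha
    obtain ⟨p, hp, rfl⟩ := Bs.ex a ha
    obtain ⟨g, hg⟩ := (L.π_eq _ _).1 (hσ (π p.1))
    refine ⟨g, g.2, (σ (π p.1)).a, Finset.mem_image.2 ⟨π p.1, ?_, rfl⟩, ?_⟩
    · exact Equiv.Perm.mem_support.2 ((L.κ_ne_iff _).2 ⟨p.2, hp⟩)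
    · exact congrArg Tr.D.a hg

end Tr.Lift

end

end Pool.Agent.P.MP_d39174_gt

end

section
/-! Uniform bounds for stations and jumps. -/

namespace Pool.Agent.P.MP_d39174_gt

open UpperHalfPlane MatrixGroups

noncomputable section

namespace Tr

private lemma Bounds_pt_smul {x : V} (hx : Fut x) {t : ℝ} (ht : 0 < t) : pt (t • x) = pt x := by
  apply Hy_inj
  have h0 : 0 < -B x x := by linarith [hx.1]
  have h1 : -B (t • x) (t • x) = t ^ 2 * -B x x := by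
    rw [B_smul_left, B_smul_right]; ring
  have h2 : 0 < √(-B x x) := Real.sqrt_pos.2 h0
  rw [Hy_pt (hx.smul ht), Hy_pt hx, h1, Real.sqrt_mul (sq_nonneg t), Real.sqrt_sq ht.le, smul_smul]
  congr 1
  field_simp

private lemma Bounds_ord {Γ : Subgroup SL(2, ℝ)} {l : ℝ} (s : Sys Γ l) {A : Set V}
    (ws : WallSys Γ A) (f : Far Γ l A) {p a w : V} (hp : Wit A p) (ha : a ∈ A) (hap : B a p = 1)
    (hw : w ∈ SS Γ l) (h1 : 0 < B w (p - a)) (h2 : B w p ≤ 0) :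
    |B w (Hy (pt (p - a)))| ≤ Real.sinh (2 * l) := by
  have ua : B a a = 1 := (ws.per a ha).1
  rw [B_sub_right] at h1
  have hu : B w a < 0 := by linarith
  obtain ⟨σ, hσ⟩ : ∃ σ : ℝ, σ = B w p / B w a := ⟨_, rfl⟩
  have s0 : 0 ≤ σ := by rw [hσ]; exact div_nonneg_of_nonpos h2 hu.le
  have s1 : σ < 1 := by rw [hσ, div_lt_one_of_neg hu]; linarith
  have e0 : σ * B w a = B w p := by rw [hσ]; exact div_mul_cancel₀ _ hu.ne
  have fq : Fut (p - σ • a) := by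
    have := hp.1.foot ua s0 s1.le
    rwa [hap, mul_one] at this
  have fa : Fut (p - a) := by
    have := hp.1.foot ua zero_le_one le_rfl
    rwa [hap, mul_one, one_smul] at this
  have key : ∀ n ∈ A, 1 ≤ B n p → 1 - σ ≤ B n (p - σ • a) := by
    intro n hn hnp
    by_cases e : n = a
    · rw [e, B_sub_right, B_smul_right, hap, ua, mul_one]
    · have hf : Fac n a := nearest_fac ws hp ha hap hn (by linarith) e
      have h3 : 0 < B n (p - a) :=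
        Fac.pos (ws.per n hn).1 ua hf fa (by rw [B_sub_right, hap, ua, sub_self])
      rw [B_sub_right] at h3
      rw [B_sub_right, B_smul_right]
      nlinarith [mul_nonneg s0 h3.le, mul_nonneg (sub_nonneg.2 s1.le) (sub_nonneg.2 hnp)]
  have key2 : ∀ n ∈ A, 1 - σ ≤ |B n (p - σ • a)| := by
    intro n hn
    rcases le_abs.1 (hp.2 n hn) with h | h
    · exact (key n hn h).trans (le_abs_self _)
    · have := key (-n) (ws.neg n hn) (by rwa [B_neg_left])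
      rw [B_neg_left] at this
      exact this.trans (neg_le_abs _)
  obtain ⟨c, hc, ec⟩ : ∃ c : ℝ, 0 < c ∧ Hy (pt (p - σ • a)) = c • (p - σ • a) :=
    ⟨_, one_div_pos.2 (Real.sqrt_pos.2 (by linarith [fq.1])), Hy_pt fq⟩
  have hz : B w (Hy (pt (p - σ • a))) = 0 := by
    rw [ec, B_smul_right, B_sub_right, B_smul_right, e0, sub_self, mul_zero]
  obtain ⟨n, hn, hb⟩ := f.nearK s ws hw hz
  have ea : B a (Hy (pt (p - σ • a))) = c * (1 - σ) := by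
    rw [ec, B_smul_right, B_sub_right, B_smul_right, hap, ua, mul_one]
  have hb2 : |B a (Hy (pt (p - σ • a)))| ≤ Real.sinh (2 * l) := by
    rw [ec, B_smul_right, abs_mul, abs_of_pos hc] at hb
    rw [ea, abs_of_pos (mul_pos hc (by linarith))]
    exact (mul_le_mul_of_nonneg_left (key2 n hn) hc.le).trans hb
  obtain ⟨z, -, hd, ez⟩ := exists_foot ua (pt (p - σ • a))
  obtain ⟨k, hk, ek⟩ : ∃ k : ℝ, 0 < k ∧
      Hy z = k • (Hy (pt (p - σ • a)) - B a (Hy (pt (p - σ • a))) • a) :=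
    ⟨_, one_div_pos.2 (Real.sqrt_pos.2 (by positivity)), ez⟩
  have e2 : Hy z = (k * c) • (p - a) := by
    rw [ek, ea, ec]
    module
  have e3 : pt (p - a) = z := by
    rw [← Bounds_pt_smul fa (mul_pos hk hc), ← e2, pt_Hy]
  rw [e3]
  refine abs_B_le_sinh hw.1 hz ?_
  rw [dist_comm, hd, ← Real.arsinh_sinh (2 * l)]
  exact Real.arsinh_le_arsinh.2 hb2

private lemma Bounds_first (C : ℝ) : ∃ R : ℝ, ∀ (Γ : Subgroup SL(2, ℝ)) (l : ℝ) (T : Tr Γ),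
    Sys Γ l → l ≤ C → Far Γ l T.A → ∀ (d : T.D) (w : V), w ∈ SS Γ l → w ∉ T.A → Crs w d →
    First w d → |B w d.a| < 1 → |B w (Hy (onW d.a |d.r|))| ≤ R := by
  obtain ⟨β, hβ, hA⟩ := angle_bound C
  obtain ⟨R, hR⟩ := window_bound β (Real.exp (2 * |C|)) hβ
    (Real.one_le_exp (by positivity))
  refine ⟨R, fun Γ l T s hC f d w hw hwA h1 h2 h3 => ?_⟩
  have ha : d.a ∈ SS Γ l := f.sub d.a_mem
  obtain ⟨k1, -, k3⟩ := first_iff (SS.per s.pos hw) hwA h3 h1.1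
  obtain ⟨k4, k5⟩ := k3.1 ⟨h1, h2⟩
  obtain ⟨r1, r2⟩ := r_ex (g := ⟨ex l d.a, ha.2⟩) (d := d) (t := l) (PM.refl _)
  have r0 := d.r_neg
  have e1 : 1 < Real.exp (2 * l) := Real.one_lt_exp_iff.2 (by linarith [s.pos])
  have e2 : Real.exp (2 * l) ≤ Real.exp (2 * |C|) :=
    Real.exp_le_exp.2 (by linarith [le_abs_self C])
  have k6 : Real.exp (2 * l) * d.r ≤ crd d.a (-w) := by
    by_contra hh
    have := k5 _ r1 (by rw [r2]; exact not_le.1 hh)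
    rw [r2] at this
    nlinarith
  have hb : |B d.a (-w)| ≤ β := by
    rw [B_neg_right, abs_neg, B_comm]
    exact hA Γ l T.nice s.pos hC w hw d.a ha h3
  have := hR d.a (-w) |d.r| d.a_unit (SS.neg hw).1 hb (abs_pos.2 r0.ne)
    (by rw [abs_of_neg k1, abs_of_neg r0]; nlinarith)
    (by rw [abs_of_neg k1, abs_of_neg r0]; nlinarith)
  rwa [B_neg_left, abs_neg] at this

/-- Only boundedly many systolic walls have a given dart as a station. -/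
theorem str_bound (C : ℝ) : ∃ M : ℕ, ∀ (Γ : Subgroup SL(2, ℝ)) (l : ℝ) (T : Tr Γ), Sys Γ l →
    1 / 2 ≤ l → l ≤ C → Far Γ l T.A → ∀ d : T.D,
    {w | w ∈ SS Γ l ∧ Str w d}.Finite ∧ {w | w ∈ SS Γ l ∧ Str w d}.ncard ≤ M := by
  obtain ⟨R, hR⟩ := Bounds_first C
  obtain ⟨M, hM⟩ := packS C (max R (Real.sinh (2 * C)))
  refine ⟨1 + M + M + M + M, fun Γ l T s h2 hC f d => ?_⟩
  obtain ⟨ha, hb, -, p, hp, hap, hbp⟩ := T.del d.1 d.2
  let S : ℍ → Set V := fun z => {n | n ∈ SS Γ l ∧ |B n (Hy z)| ≤ max R (Real.sinh (2 * C))}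
  have fS : ∀ z, (S z).Finite := fun z => T.nice.lf_SS s.pos z _
  have cS : ∀ z, (S z).ncard ≤ M := fun z => hM Γ l T.nice s h2 hC z
  have hs : Real.sinh (2 * l) ≤ max R (Real.sinh (2 * C)) :=
    (Real.sinh_le_sinh.2 (by linarith)).trans (le_max_right _ _)
  have sub : {w | w ∈ SS Γ l ∧ Str w d} ⊆ {-d.a} ∪ S (pt (p - d.a)) ∪ S (pt (p - d.b)) ∪
      S (onW d.a |d.r|) ∪ S (onW (T.ι d).a |(T.ι d).r|) := by
    rintro w ⟨hw, ⟨hwA, h1, h3, h4⟩ | h⟩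
    · have pw := SS.per s.pos hw
      by_cases ca : |B w d.a| < 1
      · exact Or.inl (Or.inr ⟨hw, (hR Γ l T s hC f d w hw hwA h1 (h3 ca) ca).trans
          (le_max_left _ _)⟩)
      by_cases cb : |B w d.b| < 1
      · obtain ⟨c1, c2⟩ := crs_neg pw hwA d
        have hn : -w ∉ T.A := fun h => hwA (by simpa using T.ws.neg _ h)
        have := hR Γ l T s hC f (T.ι d) (-w) (SS.neg hw) hn (c1.2 h1) ((c2 h1).2 (h4 cb))
          (by rwa [B_neg_left, abs_neg])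
        rw [B_neg_left, abs_neg] at this
        exact Or.inr ⟨hw, this.trans (le_max_left _ _)⟩
      obtain ⟨f1, -, f3, -⟩ := fac_of_crs pw hwA h1 ca cb
      have fa : Fut (p - d.a) := by
        have := hp.1.foot d.a_unit zero_le_one le_rfl
        rwa [show B d.a p = 1 from hap, mul_one, one_smul] at this
      have fb : Fut (p - d.b) := by
        have := hp.1.foot d.b_unit zero_le_one le_rfl
        rwa [show B d.b p = 1 from hbp, mul_one, one_smul] at this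
      have pa : 0 < B w (p - d.a) := Fac.pos hw.1 d.a_unit f1 fa
        (by rw [B_sub_right, show B d.a p = 1 from hap, d.a_unit, sub_self])
      have pb : 0 < B (-w) (p - d.b) := Fac.pos (SS.neg hw).1 d.b_unit f3 fb
        (by rw [B_sub_right, show B d.b p = 1 from hbp, d.b_unit, sub_self])
      rcases le_total (B w p) 0 with h0 | h0
      · exact Or.inl (Or.inl (Or.inl (Or.inr
          ⟨hw, (Bounds_ord s T.ws f hp ha hap hw pa h0).trans hs⟩)))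
      · have := Bounds_ord s T.ws f hp hb hbp (SS.neg hw) pb (by rw [B_neg_left]; linarith)
        rw [B_neg_left, abs_neg] at this
        exact Or.inl (Or.inl (Or.inr ⟨hw, this.trans hs⟩))
    · exact Or.inl (Or.inl (Or.inl (Or.inl h)))
  have fin := ((((Set.finite_singleton (-d.a)).union (fS (pt (p - d.a)))).union
    (fS (pt (p - d.b)))).union (fS (onW d.a |d.r|))).union (fS (onW (T.ι d).a |(T.ι d).r|))
  refine ⟨fin.subset sub, (Set.ncard_le_ncard sub fin).trans ?_⟩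
  refine (Set.ncard_union_le _ _).trans (add_le_add ?_ (cS _))
  refine (Set.ncard_union_le _ _).trans (add_le_add ?_ (cS _))
  refine (Set.ncard_union_le _ _).trans (add_le_add ?_ (cS _))
  refine (Set.ncard_union_le _ _).trans (add_le_add ?_ (cS _))
  exact (Set.ncard_singleton _).le

end Tr

end

end Pool.Agent.P.MP_d39174_gt

end

section
/-! Offsets of jumps. -/

namespace Pool.Agent.P.MP_d39174_gt

open UpperHalfPlane MatrixGroups

noncomputable section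

namespace Tr

lemma Bounds2_scale {x y l : ℝ} (hx : 0 < x) (hy : 0 < y) (hl : 0 < l) :
    ∃ m : ℤ, y ≤ Real.exp (2 * (m * l)) * x ∧
      Real.exp (2 * (m * l)) * x < Real.exp (2 * l) * y := by
  obtain ⟨u, hu⟩ : ∃ u : ℝ, u = Real.log (y / x) / (2 * l) := ⟨_, rfl⟩
  have hu' : u * (2 * l) = Real.log (y / x) := by
    rw [hu]
    exact div_mul_cancel₀ _ (by positivity)
  refine ⟨⌈u⌉, ?_, ?_⟩
  · have h1 : u ≤ ⌈u⌉ := Int.le_ceil u
    have h2 : Real.log (y / x) ≤ 2 * (⌈u⌉ * l) := by nlinarith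
    have h3 := Real.exp_le_exp.2 h2
    rw [Real.exp_log (by positivity), div_le_iff₀ hx] at h3
    exact h3
  · have h1 : (⌈u⌉ : ℝ) < u + 1 := Int.ceil_lt_add_one u
    have h2 : 2 * (⌈u⌉ * l) < 2 * l + Real.log (y / x) := by nlinarith
    have h3 := Real.exp_lt_exp.2 h2
    rw [Real.exp_add, Real.exp_log (by positivity)] at h3
    have h4 := mul_lt_mul_of_pos_right h3 hx
    rwa [mul_assoc (Real.exp (2 * l)), div_mul_cancel₀ _ hx.ne'] at h4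

variable {Γ : Subgroup SL(2, ℝ)} {T : Tr Γ}

lemma Bounds2_first {l : ℝ} (hl : 0 < l) (hA : T.A ⊆ SS Γ l) {w : V} (hw : Per Γ w)
    (h : w ∉ T.A) {d : T.D} (h1 : |B w d.a| < 1) (hc : Crs w d) (hf : First w d) :
    0 < crd d.a w ∧ crd d.a (-w) < d.r ∧ Real.exp (2 * l) * d.r ≤ crd d.a (-w) ∧
      ∀ e : T.D, e.a = d.a → crd d.a (-w) < e.r → d.r ≤ e.r := by
  obtain ⟨-, h3, h4⟩ := first_iff hw h h1 hc.1
  obtain ⟨h5, h6⟩ := h4.1 ⟨hc, hf⟩
  refine ⟨h3, h5, ?_, h6⟩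
  by_contra hn
  have hn := not_le.1 hn
  have hg : ex l d.a ∈ Γ := (hA d.a_mem).2
  obtain ⟨e1, e2⟩ := r_ex (g := ⟨ex l d.a, hg⟩) (d := d) (t := l) (PM.refl _)
  have h7 := h6 _ e1 (by rw [e2]; exact hn)
  rw [e2] at h7
  have h8 := d.r_neg
  have h9 : 2 * l + 1 ≤ Real.exp (2 * l) := Real.add_one_le_exp _
  nlinarith

lemma Bounds2_opp {a : V} (ha : a ∈ T.A) : ∃ k : ℝ, 0 < k ∧
    (∀ x, Fin' a x → Fin' (-a) x → crd (-a) x = -k / crd a x) ∧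
    ∀ e : T.D, e.a = -a → 0 < crd a e.b ∧ e.r = -k / crd a e.b := by
  obtain ⟨k, hk, hx⟩ := crd_neg_left (unit ha)
  refine ⟨k, hk, hx, fun e he => ?_⟩
  have f1 : Fin' a e.b := fin' ha e.b_mem (fun q => e.b_ne_neg (by rw [he, neg_neg]; exact q.symm))
  have f2 : Fin' (-a) e.b := fin' (T.ws.neg a ha) e.b_mem (by rw [← he]; exact e.a_ne_b)
  have q : e.r = -k / crd a e.b := by
    rw [← hx _ f1 f2, ← he]
    rfl
  refine ⟨?_, q⟩
  by_contra hn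
  have hn := not_lt.1 hn
  have h1 := e.r_neg
  have h2 : 0 ≤ -k / crd a e.b := div_nonneg_of_nonpos (by linarith) hn
  linarith

lemma Bounds2_rho_smul (g : Γ) (d d' : T.D) : rho (g • d) (g • d') = rho d d' := by
  obtain ⟨k, hk, e⟩ := crd_ad (g : SL(2, ℝ)) d.a_unit
  unfold rho
  rw [smul_a, smul_b, smul_b, e _ d.b_unit, e _ d'.b_unit, mul_div_mul_left _ _ hk.ne']

lemma Bounds2_rho_symm {d d' : T.D} (h : d'.a = -d.a) : rho d' d = rho d d' := by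
  obtain ⟨k, hk, e, e'⟩ := Bounds2_opp d.a_mem
  obtain ⟨p, q⟩ := e' d' h
  have h1 : crd d'.a d.b = -k / d.r := by
    rw [h]
    exact e _ (fin' d.a_mem d.b_mem d.a_ne_b)
      (fin' (T.ws.neg _ d.a_mem) d.b_mem d.b_ne_neg.symm)
  have h2 := d.r_neg.ne
  show -(d'.r / crd d'.a d.b) = -(d.r / crd d.a d'.b)
  rw [q, h1]
  field_simp

lemma Bounds2_base {l ρ : ℝ} (hl : 0 < l) (hρ : 0 < ρ) (hA : T.A ⊆ SS Γ l) :
    ∃ Bs : T.Base, ∀ p ∈ Bs.S, Real.exp (2 * l) * ρ ≤ rho p.1 p.2 ∧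
      rho p.1 p.2 < Real.exp (2 * l) * (Real.exp (2 * l) * ρ) := by
  refine exists_base (fun d d' => Real.exp (2 * l) * ρ ≤ rho d d' ∧
      rho d d' < Real.exp (2 * l) * (Real.exp (2 * l) * ρ)) ?_ ?_ ?_
  · intro g d d' h
    rw [Bounds2_rho_smul]
    exact h
  · intro d d' h h'
    rw [Bounds2_rho_symm h]
    exact h'
  · intro a ha
    obtain ⟨b, hb⟩ := T.has a ha
    obtain ⟨b', hb'⟩ := T.has (-a) (T.ws.neg a ha)
    obtain ⟨d, hd⟩ : ∃ d : T.D, d.a = a := ⟨⟨(a, b), hb⟩, rfl⟩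
    obtain ⟨d', hd'⟩ : ∃ d : T.D, d.a = -a := ⟨⟨(-a, b'), hb'⟩, rfl⟩
    obtain ⟨k, -, -, e'⟩ := Bounds2_opp ha
    have p := (e' d' hd').1
    have hx : 0 < -d.r / crd a d'.b := div_pos (by linarith [d.r_neg]) p
    obtain ⟨m, m1, m2⟩ := Bounds2_scale hx (mul_pos (Real.exp_pos (2 * l)) hρ) hl
    have hg : ex (m * l) d.a ∈ Γ := sysG_mem (hA d.a_mem) m
    obtain ⟨e1, e2⟩ := r_ex (g := ⟨ex (m * l) d.a, hg⟩) (d := d) (t := m * l) (PM.refl _)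
    have e3 : rho ((⟨ex (m * l) d.a, hg⟩ : Γ) • d) d' =
        Real.exp (2 * (m * l)) * (-d.r / crd a d'.b) := by
      show -(((⟨ex (m * l) d.a, hg⟩ : Γ) • d).r /
        crd ((⟨ex (m * l) d.a, hg⟩ : Γ) • d).a d'.b) = _
      rw [e1, e2, hd]
      ring
    refine ⟨(⟨ex (m * l) d.a, hg⟩ : Γ) • d, d', e1.trans hd, hd', ?_⟩
    rw [e3]
    exact ⟨m1, m2⟩

lemma Bounds2_rf {l : ℝ} (s : Sys Γ l) (hA : T.A ⊆ SS Γ l) (β : T.D) :
    Real.exp (2 * l) * ((T.φ ^ β.f) β).r = β.r := by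
  have hg : ex (-l) β.a ∈ Γ := by
    rw [ex_neg]
    exact Γ.inv_mem (hA β.a_mem).2
  have h1 := β.f_spec (s.prim T.nice (hA β.a_mem)) (γ := ⟨ex (-l) β.a, hg⟩) (PM.refl _)
  obtain ⟨-, e2⟩ := r_ex (g := ⟨ex (-l) β.a, hg⟩) (d := β) (t := -l) (PM.refl _)
  rw [h1, e2, ← mul_assoc, ← Real.exp_add]
  simp

lemma Bounds2_mono (β : T.D) : StrictMono fun i : ℕ => ((T.φ ^ i) β).r := by
  intro i j hij
  have h := r_zpow_strictMono β (show (i : ℤ) < j by exact_mod_cast hij)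
  simpa only [zpow_natCast] using h

lemma Bounds2_arith {E ρ x y ω σ s t K : ℝ} (hE : 0 < E) (hρ : 0 < ρ) (_hx : 0 < x)
    (ht : 0 < t) (h1 : x < ω) (h2 : ω ≤ E * x) (h3 : σ < s) (h4 : s ≤ E * σ) (h5 : σ ≤ ρ * ω)
    (h6 : ω ≤ ρ * σ) (h7 : x ≤ y) (h8 : y < E * x) (h9 : E * ρ ≤ y / t)
    (h10 : y / t < E * (E * ρ)) (hK : E ^ 4 * ρ ^ 2 ≤ K) : t < s ∧ s ≤ K * t := by
  rw [le_div_iff₀ ht] at h9
  rw [div_lt_iff₀ ht] at h10
  constructor
  · have a1 : E * (ρ * t) < E * x := by nlinarith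
    have a2 : ρ * t < x := lt_of_mul_lt_mul_left a1 hE.le
    have a3 : ρ * σ < ρ * s := mul_lt_mul_of_pos_left h3 hρ
    have a4 : ρ * t < ρ * s := by linarith
    exact lt_of_mul_lt_mul_left a4 hρ.le
  · have a1 : E * σ ≤ E * (ρ * ω) := mul_le_mul_of_nonneg_left h5 hE.le
    have a2 : E * (ρ * ω) ≤ E * (ρ * (E * x)) :=
      mul_le_mul_of_nonneg_left (mul_le_mul_of_nonneg_left h2 hρ.le) hE.le
    have a3 : E * (ρ * (E * x)) ≤ E * (ρ * (E * (E * (E * ρ) * t))) :=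
      mul_le_mul_of_nonneg_left (mul_le_mul_of_nonneg_left
        (mul_le_mul_of_nonneg_left (by linarith) hE.le) hρ.le) hE.le
    have a4 : E ^ 4 * ρ ^ 2 * t ≤ K * t := mul_le_mul_of_nonneg_right hK ht.le
    have a5 : E * (ρ * (E * (E * (E * ρ) * t))) = E ^ 4 * ρ ^ 2 * t := by ring
    linarith

lemma Bounds2_jump {l ρ : ℝ} (s : Sys Γ l) (hA : T.A ⊆ SS Γ l) (hρ : 0 < ρ)
    (hr : ∀ a ∈ SS Γ l, ∀ w ∈ SS Γ l, |B a w| < 1 →
      |crd a w| ≤ ρ * |crd a (-w)| ∧ |crd a (-w)| ≤ ρ * |crd a w|)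
    (Bs : T.Base) (hB : ∀ p ∈ Bs.S, Real.exp (2 * l) * ρ ≤ rho p.1 p.2 ∧
      rho p.1 p.2 < Real.exp (2 * l) * (Real.exp (2 * l) * ρ))
    {m₀ : ℕ} (hm : Real.exp (2 * l) ^ 4 * ρ ^ 2 ≤ Real.exp (2 * m₀ * l))
    {w : V} (hw : w ∈ SS Γ l) {d : T.D} (hs : Str w d) (hk : kind w d = 2) :
    ∃ p ∈ Bs.S, ∃ i j : ℕ, i < p.1.f ∧
      j ≤ m₀ * p.2.f ∧ d = (T.φ ^ i) p.1 ∧ T.ι (jmp w d) = (T.φ ^ j) p.2 := by
  have hl := s.pos
  have per : Per Γ w := SS.per hl hw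
  obtain ⟨hn, st, hc, -⟩ := kind_two hs hk
  obtain ⟨σ0, a1, a2, -⟩ := Bounds2_first hl hA per hn hc st.1 (st.2.1 hc)
  obtain ⟨j1, j2⟩ := jmp_spec per hn st.1 hc
  have hd' : (T.ι (jmp w d)).a = -d.a := j1
  have hc' : |B w (jmp w d).b| < 1 := by
    rw [j1, B_neg_right, abs_neg]
    exact hc
  obtain ⟨c1, c2⟩ := crs_neg per hn (jmp w d)
  have hn' : -w ∉ T.A := fun q => hn (by simpa using T.ws.neg _ q)
  have hc'' : |B (-w) (T.ι (jmp w d)).a| < 1 := by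
    rw [ι_a, B_neg_left, abs_neg]
    exact hc'
  obtain ⟨-, b1, b2, -⟩ := Bounds2_first hl hA per.neg hn' hc'' (c1.2 j2.1)
    ((c2 j2.1).2 (j2.2.2 hc'))
  generalize T.ι (jmp w d) = d' at hd' b1 b2 ⊢
  rw [neg_neg, hd'] at b1 b2
  obtain ⟨k, hk0, e, e'⟩ := Bounds2_opp d.a_mem
  have hca : |B d.a w| < 1 := by
    rw [B_comm]
    exact hc
  obtain ⟨f1, -, f3, -⟩ := fin'_of_cross d.a_unit per.1 hca
  obtain ⟨s0, q⟩ := e' d' hd'
  rw [e w f1 f3, q] at b1 b2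
  have b3 : crd d.a w < crd d.a d'.b := by
    rw [div_lt_div_iff₀ σ0 s0] at b1
    nlinarith
  have b4 : crd d.a d'.b ≤ Real.exp (2 * l) * crd d.a w := by
    rw [← mul_div_assoc, div_le_div_iff₀ s0 σ0] at b2
    nlinarith
  obtain ⟨r1, r2⟩ := hr _ (hA d.a_mem) _ hw hca
  have hdr := d.r_neg
  have hω : crd d.a (-w) < 0 := by linarith
  rw [abs_of_pos σ0, abs_of_neg hω] at r1 r2
  obtain ⟨p0, hp0, hp0a⟩ := Bs.ex d.a d.a_mem
  obtain ⟨m, m1, m2⟩ := Bounds2_scale (x := -p0.1.r) (y := -d.r) (by linarith [p0.1.r_neg])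
    (by linarith) hl
  have hg : ex (m * l) p0.1.a ∈ Γ := sysG_mem (hA p0.1.a_mem) m
  obtain ⟨e1, e2⟩ := r_ex (g := ⟨ex (m * l) p0.1.a, hg⟩) (d := p0.1) (t := m * l) (PM.refl _)
  obtain ⟨p, hp, hpa, p1, p2⟩ : ∃ p ∈ Bs.S, p.1.a = d.a ∧ -d.r ≤ -p.1.r ∧
      -p.1.r < Real.exp (2 * l) * -d.r := by
    refine ⟨_, Bs.inv ⟨ex (m * l) p0.1.a, hg⟩ p0 hp0, e1.trans hp0a, ?_, ?_⟩
    · rw [e2]
      linarith
    · rw [e2]
      linarith
  have hpb : p.2.a = -d.a := by rw [Bs.opp p hp, hpa]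
  obtain ⟨t0, qt⟩ := e' p.2 hpb
  obtain ⟨g1, g2⟩ := hB p hp
  have hrho : rho p.1 p.2 = -p.1.r / crd d.a p.2.b := by
    show -(p.1.r / crd p.1.a p.2.b) = _
    rw [hpa, neg_div]
  rw [hrho] at g1 g2
  obtain ⟨u1, u2⟩ := Bounds2_arith (x := -d.r) (ω := -crd d.a (-w)) (Real.exp_pos (2 * l)) hρ
    (by linarith) t0 (by linarith) (by linarith) b3 b4 r1 r2 p1 p2 g1 g2 hm
  obtain ⟨i, hi⟩ := fan_nat (d := p.1) (e := d) hpa.symm (by linarith)
  have hle : p.2.r ≤ d'.r := by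
    rw [qt, q, div_le_div_iff₀ t0 s0]
    nlinarith
  obtain ⟨j, hj⟩ := fan_nat (d := p.2) (e := d') (hd'.trans hpb.symm) hle
  refine ⟨p, hp, i, j, ?_, ?_, hi, hj⟩
  · refine (Bounds2_mono p.1).lt_iff_lt.1 ?_
    show ((T.φ ^ i) p.1).r < ((T.φ ^ p.1.f) p.1).r
    rw [← hi]
    have h1 := Bounds2_rf s hA p.1
    refine lt_of_mul_lt_mul_left ?_ (Real.exp_pos (2 * l)).le
    rw [h1]
    linarith
  · refine index_le (s.prim T.nice (hA p.2.a_mem)) ?_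
    rw [← hj, qt, q, ← mul_div_assoc, div_le_div_iff₀ s0 t0, Real.exp_neg]
    have h1 := Real.exp_pos (2 * m₀ * l)
    have h2 : (Real.exp (2 * m₀ * l))⁻¹ * crd d.a d'.b ≤ crd d.a p.2.b := by
      rw [inv_mul_le_iff₀ h1]
      exact u2
    nlinarith

lemma Bounds2_window {l : ℝ} (s : Sys Γ l) (hA : T.A ⊆ SS Γ l) (β : T.D) {w : V}
    (hw : w ∈ SS Γ l) {i : ℕ} (hi : i ≤ β.f) (hs : Str w ((T.φ ^ i) β))
    (hk : kind w ((T.φ ^ i) β) = 2) :
    |B β.a w| < 1 ∧ |crd β.a (-w)| ≤ Real.exp (2 * l) * -β.r ∧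
      -β.r ≤ Real.exp (2 * l) * |crd β.a (-w)| ∧ crd β.a (-w) < ((T.φ ^ i) β).r ∧
      ∀ e : T.D, e.a = β.a → crd β.a (-w) < e.r → ((T.φ ^ i) β).r ≤ e.r := by
  have hl := s.pos
  obtain ⟨hn, st, hc, -⟩ := kind_two hs hk
  obtain ⟨-, a1, a2, a3⟩ := Bounds2_first hl hA (SS.per hl hw) hn hc st.1 (st.2.1 hc)
  rw [φ_pow_a] at hc a1 a2 a3
  have h0 : β.r ≤ ((T.φ ^ i) β).r := by
    have := (Bounds2_mono β).monotone (Nat.zero_le i)
    simpa using this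
  have h1 : ((T.φ ^ i) β).r ≤ ((T.φ ^ β.f) β).r := (Bounds2_mono β).monotone hi
  have h2 := Bounds2_rf s hA β
  have h3 := ((T.φ ^ i) β).r_neg
  have hE := Real.exp_pos (2 * l)
  have hω : crd β.a (-w) < 0 := by linarith
  rw [abs_of_neg hω]
  refine ⟨by rw [B_comm]; exact hc, ?_, ?_, a1, a3⟩
  · have := mul_le_mul_of_nonneg_left h0 hE.le
    linarith
  · have h4 := mul_le_mul_of_nonneg_left h1 hE.le
    have h5 := mul_le_mul_of_nonneg_left a1.le hE.le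
    linarith

/-- Base pairs for which all jumps have bounded nonnegative offsets. -/
theorem jump_bound (C : ℝ) : ∃ m₀ M : ℕ, ∀ (Γ : Subgroup SL(2, ℝ)) (l : ℝ) (T : Tr Γ), Sys Γ l →
    1 / 2 ≤ l → l ≤ C → T.A ⊆ SS Γ l → ∃ Bs : T.Base,
    (∀ w ∈ SS Γ l, ∀ d : T.D, Str w d → kind w d = 2 → ∃ p ∈ Bs.S, ∃ i j : ℕ, i < p.1.f ∧
      j ≤ m₀ * p.2.f ∧ d = (T.φ ^ i) p.1 ∧ T.ι (jmp w d) = (T.φ ^ j) p.2) ∧
    ∀ β : T.D, {q : V × ℕ | q.1 ∈ SS Γ l ∧ q.2 ≤ β.f ∧ Str q.1 ((T.φ ^ q.2) β) ∧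
        kind q.1 ((T.φ ^ q.2) β) = 2}.Finite ∧
      {q : V × ℕ | q.1 ∈ SS Γ l ∧ q.2 ≤ β.f ∧ Str q.1 ((T.φ ^ q.2) β) ∧
        kind q.1 ((T.φ ^ q.2) β) = 2}.ncard ≤ M := by
  obtain ⟨β0, hβ0, hang⟩ := angle_bound C
  obtain ⟨ρ, hρ, hrat⟩ := ratio_bound β0 hβ0
  obtain ⟨R, hR⟩ := window_bound β0 (Real.exp (2 * |C|)) hβ0
    (Real.one_le_exp (by positivity))
  obtain ⟨M, hM⟩ := packS C R
  refine ⟨4 + ⌈ρ ^ 2⌉₊, M, fun Γ l T s hl hC hA => ?_⟩
  have hl0 := s.pos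
  have hρ0 : 0 < ρ := by linarith
  obtain ⟨Bs, hB⟩ := Bounds2_base hl0 hρ0 hA
  refine ⟨Bs, fun w hw d hs hk => ?_, fun β => ?_⟩
  · refine Bounds2_jump s hA hρ0 ?_ Bs hB ?_ hw hs hk
    · intro a ha v hv hc
      exact hrat a v ha.1 hv.1 (hang Γ l T.nice hl0 hC a ha v hv hc)
    · have h1 : ρ ^ 2 ≤ (⌈ρ ^ 2⌉₊ : ℝ) := Nat.le_ceil _
      have h2 : (0 : ℝ) ≤ (⌈ρ ^ 2⌉₊ : ℝ) := Nat.cast_nonneg _
      have h3 := Real.add_one_le_exp (2 * (⌈ρ ^ 2⌉₊ : ℝ) * l)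
      have h4 : ρ ^ 2 ≤ Real.exp (2 * (⌈ρ ^ 2⌉₊ : ℝ) * l) := by nlinarith
      have h5 : Real.exp (2 * ((4 + ⌈ρ ^ 2⌉₊ : ℕ) : ℝ) * l) =
          Real.exp (2 * l) ^ 4 * Real.exp (2 * (⌈ρ ^ 2⌉₊ : ℝ) * l) := by
        rw [← Real.exp_nat_mul, ← Real.exp_add]
        congr 1
        push_cast
        ring
      rw [h5]
      exact mul_le_mul_of_nonneg_left h4 (by positivity)
  · have hy : 0 < -β.r := by linarith [β.r_neg]
    have hE : Real.exp (2 * l) ≤ Real.exp (2 * |C|) :=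
      Real.exp_le_exp.2 (by linarith [le_abs_self C])
    have hmap : ∀ q ∈ {q : V × ℕ | q.1 ∈ SS Γ l ∧ q.2 ≤ β.f ∧ Str q.1 ((T.φ ^ q.2) β) ∧
        kind q.1 ((T.φ ^ q.2) β) = 2},
        q.1 ∈ {n | n ∈ SS Γ l ∧ |B n (Hy (onW β.a (-β.r)))| ≤ R} := by
      rintro q ⟨h1, h2, h3, h4⟩
      obtain ⟨w1, w2, w3, -, -⟩ := Bounds2_window s hA β h1 h2 h3 h4
      refine ⟨h1, ?_⟩
      have w4 := hang Γ l T.nice hl0 hC _ (hA β.a_mem) _ h1 w1
      have w5 := hR β.a (-q.1) (-β.r) β.a_unit (SS.neg h1).1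
        (by rw [B_neg_right, abs_neg]; exact w4) hy
        (w2.trans (mul_le_mul_of_nonneg_right hE hy.le))
        (w3.trans (mul_le_mul_of_nonneg_right hE (abs_nonneg _)))
      rwa [B_neg_left, abs_neg] at w5
    have hinj : Set.InjOn Prod.fst {q : V × ℕ | q.1 ∈ SS Γ l ∧ q.2 ≤ β.f ∧
        Str q.1 ((T.φ ^ q.2) β) ∧ kind q.1 ((T.φ ^ q.2) β) = 2} := by
      rintro ⟨w, i⟩ ⟨h1, h2, h3, h4⟩ ⟨w', j⟩ ⟨k1, k2, k3, k4⟩ e
      obtain rfl : w = w' := e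
      obtain ⟨-, -, -, w1, w2⟩ := Bounds2_window s hA β h1 h2 h3 h4
      obtain ⟨-, -, -, v1, v2⟩ := Bounds2_window s hA β k1 k2 k3 k4
      have e1 := w2 _ (φ_pow_a β j) v1
      have e2 := v2 _ (φ_pow_a β i) w1
      have e3 : i = j := (Bounds2_mono β).injective (le_antisymm e1 e2)
      rw [e3]
    have hfin := T.nice.lf_SS hl0 (onW β.a (-β.r)) R
    refine ⟨Set.Finite.of_injOn hmap hinj hfin, ?_⟩
    exact (Set.ncard_le_ncard_of_injOn Prod.fst hmap hinj hfin).trans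
      (hM Γ l T.nice s hl hC _)

end Tr

end

end Pool.Agent.P.MP_d39174_gt

end

section
/-! Connectedness of the complement. -/

namespace Pool.Agent.P.MP_d39174_gt

open UpperHalfPlane MatrixGroups

noncomputable section

namespace Tr

lemma Bounds3_jump {Γ : Subgroup SL(2, ℝ)} {l : ℝ} {T : Tr Γ} (s : Sys Γ l)
    (fill : ∀ m, Per Γ m → ∃ n ∈ SS Γ l, |B n m| < 1) {a : V} (ha : a ∈ T.A) :
    ∃ w ∈ SS Γ l, ∃ d : T.D, d.a = a ∧ Str w d ∧ kind w d = 2 := by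
  have key : ∀ w ∈ SS Γ l, w ∉ T.A → |B w a| < 1 → crd w a < 0 →
      ∃ w ∈ SS Γ l, ∃ d : T.D, d.a = a ∧ Str w d ∧ kind w d = 2 := by
    intro w hw h1 h2 h3
    obtain ⟨e, e1, e2⟩ := exists_first' (SS.per s.pos hw) h1 ha h2 h3
    refine ⟨w, hw, e, e1, Or.inl ⟨h1, e2⟩, ?_⟩
    rw [kind, if_neg h1, if_pos (by rw [e1]; exact h2)]
  obtain ⟨n, hn, h2⟩ := fill a (T.ws.per a ha)
  have ua : B a a = 1 := unit ha
  have h1 : n ∉ T.A := fun h => by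
    have h3 := T.ws.sep a ha n h (fun e => by
      rw [e, ua, abs_one] at h2
      exact lt_irrefl _ h2) (fun e => by
      rw [e, B_neg_left, ua, abs_neg, abs_one] at h2
      exact lt_irrefl _ h2)
    rw [B_comm] at h3
    exact lt_asymm h2 h3
  obtain ⟨f1, f2, f3, -⟩ := fin'_of_not_mem (SS.per s.pos hn) h1 ha
  rcases lt_or_gt_of_ne f3 with h3 | h3
  · exact key n hn h1 h2 h3
  · obtain ⟨k, hk, e⟩ := crd_neg_left hn.1
    refine key (-n) (SS.neg hn) (fun h => h1 ?_) (by rwa [B_neg_left, abs_neg]) ?_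
    · have := T.ws.neg _ h
      rwa [neg_neg] at this
    · rw [e a f1 f2]
      exact div_neg_of_neg_of_pos (neg_neg_of_pos hk) h3

lemma Bounds3_zpow {X : Type} {U : Set X} {σ : Equiv.Perm X} (h : ∀ d, σ d ∈ U ↔ d ∈ U) (i : ℤ) :
    ∀ d, (σ ^ i) d ∈ U ↔ d ∈ U := by
  induction i using Int.induction_on with
  | zero => intro d; rfl
  | succ n ih =>
    intro d
    rw [zpow_add_one, Equiv.Perm.mul_apply, ih, h]
  | pred n ih =>
    intro d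
    rw [zpow_sub_one, Equiv.Perm.mul_apply, ih, ← h, Equiv.Perm.coe_inv, Equiv.apply_symm_apply]

/-- The two sides of each wall of the family are connected in the quotient. -/
theorem sides_conn {Γ : Subgroup SL(2, ℝ)} {l : ℝ} {T : Tr Γ} (s : Sys Γ l) (f : Far Γ l T.A)
    (fill : ∀ m, Per Γ m → ∃ n ∈ SS Γ l, |B n m| < 1) {U : Set T.D}
    (h0 : ∀ g : Γ, ∀ d ∈ U, g • d ∈ U) (h1 : ∀ d ∈ U, T.ι d ∈ U) (h2 : ∀ d ∈ U, T.ν d ∈ U)
    (h4 : U.Nonempty) : U = Set.univ := by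
  classical
  have i1 : ∀ d, T.ι d ∈ U ↔ d ∈ U := fun d => ⟨fun h => h1 _ h, h1 d⟩
  have i2 : ∀ d, T.ν d ∈ U ↔ d ∈ U := fun d =>
    ⟨fun h => ν_ν_ν d ▸ h2 _ (h2 _ h), h2 d⟩
  have i3 : ∀ d, T.φ d ∈ U ↔ d ∈ U := fun d => by rw [φ_apply, i1, i2, i2]
  have i4 : ∀ d, T.ψ d ∈ U ↔ d ∈ U := fun d => by rw [ψ_apply, i1, i2]
  have i5 : ∀ (g : Γ) (d : T.D), g • d ∈ U ↔ d ∈ U := fun g d =>
    ⟨fun h => inv_smul_smul g d ▸ h0 g⁻¹ _ h, h0 g d⟩
  have i6 : ∀ d e : T.D, e.a = d.a → (e ∈ U ↔ d ∈ U) := fun d e h => by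
    obtain ⟨i, rfl⟩ := fan h
    exact Bounds3_zpow i3 i d
  refine conn_darts h1 h2 (fun a ha => ?_) h4
  obtain ⟨w, hw, d, rfl, hs, hk⟩ := Bounds3_jump s fill ha
  have pw : Per Γ w := SS.per s.pos hw
  obtain ⟨k1, k2, k3, k4⟩ := kind_two hs hk
  have st : ∀ j : ℕ, Str w ((τ w)^[j] d) := fun j => by
    induction j with
    | zero => exact hs
    | succ j ih =>
      rw [Function.iterate_succ_apply']
      exact τ_str pw ih
  have ex2 : ∃ j : ℕ, kind w ((τ w)^[j + 1] d) = 2 := by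
    obtain ⟨p, hp, e, -⟩ := itin (Sys.prim T.nice s hw) hs (γ := ⟨ex l w, hw.2⟩) (PM.refl _)
    refine ⟨p - 1, ?_⟩
    have e2 := kind_smul hw.1 (⟨ex l w, hw.2⟩ : Γ) d
    rw [show ((⟨ex l w, hw.2⟩ : Γ) : SL(2, ℝ)) • w = w from ex_ad_self l w] at e2
    rw [Nat.sub_add_cancel hp, e, e2, hk]
  have up : ∀ j ≤ Nat.find ex2, ((τ w)^[j + 1] d ∈ U ↔ τ w d ∈ U) := fun j hj => by
    induction j with
    | zero => rfl
    | succ j ih =>
      have n2 : ¬ kind w ((τ w)^[j + 1] d) = 2 := Nat.find_min ex2 hj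
      rw [Function.iterate_succ_apply', ← ih (Nat.le_of_succ_le hj)]
      generalize (τ w)^[j + 1] d = e at n2
      unfold τ
      by_cases c0 : kind w e = 0
      · rw [if_pos c0, i3]
      · have c1 : kind w e = 1 := by omega
        rw [if_neg c0, if_pos c1, i4]
  have u2 := up _ le_rfl
  obtain ⟨-, m2, m3, -⟩ := kind_two (st (Nat.find ex2 + 1)) (Nat.find_spec ex2)
  generalize (τ w)^[Nat.find ex2 + 1] d = e at u2 m2 m3
  obtain ⟨g, hg, hge⟩ := f.far d.a ha e.a e.a_mem w hw k3 m3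
  have c1 : |B w (g • d.a)| < 1 := by
    rcases hge with h | h
    · rwa [h] at m3
    · rwa [h, B_neg_right, abs_neg] at m3
  have ug : B (g • d.a) (g • d.a) = 1 := unit (T.ws.inv g hg _ ha)
  obtain ⟨m, hm⟩ := once T.nice s (f.sub ha) hw hg k3 c1
  have c2 : crd w (g • d.a) < 0 := by
    rw [hm, crd_ex hw.1 d.a_unit]
    exact mul_neg_of_pos_of_neg (Real.exp_pos _) k2.1.1
  have c3 : e.a = g • d.a := by
    refine hge.resolve_right fun h => ?_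
    obtain ⟨f1, f2, -, -⟩ := fin'_of_cross hw.1 ug c1
    have c4 := (cross_iff_crd hw.1 ug f1 f2).1 c1
    have c5 := m2.1.1
    rw [h] at c5
    exact lt_asymm c4 (mul_pos_of_neg_of_neg c2 c5)
  refine ⟨d, T.ι (jmp w d), rfl, (jmp_spec pw k1 k2.1 k3).1, fun h => ?_⟩
  rw [i1, ← k4, ← u2, i6 ((⟨g, hg⟩ : Γ) • d) e c3, i5]
  exact h

/-- Every wall of the family is jumped over by a systole. -/
theorem exists_jump {Γ : Subgroup SL(2, ℝ)} {l : ℝ} {T : Tr Γ} (s : Sys Γ l)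
    (fill : ∀ m, Per Γ m → ∃ n ∈ SS Γ l, |B n m| < 1) {a : V} (ha : a ∈ T.A) :
    ∃ w ∈ SS Γ l, ∃ d : T.D, d.a = a ∧ Str w d ∧ kind w d = 2 :=
  Bounds3_jump s fill ha

end Tr

end

end Pool.Agent.P.MP_d39174_gt

end

section
/-! Every critical point with bounded systole has a canonical type. -/

namespace Pool.Agent.P.MP_d39174_gt

open UpperHalfPlane MatrixGroups

noncomputable section

theorem exists_type (C : ℝ) : ∃ D₀ m₀ c : ℕ, ∀ (g : ℕ) (Γ : Subgroup SL(2, ℝ)),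
    IsSurfaceGroup g Γ → IsCritical Γ → sys Γ < C →
    ∃ (n r k : ℕ) (M : Mdl (Fin n) (Fin n × Fin D₀)) (x y : Fin n → ℝ) (T : ℝ),
      0 < n ∧ n ≤ 12 * g ∧ g ≤ c * k ∧ 6 * r + 12 * k = n + 12 ∧
      M ∈ Canon n D₀ r k (D₀ * (m₀ + 1) * n) ∧ M.Real x y T ∧ M.Gen Γ x y := by
  obtain ⟨M₁, hM₁⟩ := Tr.str_bound C
  obtain ⟨m₀, M₂, hM₂⟩ := Tr.jump_bound C
  obtain ⟨c, hc⟩ := betti_le C
  refine ⟨max M₁ M₂, m₀, c, fun g Γ hg hcr hC => ?_⟩
  have h := hg.nice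
  obtain ⟨l, s⟩ := h.exists_sys
  have cv := (isCritical_iff h s).1 hcr
  have hlC : l ≤ C := by
    have := s.sys_eq h
    have := s.pos
    linarith
  have fl : ∀ m, Per Γ m → ∃ n ∈ SS Γ l, |B n m| < 1 := fun m hm => fill h s cv hm
  have hl : 1 / 2 ≤ l := by
    obtain ⟨n, hn⟩ := s.ne
    obtain ⟨m, hm, e⟩ := fl n (SS.per s.pos hn)
    exact half_le_of_cross h s.pos hm hn e
  obtain ⟨A, hA, hF⟩ := exists_far h s
  obtain ⟨T, rfl⟩ := exists_tr h hA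
  obtain ⟨Bs, j1, j2⟩ := hM₂ Γ l T s hl hlC hF.sub
  have b1 := hM₁ Γ l T s hl hlC hF
  obtain ⟨D, S, _, _, M, π, ϖ, x, y, L⟩ := Tr.exists_lift s.pos hF.sub Bs (fun d => (b1 d).1) j1
  obtain ⟨k, sh, F, f1, f2, f3⟩ := L.shape s.pos (D₀ := max M₁ M₂)
    (fun U h0 h1 h2 h4 => Tr.sides_conn s hF fl h0 h1 h2 h4)
    (fun d => ⟨(b1 d).1, (b1 d).2.trans (le_max_left _ _)⟩)
    (fun β => ⟨(j2 β).1, (j2 β).2.trans (le_max_right _ _)⟩)
  have re := L.real s cv hF.sub fun a ha => Tr.exists_jump s fl ha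
  obtain ⟨r, M', x', y', e1, e2, e3, e4⟩ := exists_canon sh re L.gen
  obtain ⟨i1, i2⟩ := hc Γ l h s hl hlC (connS h s cv) T.A hA hF F f2 f3
  have i3 := Tr.card_le_betti L.surj L.π_eq
  rw [hg.genus] at i2 i3
  have := sh.ne
  refine ⟨_, r, k, M', x', y', _, Fintype.card_pos, by omega, ?_, e1, e2, e3, e4⟩
  have := Nat.mul_le_mul_left c f1
  nlinarith

end

end Pool.Agent.P.MP_d39174_gt

end

section
/-! Upper bound for the number of critical points with bounded systole. -/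

namespace Pool.Agent.P.MP_d39174_gt

open UpperHalfPlane MatrixGroups

noncomputable section

private lemma ncard_union_bound {I X : Type} (t : Finset I) (s : I → Set X) (b : ℕ)
    (h : ∀ i ∈ t, (s i).Finite ∧ (s i).ncard ≤ b) :
    (⋃ i ∈ t, s i).Finite ∧ (⋃ i ∈ t, s i).ncard ≤ t.card * b := by
  classical
  induction t using Finset.induction_on with
  | empty => simp
  | insert a t ha ih =>
    obtain ⟨i1, i2⟩ := ih fun i hi => h i (Finset.mem_insert_of_mem hi)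
    obtain ⟨a1, a2⟩ := h a (Finset.mem_insert_self _ _)
    rw [Finset.set_biUnion_insert, Finset.card_insert_of_notMem ha]
    refine ⟨a1.union i1, (Set.ncard_union_le _ _).trans ?_⟩
    rw [add_mul, one_mul]
    omega

open Classical in
/-- The point of moduli space realised by a type. -/
private def pointOf {D S : Type} [Fintype S] (M : Mdl D S) : Set (Subgroup SL(2, ℝ)) :=
  if h : ∃ Γ : Subgroup SL(2, ℝ), ∃ x y T, M.Real x y T ∧ M.Gen Γ x y then cls h.choose else ∅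

private lemma pointOf_eq {D S : Type} [Fintype D] [Fintype S] [Nonempty D] {M : Mdl D S}
    {Γ : Subgroup SL(2, ℝ)} {x y : D → ℝ} {T : ℝ} (h : M.Real x y T) (g : M.Gen Γ x y) :
    pointOf M = cls Γ := by
  have e : ∃ Γ : Subgroup SL(2, ℝ), ∃ x y T, M.Real x y T ∧ M.Gen Γ x y := ⟨Γ, x, y, T, h, g⟩
  obtain ⟨x', y', T', h', g'⟩ := e.choose_spec
  rw [pointOf, dif_pos e]
  exact M.cls_eq h' h g' g

private lemma term_bound {D₀ m₀ c g n r k : ℕ} (h1 : n ≤ 12 * g) (h2 : g ≤ c * k)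
    (h3 : 6 * r + 12 * k = n + 12) :
    64 ^ n * n ^ (r + k) * (6 * D₀) ^ (n * D₀) * 4 ^ (D₀ * (m₀ + 1) * n + n * D₀) ≤
      ((64 * (6 * D₀) ^ D₀ * 4 ^ (D₀ * (m₀ + 1) + D₀)) ^ 12 * 576) ^ (g + 1) *
        (g + 1) ^ (2 * g - g / (c + 1)) := by
  have hk : g / (c + 1) ≤ k := Nat.div_le_of_le_mul (by nlinarith)
  have hg : g / (c + 1) ≤ g := Nat.div_le_self _ _
  obtain ⟨E, hE⟩ : ∃ E, E = 2 * g - g / (c + 1) := ⟨_, rfl⟩
  obtain ⟨A, hA⟩ : ∃ A, A = 64 * (6 * D₀) ^ D₀ * 4 ^ (D₀ * (m₀ + 1) + D₀) := ⟨_, rfl⟩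
  have e1 : 64 ^ n * n ^ (r + k) * (6 * D₀) ^ (n * D₀) * 4 ^ (D₀ * (m₀ + 1) * n + n * D₀) =
      A ^ n * n ^ (r + k) := by
    rw [hA, mul_pow (64 * (6 * D₀) ^ D₀), mul_pow 64, ← pow_mul, ← pow_mul, mul_comm D₀ n, add_mul,
      mul_comm D₀ n]
    ring
  have hA1 : 1 ≤ A := by
    rw [hA]
    rcases Nat.eq_zero_or_pos D₀ with rfl | h
    · simp
    · exact Nat.succ_le_of_lt (by positivity)
  have hE2 : E ≤ 2 * g := hE ▸ Nat.sub_le _ _
  rw [e1, ← hA, ← hE]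
  have b1 : A ^ n ≤ (A ^ 12) ^ (g + 1) := by
    rw [← pow_mul]
    exact Nat.pow_le_pow_right hA1 (by omega)
  have b2 : n ^ (r + k) ≤ (12 * (g + 1)) ^ (E + 2) :=
    (Nat.pow_le_pow_left (by omega) _).trans (Nat.pow_le_pow_right (by omega) (by omega))
  have b3 : 12 ^ (E + 2) ≤ 144 ^ (g + 1) := by
    rw [show 144 = 12 ^ 2 from rfl, ← pow_mul]
    exact Nat.pow_le_pow_right (by omega) (by omega)
  have b4 : (g + 1) ^ 2 ≤ 4 ^ (g + 1) := by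
    rw [show 4 = 2 ^ 2 from rfl, ← pow_mul, mul_comm, pow_mul]
    exact Nat.pow_le_pow_left Nat.lt_two_pow_self.le _
  calc A ^ n * n ^ (r + k) ≤ (A ^ 12) ^ (g + 1) * (12 * (g + 1)) ^ (E + 2) := Nat.mul_le_mul b1 b2
    _ = (A ^ 12) ^ (g + 1) * (12 ^ (E + 2) * (g + 1) ^ 2) * (g + 1) ^ E := by
      rw [mul_pow]; ring
    _ ≤ (A ^ 12) ^ (g + 1) * (144 ^ (g + 1) * 4 ^ (g + 1)) * (g + 1) ^ E :=
      Nat.mul_le_mul_right _ (Nat.mul_le_mul_left _ (Nat.mul_le_mul b3 b4))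
    _ = (A ^ 12 * 576) ^ (g + 1) * (g + 1) ^ E := by
      rw [← mul_pow, ← mul_pow, show 144 * 4 = 576 from rfl]

theorem upper (C : ℝ) : ∃ q K : ℕ, 1 ≤ q ∧ ∀ g : ℕ, (CritLt g C).Finite ∧
    (CritLt g C).ncard ≤ K ^ (g + 1) * (g + 1) ^ (2 * g - g / q) := by
  classical
  obtain ⟨D₀, m₀, c, H⟩ := exists_type C
  obtain ⟨A, hA⟩ : ∃ A, A = (64 * (6 * D₀) ^ D₀ * 4 ^ (D₀ * (m₀ + 1) + D₀)) ^ 12 * 576 := ⟨_, rfl⟩
  refine ⟨c + 1, 32 ^ 3 * A, by omega, fun g => ?_⟩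
  let R := Finset.range (13 * (g + 1))
  let t : Finset (ℕ × ℕ × ℕ) := (R ×ˢ R ×ˢ R).filter fun p =>
    p.1 ≤ 12 * g ∧ g ≤ c * p.2.2 ∧ 6 * p.2.1 + 12 * p.2.2 = p.1 + 12
  let s : ℕ × ℕ × ℕ → Set (Set (Subgroup SL(2, ℝ))) := fun p =>
    pointOf '' Canon p.1 D₀ p.2.1 p.2.2 (D₀ * (m₀ + 1) * p.1)
  obtain ⟨u1, u2⟩ := ncard_union_bound t s (A ^ (g + 1) * (g + 1) ^ (2 * g - g / (c + 1)))
    fun p hp => by
      obtain ⟨h1, h2, h3⟩ := (Finset.mem_filter.1 hp).2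
      obtain ⟨c1, c2⟩ := ncard_canon p.1 D₀ p.2.1 p.2.2 (D₀ * (m₀ + 1) * p.1)
      exact ⟨c1.image _, (Set.ncard_image_le c1).trans (c2.trans (hA ▸ term_bound h1 h2 h3))⟩
  have sub : CritLt g C ⊆ ⋃ p ∈ t, s p := by
    rintro _ ⟨Γ, ⟨a1, a2, a3⟩, rfl⟩
    obtain ⟨n, r, k, M, x, y, T, b1, b2, b3, b4, b5, b6, b7⟩ := H g Γ a1 a2 a3
    have : Nonempty (Fin n) := ⟨⟨0, b1⟩⟩
    refine Set.mem_biUnion (x := (n, r, k)) (Finset.mem_coe.2 ?_) ⟨M, b5, pointOf_eq b6 b7⟩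
    simp only [t, R, Finset.mem_filter, Finset.mem_product, Finset.mem_range]
    omega
  refine ⟨u1.subset sub, (Set.ncard_le_ncard sub u1).trans (u2.trans ?_)⟩
  have h1 : 13 * (g + 1) ≤ 32 ^ (g + 1) := by
    have := Nat.lt_two_pow_self (n := g + 1)
    calc 13 * (g + 1) ≤ 16 ^ (g + 1) * 2 ^ (g + 1) :=
          Nat.mul_le_mul (le_trans (by norm_num) (Nat.le_self_pow (Nat.succ_ne_zero g) 16)) this.le
      _ = 32 ^ (g + 1) := by rw [← mul_pow, show 16 * 2 = 32 from rfl]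
  have h2 : t.card ≤ (32 ^ 3) ^ (g + 1) := by
    refine (Finset.card_filter_le _ _).trans ?_
    simp only [Finset.card_product, R, Finset.card_range]
    rw [← pow_mul, mul_comm 3, pow_mul]
    calc _ = (13 * (g + 1)) ^ 3 := by ring
      _ ≤ _ := Nat.pow_le_pow_left h1 _
  rw [mul_pow, mul_assoc]
  exact Nat.mul_le_mul_right _ h2

end

end Pool.Agent.P.MP_d39174_gt

end

section
/-! The triangles cover the plane; the systole is bounded in terms of the genus. -/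

namespace Pool.Agent.P.MP_d39174_gt

open UpperHalfPlane MatrixGroups

noncomputable section

open MeasureTheory

lemma Area3_exp {t x : ℝ} (ht : 0 < t) (hx : x < 0) (y : ℝ) :
    ∃ m : ℕ, Real.exp (2 * (m * t)) * x < y := by
  obtain ⟨m, hm⟩ := exists_nat_gt (y / (2 * t * x))
  refine ⟨m, ?_⟩
  have h1 := Real.add_one_le_exp (2 * (m * t))
  have h2 : 2 * t * x < 0 := mul_neg_of_pos_of_neg (by linarith) hx
  rw [div_lt_iff_of_neg h2] at hm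
  nlinarith

lemma Area3_line (r : ℝ) (u : ℍ) : B ⟨1, -2 * r, 0⟩ (Hy u) = (r - u.re) / u.im := by
  simp only [B, Hy]
  have := u.im_pos.ne'
  field_simp
  ring

namespace Tr

variable {Γ : Subgroup SL(2, ℝ)} {T : Tr Γ}

/-- An edge between two points is close to one of its walls. -/
lemma near_of_sep : ∃ M : ℝ, ∀ (d : T.D) (z z' : ℍ), Pos d z → ¬ Pos d z' →
    ∃ y : ℍ, dist z y ≤ dist z z' ∧ (|B d.a (Hy y)| ≤ M ∨ |B d.b (Hy y)| ≤ M) := by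
  obtain ⟨S, hS, hS'⟩ := fan_reps (T := T)
  obtain ⟨M, hM⟩ := (hS.image fun e : T.D => -B e.a e.b).bddAbove
  refine ⟨max M 1, fun d z z' h1 h2 => ?_⟩
  have hM' : -B d.a d.b ≤ M := by
    obtain ⟨g, e, he, rfl⟩ := hS' d
    rw [smul_a, smul_b, B_ad]
    exact hM ⟨e, he, rfl⟩
  unfold Pos zc at h1 h2
  obtain ⟨y, s, t, hs, ht, e1, e2⟩ := seg_zero (n := ⟨1, -2 * d.r, 0⟩) (z := (fr d.a)⁻¹ • z)
    (w := (fr d.a)⁻¹ • z')
    (by rw [Area3_line]; exact div_nonpos_of_nonpos_of_nonneg (by linarith) (im_pos _).le)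
    (by rw [Area3_line]; exact div_nonneg (by linarith) (im_pos _).le)
  have e3 := dist_add_of_comb hs ht e1
  have hy := y.im_pos
  have e4 : y.re = d.r := by
    rw [Area3_line, div_eq_zero_iff] at e2
    rcases e2 with e2 | e2 <;> linarith
  refine ⟨fr d.a • y, ?_, ?_⟩
  · rw [dist_smul] at e3
    rw [← dist_smul (fr d.a)⁻¹, inv_smul_smul]
    linarith [dist_nonneg (x := y) (y := (fr d.a)⁻¹ • z')]
  have f1 : Fin' d.a d.b := fin' d.a_mem d.b_mem d.a_ne_b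
  have f2 : Fin' d.a (-d.b) := fin' d.a_mem (T.ws.neg _ d.b_mem) fun e =>
    d.b_ne_neg (by rw [e, neg_neg])
  obtain ⟨n1, n2⟩ := (fac_iff_crd d.a_unit f1 f2).1.1 d.fac
  obtain ⟨-, c0⟩ := B_crd d.a_unit d.b_unit f1 f2
  obtain ⟨c1, c2, c3, c4⟩ := VW2_co d.a_unit d.b_unit f1 f2
  have hr : d.r = crd d.a d.b := rfl
  have b1 : B d.a (Hy (fr d.a • y)) = -crd d.a d.b / y.im := by
    rw [Hy_smul, B_ad_right, VW2_inv d.a_unit, ← hr, ← e4]
    simp [B, w0, Hy]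
  have b2 : B d.b (Hy (fr d.a • y)) * (crd d.a d.b - crd d.a (-d.b)) = y.im := by
    rw [Hy_smul, B_ad_right]
    simp only [B, Hy, e4, hr]
    field_simp
    linear_combination (-2 * crd d.a d.b) * c2 - c3 + (crd d.a d.b ^ 2 + y.im ^ 2) * c4
  have b3 : B d.a d.b * (crd d.a d.b - crd d.a (-d.b)) = crd d.a d.b + crd d.a (-d.b) := by
    rw [c0, div_mul_cancel₀ _ c1]
  have b4 := d.B_lt
  have b5 : 0 < crd d.a d.b - crd d.a (-d.b) := by
    by_contra h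
    nlinarith [not_lt.1 h]
  rcases le_total y.im (-crd d.a d.b) with h | h
  · refine Or.inr (le_trans ?_ (le_max_left _ _))
    have b6 : 0 < B d.b (Hy (fr d.a • y)) := by
      by_contra h'
      nlinarith [not_lt.1 h']
    rw [abs_of_pos b6]
    refine le_trans ?_ hM'
    by_contra h'
    nlinarith [not_le.1 h']
  · refine Or.inl (le_trans ?_ (le_max_right _ _))
    rw [b1, abs_of_pos (div_pos (by linarith) hy), div_le_one hy]
    exact h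

lemma finite_sep (z z' : ℍ) : {d : T.D | Pos d z ∧ ¬ Pos d z' ∧ 0 < B d.a (Hy z) ∧
    0 < B d.b (Hy z')}.Finite := by
  obtain ⟨M, hM⟩ := near_of_sep (T := T)
  have hW := T.ws.lf T.nice z (Real.sinh (Real.arsinh M + dist z z'))
  have key : ∀ n ∈ T.A, ∀ y : ℍ, dist z y ≤ dist z z' → |B n (Hy y)| ≤ M →
      |B n (Hy z)| ≤ Real.sinh (Real.arsinh M + dist z z') := fun n hn y h1 h2 => by
    have h3 := VH3_lip (unit hn) z y
    have h4 := Real.arsinh_le_arsinh.2 h2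
    rw [← Real.sinh_arsinh |B n (Hy z)|, Real.sinh_le_sinh]
    linarith
  have F1 := (hW.sep fun a => zc a z < 0).biUnion fun a ha =>
    finite_window (T := T) a (r₁ := zc a z') ha.2
  have F2 := (hW.sep fun a => zc a z' < 0).biUnion fun a ha =>
    (finite_window (T := T) a (r₁ := zc a z) ha.2).image T.ι
  refine (F1.union F2).subset fun d ⟨h1, h2, h3, h4⟩ => ?_
  obtain ⟨y, e1, e2 | e2⟩ := hM d z z' h1 h2
  · exact Or.inl (Set.mem_biUnion (x := d.a) ⟨⟨d.a_mem, key _ d.a_mem y e1 e2⟩,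
      (zc_neg_iff d.a_unit z).2 h3⟩ ⟨rfl, (not_le.1 h2).le, h1⟩)
  · refine Or.inr (Set.mem_biUnion (x := d.b) ⟨⟨d.b_mem, key _ d.b_mem y e1 e2⟩,
      (zc_neg_iff d.b_unit z').2 h4⟩ ⟨T.ι d, ⟨rfl, (pos_ι (T.ι d) z).1 h1, ?_⟩, rfl⟩)
    exact (not_le.1 fun h => h2 ((pos_ι (T.ι d) z').2 h)).le

theorem cover_Δ {z : ℍ} (hz : ∀ a ∈ T.A, B a (Hy z) ≠ 0) :
    ∃ d : T.D, Pos d z ∧ ¬ Pos (T.φ d) z ∧ ¬ Pos (T.ψ d) z := by
  obtain ⟨U, a, ha, haU, u1, u2, u3⟩ := exists_chamber hz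
  obtain ⟨ua, t, ht, hm⟩ := T.ws.per a ha
  have hmem : ∀ m : ℕ, ex (m * t) a ∈ Γ := fun m => ex_pow t a m ▸ Γ.pow_mem hm m
  have hz0 : zc a z < 0 := (zc_neg_iff ua z).2 (u2 a haU)
  obtain ⟨d₀, e₁, e₂⟩ : ∃ d : T.D, d.a = a ∧ d.r ≤ zc a z := by
    obtain ⟨b, hb⟩ := T.has a ha
    obtain ⟨m, h⟩ := Area3_exp ht (D.r_neg (T := T) ⟨_, hb⟩) (zc a z)
    obtain ⟨e1, e2⟩ := r_ex (g := ⟨_, hmem m⟩) (d := (⟨_, hb⟩ : T.D)) (t := m * t) (PM.refl _)
    exact ⟨_, e1, e2 ▸ h.le⟩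
  obtain ⟨m, h⟩ := Area3_exp ht hz0 d₀.r
  rw [← zc_ex ua] at h
  have u4 : ∀ b ∈ U, 0 < B b (Hy (ex (m * t) a • z)) := fun b hb => by
    rw [Hy_smul, B_ad_right]
    exact u2 _ (u3 _ (Γ.inv_mem (hmem m)) (by rw [inv_smul_eq_iff, ex_ad_self]) b hb)
  have hX : {d : T.D | d.a ∈ U ∧ Pos d z ∧ ¬ Pos d (ex (m * t) a • z)}.Finite :=
    (finite_sep z (ex (m * t) a • z)).subset fun d hd =>
      ⟨hd.2.1, hd.2.2, u2 _ hd.1, u4 _ (u1 d hd.1)⟩
  obtain ⟨d, ⟨k1, k2, k3⟩, k4⟩ := hX.exists_minimalFor (fun d => {y | Pos d y}) _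
    ⟨d₀, e₁ ▸ haU, by unfold Pos; rwa [e₁], by unfold Pos; rw [e₁]; exact not_le.2 h⟩
  refine ⟨d, k2, fun h1 => ?_, fun h1 => ?_⟩
  · obtain ⟨y, y1, y2⟩ := exists_pos_φ d
    exact y2 (k4 (j := T.φ d) ⟨by rwa [φ_a], h1, fun h => k3 (pos_of_φ h)⟩
      (fun _ h => pos_of_φ h) y1)
  · obtain ⟨y, y1, y2⟩ := exists_pos_ψ d
    exact y2 (k4 (j := T.ψ d) ⟨u1 (T.φ d) (by rwa [φ_a]), h1, fun h => k3 (pos_of_ψ h)⟩
      (fun _ h => pos_of_ψ h) y1)

end Tr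

theorem sys_bound (b : ℕ) : ∃ R : ℝ, ∀ (Γ : Subgroup SL(2, ℝ)) (l : ℝ), Nice Γ → Sys Γ l →
    Module.Finite ℝ (Additive Γ →+ ℝ) → Module.finrank ℝ (Additive Γ →+ ℝ) ≤ b → l < R := by
  obtain ⟨c, hc, hΔ⟩ := vol_Δ
  obtain ⟨R, hR⟩ := vol_ball (c := (6 * b : ℕ) * c)
    (ENNReal.mul_ne_top (ENNReal.natCast_ne_top _) hc)
  refine ⟨R, fun Γ l h s _ hb => ?_⟩
  by_contra hl
  obtain ⟨A, hA, -⟩ := exists_far h s
  obtain ⟨T, rfl⟩ := exists_tr h hA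
  let Q := MulAction.orbitRel.Quotient Γ T.D
  let _ : Fintype Q := Fintype.ofFinite Q
  have hπ : ∀ d e : T.D, (Quotient.mk'' d : Q) = Quotient.mk'' e ↔ ∃ g : Γ, e = g • d :=
    fun d e => by
      rw [eq_comm, Quotient.eq'', MulAction.orbitRel_apply, MulAction.mem_orbit_iff]
      exact exists_congr fun _ => eq_comm
  have hcard := Tr.card_le_betti (T := T) (D := Q) Quotient.mk''_surjective hπ
  have hA' : T.A.Countable := by
    obtain ⟨F, hF⟩ := hA.fin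
    refine ((h.countable.prod F.countable_toSet).image fun p => p.1 • p.2).mono fun a ha => ?_
    obtain ⟨g, hg, m, hm, e⟩ := hF a ha
    exact ⟨(g, m), ⟨hg, hm⟩, e.symm⟩
  have key := vol_ball_le h s (ι := Q)
    (T := fun q => (fun z => (fr q.out.a)⁻¹ • z) ⁻¹' Δ q.out.r (T.φ q.out).r)
    (fun q => (measurableSet_Δ _ _).preimage (continuous_const_smul _).measurable)
    (N := ⋃ a ∈ T.A, {z : ℍ | B a (Hy z) = 0})
    ((measure_biUnion_null_iff hA').2 fun a ha => vol_wall (Tr.unit ha))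
    (fun z hz => by
      obtain ⟨d, h1, h2, h3⟩ := Tr.cover_Δ (T := T) (z := z) fun a ha e =>
        hz (Set.mem_biUnion ha e)
      obtain ⟨g, hg⟩ := (hπ d (Quotient.mk'' d : Q).out).1 (Quotient.out_eq' _).symm
      refine ⟨Quotient.mk'' d, g, g.2, ?_⟩
      rw [Set.mem_preimage, hg]
      exact Tr.mem_Δ ((Tr.pos_smul g d z).2 h1) (by rwa [Tr.φ_smul, Tr.pos_smul])
        (by rwa [Tr.ψ_smul, Tr.pos_smul])) I
  refine (hR l (not_lt.1 hl) I).not_ge (key.trans ?_)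
  refine (Finset.sum_le_card_nsmul _ _ c fun q _ => ?_).trans ?_
  · rw [vol_smul]
    exact hΔ _ _ q.out.r_lt
  · rw [nsmul_eq_mul, Finset.card_univ]
    exact mul_le_mul_left (Nat.cast_le.2 (by omega)) c

theorem crit_bound (g : ℕ) : ∃ C : ℝ, ∀ Γ : Subgroup SL(2, ℝ), IsSurfaceGroup g Γ →
    IsCritical Γ → sys Γ < C := by
  obtain ⟨R, hR⟩ := sys_bound (2 * g)
  refine ⟨2 * R, fun Γ hg hcr => ?_⟩
  have h := hg.nice
  obtain ⟨l, s⟩ := h.exists_sys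
  have cv := (isCritical_iff h s).1 hcr
  have hl : 1 / 2 ≤ l := by
    obtain ⟨n, hn⟩ := s.ne
    obtain ⟨m, hm, e⟩ := fill h s cv (SS.per s.pos hn)
    exact half_le_of_cross h s.pos hm hn e
  obtain ⟨A, hA, hF⟩ := exists_far h s
  obtain ⟨F, f1, f2⟩ := h.fin_orbits (hA.lf h) (fun n hn => (hA.per n hn).1) hA.inv
  obtain ⟨c, hc⟩ := betti_le l
  have := hR Γ l h s (hc Γ l h s hl le_rfl (connS h s cv) A hA hF F f1 f2).1 hg.genus.le
  rw [s.sys_eq h]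
  linarith

end

end Pool.Agent.P.MP_d39174_gt

end

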