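import Pool.Agent.P.MP_d39174_gt.All.M1
import Pool.Agent.P.MP_456758_an.Brouwer

section
/-! Filling systems of curves with a given intersection graph and one complementary polygon: definitions. -/

namespace Pool.Agent.P.MP_d39174_gt

open UpperHalfPlane MatrixGroups

noncomputable section

open Equiv

/-- Distance from the foot of a side at height `x` to the corner with a side at height `y`. -/
def Tt (x y : ℝ) : ℝ := Real.arsinh (y / √(1 + x ^ 2))

/-- Angle at the centre between the feet of two adjacent sides. -/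
def ang (x y : ℝ) : ℝ := Real.arccos (x * y / (√(1 + x ^ 2) * √(1 + y ^ 2)))

/-- No closed walk without backtracking of length at most `K`. -/
def NBG {Vx : Type} (G : SimpleGraph Vx) (K : ℕ) : Prop :=
  ∀ (r : ℕ) (v : ℕ → Vx), 1 ≤ r → r ≤ K → (∀ i, i < r → G.Adj (v i) (v (i + 1))) →
    (∀ i, i + 2 ≤ r → v i ≠ v (i + 2)) → v r ≠ v 0

/-- Heights `x` such that all curves have half length `Λ` and the angles add up. -/
structure Sol {Vx : Type} [Fintype Vx] (G : SimpleGraph Vx) [DecidableRel G.Adj]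
    (x : Vx → ℝ) (Λ : ℝ) : Prop where
  pos : ∀ v, 0 < x v
  len : ∀ v, ∑ w ∈ G.neighborFinset v, Tt (x v) (x w) = Λ
  tot : ∑ v, ∑ w ∈ G.neighborFinset v, ang (x v) (x w) = Real.pi

/-- Edge expansion of the sets with at most half of the vertices. -/
def Expd {Vx : Type} [Fintype Vx] [DecidableEq Vx] (G : SimpleGraph Vx) [DecidableRel G.Adj]
    (m : ℕ) : Prop :=
  ∀ S : Finset Vx, 2 * S.card ≤ Fintype.card Vx →
    m * S.card ≤ 20 * ∑ v ∈ S, (G.neighborFinset v \ S).card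

/-- The systolic walls of `Γ` realise the graph `G`. -/
def Rz {Vx : Type} (G : SimpleGraph Vx) (Γ : Subgroup SL(2, ℝ)) (l : ℝ) : Prop :=
  ∃ L : V → Vx, (∀ n ∈ SS Γ l, ∀ n' ∈ SS Γ l, L n = L n' ↔ Eqw Γ n n') ∧
    (∀ v, ∃ n ∈ SS Γ l, L n = v) ∧
    ∀ v w, G.Adj v w ↔ ∃ n ∈ SS Γ l, ∃ n' ∈ SS Γ l, L n = v ∧ L n' = w ∧ |B n n'| < 1

/-- Oriented arcs `H` of a system of curves with intersection graph `G`: `α` reverses an arc,
`ρ` turns it about its initial point, `ρ⁻¹ α` is the next side of the unique face and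
`ρ ρ α` the next arc of the same curve. -/
structure Cmb {Vx : Type} (G : SimpleGraph Vx) (H : Type) where
  α : Perm H
  ρ : Perm H
  lab : H → Vx
  α2 : ∀ h, α (α h) = h
  ρ4 : ∀ h, ρ (ρ (ρ (ρ h))) = h
  labα : ∀ h, lab (α h) = lab h
  labρ : ∀ h, lab (ρ (ρ h)) = lab h
  adj : ∀ h, G.Adj (lab h) (lab (ρ h))
  one : ∀ h k, (ρ⁻¹ * α).SameCycle h k
  same : ∀ h k, lab h = lab k → (ρ * ρ * α).SameCycle h k ∨ (ρ * ρ * α).SameCycle (α h) k
  two : ∀ h, ¬ (ρ * ρ * α).SameCycle h (α h)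
  inj : ∀ h k, (ρ * ρ * α).SameCycle h k → lab (ρ k) = lab (ρ h) → k = h
  nb : ∀ h w, G.Adj (lab h) w → ∃ k, (ρ * ρ * α).SameCycle h k ∧ lab (ρ k) = w
  surj : Function.Surjective lab

namespace Cmb

variable {Vx H : Type} {G : SimpleGraph Vx} (C : Cmb G H)

/-- Next side of the face. -/
def f : Perm H := C.ρ⁻¹ * C.α

/-- Next arc on the same curve. -/
def ς : Perm H := C.ρ * C.ρ * C.α

/-- Number of arcs of the curve. -/
def per (h : H) : ℕ := Function.minimalPeriod C.ς h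

/-- The additive characters of the side pairings. -/
def Z : Submodule ℝ (H → ℝ) where
  carrier := {a | (∀ h, a (C.α h) = -a h) ∧
    ∀ h, a h + a (C.ρ h) + a (C.ρ (C.ρ h)) + a (C.ρ (C.ρ (C.ρ h))) = 0}
  add_mem' := by
    rintro a b ⟨h1, h2⟩ ⟨h3, h4⟩
    refine ⟨fun h => ?_, fun h => ?_⟩ <;> simp only [Pi.add_apply]
    · rw [h1, h3]; ring
    · linear_combination h2 h + h4 h
  zero_mem' := ⟨fun h => by simp, fun h => by simp⟩
  smul_mem' := by
    rintro t a ⟨h1, h2⟩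
    refine ⟨fun h => ?_, fun h => ?_⟩ <;> simp only [Pi.smul_apply, smul_eq_mul]
    · rw [h1]; ring
    · linear_combination t * h2 h

lemma ρ_inv (h : H) : C.ρ⁻¹ h = C.ρ (C.ρ (C.ρ h)) := by
  rw [Perm.inv_eq_iff_eq, C.ρ4]

lemma f_eq (h : H) : C.f h = C.ρ (C.ρ (C.ρ (C.α h))) := by
  rw [f, Perm.mul_apply, ρ_inv]

lemma ς_eq (h : H) : C.ς h = C.ρ (C.ρ (C.α h)) := rfl

lemma f_inv (h : H) : C.f⁻¹ h = C.α (C.ρ h) := by
  rw [Perm.inv_eq_iff_eq, f_eq, C.α2, C.ρ4]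

lemma ρ_f (h : H) : C.ρ (C.f h) = C.α h := by rw [f_eq, C.ρ4]

lemma f_α_f (h : H) : C.f (C.α (C.f h)) = C.ς h := by
  rw [f_eq, C.α2, f_eq, C.ρ4, ς_eq]

lemma f_inv_ς (h : H) : C.f⁻¹ (C.ς h) = C.α (C.f h) := by
  rw [f_inv, ς_eq, f_eq]

lemma lab_ς (h : H) : C.lab (C.ς h) = C.lab h := by rw [ς_eq, C.labρ, C.labα]

lemma lab_f_inv (h : H) : C.lab (C.f⁻¹ h) = C.lab (C.ρ h) := by rw [f_inv, C.labα]

lemma lab_f (h : H) : C.lab (C.f h) = C.lab (C.ρ (C.ς h)) := by rw [f_eq, ς_eq]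

lemma lab_f_α (h : H) : C.lab (C.f (C.α h)) = C.lab (C.f⁻¹ h) := by
  rw [f_eq, C.α2, C.labρ, lab_f_inv]

lemma lab_f_inv_α (h : H) : C.lab (C.f⁻¹ (C.α h)) = C.lab (C.f h) := by
  rw [f_eq, C.labρ, lab_f_inv]

lemma adj_f (h : H) : G.Adj (C.lab h) (C.lab (C.f h)) := by
  rw [lab_f, ← C.lab_ς h]; exact C.adj _

lemma α_ne (h : H) : C.α h ≠ h := fun e => C.two h (by rw [e])

lemma ρ_ne (h : H) : C.ρ h ≠ h := fun e => (C.adj h).ne (by rw [e])

lemma ρρ_ne (h : H) : C.ρ (C.ρ h) ≠ h := fun e => C.two h (by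
  have : (C.ρ * C.ρ * C.α) (C.α h) = h := by simp [C.α2, e]
  exact (Perm.sameCycle_apply_left.1 (by rw [this])).symm)

lemma f_ne (h : H) : C.f h ≠ h := fun e => (C.adj_f h).ne (by rw [e])

end Cmb

/-- One move along the arcs: reverse, then turn `j` times. -/
def stp {S : Type} (a r : Perm S) (s : S) (j : ℕ) : S := (r ^ j) (a s)

/-- A sequence of moves. -/
def run {S : Type} (a r : Perm S) (s : S) (js : List ℕ) : S := js.foldl (stp a r) s

/-- Reachable by at most `n` moves. -/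
def Rch {S : Type} (a r : Perm S) (n : ℕ) (s s' : S) : Prop :=
  ∃ js : List ℕ, js.length ≤ n ∧ run a r s js = s'

/-- The group `PSL(2, ℝ)` as a group of permutations of `V`. -/
abbrev PS : Type := (MulAction.toPermHom SL(2, ℝ) V).range

/-- The projection to `PSL(2, ℝ)`. -/
def ad : SL(2, ℝ) →* PS := (MulAction.toPermHom SL(2, ℝ) V).rangeRestrict

lemma ad_smul (g : SL(2, ℝ)) (x : V) : ad g • x = g • x := rfl

lemma ad_surj (k : PS) : ∃ g, ad g = k := MonoidHom.rangeRestrict_surjective _ k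

lemma PS.ext' {k k' : PS} (h : ∀ x : V, k • x = k' • x) : k = k' :=
  Subtype.ext (Equiv.ext h)

lemma ad_eq_iff (g h : SL(2, ℝ)) : ad g = ad h ↔ PM g h := by
  refine ⟨fun e => ?_, fun e => PS.ext' fun x => e.ad x⟩
  refine pm_of_ad (n := w0) (m := o0) ?_ ?_ ?_
  · intro h0
    have := congrArg V.b h0
    simp [cr, w0, o0] at this
  · rw [← ad_smul, e, ad_smul]
  · rw [← ad_smul, e, ad_smul]

lemma PS.eq_of {k k' : PS} {n m : V} (hc : cr n m ≠ 0) (hn : k • n = k' • n)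
    (hm : k • m = k' • m) : k = k' := by
  obtain ⟨g, rfl⟩ := ad_surj k
  obtain ⟨g', rfl⟩ := ad_surj k'
  exact (ad_eq_iff _ _).2 (pm_of_ad hc hn hm)

lemma PS.B_smul (k : PS) (x y : V) : B (k • x) (k • y) = B x y := by
  obtain ⟨g, rfl⟩ := ad_surj k
  exact B_ad g x y

lemma PS.B_left (k : PS) (x y : V) : B (k • x) y = B x (k⁻¹ • y) := by
  rw [← PS.B_smul k x, smul_inv_smul]

lemma PS.smul_add (k : PS) (x y : V) : k • (x + y) = k • x + k • y := by
  obtain ⟨g, rfl⟩ := ad_surj k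
  exact _root_.smul_add g x y

lemma PS.smul_neg (k : PS) (x : V) : k • (-x) = -(k • x) := by
  obtain ⟨g, rfl⟩ := ad_surj k
  exact _root_.smul_neg g x

lemma PS.smul_sub (k : PS) (x y : V) : k • (x - y) = k • x - k • y := by
  obtain ⟨g, rfl⟩ := ad_surj k
  exact _root_.smul_sub g x y

lemma PS.smul_real (k : PS) (t : ℝ) (x : V) : k • (t • x) = t • (k • x) := by
  obtain ⟨g, rfl⟩ := ad_surj k
  exact ad_real g t x

lemma PS.smul_cr (k : PS) (x y : V) : k • cr x y = cr (k • x) (k • y) := by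
  obtain ⟨g, rfl⟩ := ad_surj k
  exact cr_ad g x y

lemma PS.fut (k : PS) {p : V} (h : Fut p) : Fut (k • p) := by
  obtain ⟨g, rfl⟩ := ad_surj k
  exact h.ad g

lemma PS.dist_pt (k : PS) {p q : V} (hp : Fut p) (hq : Fut q) :
    dist (pt (k • p)) (pt (k • q)) = dist (pt p) (pt q) := by
  obtain ⟨g, rfl⟩ := ad_surj k
  rw [ad_smul, ad_smul, pt_ad g hp, pt_ad g hq, dist_smul]

end

end Pool.Agent.P.MP_d39174_gt

end

section
/-! The right-angled polygon of a filling system and its side pairings: definitions. -/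

namespace Pool.Agent.P.MP_d39174_gt

open UpperHalfPlane MatrixGroups

noncomputable section

open Equiv

/-- A right-angled polygon centred at `o0` with inward normals `ν h` at heights `x`. -/
structure Poly {Vx H : Type} {G : SimpleGraph Vx} (C : Cmb G H) where
  x : Vx → ℝ
  ν : H → V
  pos : ∀ v, 0 < x v
  unit : ∀ h, B (ν h) (ν h) = 1
  cen : ∀ h, B (ν h) o0 = x (C.lab h)
  perp : ∀ h, B (ν h) (ν (C.f h)) = 0
  ori : ∀ h, 0 < det3 o0 (ν h) (ν (C.f h))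
  far : ∀ h k, k ≠ h → k ≠ C.f h → h ≠ C.f k → B (ν h) (ν k) < -1
  sect : ∀ p : V, ∃ (h : H) (κ s s' : ℝ), 0 ≤ s ∧ 0 ≤ s' ∧
    p = κ • o0 - s • ν h - s' • ν (C.f h)

namespace Poly

variable {Vx H : Type} {G : SimpleGraph Vx} {C : Cmb G H} (P : Poly C)

/-- Height of a side. -/
def y (h : H) : ℝ := P.x (C.lab h)

/-- `cosh` of the distance from the centre to a side. -/
def c (h : H) : ℝ := √(1 + P.y h ^ 2)

/-- Foot of the perpendicular from the centre to a side. -/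
def φ (h : H) : V := (1 / P.c h) • (o0 - P.y h • P.ν h)

/-- Direction of a side at the foot. -/
def m (h : H) : V := cr (P.ν h) (P.φ h)

/-- Distance from the foot to the end of the side. -/
def T (h : H) : ℝ := Tt (P.y h) (P.y (C.f h))

open Classical in
/-- The side pairing. -/
def t (h : H) : SL(2, ℝ) :=
  if e : ∃ g : SL(2, ℝ), g • P.φ (C.α h) = P.φ h ∧ g • P.m (C.α h) = -P.m h then e.choose else 1

/-- The side pairing in `PSL(2, ℝ)`. -/
def τ (h : H) : PS := ad (P.t h)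

/-- The group generated by the side pairings. -/
def Γb : Subgroup PS := Subgroup.closure (Set.range P.τ)

/-- Its preimage in `SL(2, ℝ)`. -/
def Γ : Subgroup SL(2, ℝ) := P.Γb.comap ad

/-- The polygon as a cone. -/
def Q (p : V) : Prop := Fut p ∧ ∀ h, 0 ≤ B (P.ν h) p

/-- The oriented walls of the tiling. -/
def S : Set V := {n | ∃ k ∈ P.Γb, ∃ h, n = k • P.ν h}

/-- Sides whose walls are close are close along the boundary. -/
def Near (D : ℝ) (K : ℕ) : Prop :=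
  ∀ h k, -B (P.ν h) (P.ν k) ≤ D → ∃ j, j ≤ K ∧ (k = (C.f ^ j) h ∨ h = (C.f ^ j) k)

/-- All curves have half length `Λ`. -/
def Len (Λ : ℝ) : Prop := ∀ h, ∑ i ∈ Finset.range (C.per h), P.T ((C.ς ^ i) h) = Λ

/-- Heights at least one with bounded ratios. -/
def Rat (κ : ℝ) : Prop := (∀ v, 1 ≤ P.x v) ∧ ∀ v w, P.x v ≤ κ * P.x w

/-- Direction vector of an oriented arc `(k, h)` of the tiling. -/
def M (s : PS × H) : V := s.1 • P.m s.2

/-- Foot point of an oriented arc of the tiling. -/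
def ft (s : PS × H) : ℍ := pt (s.1 • P.φ s.2)

end Poly

/-- Left translation of arcs. -/
def lmul {H : Type} (g : PS) : Perm (PS × H) := Equiv.prodCongr (Equiv.mulLeft g) (Equiv.refl H)

lemma lmul_apply {H : Type} (g : PS) (s : PS × H) : lmul g s = (g * s.1, s.2) := rfl

/-- A move `(k, h) ↦ (k * a h, σ h)` on arcs. -/
def mv {H : Type} (a : H → PS) (σ : Perm H) : Perm (PS × H) where
  toFun s := (s.1 * a s.2, σ s.2)
  invFun s := (s.1 * (a (σ⁻¹ s.2))⁻¹, σ⁻¹ s.2)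
  left_inv s := by simp
  right_inv s := by simp

lemma mv_apply {H : Type} (a : H → PS) (σ : Perm H) (s : PS × H) :
    mv a σ s = (s.1 * a s.2, σ s.2) := rfl

namespace Poly

variable {Vx H : Type} {G : SimpleGraph Vx} {C : Cmb G H} (P : Poly C)

/-- Reversal of an arc of the tiling. -/
def A : Perm (PS × H) := mv P.τ C.α

/-- Turning an arc of the tiling about its initial point. -/
def R : Perm (PS × H) := mv (fun h => P.τ (C.α (C.ρ h))) C.ρ

end Poly

/-- Total weight of the straight moves. -/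
def gain {H : Type} (a r : Perm H) (w : H → ℝ) : H → List ℕ → ℝ
  | _, [] => 0
  | h, j :: js => (if j % 4 = 2 then w h else 0) + gain a r w (stp a r h j) js

end

end Pool.Agent.P.MP_d39174_gt

end

section
/-! Counting in a filling system. -/

namespace Pool.Agent.P.MP_d39174_gt

open UpperHalfPlane MatrixGroups

noncomputable section

open Equiv

namespace Cmb

variable {Vx H : Type} [Fintype Vx] [DecidableEq Vx] [Fintype H] [DecidableEq H]
  {G : SimpleGraph Vx} [DecidableRel G.Adj] (C : Cmb G H)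

lemma per_pos (h : H) : 0 < C.per h :=
  Function.minimalPeriod_pos_of_mem_periodicPts (C.ς.injective.mem_periodicPts h)

lemma ς_pow_per (h : H) : (C.ς ^ C.per h) h = h := by
  rw [← Perm.iterate_eq_pow]
  exact Function.iterate_minimalPeriod

lemma per_dvd {h : H} {i : ℕ} (e : (C.ς ^ i) h = h) : C.per h ∣ i := by
  rw [← Perm.iterate_eq_pow] at e
  exact Function.IsPeriodicPt.minimalPeriod_dvd e

private lemma same_pow (h : H) (i : ℕ) : C.ς.SameCycle h ((C.ς ^ i) h) := ⟨i, by simp⟩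

private lemma lab_same {h k : H} (e : C.ς.SameCycle h k) : C.lab k = C.lab h := by
  obtain ⟨i, -, rfl⟩ := e.exists_pow_eq'
  induction i with
  | zero => rfl
  | succ i ih => rw [pow_succ', Perm.mul_apply, lab_ς, ih (C.same_pow h i)]

private lemma sum_cyc (F : H → ℝ) (h : H) : ∑ i ∈ Finset.range (C.per h), F ((C.ς ^ i) h) =
    ∑ k with C.ς.SameCycle h k, F k := by
  refine Finset.sum_bij (fun i _ => (C.ς ^ i) h) (fun i _ => by simpa using C.same_pow h i)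
    (fun i hi j hj e => ?_) (fun k hk => ?_) fun _ _ => rfl
  · rw [← Perm.iterate_eq_pow, ← Perm.iterate_eq_pow] at e
    exact Function.iterate_injOn_Iio_minimalPeriod (Finset.mem_range.1 hi) (Finset.mem_range.1 hj) e
  · obtain ⟨i, -, rfl⟩ := (Finset.mem_filter.1 hk).2.exists_pow_eq'
    refine ⟨i % C.per h, Finset.mem_range.2 (Nat.mod_lt _ (C.per_pos h)), ?_⟩
    rw [← Perm.iterate_eq_pow, ← Perm.iterate_eq_pow]
    exact Function.iterate_mod_minimalPeriod_eq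

private lemma sum_nb (F : Vx → ℝ) (h : H) :
    ∑ k with C.ς.SameCycle h k, F (C.lab (C.f k)) = ∑ w ∈ G.neighborFinset (C.lab h), F w := by
  refine Finset.sum_bij (fun k _ => C.lab (C.f k)) (fun k hk => ?_) (fun k hk k' hk' e => ?_)
    (fun w hw => ?_) fun _ _ => rfl
  · rw [SimpleGraph.mem_neighborFinset, ← C.lab_same (Finset.mem_filter.1 hk).2]
    exact C.adj_f k
  · rw [lab_f, lab_f] at e
    refine C.ς.injective (C.inj _ _ ?_ e)
    exact ((Finset.mem_filter.1 hk').2.symm.trans (Finset.mem_filter.1 hk).2).apply_left.apply_right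
  · obtain ⟨k, h1, h2⟩ := C.nb h w ((G.mem_neighborFinset _ _).1 hw)
    refine ⟨C.ς.symm k, Finset.mem_filter.2 ⟨Finset.mem_univ _, h1.symm_apply_right⟩, ?_⟩
    rw [lab_f, Equiv.apply_symm_apply, h2]

lemma per_dvd_of_lab {h : H} {i : ℕ} (e : C.lab (C.ρ ((C.ς ^ i) h)) = C.lab (C.ρ h)) :
    C.per h ∣ i :=
  C.per_dvd (C.inj _ _ (C.same_pow h i) e)

lemma sum_per (F : Vx → ℝ) (h : H) :
    ∑ i ∈ Finset.range (C.per h), F (C.lab (C.f ((C.ς ^ i) h))) =
      ∑ w ∈ G.neighborFinset (C.lab h), F w :=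
  (C.sum_cyc (fun k => F (C.lab (C.f k))) h).trans (C.sum_nb F h)

lemma sum_all (F : Vx → Vx → ℝ) :
    ∑ h, F (C.lab h) (C.lab (C.f h)) = 2 * ∑ v, ∑ w ∈ G.neighborFinset v, F v w := by
  rw [← Finset.sum_fiberwise Finset.univ C.lab, Finset.mul_sum]
  refine Finset.sum_congr rfl fun v _ => ?_
  obtain ⟨h, rfl⟩ := C.surj v
  have e : (Finset.univ.filter fun k => C.lab k = C.lab h) =
      (Finset.univ.filter fun k => C.ς.SameCycle h k) ∪
        Finset.univ.filter fun k => C.ς.SameCycle (C.α h) k := by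
    ext k
    simp only [Finset.mem_union, Finset.mem_filter, Finset.mem_univ, true_and]
    exact ⟨fun e => C.same h k e.symm,
      fun e => e.elim C.lab_same fun e => (C.lab_same e).trans (C.labα h)⟩
  rw [Finset.sum_congr rfl fun k hk => by rw [(Finset.mem_filter.1 hk).2], e, Finset.sum_union,
    C.sum_nb, C.sum_nb, C.labα, two_mul]
  exact Finset.disjoint_filter.2 fun k _ h1 h2 => C.two h (h1.trans h2.symm)

include C in
lemma card_eq : Fintype.card H = 4 * G.edgeFinset.card := by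
  have h := C.sum_all fun _ _ => 1
  simp only [Finset.sum_const, nsmul_eq_mul, mul_one, Finset.card_univ,
    SimpleGraph.card_neighborFinset_eq_degree] at h
  rw [← Nat.cast_sum, G.sum_degrees_eq_twice_card_edges] at h
  have h1 : Fintype.card H = 2 * (2 * G.edgeFinset.card) := by exact_mod_cast h
  omega

lemma sum_avg (F : H → ℝ) :
    ∑ h, (1 / (C.per h : ℝ)) * ∑ i ∈ Finset.range (C.per h), F ((C.ς ^ i) h) = ∑ h, F h := by
  have hc : ∀ h, (C.per h : ℝ) = ∑ k with C.ς.SameCycle h k, (1 : ℝ) := fun h => by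
    rw [← C.sum_cyc (fun _ => 1) h]
    simp
  have he : ∀ h k, C.ς.SameCycle h k → (C.per h : ℝ) = C.per k := fun h k e => by
    rw [hc, hc, Finset.filter_congr fun x _ => ⟨e.symm.trans, e.trans⟩]
  simp only [C.sum_cyc, Finset.mul_sum]
  rw [Finset.sum_comm' (t' := Finset.univ)
    (s' := fun k => Finset.univ.filter fun h => C.ς.SameCycle k h)
    fun h k => by simp [Perm.sameCycle_comm]]
  refine Finset.sum_congr rfl fun k _ => ?_
  have hp : (C.per k : ℝ) ≠ 0 := Nat.cast_ne_zero.2 (C.per_pos k).ne'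
  rw [Finset.sum_congr rfl fun h hh => by
    rw [← he k h (Finset.mem_filter.1 hh).2, ← mul_one (_ * F k)], ← Finset.mul_sum, ← hc]
  field_simp

private lemma tr_perm {σ : H → H} (hσ : ∀ h, σ h ≠ h) :
    LinearMap.trace ℝ (H → ℝ) (LinearMap.funLeft ℝ ℝ σ) = 0 := by
  rw [LinearMap.trace_eq_matrix_trace ℝ (Pi.basisFun ℝ H), Matrix.trace]
  refine Finset.sum_eq_zero fun h _ => ?_
  simp [LinearMap.toMatrix_apply, LinearMap.funLeft_apply, Pi.single_eq_of_ne (hσ h)]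

private def Wa : Submodule ℝ (H → ℝ) := LinearMap.ker (LinearMap.id + LinearMap.funLeft ℝ ℝ C.α)

private def av : (H → ℝ) →ₗ[ℝ] H → ℝ :=
  LinearMap.id + LinearMap.funLeft ℝ ℝ C.ρ + LinearMap.funLeft ℝ ℝ (fun h => C.ρ (C.ρ h)) +
    LinearMap.funLeft ℝ ℝ fun h => C.ρ (C.ρ (C.ρ h))

private lemma mem_Wa {a : H → ℝ} : a ∈ C.Wa ↔ ∀ h, a h + a (C.α h) = 0 := funext_iff

private lemma av_apply (a : H → ℝ) (h : H) :
    C.av a h = a h + a (C.ρ h) + a (C.ρ (C.ρ h)) + a (C.ρ (C.ρ (C.ρ h))) := rfl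

private lemma mem_av {a : H → ℝ} : a ∈ LinearMap.ker C.av ↔
    ∀ h, a h + a (C.ρ h) + a (C.ρ (C.ρ h)) + a (C.ρ (C.ρ (C.ρ h))) = 0 := funext_iff

private lemma finrank_Wa : (Module.finrank ℝ C.Wa : ℝ) = Fintype.card H / 2 := by
  have h : LinearMap.IsProj C.Wa ((1 / 2 : ℝ) • (LinearMap.id - LinearMap.funLeft ℝ ℝ C.α)) := by
    refine ⟨fun a => C.mem_Wa.2 fun h => ?_, fun a ha => funext fun h => ?_⟩
    · change 1 / 2 * (a h - a (C.α h)) + 1 / 2 * (a (C.α h) - a (C.α (C.α h))) = 0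
      rw [C.α2]
      ring
    · change 1 / 2 * (a h - a (C.α h)) = a h
      linarith [C.mem_Wa.1 ha h]
  rw [← h.trace, map_smul, map_sub, tr_perm C.α_ne, LinearMap.trace_id,
    Module.finrank_fintype_fun_eq_card, smul_eq_mul]
  ring

private lemma finrank_av :
    (Module.finrank ℝ (LinearMap.ker C.av) : ℝ) = 3 * Fintype.card H / 4 := by
  have h : LinearMap.IsProj (LinearMap.ker C.av) (LinearMap.id - (1 / 4 : ℝ) • C.av) := by
    refine ⟨fun a => C.mem_av.2 fun h => ?_, fun a ha => ?_⟩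
    · simp only [LinearMap.sub_apply, LinearMap.smul_apply, LinearMap.id_apply, Pi.sub_apply,
        Pi.smul_apply, smul_eq_mul, av_apply, C.ρ4]
      ring
    · rw [LinearMap.sub_apply, LinearMap.smul_apply, LinearMap.mem_ker.1 ha, smul_zero, sub_zero,
        LinearMap.id_apply]
  have h3 : ∀ h, C.ρ (C.ρ (C.ρ h)) ≠ h := fun h e => C.ρ_ne h (by
    conv_lhs => rw [← e]
    exact C.ρ4 h)
  rw [← h.trace, map_sub, map_smul, av, map_add, map_add, map_add, tr_perm C.ρ_ne, tr_perm C.ρρ_ne,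
    tr_perm h3, LinearMap.trace_id, Module.finrank_fintype_fun_eq_card, smul_eq_mul]
  ring

private lemma sup_eq [Nonempty H] : C.Wa ⊔ LinearMap.ker C.av =
    LinearMap.ker (∑ h, LinearMap.proj h : (H → ℝ) →ₗ[ℝ] ℝ) := by
  have hm : ∀ a : H → ℝ, a ∈ LinearMap.ker (∑ h, LinearMap.proj h : (H → ℝ) →ₗ[ℝ] ℝ) ↔
      ∑ h, a h = 0 := fun a => by simp
  refine le_antisymm (sup_le (fun a ha => (hm a).2 ?_) fun a ha => (hm a).2 ?_) fun a ha => ?_
  · have h := Finset.sum_eq_zero (s := Finset.univ) fun h _ => C.mem_Wa.1 ha h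
    rw [Finset.sum_add_distrib, Equiv.sum_comp C.α a] at h
    linarith
  · have h := Finset.sum_eq_zero (s := Finset.univ) fun h _ => C.mem_av.1 ha h
    simp only [Finset.sum_add_distrib] at h
    rw [Equiv.sum_comp C.ρ fun h => a (C.ρ (C.ρ h)), Equiv.sum_comp C.ρ fun h => a (C.ρ h),
      Equiv.sum_comp C.ρ a] at h
    linarith
  · have e : ∀ (σ : Perm H) (h k : H),
        (Pi.single (σ h) 1 : H → ℝ) (σ k) = (Pi.single h 1 : H → ℝ) k := fun σ h k => by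
      simp [Pi.single_apply]
    have h1 : ∀ h, (Pi.single h 1 - Pi.single (C.α h) 1 : H → ℝ) ∈ C.Wa := fun h =>
      C.mem_Wa.2 fun k => by
        have e1 := e C.α (C.α h) k
        rw [C.α2] at e1
        rw [Pi.sub_apply, Pi.sub_apply, e, e1]
        ring
    have h2 : ∀ h, (Pi.single (C.ρ h) 1 - Pi.single h 1 : H → ℝ) ∈ LinearMap.ker C.av := fun h =>
      C.mem_av.2 fun k => by
        have e1 := e C.ρ h (C.ρ (C.ρ (C.ρ k)))
        rw [C.ρ4] at e1
        simp only [Pi.sub_apply, e, e1]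
        ring
    have h3 : ∀ h k : H, C.f.SameCycle h k →
        (Pi.single h 1 - Pi.single k 1 : H → ℝ) ∈ C.Wa ⊔ LinearMap.ker C.av := by
      intro h k hk
      obtain ⟨i, -, rfl⟩ := hk.exists_pow_eq'
      clear hk
      induction i with
      | zero => simp
      | succ i ih =>
        have h4 := h2 (C.f ((C.f ^ i) h))
        rw [C.ρ_f] at h4
        have h5 := add_mem ih (Submodule.add_mem_sup (h1 ((C.f ^ i) h)) h4)
        rwa [sub_add_sub_cancel, sub_add_sub_cancel, ← Perm.mul_apply, ← pow_succ'] at h5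
    obtain ⟨k⟩ := ‹Nonempty H›
    have h6 : a = ∑ h, a h • (Pi.single h 1 - Pi.single k 1 : H → ℝ) := by
      simp only [smul_sub, Finset.sum_sub_distrib, ← Finset.sum_smul, (hm a).1 ha, zero_smul,
        sub_zero]
      exact pi_eq_sum_univ' a
    rw [h6]
    exact Submodule.sum_mem _ fun h _ => Submodule.smul_mem _ _ (h3 h k (C.one h k))

lemma finrank_Z [Nonempty H] : Module.finrank ℝ C.Z = G.edgeFinset.card + 1 := by
  have h1 : C.Z = C.Wa ⊓ LinearMap.ker C.av := by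
    ext a
    rw [Submodule.mem_inf, mem_Wa, mem_av]
    exact and_congr_left' (forall_congr' fun h => ⟨fun e => by linarith, fun e => by linarith⟩)
  have h2 := Submodule.finrank_sup_add_finrank_inf_eq C.Wa (LinearMap.ker C.av)
  have h3 := Module.Dual.finrank_ker_add_one_of_ne_zero
    (f := (∑ h, LinearMap.proj h : (H → ℝ) →ₗ[ℝ] ℝ)) fun e => by
      simpa using LinearMap.congr_fun e fun _ => 1
  rw [← C.sup_eq, Module.finrank_fintype_fun_eq_card] at h3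
  rw [← h1] at h2
  have h4 := C.finrank_Wa
  have h5 := C.finrank_av
  have h6 := C.card_eq
  have h7 : 2 * Module.finrank ℝ C.Wa = Fintype.card H := by
    exact_mod_cast (by linarith : 2 * (Module.finrank ℝ C.Wa : ℝ) = Fintype.card H)
  have h8 : 4 * Module.finrank ℝ (LinearMap.ker C.av) = 3 * Fintype.card H := by
    exact_mod_cast
      (by linarith : 4 * (Module.finrank ℝ (LinearMap.ker C.av) : ℝ) = 3 * Fintype.card H)
  omega

end Cmb

end

end Pool.Agent.P.MP_d39174_gt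

end

section
/-! Reduction of closed paths and backtracks. -/

namespace Pool.Agent.P.MP_d39174_gt

open UpperHalfPlane MatrixGroups

noncomputable section

open Equiv

lemma run_append {S : Type} (a r : Perm S) (s : S) (js ks : List ℕ) :
    run a r s (js ++ ks) = run a r (run a r s js) ks := List.foldl_append

lemma Rch.trans {S : Type} {a r : Perm S} {m n : ℕ} {s s' s'' : S} (h : Rch a r m s s')
    (h' : Rch a r n s' s'') : Rch a r (m + n) s s'' := by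
  obtain ⟨js, h1, h2⟩ := h
  obtain ⟨ks, h3, h4⟩ := h'
  refine ⟨js ++ ks, ?_, ?_⟩
  · rw [List.length_append]
    omega
  · rw [run_append, h2, h4]

lemma Rch.mono {S : Type} {a r : Perm S} {m n : ℕ} {s s' : S} (h : Rch a r m s s')
    (e : m ≤ n) : Rch a r n s s' := by
  obtain ⟨js, h1, h2⟩ := h
  exact ⟨js, h1.trans e, h2⟩

lemma Red_run_cons {S : Type} (a r : Perm S) (s : S) (j : ℕ) (js : List ℕ) :
    run a r s (j :: js) = run a r (stp a r s j) js := rfl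

lemma Red_pow_map {S S' : Type} {r : Perm S} {r' : Perm S'} {F : S → S'}
    (hr : ∀ s, F (r s) = r' (F s)) (j : ℕ) (s : S) : F ((r ^ j) s) = (r' ^ j) (F s) := by
  induction j with
  | zero => rfl
  | succ j ih => rw [pow_succ', pow_succ', Perm.mul_apply, Perm.mul_apply, hr, ih]

lemma Red_pow_mod {S : Type} {r : Perm S} (r4 : ∀ s, r (r (r (r s))) = s) (j : ℕ) :
    r ^ j = r ^ (j % 4) := by
  refine pow_eq_pow_mod j ?_
  ext s
  simp [pow_succ, r4]
/-- Moves commute with equivariant maps. -/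
lemma run_map {S S' : Type} {a r : Perm S} {a' r' : Perm S'} {F : S → S'}
    (ha : ∀ s, F (a s) = a' (F s)) (hr : ∀ s, F (r s) = r' (F s)) (s : S) (js : List ℕ) :
    F (run a r s js) = run a' r' (F s) js := by
  induction js generalizing s with
  | nil => rfl
  | cons j js ih =>
    rw [Red_run_cons, Red_run_cons, ih]
    unfold stp
    rw [Red_pow_map hr, ha]

lemma Red_rot {S : Type} {a r g : Perm S} (ga : ∀ s, g (a s) = a (g s))
    (gr : ∀ s, g (r s) = r (g s)) {s : S} {l1 l2 : List ℕ} (e : run a r s (l1 ++ l2) = g s) :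
    run a r (run a r s l1) (l2 ++ l1) = g (run a r s l1) := by
  rw [run_append, ← run_append a r s l1 l2, e, run_map (F := g) ga gr]

lemma Red_reduce {Vx H S : Type} {G : SimpleGraph Vx} (C : Cmb G H) {a r g : Perm S} {pr : S → H}
    (a2 : ∀ s, a (a s) = s) (r4 : ∀ s, r (r (r (r s))) = s)
    (ga : ∀ s, g (a s) = a (g s)) (gr : ∀ s, g (r s) = r (g s))
    (pa : ∀ s, pr (a s) = C.α (pr s)) (pρ : ∀ s, pr (r s) = C.ρ (pr s))
    (pg : ∀ s, pr (g s) = pr s) (n : ℕ) : ∀ {s : S} {js : List ℕ}, js.length = n →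
    run a r s js = g s →
    (∃ s', g s' = s') ∨ ∃ s' js', Rch a r (n ^ 2) s s' ∧ run a r s' js' = g s' ∧
      1 ≤ js'.length ∧ js'.length ≤ n ∧ ∀ j ∈ js', j % 4 ≠ 0 := by
  induction n using Nat.strong_induction_on with
  | _ n ih =>
  intro s js hn e
  by_cases hz : ∀ j ∈ js, j % 4 ≠ 0
  · rcases Nat.eq_zero_or_pos n with h0 | h0
    · have : js = [] := List.eq_nil_of_length_eq_zero (hn.trans h0)
      subst this
      exact .inl ⟨s, e.symm⟩
    · exact .inr ⟨s, js, ⟨[], Nat.zero_le _, rfl⟩, e, by omega, hn.le, hz⟩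
  obtain ⟨j, hj, hj0⟩ : ∃ j ∈ js, j % 4 = 0 := by
    by_contra hc
    exact hz fun j hj h0 => hc ⟨j, hj, h0⟩
  obtain ⟨l1, l2, rfl⟩ := List.append_of_mem hj
  have e1 := Red_rot ga gr e
  have hj1 : ∀ x, stp a r x j = a x := fun x => by
    unfold stp
    rw [Red_pow_mod r4 j, hj0]
    rfl
  have hlen : (l2 ++ l1).length + 1 = n := by
    rw [← hn]
    simp only [List.length_append, List.length_cons]
    omega
  have hl1 : l1.length + 1 ≤ n := by
    rw [← hn]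
    simp only [List.length_append, List.length_cons]
    omega
  have hr1 : Rch a r l1.length s (run a r s l1) := ⟨l1, le_rfl, rfl⟩
  rw [List.cons_append] at e1
  generalize run a r s l1 = s1 at e1 hr1
  generalize l2 ++ l1 = l at e1 hlen
  rcases l with _ | ⟨b, l⟩
  · exfalso
    have e2 : a s1 = g s1 := (hj1 s1).symm.trans e1
    have e3 := congrArg pr e2
    rw [pa, pg] at e3
    exact C.α_ne _ e3
  rcases List.eq_nil_or_concat l with rfl | ⟨l', c, rfl⟩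
  · left
    have e2 : (r ^ b) s1 = g s1 := by
      rw [← e1, Red_run_cons, hj1, Red_run_cons]
      unfold stp
      rw [a2]
      rfl
    have e3 := congrArg pr e2
    rw [pg, Red_pow_map pρ, Red_pow_mod C.ρ4] at e3
    have hb : b % 4 = 0 := by
      have h4 : b % 4 = 0 ∨ b % 4 = 1 ∨ b % 4 = 2 ∨ b % 4 = 3 := by omega
      rcases h4 with h4 | h4 | h4 | h4
      · exact h4
      · rw [h4] at e3
        exact (C.ρ_ne _ e3).elim
      · rw [h4] at e3
        exact (C.ρρ_ne _ e3).elim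
      · rw [h4] at e3
        have e4 : C.ρ (C.ρ (C.ρ (pr s1))) = pr s1 := e3
        have e5 := congrArg C.ρ e4
        rw [C.ρ4] at e5
        exact (C.ρ_ne _ e5.symm).elim
    rw [Red_pow_mod r4, hb] at e2
    exact ⟨s1, e2.symm⟩
  · rw [List.concat_eq_append] at e1 hlen
    have e2 := Red_rot (l1 := j :: b :: l') (l2 := [c]) ga gr e1
    have hr2 : Rch a r (l'.length + 2) s1 (run a r s1 (j :: b :: l')) := ⟨_, le_rfl, rfl⟩
    generalize run a r s1 (j :: b :: l') = s2 at e2 hr2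
    have e3 : run a r s2 ((b + c) :: l') = g s2 := by
      rw [← e2, List.singleton_append, Red_run_cons, Red_run_cons, Red_run_cons, Red_run_cons,
        hj1]
      unfold stp
      rw [a2, pow_add, Perm.mul_apply]
    simp only [List.length_append, List.length_cons, List.length_nil] at hlen
    rcases ih (l'.length + 1) (by omega) rfl e3 with h | ⟨s', js', h1, h2, h3, h4, h5⟩
    · exact .inl h
    · refine .inr ⟨s', js', ((hr1.trans hr2).trans h1).mono ?_, h2, h3, by omega, h5⟩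
      obtain rfl : n = l'.length + 3 := by omega
      nlinarith
/-- Cyclic reduction of a path from `s` to `g s`. -/
theorem reduce {Vx H S : Type} {G : SimpleGraph Vx} (C : Cmb G H) {a r g : Perm S} {pr : S → H}
    (a2 : ∀ s, a (a s) = s) (r4 : ∀ s, r (r (r (r s))) = s)
    (ga : ∀ s, g (a s) = a (g s)) (gr : ∀ s, g (r s) = r (g s))
    (pa : ∀ s, pr (a s) = C.α (pr s)) (pρ : ∀ s, pr (r s) = C.ρ (pr s))
    (pg : ∀ s, pr (g s) = pr s) {K : ℕ} {s : S} {js : List ℕ} (e : run a r s js = g s)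
    (hK : js.length ≤ K) :
    (∃ s', g s' = s') ∨ ∃ s' js', Rch a r (K ^ 2) s s' ∧ run a r s' js' = g s' ∧
      1 ≤ js'.length ∧ js'.length ≤ K ∧ ∀ j ∈ js', j % 4 ≠ 0 := by
  rcases Red_reduce C a2 r4 ga gr pa pρ pg js.length rfl e with h | ⟨s', js', h1, h2, h3, h4, h5⟩
  · exact .inl h
  · exact .inr ⟨s', js', h1.mono (Nat.pow_le_pow_left hK 2), h2, h3, h4.trans hK, h5⟩

lemma Red_gain_append {H : Type} (a r : Perm H) (w : H → ℝ) (h : H) (js ks : List ℕ) :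
    gain a r w h (js ++ ks) = gain a r w h js + gain a r w (run a r h js) ks := by
  induction js generalizing h with
  | nil => simp [gain, run]
  | cons j js ih =>
    rw [List.cons_append, Red_run_cons]
    simp only [gain]
    rw [ih, add_assoc]

section

variable {Vx H : Type} {G : SimpleGraph Vx} (C : Cmb G H)

/-- A straight run followed by a turn. -/
def Red_blk (x : H) (b : ℕ × ℕ) : H := stp C.α C.ρ ((C.ς ^ b.1) x) b.2

/-- The weight of a straight run. -/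
def Red_S (w : H → ℝ) (x : H) (d : ℕ) : ℝ := ∑ m ∈ Finset.range d, w ((C.ς ^ m) x)

/-- The weight of a list of runs. -/
def Red_G (w : H → ℝ) : H → List (ℕ × ℕ) → ℝ
  | _, [] => 0
  | x, b :: L => Red_S C w x b.1 + Red_G w (Red_blk C x b) L

lemma Red_G_append (w : H → ℝ) (x : H) (L L' : List (ℕ × ℕ)) :
    Red_G C w x (L ++ L') = Red_G C w x L + Red_G C w (L.foldl (Red_blk C) x) L' := by
  induction L generalizing x with
  | nil => simp [Red_G]
  | cons b L ih =>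
    rw [List.cons_append, List.foldl_cons]
    simp only [Red_G]
    rw [ih, add_assoc]

lemma Red_G_nonneg {w : H → ℝ} (w0 : ∀ h, 0 ≤ w h) (x : H) (L : List (ℕ × ℕ)) :
    0 ≤ Red_G C w x L := by
  induction L generalizing x with
  | nil => exact le_rfl
  | cons b L ih => exact add_nonneg (Finset.sum_nonneg fun _ _ => w0 _) (ih _)

lemma Red_decomp (w : H → ℝ) (js : List ℕ) (red : ∀ j ∈ js, j % 4 ≠ 0) (e : ℕ) :
    ∃ (L : List (ℕ × ℕ)) (d : ℕ), (∀ b ∈ L, b.2 % 4 = 1 ∨ b.2 % 4 = 3) ∧ L.length ≤ js.length ∧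
      ∀ x, run C.α C.ρ ((C.ς ^ e) x) js = (C.ς ^ d) (L.foldl (Red_blk C) x) ∧
        Red_S C w x e + gain C.α C.ρ w ((C.ς ^ e) x) js =
          Red_G C w x L + Red_S C w (L.foldl (Red_blk C) x) d := by
  induction js generalizing e with
  | nil => exact ⟨[], e, by simp, le_rfl, fun x => ⟨rfl, by simp [gain, Red_G]⟩⟩
  | cons j js ih =>
    have red' : ∀ i ∈ js, i % 4 ≠ 0 := fun i hi => red i (List.mem_cons_of_mem _ hi)
    have hj := red j List.mem_cons_self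
    by_cases h2 : j % 4 = 2
    · obtain ⟨L, d, q1, q2, q3⟩ := ih red' (e + 1)
      refine ⟨L, d, q1, by rw [List.length_cons]; omega, fun x => ?_⟩
      have e1 : stp C.α C.ρ ((C.ς ^ e) x) j = (C.ς ^ (e + 1)) x := by
        unfold stp
        rw [Red_pow_mod C.ρ4, h2, pow_succ' C.ς, Perm.mul_apply]
        rfl
      obtain ⟨q4, q5⟩ := q3 x
      refine ⟨by rw [Red_run_cons, e1, q4], ?_⟩
      rw [← q5]
      simp only [gain, if_pos h2, e1, Red_S, Finset.sum_range_succ]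
      ring
    · obtain ⟨L, d, q1, q2, q3⟩ := ih red' 0
      refine ⟨(e, j) :: L, d, ?_, by simp only [List.length_cons]; omega, fun x => ?_⟩
      · intro b hb
        rcases List.mem_cons.1 hb with rfl | hb
        · show j % 4 = 1 ∨ j % 4 = 3
          omega
        · exact q1 b hb
      · obtain ⟨q4, q5⟩ := q3 (Red_blk C x (e, j))
        simp only [pow_zero, Perm.one_apply] at q4 q5
        refine ⟨q4, ?_⟩
        have e0 : Red_S C w (Red_blk C x (e, j)) 0 = 0 := by simp [Red_S]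
        rw [e0, zero_add] at q5
        simp only [gain, if_neg h2, Red_G, List.foldl_cons]
        rw [add_assoc, ← q5, zero_add]
        rfl

lemma Red_lab_pow (x : H) (d : ℕ) : C.lab ((C.ς ^ d) x) = C.lab x := by
  induction d with
  | zero => rfl
  | succ d ih => rw [pow_succ', Perm.mul_apply, C.lab_ς, ih]

lemma Red_lab_blk (x : H) {b : ℕ × ℕ} (hb : b.2 % 4 = 1 ∨ b.2 % 4 = 3) :
    C.lab (Red_blk C x b) = C.lab (C.ρ ((C.ς ^ (b.1 + 1)) x)) ∧
      C.lab (C.ρ (Red_blk C x b)) = C.lab x := by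
  rw [pow_succ', Perm.mul_apply, ← Red_lab_pow C x b.1]
  unfold Red_blk stp
  generalize (C.ς ^ b.1) x = y
  rw [Red_pow_mod C.ρ4, C.ς_eq]
  rcases hb with hb | hb <;> rw [hb]
  · refine ⟨(C.labρ _).symm, ?_⟩
    show C.lab (C.ρ (C.ρ (C.α y))) = _
    rw [C.labρ, C.labα]
  · refine ⟨rfl, ?_⟩
    show C.lab (C.ρ (C.ρ (C.ρ (C.ρ (C.α y))))) = _
    rw [C.ρ4, C.labα]

lemma Red_one {K : ℕ} (hG : NBG G K) {w : H → ℝ} {Λ Tm : ℝ} (w0 : ∀ h, 0 ≤ w h)
    (w1 : ∀ h, w h ≤ Tm) (hΛ : ∀ h, ∑ i ∈ Finset.range (C.per h), w ((C.ς ^ i) h) = Λ)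
    {x : H} {L : List (ℕ × ℕ)} (e : L.foldl (Red_blk C) x = x) (h0 : L ≠ []) (hK : L.length ≤ K)
    (odd : ∀ b ∈ L, b.2 % 4 = 1 ∨ b.2 % 4 = 3) :
    ∃ L1 b L2, L = L1 ++ b :: L2 ∧ L1 ≠ [] ∧
      Λ - Tm ≤ Red_S C w (L1.foldl (Red_blk C) x) b.1 := by
  have stepk : ∀ i (hi : i < L.length), (L.take (i + 1)).foldl (Red_blk C) x =
      Red_blk C ((L.take i).foldl (Red_blk C) x) L[i] := fun i hi => by
    rw [List.take_succ_eq_append_getElem hi, List.foldl_append]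
    rfl
  obtain ⟨i, hi, hv⟩ : ∃ i, i + 2 ≤ L.length ∧ C.lab ((L.take i).foldl (Red_blk C) x) =
      C.lab ((L.take (i + 2)).foldl (Red_blk C) x) := by
    by_contra hc
    refine hG L.length (fun i => C.lab ((L.take i).foldl (Red_blk C) x))
      (List.length_pos_iff.2 h0) hK (fun i hi => ?_) (fun i hi q => hc ⟨i, hi, q⟩) ?_
    · show G.Adj (C.lab _) (C.lab ((L.take (i + 1)).foldl (Red_blk C) x))
      rw [stepk i hi, ← (Red_lab_blk C _ (odd _ (List.getElem_mem hi))).2]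
      exact (C.adj _).symm
    · show C.lab ((L.take L.length).foldl (Red_blk C) x) = C.lab x
      rw [List.take_length, e]
  have h1 : i < L.length := by omega
  have h2 : i + 1 < L.length := by omega
  refine ⟨L.take (i + 1), L[i + 1], L.drop (i + 2), ?_, ?_, ?_⟩
  · rw [List.getElem_cons_drop, List.take_append_drop]
  · intro q
    have := congrArg List.length q
    rw [List.length_take, List.length_nil] at this
    omega
  · rw [stepk (i + 1) h2, (Red_lab_blk C _ (odd _ (List.getElem_mem h2))).1,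
      ← (Red_lab_blk C _ (odd _ (List.getElem_mem h1))).2, ← stepk i h1] at hv
    generalize (L.take (i + 1)).foldl (Red_blk C) x = k at hv ⊢
    generalize L[i + 1].1 = d at hv ⊢
    have e1 : (C.ς ^ (d + 1)) k = k :=
      C.inj k _ ⟨((d + 1 : ℕ) : ℤ), by rw [zpow_natCast]; rfl⟩ hv.symm
    have e2 : C.per k ≤ d + 1 := by
      refine Function.IsPeriodicPt.minimalPeriod_le (Nat.succ_pos d) ?_
      show C.ς^[d + 1] k = k
      rw [← Perm.coe_pow]
      exact e1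
    have e3 : Λ ≤ ∑ m ∈ Finset.range (d + 1), w ((C.ς ^ m) k) := by
      rw [← hΛ k]
      exact Finset.sum_le_sum_of_subset_of_nonneg (Finset.range_mono e2) fun _ _ _ => w0 _
    rw [Finset.sum_range_succ] at e3
    have e4 := w1 ((C.ς ^ d) k)
    unfold Red_S
    linarith

lemma Red_two {K : ℕ} (hG : NBG G K) {w : H → ℝ} {Λ Tm : ℝ} (w0 : ∀ h, 0 ≤ w h)
    (w1 : ∀ h, w h ≤ Tm) (hΛ : ∀ h, ∑ i ∈ Finset.range (C.per h), w ((C.ς ^ i) h) = Λ)
    {x : H} {L : List (ℕ × ℕ)} (e : L.foldl (Red_blk C) x = x) (h0 : L ≠ []) (hK : L.length ≤ K)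
    (odd : ∀ b ∈ L, b.2 % 4 = 1 ∨ b.2 % 4 = 3) : 2 * (Λ - Tm) ≤ Red_G C w x L := by
  obtain ⟨L1, b, L2, rfl, -, q1⟩ := Red_one C hG w0 w1 hΛ e h0 hK odd
  rw [List.foldl_append] at e
  have e1 : (b :: L2 ++ L1).foldl (Red_blk C) (L1.foldl (Red_blk C) x) =
      L1.foldl (Red_blk C) x := by rw [List.foldl_append, e]
  have e2 : Red_G C w x (L1 ++ b :: L2) = Red_G C w (L1.foldl (Red_blk C) x) (b :: L2 ++ L1) := by
    rw [Red_G_append, Red_G_append, e, add_comm]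
  obtain ⟨M1, b', M2, q2, q3, q4⟩ := Red_one C hG w0 w1 hΛ e1 (by simp)
    (by
      simp only [List.length_append, List.length_cons] at hK ⊢
      omega)
    (fun c hc => odd c (by
      simp only [List.mem_append, List.mem_cons] at hc ⊢
      tauto))
  rw [e2, q2]
  generalize L1.foldl (Red_blk C) x = y at q1 q4
  rcases M1 with _ | ⟨b0, M1⟩
  · exact (q3 rfl).elim
  obtain rfl : b = b0 := by
    rw [List.cons_append, List.cons_append] at q2
    exact (List.cons.inj q2).1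
  rw [Red_G_append]
  have n1 := Red_G_nonneg C w0 (Red_blk C y b) M1
  have n2 := Red_G_nonneg C w0 (Red_blk C ((b :: M1).foldl (Red_blk C) y) b') M2
  simp only [Red_G]
  linarith

end
/-- A short reduced closed path is straight or runs twice around a curve. -/
theorem backtrack {Vx H : Type} [Fintype H] {G : SimpleGraph Vx} (C : Cmb G H) {K : ℕ}
    (hG : NBG G K) {w : H → ℝ} {Λ Tm : ℝ} (w0 : ∀ h, 0 ≤ w h) (w1 : ∀ h, w h ≤ Tm)
    (hΛ : ∀ h, ∑ i ∈ Finset.range (C.per h), w ((C.ς ^ i) h) = Λ) {h : H} {js : List ℕ}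
    (e : run C.α C.ρ h js = h) (hK : js.length ≤ K) (red : ∀ j ∈ js, j % 4 ≠ 0) :
    (∀ j ∈ js, j % 4 = 2) ∨ 2 * (Λ - Tm) ≤ gain C.α C.ρ w h js := by
  by_cases h2 : ∀ j ∈ js, j % 4 = 2
  · exact .inl h2
  right
  obtain ⟨j, hj, hj2⟩ : ∃ j ∈ js, j % 4 ≠ 2 := by
    by_contra hc
    exact h2 fun j hj => by_contra fun h0 => hc ⟨j, hj, h0⟩
  have hj0 := red j hj
  obtain ⟨l1, l2, rfl⟩ := List.append_of_mem hj
  obtain ⟨L, d, q1, q2, q3⟩ := Red_decomp C w (l2 ++ l1) (fun i hi => red i (by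
    simp only [List.mem_append, List.mem_cons] at hi ⊢
    tauto)) 0
  obtain ⟨x, hx⟩ : ∃ x, x = stp C.α C.ρ (run C.α C.ρ h l1) j := ⟨_, rfl⟩
  have e1 : run C.α C.ρ x l2 = h := by rw [← e, run_append, Red_run_cons, hx]
  obtain ⟨q4, q5⟩ := q3 x
  simp only [pow_zero, Perm.one_apply, Red_S, Finset.range_zero, Finset.sum_empty,
    zero_add] at q4 q5
  rw [run_append, e1] at q4
  rw [Red_gain_append, e1] at q5
  have c1 : (L ++ [(d, j)]).foldl (Red_blk C) x = x := by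
    rw [List.foldl_append]
    show stp C.α C.ρ ((C.ς ^ d) (L.foldl (Red_blk C) x)) j = x
    rw [← q4, ← hx]
  have c2 : Red_G C w x (L ++ [(d, j)]) = gain C.α C.ρ w h (l1 ++ j :: l2) := by
    rw [Red_G_append, Red_gain_append]
    simp only [Red_G, gain, if_neg hj2, ← hx, Red_S]
    linarith
  rw [← c2]
  refine Red_two C hG w0 w1 hΛ c1 (by simp) ?_ ?_
  · simp only [List.length_append, List.length_cons, List.length_nil] at hK q2 ⊢
    omega
  · intro b hb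
    rcases List.mem_append.1 hb with hb | hb
    · exact q1 b hb
    · rw [List.mem_singleton] at hb
      subst hb
      show j % 4 = 1 ∨ j % 4 = 3
      omega

end

end Pool.Agent.P.MP_d39174_gt

end

section
/-! Identities in the polygon. -/

namespace Pool.Agent.P.MP_d39174_gt

open UpperHalfPlane MatrixGroups

noncomputable section

open Equiv

/-- `SL(2, ℝ)` is transitive on unit tangent vectors. -/
lemma exists_frame {p m p' m' : V} (hp : Fut p) (hp1 : B p p = -1) (hm : B m m = 1)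
    (h : B m p = 0) (hp' : Fut p') (hp1' : B p' p' = -1) (hm' : B m' m' = 1) (h' : B m' p' = 0) :
    ∃ g : SL(2, ℝ), g • p = p' ∧ g • m = m' := by
  obtain ⟨a, ha⟩ := exists_fr hm
  obtain ⟨b, hb⟩ := exists_fr hm'
  have hk : (b * a⁻¹) • m = m' := by rw [← ha, mul_smul, inv_smul_smul, hb]
  have h0 : B m' ((b * a⁻¹) • p) = 0 := by rw [← hk, B_ad, h]
  obtain ⟨s, hs⟩ := wall_param hm' (hp.ad (b * a⁻¹)) (by rw [B_ad, hp1]) hp' hp1' h0 h'
  refine ⟨ex (s / 2) m' * (b * a⁻¹), ?_, ?_⟩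
  · rw [mul_smul, ex_ad_perp hm' h0, mul_div_cancel₀ s two_ne_zero, hs]
  · rw [mul_smul, hk, ex_ad_self]

/-- The traceless part of a group element. -/
private def Poly1_x (g : SL(2, ℝ)) : V := ⟨(g 0 0 - g 1 1) / 2, g 0 1, g 1 0⟩

private lemma Poly1_xx (g : SL(2, ℝ)) : B (Poly1_x g) (Poly1_x g) = (tr g / 2) ^ 2 - 1 := by
  have hd := det_eq g
  simp only [B, Poly1_x, tr]
  linear_combination (-1 : ℝ) * hd

private lemma Poly1_fix (g : SL(2, ℝ)) : g • Poly1_x g = Poly1_x g := by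
  have hd := det_eq g
  ext
  · simp only [ad_a, Poly1_x]
    linear_combination ((g 0 0 - g 1 1) / 2) * hd
  · simp only [ad_b, Poly1_x]
    linear_combination (g 0 1) * hd
  · simp only [ad_c, Poly1_x]
    linear_combination (g 1 0) * hd

private lemma Poly1_disp (g : SL(2, ℝ)) (z : ℍ) :
    Real.cosh (dist z (g • z)) =
      1 + 2 * B (Poly1_x g) (Poly1_x g) + 2 * B (Poly1_x g) (Hy z) ^ 2 := by
  rw [cosh_dist_eq, Hy_smul]
  have hp := Hy_unit z
  have hd := det_eq g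
  generalize Hy z = p at hp
  simp only [B, Poly1_x, ad_a, ad_b, ad_c] at hp ⊢
  linear_combination
    (-(((g 0 0 + g 1 1) / 2) ^ 2 + (((g 0 0 - g 1 1) / 2) ^ 2 + g 0 1 * g 1 0))) * hp + hd

private lemma Poly1_null {x : V} (hx : B x x = 0) :
    ∃ k : ℝ, ∀ s : ℝ, 0 < s → ∃ z : ℍ, B x (Hy z) = k * s := by
  unfold B at hx
  by_cases hc : x.c = 0
  · have ha : x.a = 0 := by
      rw [hc] at hx
      have : x.a * x.a = 0 := by linarith
      exact mul_self_eq_zero.1 this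
    refine ⟨-x.b / 2, fun s hs => ⟨⟨⟨0, s⁻¹⟩, inv_pos.2 hs⟩, ?_⟩⟩
    simp only [B, Hy, ha, hc]
    change 0 * (-(0 : ℝ) / s⁻¹) + (x.b * (-1 / s⁻¹) + 0 * (((0 : ℝ) ^ 2 + s⁻¹ ^ 2) / s⁻¹)) / 2 = _
    field_simp
    ring
  · refine ⟨x.c / 2, fun s hs => ⟨⟨⟨x.a / x.c, s⟩, hs⟩, ?_⟩⟩
    simp only [B, Hy]
    change x.a * (-(x.a / x.c) / s) +
      (x.b * (-1 / s) + x.c * (((x.a / x.c) ^ 2 + s ^ 2) / s)) / 2 = _
    have hb : x.b = -(x.a ^ 2) / x.c := by
      field_simp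
      linarith
    rw [hb]
    field_simp
    ring

/-- An element that is not hyperbolic has arbitrarily small displacements. -/
private lemma Poly1_small {g : SL(2, ℝ)} (hg : |tr g| ≤ 2) {ε : ℝ} (hε : 0 < ε) :
    ∃ z : ℍ, dist z (g • z) < ε := by
  have hx := Poly1_xx g
  have h2 : (tr g / 2) ^ 2 ≤ 1 := by
    have := abs_le.1 hg
    nlinarith [this.1, this.2]
  rcases (show B (Poly1_x g) (Poly1_x g) ≤ 0 by linarith).lt_or_eq with hlt | heq
  · rcases Fut.or_neg hlt with hf | hf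
    · refine ⟨pt (Poly1_x g), ?_⟩
      rw [← pt_ad g hf, Poly1_fix, dist_self]
      exact hε
    · refine ⟨pt (-Poly1_x g), ?_⟩
      rw [← pt_ad g hf, smul_neg, Poly1_fix, dist_self]
      exact hε
  · obtain ⟨k, hk⟩ := Poly1_null heq
    have hc : 1 < Real.cosh ε := Real.one_lt_cosh.2 hε.ne'
    have ht : Filter.Tendsto (fun s : ℝ => 1 + 2 * (k * s) ^ 2) (nhdsWithin 0 (Set.Ioi 0))
        (nhds 1) := by
      have : Continuous (fun s : ℝ => 1 + 2 * (k * s) ^ 2) := by fun_prop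
      have h0 := this.tendsto 0
      simp only [mul_zero, ne_eq, OfNat.ofNat_ne_zero, not_false_eq_true, zero_pow,
        add_zero] at h0
      exact h0.mono_left nhdsWithin_le_nhds
    obtain ⟨s, hs1, hs2⟩ := ((ht.eventually (gt_mem_nhds hc)).and self_mem_nhdsWithin).exists
    obtain ⟨z, hz⟩ := hk s hs2
    refine ⟨z, ?_⟩
    have hd := Poly1_disp g z
    rw [heq, hz] at hd
    have h3 : Real.cosh (dist z (g • z)) < Real.cosh ε := by
      rw [hd]
      linarith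
    have h4 := Real.cosh_lt_cosh.1 h3
    rwa [abs_of_nonneg dist_nonneg, abs_of_pos hε] at h4

/-- A lower bound for all displacements bounds the trace. -/
lemma abs_tr_of_disp {g : SL(2, ℝ)} {l : ℝ} (hl : 0 < l) (h : ∀ z : ℍ, 2 * l ≤ dist z (g • z)) :
    2 * Real.cosh l ≤ |tr g| := by
  by_cases h2 : 2 < |tr g|
  · obtain ⟨n, t, hn, ht, e⟩ := exists_ex h2
    obtain ⟨z, hz⟩ := exists_on_wall hn
    have h3 := h z
    rw [← e.act, dist_ex_of_wall hn t hz] at h3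
    have h4 : Real.cosh l ≤ Real.cosh t := Real.cosh_le_cosh.2 (by rw [abs_of_pos hl]; linarith)
    rw [← e.abs_tr, tr_ex hn, abs_of_pos (mul_pos two_pos (Real.cosh_pos t))]
    linarith
  · obtain ⟨z, hz⟩ := Poly1_small (not_lt.1 h2) (mul_pos two_pos hl)
    exact absurd (h z) (not_le.2 hz)

lemma o0_fut : Fut o0 := ⟨by rw [B_o0]; norm_num, one_pos⟩

lemma o0_unit : B o0 o0 = -1 := B_o0

namespace Poly

variable {Vx H : Type} {G : SimpleGraph Vx} {C : Cmb G H} (P : Poly C)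

lemma y_pos (h : H) : 0 < P.y h := P.pos _

lemma c_pos (h : H) : 0 < P.c h := Real.sqrt_pos.2 (by positivity)

lemma c_sq (h : H) : P.c h ^ 2 = 1 + P.y h ^ 2 := Real.sq_sqrt (by positivity)

lemma φ_fut (h : H) : Fut (P.φ h) := by
  have h1 := o0_fut.foot (P.unit h) zero_le_one le_rfl
  rw [one_mul, P.cen] at h1
  exact h1.smul (one_div_pos.2 (P.c_pos h))

lemma φ_unit (h : H) : B (P.φ h) (P.φ h) = -1 := by
  have h1 := P.c_sq h
  have h2 := (P.c_pos h).ne'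
  have h3 : B (P.ν h) o0 = P.y h := P.cen h
  simp only [φ, B_smul_left, B_smul_right, B_sub_left, B_sub_right, B_o0, P.unit,
    B_comm o0 (P.ν h), h3]
  field_simp
  linear_combination h1

private lemma Poly1_B (h k : H) :
    B (P.ν k) (P.φ h) = (P.y k - P.y h * B (P.ν k) (P.ν h)) / P.c h := by
  rw [φ, B_smul_right, B_sub_right, B_smul_right, P.cen, one_div_mul_eq_div]
  rfl

lemma ν_φ (h : H) : B (P.ν h) (P.φ h) = 0 := by
  rw [P.Poly1_B, P.unit, mul_one, sub_self, zero_div]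

lemma o0_eq (h : H) : o0 = P.c h • P.φ h + P.y h • P.ν h := by
  rw [φ, smul_smul, mul_one_div_cancel (P.c_pos h).ne', one_smul, sub_add_cancel]

lemma m_unit (h : H) : B (P.m h) (P.m h) = 1 := by
  rw [m, B_cr_cr, P.ν_φ, P.unit, P.φ_unit]
  norm_num

lemma m_φ (h : H) : B (P.m h) (P.φ h) = 0 := by rw [B_comm, m, B_cr_right]

lemma m_ν (h : H) : B (P.m h) (P.ν h) = 0 := by rw [B_comm, m, B_cr_left]

lemma ν_eq (h : H) : P.ν h = cr (P.φ h) (P.m h) := by
  rw [m, cr_cr, B_comm (P.φ h), P.ν_φ, P.φ_unit, zero_smul, _root_.neg_smul, one_smul,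
    zero_sub, neg_neg]

lemma T_pos (h : H) : 0 < P.T h := Real.arsinh_pos_iff.2 (div_pos (P.y_pos _) (P.c_pos h))

lemma T_le {κ : ℝ} (r : P.Rat κ) (h : H) : P.T h ≤ κ := by
  have h1 : P.T h ≤ Real.sinh (P.T h) := Real.self_le_sinh_iff.2 (P.T_pos h).le
  have h2 : Real.sinh (P.T h) = P.y (C.f h) / P.c h := Real.sinh_arsinh _
  have h3 : P.y (C.f h) ≤ κ * P.y h := r.2 _ _
  have h4 : P.y h ≤ P.c h := Real.le_sqrt_of_sq_le (by linarith)
  have h5 : 0 < κ := by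
    by_contra h5
    nlinarith [mul_nonneg (neg_nonneg.2 (not_lt.1 h5)) (P.y_pos h).le, P.y_pos (C.f h)]
  refine h1.trans (h2.trans_le ((div_le_iff₀ (P.c_pos h)).2 (h3.trans ?_)))
  exact mul_le_mul_of_nonneg_left h4 h5.le

lemma sinh_T (h : H) : Real.sinh (P.T h) = P.y (C.f h) / P.c h := Real.sinh_arsinh _

private lemma Poly1_exp {h k : H} {t : ℝ} (e : B (P.ν k) (P.ν h) = 0)
    (ht : Real.sinh t = P.y k / P.c h) :
    P.ν k = -Real.sinh t • P.φ h + B (P.ν k) (P.m h) • P.m h ∧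
      B (P.ν k) (P.m h) ^ 2 = Real.cosh t ^ 2 := by
  have h1 : B (P.ν k) (P.φ h) = Real.sinh t := by rw [P.Poly1_B, e, mul_zero, sub_zero, ht]
  have h2 := expand_on (P.unit h) (P.φ_unit h) (P.ν_φ h) (P.ν k)
  have h3 := VH2_pars (P.unit h) (P.φ_unit h) (P.ν_φ h) (P.ν k)
  rw [e, h1] at h2 h3
  rw [zero_smul, zero_sub, ← _root_.neg_smul] at h2
  rw [P.unit] at h3
  refine ⟨h2, ?_⟩
  rw [Real.cosh_sq, m]
  linarith

lemma ν_f (h : H) : P.ν (C.f h) = -Real.sinh (P.T h) • P.φ h - Real.cosh (P.T h) • P.m h := by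
  obtain ⟨h1, h2⟩ := P.Poly1_exp (by rw [B_comm, P.perp]) (P.sinh_T h)
  have h3 := P.ori h
  have h4 : det3 o0 (P.ν h) (P.ν (C.f h)) = -(P.c h * B (P.ν (C.f h)) (P.m h)) := by
    rw [P.o0_eq h]
    simp only [det3, B, cr, m, V.add_a, V.add_b, V.add_c, V.smul_a, V.smul_b, V.smul_c]
    ring
  have h5 : B (P.ν (C.f h)) (P.m h) < 0 := by
    have := P.c_pos h
    by_contra h5
    nlinarith [mul_nonneg this.le (not_lt.1 h5)]
  have h6 : B (P.ν (C.f h)) (P.m h) = -Real.cosh (P.T h) := by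
    have := Real.cosh_pos (P.T h)
    rcases sq_eq_sq_iff_eq_or_eq_neg.1 h2 with e | e
    · linarith
    · exact e
  rw [h6, _root_.neg_smul (Real.cosh _), ← sub_eq_add_neg] at h1
  exact h1

lemma ν_f_inv (h : H) : P.ν (C.f⁻¹ h) =
    -Real.sinh (P.T (C.α h)) • P.φ h + Real.cosh (P.T (C.α h)) • P.m h := by
  have e0 : C.f (C.f⁻¹ h) = h := by simp
  have e1 : P.y (C.f (C.α h)) = P.y (C.f⁻¹ h) := congrArg P.x (C.lab_f_α h)
  have e2 : P.c (C.α h) = P.c h := by rw [c, c, y, y, C.labα]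
  obtain ⟨h1, h2⟩ := P.Poly1_exp (h := h) (k := C.f⁻¹ h) (t := P.T (C.α h))
    (by simpa only [e0] using P.perp (C.f⁻¹ h)) (by rw [P.sinh_T, e1, e2])
  have h3 := P.ori (C.f⁻¹ h)
  rw [e0] at h3
  have h4 : det3 o0 (P.ν (C.f⁻¹ h)) (P.ν h) = P.c h * B (P.ν (C.f⁻¹ h)) (P.m h) := by
    rw [P.o0_eq h]
    simp only [det3, B, cr, m, V.add_a, V.add_b, V.add_c, V.smul_a, V.smul_b, V.smul_c]
    ring
  have h5 : 0 < B (P.ν (C.f⁻¹ h)) (P.m h) := by
    have := P.c_pos h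
    by_contra h5
    nlinarith [mul_nonneg this.le (neg_nonneg.2 (not_lt.1 h5))]
  have h6 : B (P.ν (C.f⁻¹ h)) (P.m h) = Real.cosh (P.T (C.α h)) := by
    have := Real.cosh_pos (P.T (C.α h))
    rcases sq_eq_sq_iff_eq_or_eq_neg.1 h2 with e | e
    · exact e
    · linarith
  rw [h6] at h1
  exact h1

lemma T_α_ς (h : H) : P.T (C.α (C.ς h)) = P.T h := by
  rw [T, T, y, y, y, y, C.labα, C.lab_ς, C.lab_f_α, C.f_inv_ς, C.labα]

lemma B_le_zero {h k : H} (e : k ≠ h) : B (P.ν h) (P.ν k) ≤ 0 := by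
  by_cases e1 : k = C.f h
  · rw [e1, P.perp]
  by_cases e2 : h = C.f k
  · rw [e2, B_comm, P.perp]
  linarith [P.far h k e e1 e2]

lemma ν_inj {h k : H} (e : P.ν h = P.ν k ∨ P.ν h = -P.ν k) : h = k := by
  by_contra hne
  rcases e with e | e
  · have h1 := P.B_le_zero hne
    rw [e, P.unit] at h1
    linarith
  · have h1 := P.cen h
    rw [e, B_neg_left, P.cen] at h1
    linarith [P.pos (C.lab h), P.pos (C.lab k)]

lemma adj_of_lt {h k : H} (e : |B (P.ν h) (P.ν k)| < 1) : k = C.f h ∨ h = C.f k := by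
  by_contra hne
  rw [not_or] at hne
  by_cases e1 : k = h
  · rw [e1, P.unit, abs_one] at e
    exact lt_irrefl _ e
  · linarith [P.far h k e1 hne.1 hne.2, (abs_lt.1 e).1]

lemma le_B_φ {h k : H} (e : k ≠ h) : P.y k / P.c h ≤ B (P.ν k) (P.φ h) := by
  rw [P.Poly1_B]
  refine div_le_div_of_nonneg_right ?_ (P.c_pos h).le
  linarith [mul_nonneg (P.y_pos h).le (neg_nonneg.2 (P.B_le_zero e.symm))]

lemma Q_φ (h : H) : P.Q (P.φ h) := by
  refine ⟨P.φ_fut h, fun k => ?_⟩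
  by_cases e : k = h
  · rw [e, P.ν_φ]
  · exact (div_pos (P.y_pos k) (P.c_pos h)).le.trans (P.le_B_φ e)

lemma Q_o0 : P.Q o0 := ⟨o0_fut, fun h => by rw [P.cen]; exact (P.pos _).le⟩

end Poly

end

end Pool.Agent.P.MP_d39174_gt

end

section
/-! The side pairings. -/

namespace Pool.Agent.P.MP_d39174_gt

open UpperHalfPlane MatrixGroups

noncomputable section

open Equiv

namespace Poly

variable {Vx H : Type} {G : SimpleGraph Vx} {C : Cmb G H} (P : Poly C)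

private lemma Poly2_r (σ : Perm H) (h : H) : σ (σ⁻¹ h) = h := σ.apply_symm_apply h

private lemma Poly2_l (σ : Perm H) (h : H) : σ⁻¹ (σ h) = h := σ.symm_apply_apply h

private lemma Poly2_t (h : H) :
    P.t h • P.φ (C.α h) = P.φ h ∧ P.t h • P.m (C.α h) = -P.m h := by
  have e : ∃ g : SL(2, ℝ), g • P.φ (C.α h) = P.φ h ∧ g • P.m (C.α h) = -P.m h :=
    exists_frame (P.φ_fut _) (P.φ_unit _) (P.m_unit _) (P.m_φ _) (P.φ_fut h) (P.φ_unit h)
      (by rw [B_neg_left, B_neg_right, neg_neg, P.m_unit]) (by rw [B_neg_left, P.m_φ, neg_zero])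
  unfold t
  rw [dif_pos e]
  exact e.choose_spec

private lemma Poly2_y (h : H) : P.y (C.α h) = P.y h := by
  unfold y
  rw [C.labα]

private lemma Poly2_c (h : H) : P.c (C.α h) = P.c h := by
  unfold c
  rw [Poly2_y]

lemma τ_φ (h : H) : P.τ h • P.φ (C.α h) = P.φ h := (Poly2_t P h).1

lemma τ_m (h : H) : P.τ h • P.m (C.α h) = -P.m h := (Poly2_t P h).2

lemma τ_ν (h : H) : P.τ h • P.ν (C.α h) = -P.ν h := by
  rw [P.ν_eq (C.α h), PS.smul_cr, P.τ_φ, P.τ_m, cr_neg_right, ← P.ν_eq]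

lemma τ_o0 (h : H) : P.τ h • o0 = o0 - (2 * P.y h) • P.ν h := by
  have h1 := congrArg (fun v => P.τ h • v) (P.o0_eq (C.α h))
  have h2 := P.o0_eq h
  simp only [PS.smul_add, PS.smul_real, P.τ_φ, P.τ_ν, Poly2_y, Poly2_c] at h1
  rw [h1]
  nth_rewrite 1 [h2]
  module

lemma τ_f (h : H) : P.τ h • P.ν (C.f (C.α h)) = P.ν (C.f⁻¹ h) := by
  rw [P.ν_f, P.ν_f_inv, PS.smul_sub, PS.smul_real, PS.smul_real, P.τ_φ, P.τ_m, smul_neg,
    sub_neg_eq_add]

lemma τ_f_inv (h : H) : P.τ h • P.ν (C.f⁻¹ (C.α h)) = P.ν (C.f h) := by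
  rw [P.ν_f, P.ν_f_inv, PS.smul_add, PS.smul_real, PS.smul_real, P.τ_φ, P.τ_m, C.α2, smul_neg,
    sub_eq_add_neg]

lemma τ_α (h : H) : P.τ (C.α h) = (P.τ h)⁻¹ := by
  refine PS.eq_of (n := P.φ h) (m := P.m h) ?_ ?_ ?_
  · rw [← P.ν_eq]
    intro e
    have h1 := P.unit h
    rw [e, B_zero_left] at h1
    exact zero_ne_one h1
  · have h1 := P.τ_φ (C.α h)
    rw [C.α2] at h1
    rw [h1, eq_inv_smul_iff, P.τ_φ]
  · have h1 := P.τ_m (C.α h)
    rw [C.α2] at h1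
    rw [h1, eq_inv_smul_iff, PS.smul_neg, P.τ_m, neg_neg]

/-- The relation at a vertex. -/
lemma τ_vertex (s : H) :
    P.τ (C.f s) * P.τ (C.ς s) = P.τ s * P.τ (C.f⁻¹ (C.α s)) := by
  have e1 : C.α (C.ς s) = C.f⁻¹ (C.α (C.f⁻¹ (C.α s))) := by
    rw [C.f_inv, C.f_inv, C.α2, C.ς_eq]
  have e2 : C.f (C.α (C.ς s)) = C.α (C.f⁻¹ (C.α s)) := by
    rw [e1, Poly2_r]
  refine PS.eq_of (n := P.ν (C.α (C.ς s))) (m := P.ν (C.f (C.α (C.ς s)))) ?_ ?_ ?_
  · intro e
    have h1 := B_cr_cr (P.ν (C.α (C.ς s))) (P.ν (C.f (C.α (C.ς s))))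
    rw [e, B_zero_left, P.perp, P.unit, P.unit] at h1
    norm_num at h1
  · have l : (P.τ (C.f s) * P.τ (C.ς s)) • P.ν (C.α (C.ς s)) = -P.ν s := by
      rw [mul_smul, P.τ_ν, PS.smul_neg, ← C.f_α_f, P.τ_f, Poly2_l]
    rw [l, mul_smul, e1, P.τ_f_inv, Poly2_r, P.τ_ν]
  · have l : (P.τ (C.f s) * P.τ (C.ς s)) • P.ν (C.f (C.α (C.ς s))) = -P.ν (C.f s) := by
      rw [mul_smul, P.τ_f, C.f_inv_ς, P.τ_ν]
    rw [l, mul_smul, e2, P.τ_ν, PS.smul_neg, P.τ_f_inv]

private lemma Poly2_four (u : H) : P.τ (C.α u) * P.τ (C.α (C.ρ u)) *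
    P.τ (C.α (C.ρ (C.ρ u))) * P.τ (C.α (C.ρ (C.ρ (C.ρ u)))) = 1 := by
  have h := P.τ_vertex (C.α u)
  rw [C.f_eq, C.ς_eq, C.f_inv, C.α2] at h
  rw [← h, P.τ_α, P.τ_α, mul_inv_cancel_right, mul_inv_cancel]

lemma τ_mem (h : H) : P.τ h ∈ P.Γb := Subgroup.subset_closure ⟨h, rfl⟩

lemma A_A (s : PS × H) : P.A (P.A s) = s := by
  refine Prod.ext ?_ (C.α2 s.2)
  change s.1 * P.τ s.2 * P.τ (C.α s.2) = s.1
  rw [P.τ_α, mul_inv_cancel_right]

lemma R_four (s : PS × H) : P.R (P.R (P.R (P.R s))) = s := by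
  refine Prod.ext ?_ (C.ρ4 s.2)
  change s.1 * P.τ (C.α (C.ρ s.2)) * P.τ (C.α (C.ρ (C.ρ s.2))) *
    P.τ (C.α (C.ρ (C.ρ (C.ρ s.2)))) * P.τ (C.α (C.ρ (C.ρ (C.ρ (C.ρ s.2))))) = s.1
  rw [mul_assoc s.1, mul_assoc s.1, mul_assoc s.1, Poly2_four, mul_one]

lemma stp_three (k : PS) (h : H) : stp P.A P.R (k, h) 3 = (k, C.f h) := by
  have e : stp P.A P.R (k, h) 3 = P.R (P.R (P.R (P.A (k, h)))) := rfl
  have h4 := Poly2_four P (C.α h)
  rw [C.α2] at h4
  rw [e]
  refine Prod.ext ?_ (C.f_eq h).symm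
  change k * P.τ h * P.τ (C.α (C.ρ (C.α h))) * P.τ (C.α (C.ρ (C.ρ (C.α h)))) *
    P.τ (C.α (C.ρ (C.ρ (C.ρ (C.α h))))) = k
  rw [mul_assoc k, mul_assoc k, mul_assoc k, h4, mul_one]

lemma stp_two (k : PS) (h : H) : stp P.A P.R (k, h) 2 = (k * P.τ (C.f h), C.ς h) := by
  have e : stp P.A P.R (k, h) 2 = P.R (P.R (P.A (k, h))) := rfl
  have h4 := Poly2_four P (C.α h)
  rw [C.α2, ← C.f_eq, P.τ_α (C.f h), mul_inv_eq_one] at h4
  rw [e]
  refine Prod.ext ?_ (C.ς_eq h).symm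
  change k * P.τ h * P.τ (C.α (C.ρ (C.α h))) * P.τ (C.α (C.ρ (C.ρ (C.α h)))) = k * P.τ (C.f h)
  rw [mul_assoc k, mul_assoc k, h4]

/-- The polygon is bounded. -/
lemma Q_bdd [Finite Vx] : ∃ r : ℝ, ∀ z : ℍ, P.Q (Hy z) → dist z I ≤ r := by
  obtain ⟨Y, hY⟩ := (Set.finite_range P.x).bddAbove
  refine ⟨1 + 2 * Y ^ 2, fun z hz => ?_⟩
  obtain ⟨h, κ, s, s', hs, hs', e⟩ := P.sect (Hy z)
  have y1 := P.pos (C.lab h)
  have y2 := P.pos (C.lab (C.f h))
  have y3 : P.x (C.lab h) ≤ Y := hY ⟨_, rfl⟩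
  have y4 : P.x (C.lab (C.f h)) ≤ Y := hY ⟨_, rfl⟩
  have a1 : B (P.ν h) (Hy z) = κ * P.x (C.lab h) - s := by
    rw [e, B_sub_right, B_sub_right, B_smul_right, B_smul_right, B_smul_right, P.cen, P.unit,
      P.perp]
    ring
  have a2 : B (P.ν (C.f h)) (Hy z) = κ * P.x (C.lab (C.f h)) - s' := by
    rw [e, B_sub_right, B_sub_right, B_smul_right, B_smul_right, B_smul_right, P.cen, P.unit,
      B_comm (P.ν (C.f h)) (P.ν h), P.perp]
    ring
  have a3 : B o0 (Hy z) = -κ - s * P.x (C.lab h) - s' * P.x (C.lab (C.f h)) := by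
    rw [e, B_sub_right, B_sub_right, B_smul_right, B_smul_right, B_smul_right, o0_unit,
      B_comm o0, B_comm o0, P.cen, P.cen]
    ring
  have a4 : B (Hy z) (Hy z) =
      κ * B o0 (Hy z) - s * B (P.ν h) (Hy z) - s' * B (P.ν (C.f h)) (Hy z) := by
    nth_rewrite 1 [e]
    rw [B_sub_left, B_sub_left, B_smul_left, B_smul_left, B_smul_left]
  have b1 := hz.2 h
  have b2 := hz.2 (C.f h)
  have c1 := mul_nonneg hs b1
  have c2 := mul_nonneg hs' b2
  rw [Hy_unit, a3] at a4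
  rw [a1] at b1
  rw [a2] at b2
  have k0 : 0 ≤ κ := nonneg_of_mul_nonneg_left (by linarith) y1
  have c3 := mul_nonneg k0 (mul_nonneg hs y1.le)
  have c4 := mul_nonneg k0 (mul_nonneg hs' y2.le)
  have k1 : κ ≤ 1 := by nlinarith
  have s1 : s ≤ Y := by nlinarith
  have s2 : s' ≤ Y := by nlinarith
  have d1 := cosh_dist_eq z I
  rw [Hy_I, B_comm, a3] at d1
  have d2 : dist z I ≤ Real.sinh (dist z I) := Real.self_le_sinh_iff.2 dist_nonneg
  have d3 := Real.sinh_lt_cosh (dist z I)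
  have m1 : s * P.x (C.lab h) ≤ Y * Y := mul_le_mul s1 y3 y1.le (by linarith)
  have m2 : s' * P.x (C.lab (C.f h)) ≤ Y * Y := mul_le_mul s2 y4 y2.le (by linarith)
  nlinarith

/-- A point of the polygon near a wall is near the foot. -/
lemma dist_φ {κ : ℝ} (r : P.Rat κ) {z : ℍ} (hz : P.Q (Hy z)) (h : H) {D : ℝ}
    (e : |B (P.ν h) (Hy z)| ≤ Real.sinh D) : dist z (pt (P.φ h)) ≤ D + κ := by
  obtain ⟨w, w1, w2, w3⟩ := exists_foot (P.unit h) z
  have d1 : dist z w ≤ D := by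
    rw [w2, ← Real.arsinh_sinh D]
    exact Real.arsinh_le_arsinh.2 e
  have key : ∀ j, B (P.ν j) (P.ν h) = 0 → 0 ≤ B (P.ν j) (Hy w) := by
    intro j hj
    rw [w3, B_smul_right, B_sub_right, B_smul_right, hj, mul_zero, sub_zero]
    exact mul_nonneg (by positivity) (hz.2 j)
  have k1 := key (C.f h) (by rw [B_comm, P.perp])
  have k2 := key (C.f⁻¹ h) (by
    have h1 := P.perp (C.f⁻¹ h)
    rwa [Poly2_r] at h1)
  obtain ⟨s, hs⟩ := wall_param (P.unit h) (P.φ_fut h) (P.φ_unit h) (Hy_fut w) (Hy_unit w)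
    (P.ν_φ h) w1
  have d2 : dist (pt (P.φ h)) w = |s| :=
    VH2_dist (n := P.ν h) (by rw [Hy_pt_unit (P.φ_fut h) (P.φ_unit h)]; exact hs)
  have hs' : Hy w = Real.cosh s • P.φ h + Real.sinh s • P.m h := hs
  have p1 : B (P.φ h) (Hy w) = -Real.cosh s := by
    rw [hs', B_add_right, B_smul_right, B_smul_right, P.φ_unit, B_comm, P.m_φ]
    ring
  have p2 : B (P.m h) (Hy w) = Real.sinh s := by
    rw [hs', B_add_right, B_smul_right, B_smul_right, P.m_φ, P.m_unit]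
    ring
  rw [P.ν_f, B_sub_left, B_smul_left, B_smul_left, p1, p2] at k1
  rw [P.ν_f_inv, B_add_left, B_smul_left, B_smul_left, p1, p2] at k2
  have t1 : 0 ≤ P.T h - s := by
    rw [← Real.sinh_nonneg_iff, Real.sinh_sub]
    linarith
  have t2 : 0 ≤ P.T (C.α h) + s := by
    rw [← Real.sinh_nonneg_iff, Real.sinh_add]
    linarith
  have t3 : |s| ≤ κ := abs_le.2 ⟨by linarith [P.T_le r (C.α h)], by linarith [P.T_le r h]⟩
  have d3 := dist_triangle z w (pt (P.φ h))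
  rw [dist_comm w, d2] at d3
  linarith

end Poly

end

end Pool.Agent.P.MP_d39174_gt

end

section
/-! The polygon theorem by induction on the word length. -/

namespace Pool.Agent.P.MP_d39174_gt

open UpperHalfPlane MatrixGroups

noncomputable section

open Equiv

/-- Word length with respect to a family of generators. -/
def Tits_len {G' H : Type} [Group G'] (u : H → G') (g : G') : ℕ :=
  sInf {n | ∃ l : List H, l.length = n ∧ (l.map u).prod = g}

lemma Tits_le {G' H : Type} [Group G'] (u : H → G') (l : List H) :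
    Tits_len u (l.map u).prod ≤ l.length :=
  Nat.sInf_le ⟨l, rfl, rfl⟩

lemma Tits_spec {G' H : Type} [Group G'] {u : H → G'} {g : G'}
    (h : ∃ l : List H, (l.map u).prod = g) :
    ∃ l : List H, l.length = Tits_len u g ∧ (l.map u).prod = g := by
  obtain ⟨l, hl⟩ := h
  exact Nat.sInf_mem (s := {n | ∃ l : List H, l.length = n ∧ (l.map u).prod = g})
    ⟨l.length, l, rfl, hl⟩

lemma Tits_mul {G' H : Type} [Group G'] {u : H → G'} {g : G'}
    (h : ∃ l : List H, (l.map u).prod = g) (k : H) :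
    ∃ l : List H, (l.map u).prod = g * u k := by
  obtain ⟨l, hl⟩ := h
  exact ⟨l ++ [k], by simp [hl]⟩

lemma Tits_step {G' H : Type} [Group G'] {u : H → G'} {g : G'}
    (h : ∃ l : List H, (l.map u).prod = g) (k : H) :
    Tits_len u (g * u k) ≤ Tits_len u g + 1 := by
  obtain ⟨l, h1, h2⟩ := Tits_spec h
  have := Tits_le u (l ++ [k])
  simpa [h1, h2] using this

lemma Tits_last {G' H : Type} [Group G'] {u : H → G'} {g : G'}
    (h : ∃ l : List H, (l.map u).prod = g) :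
    g = 1 ∨ ∃ g' k, (∃ l : List H, (l.map u).prod = g') ∧ g = g' * u k ∧
      Tits_len u g' + 1 = Tits_len u g := by
  obtain ⟨l, h1, h2⟩ := Tits_spec h
  rcases List.eq_nil_or_concat l with rfl | ⟨l', k, rfl⟩
  · left
    simpa using h2.symm
  · right
    have e : g = (l'.map u).prod * u k := by simpa using h2.symm
    refine ⟨(l'.map u).prod, k, ⟨l', rfl⟩, e, le_antisymm ?_ ?_⟩
    · have := Tits_le u l'
      have h3 : l'.length + 1 = Tits_len u g := by simpa using h1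
      omega
    · rw [e]
      exact Tits_step ⟨l', rfl⟩ k

lemma Tits_list {G' H : Type} [Group G'] {u : H → G'} {α : H → H}
    (r1 : ∀ h, u (α h) = (u h)⁻¹) {g : G'} (hg : g ∈ Subgroup.closure (Set.range u)) :
    ∃ l : List H, (l.map u).prod = g := by
  induction hg using Subgroup.closure_induction with
  | mem x hx =>
    obtain ⟨h, rfl⟩ := hx
    exact ⟨[h], by simp⟩
  | one => exact ⟨[], by simp⟩
  | mul x y _ _ hx hy =>
    obtain ⟨l, rfl⟩ := hx
    obtain ⟨l', rfl⟩ := hy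
    exact ⟨l ++ l', by simp⟩
  | inv x h0 hx =>
    obtain ⟨l, rfl⟩ := hx
    clear h0
    induction l with
    | nil => exact ⟨[], by simp⟩
    | cons a l ih =>
      obtain ⟨l', hl'⟩ := ih
      exact ⟨l' ++ [α a], by simp [hl', r1]⟩

namespace Poly

variable {Vx H : Type} {G : SimpleGraph Vx} {C : Cmb G H} (P : Poly C)

/-- The wall `k • ν h` has the polygon on its positive side. -/
def Side (k : PS) (h : H) : Prop :=
  (∃ h', k • P.ν h = P.ν h' ∧ C.lab h' = C.lab h) ∨ ∀ p, P.Q p → 0 < B (k • P.ν h) p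

lemma Tits_nonneg {k : PS} {h : H} (s : P.Side k h) {p : V} (hp : P.Q p) :
    0 ≤ B (k • P.ν h) p := by
  rcases s with ⟨h', e, -⟩ | s
  · rw [e]
    exact hp.2 h'
  · exact (s p hp).le

lemma Tits_pos {k : PS} {h : H} (s : P.Side k h) : 0 < B (k • P.ν h) o0 := by
  rcases s with ⟨h', e, -⟩ | s
  · rw [e, P.cen]
    exact P.pos _
  · exact s _ P.Q_o0

lemma Tits_congr {k k' : PS} {h h' : H} (s : P.Side k h) (e : k' • P.ν h' = k • P.ν h)
    (e' : C.lab h = C.lab h') : P.Side k' h' := by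
  rcases s with ⟨j, e1, e2⟩ | s
  · exact Or.inl ⟨j, e.trans e1, e2.trans e'⟩
  · right
    rw [e]
    exact s

lemma Tits_flip (k : PS) (h : H) : (k * P.τ h) • P.ν (C.α h) = -(k • P.ν h) := by
  rw [mul_smul, P.τ_ν, PS.smul_neg]

lemma Tits_key {G' : Type} [Group G'] (π : G' →* PS) (u : H → G') (hu : ∀ h, π (u h) = P.τ h)
    (r1 : ∀ h, u (C.α h) = (u h)⁻¹)
    (r2 : ∀ s, u (C.f s) * u (C.ς s) = u s * u (C.f⁻¹ (C.α s))) (n : ℕ) :
    ∀ g : G', (∃ l : List H, (l.map u).prod = g) → Tits_len u g = n →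
      ∀ h, Tits_len u g ≤ Tits_len u (g * u h) → P.Side (π g) h := by
  induction n using Nat.strong_induction_on with
  | _ n ih =>
  intro g hg hn h hh
  rcases Tits_last hg with rfl | ⟨g', k, hg', e, hd⟩
  · exact Or.inl ⟨h, by rw [map_one, one_smul], rfl⟩
  have IH := ih (Tits_len u g') (by omega) g' hg' rfl
  have eπ : π g = π g' * P.τ k := by rw [e, map_mul, hu]
  have sk : P.Side (π g') k := IH k (by rw [← e]; omega)
  have red : ∀ j j', u k * u h = u j * u j' → P.Side (π g') j := by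
    intro j j' ej
    refine IH j ?_
    by_contra hlt
    have h1 := Tits_step (Tits_mul hg' j) j'
    have h2 : g * u h = g' * u j * u j' := by rw [e, mul_assoc, ej, mul_assoc]
    rw [h2] at hh
    omega
  by_cases c1 : C.α k = h
  · exfalso
    have h2 : g * u h = g' := by rw [e, ← c1, r1, mul_inv_cancel_right]
    rw [h2] at hh
    omega
  by_cases c2 : h = C.f (C.α k)
  · have h3 := r2 (C.f⁻¹ k)
    have h5 : C.f (C.f⁻¹ k) = k := by simp
    have h4 : C.ς (C.f⁻¹ k) = h := by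
      rw [← C.f_α_f, h5, c2]
    rw [h5, h4] at h3
    refine P.Tits_congr (red _ _ h3) ?_ ?_
    · rw [eπ, mul_smul, c2, P.τ_f]
    · rw [c2, C.lab_f_α]
  by_cases c3 : C.α k = C.f h
  · have h4 : C.f⁻¹ (C.α k) = h := by rw [c3]; simp
    have h3 := (r2 k).symm
    rw [h4] at h3
    refine P.Tits_congr (red _ _ h3) ?_ ?_
    · rw [eπ, mul_smul, ← h4, P.τ_f_inv]
    · rw [← h4, C.lab_f_inv_α]
  right
  intro p hp
  refine pos_of_far (m := π g • P.ν (C.α k)) (p := π g • o0) ?_ ?_ ?_ (PS.fut _ o0_fut) ?_ ?_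
    hp.1 ?_
  · rw [PS.B_smul, P.unit]
  · rw [PS.B_smul, P.unit]
  · rw [PS.B_smul]
    exact P.far _ _ c1 c3 c2
  · rw [PS.B_smul]
    exact P.Q_o0.2 _
  · rw [PS.B_smul]
    exact P.Q_o0.2 _
  · rw [eπ, P.Tits_flip, B_neg_left]
    exact neg_nonpos.2 (P.Tits_nonneg sk hp)

/-- The polygon theorem for a group `G'` over `PSL(2, ℝ)` in which the relations hold. -/
theorem tits {G' : Type} [Group G'] (π : G' →* PS) (u : H → G') (hu : ∀ h, π (u h) = P.τ h)
    (r1 : ∀ h, u (C.α h) = (u h)⁻¹)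
    (r2 : ∀ s, u (C.f s) * u (C.ς s) = u s * u (C.f⁻¹ (C.α s))) {g : G'}
    (hg : g ∈ Subgroup.closure (Set.range u)) :
    (∀ h, P.Side (π g) h ∨ P.Side (π g * P.τ h) (C.α h)) ∧
      (g = 1 ∨ ∃ h, P.Side (π g * P.τ h) (C.α h)) := by
  have hl := Tits_list r1 hg
  have other : ∀ h, Tits_len u (g * u h) ≤ Tits_len u g → P.Side (π g * P.τ h) (C.α h) := by
    intro h hh
    have := P.Tits_key π u hu r1 r2 _ (g * u h) (Tits_mul hl h) rfl (C.α h)
      (by rw [r1, mul_inv_cancel_right]; exact hh)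
    rwa [map_mul, hu] at this
  refine ⟨fun h => ?_, ?_⟩
  · rcases le_total (Tits_len u g) (Tits_len u (g * u h)) with hh | hh
    · exact Or.inl (P.Tits_key π u hu r1 r2 _ g hl rfl h hh)
    · exact Or.inr (other h hh)
  · rcases Tits_last hl with e | ⟨g', k, -, e, hd⟩
    · exact Or.inl e
    · refine Or.inr ⟨C.α k, other _ ?_⟩
      have h2 : g * u (C.α k) = g' := by rw [e, r1, mul_inv_cancel_right]
      rw [h2]
      omega

lemma Tits_PS {k : PS} (hk : k ∈ P.Γb) :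
    (∀ h, P.Side k h ∨ P.Side (k * P.τ h) (C.α h)) ∧
      (k = 1 ∨ ∃ h, P.Side (k * P.τ h) (C.α h)) :=
  P.tits (MonoidHom.id PS) P.τ (fun _ => rfl) P.τ_α P.τ_vertex hk

/-- Every wall is a side of the polygon or misses it. -/
theorem wall {k : PS} (hk : k ∈ P.Γb) (h : H) :
    (∃ h', (k • P.ν h = P.ν h' ∨ k • P.ν h = -P.ν h') ∧ C.lab h' = C.lab h) ∨
      (∀ p, P.Q p → 0 < B (k • P.ν h) p) ∨ ∀ p, P.Q p → B (k • P.ν h) p < 0 := by
  rcases (P.Tits_PS hk).1 h with (⟨j, e1, e2⟩ | s) | (⟨j, e1, e2⟩ | s)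
  · exact Or.inl ⟨j, Or.inl e1, e2⟩
  · exact Or.inr (Or.inl s)
  · rw [P.Tits_flip] at e1
    exact Or.inl ⟨j, Or.inr (neg_eq_iff_eq_neg.1 e1), e2.trans (C.labα h)⟩
  · refine Or.inr (Or.inr fun p hp => ?_)
    have := s p hp
    rw [P.Tits_flip, B_neg_left] at this
    linarith

/-- A different tile is separated from the polygon by one of its walls. -/
theorem sepa {k : PS} (hk : k ∈ P.Γb) (h1 : k ≠ 1) :
    ∃ h, B (k • P.ν h) o0 < 0 ∧ ∀ p, P.Q p → B (k • P.ν h) p ≤ 0 := by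
  obtain ⟨h, s⟩ := (P.Tits_PS hk).2.resolve_left h1
  refine ⟨h, ?_, fun p hp => ?_⟩
  · have := P.Tits_pos s
    rw [P.Tits_flip, B_neg_left] at this
    linarith
  · have := P.Tits_nonneg s hp
    rw [P.Tits_flip, B_neg_left] at this
    linarith

/-- Additive characters of the side pairings extend to the group. -/
theorem exists_hom {a : H → ℝ} (ha : a ∈ C.Z) :
    ∃ χ : Additive P.Γ →+ ℝ, ∀ h (e : P.t h ∈ P.Γ), χ (Additive.ofMul ⟨P.t h, e⟩) = a h := by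
  obtain ⟨ha1, ha2⟩ : (∀ h, a (C.α h) = -a h) ∧
    ∀ h, a h + a (C.ρ h) + a (C.ρ (C.ρ h)) + a (C.ρ (C.ρ (C.ρ h))) = 0 := ha
  let u : H → PS × Multiplicative ℝ := fun h => (P.τ h, Multiplicative.ofAdd (a h))
  let K : Subgroup (PS × Multiplicative ℝ) := Subgroup.closure (Set.range u)
  have r1 : ∀ h, u (C.α h) = (u h)⁻¹ := by
    intro h
    refine Prod.ext (P.τ_α h) ?_
    change Multiplicative.ofAdd (a (C.α h)) = (Multiplicative.ofAdd (a h))⁻¹
    rw [ha1, ofAdd_neg]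
  have r2 : ∀ s, u (C.f s) * u (C.ς s) = u s * u (C.f⁻¹ (C.α s)) := by
    intro s
    refine Prod.ext (P.τ_vertex s) ?_
    change Multiplicative.ofAdd (a (C.f s)) * Multiplicative.ofAdd (a (C.ς s)) =
      Multiplicative.ofAdd (a s) * Multiplicative.ofAdd (a (C.f⁻¹ (C.α s)))
    rw [← ofAdd_add, ← ofAdd_add, C.f_inv, ha1, C.f_eq, C.ς_eq]
    have h1 := ha2 (C.α s)
    rw [ha1] at h1
    exact congrArg _ (by linarith)
  have inj : ∀ g ∈ K, g.1 = 1 → g = 1 := by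
    intro g hg h1
    rcases (P.tits (MonoidHom.fst _ _) u (fun _ => rfl) r1 r2 hg).2 with e | ⟨h, s⟩
    · exact e
    · exfalso
      have h2 := P.Tits_pos s
      rw [P.Tits_flip, B_neg_left, MonoidHom.coe_fst, h1, one_smul] at h2
      have h3 := P.Q_o0.2 h
      linarith
  have uniq : ∀ (k : PS) (r r' : ℝ), (k, Multiplicative.ofAdd r) ∈ K →
      (k, Multiplicative.ofAdd r') ∈ K → r = r' := by
    intro k r r' h1 h2
    have h3 := inj _ (K.mul_mem (K.inv_mem h1) h2) (inv_mul_cancel k)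
    have h4 := congrArg Prod.snd (inv_mul_eq_one.1 h3)
    exact Multiplicative.ofAdd.injective h4
  have ex : ∀ k ∈ P.Γb, ∃ r : ℝ, (k, Multiplicative.ofAdd r) ∈ K := by
    intro k hk
    induction hk using Subgroup.closure_induction with
    | mem x hx =>
      obtain ⟨h, rfl⟩ := hx
      exact ⟨a h, Subgroup.subset_closure ⟨h, rfl⟩⟩
    | one => exact ⟨0, K.one_mem⟩
    | mul x y _ _ hx hy =>
      obtain ⟨r, hr⟩ := hx
      obtain ⟨r', hr'⟩ := hy
      exact ⟨r + r', K.mul_mem hr hr'⟩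
    | inv x _ hx =>
      obtain ⟨r, hr⟩ := hx
      exact ⟨-r, K.inv_mem hr⟩
  choose χ hχ using ex
  refine ⟨AddMonoidHom.mk' (fun x => χ (ad (Additive.toMul x).1) (Additive.toMul x).2) ?_, ?_⟩
  · intro x y
    refine uniq _ _ _ (hχ _ _) ?_
    have := K.mul_mem (hχ _ (Additive.toMul x).2) (hχ _ (Additive.toMul y).2)
    rw [toMul_add, Subgroup.coe_mul, map_mul]
    exact this
  · intro h e
    exact uniq _ _ _ (hχ _ e) (Subgroup.subset_closure ⟨h, rfl⟩)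

lemma Tits_t_mem (h : H) : P.t h ∈ P.Γ := P.τ_mem h

lemma Tits_hom_congr (χ : Additive P.Γ →+ ℝ) {γ γ' : P.Γ} (e : ad γ.1 = ad γ'.1) :
    χ (Additive.ofMul γ) = χ (Additive.ofMul γ') := by
  rcases (ad_eq_iff _ _).1 e with e1 | e1
  · rw [Subtype.ext e1]
  · have h1 : (γ⁻¹ * γ') * (γ⁻¹ * γ') = 1 := by
      apply Subtype.ext
      simp [e1]
    have h2 := congrArg (fun x => χ (Additive.ofMul x)) h1
    simp only [ofMul_mul, ofMul_inv, map_add, map_neg, ofMul_one, map_zero] at h2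
    linarith

theorem finrank_hom [Fintype H] :
    Module.finrank ℝ (Additive P.Γ →+ ℝ) = Module.finrank ℝ C.Z := by
  let Φ : (Additive P.Γ →+ ℝ) →ₗ[ℝ] (H → ℝ) :=
    { toFun := fun χ h => χ (Additive.ofMul ⟨P.t h, P.Tits_t_mem h⟩)
      map_add' := fun _ _ => rfl
      map_smul' := fun _ _ => rfl }
  have hΦ : ∀ χ h, Φ χ h = χ (Additive.ofMul ⟨P.t h, P.Tits_t_mem h⟩) := fun _ _ => rfl
  have inj : Function.Injective Φ := by
    rw [injective_iff_map_eq_zero]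
    intro χ h0
    have key : ∀ k ∈ P.Γb, ∀ γ : P.Γ, ad γ.1 = k → χ (Additive.ofMul γ) = 0 := by
      intro k hk
      induction hk using Subgroup.closure_induction with
      | mem x hx =>
        obtain ⟨h, rfl⟩ := hx
        intro γ e
        rw [P.Tits_hom_congr χ (γ' := ⟨P.t h, P.Tits_t_mem h⟩) e, ← hΦ, h0]
        rfl
      | one =>
        intro γ e
        rw [P.Tits_hom_congr χ (γ' := 1) (e.trans (map_one ad).symm), ofMul_one, map_zero]
      | mul x y hx hy ihx ihy =>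
        intro γ e
        obtain ⟨g, rfl⟩ := ad_surj x
        obtain ⟨g', rfl⟩ := ad_surj y
        have hx' : g ∈ P.Γ := hx
        have hy' : g' ∈ P.Γ := hy
        have e1 : ad γ.1 = ad ((⟨g, hx'⟩ : P.Γ) * ⟨g', hy'⟩ : P.Γ).1 := by
          rw [e, Subgroup.coe_mul, map_mul]
        have e2 := ihx ⟨g, hx'⟩ rfl
        have e3 := ihy ⟨g', hy'⟩ rfl
        rw [P.Tits_hom_congr χ e1, ofMul_mul, map_add, e2, e3, add_zero]
      | inv x hx ihx =>
        intro γ e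
        have := ihx γ⁻¹ (by rw [Subgroup.coe_inv, map_inv, e, inv_inv])
        rw [ofMul_inv, map_neg] at this
        linarith
    ext x
    exact key _ x.2 x rfl
  have rng : LinearMap.range Φ = C.Z := by
    apply le_antisymm
    · rintro _ ⟨χ, rfl⟩
      have h1 : ∀ h, Φ χ (C.α h) = -Φ χ h := by
        intro h
        rw [hΦ, hΦ, ← map_neg, ← ofMul_inv]
        refine P.Tits_hom_congr χ ?_
        rw [Subgroup.coe_inv, map_inv]
        exact P.τ_α h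
      refine ⟨h1, fun h => ?_⟩
      have h2 : Φ χ (C.f (C.α h)) + Φ χ (C.ς (C.α h)) =
          Φ χ (C.α h) + Φ χ (C.f⁻¹ (C.α (C.α h))) := by
        rw [hΦ, hΦ, hΦ, hΦ, ← map_add χ, ← map_add χ, ← ofMul_mul, ← ofMul_mul]
        refine P.Tits_hom_congr χ ?_
        rw [Subgroup.coe_mul, Subgroup.coe_mul, map_mul, map_mul]
        exact P.τ_vertex (C.α h)
      rw [C.f_inv, h1, h1, C.f_eq, C.ς_eq, C.α2] at h2
      linarith
    · intro a ha
      obtain ⟨χ, hχ⟩ := P.exists_hom ha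
      exact ⟨χ, funext fun h => hχ h _⟩
  rw [← rng]
  exact (LinearEquiv.ofInjective Φ inj).finrank_eq

end Poly

end

end Pool.Agent.P.MP_d39174_gt

end

section
/-! The tiling covers the plane; labels of walls. -/

namespace Pool.Agent.P.MP_d39174_gt

open UpperHalfPlane MatrixGroups

noncomputable section

open Equiv

namespace Poly

variable {Vx H : Type} {G : SimpleGraph Vx} {C : Cmb G H} (P : Poly C)

lemma mem_Γ {g : SL(2, ℝ)} : g ∈ P.Γ ↔ ad g ∈ P.Γb := Iff.rfl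

lemma neg_one_mem : -1 ∈ P.Γ := by
  rw [mem_Γ, ← (ad_eq_iff 1 (-1)).2 (PM.neg 1), map_one]
  exact one_mem _

lemma S_unit {n : V} (hn : n ∈ P.S) : B n n = 1 := by
  obtain ⟨k, -, h, rfl⟩ := hn
  rw [PS.B_smul, P.unit]

lemma S_neg {n : V} (hn : n ∈ P.S) : -n ∈ P.S := by
  obtain ⟨k, hk, h, rfl⟩ := hn
  exact ⟨k * P.τ h, mul_mem hk (P.τ_mem h), C.α h, (P.Tits_flip k h).symm⟩

lemma S_smul {n : V} (hn : n ∈ P.S) {k : PS} (hk : k ∈ P.Γb) : k • n ∈ P.S := by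
  obtain ⟨k', hk', h, rfl⟩ := hn
  exact ⟨k * k', mul_mem hk hk', h, (mul_smul k k' _).symm⟩

private lemma Cover_sep [Finite Vx] :
    ∃ c : ℝ, 0 < c ∧ ∀ γ ∈ P.Γ, ¬ PM 1 γ → c ≤ dist I (γ • I) := by
  obtain ⟨h0, -⟩ := P.sect o0
  have : Nonempty Vx := ⟨C.lab h0⟩
  obtain ⟨v0, hv0⟩ := Finite.exists_min P.x
  refine ⟨Real.arsinh (P.x v0), Real.arsinh_pos_iff.2 (P.pos v0), fun γ hγ h1 => ?_⟩
  have h2 : ad γ ≠ 1 := fun e => h1 ((ad_eq_iff 1 γ).1 (by rw [map_one, e]))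
  obtain ⟨h, h3, -⟩ := P.sepa (P.mem_Γ.1 hγ) h2
  have hu : B (ad γ • P.ν h) (ad γ • P.ν h) = 1 := by rw [PS.B_smul, P.unit]
  have h4 := lip hu (γ • I) I
  rw [Hy_smul, Hy_I, ← ad_smul γ o0, PS.B_smul, P.cen, dist_comm] at h4
  have h5 := Real.arsinh_le_arsinh.2 (hv0 (C.lab h))
  have h6 := Real.arsinh_neg_iff.2 h3
  linarith [le_abs_self (Real.arsinh (P.x (C.lab h)) - Real.arsinh (B (ad γ • P.ν h) o0))]

theorem fin [Finite Vx] (z : ℍ) (r : ℝ) :
    {γ : SL(2, ℝ) | γ ∈ P.Γ ∧ dist z (γ • z) ≤ r}.Finite := by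
  obtain ⟨c, hc, hs⟩ := P.Cover_sep
  have key : ∀ g ∈ P.Γ, ∀ γ ∈ P.Γ, PM g γ ∨ c ≤ dist (g • I) (γ • I) := fun g hg γ hγ => by
    by_cases e : PM g γ
    · exact Or.inl e
    · refine Or.inr ?_
      have := hs _ (mul_mem (inv_mem hg) hγ) (by rwa [← pm_iff_inv_mul])
      rwa [← dist_smul g, mul_smul, smul_inv_smul] at this
  obtain ⟨M, hM⟩ := pack (r + 2 * dist z I) c hc
  refine Set.Finite.of_finite_fibers (fun γ : SL(2, ℝ) => γ • I) (hM I _ ?_ ?_).1 ?_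
  · rintro _ ⟨γ, hγ, rfl⟩
    have h1 := dist_triangle4 I z (γ • z) (γ • I)
    rw [dist_smul, dist_comm I z] at h1
    linarith [hγ.2]
  · rintro _ ⟨g, hg, rfl⟩ _ ⟨γ, hγ, rfl⟩ hne
    exact (key g hg.1 γ hγ.1).resolve_left fun e => hne (e.act I)
  · rintro _ ⟨g, hg, rfl⟩
    refine (Set.toFinite {g, -g}).subset ?_
    rintro γ ⟨hγ, e⟩
    rcases key g hg.1 γ hγ.1 with h1 | h1
    · exact h1
    · have e' : γ • I = g • I := e
      rw [e', dist_self] at h1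
      exact absurd h1 hc.not_ge

theorem cover [Finite Vx] (z : ℍ) : ∃ γ ∈ P.Γ, P.Q (Hy (γ • z)) := by
  have hfin : {γ : SL(2, ℝ) | γ ∈ P.Γ ∧ dist z (γ • I) ≤ dist z I}.Finite := by
    refine (P.fin I (2 * dist z I)).subset fun γ hγ => ⟨hγ.1, ?_⟩
    have h1 := dist_triangle I z (γ • I)
    rw [dist_comm I z] at h1
    linarith [hγ.2]
  obtain ⟨γ, hγ, hmin⟩ := Set.exists_min_image _ (fun γ : SL(2, ℝ) => dist z (γ • I)) hfin
    ⟨1, one_mem _, by rw [one_smul]⟩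
  refine ⟨γ⁻¹, inv_mem hγ.1, Hy_fut _, fun h => ?_⟩
  by_contra h1
  have h2 : P.t h • o0 = o0 - (2 * P.y h) • P.ν h := P.τ_o0 h
  have h3 : Real.cosh (dist z ((γ * P.t h) • I)) < Real.cosh (dist z (γ • I)) := by
    rw [cosh_dist_eq, cosh_dist_eq, Hy_smul, Hy_smul, Hy_I, mul_smul, B_ad_right, B_ad_right γ,
      ← Hy_smul, h2, B_sub_right, B_smul_right, B_comm _ (P.ν h)]
    nlinarith [P.y_pos h, not_le.1 h1]
  rw [Real.cosh_lt_cosh, abs_of_nonneg dist_nonneg, abs_of_nonneg dist_nonneg] at h3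
  exact h3.not_ge (hmin _ ⟨mul_mem hγ.1 (P.Tits_t_mem h), h3.le.trans hγ.2⟩)

theorem coc [Finite Vx] : ∃ r : ℝ, ∀ z : ℍ, ∃ γ ∈ P.Γ, dist (γ • z) I ≤ r := by
  obtain ⟨r, hr⟩ := P.Q_bdd
  refine ⟨r, fun z => ?_⟩
  obtain ⟨γ, hγ, h⟩ := P.cover z
  exact ⟨γ, hγ, hr _ h⟩

private lemma Cover_B (k k' : PS) (n p : V) : B (k • n) (k' • p) = B ((k'⁻¹ * k) • n) p := by
  rw [← PS.B_smul k' ((k'⁻¹ * k) • n), mul_smul, smul_inv_smul]

/-- A wall has every tile on one side. -/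
theorem sign {n : V} (hn : n ∈ P.S) {k : PS} (hk : k ∈ P.Γb) :
    (0 < B n (k • o0) ∧ ∀ p, P.Q p → 0 ≤ B n (k • p)) ∨
      (B n (k • o0) < 0 ∧ ∀ p, P.Q p → B n (k • p) ≤ 0) := by
  obtain ⟨k', hk', h, rfl⟩ := hn
  simp only [Cover_B k' k]
  rcases P.wall (mul_mem (inv_mem hk) hk') h with ⟨h', e | e, -⟩ | e | e
  · rw [e, P.cen]
    exact Or.inl ⟨P.pos _, fun p hp => hp.2 h'⟩
  · rw [e, B_neg_left, P.cen]
    refine Or.inr ⟨neg_neg_iff_pos.2 (P.pos _), fun p hp => ?_⟩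
    rw [B_neg_left]
    exact neg_nonpos.2 (hp.2 h')
  · exact Or.inl ⟨e _ P.Q_o0, fun p hp => (e p hp).le⟩
  · exact Or.inr ⟨e _ P.Q_o0, fun p hp => (e p hp).le⟩

/-- A wall through a point of a tile is a side of the tile. -/
theorem side_of_zero {k k' : PS} (hk : k ∈ P.Γb) (hk' : k' ∈ P.Γb) {h : H} {p : V} (hp : P.Q p)
    (e : B (k • P.ν h) (k' • p) = 0) :
    ∃ h', (k • P.ν h = k' • P.ν h' ∨ k • P.ν h = -(k' • P.ν h')) ∧ C.lab h' = C.lab h := by
  rw [Cover_B] at e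
  rcases P.wall (mul_mem (inv_mem hk') hk) h with ⟨h', e', hl⟩ | e' | e'
  · refine ⟨h', ?_, hl⟩
    rw [mul_smul, inv_smul_eq_iff, inv_smul_eq_iff, PS.smul_neg] at e'
    exact e'
  · exact absurd e (e' p hp).ne'
  · exact absurd e (e' p hp).ne

theorem lab_eq {k k' : PS} (hk : k ∈ P.Γb) (hk' : k' ∈ P.Γb) {h h' : H}
    (e : k • P.ν h = k' • P.ν h' ∨ k • P.ν h = -(k' • P.ν h')) : C.lab h = C.lab h' := by
  have h0 : B (k • P.ν h) (k' • P.φ h') = 0 := by
    rcases e with e | e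
    · rw [e, PS.B_smul, P.ν_φ]
    · rw [e, B_neg_left, PS.B_smul, P.ν_φ, neg_zero]
  obtain ⟨j, e', hl⟩ := P.side_of_zero hk hk' (P.Q_φ h') h0
  have h1 : k' • P.ν j = k' • P.ν h' ∨ k' • P.ν j = k' • (-P.ν h') := by
    rw [PS.smul_neg]
    rcases e with e | e <;> rcases e' with e' | e'
    · exact Or.inl (e'.symm.trans e)
    · exact Or.inr (neg_eq_iff_eq_neg.1 (e'.symm.trans e))
    · exact Or.inr (e'.symm.trans e)
    · exact Or.inl (neg_injective (e'.symm.trans e))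
  rw [smul_left_cancel_iff, smul_left_cancel_iff] at h1
  rw [← hl, P.ν_inj h1]

theorem adj_of_cross [Finite Vx] {k k' : PS} (hk : k ∈ P.Γb) (hk' : k' ∈ P.Γb) {h h' : H}
    (e : |B (k • P.ν h) (k' • P.ν h')| < 1) : G.Adj (C.lab h) (C.lab h') := by
  obtain ⟨z, h1, h2⟩ := exists_cross (by rw [PS.B_smul, P.unit]) (by rw [PS.B_smul, P.unit]) e
  obtain ⟨γ, hγ, hq⟩ := P.cover z
  have hz : Hy z = (ad γ)⁻¹ • Hy (γ • z) := by rw [Hy_smul, ← ad_smul, inv_smul_smul]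
  have hi := inv_mem (P.mem_Γ.1 hγ)
  rw [hz] at h1 h2
  obtain ⟨j, e1, l1⟩ := P.side_of_zero hk hi hq h1
  obtain ⟨j', e2, l2⟩ := P.side_of_zero hk' hi hq h2
  have h3 : |B (P.ν j) (P.ν j')| < 1 := by
    rcases e1 with e1 | e1 <;> rcases e2 with e2 | e2 <;> rw [e1, e2] at e <;>
      simpa only [B_neg_left, B_neg_right, PS.B_smul, abs_neg] using e
  rw [← l1, ← l2]
  rcases P.adj_of_lt h3 with e3 | e3
  · rw [e3]
    exact C.adj_f j
  · rw [e3]
    exact (C.adj_f j').symm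

private lemma Cover_ς (h : H) : Eqw P.Γ (P.ν h) (P.ν (C.ς h)) := by
  have h1 := P.τ_f (C.f h)
  rw [C.f_α_f, show C.f⁻¹ (C.f h) = h by simp] at h1
  exact Eqw.symm ⟨P.t (C.f h), P.Tits_t_mem _, Or.inl h1.symm⟩

private lemma Cover_pow (i : ℕ) (h : H) : Eqw P.Γ (P.ν h) (P.ν ((C.ς ^ i) h)) := by
  induction i with
  | zero => exact Eqw.refl _ _
  | succ i ih =>
    rw [pow_succ', Perm.mul_apply]
    exact ih.trans (P.Cover_ς _)

private lemma Cover_α (h : H) : Eqw P.Γ (P.ν h) (P.ν (C.α h)) := by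
  have h1 : P.t h • P.ν (C.α h) = -P.ν h := P.τ_ν h
  exact Eqw.symm ⟨P.t h, P.Tits_t_mem _, Or.inr (by rw [h1, neg_neg])⟩

theorem eqw_of_lab [Finite H] {h h' : H} (e : C.lab h = C.lab h') :
    Eqw P.Γ (P.ν h) (P.ν h') := by
  rcases C.same h h' e with e' | e'
  · obtain ⟨i, rfl⟩ := e'.exists_nat_pow_eq
    exact P.Cover_pow i h
  · obtain ⟨i, rfl⟩ := e'.exists_nat_pow_eq
    exact (P.Cover_α h).trans (P.Cover_pow i _)

private lemma Cover_eqw {k : PS} (hk : k ∈ P.Γb) (n : V) : Eqw P.Γ n (k • n) := by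
  obtain ⟨g, rfl⟩ := ad_surj k
  exact ⟨g, hk, Or.inl rfl⟩

/-- The walls realise the graph as soon as they are the systolic walls. -/
theorem rz [Finite Vx] [Finite H] {l : ℝ} (e : SS P.Γ l = P.S) : Rz G P.Γ l := by
  classical
  obtain ⟨h0, -⟩ := P.sect o0
  obtain ⟨L, hL⟩ : ∃ L : V → Vx, ∀ k ∈ P.Γb, ∀ h, L (k • P.ν h) = C.lab h := by
    refine ⟨fun n => if e : ∃ h, ∃ k ∈ P.Γb, n = k • P.ν h then C.lab e.choose else C.lab h0,
      fun k hk h => ?_⟩
    have e : ∃ h', ∃ k' ∈ P.Γb, k • P.ν h = k' • P.ν h' := ⟨h, k, hk, rfl⟩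
    obtain ⟨k', hk', e'⟩ := e.choose_spec
    simp only [dif_pos e]
    exact (P.lab_eq hk hk' (Or.inl e')).symm
  have hL1 : ∀ h, L (P.ν h) = C.lab h := fun h => by
    rw [← hL 1 (one_mem _) h, one_smul]
  have hS : ∀ h, P.ν h ∈ P.S := fun h => ⟨1, one_mem _, h, (one_smul _ _).symm⟩
  rw [Rz, e]
  refine ⟨L, ?_, fun v => ?_, fun v w => ⟨fun a => ?_, ?_⟩⟩
  · rintro _ ⟨k, hk, h, rfl⟩ _ ⟨k', hk', h', rfl⟩
    rw [hL k hk, hL k' hk']
    refine ⟨fun e' => ((P.Cover_eqw hk _).symm.trans (P.eqw_of_lab e')).trans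
      (P.Cover_eqw hk' _), ?_⟩
    rintro ⟨g, hg, e'⟩
    rw [← ad_smul, ← mul_smul] at e'
    exact (P.lab_eq hk' (mul_mem (P.mem_Γ.1 hg) hk) e').symm
  · obtain ⟨h, rfl⟩ := C.surj v
    exact ⟨_, hS h, hL1 h⟩
  · obtain ⟨h, rfl⟩ := C.surj v
    obtain ⟨k, hk, rfl⟩ := C.nb h w a
    obtain ⟨i, hi⟩ := hk.exists_nat_pow_eq
    have hl : C.lab k = C.lab h := by
      rw [← hi]
      clear hi
      induction i with
      | zero => rfl
      | succ i ih =>
        rw [pow_succ', Perm.mul_apply, ← ih]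
        exact C.lab_ς _
    refine ⟨_, hS k, _, hS (C.f⁻¹ k), by rw [hL1, hl], by rw [hL1, C.lab_f_inv], ?_⟩
    have h1 := P.perp (C.f⁻¹ k)
    rw [show C.f (C.f⁻¹ k) = k by simp, B_comm] at h1
    rw [h1, abs_zero]
    exact one_pos
  · rintro ⟨_, ⟨k, hk, h, rfl⟩, _, ⟨k', hk', h', rfl⟩, rfl, rfl, e'⟩
    rw [hL k hk, hL k' hk']
    exact P.adj_of_cross hk hk' e'

end Poly

end

end Pool.Agent.P.MP_d39174_gt

end

section
/-! Galleries: short displacements give short paths. -/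

namespace Pool.Agent.P.MP_d39174_gt

open UpperHalfPlane MatrixGroups

noncomputable section

open Equiv

lemma Gal_near {n : V} (hn : B n n = 1) {z : ℍ} {D : ℝ} (e : |B n (Hy z)| ≤ Real.sinh D) :
    ∃ w : ℍ, B n (Hy w) = 0 ∧ dist z w ≤ D := by
  obtain ⟨w, h1, h2, -⟩ := exists_foot hn z
  refine ⟨w, h1, ?_⟩
  rw [h2, ← Real.arsinh_sinh D]
  exact Real.arsinh_le_arsinh.2 e

section

variable {Vx H : Type} {G : SimpleGraph Vx} {C : Cmb G H} (P : Poly C)

lemma Gal_zero {n m p : V} (e : n = m ∨ n = -m) (h : B n p = 0) : B m p = 0 := by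
  rcases e with rfl | rfl
  · exact h
  · rwa [B_neg_left, neg_eq_zero] at h

lemma Gal_foot [Finite Vx] {κ D : ℝ} (r : P.Rat κ) {n : V} (hn : n ∈ P.S) {z : ℍ}
    (e : |B n (Hy z)| ≤ Real.sinh D) : ∃ p : ℍ, dist z p ≤ D + κ ∧ ∃ k ∈ P.Γb, ∃ h,
      (n = k • P.ν h ∨ n = -(k • P.ν h)) ∧ p = pt (k • P.φ h) := by
  obtain ⟨w, h1, h2⟩ := Gal_near (P.S_unit hn) e
  obtain ⟨γ, hγ, hQ⟩ := P.cover w
  obtain ⟨k0, hk0, h0, rfl⟩ := hn
  have hk := P.Γb.inv_mem (P.mem_Γ.1 hγ)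
  have e1 : (ad γ)⁻¹ • Hy (γ • w) = Hy w := by rw [Hy_smul, ← ad_smul, inv_smul_smul]
  obtain ⟨h, e2, -⟩ := P.side_of_zero hk0 hk hQ (e1 ▸ h1)
  refine ⟨_, ?_, _, hk, h, e2, rfl⟩
  have e3 := Gal_zero e2 h1
  rw [← e1, PS.B_smul] at e3
  have e4 := P.dist_φ r hQ h (D := 0) (by rw [e3, abs_zero, Real.sinh_zero])
  have e5 := PS.dist_pt (ad γ)⁻¹ (Hy_fut (γ • w)) (P.φ_fut h)
  rw [e1, pt_Hy, pt_Hy] at e5
  linarith [dist_triangle z w (pt ((ad γ)⁻¹ • P.φ h))]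

lemma Gal_pos {h k : H} (e : k ≠ h) : 0 < B (P.ν k) (P.φ h) :=
  (div_pos (P.y_pos k) (P.c_pos h)).trans_le (P.le_B_φ e)

lemma Gal_sep1 {κ : ℝ} (hκ : 1 ≤ κ) (r : P.Rat κ) {k k' : PS} (hk : k ∈ P.Γb) (hk' : k' ∈ P.Γb)
    {h h' : H} (d : dist (pt (k • P.φ h)) (pt (k' • P.φ h')) < Real.arsinh (1 / (2 * κ)))
    (e : 0 ≤ B (k' • P.ν h') (k • P.φ h)) :
    k • P.ν h = k' • P.ν h' ∨ k • P.ν h = -(k' • P.ν h') := by
  have f1 : Fut (k • P.φ h) := PS.fut k (P.φ_fut h)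
  have u1 : B (k • P.φ h) (k • P.φ h) = -1 := by rw [PS.B_smul, P.φ_unit]
  have u2 : B (k' • P.φ h') (k' • P.φ h') = -1 := by rw [PS.B_smul, P.φ_unit]
  have a1 : ∀ j, j ≠ h' → 0 < B (k' • P.ν j) (k • P.φ h) := fun j hj => by
    have b1 := lip (n := k' • P.ν j) (by rw [PS.B_smul, P.unit]) (pt (k • P.φ h)) (pt (k' • P.φ h'))
    rw [Hy_pt_unit f1 u1, Hy_pt_unit (PS.fut k' (P.φ_fut h')) u2, PS.B_smul] at b1
    have b2 : P.c h' ≤ 2 * P.y h' := by
      have := r.1 (C.lab h')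
      refine abs_le_of_sq_le_sq' ?_ (by linarith [P.y_pos h']) |>.2
      rw [P.c_sq]
      change 1 ≤ P.y h' at this
      nlinarith
    have b3 : 1 / (2 * κ) ≤ B (P.ν j) (P.φ h') := by
      refine le_trans ?_ (P.le_B_φ hj)
      have : P.y h' ≤ κ * P.y j := r.2 _ _
      rw [div_le_div_iff₀ (by positivity) (P.c_pos h')]
      linarith
    have b4 := Real.arsinh_le_arsinh.2 b3
    exact Real.arsinh_pos_iff.1 (by linarith [(abs_le.1 b1).1])
  have hQ : P.Q (k'⁻¹ • k • P.φ h) := ⟨PS.fut _ f1, fun j => by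
    rw [← PS.B_left]
    by_cases hj : j = h'
    · rwa [hj]
    · exact (a1 j hj).le⟩
  have z0 : B (k • P.ν h) (k • P.φ h) = 0 := by rw [PS.B_smul, P.ν_φ]
  obtain ⟨j, e2, -⟩ := P.side_of_zero hk hk' hQ (h := h) (by rwa [smul_inv_smul])
  obtain rfl : j = h' := by_contra fun hj => (a1 j hj).ne' (Gal_zero e2 z0)
  exact e2

lemma Gal_sep {κ : ℝ} (hκ : 1 ≤ κ) (r : P.Rat κ) {k k' : PS} (hk : k ∈ P.Γb) (hk' : k' ∈ P.Γb)
    {h h' : H} (d : dist (pt (k • P.φ h)) (pt (k' • P.φ h')) < Real.arsinh (1 / (2 * κ))) :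
    k • P.ν h = k' • P.ν h' ∨ k • P.ν h = -(k' • P.ν h') := by
  rcases le_total 0 (B (k' • P.ν h') (k • P.φ h)) with e | e
  · exact Gal_sep1 P hκ r hk hk' d e
  · have e1 : (k' * P.τ h') • P.ν (C.α h') = -(k' • P.ν h') := by
      rw [mul_smul, P.τ_ν, PS.smul_neg]
    have := Gal_sep1 P hκ r hk (P.Γb.mul_mem hk' (P.τ_mem h')) (h' := C.α h')
      (by rwa [mul_smul, P.τ_φ]) (by rw [e1, B_neg_left]; linarith)
    rw [e1, neg_neg] at this
    exact this.symm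

lemma Gal_f (k : PS) (h : H) : Rch P.A P.R 3 (k, h) (k, C.f h) :=
  ⟨[3], by simp, P.stp_three k h⟩

lemma Gal_f_inv (k : PS) (h : H) : Rch P.A P.R 3 (k, C.f h) (k, h) := by
  refine ⟨[0, 1, 0], le_rfl, ?_⟩
  change P.A ((P.R ^ 1) (P.A (P.A (k, C.f h)))) = _
  rw [P.A_A, pow_one]
  change (k * P.τ (C.α (C.ρ (C.f h))) * P.τ (C.ρ (C.f h)), C.α (C.ρ (C.f h))) = _
  rw [P.τ_α, inv_mul_cancel_right, C.ρ_f, C.α2]

lemma Gal_pow (k : PS) (h : H) (j : ℕ) : Rch P.A P.R (3 * j) (k, h) (k, (C.f ^ j) h) ∧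
    Rch P.A P.R (3 * j) (k, (C.f ^ j) h) (k, h) := by
  induction j with
  | zero => exact ⟨⟨[], le_rfl, rfl⟩, [], le_rfl, rfl⟩
  | succ j ih =>
    rw [pow_succ', Perm.mul_apply]
    exact ⟨ih.1.trans (Gal_f P k _), ((Gal_f_inv P k _).trans ih.2).mono (by omega)⟩

end

/-- Only boundedly many walls meet a ball. -/
theorem walls_bound (κ D : ℝ) (hκ : 1 ≤ κ) : ∃ N : ℕ, ∀ (Vx H : Type) [Finite Vx]
    (G : SimpleGraph Vx) (C : Cmb G H) (P : Poly C), P.Rat κ → ∀ z : ℍ,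
    {n | n ∈ P.S ∧ |B n (Hy z)| ≤ Real.sinh D}.Finite ∧
      {n | n ∈ P.S ∧ |B n (Hy z)| ≤ Real.sinh D}.ncard ≤ N := by
  have c0 : 0 < Real.arsinh (1 / (2 * κ)) := Real.arsinh_pos_iff.2 (by positivity)
  obtain ⟨M, hM⟩ := pack (D + κ) _ c0
  refine ⟨M + M, fun Vx H _ G C P r z => ?_⟩
  obtain ⟨W, hW⟩ : ∃ W : Set V, W = {n | (n ∈ P.S ∧ |B n (Hy z)| ≤ Real.sinh D) ∧ 0 < B n o0} :=
    ⟨_, rfl⟩
  have h1 : ∀ n ∈ W, ∃ p : ℍ, dist z p ≤ D + κ ∧ ∃ k ∈ P.Γb, ∃ h,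
      (n = k • P.ν h ∨ n = -(k • P.ν h)) ∧ p = pt (k • P.φ h) := fun n hn => by
    rw [hW] at hn
    exact Gal_foot P r hn.1.1 hn.1.2
  choose! p hp using h1
  have h2 : ∀ n ∈ W, ∀ n' ∈ W, dist (p n) (p n') < Real.arsinh (1 / (2 * κ)) → n = n' := by
    intro n hn n' hn' d
    obtain ⟨-, k, hk, h, e1, e2⟩ := hp n hn
    obtain ⟨-, k', hk', h', e1', e2'⟩ := hp n' hn'
    rw [e2, e2'] at d
    have e3 := Gal_sep P hκ r hk hk' d
    have e4 : n = n' ∨ n = -n' := by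
      rcases e1 with rfl | rfl <;> rcases e1' with rfl | rfl <;> rcases e3 with e3 | e3 <;>
        simp [e3]
    refine e4.resolve_right fun e5 => ?_
    rw [hW] at hn hn'
    have a1 := hn.2
    rw [e5, B_neg_left] at a1
    linarith [hn'.2]
  have h3 : Set.InjOn p W := fun n hn n' hn' e => h2 n hn n' hn' (by rwa [e, dist_self])
  obtain ⟨h4, h5⟩ := hM z (p '' W) (by
    rintro _ ⟨n, hn, rfl⟩
    exact (hp n hn).1) (by
    rintro _ ⟨n, hn, rfl⟩ _ ⟨n', hn', rfl⟩ e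
    exact not_lt.1 fun d => e (congrArg p (h2 n hn n' hn' d)))
  rw [h3.ncard_image] at h5
  have h6 : W.Finite := h4.of_finite_image h3
  have h7 : {n | n ∈ P.S ∧ |B n (Hy z)| ≤ Real.sinh D} ⊆ W ∪ (fun n => -n) '' W := by
    intro n hn
    rw [hW]
    rcases P.sign hn.1 P.Γb.one_mem with e | e <;> rw [one_smul] at e
    · exact .inl ⟨hn, e.1⟩
    · refine .inr ⟨-n, ⟨⟨P.S_neg hn.1, ?_⟩, ?_⟩, neg_neg n⟩
      · rw [B_neg_left, abs_neg]
        exact hn.2
      · rw [B_neg_left]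
        linarith [e.1]
  have h8 := h6.union (h6.image fun n => -n)
  exact ⟨h8.subset h7, (Set.ncard_le_ncard h7 h8).trans ((Set.ncard_union_le _ _).trans
    (add_le_add h5 ((Set.ncard_image_le h6).trans h5)))⟩

namespace Poly

variable {Vx H : Type} {G : SimpleGraph Vx} {C : Cmb G H} (P : Poly C)

/-- Two sides of a tile with close walls are joined by few moves. -/
lemma rch_near {D : ℝ} {K : ℕ} (near : P.Near (Real.cosh (2 * D)) K) {k : PS} {h h' : H} {z : ℍ}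
    (e : |B (k • P.ν h) (Hy z)| ≤ Real.sinh D) (e' : |B (k • P.ν h') (Hy z)| ≤ Real.sinh D) :
    Rch P.A P.R (3 * K) (k, h) (k, h') := by
  have u : ∀ j, B (k • P.ν j) (k • P.ν j) = 1 := fun j => by rw [PS.B_smul, P.unit]
  obtain ⟨w, h1, h2⟩ := Gal_near (u h) e
  obtain ⟨w', h1', h2'⟩ := Gal_near (u h') e'
  have a1 := abs_B_le_cosh (u h) (u h') h1 h1'
  have a2 : dist w w' ≤ 2 * D := by linarith [dist_triangle_left w w' z]
  have a3 := Real.cosh_le_cosh.2 ((abs_of_nonneg dist_nonneg).trans_le (a2.trans (le_abs_self _)))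
  rw [PS.B_smul] at a1
  obtain ⟨j, hj, rfl | rfl⟩ := near h h' (by linarith [(abs_le.1 a1).1])
  · exact (Gal_pow P k h j).1.mono (by omega)
  · exact (Gal_pow P k h' j).2.mono (by omega)

/-- The walls that separate two tiles decrease along a greedy gallery. -/
lemma sep_step {k g : PS} (hk : k ∈ P.Γb) (hg : g ∈ P.Γb) {h : H}
    (e : B (k • P.ν h) (g • o0) < 0) :
    {n | n ∈ P.S ∧ 0 < B n ((k * P.τ h) • o0) ∧ B n (g • o0) < 0} ⊆
      {n | n ∈ P.S ∧ 0 < B n (k • o0) ∧ B n (g • o0) < 0} \ {k • P.ν h} := by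
  rintro n ⟨hn, h1, h2⟩
  have a1 : n ≠ k • P.ν h := by
    rintro rfl
    rw [mul_smul, PS.B_smul, P.τ_o0, B_sub_right, B_smul_right, P.unit, P.cen] at h1
    have := P.y_pos h
    change 0 < P.y h - _ at h1
    linarith
  refine ⟨⟨hn, ?_, h2⟩, a1⟩
  rcases P.sign hn hk with a2 | a2
  · exact a2.1
  · rcases P.sign hn (P.Γb.mul_mem hk (P.τ_mem h)) with a3 | a3
    · have a4 := a3.2 _ (P.Q_φ (C.α h))
      rw [mul_smul, P.τ_φ] at a4
      have a5 := le_antisymm (a2.2 _ (P.Q_φ h)) a4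
      obtain ⟨k0, hk0, h0, rfl⟩ := hn
      obtain ⟨j, a6, -⟩ := P.side_of_zero hk0 hk (P.Q_φ h) a5
      have a7 := Gal_zero a6 a5
      rw [PS.B_smul] at a7
      obtain rfl : j = h := by_contra fun hj => (Gal_pos P hj).ne' a7
      rw [a6.resolve_left a1, B_neg_left] at h2
      linarith
    · linarith [a3.1]

end Poly

/-- An element with a short displacement closes a short path of arcs near the point. -/
theorem gallery (κ D : ℝ) (hκ : 1 ≤ κ) (K₀ : ℕ) : ∃ K : ℕ, ∀ (Vx H : Type) [Finite Vx]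
    (G : SimpleGraph Vx) (C : Cmb G H) (P : Poly C), P.Rat κ → P.Near (Real.cosh (2 * D)) K₀ →
    ∀ γ ∈ P.Γ, ad γ ≠ 1 → ∀ z : ℍ, P.Q (Hy z) → dist z (γ • z) ≤ D →
    ∃ (h : H) (js : List ℕ), dist z (pt (P.φ h)) ≤ D + κ ∧ js.length ≤ K ∧
      run P.A P.R (1, h) js = (ad γ, h) := by
  obtain ⟨N, hN⟩ := walls_bound κ D hκ
  refine ⟨(N + 1) * (3 * K₀ + 1), fun Vx H _ G C P r near γ hγ h1 z hz d => ?_⟩
  obtain ⟨fin, card⟩ := hN Vx H G C P r z
  have hg := P.mem_Γ.1 hγ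
  obtain ⟨Sep, hS⟩ : ∃ Sep : PS → Set V, ∀ k, Sep k =
      {n | n ∈ P.S ∧ 0 < B n (k • o0) ∧ B n (ad γ • o0) < 0} := ⟨_, fun _ => rfl⟩
  have a1 : ∀ n ∈ Sep 1, |B n (Hy z)| ≤ Real.sinh D ∧ |B n (Hy (γ • z))| ≤ Real.sinh D := by
    intro n hn
    rw [hS] at hn
    obtain ⟨hn, b1, b2⟩ := hn
    have b3 := ((P.sign hn P.Γb.one_mem).resolve_right fun e => lt_asymm b1 e.1).2 _ hz
    have b4 := ((P.sign hn hg).resolve_left fun e => lt_asymm b2 e.1).2 _ hz
    rw [one_smul] at b3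
    rw [ad_smul, ← Hy_smul] at b4
    obtain ⟨y, s, t, hs, ht, e1, e2⟩ := seg_zero b4 b3
    have e3 := dist_add_of_comb hs ht e1
    rw [dist_comm y, dist_comm _ z] at e3
    exact ⟨abs_B_le_sinh (P.S_unit hn) e2 (by linarith [dist_nonneg (x := γ • z) (y := y)]),
      abs_B_le_sinh (P.S_unit hn) e2 (by linarith [dist_nonneg (x := z) (y := y)])⟩
  have a2 : Sep 1 ⊆ {n | n ∈ P.S ∧ |B n (Hy z)| ≤ Real.sinh D} := fun n hn =>
    ⟨by rw [hS] at hn; exact hn.1, (a1 n hn).1⟩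
  have a3 : ∀ k ∈ P.Γb, k ≠ ad γ → ∃ h, k • P.ν h ∈ Sep k := fun k hk e => by
    obtain ⟨h, b1, -⟩ := P.sepa (P.Γb.mul_mem (P.Γb.inv_mem hg) hk)
      fun e' => e (inv_mul_eq_one.1 e').symm
    rw [mul_smul, PS.B_left, inv_inv] at b1
    refine ⟨h, ?_⟩
    rw [hS]
    exact ⟨⟨k, hk, h, rfl⟩, by rw [PS.B_smul, P.cen]; exact P.pos _, b1⟩
  obtain ⟨h, hh⟩ := a3 1 P.Γb.one_mem h1.symm
  have a4 := a1 _ hh
  have a5 : |B (ad γ • P.ν h) (Hy (γ • z))| ≤ Real.sinh D := by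
    rw [Hy_smul, ad_smul, B_ad, ← one_smul PS (P.ν h)]
    exact a4.1
  have key : ∀ i, ∀ k ∈ P.Γb, ∀ h0, Sep k ⊆ Sep 1 → (Sep k).ncard < i →
      |B (k • P.ν h0) (Hy z)| ≤ Real.sinh D → |B (k • P.ν h0) (Hy (γ • z))| ≤ Real.sinh D →
      Rch P.A P.R (i * (3 * K₀ + 1)) (k, h0) (ad γ, h) := by
    intro i
    induction i with
    | zero => exact fun _ _ _ _ e => absurd e (Nat.not_lt_zero _)
    | succ i ih =>
      intro k hk h0 b1 b2 b3 b4
      by_cases e : k = ad γ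
      · subst e
        exact (P.rch_near near b4 a5).mono (by rw [add_mul]; omega)
      · obtain ⟨h2, b5⟩ := a3 k hk e
        have b6 := a1 _ (b1 b5)
        have b7 : Sep (k * P.τ h2) ⊆ Sep k \ {k • P.ν h2} := by
          rw [hS] at b5
          rw [hS, hS]
          exact P.sep_step hk hg b5.2.2
        have b8 : (Sep k).Finite := fin.subset (b1.trans a2)
        have b9 : (Sep (k * P.τ h2)).ncard < (Sep k).ncard :=
          Set.ncard_lt_ncard ⟨b7.trans Set.sdiff_subset, fun e' => (b7 (e' b5)).2 rfl⟩ b8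
        have e1 : (k * P.τ h2) • P.ν (C.α h2) = -(k • P.ν h2) := by
          rw [mul_smul, P.τ_ν, PS.smul_neg]
        have c1 := ih _ (P.Γb.mul_mem hk (P.τ_mem h2)) (C.α h2)
          ((b7.trans Set.sdiff_subset).trans b1) (by omega)
          (by rw [e1, B_neg_left, abs_neg]; exact b6.1) (by rw [e1, B_neg_left, abs_neg]; exact b6.2)
        have c2 : Rch P.A P.R 1 (k, h2) (k * P.τ h2, C.α h2) := ⟨[0], le_rfl, rfl⟩
        exact (((P.rch_near near b3 b6.1).trans c2).trans c1).mono (by rw [add_mul]; omega)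
  obtain ⟨js, c1, c2⟩ := key (N + 1) 1 P.Γb.one_mem h subset_rfl
    (Nat.lt_succ_of_le ((Set.ncard_le_ncard a2 fin).trans card)) a4.1 a4.2
  exact ⟨h, js, P.dist_φ r hz h (by simpa only [one_smul] using a4.1), c1, c2⟩

end

end Pool.Agent.P.MP_d39174_gt

end

section
/-! Progress along a reduced path. -/

namespace Pool.Agent.P.MP_d39174_gt

open UpperHalfPlane MatrixGroups

noncomputable section

open Equiv

lemma Chain_conj (k : PS) (t : ℝ) (n x : V) : k • (ex t n • x) = ex t (k • n) • (k • x) := by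
  obtain ⟨g, rfl⟩ := ad_surj k
  simp only [ad_smul]
  rw [← ex_conj, mul_smul, mul_smul, inv_smul_smul]

lemma Chain_le {y c : ℝ} (hy : 0 < y) (hc : 0 < c) (e : c ^ 2 = 1 + y ^ 2) : y ≤ c :=
  (pow_le_pow_iff_left₀ hy.le hc.le two_ne_zero).1 (by linarith)

lemma Chain_ineq {y y' c c' e : ℝ} (hy : 0 < y) (hy' : 0 < y') (hc : 0 < c) (hc' : 0 < c')
    (e1 : c ^ 2 = 1 + y ^ 2) (e2 : c' ^ 2 = 1 + y' ^ 2) (e0 : 0 ≤ e) (he : 4 * e ≤ y ^ 2) :
    (2 - 2 * (y / c' * (y' / c))) * e ≤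
      ((1 + y ^ 2 + y' ^ 2) / (c * c')) ^ 2 - 1 - (y' / c) ^ 2 := by
  have h1 : ((1 + y ^ 2 + y' ^ 2) / (c * c')) ^ 2 - 1 - (y' / c) ^ 2 =
      y ^ 2 * (1 - (y / c' * (y' / c)) ^ 2) := by
    rw [mul_pow, div_pow, div_pow, div_pow, mul_pow, e1, e2]
    field_simp
    ring
  have h2 : y / c' * (y' / c) ≤ 1 := by
    rw [div_mul_div_comm, div_le_one (mul_pos hc' hc), mul_comm c' c]
    exact mul_le_mul (Chain_le hy hc e1) (Chain_le hy' hc' e2) hy'.le hc.le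
  have h3 : 0 < y / c' * (y' / c) := by positivity
  rw [h1]
  generalize y / c' * (y' / c) = u at h2 h3
  have h4 : 0 ≤ (1 - u) * (y ^ 2 - 4 * e) := mul_nonneg (by linarith) (by linarith)
  have h5 : 0 ≤ (1 - u) * e := mul_nonneg (by linarith) e0
  have h6 : 0 ≤ y ^ 2 * ((1 - u) * u) := mul_nonneg (sq_nonneg y) (mul_nonneg (by linarith) h3.le)
  nlinarith

lemma Chain_pos {p q v : V} (hp : B p p = -1) (hq : B q q = -1) (h1 : B p q < 0) (h2 : 0 < B v p)
    (h3 : B v v * (B p q ^ 2 - 1) ≤ B v p ^ 2) : 0 ≤ B v q := by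
  by_contra h
  have h4 := not_le.1 h
  have h5 := VH2_gram p q v
  rw [hp, hq] at h5
  have h6 := sq_nonneg (B v (cr p q))
  have h7 := mul_pos (mul_pos_of_neg_of_neg h1 h4) h2
  have h8 := mul_pos_of_neg_of_neg h4 h4
  nlinarith

namespace Poly

variable {Vx H : Type} {G : SimpleGraph Vx} {C : Cmb G H} (P : Poly C)

lemma Chain_mod (s : PS × H) (j : ℕ) : stp P.A P.R s j = stp P.A P.R s (j % 4) := by
  have : P.R ^ 4 = 1 := Equiv.ext fun s => P.R_four s
  unfold stp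
  rw [← pow_eq_pow_mod j this]

lemma Chain_snd (s : PS × H) (j : ℕ) : (stp P.A P.R s j).2 = stp C.α C.ρ s.2 j := by
  unfold stp
  induction j with
  | zero => rfl
  | succ j ih => rw [pow_succ', pow_succ', Perm.mul_apply, Perm.mul_apply, ← ih]; rfl

lemma Chain_one (s : PS × H) :
    P.A s = ((P.A (stp P.A P.R s 1)).1, C.f (P.A (stp P.A P.R s 1)).2) := by
  rw [← P.stp_three]
  show _ = P.R (P.R (P.R (P.A (P.A (P.R (P.A s))))))
  rw [P.A_A, P.R_four]

lemma Chain_ν (h : H) : P.τ (C.f h) • P.ν (C.ς h) = P.ν h := by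
  have := P.τ_f (C.f h)
  rwa [C.f_α_f, Perm.coe_inv, Equiv.symm_apply_apply] at this

lemma Chain_exφ (h : H) (t : ℝ) : ex t (P.ν h) • P.φ h =
    Real.cosh (2 * t) • P.φ h + Real.sinh (2 * t) • P.m h :=
  ex_ad_perp (P.unit h) (P.ν_φ h) t

lemma Chain_exm (h : H) (t : ℝ) : ex t (P.ν h) • P.m h =
    Real.cosh (2 * t) • P.m h + Real.sinh (2 * t) • P.φ h := by
  rw [ex_ad_perp (P.unit h) ((B_comm _ _).trans (P.m_ν h)) t]
  have : cr (P.ν h) (P.m h) = P.φ h := by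
    rw [m, cr_cr, P.unit, P.ν_φ, one_smul, zero_smul, sub_zero]
  rw [this]

lemma Chain_φ (h : H) : P.τ (C.f h) • P.φ (C.ς h) = ex (P.T h) (P.ν h) • P.φ h := by
  have e1 : P.y (C.ς h) = P.y h := by rw [y, C.lab_ς, y]
  have e2 : P.c (C.ς h) = P.c h := by rw [c, e1, c]
  have e3 : P.τ (C.f h) • P.φ (C.ς h) =
      P.φ h - (2 * Real.sinh (P.T h)) • P.ν (C.f h) := by
    rw [φ, PS.smul_real, PS.smul_sub, PS.smul_real, P.Chain_ν, P.τ_o0, e1, e2, P.sinh_T, φ]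
    ext <;> simp only [V.smul_a, V.smul_b, V.smul_c, V.sub_a, V.sub_b, V.sub_c] <;> ring
  rw [e3, P.Chain_exφ, P.ν_f, Real.cosh_two_mul, Real.sinh_two_mul, Real.cosh_sq]
  ext <;> simp only [V.smul_a, V.smul_b, V.smul_c, V.sub_a, V.sub_b, V.sub_c, V.add_a, V.add_b,
    V.add_c] <;> ring

lemma Chain_m (h : H) : P.τ (C.f h) • P.m (C.ς h) = ex (P.T h) (P.ν h) • P.m h := by
  rw [m, PS.smul_cr, P.Chain_ν, P.Chain_φ, m, cr_ad, ex_ad_self]

lemma Chain_κ {κ : ℝ} (r : P.Rat κ) (h : H) : 1 ≤ κ := by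
  have h1 := r.2 (C.lab h) (C.lab h)
  have h2 := P.pos (C.lab h)
  by_contra h3
  nlinarith [not_le.1 h3]

lemma Chain_νφ (h : H) : B (P.ν h) (P.φ (C.f h)) = P.y h / P.c (C.f h) := by
  have e2 : B (P.ν h) o0 = P.y h := P.cen h
  rw [φ, B_smul_right, B_sub_right, B_smul_right, e2, P.perp]
  ring

lemma Chain_φν (h : H) : B (P.φ h) (P.ν (C.f h)) = P.y (C.f h) / P.c h := by
  have e1 : B o0 (P.ν (C.f h)) = P.y (C.f h) := (B_comm _ _).trans (P.cen _)
  rw [φ, B_smul_left, B_sub_left, B_smul_left, e1, P.perp]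
  ring

lemma Chain_φφ (h : H) : B (P.φ h) (P.φ (C.f h)) =
    -((1 + P.y h ^ 2 + P.y (C.f h) ^ 2) / (P.c h * P.c (C.f h))) := by
  have e1 : B o0 (P.ν (C.f h)) = P.y (C.f h) := (B_comm _ _).trans (P.cen _)
  have e2 : B (P.ν h) o0 = P.y h := P.cen h
  rw [φ, φ]
  simp only [B_smul_left, B_smul_right, B_sub_left, B_sub_right, e1, e2, P.perp, B_o0]
  ring

lemma Chain_Hy (s : PS × H) : Hy (P.ft s) = s.1 • P.φ s.2 :=
  Hy_pt_unit (PS.fut _ (P.φ_fut _)) (by rw [PS.B_smul, P.φ_unit])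

lemma Chain_f {κ : ℝ} (r : P.Rat κ) (k : PS) (h : H) :
    dist (P.ft (k, h)) (P.ft (k, C.f h)) ≤ 2 * κ := by
  have k1 := P.Chain_κ r h
  have h1 := cosh_dist_eq (P.ft (k, h)) (P.ft (k, C.f h))
  rw [P.Chain_Hy, P.Chain_Hy, PS.B_smul, P.Chain_φφ, neg_neg] at h1
  have y1 := P.y_pos h
  have y2 := P.y_pos (C.f h)
  have c1 := P.c_pos h
  have c2 := P.c_pos (C.f h)
  have e1 := P.c_sq h
  have e2 := P.c_sq (C.f h)
  have r1 : P.y h ≤ κ * P.y (C.f h) := r.2 _ _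
  have r2 : P.y (C.f h) ≤ κ * P.y h := r.2 _ _
  have l1 := Chain_le y1 c1 e1
  have l2 := Chain_le y2 c2 e2
  generalize P.y h = y at *
  generalize P.y (C.f h) = y' at *
  generalize P.c h = c at *
  generalize P.c (C.f h) = c' at *
  have l3 : c ≤ κ * c' := by
    refine (pow_le_pow_iff_left₀ c1.le (by positivity) two_ne_zero).1 ?_
    have := pow_le_pow_left₀ y1.le r1 2
    rw [mul_pow] at this ⊢
    rw [e1, e2]
    nlinarith
  have l4 : (1 + y ^ 2 + y' ^ 2) / (c * c') ≤ 2 * κ := by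
    rw [div_le_iff₀ (mul_pos c1 c2), ← e1]
    have a1 : c * c ≤ c * (κ * c') := mul_le_mul_of_nonneg_left l3 c1.le
    have a2 : y' * y' ≤ (κ * c) * c' :=
      mul_le_mul (r2.trans (mul_le_mul_of_nonneg_left l1 (by linarith))) l2 y2.le (by positivity)
    nlinarith
  have l5 : 2 * κ ≤ Real.cosh (2 * κ) :=
    (Real.self_le_sinh_iff.2 (by linarith)).trans (Real.sinh_lt_cosh _).le
  have l6 := Real.cosh_le_cosh.1 ((h1.le.trans l4).trans l5)
  rwa [abs_of_nonneg dist_nonneg, abs_of_nonneg (by linarith)] at l6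

lemma M_unit (s : PS × H) : B (P.M s) (P.M s) = 1 := by
  rw [M, PS.B_smul, P.m_unit]

lemma M_A (s : PS × H) : P.M (P.A s) = -P.M s := by
  show (s.1 * P.τ s.2) • P.m (C.α s.2) = -(s.1 • P.m s.2)
  rw [mul_smul, P.τ_m, PS.smul_neg]

lemma ft_A (s : PS × H) : P.ft (P.A s) = P.ft s := by
  show pt ((s.1 * P.τ s.2) • P.φ (C.α s.2)) = pt (s.1 • P.φ s.2)
  rw [mul_smul, P.τ_φ]

lemma dist_stp {κ : ℝ} (r : P.Rat κ) (s : PS × H) (j : ℕ) :
    dist (P.ft s) (P.ft (stp P.A P.R s j)) ≤ 2 * κ := by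
  obtain ⟨k, h⟩ := s
  have k1 := P.Chain_κ r h
  rw [P.Chain_mod]
  have : j % 4 = 0 ∨ j % 4 = 1 ∨ j % 4 = 2 ∨ j % 4 = 3 := by omega
  rcases this with e | e | e | e <;> rw [e]
  · show dist _ (P.ft (P.A (k, h))) ≤ _
    rw [P.ft_A, dist_self]
    linarith
  · rw [← P.ft_A (k, h), ← P.ft_A (stp P.A P.R (k, h) 1), P.Chain_one (k, h), dist_comm]
    exact P.Chain_f r _ _
  · rw [P.stp_two]
    show dist (pt (k • P.φ h)) (pt ((k * P.τ (C.f h)) • P.φ (C.ς h))) ≤ _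
    rw [mul_smul, P.Chain_φ, PS.dist_pt k (P.φ_fut h) ((P.φ_fut h).ad _), pt_ad _ (P.φ_fut h),
      dist_ex_of_wall (P.unit h) _ (by rw [Hy_pt_unit (P.φ_fut h) (P.φ_unit h), P.ν_φ]),
      abs_of_pos (P.T_pos h)]
    linarith [P.T_le r h]
  · rw [P.stp_three]
    exact P.Chain_f r _ _

lemma dist_rch {κ : ℝ} (r : P.Rat κ) {n : ℕ} {s s' : PS × H} (h : Rch P.A P.R n s s') :
    dist (P.ft s) (P.ft s') ≤ 2 * κ * n := by
  obtain ⟨js, hn, rfl⟩ := h
  have k1 := P.Chain_κ r s.2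
  have key : ∀ (js : List ℕ) (s : PS × H),
      dist (P.ft s) (P.ft (run P.A P.R s js)) ≤ 2 * κ * js.length := by
    intro js
    induction js with
    | nil =>
      intro s
      show dist (P.ft s) (P.ft s) ≤ _
      simp
    | cons j js ih =>
      intro s
      have h1 := ih (stp P.A P.R s j)
      have h2 := P.dist_stp r s j
      have h3 := dist_triangle (P.ft s) (P.ft (stp P.A P.R s j))
        (P.ft (run P.A P.R (stp P.A P.R s j) js))
      show dist (P.ft s) (P.ft (run P.A P.R (stp P.A P.R s j) js)) ≤ _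
      rw [List.length_cons]
      push_cast
      linarith
  exact (key js s).trans (mul_le_mul_of_nonneg_left (Nat.cast_le.2 hn) (by linarith))

lemma straight (s : PS × H) (z : ℍ) :
    Real.arsinh (B (P.M (stp P.A P.R s 2)) (Hy z)) + 2 * P.T s.2 ≤
      Real.arsinh (B (P.M s) (Hy z)) := by
  obtain ⟨k, h⟩ := s
  rw [P.stp_two]
  show Real.arsinh (B ((k * P.τ (C.f h)) • P.m (C.ς h)) (Hy z)) + 2 * P.T h ≤
    Real.arsinh (B (k • P.m h) (Hy z))
  rw [mul_smul, P.Chain_m, PS.B_left, PS.B_left, P.Chain_exm, B_add_left, B_smul_left, B_smul_left]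
  have q1 : Fut (k⁻¹ • Hy z) := PS.fut _ (Hy_fut z)
  have q2 : B (k⁻¹ • Hy z) (k⁻¹ • Hy z) = -1 := by rw [PS.B_smul, Hy_unit]
  generalize k⁻¹ • Hy z = q at q1 q2
  have a1 : B (P.φ h) q < 0 := (P.φ_fut h).B_neg q1
  have a2 := VH2_pars (P.unit h) (P.φ_unit h) (P.ν_φ h) q
  rw [q2, B_comm q (P.φ h), B_comm q (cr _ _)] at a2
  change -1 = _ - _ + B (P.m h) q ^ 2 at a2
  have a3 : Real.cosh (Real.arsinh (B (P.m h) q)) ≤ -B (P.φ h) q := by
    refine (pow_le_pow_iff_left₀ (Real.cosh_pos _).le (by linarith) two_ne_zero).1 ?_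
    rw [Real.cosh_sq, Real.sinh_arsinh]
    nlinarith [sq_nonneg (B q (P.ν h))]
  have a4 : 0 ≤ Real.sinh (2 * P.T h) := Real.sinh_nonneg_iff.2 (by linarith [P.T_pos h])
  rw [← le_sub_iff_add_le, ← Real.sinh_le_sinh, Real.sinh_arsinh, Real.sinh_sub, Real.sinh_arsinh]
  nlinarith [mul_le_mul_of_nonneg_right a3 a4]

lemma turn {D : ℝ} (hx : ∀ v, 2 * Real.sinh D < P.x v) (k : PS) (h : H) {z : ℍ}
    (hz : dist z (P.ft (k, h)) ≤ D) : B (P.M (k, C.f h)) (Hy z) ≤ B (P.M (k, h)) (Hy z) := by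
  show B (k • P.m (C.f h)) (Hy z) ≤ B (k • P.m h) (Hy z)
  have d1 := cosh_dist_eq (P.ft (k, h)) z
  rw [P.Chain_Hy, dist_comm, PS.B_left] at d1
  rw [PS.B_left, PS.B_left]
  have q1 : Fut (k⁻¹ • Hy z) := PS.fut _ (Hy_fut z)
  have q2 : B (k⁻¹ • Hy z) (k⁻¹ • Hy z) = -1 := by rw [PS.B_smul, Hy_unit]
  generalize k⁻¹ • Hy z = q at q1 q2 d1
  have s0 : 0 ≤ Real.sinh (dist z (P.ft (k, h))) := Real.sinh_nonneg_iff.2 dist_nonneg
  have s1 : 2 * Real.sinh (dist z (P.ft (k, h))) ≤ P.y h :=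
    (mul_le_mul_of_nonneg_left (Real.sinh_le_sinh.2 hz) zero_le_two).trans (hx _).le
  have s2 : B (P.φ h) q ^ 2 - 1 = Real.sinh (dist z (P.ft (k, h))) ^ 2 := by
    have := Real.cosh_sq (dist z (P.ft (k, h)))
    rw [d1] at this
    linarith
  have s3 : 4 * Real.sinh (dist z (P.ft (k, h))) ^ 2 ≤ P.y h ^ 2 := by
    have := pow_le_pow_left₀ (by linarith) s1 2
    linarith
  have b1 : B (P.m h) (P.m (C.f h)) = P.y h / P.c (C.f h) * (P.y (C.f h) / P.c h) := by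
    rw [m, m, VH2_cr_cr, P.Chain_νφ, P.Chain_φν, P.perp, zero_mul, sub_zero]
  have b2 : B (P.m (C.f h)) (P.φ h) < 0 := by
    have e := P.ν_f_inv (C.f h)
    rw [Perm.coe_inv, Equiv.symm_apply_apply] at e
    have e2 := P.ν_φ h
    rw [e, B_add_left, B_smul_left, B_smul_left] at e2
    have e3 := mul_pos_of_neg_of_neg (neg_neg_of_pos (Real.sinh_pos_iff.2 (P.T_pos (C.α (C.f h)))))
      ((P.φ_fut (C.f h)).B_neg (P.φ_fut h))
    by_contra h0
    have := mul_nonneg (Real.cosh_pos (P.T (C.α (C.f h)))).le (not_lt.1 h0)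
    linarith
  have b3 := VH2_pars (P.unit (C.f h)) (P.φ_unit (C.f h)) (P.ν_φ (C.f h)) (P.φ h)
  rw [P.φ_unit, P.Chain_φν, P.Chain_φφ, B_comm (P.φ h) (cr _ _)] at b3
  change -1 = _ - _ + B (P.m (C.f h)) (P.φ h) ^ 2 at b3
  have b4 := Chain_ineq (P.y_pos h) (P.y_pos (C.f h)) (P.c_pos h) (P.c_pos (C.f h)) (P.c_sq h)
    (P.c_sq (C.f h)) (sq_nonneg _) s3
  have b5 := Chain_pos (v := P.m h - P.m (C.f h)) (P.φ_unit h) q2 ((P.φ_fut h).B_neg q1)
    (by rw [B_sub_left, P.m_φ]; linarith) (by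
      rw [s2]
      simp only [B_sub_left, B_sub_right, P.m_unit, P.m_φ, B_comm (P.m (C.f h)) (P.m h), b1]
      linarith)
  rw [B_sub_left] at b5
  linarith

/-- Progress along a reduced path near `z`. -/
theorem chain {κ D : ℝ} (r : P.Rat κ) (hx : ∀ v, 2 * Real.sinh D < P.x v) {z : ℍ}
    {js : List ℕ} (red : ∀ j ∈ js, j % 4 ≠ 0) {s : PS × H}
    (hz : dist z (P.ft s) + 2 * κ * js.length ≤ D) :
    Real.arsinh (B (P.M (run P.A P.R s js)) (Hy z)) + 2 * gain C.α C.ρ P.T s.2 js ≤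
      Real.arsinh (B (P.M s) (Hy z)) := by
  induction js generalizing s with
  | nil =>
    show Real.arsinh (B (P.M s) (Hy z)) + 2 * 0 ≤ _
    linarith
  | cons j js ih =>
    have k1 := P.Chain_κ r s.2
    have k2 : 0 ≤ 2 * κ * (js.length : ℝ) := by positivity
    rw [List.length_cons] at hz
    push_cast at hz
    have h2 := P.dist_stp r s j
    have h3 := dist_triangle z (P.ft s) (P.ft (stp P.A P.R s j))
    have h4 := ih (fun i hi => red i (List.mem_cons_of_mem _ hi)) (s := stp P.A P.R s j)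
      (by linarith)
    have h5 : dist z (P.ft (stp P.A P.R s j)) ≤ D := by linarith
    have h6 : dist z (P.ft s) ≤ D := by linarith
    have h7 : Real.arsinh (B (P.M (stp P.A P.R s j)) (Hy z)) +
        2 * (if j % 4 = 2 then P.T s.2 else 0) ≤ Real.arsinh (B (P.M s) (Hy z)) := by
      have h0 := red j List.mem_cons_self
      rw [P.Chain_mod] at h5 ⊢
      have : j % 4 = 1 ∨ j % 4 = 2 ∨ j % 4 = 3 := by omega
      rcases this with e | e | e <;> rw [e] at h5 ⊢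
      · rw [if_neg (by norm_num), mul_zero, add_zero, Real.arsinh_le_arsinh]
        rw [← P.ft_A] at h5
        have h8 := P.turn hx (P.A (stp P.A P.R s 1)).1 (P.A (stp P.A P.R s 1)).2 h5
        rw [← P.Chain_one, Prod.mk.eta, P.M_A, P.M_A, B_neg_left, B_neg_left] at h8
        linarith
      · rw [if_pos rfl]
        exact P.straight s z
      · rw [if_neg (by norm_num), mul_zero, add_zero, Real.arsinh_le_arsinh]
        obtain ⟨k, h⟩ := s
        rw [P.stp_three]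
        exact P.turn hx k h h6
    rw [P.Chain_snd] at h4
    show Real.arsinh (B (P.M (run P.A P.R (stp P.A P.R s j) js)) (Hy z)) +
      2 * ((if j % 4 = 2 then P.T s.2 else 0) + gain C.α C.ρ P.T (stp C.α C.ρ s.2 j) js) ≤ _
    linarith

/-- Product of the side pairings along a curve. -/
def prodS (h : H) : ℕ → PS
  | 0 => 1
  | i + 1 => prodS h i * P.τ (C.f ((C.ς ^ i) h))

lemma prodS_mem (h : H) (i : ℕ) : P.prodS h i ∈ P.Γb := by
  induction i with
  | zero => exact one_mem _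
  | succ i ih => exact mul_mem ih (P.τ_mem _)

lemma prodS_ν (h : H) (i : ℕ) : P.prodS h i • P.ν ((C.ς ^ i) h) = P.ν h := by
  induction i with
  | zero => exact one_smul _ _
  | succ i ih => rw [prodS, pow_succ', Perm.mul_apply, mul_smul, P.Chain_ν, ih]

lemma prodS_φ (h : H) (i : ℕ) : P.prodS h i • P.φ ((C.ς ^ i) h) =
    ex (∑ j ∈ Finset.range i, P.T ((C.ς ^ j) h)) (P.ν h) • P.φ h := by
  induction i with
  | zero =>
    rw [Finset.sum_range_zero, ex_zero, one_smul]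
    exact one_smul _ _
  | succ i ih =>
    rw [prodS, pow_succ', Perm.mul_apply, mul_smul, P.Chain_φ, Chain_conj, P.prodS_ν, ih,
      Finset.sum_range_succ, add_comm, ex_add, mul_smul]

lemma Chain_prod {h : H} {n : ℕ} {t : ℝ} (e : (C.ς ^ n) h = h)
    (ht : ∑ j ∈ Finset.range n, P.T ((C.ς ^ j) h) = t) : P.prodS h n = ad (ex t (P.ν h)) := by
  have e1 := P.prodS_ν h n
  have e2 := P.prodS_φ h n
  rw [e] at e1 e2
  rw [ht] at e2
  refine PS.eq_of (n := P.ν h) (m := P.φ h) (fun h0 => ?_) ?_ e2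
  · have := P.m_unit h
    rw [m, h0, B_zero_left] at this
    exact zero_ne_one this
  · rw [e1, ad_smul, ex_ad_self]

lemma prodS_per {Λ : ℝ} (hΛ : P.Len Λ) (h : H) : P.prodS h (C.per h) = ad (ex Λ (P.ν h)) := by
  have e : (C.ς ^ C.per h) h = h := by
    rw [Perm.coe_pow]
    exact Function.iterate_minimalPeriod
  exact P.Chain_prod e (hΛ h)

/-- A straight closed path is a power of the translation along its wall. -/
theorem all_straight [Finite H] {Λ : ℝ} (hΛ : P.Len Λ) {js : List ℕ} (h2 : ∀ j ∈ js, j % 4 = 2)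
    (h1 : 1 ≤ js.length) {s : PS × H} {g : PS} (e : run P.A P.R s js = lmul g s) :
    ∃ i : ℕ, 1 ≤ i ∧ g = ad (ex (i * Λ) (s.1 • P.ν s.2)) := by
  obtain ⟨k, h⟩ := s
  have key : ∀ (js : List ℕ), (∀ j ∈ js, j % 4 = 2) → ∀ i : ℕ,
      run P.A P.R (k * P.prodS h i, (C.ς ^ i) h) js =
        (k * P.prodS h (i + js.length), (C.ς ^ (i + js.length)) h) := by
    intro js
    induction js with
    | nil => intro _ i; rfl
    | cons j js ih =>
      intro h2 i
      have e1 : stp P.A P.R (k * P.prodS h i, (C.ς ^ i) h) j =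
          (k * P.prodS h (i + 1), (C.ς ^ (i + 1)) h) := by
        rw [P.Chain_mod, h2 j List.mem_cons_self, P.stp_two, prodS, pow_succ', Perm.mul_apply,
          mul_assoc]
      show run P.A P.R (stp P.A P.R (k * P.prodS h i, (C.ς ^ i) h) j) js = _
      rw [e1, ih (fun i hi => h2 i (List.mem_cons_of_mem _ hi)), List.length_cons, add_assoc,
        add_comm 1]
  have e1 := key js h2 0
  rw [prodS, mul_one, pow_zero, Perm.one_apply, e, zero_add, lmul_apply, Prod.mk.injEq] at e1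
  obtain ⟨e2, e3⟩ := e1
  have e4 : C.per h ∣ js.length := by
    refine Function.IsPeriodicPt.minimalPeriod_dvd ?_
    show (⇑C.ς)^[js.length] h = h
    rw [← Perm.coe_pow]
    exact e3.symm
  obtain ⟨i, hi⟩ := e4
  have e5 : ∀ i : ℕ, (C.ς ^ (C.per h * i)) h = h := fun i => by
    rw [Perm.coe_pow]
    exact (Function.isPeriodicPt_minimalPeriod C.ς h).mul_const i
  have e6 : ∀ i : ℕ, ∑ j ∈ Finset.range (C.per h * i), P.T ((C.ς ^ j) h) = i * Λ := fun i => by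
    induction i with
    | zero => simp
    | succ i ih =>
      rw [Nat.mul_succ, Finset.sum_range_add, ih, Nat.cast_succ, add_mul, one_mul, ← hΛ h]
      congr 1
      refine Finset.sum_congr rfl fun j _ => ?_
      rw [add_comm, pow_add, Perm.mul_apply, e5]
  refine ⟨i, Nat.pos_of_ne_zero fun h0 => by rw [h0] at hi; omega, ?_⟩
  rw [hi, P.Chain_prod (e5 i) (e6 i)] at e2
  obtain ⟨γ, rfl⟩ := ad_surj k
  show g = ad (ex (i * Λ) (γ • P.ν h))
  rw [← ex_conj, map_mul, map_mul, map_inv, ← e2, mul_inv_cancel_right]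

end Poly

end

end Pool.Agent.P.MP_d39174_gt

end

section
/-! The walls are exactly the systoles. -/

namespace Pool.Agent.P.MP_d39174_gt

open UpperHalfPlane MatrixGroups

noncomputable section

open Equiv

lemma SysB_mem {Vx H : Type} {G : SimpleGraph Vx} {C : Cmb G H} (P : Poly C) (js : List ℕ)
    {s : PS × H} (hs : s.1 ∈ P.Γb) : (run P.A P.R s js).1 ∈ P.Γb := by
  induction js generalizing s with
  | nil => exact hs
  | cons j js ih =>
    refine ih (s := stp P.A P.R s j) ?_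
    induction j with
    | zero => exact P.Γb.mul_mem hs (P.τ_mem _)
    | succ j ih' =>
      rw [stp, pow_succ', Perm.mul_apply]
      exact P.Γb.mul_mem ih' (P.τ_mem _)

lemma SysB_core {κ Λ D D' : ℝ} {K : ℕ} {Vx H : Type} [Fintype H] {G : SimpleGraph Vx}
    {C : Cmb G H} (P : Poly C) (hκ : 1 ≤ κ) (r : P.Rat κ) (hG : NBG G K)
    (hx : ∀ v, 2 * Real.sinh D' < P.x v) (hD : D + 2 * κ * (K ^ 2 : ℕ) + 2 * κ * K ≤ D')
    (hΛ : P.Len Λ) (h2 : 2 * κ < Λ) {γ : SL(2, ℝ)} (h1 : ad γ ≠ 1) {z : ℍ}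
    (hz : dist z (γ • z) ≤ 2 * Λ) {h : H} {js : List ℕ} (d : dist z (pt (P.φ h)) ≤ D)
    (hK : js.length ≤ K) (e : run P.A P.R (1, h) js = (ad γ, h)) :
    ∃ n ∈ P.S, ∃ i : ℕ, 1 ≤ i ∧ PM (ex (i * Λ) n) γ := by
  rcases reduce C (g := lmul (ad γ)) (pr := Prod.snd) P.A_A P.R_four
    (fun s => Prod.ext (mul_assoc _ _ _).symm rfl) (fun s => Prod.ext (mul_assoc _ _ _).symm rfl)
    (fun _ => rfl) (fun _ => rfl) (fun _ => rfl)
    (e.trans (Prod.ext (mul_one _).symm rfl)) hK with ⟨s, hs⟩ | ⟨s, ks, hr, e', k1, k2, red⟩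
  · exact absurd (mul_eq_right.1 (congrArg Prod.fst hs)) h1
  have e2 : run C.α C.ρ s.2 ks = s.2 :=
    (run_map (a := P.A) (r := P.R) (F := Prod.snd) (fun _ => rfl) (fun _ => rfl) s ks).symm.trans
      ((congrArg Prod.snd e').trans rfl)
  rcases backtrack C hG (fun h => (P.T_pos h).le) (P.T_le r) hΛ e2 k2 red with h3 | h3
  · obtain ⟨i, hi, e3⟩ := P.all_straight hΛ h3 k1 e'
    obtain ⟨ls, -, rfl⟩ := hr
    exact ⟨_, ⟨_, SysB_mem P ls P.Γb.one_mem, _, rfl⟩, i, hi, (ad_eq_iff _ _).1 e3.symm⟩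
  · have h4 := P.dist_rch r hr
    have h5 : P.ft (1, h) = pt (P.φ h) := congrArg pt (one_smul PS _)
    have h6 := dist_triangle z (P.ft (1, h)) (P.ft s)
    have h7 : 2 * κ * (ks.length : ℝ) ≤ 2 * κ * K :=
      mul_le_mul_of_nonneg_left (Nat.cast_le.2 k2) (by linarith)
    rw [← h5] at d
    have h8 := P.chain r hx red (s := s) (z := z) (by linarith)
    have h9 : P.M (lmul (ad γ) s) = γ • P.M s := mul_smul (ad γ) s.1 (P.m s.2)
    rw [e', h9, B_ad_left, ← Hy_smul] at h8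
    have h10 := (le_abs_self _).trans (lip (P.M_unit s) z (γ⁻¹ • z))
    rw [← dist_smul γ, smul_inv_smul, dist_comm] at h10
    linarith

/-- Elements with a short displacement are translations along walls. -/
theorem short (κ L : ℝ) (hκ : 1 ≤ κ) (K₀ : ℕ) : ∃ (K : ℕ) (X : ℝ), ∀ (Vx H : Type) [Finite Vx]
    [Fintype H] (G : SimpleGraph Vx) (C : Cmb G H) (P : Poly C) (Λ : ℝ), P.Rat κ →
    P.Near (Real.cosh (4 * L)) K₀ → NBG G K → (∀ v, X ≤ P.x v) → P.Len Λ → 2 * κ < Λ → Λ ≤ L →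
    ∀ γ ∈ P.Γ, ∀ z : ℍ, dist z (γ • z) ≤ 2 * Λ →
      PM 1 γ ∨ ∃ n ∈ P.S, ∃ i : ℕ, 1 ≤ i ∧ PM (ex (i * Λ) n) γ := by
  obtain ⟨K, hK⟩ := gallery κ (2 * L) hκ K₀
  refine ⟨K, 2 * Real.sinh (2 * L + κ + 2 * κ * (K ^ 2 : ℕ) + 2 * κ * K) + 1,
    fun Vx H _ _ G C P Λ r near hG hx hΛ h2 hL γ hγ z hz => ?_⟩
  obtain ⟨δ, hδ, hQ⟩ := P.cover z
  have hz' : dist (δ • z) ((δ * γ * δ⁻¹) • δ • z) ≤ 2 * Λ := by
    rwa [mul_smul, inv_smul_smul, mul_smul, dist_smul]
  by_cases h1 : ad γ = 1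
  · exact Or.inl ((ad_eq_iff _ _).1 ((map_one ad).trans h1.symm))
  have h3 : ad (δ * γ * δ⁻¹) ≠ 1 := by
    rwa [map_mul, map_mul, map_inv, Ne, conj_eq_one_iff]
  obtain ⟨h, js, d, k, e⟩ := hK Vx H G C P r (by rwa [show 2 * (2 * L) = 4 * L by ring]) _
    (P.Γ.mul_mem (P.Γ.mul_mem hδ hγ) (P.Γ.inv_mem hδ)) h3 _ hQ (by linarith)
  obtain ⟨n, hn, i, hi, e'⟩ := SysB_core P hκ r hG (fun v => (lt_add_one _).trans_le (hx v)) le_rfl
    hΛ h2 h3 hz' d k e
  refine Or.inr ⟨δ⁻¹ • n, P.S_smul hn (P.mem_Γ.1 (P.Γ.inv_mem hδ)), i, hi, ?_⟩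
  have h4 := ((PM.refl δ⁻¹).mul e').mul (PM.refl δ⁻¹⁻¹)
  rw [ex_conj] at h4
  have h5 : δ⁻¹ * (δ * γ * δ⁻¹) * δ⁻¹⁻¹ = γ := by group
  rwa [h5] at h4

namespace Poly

variable {Vx H : Type} {G : SimpleGraph Vx} {C : Cmb G H} (P : Poly C)

theorem sys_of_short [Finite Vx] [Finite H] {Λ : ℝ} (h0 : 0 < Λ) (hΛ : P.Len Λ)
    (h : ∀ γ ∈ P.Γ, ∀ z : ℍ, dist z (γ • z) ≤ 2 * Λ →
      PM 1 γ ∨ ∃ n ∈ P.S, ∃ i : ℕ, 1 ≤ i ∧ PM (ex (i * Λ) n) γ) :
    Nice P.Γ ∧ Sys P.Γ Λ ∧ SS P.Γ Λ = P.S := by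
  have hi : ∀ i : ℕ, 1 ≤ i → Λ ≤ i * Λ := fun i hi =>
    le_mul_of_one_le_left h0.le (Nat.one_le_cast.2 hi)
  have htr : ∀ γ ∈ P.Γ, γ ≠ 1 → γ ≠ -1 → 2 * Real.cosh Λ ≤ |tr γ| := fun γ hγ h1 h2 => by
    refine abs_tr_of_disp h0 fun z => not_lt.1 fun h3 => ?_
    rcases h γ hγ z h3.le with h4 | ⟨n, hn, i, h4, h5⟩
    · exact ((pm_one_iff γ).1 h4).elim h1 h2
    · have h6 := le_dist_ex (P.S_unit hn) (i * Λ) z
      rw [h5.act] at h6
      linarith [hi i h4, le_abs_self (i * Λ)]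
  have hS : SS P.Γ Λ = P.S := by
    refine Set.Subset.antisymm (fun n hn => ?_) fun n hn => ⟨P.S_unit hn, ?_⟩
    · obtain ⟨z, hz⟩ := exists_on_wall hn.1
      rcases h _ hn.2 z (by rw [dist_ex_of_wall hn.1 Λ hz, abs_of_pos h0]) with
        h4 | ⟨n', hn', i, h4, h5⟩
      · exact (((pm_one_iff _).1 h4).elim (ex_ne_one hn.1 h0.ne').1 (ex_ne_one hn.1 h0.ne').2).elim
      · have h6 := h5.abs_tr
        rw [tr_ex (P.S_unit hn'), tr_ex hn.1, abs_of_pos (mul_pos two_pos (Real.cosh_pos _)),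
          abs_of_pos (mul_pos two_pos (Real.cosh_pos _))] at h6
        have h7 : i * Λ = Λ := Real.cosh_strictMonoOn.injOn (h0.le.trans (hi i h4)) h0.le
          (mul_left_cancel₀ two_ne_zero h6)
        rw [h7] at h5
        exact ex_inj (P.S_unit hn') hn.1 h0.ne' h5 ▸ hn'
    · obtain ⟨k, hk, a, rfl⟩ := hn
      obtain ⟨g, rfl⟩ := ad_surj k
      have h1 : ex Λ (P.ν a) ∈ P.Γ := P.mem_Γ.2 (P.prodS_per hΛ a ▸ P.prodS_mem a _)
      rw [ad_smul, ← ex_conj]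
      exact P.Γ.mul_mem (P.Γ.mul_mem (P.mem_Γ.2 hk) h1) (P.Γ.inv_mem (P.mem_Γ.2 hk))
  obtain ⟨a, -⟩ := P.sect 0
  refine ⟨⟨P.neg_one_mem, P.fin, P.coc, fun γ hγ h1 h2 => lt_of_lt_of_le ?_ (htr γ hγ h1 h2)⟩,
    ⟨h0, htr, _, hS.ge ⟨1, P.Γb.one_mem, a, rfl⟩⟩, hS⟩
  linarith [Real.one_lt_cosh.2 h0.ne']

end Poly

end

end Pool.Agent.P.MP_d39174_gt

end

section
/-! The surface is critical. -/

namespace Pool.Agent.P.MP_d39174_gt

open UpperHalfPlane MatrixGroups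

noncomputable section

open Equiv

namespace Poly

variable {Vx H : Type} {G : SimpleGraph Vx} {C : Cmb G H} (P : Poly C)

lemma t_mem (h : H) : P.t h ∈ P.Γ := P.mem_Γ.2 (P.τ_mem h)

/-- A cocycle descends to `PSL(2, ℝ)`. -/
lemma CritB_desc {u : SL(2, ℝ) → V} (hu : Coc P.Γ u) : ∃ w : PS → V,
    (∀ γ ∈ P.Γ, w (ad γ) = u γ) ∧ ∀ k ∈ P.Γb, ∀ k' ∈ P.Γb, w (k * k') = w k + k • w k' := by
  choose s hs using ad_surj
  have h1 : ∀ γ ∈ P.Γ, u (s (ad γ)) = u γ := fun γ hγ =>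
    hu.pm P.neg_one_mem hγ ((ad_eq_iff _ _).1 (hs _).symm)
  refine ⟨fun k => u (s k), h1, fun k hk k' hk' => ?_⟩
  obtain ⟨γ, rfl⟩ := ad_surj k
  obtain ⟨δ, rfl⟩ := ad_surj k'
  have h2 := P.mem_Γ.2 hk
  have h3 := P.mem_Γ.2 hk'
  simp only [← map_mul]
  rw [h1 _ (mul_mem h2 h3), h1 _ h2, h1 _ h3, hu _ h2 _ h3, ad_smul]

lemma CritB_add (x y z : V) : B (x + y) z = B x z + B y z := by
  simp only [B, V.add_a, V.add_b, V.add_c]
  ring

lemma CritB_neg (x z : V) : B (-x) z = -B x z := by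
  simp only [B, V.neg_a, V.neg_b, V.neg_c]
  ring

lemma CritB_sub (x y z : V) (t : ℝ) : B x (y - t • z) = B x y - t * B x z := by
  simp only [B, V.sub_a, V.sub_b, V.sub_c, V.smul_a, V.smul_b, V.smul_c]
  ring

lemma CritB_one {w : PS → V} (hw : ∀ k ∈ P.Γb, ∀ k' ∈ P.Γb, w (k * k') = w k + k • w k') :
    w 1 = 0 := by
  have h := hw 1 (one_mem _) 1 (one_mem _)
  rw [mul_one, one_smul] at h
  exact left_eq_add.1 h

lemma CritB_y_ς (h : H) (i : ℕ) : P.y ((C.ς ^ i) h) = P.y h := by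
  induction i with
  | zero => rfl
  | succ i ih => rw [pow_succ', Perm.mul_apply, ← ih, y, y, C.lab_ς]

/-- The sum over all corners vanishes. -/
theorem corner_sum [Fintype H] {u : SL(2, ℝ) → V} (hu : Coc P.Γ u) :
    ∑ k, P.y k * B (u (P.t (C.f k))) (P.ν k) = 0 := by
  obtain ⟨w, h1, hw⟩ := P.CritB_desc hu
  have h0 : ∀ k, u (P.t k) = w (P.τ k) := fun k => (h1 _ (P.t_mem k)).symm
  simp only [h0]
  let A : H → ℝ := fun k => B (w (P.τ k)) o0
  let Q : H → ℝ := fun k => P.y k * B (w (P.τ k)) (P.ν k)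
  let S : H → ℝ := fun k => P.y (C.f k) * B (w (P.τ k)) (P.ν (C.f k))
  have hα : ∀ k, P.τ k • w (P.τ (C.α k)) = -w (P.τ k) := fun k => by
    have h := hw _ (P.τ_mem k) _ (P.τ_mem (C.α k))
    rw [P.τ_α, mul_inv_cancel, P.CritB_one hw, ← P.τ_α] at h
    exact eq_neg_of_add_eq_zero_right h.symm
  have h2 : ∀ j, P.y j * B (w (P.τ (C.f j))) (P.ν j) = -S ((C.α * C.f) j) := fun j => by
    have e₀ : C.f⁻¹ (C.f j) = j := C.f.symm_apply_apply j
    have e : P.y (C.f (C.α (C.f j))) = P.y j := by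
      rw [y, y, C.lab_f_α, e₀]
    simp only [S, Perm.mul_apply]
    rw [← PS.B_smul (P.τ (C.f j)) (w (P.τ (C.α (C.f j)))), hα, P.τ_f, e₀, e, CritB_neg]
    ring
  have h3 : ∀ s, A (C.f s) - 2 * Q (C.f s) + A (C.ς s) =
      A s - 2 * S s + (A ((C.f⁻¹ * C.α) s) - 2 * S ((C.f⁻¹ * C.α) s) -
        2 * Q ((C.f⁻¹ * C.α) s)) := fun s => by
    have e := congrArg (fun k => B (w k) (P.τ (C.f s) • o0)) (P.τ_vertex s)
    have e₁ : P.y (C.f⁻¹ (C.α s)) = P.y (C.f s) := by rw [y, y, C.lab_f_inv_α]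
    have e₂ : (P.τ s)⁻¹ • P.τ (C.f s) • o0 =
        o0 - (2 * P.y (C.α s)) • P.ν (C.α s) - (2 * P.y (C.f s)) • P.ν (C.f⁻¹ (C.α s)) := by
      rw [P.τ_o0, PS.smul_sub, PS.smul_real, ← P.τ_f_inv s, inv_smul_smul, ← P.τ_α, P.τ_o0]
    rw [hw _ (P.τ_mem _) _ (P.τ_mem _), hw _ (P.τ_mem _) _ (P.τ_mem _), CritB_add, CritB_add,
      PS.B_smul, PS.B_left, e₂, P.τ_o0] at e
    simp only [CritB_sub] at e
    have e₃ : C.f (C.f⁻¹ (C.α s)) = C.α s := C.f.apply_symm_apply _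
    simp only [A, Q, S, Perm.mul_apply, e₃, e₁]
    linear_combination e
  have h4 := Finset.sum_congr (s₁ := Finset.univ) rfl fun s _ => h3 s
  simp only [Finset.sum_add_distrib, Finset.sum_sub_distrib, ← Finset.mul_sum] at h4
  rw [Equiv.sum_comp C.f A, Equiv.sum_comp C.f Q, Equiv.sum_comp C.ς A,
    Equiv.sum_comp (C.f⁻¹ * C.α) A, Equiv.sum_comp (C.f⁻¹ * C.α) S,
    Equiv.sum_comp (C.f⁻¹ * C.α) Q] at h4
  simp only [h2]
  rw [Finset.sum_neg_distrib, Equiv.sum_comp (C.α * C.f) S]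
  linarith

/-- The differential of the length of a curve as a sum over its arcs. -/
theorem curve_sum {Λ : ℝ} (hΛ : P.Len Λ) {u : SL(2, ℝ) → V} (hu : Coc P.Γ u) (h : H) :
    B (u (ex Λ (P.ν h))) (P.ν h) =
      ∑ i ∈ Finset.range (C.per h), B (u (P.t (C.f ((C.ς ^ i) h)))) (P.ν ((C.ς ^ i) h)) := by
  obtain ⟨w, h1, hw⟩ := P.CritB_desc hu
  have h0 : ∀ k, u (P.t k) = w (P.τ k) := fun k => (h1 _ (P.t_mem k)).symm
  have h2 : ∀ n, B (w (P.prodS h n)) (P.ν h) =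
      ∑ i ∈ Finset.range n, B (w (P.τ (C.f ((C.ς ^ i) h)))) (P.ν ((C.ς ^ i) h)) := fun n => by
    induction n with
    | zero => simp [prodS, P.CritB_one hw, B]
    | succ n ih =>
      rw [Finset.sum_range_succ, ← ih, prodS, hw _ (P.prodS_mem h n) _ (P.τ_mem _), CritB_add,
        ← PS.B_smul (P.prodS h n) _ (P.ν ((C.ς ^ n) h)), P.prodS_ν]
  simp only [h0]
  rw [← h2, P.prodS_per hΛ, h1 _ (P.mem_Γ.2 (P.prodS_per hΛ h ▸ P.prodS_mem h _))]

theorem critV [Finite Vx] [Finite H] {Λ : ℝ} (hΛ : P.Len Λ) (e : SS P.Γ Λ = P.S) :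
    CritV P.Γ Λ := by
  classical
  have := Fintype.ofFinite Vx
  have := Fintype.ofFinite H
  choose b hb using C.surj
  have h1 : ∀ h, P.ν h ∈ SS P.Γ Λ := fun h => e ▸ ⟨1, one_mem _, h, (one_smul _ _).symm⟩
  have h2 : ∀ h, 0 < P.y h / C.per h := fun h =>
    div_pos (P.y_pos h) (Nat.cast_pos.2 (C.per_pos h))
  refine ⟨Finset.univ.image fun v => P.ν (b v), fun n hn => ?_, fun n hn => ?_,
    fun n => ∑ h, if P.ν (b (C.lab h)) = n then P.y h / C.per h else 0, fun n hn => ?_,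
    fun u hu => ?_⟩
  · obtain ⟨v, -, rfl⟩ := Finset.mem_image.1 hn
    exact h1 _
  · rw [e] at hn
    obtain ⟨k, hk, h, rfl⟩ := hn
    obtain ⟨γ, rfl⟩ := ad_surj k
    refine ⟨P.ν (b (C.lab h)), ⟨Finset.mem_image_of_mem _ (Finset.mem_univ _),
      (P.eqw_of_lab (hb _)).trans ⟨γ, P.mem_Γ.2 hk, .inl rfl⟩⟩, fun m hm => ?_⟩
    obtain ⟨hm, g, hg, e'⟩ := hm
    obtain ⟨v, -, rfl⟩ := Finset.mem_image.1 hm
    rw [P.lab_eq hk (P.mem_Γ.1 hg) e', hb]
  · obtain ⟨v, -, rfl⟩ := Finset.mem_image.1 hn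
    refine Finset.sum_pos' (fun h _ => ?_) ⟨b v, Finset.mem_univ _, ?_⟩
    · split_ifs
      · exact (h2 h).le
      · exact le_rfl
    · rw [hb, if_pos rfl]
      exact h2 _
  · simp only [Finset.sum_mul]
    rw [Finset.sum_comm]
    refine Eq.trans (Finset.sum_congr rfl fun h _ => ?_) ((C.sum_avg _).trans (P.corner_sum hu))
    simp only [ite_mul, zero_mul, CritB_y_ς]
    rw [Finset.sum_ite_eq, if_pos (Finset.mem_image_of_mem _ (Finset.mem_univ _)),
      ← hu.B_eqw (h1 _) (P.eqw_of_lab (hb _)), P.curve_sum hΛ hu, ← Finset.mul_sum]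
    ring

end Poly

end

end Pool.Agent.P.MP_d39174_gt

end

section
/-! Trigonometry of the polygon. -/

namespace Pool.Agent.P.MP_d39174_gt

open UpperHalfPlane MatrixGroups

noncomputable section

/-- Unit direction at the base point. -/
def dir (θ : ℝ) : V := ⟨Real.cos θ, -Real.sin θ, -Real.sin θ⟩

/-- Inward normal of the wall at height `x` in direction `θ`. -/
def nrm (x θ : ℝ) : V := -x • o0 - √(1 + x ^ 2) • dir θ

lemma B_nrm_o0 (x θ : ℝ) : B (nrm x θ) o0 = x := by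
  simp only [B, nrm, dir, o0, V.sub_a, V.sub_b, V.sub_c, V.smul_a, V.smul_b, V.smul_c]
  ring

lemma B_nrm (x y θ η : ℝ) :
    B (nrm x θ) (nrm y η) = -(x * y) + √(1 + x ^ 2) * √(1 + y ^ 2) * Real.cos (η - θ) := by
  simp only [B, nrm, dir, o0, V.sub_a, V.sub_b, V.sub_c, V.smul_a, V.smul_b, V.smul_c,
    Real.cos_sub]
  ring

lemma det3_nrm (x y θ η : ℝ) :
    det3 o0 (nrm x θ) (nrm y η) = √(1 + x ^ 2) * √(1 + y ^ 2) * Real.sin (η - θ) := by
  simp only [det3, cr, B, nrm, dir, o0, V.sub_a, V.sub_b, V.sub_c, V.smul_a, V.smul_b, V.smul_c,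
    Real.sin_sub]
  ring

lemma ang_comm (x y : ℝ) : ang x y = ang y x := by
  rw [ang, ang, mul_comm x, mul_comm (√(1 + x ^ 2))]

lemma ExPoly1_c (x : ℝ) :
    0 < √(1 + x ^ 2) ∧ √(1 + x ^ 2) ^ 2 = 1 + x ^ 2 ∧ x < √(1 + x ^ 2) :=
  ⟨Real.sqrt_pos.2 (by positivity), Real.sq_sqrt (by positivity),
    Real.lt_sqrt_of_sq_lt (lt_one_add _)⟩

lemma ExPoly1_q {x y : ℝ} (hx : 0 < x) (hy : 0 < y) :
    0 < x * y / (√(1 + x ^ 2) * √(1 + y ^ 2)) ∧ x * y / (√(1 + x ^ 2) * √(1 + y ^ 2)) < 1 := by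
  obtain ⟨a1, -, a3⟩ := ExPoly1_c x
  obtain ⟨b1, -, b3⟩ := ExPoly1_c y
  exact ⟨by positivity, (div_lt_one (by positivity)).2 (mul_lt_mul'' a3 b3 hx.le hy.le)⟩

lemma cos_ang {x y : ℝ} (hx : 0 < x) (hy : 0 < y) :
    √(1 + x ^ 2) * √(1 + y ^ 2) * Real.cos (ang x y) = x * y := by
  obtain ⟨h1, h2⟩ := ExPoly1_q hx hy
  rw [ang, Real.cos_arccos (by linarith) h2.le,
    mul_div_cancel₀ _ (mul_pos (ExPoly1_c x).1 (ExPoly1_c y).1).ne']

lemma sin_ang {x y : ℝ} (hx : 0 < x) (hy : 0 < y) :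
    √(1 + x ^ 2) * √(1 + y ^ 2) * Real.sin (ang x y) = √(1 + x ^ 2 + y ^ 2) := by
  obtain ⟨a1, a2, -⟩ := ExPoly1_c x
  obtain ⟨b1, b2, -⟩ := ExPoly1_c y
  have h0 : 0 ≤ Real.sin (ang x y) :=
    Real.sin_nonneg_of_nonneg_of_le_pi (Real.arccos_nonneg _) (Real.arccos_le_pi _)
  have h1 := cos_ang hx hy
  have h2 := Real.sin_sq_add_cos_sq (ang x y)
  have e : 1 + x ^ 2 + y ^ 2 = (√(1 + x ^ 2) * √(1 + y ^ 2) * Real.sin (ang x y)) ^ 2 := by
    generalize √(1 + x ^ 2) = c at *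
    generalize √(1 + y ^ 2) = d at *
    linear_combination (c * d * Real.cos (ang x y) + x * y) * h1 - c ^ 2 * d ^ 2 * h2 -
      d ^ 2 * a2 - (1 + x ^ 2) * b2
  rw [e, Real.sqrt_sq (by positivity)]

lemma ang_pos {x y : ℝ} (hx : 0 < x) (hy : 0 < y) : 0 < ang x y ∧ ang x y < Real.pi / 2 :=
  ⟨Real.arccos_pos.2 (ExPoly1_q hx hy).2, Real.arccos_lt_pi_div_two.2 (ExPoly1_q hx hy).1⟩

lemma le_ang {x y : ℝ} (hx : 0 < x) (hy : 0 < y) : 1 / √(1 + x ^ 2) ≤ ang x y := by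
  obtain ⟨a1, -, -⟩ := ExPoly1_c x
  obtain ⟨b1, -, -⟩ := ExPoly1_c y
  refine le_trans ?_ (Real.sin_le (ang_pos hx hy).1.le)
  have h1 : √(1 + y ^ 2) ≤ √(1 + x ^ 2 + y ^ 2) := Real.sqrt_le_sqrt (by nlinarith)
  rw [← sin_ang hx hy] at h1
  rw [div_le_iff₀ a1]
  refine le_of_mul_le_mul_left ?_ b1
  linarith

lemma ang_le {x y a : ℝ} (ha : 0 < a) (hx : a ≤ x) (hy : a ≤ y) : ang x y ≤ Real.pi / a := by
  have hx0 := ha.trans_le hx
  have hy0 := ha.trans_le hy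
  obtain ⟨a1, a2, a3⟩ := ExPoly1_c x
  obtain ⟨b1, b2, b3⟩ := ExPoly1_c y
  obtain ⟨p1, p2⟩ := ang_pos hx0 hy0
  have h1 : √(1 + x ^ 2 + y ^ 2) ≤ √(1 + x ^ 2) + √(1 + y ^ 2) :=
    Real.sqrt_le_iff.2 ⟨by positivity, by nlinarith [mul_pos a1 b1]⟩
  rw [← sin_ang hx0 hy0] at h1
  have h2 : a * Real.sin (ang x y) ≤ 2 := by
    refine le_of_mul_le_mul_left ?_ (mul_pos a1 b1)
    nlinarith [mul_le_mul_of_nonneg_left h1 ha.le, mul_le_mul_of_nonneg_left (hx.trans a3.le) b1.le,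
      mul_le_mul_of_nonneg_left (hy.trans b3.le) a1.le]
  have h3 := mul_le_mul_of_nonneg_left (Real.mul_le_sin p1.le p2.le) ha.le
  rw [le_div_iff₀ ha]
  have h4 : a * (2 / Real.pi * ang x y) = 2 * (ang x y * a / Real.pi) := by ring
  exact (div_le_one Real.pi_pos).1 (by linarith)

lemma ExPoly1_β {x : ℝ} (hx : 0 < x) : ∃ β, 0 ≤ β ∧ √(1 + x ^ 2) * Real.cos β = x ∧
    √(1 + x ^ 2) * Real.sin β = 1 ∧ ∀ z, 0 < z → β < ang x z := by
  obtain ⟨a1, a2, a3⟩ := ExPoly1_c x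
  have h1 : x / √(1 + x ^ 2) ≤ 1 := (div_le_one a1).2 a3.le
  have h2 : 0 < x / √(1 + x ^ 2) := div_pos hx a1
  have h3 : √(1 + x ^ 2) * Real.cos (Real.arccos (x / √(1 + x ^ 2))) = x := by
    rw [Real.cos_arccos (by linarith) h1, mul_div_cancel₀ _ a1.ne']
  refine ⟨_, Real.arccos_nonneg _, h3, ?_, fun z hz => ?_⟩
  · have h0 := Real.sin_nonneg_of_nonneg_of_le_pi (Real.arccos_nonneg (x / √(1 + x ^ 2)))
      (Real.arccos_le_pi _)
    have h4 := Real.sin_sq_add_cos_sq (Real.arccos (x / √(1 + x ^ 2)))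
    refine (pow_left_inj₀ (mul_nonneg a1.le h0) zero_le_one two_ne_zero).1 ?_
    generalize Real.arccos (x / √(1 + x ^ 2)) = β at *
    generalize √(1 + x ^ 2) = c at *
    linear_combination c ^ 2 * h4 - (c * Real.cos β + x) * h3 + a2
  · obtain ⟨b1, -, b3⟩ := ExPoly1_c z
    refine Real.arccos_lt_arccos (by linarith [(ExPoly1_q hx hz).1]) ?_ h1
    rw [mul_div_mul_comm]
    exact mul_lt_of_lt_one_right h2 ((div_lt_one b1).2 b3)

/-- Walls in directions that differ by at least two angles are disjoint. -/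
lemma far_nrm {x y x₁ y₁ x₂ y₂ θ η : ℝ} (hx : 0 < x) (hy : 0 < y) (h1 : 0 < x₁) (h2 : 0 < y₁)
    (h3 : 0 < x₂) (h4 : 0 < y₂) (e1 : ang x x₁ + ang y₁ y ≤ η - θ)
    (e2 : ang x x₂ + ang y₂ y ≤ 2 * Real.pi - (η - θ)) : B (nrm x θ) (nrm y η) < -1 := by
  obtain ⟨α, a0, a1, a2, a3⟩ := ExPoly1_β hx
  obtain ⟨β, b0, b1, b2, b3⟩ := ExPoly1_β hy
  have l1 := a3 _ h1
  have l2 := a3 _ h3
  have l3 := b3 _ h2
  have l4 := b3 _ h4
  rw [ang_comm] at l3 l4
  have h : Real.cos (η - θ) < Real.cos (α + β) := by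
    rcases le_total (η - θ) Real.pi with h | h
    · exact Real.cos_lt_cos_of_nonneg_of_le_pi (by linarith) h (by linarith)
    · rw [← Real.cos_two_pi_sub]
      exact Real.cos_lt_cos_of_nonneg_of_le_pi (by linarith) (by linarith) (by linarith)
  have h' := mul_lt_mul_of_pos_left h (mul_pos (ExPoly1_c x).1 (ExPoly1_c y).1)
  have e : √(1 + x ^ 2) * √(1 + y ^ 2) * Real.cos (α + β) = x * y - 1 := by
    rw [Real.cos_add]
    generalize √(1 + x ^ 2) = c at *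
    generalize √(1 + y ^ 2) = d at *
    linear_combination d * Real.cos β * a1 + x * b1 - d * Real.sin β * a2 - b2
  rw [B_nrm]
  linarith

/-- Close walls have close directions. -/
lemma near_nrm (κ D : ℝ) (hκ : 1 ≤ κ) : ∃ c : ℝ, ∀ x y θ η : ℝ, 1 ≤ x → x ≤ κ * y → y ≤ κ * x →
    0 ≤ η - θ → η - θ ≤ Real.pi → -B (nrm x θ) (nrm y η) ≤ D → (η - θ) * x ≤ c := by
  refine ⟨√(κ * (Real.pi ^ 2 / 2) * (D + 2 * κ)), fun x y θ η hx h1 h2 h3 h4 h5 => ?_⟩
  have hy : 0 < y := (mul_pos_iff_of_pos_left (by linarith : 0 < κ)).1 (by linarith)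
  obtain ⟨a1, a2, a3⟩ := ExPoly1_c x
  obtain ⟨b1, b2, b3⟩ := ExPoly1_c y
  have hc := Real.cos_le_one_sub_mul_cos_sq (x := η - θ) (by rwa [abs_of_nonneg h3])
  rw [B_nrm] at h5
  refine Real.le_sqrt_of_sq_le ?_
  generalize √(1 + x ^ 2) = c at *
  generalize √(1 + y ^ 2) = d at *
  generalize η - θ = Δ at *
  have hx0 : 0 < x := by linarith
  have e1 : x * x ≤ κ * y * x := mul_le_mul_of_nonneg_right h1 hx0.le
  have e2 : y * y ≤ κ * x * y := mul_le_mul_of_nonneg_right h2 hy.le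
  have e3 : 1 ≤ x * x := one_le_mul_of_one_le_of_one_le hx hx
  have e4 : c * d ≤ x * y + 2 * κ := by
    refine (pow_le_pow_iff_left₀ (by positivity) (by positivity) two_ne_zero).1 ?_
    rw [mul_pow, a2, b2]
    nlinarith [sq_nonneg κ]
  have e5 : c * d * (2 / Real.pi ^ 2 * Δ ^ 2) ≤ D + 2 * κ := by
    nlinarith [mul_le_mul_of_nonneg_left hc (mul_pos a1 b1).le]
  have e6 : x * x ≤ κ * (c * d) := by
    nlinarith [mul_le_mul_of_nonneg_left (mul_lt_mul'' a3 b3 hx0.le hy.le).le (zero_le_one.trans hκ)]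
  have hp := Real.pi_pos
  have e7 := mul_le_mul_of_nonneg_left e5 (by positivity : 0 ≤ κ * (Real.pi ^ 2 / 2))
  have e8 : κ * (Real.pi ^ 2 / 2) * (c * d * (2 / Real.pi ^ 2 * Δ ^ 2)) = κ * (c * d) * Δ ^ 2 := by
    field_simp
  nlinarith [mul_le_mul_of_nonneg_right e6 (sq_nonneg Δ)]

/-- Vectors in a sector. -/
lemma sect_nrm {x y θ η ξ : ℝ} (h1 : θ ≤ ξ) (h2 : ξ ≤ η) (h3 : θ < η) (h4 : η - θ < Real.pi)
    (a r : ℝ) (hr : 0 ≤ r) : ∃ κ s s' : ℝ, 0 ≤ s ∧ 0 ≤ s' ∧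
      a • o0 + r • dir ξ = κ • o0 - s • nrm x θ - s' • nrm y η := by
  have a1 := (ExPoly1_c x).1
  have b1 := (ExPoly1_c y).1
  have s0 : 0 < Real.sin (η - θ) := Real.sin_pos_of_pos_of_lt_pi (by linarith) h4
  have s1 : 0 ≤ Real.sin (η - ξ) :=
    Real.sin_nonneg_of_nonneg_of_le_pi (by linarith) (by linarith)
  have s2 : 0 ≤ Real.sin (ξ - θ) :=
    Real.sin_nonneg_of_nonneg_of_le_pi (by linarith) (by linarith)
  have e1 : Real.sin (η - θ) * Real.cos ξ =
      Real.sin (η - ξ) * Real.cos θ + Real.sin (ξ - θ) * Real.cos η := by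
    simp only [Real.sin_sub]
    ring
  have e2 : Real.sin (η - θ) * Real.sin ξ =
      Real.sin (η - ξ) * Real.sin θ + Real.sin (ξ - θ) * Real.sin η := by
    simp only [Real.sin_sub]
    ring
  obtain ⟨s, hs, es⟩ : ∃ s, 0 ≤ s ∧ Real.sin (η - θ) * (s * √(1 + x ^ 2)) = r * Real.sin (η - ξ) :=
    ⟨r * Real.sin (η - ξ) / (Real.sin (η - θ) * √(1 + x ^ 2)), by positivity, by field_simp⟩
  obtain ⟨t, ht, et⟩ : ∃ s, 0 ≤ s ∧ Real.sin (η - θ) * (s * √(1 + y ^ 2)) = r * Real.sin (ξ - θ) :=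
    ⟨r * Real.sin (ξ - θ) / (Real.sin (η - θ) * √(1 + y ^ 2)), by positivity, by field_simp⟩
  have f1 : r * Real.cos ξ = s * √(1 + x ^ 2) * Real.cos θ + t * √(1 + y ^ 2) * Real.cos η :=
    mul_left_cancel₀ s0.ne' (by linear_combination r * e1 - Real.cos θ * es - Real.cos η * et)
  have f2 : r * Real.sin ξ = s * √(1 + x ^ 2) * Real.sin θ + t * √(1 + y ^ 2) * Real.sin η :=
    mul_left_cancel₀ s0.ne' (by linear_combination r * e2 - Real.sin θ * es - Real.sin η * et)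
  refine ⟨a - s * x - t * y, s, t, hs, ht, ?_⟩
  ext <;> simp only [nrm, dir, o0, V.sub_a, V.sub_b, V.sub_c, V.smul_a, V.smul_b, V.smul_c,
    V.add_a, V.add_b, V.add_c]
  · linear_combination f1
  · linear_combination -f2
  · linear_combination -f2

lemma exists_dir (p : V) (θ : ℝ) : ∃ a r ξ : ℝ, 0 ≤ r ∧ θ ≤ ξ ∧ ξ ≤ θ + 2 * Real.pi ∧
    p = a • o0 + r • dir ξ := by
  let z : ℂ := ⟨p.a, -(p.b + p.c) / 2⟩
  have h1 : ‖z‖ * Real.cos z.arg = p.a := Complex.norm_mul_cos_arg z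
  have h2 : ‖z‖ * Real.sin z.arg = -(p.b + p.c) / 2 := Complex.norm_mul_sin_arg z
  obtain ⟨m1, m2⟩ := toIcoMod_mem_Ico Real.two_pi_pos θ z.arg
  refine ⟨(p.b - p.c) / 2, ‖z‖, _, norm_nonneg _, m1, m2.le, ?_⟩
  ext <;> simp only [dir, o0, V.smul_a, V.smul_b, V.smul_c, V.add_a, V.add_b, V.add_c, toIcoMod,
    zsmul_eq_mul, Real.cos_sub_int_mul_two_pi, Real.sin_sub_int_mul_two_pi]
  · linear_combination -h1
  · linear_combination h2
  · linear_combination h2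

end

end Pool.Agent.P.MP_d39174_gt

end

section
/-! Existence of the polygon. -/

namespace Pool.Agent.P.MP_d39174_gt

open UpperHalfPlane MatrixGroups

noncomputable section

lemma ExPoly_cyc {H : Type} [Fintype H] {f : Equiv.Perm H} (hf : ∀ h k, f.SameCycle h k) (h : H) :
    ∃ n, 0 < n ∧ (f ^ n) h = h ∧ (∀ i < n, ∀ j < n, (f ^ i) h = (f ^ j) h → i = j) ∧
      (∀ k, ∃ j < n, (f ^ j) h = k) ∧
      ∀ a : H → ℝ, ∑ i ∈ Finset.range n, a ((f ^ i) h) = ∑ k, a k := by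
  have h0 : 0 < Function.minimalPeriod f h :=
    Function.minimalPeriod_pos_of_mem_periodicPts (f.injective.mem_periodicPts h)
  have h1 : ∀ i < Function.minimalPeriod f h, ∀ j < Function.minimalPeriod f h,
      (f ^ i) h = (f ^ j) h → i = j := fun i hi j hj e =>
    Function.iterate_injOn_Iio_minimalPeriod hi hj e
  have h2 : ∀ k, ∃ j < Function.minimalPeriod f h, (f ^ j) h = k := fun k => by
    obtain ⟨i, -, e⟩ := (hf h k).exists_pow_eq'
    exact ⟨_, Nat.mod_lt i h0, (Function.iterate_mod_minimalPeriod_eq (f := f)).trans e⟩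
  refine ⟨_, h0, Function.iterate_minimalPeriod (f := f), h1, h2, fun a => ?_⟩
  refine Finset.sum_bij (fun i _ => (f ^ i) h) (fun _ _ => Finset.mem_univ _)
    (fun i hi j hj e => h1 i (Finset.mem_range.1 hi) j (Finset.mem_range.1 hj) e)
    (fun k _ => ?_) fun _ _ => rfl
  obtain ⟨j, hj, e⟩ := h2 k
  exact ⟨j, Finset.mem_range.2 hj, e⟩

lemma ExPoly_succ {H : Type} (f : Equiv.Perm H) (i : ℕ) (h : H) :
    (f ^ (i + 1)) h = f ((f ^ i) h) := by rw [pow_succ', Equiv.Perm.mul_apply]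

lemma ExPoly_theta {H : Type} [Fintype H] [Nonempty H] {f : Equiv.Perm H}
    (hf : ∀ h k, f.SameCycle h k) (a : H → ℝ) : ∃ θ : H → ℝ, ∀ h (j : ℕ), ∃ m : ℤ,
      θ ((f ^ j) h) = θ h + ∑ i ∈ Finset.range j, a ((f ^ i) h) + m * ∑ k, a k := by
  obtain ⟨h0⟩ := ‹Nonempty H›
  obtain ⟨n, hn, h1, h2, h3, h4⟩ := ExPoly_cyc hf h0
  choose ι hι e using h3
  have step : ∀ h, ∃ m : ℤ, ∑ i ∈ Finset.range (ι (f h)), a ((f ^ i) h0) =
      ∑ i ∈ Finset.range (ι h), a ((f ^ i) h0) + a h + m * ∑ k, a k := by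
    intro h
    have e1 : (f ^ (ι h + 1)) h0 = f h := by rw [ExPoly_succ, e]
    have e2 := Finset.sum_range_succ (fun i => a ((f ^ i) h0)) (ι h)
    rw [e] at e2
    rcases (Nat.succ_le_of_lt (hι h)).lt_or_eq with hl | hl
    · refine ⟨0, ?_⟩
      rw [h2 _ (hι (f h)) _ hl ((e _).trans e1.symm), e2]
      simp
    · have hl' : ι h + 1 = n := hl
      rw [hl'] at e1 e2
      refine ⟨-1, ?_⟩
      rw [h2 _ (hι (f h)) 0 hn ((e _).trans (e1.symm.trans h1)), ← e2, h4]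
      simp
  refine ⟨fun h => ∑ i ∈ Finset.range (ι h), a ((f ^ i) h0), fun h j => ?_⟩
  induction j with
  | zero => exact ⟨0, by simp⟩
  | succ j ih =>
    obtain ⟨m, hm⟩ := ih
    obtain ⟨m', hm'⟩ := step ((f ^ j) h)
    refine ⟨m + m', ?_⟩
    rw [ExPoly_succ, Finset.sum_range_succ]
    push_cast
    linear_combination hm + hm'

lemma ExPoly_between {g : ℕ → ℝ} {ξ : ℝ} (h0 : g 0 ≤ ξ) {n : ℕ} (hn : 0 < n) (h1 : ξ ≤ g n) :
    ∃ i, g i ≤ ξ ∧ ξ ≤ g (i + 1) := by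
  induction n with
  | zero => exact absurd hn (lt_irrefl _)
  | succ n ih =>
    rcases le_total (g n) ξ with h | h
    · exact ⟨n, h, h1⟩
    · rcases Nat.eq_zero_or_pos n with rfl | hn'
      · exact ⟨0, h0, h1⟩
      · exact ih hn' h

lemma ExPoly_per (x θ : ℝ) (m : ℤ) : nrm x (θ + m * (2 * Real.pi)) = nrm x θ := by
  simp only [nrm, dir, Real.cos_add_int_mul_two_pi, Real.sin_add_int_mul_two_pi]

/-- The polygon exists when the angles add up to `2 π`. -/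
theorem exists_poly (κ D : ℝ) (hκ : 1 ≤ κ) : ∃ K : ℕ, ∀ (Vx H : Type) [Fintype H] [Nonempty H]
    (G : SimpleGraph Vx) (C : Cmb G H) (x : Vx → ℝ), (∀ v, 1 ≤ x v) → (∀ v w, x v ≤ κ * x w) →
    ∑ h, ang (x (C.lab h)) (x (C.lab (C.f h))) = 2 * Real.pi →
    ∃ P : Poly C, P.x = x ∧ P.Near D K := by
  obtain ⟨c, hc⟩ := near_nrm κ D hκ
  refine ⟨⌈2 * κ * c⌉₊, fun Vx H _ _ G C x h1 hr hs => ?_⟩
  have hp : ∀ v, 0 < x v := fun v => one_pos.trans_le (h1 v)
  have hf : ∀ h k, C.f.SameCycle h k := C.one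
  obtain ⟨a, ha⟩ : ∃ a : H → ℝ, ∀ h, a h = ang (x (C.lab h)) (x (C.lab (C.f h))) := ⟨_, fun _ => rfl⟩
  simp only [← ha] at hs
  have ap : ∀ h, 0 < a h ∧ a h < Real.pi / 2 := fun h => ha h ▸ ang_pos (hp _) (hp _)
  obtain ⟨θ, hθ⟩ := ExPoly_theta hf a
  have hν : ∀ h (j : ℕ), nrm (x (C.lab ((C.f ^ j) h))) (θ ((C.f ^ j) h)) =
      nrm (x (C.lab ((C.f ^ j) h))) (θ h + ∑ i ∈ Finset.range j, a ((C.f ^ i) h)) := by
    intro h j
    obtain ⟨m, hm⟩ := hθ h j
    rw [hm, hs, ExPoly_per]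
  have hν1 : ∀ h, nrm (x (C.lab (C.f h))) (θ (C.f h)) = nrm (x (C.lab (C.f h))) (θ h + a h) :=
    fun h => by simpa using hν h 1
  refine ⟨⟨x, fun h => nrm (x (C.lab h)) (θ h), hp, fun h => ?_, fun h => B_nrm_o0 _ _,
    fun h => ?_, fun h => ?_, fun h k k0 k1 k2 => ?_, fun p => ?_⟩, rfl, fun h k hD => ?_⟩
  · rw [B_nrm, sub_self, Real.cos_zero, mul_one, Real.mul_self_sqrt (by positivity)]
    ring
  · rw [hν1, B_nrm, add_sub_cancel_left, ha, cos_ang (hp _) (hp _), neg_add_cancel]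
  · rw [hν1, det3_nrm, add_sub_cancel_left, ha, sin_ang (hp _) (hp _)]
    exact Real.sqrt_pos.2 (by positivity)
  · obtain ⟨n, hn, e1, -, e3, e4⟩ := ExPoly_cyc hf h
    obtain ⟨j, hj, rfl⟩ := e3 k
    obtain ⟨n, rfl⟩ := Nat.exists_eq_add_one_of_ne_zero hn.ne'
    have j0 : j ≠ 0 := by
      rintro rfl
      exact k0 rfl
    obtain ⟨j, rfl⟩ := Nat.exists_eq_add_one_of_ne_zero j0
    have j1 : j ≠ 0 := by
      rintro rfl
      exact k1 (by simp)
    have j2 : j + 1 ≠ n := by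
      rintro rfl
      exact k2 (e1.symm.trans (ExPoly_succ _ _ _))
    rw [hν]
    refine far_nrm (hp _) (hp _) (hp (C.lab (C.f h))) (hp (C.lab ((C.f ^ j) h)))
      (hp (C.lab ((C.f ^ n) h))) (hp (C.lab (C.f ((C.f ^ (j + 1)) h)))) ?_ ?_
    · rw [add_sub_cancel_left, ← ha, ExPoly_succ, ← ha]
      exact Finset.add_le_sum (f := fun i => a ((C.f ^ i) h)) (fun i _ => (ap _).1.le)
        (Finset.mem_range.2 (Nat.succ_pos j)) (Finset.mem_range.2 (Nat.lt_succ_self j)) j1.symm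
    · have e5 : ang (x (C.lab h)) (x (C.lab ((C.f ^ n) h))) = a ((C.f ^ n) h) := by
        rw [ha, ← ExPoly_succ, e1, ang_comm]
      rw [add_sub_cancel_left, e5, ang_comm, ← ha, ← hs, ← e4,
        ← Finset.sum_Ico_eq_sub _ hj.le]
      exact Finset.add_le_sum (f := fun i => a ((C.f ^ i) h)) (fun i _ => (ap _).1.le)
        (Finset.mem_Ico.2 (by omega)) (Finset.mem_Ico.2 (by omega)) j2.symm
  · obtain ⟨h⟩ := ‹Nonempty H›
    obtain ⟨n, hn, -, -, -, e4⟩ := ExPoly_cyc hf h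
    obtain ⟨b, r, ξ, r0, x0, x1, rfl⟩ := exists_dir p (θ h)
    obtain ⟨i, i0, i1⟩ := ExPoly_between
      (g := fun j => θ h + ∑ i ∈ Finset.range j, a ((C.f ^ i) h)) (ξ := ξ) (by simpa using x0) hn
      (by rwa [e4, hs])
    have e5 := Finset.sum_range_succ (fun i => a ((C.f ^ i) h)) i
    obtain ⟨p1, p2⟩ := ap ((C.f ^ i) h)
    obtain ⟨κ', s, s', s0, s1, e⟩ := sect_nrm (x := x (C.lab ((C.f ^ i) h)))
      (y := x (C.lab ((C.f ^ (i + 1)) h))) i0 i1 (by linarith) (by linarith [Real.pi_pos]) b r r0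
    refine ⟨(C.f ^ i) h, κ', s, s', s0, s1, ?_⟩
    rw [← ExPoly_succ, hν, hν]
    exact e
  · have key : ∀ h (j : ℕ), ∑ i ∈ Finset.range j, a ((C.f ^ i) h) ≤ Real.pi →
        -B (nrm (x (C.lab h)) (θ h)) (nrm (x (C.lab ((C.f ^ j) h))) (θ ((C.f ^ j) h))) ≤ D →
        j ≤ ⌈2 * κ * c⌉₊ := by
      intro h j hπ hD
      rw [hν] at hD
      have k1 := hc _ _ _ _ (h1 _) (hr _ _) (hr _ _) (by
        rw [add_sub_cancel_left]
        exact Finset.sum_nonneg fun i _ => (ap _).1.le) (by rwa [add_sub_cancel_left]) hD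
      rw [add_sub_cancel_left] at k1
      have k0 : 0 < 2 * κ * x (C.lab h) := by
        have := hp (C.lab h)
        positivity
      have k2 : ∀ i ∈ Finset.range j, 1 / (2 * κ * x (C.lab h)) ≤ a ((C.f ^ i) h) := by
        intro i _
        rw [ha]
        refine le_trans (one_div_le_one_div_of_le (by positivity) ?_) (le_ang (hp _) (hp _))
        have k3 := h1 (C.lab ((C.f ^ i) h))
        refine (Real.sqrt_le_iff.2 ⟨by linarith, ?_⟩ : _ ≤ 2 * x (C.lab ((C.f ^ i) h))).trans ?_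
        · nlinarith
        · linarith [hr (C.lab ((C.f ^ i) h)) (C.lab h)]
      have k4 := Finset.card_nsmul_le_sum _ _ _ k2
      rw [Finset.card_range, nsmul_eq_mul, mul_one_div, div_le_iff₀ k0] at k4
      have k5 : (j : ℝ) ≤ 2 * κ * c := by
        nlinarith [mul_le_mul_of_nonneg_left k1 (by linarith : 0 ≤ 2 * κ)]
      exact_mod_cast k5.trans (Nat.le_ceil _)
    obtain ⟨n, -, e1, -, e3, e4⟩ := ExPoly_cyc hf h
    obtain ⟨j, hj, rfl⟩ := e3 k
    rcases le_total (∑ i ∈ Finset.range j, a ((C.f ^ i) h)) Real.pi with hπ | hπ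
    · exact ⟨j, key h j hπ hD, Or.inl rfl⟩
    · obtain ⟨l, rfl⟩ := Nat.exists_eq_add_of_le hj.le
      have e5 : ∀ i, (C.f ^ (j + i)) h = (C.f ^ i) ((C.f ^ j) h) := fun i => by
        rw [add_comm, pow_add, Equiv.Perm.mul_apply]
      have e6 := e4 a
      rw [Finset.sum_range_add, hs] at e6
      simp only [e5] at e6 e1
      refine ⟨l, key _ l (by linarith) ?_, Or.inr e1.symm⟩
      rw [e1, B_comm]
      exact hD

end

end Pool.Agent.P.MP_d39174_gt

end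

section
/-! Existence of heights with equal lengths. -/

namespace Pool.Agent.P.MP_d39174_gt

open UpperHalfPlane MatrixGroups

noncomputable section

/-- Fixed point theorem for bounded continuous maps. -/
lemma exists_fixed {ι : Type} [Fintype ι] {F : (ι → ℝ) → ι → ℝ} (hF : Continuous F) {R : ℝ}
    (hR : ∀ z i, |F z i| ≤ R) : ∃ z, F z = z := by
  let e := Fintype.equivFin ι
  have hb : ∀ z, ‖F (z ∘ e) ∘ e.symm‖ ≤ |R| := fun z =>
    (pi_norm_le_iff_of_nonneg (abs_nonneg R)).2 fun i => (hR _ _).trans (le_abs_self R)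
  obtain ⟨z, hz⟩ := Pool.Agent.P.MP_456758_an.miranda
    (G := fun z => z - max 0 (min 1 (|R| + 1 - ‖z‖)) • (F (z ∘ e) ∘ e.symm)) (by fun_prop)
    (R := |R| + 1) (by positivity) fun z hz => by
      rw [max_eq_left (min_le_of_right_le (sub_nonpos.2 hz)), zero_smul, sub_zero]
  have h1 := sub_eq_zero.1 hz
  have h2 : ‖z‖ ≤ |R| := by
    rw [h1, norm_smul, Real.norm_of_nonneg (le_max_left _ _)]
    exact (mul_le_of_le_one_left (norm_nonneg _) (max_le zero_le_one (min_le_left _ _))).trans (hb z)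
  rw [min_eq_left (by linarith), max_eq_right zero_le_one, one_smul] at h1
  exact ⟨z ∘ e, funext fun i => by simpa using (congrFun h1 (e i)).symm⟩

lemma Tt_pos {x y : ℝ} (hy : 0 < y) : 0 < Tt x y := Real.arsinh_pos_iff.2 (by positivity)

lemma Tt_le {x y : ℝ} (hx : 0 < x) (hy : 0 < y) : Tt x y ≤ Real.arsinh (y / x) :=
  Real.arsinh_le_arsinh.2 (div_le_div_of_nonneg_left hy.le hx
    (Real.le_sqrt_of_sq_le (by linarith)))

lemma le_Tt {x y : ℝ} (hx : 1 ≤ x) (hy : 0 < y) :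
    Real.arsinh (y / x) - 1 / √(1 + x ^ 2) ≤ Tt x y := by
  have h1 : x ≤ √(1 + x ^ 2) := Real.le_sqrt_of_sq_le (by linarith)
  have h2 : √(1 + x ^ 2) ^ 2 = 1 + x ^ 2 := Real.sq_sqrt (by positivity)
  unfold Tt
  generalize √(1 + x ^ 2) = c at h1 h2
  have h3 : 0 < c := by linarith
  have h4 : y / c ≤ √(1 + (y / c) ^ 2) := Real.le_sqrt_of_sq_le (by linarith)
  have h5 : 1 / c ≤ Real.sinh (1 / c) := Real.self_le_sinh_iff.2 (by positivity)
  rw [sub_le_iff_le_add, ← Real.sinh_le_sinh, Real.sinh_arsinh, Real.sinh_add, Real.sinh_arsinh,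
    Real.cosh_arsinh]
  refine le_trans ?_ (add_le_add (le_mul_of_one_le_right (by positivity) (Real.one_le_cosh _))
    (mul_le_mul h4 h5 (by positivity) (by positivity)))
  rw [← mul_one_add, div_eq_mul_one_div y x, div_eq_mul_one_div y c, mul_assoc]
  refine mul_le_mul_of_nonneg_left ?_ hy.le
  rw [div_le_iff₀ (by linarith)]
  field_simp
  nlinarith

lemma Eqn_clamp {a b t d : ℝ} (h : a ≤ b) (e : max a (min b (t + d)) = t) :
    (0 < d → t = b) ∧ (d < 0 → t = a) := by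
  simp only [max_def, min_def] at e
  constructor <;> intro <;> split_ifs at e <;> linarith

variable {Vx : Type} [Fintype Vx] [DecidableEq Vx] {G : SimpleGraph Vx} [DecidableRel G.Adj]

lemma one_le_of_tot (hd : ∀ v, 5 ≤ G.degree v) {x : Vx → ℝ} (hx : ∀ v, 0 < x v)
    (h : ∑ v, ∑ w ∈ G.neighborFinset v, ang (x v) (x w) ≤ Real.pi) (v : Vx) : 1 ≤ x v := by
  have h1 := (Finset.single_le_sum (f := fun v => ∑ w ∈ G.neighborFinset v, ang (x v) (x w))
    (fun v _ => Finset.sum_nonneg fun w _ => (ang_pos (hx v) (hx w)).1.le)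
    (Finset.mem_univ v)).trans h
  have h2 := (Finset.card_nsmul_le_sum _ _ _ fun w _ => le_ang (hx v) (hx w)).trans h1
  have h3 : (5 : ℝ) ≤ G.degree v := by exact_mod_cast hd v
  have h4 : √(1 + x v ^ 2) ^ 2 = 1 + x v ^ 2 := Real.sq_sqrt (by positivity)
  have h5 : 0 < √(1 + x v ^ 2) := by positivity
  rw [SimpleGraph.card_neighborFinset_eq_degree, nsmul_eq_mul, mul_one_div, div_le_iff₀ h5] at h2
  have h6 : 3 / 2 ≤ √(1 + x v ^ 2) := by nlinarith [Real.pi_lt_d2]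
  nlinarith [hx v]

theorem exists_sol (hc : G.Connected) (hd : ∀ v, 5 ≤ G.degree v) :
    ∃ (x : Vx → ℝ) (Λ : ℝ), Sol G x Λ := by
  have := hc.nonempty
  obtain ⟨m, hm⟩ : ∃ m : ℝ, m = Fintype.card Vx := ⟨_, rfl⟩
  obtain ⟨E, hE⟩ : ∃ E : ℝ, E = ∑ v, (G.degree v : ℝ) := ⟨_, rfl⟩
  have m1 : 1 ≤ m := by
    rw [hm]
    exact_mod_cast Fintype.card_pos
  have E0 : 0 ≤ E := hE ▸ Finset.sum_nonneg fun _ _ => Nat.cast_nonneg _
  have K1 : 1 ≤ 2 * Real.sinh m := by linarith [Real.self_le_sinh_iff.2 (zero_le_one.trans m1)]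
  have E1 := le_mul_of_one_le_right E0 (one_le_pow₀ K1 (n := Fintype.card Vx))
  obtain ⟨L, L0, hL⟩ : ∃ L, 0 < L ∧ E * (2 * Real.sinh m) ^ Fintype.card Vx < Real.exp L :=
    ⟨E * (2 * Real.sinh m) ^ Fintype.card Vx + 1, by linarith,
      by linarith [Real.add_one_le_exp (E * (2 * Real.sinh m) ^ Fintype.card Vx + 1)]⟩
  have cT : Continuous fun p : ℝ × ℝ => Tt p.1 p.2 :=
    Real.continuous_arsinh.comp (continuous_snd.div (by fun_prop) fun _ => by positivity)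
  have cA : Continuous fun p : ℝ × ℝ => ang p.1 p.2 := Real.continuous_arccos.comp
    ((continuous_fst.mul continuous_snd).div (by fun_prop) fun _ => by positivity)
  obtain ⟨z, hz⟩ := exists_fixed (ι := Option Vx) (R := L + (m + 1)) (F := fun z i => i.elim
    (max 0 (min (m + 1) (z none + (Real.pi -
      ∑ v, ∑ w ∈ G.neighborFinset v, ang (z (some v)).exp (z (some w)).exp))))
    fun v => max (-L) (min L (z (some v) +
      (∑ w ∈ G.neighborFinset v, Tt (z (some v)).exp (z (some w)).exp - z none))))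
    (continuous_pi fun i => by
      cases i <;> simp only [Option.elim] <;> fun_prop)
    fun z i => by
      cases i <;> exact abs_le.2 ⟨le_max_of_le_left (by linarith),
        max_le (by linarith) (min_le_of_left_le (by linarith))⟩
  obtain ⟨x, hx⟩ : ∃ x : Vx → ℝ, ∀ v, (z (some v)).exp = x v := ⟨_, fun _ => rfl⟩
  have x0 : ∀ v, 0 < x v := fun v => hx v ▸ Real.exp_pos _
  have k1 := congrFun hz none
  have k2 := fun v => congrFun hz (some v)
  simp only [hx, Option.elim] at k1 k2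
  replace k1 := Eqn_clamp (add_nonneg (zero_le_one.trans m1) zero_le_one) k1
  replace k2 := fun v => Eqn_clamp (neg_le_self L0.le) (k2 v)
  have hA : ∀ a, 0 < a → (∀ v, a ≤ x v) →
      (∑ v, ∑ w ∈ G.neighborFinset v, ang (x v) (x w)) * a ≤ E * Real.pi := fun a ha h => by
    rw [← le_div_iff₀ ha, mul_div_assoc, hE, Finset.sum_mul]
    refine Finset.sum_le_sum fun v _ => ?_
    simpa using Finset.sum_le_card_nsmul _ _ _ fun w (_ : w ∈ G.neighborFinset v) =>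
      ang_le ha (h v) (h w)
  have s1 : ∑ v, ∑ w ∈ G.neighborFinset v, ang (x v) (x w) ≤ Real.pi := le_of_not_gt fun h => by
    have := hA _ (Real.exp_pos L) fun v => by
      rw [← hx, (k2 v).1 (by
        rw [k1.2 (sub_neg.2 h), sub_zero]
        exact Finset.sum_pos (fun w _ => Tt_pos (x0 w)) (Finset.card_pos.1
          ((G.card_neighborFinset_eq_degree v).symm ▸ lt_of_lt_of_le (by norm_num) (hd v))))]
    nlinarith [Real.pi_pos, Real.exp_pos L]
  have x1 := one_le_of_tot hd x0 s1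
  have s2 : ∀ v, z none ≤ ∑ w ∈ G.neighborFinset v, Tt (x v) (x w) := fun v => le_of_not_gt fun h => by
    have := x1 v
    rw [← hx, (k2 v).2 (sub_neg.2 h), Real.one_le_exp_iff] at this
    linarith
  have s3 : z none ≤ m := by
    obtain ⟨v, hv⟩ := Finite.exists_max x
    refine (s2 v).trans ((Finset.sum_le_card_nsmul _ _ 1 fun w _ => (Tt_le (x0 v) (x0 w)).trans
      ((Real.arsinh_le_arsinh.2 (((div_le_one (x0 v)).2 (hv w)).trans
        (Real.self_le_sinh_iff.2 zero_le_one))).trans_eq (Real.arsinh_sinh 1))).trans ?_)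
    rw [nsmul_eq_mul, mul_one, hm]
    exact_mod_cast Finset.card_le_univ _
  have s4 := s1.antisymm (le_of_not_gt fun h => by linarith [k1.1 (sub_pos.2 h)])
  have s5 : ∀ v, x v < L.exp → ∑ w ∈ G.neighborFinset v, Tt (x v) (x w) = z none := fun v hv =>
    (le_of_not_gt fun h => hv.ne (by rw [← hx, (k2 v).1 (sub_pos.2 h)])).antisymm (s2 v)
  have s6 : ∀ u v (p : G.Walk u v), x u * (2 * Real.sinh m) ^ p.length < L.exp →
      x v ≤ x u * (2 * Real.sinh m) ^ p.length := fun u v p => by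
    induction p with
    | nil => simp
    | @cons u w v h p ih =>
      intro hu
      have t1 := (Finset.single_le_sum (f := fun w => Tt (x u) (x w)) (fun w _ => (Tt_pos (x0 w)).le)
        ((G.mem_neighborFinset u w).2 h)).trans ((s5 u ((le_mul_of_one_le_right (x0 u).le
          (one_le_pow₀ K1)).trans_lt hu)).trans_le s3)
      have t2 : √(1 + x u ^ 2) ≤ 2 * x u := Real.sqrt_le_iff.2 ⟨by linarith [x1 u], by nlinarith [x1 u]⟩
      rw [Tt, ← Real.sinh_le_sinh, Real.sinh_arsinh, div_le_iff₀ (by positivity)] at t1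
      have t3 : x w * (2 * Real.sinh m) ^ p.length ≤
          x u * (2 * Real.sinh m) ^ (SimpleGraph.Walk.cons h p).length := by
        rw [SimpleGraph.Walk.length_cons, pow_succ', ← mul_assoc]
        exact mul_le_mul_of_nonneg_right (by nlinarith) (by positivity)
      exact (ih (t3.trans_lt hu)).trans t3
  obtain ⟨u, hu⟩ := Finite.exists_min x
  have s7 : x u ≤ E := by
    have := hA _ (x0 u) hu
    rw [s4, mul_comm] at this
    exact le_of_mul_le_mul_right this Real.pi_pos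
  refine ⟨x, z none, x0, fun v => s5 v ?_, s4⟩
  obtain ⟨p, hp⟩ := (hc.preconnected u v).exists_isPath
  have := (mul_le_mul s7 (pow_le_pow_right₀ K1 hp.length_lt.le) (by positivity) E0).trans_lt hL
  exact (s6 u v p this).trans_lt this

end

end Pool.Agent.P.MP_d39174_gt

end

section
/-! Bounds for the heights on an expander. -/

namespace Pool.Agent.P.MP_d39174_gt

open UpperHalfPlane MatrixGroups

noncomputable section

variable {Vx : Type} [Fintype Vx] [DecidableEq Vx] {G : SimpleGraph Vx} [DecidableRel G.Adj]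

lemma Osc_step {m : ℕ} (hm : 1 ≤ m) (hd : ∀ v, G.degree v ≤ m) (he : Expd G m)
    {z : Vx → ℝ} {F : ℝ} (hF : 0 < F)
    (h : ∀ S : Finset Vx, (∀ v ∈ S, ∀ w, w ∉ S → z v ≤ z w) →
      ∑ v ∈ S, ∑ w ∈ G.neighborFinset v \ S, (z w - z v) ≤ F) {a : ℝ} {S S' : Finset Vx}
    (hS : ∀ v, v ∈ S ↔ z v ≤ a) (hS' : ∀ v, v ∈ S' ↔ z v ≤ a + 40 * F / m / S.card)
    (h0 : 0 < S.card) (h2 : 2 * S.card ≤ Fintype.card Vx) : 41 * S.card ≤ 40 * S'.card := by
  have hm' : (0 : ℝ) < m := Nat.cast_pos.2 hm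
  have h0' : (0 : ℝ) < S.card := Nat.cast_pos.2 h0
  have ht : 0 < 40 * F / m / S.card := by positivity
  have hs : S ⊆ S' := fun v hv => (hS' v).2 (((hS v).1 hv).trans (le_add_of_nonneg_right ht.le))
  have h3 : ∀ v ∈ S, ∀ w, w ∉ S → z v ≤ z w := fun v hv w hw =>
    ((hS v).1 hv).trans (not_le.1 fun h => hw ((hS w).2 h)).le
  have h4 : 40 * F / m / S.card * ∑ v ∈ S, ((G.neighborFinset v \ S').card : ℝ) ≤ F := by
    refine le_trans ?_ (h S h3)
    rw [Finset.mul_sum]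
    refine Finset.sum_le_sum fun v hv => le_trans ?_ (Finset.sum_le_sum_of_subset_of_nonneg
      (Finset.sdiff_subset_sdiff (Finset.Subset.refl _) hs) fun w hw _ =>
        sub_nonneg.2 (h3 v hv w (Finset.mem_sdiff.1 hw).2))
    rw [mul_comm, ← nsmul_eq_mul]
    refine Finset.card_nsmul_le_sum _ _ _ fun w hw => ?_
    have h5 := not_le.1 fun h => (Finset.mem_sdiff.1 hw).2 ((hS' w).2 h)
    linarith [(hS v).1 hv]
  have h5 : ∑ v ∈ S, (G.neighborFinset v ∩ (S' \ S)).card ≤ (S' \ S).card * m := by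
    simp only [Finset.card_eq_sum_ones (G.neighborFinset _ ∩ _)]
    rw [Finset.sum_comm' (t' := S' \ S) (s' := fun w => G.neighborFinset w ∩ S) fun v w => by
      simp only [Finset.mem_inter, SimpleGraph.mem_neighborFinset, G.adj_comm v]
      tauto]
    refine Finset.sum_le_card_nsmul _ _ _ fun w _ => ?_
    rw [← Finset.card_eq_sum_ones]
    exact (Finset.card_le_card Finset.inter_subset_left).trans (hd w)
  have h6 : ∑ v ∈ S, (G.neighborFinset v \ S).card ≤ ∑ v ∈ S, (G.neighborFinset v \ S').card +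
      ∑ v ∈ S, (G.neighborFinset v ∩ (S' \ S)).card := by
    rw [← Finset.sum_add_distrib]
    refine Finset.sum_le_sum fun v _ => (Finset.card_le_card fun w hw => ?_).trans
      (Finset.card_union_le _ _)
    simp only [Finset.mem_union, Finset.mem_sdiff, Finset.mem_inter] at hw ⊢
    tauto
  have h7 : 40 * ∑ v ∈ S, (G.neighborFinset v \ S').card ≤ m * S.card := by
    rw [div_div, div_mul_eq_mul_div, div_le_iff₀ (by positivity), mul_comm 40, mul_assoc] at h4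
    exact_mod_cast le_of_mul_le_mul_left h4 hF
  have h8 := he S h2
  have h9 := Finset.card_sdiff_add_card_eq_card hs
  have h10 : m * S.card ≤ m * (40 * (S' \ S).card) := by linarith
  have h11 := Nat.le_of_mul_le_mul_left h10 hm
  omega

lemma Osc_half {m : ℕ} (hm : 1 ≤ m) (hd : ∀ v, G.degree v ≤ m) (he : Expd G m)
    {z : Vx → ℝ} {F : ℝ} (hF : 0 < F)
    (h : ∀ S : Finset Vx, (∀ v ∈ S, ∀ w, w ∉ S → z v ≤ z w) →
      ∑ v ∈ S, ∑ w ∈ G.neighborFinset v \ S, (z w - z v) ≤ F) (k : ℕ) :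
    ∀ (a : ℝ) (S : Finset Vx), (∀ v, v ∈ S ↔ z v ≤ a) → 0 < S.card →
      Fintype.card Vx ≤ S.card + k → ∃ T : Finset Vx, Fintype.card Vx < 2 * T.card ∧
        ∀ v ∈ T, z v ≤ a + 1640 * F / m / S.card := by
  have hm' : (0 : ℝ) < m := Nat.cast_pos.2 hm
  induction k with
  | zero =>
    exact fun a S hS h0 h1 => ⟨S, by omega, fun v hv =>
      ((hS v).1 hv).trans (le_add_of_nonneg_right (by positivity))⟩
  | succ k ih =>
    intro a S hS h0 h1
    rcases lt_or_ge (Fintype.card Vx) (2 * S.card) with h2 | h2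
    · exact ⟨S, h2, fun v hv => ((hS v).1 hv).trans (le_add_of_nonneg_right (by positivity))⟩
    obtain ⟨S', hS'⟩ : ∃ S' : Finset Vx, ∀ v, v ∈ S' ↔ z v ≤ a + 40 * F / m / S.card :=
      ⟨_, fun v => Finset.mem_filter.trans (and_iff_right (Finset.mem_univ v))⟩
    have h3 := Osc_step hm hd he hF h hS hS' h0 h2
    obtain ⟨T, h4, h5⟩ := ih _ S' hS' (by omega) (by omega)
    refine ⟨T, h4, fun v hv => (h5 v hv).trans ?_⟩
    have h6 : (0 : ℝ) < S.card := Nat.cast_pos.2 h0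
    have h7 : (41 : ℝ) * S.card ≤ 40 * S'.card := by exact_mod_cast h3
    have h8 : 1640 * F / m / S'.card ≤ 1640 * F / m / (41 / 40 * S.card) :=
      div_le_div_of_nonneg_left (by positivity) (by positivity) (by linarith)
    have h9 : 40 * F / m / S.card + 1640 * F / m / (41 / 40 * S.card) = 1640 * F / m / S.card := by
      field_simp
      norm_num
    linarith

lemma Osc_low {m : ℕ} (hm : 1 ≤ m) (hd : ∀ v, G.degree v ≤ m) (he : Expd G m)
    {z : Vx → ℝ} {F : ℝ} (hF : 0 < F)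
    (h : ∀ S : Finset Vx, (∀ v ∈ S, ∀ w, w ∉ S → z v ≤ z w) →
      ∑ v ∈ S, ∑ w ∈ G.neighborFinset v \ S, (z w - z v) ≤ F) (w : Vx) :
    ∃ T : Finset Vx, Fintype.card Vx < 2 * T.card ∧ ∀ v ∈ T, z v ≤ z w + 1640 * F / m := by
  obtain ⟨S, hS⟩ : ∃ S : Finset Vx, ∀ v, v ∈ S ↔ z v ≤ z w :=
    ⟨_, fun v => Finset.mem_filter.trans (and_iff_right (Finset.mem_univ v))⟩
  have h0 : 0 < S.card := Finset.card_pos.2 ⟨w, (hS w).2 le_rfl⟩
  obtain ⟨T, h1, h2⟩ := Osc_half hm hd he hF h _ _ S hS h0 (Nat.le_add_left _ _)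
  refine ⟨T, h1, fun v hv => (h2 v hv).trans ?_⟩
  have h3 := div_le_self (a := 1640 * F / m) (by positivity) (Nat.one_le_cast.2 h0)
  linarith

/-- Bounded flux through all level sets bounds the oscillation. -/
theorem osc_of_flux {m : ℕ} (hm : 1 ≤ m) (hd : ∀ v, G.degree v ≤ m) (he : Expd G m)
    {z : Vx → ℝ} {F : ℝ} (hF : 0 ≤ F)
    (h : ∀ S : Finset Vx, (∀ v ∈ S, ∀ w, w ∉ S → z v ≤ z w) →
      ∑ v ∈ S, ∑ w ∈ G.neighborFinset v \ S, (z w - z v) ≤ F) (v w : Vx) :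
    z v - z w ≤ 4000 * F / m := by
  have hm' : (0 : ℝ) < m := Nat.cast_pos.2 hm
  refine le_of_forall_pos_le_add fun ε hε => ?_
  have h1 : 0 < ε * m / 4000 := by positivity
  have h2 : 0 < F + ε * m / 4000 := by positivity
  obtain ⟨T, h3, h4⟩ := Osc_low hm hd he h2
    (fun S hS => (h S hS).trans (le_add_of_nonneg_right h1.le)) w
  obtain ⟨T', h5, h6⟩ := Osc_low hm hd he (z := fun v => -z v) h2 (fun S hS => by
    refine le_trans (le_of_eq ?_) ((h Sᶜ fun v hv w hw => neg_le_neg_iff.1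
      (hS w (by simpa using hw) v (by simpa using hv))).trans (le_add_of_nonneg_right h1.le))
    rw [Finset.sum_comm' (t' := Sᶜ) (s' := fun w => G.neighborFinset w \ Sᶜ) fun v w => by
      simp only [Finset.mem_sdiff, SimpleGraph.mem_neighborFinset, G.adj_comm v, Finset.mem_compl]
      tauto]
    simp only [neg_sub_neg]) v
  obtain ⟨u, hu⟩ : (T ∩ T').Nonempty := by
    have h7 := Finset.card_union_add_card_inter T T'
    have h8 := Finset.card_le_univ (T ∪ T')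
    exact Finset.card_pos.1 (by omega)
  have h7 := h4 u (Finset.mem_inter.1 hu).1
  have h8 := h6 u (Finset.mem_inter.1 hu).2
  have h9 : 4000 * F / m + ε = 4000 * ((F + ε * m / 4000) / m) := by field_simp
  have h10 : 0 < (F + ε * m / 4000) / m := by positivity
  rw [mul_div_assoc] at h7 h8
  linarith

lemma Expd.connected [Nonempty Vx] {m : ℕ} (hm : 1 ≤ m) (he : Expd G m) : G.Connected := by
  classical
  have h1 : ∀ S : Finset Vx, (∀ v ∈ S, ∀ w, G.Adj v w → w ∈ S) → S.Nonempty →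
      Fintype.card Vx < 2 * S.card := fun S hS h0 => not_le.1 fun h2 => by
    have h3 := he S h2
    rw [Finset.sum_eq_zero fun v hv => Finset.card_eq_zero.2 (Finset.sdiff_eq_empty_iff_subset.2
      fun w hw => hS v hv w ((G.mem_neighborFinset _ _).1 hw))] at h3
    exact (Nat.mul_pos hm h0.card_pos).not_ge h3
  refine ⟨fun u v => by_contra fun hn => ?_⟩
  have h2 := h1 (Finset.univ.filter (G.Reachable u)) (fun a ha b hb => by
    rw [Finset.mem_filter] at ha ⊢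
    exact ⟨Finset.mem_univ _, ha.2.trans hb.reachable⟩) ⟨u, by simp⟩
  have h3 := h1 (Finset.univ.filter fun a => ¬G.Reachable u a) (fun a ha b hb => by
    rw [Finset.mem_filter] at ha ⊢
    exact ⟨Finset.mem_univ _, fun h => ha.2 (h.trans hb.symm.reachable)⟩) ⟨v, by simpa using hn⟩
  have h4 := Finset.card_filter_add_card_filter_not (s := Finset.univ) (G.Reachable u)
  rw [Finset.card_univ] at h4
  omega

lemma Osc_one : Real.arsinh 1 = Real.log (1 + √2) := by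
  rw [Real.arsinh]
  norm_num

lemma Osc_one_le : Real.arsinh 1 ≤ 1 := by
  rw [Osc_one, Real.log_le_iff_le_exp (by positivity)]
  have h1 : √2 ≤ 3 / 2 := Real.sqrt_le_iff.2 (by norm_num)
  linarith [Real.exp_one_gt_d9]

lemma Osc_le_one : 4 / 5 ≤ Real.arsinh 1 := by
  rw [Osc_one, Real.le_log_iff_exp_le (by positivity)]
  have h1 : 7 / 5 ≤ √2 := Real.le_sqrt_of_sq_le (by norm_num)
  have h2 := Real.exp_add (4 / 5) (1 / 5)
  rw [show (4 / 5 + 1 / 5 : ℝ) = 1 by norm_num] at h2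
  nlinarith [Real.exp_one_lt_d9, Real.add_one_le_exp (1 / 5), Real.exp_pos (4 / 5)]

lemma Osc_log {r : ℝ} (hr : 0 < r) : Real.log (r ^ 2 + √2 * r) ≤ Real.arsinh (r ^ 2) := by
  refine Real.log_le_log (by positivity) (add_le_add le_rfl (Real.le_sqrt_of_sq_le ?_))
  rw [mul_pow, Real.sq_sqrt zero_le_two]
  nlinarith [sq_nonneg (r ^ 2 - 1)]

lemma Osc_in {x y : ℝ} (hx : 0 < x) (hy : 0 < y) :
    2 * Real.arsinh 1 ≤ Real.arsinh (y / x) + Real.arsinh (x / y) := by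
  obtain ⟨r, hr, h1⟩ : ∃ r, 0 < r ∧ r ^ 2 = y / x :=
    ⟨√(y / x), by positivity, Real.sq_sqrt (by positivity)⟩
  rw [← inv_div y x, ← h1, ← inv_pow, Osc_one, two_mul, ← Real.log_mul (by positivity)
    (by positivity)]
  refine le_trans ?_ (add_le_add (Osc_log hr) (Osc_log (inv_pos.2 hr)))
  rw [← Real.log_mul (by positivity) (by positivity)]
  refine Real.log_le_log (by positivity) ?_
  have h2 : r * r⁻¹ = 1 := mul_inv_cancel₀ hr.ne'
  have h3 : 2 ≤ r + r⁻¹ := by nlinarith [sq_nonneg (r - r⁻¹), inv_pos.2 hr]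
  have h4 : (r ^ 2 + √2 * r) * (r⁻¹ ^ 2 + √2 * r⁻¹) = 1 + √2 * (r + r⁻¹) + √2 * √2 := by
    field_simp
    ring
  rw [h4]
  nlinarith [Real.sqrt_nonneg 2]

lemma Osc_bd {x y : ℝ} (hx : 0 < x) (hy : x ≤ y) :
    Real.arsinh 1 + (Real.log y - Real.log x) / 2 ≤ Real.arsinh (y / x) := by
  have h0 := hx.trans_le hy
  have h1 : 1 ≤ √(y / x) := Real.one_le_sqrt.2 ((one_le_div hx).2 hy)
  have h2 := Osc_log (one_pos.trans_le h1)
  rw [Real.sq_sqrt (by positivity)] at h2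
  rw [← Real.log_div h0.ne' hx.ne', ← Real.log_sqrt (by positivity), Osc_one,
    ← Real.log_mul (by positivity) (by positivity)]
  refine (Real.log_le_log (by positivity) ?_).trans h2
  nlinarith [Real.sq_sqrt (show 0 ≤ y / x by positivity)]

lemma Sol.Osc_len {x : Vx → ℝ} {Λ : ℝ} (s : Sol G x Λ) (h5 : ∀ v, 5 ≤ G.degree v) (v : Vx) :
    ∑ w ∈ G.neighborFinset v, Real.arsinh (x w / x v) -
      ∑ w ∈ G.neighborFinset v, ang (x v) (x w) ≤ Λ := by
  rw [← s.len v, ← Finset.sum_sub_distrib]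
  refine Finset.sum_le_sum fun w _ => ?_
  linarith [le_Tt (one_le_of_tot h5 s.pos s.tot.le v) (s.pos w), le_ang (s.pos v) (s.pos w)]

lemma Sol.Osc_ang {x : Vx → ℝ} {Λ : ℝ} (s : Sol G x Λ) (S : Finset Vx) :
    ∑ v ∈ S, ∑ w ∈ G.neighborFinset v, ang (x v) (x w) ≤ 4 :=
  (Finset.sum_le_sum_of_subset_of_nonneg S.subset_univ fun v _ _ => Finset.sum_nonneg
    fun w _ => (ang_pos (s.pos v) (s.pos w)).1.le).trans (s.tot.le.trans Real.pi_le_four)

lemma Sol.len_le {x : Vx → ℝ} {Λ : ℝ} (s : Sol G x Λ) [Nonempty Vx] {m : ℕ}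
    (hd : ∀ v, G.degree v ≤ m) : Λ ≤ m * Real.arsinh 1 := by
  obtain ⟨v, hv⟩ := Finite.exists_max x
  rw [← s.len v]
  refine (Finset.sum_le_card_nsmul _ _ (Real.arsinh 1) fun w _ => (Tt_le (s.pos v)
    (s.pos w)).trans (Real.arsinh_le_arsinh.2 ((div_le_one (s.pos v)).2 (hv w)))).trans ?_
  rw [nsmul_eq_mul]
  exact mul_le_mul_of_nonneg_right (Nat.cast_le.2 (hd v)) (by linarith [Osc_le_one])

lemma Sol.le_len {x : Vx → ℝ} {Λ : ℝ} (s : Sol G x Λ) [Nonempty Vx] {d : ℕ} (h5 : 5 ≤ d)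
    (hd : ∀ v, d ≤ G.degree v) : 4 / 5 * (d : ℝ) - 4 ≤ Λ := by
  obtain ⟨v, hv⟩ := Finite.exists_min x
  have h1 := s.Osc_len (fun v => h5.trans (hd v)) v
  have h2 := s.Osc_ang {v}
  rw [Finset.sum_singleton] at h2
  have h3 := Finset.card_nsmul_le_sum (G.neighborFinset v) (fun w => Real.arsinh (x w / x v))
    (4 / 5) fun w _ => Osc_le_one.trans
      (Real.arsinh_le_arsinh.2 ((one_le_div (s.pos v)).2 (hv w)))
  have h4 : (d : ℝ) ≤ (G.neighborFinset v).card := Nat.cast_le.2 (hd v)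
  rw [nsmul_eq_mul] at h3
  linarith

lemma Sol.flux {x : Vx → ℝ} {Λ : ℝ} (s : Sol G x Λ) {m : ℕ} (h5 : ∀ v, 5 ≤ G.degree v)
    (hd : ∀ v, G.degree v ≤ m) (S : Finset Vx)
    (hS : ∀ v ∈ S, ∀ w, w ∉ S → Real.log (x v) ≤ Real.log (x w)) :
    ∑ v ∈ S, ∑ w ∈ G.neighborFinset v \ S, (Real.log (x w) - Real.log (x v)) ≤
      2 * (∑ v, ((m : ℝ) - G.degree v) + 4) := by
  have h1 := Finset.sum_le_sum (s := S) fun v _ =>
    (s.Osc_len h5 v).trans (@Sol.len_le _ _ _ _ _ _ _ s ⟨v⟩ _ hd)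
  have h2 : ∀ f : Vx → Vx → ℝ, ∑ v ∈ S, ∑ w ∈ G.neighborFinset v, f v w =
      ∑ v ∈ S, ∑ w ∈ G.neighborFinset v ∩ S, f v w +
        ∑ v ∈ S, ∑ w ∈ G.neighborFinset v \ S, f v w := fun f => by
    simp only [← Finset.sum_add_distrib, Finset.sum_inter_add_sum_sdiff]
  have h3 : ∑ v ∈ S, ∑ w ∈ G.neighborFinset v ∩ S, Real.arsinh (x v / x w) =
      ∑ v ∈ S, ∑ w ∈ G.neighborFinset v ∩ S, Real.arsinh (x w / x v) :=
    Finset.sum_comm' fun v w => by
      simp only [Finset.mem_inter, SimpleGraph.mem_neighborFinset, G.adj_comm v]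
      tauto
  have h4 := Finset.sum_le_sum (s := S) fun v _ =>
    Finset.sum_le_sum (s := G.neighborFinset v ∩ S) fun w _ => Osc_in (s.pos v) (s.pos w)
  have h6 := Finset.sum_le_sum (s := S) fun v hv =>
    Finset.sum_le_sum (s := G.neighborFinset v \ S) fun w hw => Osc_bd (s.pos v)
      ((Real.log_le_log_iff (s.pos v) (s.pos w)).1 (hS v hv w (Finset.mem_sdiff.1 hw).2))
  have h7 := h2 fun _ _ => Real.arsinh 1
  have h8 : ∑ v ∈ S, (m : ℝ) * Real.arsinh 1 - ∑ v ∈ S, ∑ w ∈ G.neighborFinset v, Real.arsinh 1 ≤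
      ∑ v, ((m : ℝ) - G.degree v) := by
    have h8 : ∀ v, (0 : ℝ) ≤ m - G.degree v := fun v => sub_nonneg.2 (Nat.cast_le.2 (hd v))
    refine le_trans ?_ (Finset.sum_le_sum_of_subset_of_nonneg S.subset_univ fun v _ _ => h8 v)
    rw [← Finset.sum_sub_distrib]
    refine Finset.sum_le_sum fun v _ => ?_
    rw [Finset.sum_const, nsmul_eq_mul, G.card_neighborFinset_eq_degree, ← sub_mul]
    exact mul_le_of_le_one_right (h8 v) Osc_one_le
  rw [Finset.sum_sub_distrib, h2] at h1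
  simp only [Finset.sum_add_distrib, ← Finset.mul_sum, ← Finset.sum_div] at h4 h6
  linarith [s.Osc_ang S]

lemma Sol.exists_large {x : Vx → ℝ} {Λ : ℝ} (s : Sol G x Λ) [Nonempty Vx]
    (h5 : ∀ v, 5 ≤ G.degree v) : ∃ v, (Fintype.card Vx : ℝ) - 1 ≤ x v := by
  obtain ⟨v, hv⟩ := Finite.exists_max x
  have h0 := s.pos v
  have h1 := Finset.card_nsmul_le_sum Finset.univ
    (fun u => ∑ w ∈ G.neighborFinset u, ang (x u) (x w)) (4 / (1 + x v)) fun u _ => by
      refine le_trans ?_ (Finset.card_nsmul_le_sum _ _ (1 / (1 + x v)) fun w _ =>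
        le_trans (one_div_le_one_div_of_le (by positivity) (Real.sqrt_le_iff.2
          ⟨by positivity, by nlinarith [hv u, s.pos u]⟩)) (le_ang (s.pos u) (s.pos w)))
      rw [nsmul_eq_mul, mul_one_div]
      refine div_le_div_of_nonneg_right ?_ (by positivity)
      exact_mod_cast (Nat.le_succ 4).trans (h5 u)
  have h2 := h1.trans (s.Osc_ang _)
  rw [nsmul_eq_mul, Finset.card_univ, ← mul_div_assoc, div_le_iff₀ (by positivity)] at h2
  exact ⟨v, by linarith⟩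

/-- The heights have bounded ratios. -/
theorem exists_ratio : ∃ κ : ℝ, 1 ≤ κ ∧ ∀ (Vx : Type) [Fintype Vx] [DecidableEq Vx]
    (G : SimpleGraph Vx) [DecidableRel G.Adj] (m : ℕ) (x : Vx → ℝ) (Λ : ℝ), Sol G x Λ →
    (∀ v, 5 ≤ G.degree v) → (∀ v, G.degree v ≤ m) → Expd G m →
    ∑ v, ((m : ℝ) - G.degree v) ≤ 2 * m → ∀ v w, x v ≤ κ * x w := by
  obtain ⟨c, hc⟩ : ∃ c : ℝ, c = 24000 := ⟨_, rfl⟩
  refine ⟨Real.exp c, Real.one_le_exp (by rw [hc]; norm_num),
    fun Vx _ _ G _ m x Λ s h5 hd he h v w => ?_⟩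
  have h1 : 5 ≤ m := (h5 v).trans (hd v)
  have h2 : (5 : ℝ) ≤ m := by exact_mod_cast h1
  have h3 := osc_of_flux (by omega) hd he (z := fun v => Real.log (x v)) (F := 6 * m)
    (by positivity) (fun S hS => (s.flux h5 hd S hS).trans (by linarith)) v w
  rw [← Real.log_div (s.pos v).ne' (s.pos w).ne', ← mul_assoc, mul_div_cancel_right₀ _
    (by positivity), Real.log_le_iff_le_exp (div_pos (s.pos v) (s.pos w)),
    div_le_iff₀ (s.pos w)] at h3
  rwa [hc, show (24000 : ℝ) = 4000 * 6 by norm_num]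

end

end Pool.Agent.P.MP_d39174_gt

end

section
/-! The critical surface attached to a filling system on an expander of large girth. -/

namespace Pool.Agent.P.MP_d39174_gt

open UpperHalfPlane MatrixGroups

noncomputable section

theorem geo : ∃ m₀ : ℕ, ∀ m, m₀ ≤ m → ∃ K N : ℕ, ∀ (Vx H : Type) [Fintype Vx] [DecidableEq Vx]
    [Fintype H] (G : SimpleGraph Vx) [DecidableRel G.Adj] (_ : Cmb G H) (g : ℕ),
    N ≤ Fintype.card Vx → (∀ v, m ≤ G.degree v + 3) → (∀ v, G.degree v ≤ m) → Expd G m →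
    ∑ v, ((m : ℝ) - G.degree v) ≤ 2 * m → NBG G K → G.edgeFinset.card + 1 = 2 * g →
    ∃ Γ l, IsSurfaceGroup g Γ ∧ IsCritical Γ ∧ Sys Γ l ∧ Rz G Γ l := by
  classical
  obtain ⟨κ, hκ, hrat⟩ := exists_ratio
  refine ⟨⌈3 * κ⌉₊ + 20, fun m hm => ?_⟩
  obtain ⟨K₀, hpoly⟩ := exists_poly κ (Real.cosh (4 * m)) hκ
  obtain ⟨K, X, hshort⟩ := short κ m hκ K₀
  refine ⟨K, ⌈κ * X⌉₊ + 1, fun Vx H _ _ _ G _ C g hN hlo hhi hex hdef hnb hE => ?_⟩
  have hne : Nonempty Vx := Fintype.card_pos_iff.1 (by omega)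
  have hH : Nonempty H := let ⟨v⟩ := hne; let ⟨h, _⟩ := C.surj v; ⟨h⟩
  have h5 : ∀ v, 5 ≤ G.degree v := fun v => by have := hlo v; omega
  obtain ⟨x, Λ, s⟩ := exists_sol (hex.connected (by omega)) h5
  have h1 : ∀ v, 1 ≤ x v := one_le_of_tot h5 s.pos s.tot.le
  have hr : ∀ v w, x v ≤ κ * x w := hrat Vx G m x Λ s h5 hhi hex hdef
  obtain ⟨P, hx, near⟩ := hpoly Vx H G C x h1 hr
    (by rw [C.sum_all fun v w => ang (x v) (x w), s.tot])
  have hlen : P.Len Λ := fun h => by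
    have e : ∀ i : ℕ, C.lab ((C.ς ^ i) h) = C.lab h := fun i => by
      induction i with
      | zero => rfl
      | succ i ih => rw [pow_succ', Equiv.Perm.mul_apply, C.lab_ς, ih]
    simp only [Poly.T, Poly.y, hx, e]
    rw [C.sum_per fun w => Tt (x (C.lab h)) (x w), s.len]
  have hm3 : 3 * κ + 20 ≤ m := by
    have a := Nat.le_ceil (3 * κ)
    have b : ((⌈3 * κ⌉₊ + 20 : ℕ) : ℝ) ≤ m := by exact_mod_cast hm
    push_cast at b
    linarith
  have hlow : 2 * κ < Λ := by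
    have a := s.le_len (d := m - 3) (by omega) fun v => by have := hlo v; omega
    rw [Nat.cast_sub (by omega)] at a
    push_cast at a
    linarith
  have hup : Λ ≤ m := by
    have a := s.len_le hhi
    have b : Real.arsinh 1 ≤ 1 := by
      rw [← Real.sinh_le_sinh, Real.sinh_arsinh]
      exact Real.self_le_sinh_iff.2 zero_le_one
    nlinarith [Nat.cast_nonneg (α := ℝ) m]
  have hX : ∀ v, X ≤ P.x v := fun v => by
    obtain ⟨w, hw⟩ := s.exists_large h5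
    have a := Nat.le_ceil (κ * X)
    have b : ((⌈κ * X⌉₊ + 1 : ℕ) : ℝ) ≤ Fintype.card Vx := by exact_mod_cast hN
    push_cast at b
    rw [hx]
    exact le_of_mul_le_mul_left (a := κ) (by linarith [hr w v]) (by linarith)
  obtain ⟨nice, sy, hS⟩ := P.sys_of_short (by linarith) hlen
    (hshort Vx H G C P Λ ⟨by rwa [hx], by rwa [hx]⟩ near hnb hX hlen hlow hup)
  exact ⟨P.Γ, Λ, nice.isSurfaceGroup (by rw [P.finrank_hom, C.finrank_Z, hE]),
    (isCritical_iff nice sy).2 (P.critV hlen hS), sy, P.rz hS⟩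

end

end Pool.Agent.P.MP_d39174_gt

end

section
/-! Conjugate groups realise isomorphic graphs. -/

namespace Pool.Agent.P.MP_d39174_gt

open UpperHalfPlane MatrixGroups

noncomputable section

/-- Surfaces in the same class realise isomorphic graphs. -/
theorem iso_of_cls {Vx Vx' : Type} {G : SimpleGraph Vx} {G' : SimpleGraph Vx'}
    {Γ Γ' : Subgroup SL(2, ℝ)} {l l' : ℝ} (s : Sys Γ l) (s' : Sys Γ' l') (r : Rz G Γ l)
    (r' : Rz G' Γ' l') (e : cls Γ' = cls Γ) : Nonempty (G ≃g G') := by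
  obtain ⟨M, hM⟩ : Γ' ∈ cls Γ := e ▸ (⟨1, fun γ => by simp⟩ : Γ' ∈ cls Γ')
  have hc : ∀ γ, M * γ * M⁻¹ ∈ Γ' ↔ γ ∈ Γ := fun γ => by
    rw [hM]
    simp [mul_assoc]
  have hs : ∀ t n, M • n ∈ SS Γ' t ↔ n ∈ SS Γ t := fun t n => by
    simp only [SS, Set.mem_ofPred_eq, B_ad, ← ex_conj, hc]
  have s2 : Sys Γ' l := by
    obtain ⟨n, hn⟩ := s.ne
    refine ⟨s.pos, fun γ hγ h1 h2 => ?_, ⟨M • n, (hs _ _).2 hn⟩⟩
    have e0 : γ = M * (M⁻¹ * γ * M) * M⁻¹ := by simp [mul_assoc]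
    have := s.le _ ((hM γ).1 hγ) (fun q => h1 (by rw [e0, q]; simp))
      (fun q => h2 (by rw [e0, q]; simp))
    rwa [← tr_conj M, ← e0] at this
  obtain rfl := s2.uniq s'
  have hE : ∀ n n', Eqw Γ' (M • n) (M • n') ↔ Eqw Γ n n' := by
    intro n n'
    constructor
    · rintro ⟨g, hg, q⟩
      refine ⟨M⁻¹ * g * M, (hM g).1 hg, q.imp (fun q => ?_) fun q => ?_⟩
      · rw [mul_smul, mul_smul, ← q, inv_smul_smul]
      · rw [mul_smul, mul_smul, ← smul_neg, ← q, inv_smul_smul]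
    · rintro ⟨g, hg, q⟩
      refine ⟨M * g * M⁻¹, (hc g).2 hg, q.imp (fun q => ?_) fun q => ?_⟩
      · rw [mul_smul, mul_smul, inv_smul_smul, q]
      · rw [mul_smul, mul_smul, inv_smul_smul, q, smul_neg]
  obtain ⟨L, L1, L2, L3⟩ := r
  obtain ⟨L', L1', L2', L3'⟩ := r'
  choose N hN hL using L2
  have key : ∀ n ∈ SS Γ l, ∀ n' ∈ SS Γ l, L' (M • n) = L' (M • n') ↔ L n = L n' :=
    fun n hn n' hn' => by rw [L1' _ ((hs _ _).2 hn) _ ((hs _ _).2 hn'), hE, L1 _ hn _ hn']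
  have hb : ∀ n ∈ SS Γ' l, M⁻¹ • n ∈ SS Γ l := fun n hn => (hs _ _).1 (by rwa [smul_inv_smul])
  have hf : ∀ n ∈ SS Γ l, L' (M • N (L n)) = L' (M • n) := fun n hn =>
    (key _ (hN _) _ hn).2 (hL _)
  have bij : Function.Bijective fun v => L' (M • N v) := by
    refine ⟨fun v w q => ?_, fun v => ?_⟩
    · rw [← hL v, ← hL w]
      exact (key _ (hN v) _ (hN w)).1 q
    · obtain ⟨n, hn, rfl⟩ := L2' v
      exact ⟨L (M⁻¹ • n), (hf _ (hb n hn)).trans (by rw [smul_inv_smul])⟩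
  refine ⟨⟨Equiv.ofBijective _ bij, fun {v w} => ?_⟩⟩
  rw [Equiv.ofBijective_apply, Equiv.ofBijective_apply, L3, L3']
  constructor
  · rintro ⟨n, hn, n', hn', q, q', h⟩
    refine ⟨_, hb n hn, _, hb n' hn', ?_, ?_, by rwa [B_ad]⟩
    · rw [← hL v, ← key _ (hb n hn) _ (hN v), smul_inv_smul, q]
    · rw [← hL w, ← key _ (hb n' hn') _ (hN w), smul_inv_smul, q']
  · rintro ⟨n, hn, n', hn', rfl, rfl, h⟩
    exact ⟨_, (hs _ _).2 hn, _, (hs _ _).2 hn', (hf n hn).symm, (hf n' hn').symm, by rwa [B_ad]⟩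

end

end Pool.Agent.P.MP_d39174_gt

end

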