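import Pool.Agent.P.MP_d39174_gt.All.M5
import Pool.Agent.P.MP_d39174_gt.Defs

section
/-! Insertion of a crossing into a system of curves: definitions. -/

namespace Pool.Agent.P.MP_d39174_gt

open UpperHalfPlane MatrixGroups

noncomputable section

open Equiv

/-- `c` is the first return map of `f` on the marked points `e`. -/
def Ret {S ι : Type} (f : Perm S) (e : ι → S) (c : ι → ι) : Prop :=
  ∀ i, ∃ n, 0 < n ∧ (f ^ n) (e i) = e (c i) ∧ ∀ m, 0 < m → m < n → ∀ j, (f ^ m) (e i) ≠ e j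

/-- The face permutation after inserting a crossing of the arcs `(o 0, o 2)` and `(o 1, o 3)`. -/
structure Ins {S : Type} (f f' : Perm S) (o nw : Fin 4 → S) : Prop where
  oi : Function.Injective o
  ni : Function.Injective nw
  dis : ∀ i j, o i ≠ nw j
  inv : ∀ i, ∃ j, f (nw i) = nw j
  h1 : ∀ i, f' (o i) = nw (i + 1)
  h2 : ∀ i, f' (nw i) = f (o i)
  h3 : ∀ x, (∀ i, x ≠ o i) → (∀ i, x ≠ nw i) → f' x = f x

/-- One face. -/
def One {S : Type} (f : Perm S) (U : Set S) : Prop := ∀ x ∈ U, ∀ y ∈ U, f.SameCycle x y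

/-- Two faces, one through `x` and one through `y`. -/
def Two {S : Type} (f : Perm S) (U : Set S) (x y : S) : Prop :=
  ¬ f.SameCycle x y ∧ ∀ z ∈ U, f.SameCycle z x ∨ f.SameCycle z y

/-- Among three arcs there is a link between the two faces and a loop. -/
def LL {S : Type} (f : Perm S) (U : Set S) (e : Fin 3 → S × S) : Prop :=
  ∃ i j, Two f U (e i).1 (e i).2 ∧ f.SameCycle (e j).1 (e j).2

/-- Cyclic orders of the crossings along each curve and signs of the crossings. -/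
structure St {Vx : Type} (G : SimpleGraph Vx) where
  π : Perm G.Dart
  sg : G.Dart → Bool
  fst : ∀ a, (π a).fst = a.fst
  flip : ∀ a, sg a.symm = !sg a

namespace St

variable {Vx : Type} {G : SimpleGraph Vx} (s : St G)

/-- Reversal of an oriented arc. -/
def α : Perm (G.Dart × Bool) where
  toFun h := (if h.2 then s.π h.1 else s.π⁻¹ h.1, !h.2)
  invFun h := (if h.2 then s.π h.1 else s.π⁻¹ h.1, !h.2)
  left_inv := by rintro ⟨a, _ | _⟩ <;> simp
  right_inv := by rintro ⟨a, _ | _⟩ <;> simp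

/-- Turning an oriented arc about its initial point. -/
def ρ : Perm (G.Dart × Bool) where
  toFun h := (h.1.symm, xor h.2 (s.sg h.1))
  invFun h := (h.1.symm, xor h.2 (s.sg h.1.symm))
  left_inv := by rintro ⟨a, b⟩; simp
  right_inv := by rintro ⟨a, b⟩; simp

/-- The face permutation. -/
def f : Perm (G.Dart × Bool) := s.ρ⁻¹ * s.α

lemma α_true (a : G.Dart) : s.α (a, true) = (s.π a, false) := rfl
lemma α_false (a : G.Dart) : s.α (a, false) = (s.π⁻¹ a, true) := rfl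
lemma ρ_apply (a : G.Dart) (b : Bool) : s.ρ (a, b) = (a.symm, xor b (s.sg a)) := rfl
lemma f_true (a : G.Dart) : s.f (a, true) = ((s.π a).symm, s.sg (s.π a).symm) := by
  change ((s.π a).symm, xor false (s.sg (s.π a).symm)) = _
  simp
lemma f_false (a : G.Dart) : s.f (a, false) = ((s.π⁻¹ a).symm, !s.sg (s.π⁻¹ a).symm) := by
  change ((s.π⁻¹ a).symm, xor true (s.sg (s.π⁻¹ a).symm)) = _
  simp

/-- The crossings in `D` are inserted, the others are not. -/
structure Act (D : Set G.Dart) : Prop where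
  symm : ∀ a ∈ D, a.symm ∈ D
  fix : ∀ a, a ∉ D → s.π a = a
  cyc : ∀ a ∈ D, ∀ b ∈ D, a.fst = b.fst → s.π.SameCycle a b

/-- One face. -/
def P1 (D : Set G.Dart) : Prop := s.Act D ∧ One s.f {h | h.1 ∈ D}

/-- Two faces and a link on the curve `v`. -/
def Q2 (D : Set G.Dart) (v : Vx) : Prop :=
  s.Act D ∧ ∃ a ∈ D, a.fst = v ∧ Two s.f {h | h.1 ∈ D} (a, true) (s.π a, false)

/-- Two faces, a link and a loop on the curve `v`. -/
def P2 (D : Set G.Dart) (v : Vx) : Prop :=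
  s.Q2 D v ∧ ∃ a ∈ D, a.fst = v ∧ s.f.SameCycle (a, true) (s.π a, false)

open Classical in
/-- The intermediate state (one face with interlaced arcs, or three faces). -/
def Mid (D : Set G.Dart) (v : Vx) : Prop :=
  s.Act D ∧ ∃ a ∈ D, ∃ a' ∈ D, a.fst = v ∧ a'.fst = v ∧ a ≠ a' ∧
    Two (s.f * swap (a, true) (s.π a, false)) {h | h.1 ∈ D} (a', true) (s.π a', false)

end St

end

end Pool.Agent.P.MP_d39174_gt

end

section
/-! First return maps. -/

namespace Pool.Agent.P.MP_d39174_gt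

open UpperHalfPlane MatrixGroups

noncomputable section

open Equiv

variable {S ι : Type} {f f' : Perm S} {e : ι → S} {c : ι → ι}

lemma Ret_aux {x y : S} {n : ℕ} (h1 : f' x = f y)
    (h2 : ∀ m, 0 < m → m < n → f' ((f ^ m) y) = f ((f ^ m) y)) :
    ∀ m, 0 < m → m ≤ n → (f' ^ m) x = (f ^ m) y := by
  intro m hm
  induction m, hm using Nat.le_induction with
  | base => intro _; simpa using h1
  | succ m hm ih =>
    intro hmn
    rw [pow_succ', pow_succ', Perm.mul_apply, Perm.mul_apply, ih (by omega), h2 m hm (by omega)]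

lemma Ret_sub {x y : S} {m n : ℕ} (h : n ≤ m) (e1 : (f ^ n) x = y) :
    (f ^ (m - n)) y = (f ^ m) x := by
  rw [← e1, ← Perm.mul_apply, ← pow_add, Nat.sub_add_cancel h]

theorem exists_ret [Finite S] (f : Perm S) (e : ι → S) : ∃ c, Ret f e c := by
  classical
  have h : ∀ i, ∃ n, 0 < n ∧ ∃ j, (f ^ n) (e i) = e j := fun i =>
    ⟨orderOf f, orderOf_pos f, i, by rw [pow_orderOf_eq_one]; rfl⟩
  have h' : ∀ i, ∃ j, ∃ n, 0 < n ∧ (f ^ n) (e i) = e j ∧
      ∀ m, 0 < m → m < n → ∀ k, (f ^ m) (e i) ≠ e k := by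
    intro i
    obtain ⟨h0, j, hj⟩ := Nat.find_spec (h i)
    exact ⟨j, _, h0, hj, fun m hm hlt k hk => Nat.find_min (h i) hlt ⟨hm, k, hk⟩⟩
  choose c hc using h'
  exact ⟨c, hc⟩

theorem Ret.inj (h : Ret f e c) (he : Function.Injective e) : Function.Injective c := by
  have key : ∀ i j n n', 0 < n → n ≤ n' → (f ^ n) (e i) = (f ^ n') (e j) →
      (∀ m, 0 < m → m < n' → ∀ k, (f ^ m) (e j) ≠ e k) → i = j := by
    intro i j n n' hn hle e1 hmin
    have e2 : (f ^ (n' - n)) (e j) = e i := by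
      apply (f ^ n).injective
      rw [e1, ← Perm.mul_apply, ← pow_add, Nat.add_sub_cancel' hle]
    rcases Nat.eq_zero_or_pos (n' - n) with h0 | h0
    · rw [h0] at e2
      exact (he e2).symm
    · exact absurd e2 (hmin _ h0 (by omega) i)
  intro i j hij
  obtain ⟨n, hn, e1, m1⟩ := h i
  obtain ⟨n', hn', e2, m2⟩ := h j
  rcases le_total n n' with hle | hle
  · exact key i j n n' hn hle (by rw [e1, e2, hij]) m2
  · exact (key j i n' n hn' hle (by rw [e1, e2, hij]) m1).symm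

theorem Ret.same_iff [Finite S] (h : Ret f e c) (he : Function.Injective e) (i j : ι) :
    f.SameCycle (e i) (e j) ↔ ∃ n : ℕ, c^[n] i = j := by
  constructor
  · intro hs
    obtain ⟨m, hm⟩ := hs.exists_nat_pow_eq
    clear hs
    induction m using Nat.strong_induction_on generalizing i with
    | _ m ih =>
    rcases Nat.eq_zero_or_pos m with rfl | h0
    · exact ⟨0, he hm⟩
    obtain ⟨n, hn, e1, m1⟩ := h i
    have hle : n ≤ m := by
      by_contra hlt
      exact m1 m h0 (by omega) j hm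
    obtain ⟨k, hk⟩ := ih (m - n) (by omega) (c i) (by rw [Ret_sub hle e1, hm])
    exact ⟨k + 1, hk⟩
  · rintro ⟨n, rfl⟩
    induction n with
    | zero => exact Perm.SameCycle.refl _ _
    | succ n ih =>
      obtain ⟨m, -, e1, -⟩ := h (c^[n] i)
      rw [Function.iterate_succ_apply']
      exact ih.trans ⟨m, by rw [zpow_natCast, e1]⟩

theorem Ret.same_iff' [Finite S] [Fintype ι] (h : Ret f e c) (he : Function.Injective e)
    (i j : ι) : f.SameCycle (e i) (e j) ↔ ∃ n : Fin (Fintype.card ι), c^[n] i = j := by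
  rw [h.same_iff he]
  refine ⟨?_, fun ⟨n, hn⟩ => ⟨n, hn⟩⟩
  rintro ⟨n, rfl⟩
  have hp := Function.minimalPeriod_pos_of_mem_periodicPts ((h.inj he).mem_periodicPts i)
  exact ⟨⟨n % Function.minimalPeriod c i,
    (Nat.mod_lt _ hp).trans_le Function.minimalPeriod_le_card⟩,
    Function.iterate_mod_minimalPeriod_eq⟩

/-- Changing `f` on the marked points. -/
theorem Ret.mul (h : Ret f e c) {q : ι → ι} (h1 : ∀ i, f' (e i) = f (e (q i)))
    (h2 : ∀ x, (∀ i, x ≠ e i) → f' x = f x) : Ret f' e (c ∘ q) := by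
  intro i
  obtain ⟨n, hn, e1, m1⟩ := h (q i)
  have key := Ret_aux (n := n) (h1 i) fun m hm hlt => h2 _ (m1 m hm hlt)
  refine ⟨n, hn, by rw [key n hn le_rfl, e1]; rfl, fun m hm hlt j => ?_⟩
  rw [key m hm hlt.le]
  exact m1 m hm hlt j

theorem Ret.swap [DecidableEq S] [DecidableEq ι] (h : Ret f e c) (he : Function.Injective e)
    (i j : ι) : Ret (f * swap (e i) (e j)) e (c ∘ swap i j) := by
  refine h.mul (fun k => ?_) fun x hx => ?_
  · rw [Perm.mul_apply, he.swap_apply]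
  · rw [Perm.mul_apply, swap_apply_of_ne_of_ne (hx i) (hx j)]

/-- Points whose cycle meets the marked points keep this property. -/
theorem cover_of_eq [Finite S] (h2 : ∀ x, (∀ i, x ≠ e i) → f' x = f x) {z : S}
    (hz : ∃ i, f.SameCycle z (e i)) : ∃ i, f'.SameCycle z (e i) := by
  obtain ⟨i, hs⟩ := hz
  obtain ⟨m, hm⟩ := hs.exists_nat_pow_eq
  clear hs
  induction m generalizing z with
  | zero => exact ⟨i, by rw [← hm]; exact Perm.SameCycle.refl _ _⟩
  | succ m ih =>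
    by_cases hz : ∃ k, z = e k
    · obtain ⟨k, rfl⟩ := hz
      exact ⟨k, Perm.SameCycle.refl _ _⟩
    · obtain ⟨k, hk⟩ := ih (z := f z) (by rw [← hm, pow_succ, Perm.mul_apply])
      rw [← h2 z fun k hk => hz ⟨k, hk⟩] at hk
      exact ⟨k, Perm.sameCycle_apply_left.1 hk⟩

lemma Ret_avoid {o nw : Fin 4 → S} (I : Ins f f' o nw) {x : S} (hx : ∀ j, x ≠ nw j) (m : ℕ) :
    ∀ j, (f ^ m) x ≠ nw j := by
  choose g hg using I.inv
  have gi : Function.Injective g := fun a b hab =>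
    I.ni (f.injective (by rw [hg, hg, hab]))
  have gs := Finite.surjective_of_injective gi
  induction m with
  | zero => exact hx
  | succ m ih =>
    intro j hj
    obtain ⟨k, rfl⟩ := gs j
    rw [pow_succ', Perm.mul_apply, ← hg] at hj
    exact ih k (f.injective hj)

/-- The return map after an insertion. -/
theorem Ret.ins {o nw : Fin 4 → S} (h : Ret f e c) (I : Ins f f' o nw)
    (hd : ∀ i j, e i ≠ nw j) {p : Fin 4 → ι} (hp : ∀ i, e (p i) = o i) {c' : ι ⊕ Fin 4 → ι ⊕ Fin 4}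
    (c1 : ∀ i, c' (Sum.inl (p i)) = Sum.inr (i + 1)) (c2 : ∀ i, c' (Sum.inr i) = Sum.inl (c (p i)))
    (c3 : ∀ j, (∀ i, e j ≠ o i) → c' (Sum.inl j) = Sum.inl (c j)) (he : Function.Injective e) :
    Ret f' (Sum.elim e nw) c' := by
  have main : ∀ (x : S) (k : ι), f' x = f (e k) → ∃ n, 0 < n ∧ (f' ^ n) x = e (c k) ∧
      ∀ m, 0 < m → m < n → ∀ j, (f' ^ m) x ≠ Sum.elim e nw j := by
    intro x k hx
    obtain ⟨n, hn, e1, m1⟩ := h k
    have key := Ret_aux (n := n) hx fun m hm hlt =>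
      I.h3 _ (fun i => by rw [← hp]; exact m1 m hm hlt _) (Ret_avoid I (hd k) m)
    refine ⟨n, hn, by rw [key n hn le_rfl, e1], fun m hm hlt j => ?_⟩
    rw [key m hm hlt.le]
    rcases j with j | j
    · exact m1 m hm hlt j
    · exact Ret_avoid I (hd k) m j
  rintro (j | i)
  · by_cases hj : ∃ i, e j = o i
    · obtain ⟨i, hi⟩ := hj
      obtain rfl : j = p i := he (hi.trans (hp i).symm)
      refine ⟨1, one_pos, ?_, fun m hm hlt => by omega⟩
      rw [c1, pow_one, Sum.elim_inl, Sum.elim_inr, hp, I.h1]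
    · have hj' : ∀ i, e j ≠ o i := fun i hi => hj ⟨i, hi⟩
      rw [c3 j hj']
      exact main (e j) j (I.h3 _ hj' (hd j))
  · rw [c2]
    exact main (nw i) (p i) (by rw [hp, I.h2])

/-- After an insertion every point of the new set lies on a cycle through a marked point. -/
theorem Ins.cover [Finite S] {o nw : Fin 4 → S} (I : Ins f f' o nw) {p : Fin 4 → ι}
    (hp : ∀ i, e (p i) = o i) {U : Set S} (hU : ∀ z ∈ U, ∃ i, f.SameCycle z (e i)) {z : S}
    (hz : z ∈ U ∪ Set.range nw) : ∃ i, f'.SameCycle z (Sum.elim e nw i) := by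
  rcases hz with hz | ⟨i, rfl⟩
  · obtain ⟨i, hi⟩ := hU z hz
    refine cover_of_eq (f := f) (fun x hx => I.h3 x (fun k => ?_) fun k => hx (Sum.inr k))
      ⟨Sum.inl i, hi⟩
    rw [← hp]
    exact hx (Sum.inl (p k))
  · exact ⟨Sum.inr i, Perm.SameCycle.refl _ _⟩

end

end Pool.Agent.P.MP_d39174_gt

end

section
/-! Insertions: the cases with four marked sides. -/

namespace Pool.Agent.P.MP_d39174_gt

open UpperHalfPlane MatrixGroups

noncomputable section

open Equiv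

variable {S : Type} [Finite S] [DecidableEq S] {f f₁ f₂ : Perm S} {U : Set S}
  {g g' h h' a a' b b' : S}

/-- Reachable in less than `N` steps. -/
private abbrev InsA_R {ι : Type} (N : ℕ) (c : ι → ι) (i j : ι) : Prop := ∃ n, n < N ∧ c^[n] i = j

/-- Two cycles. -/
private abbrev InsA_T {ι : Type} (N : ℕ) (c : ι → ι) (i j : ι) : Prop :=
  ¬ InsA_R N c i j ∧ ∀ l, InsA_R N c l i ∨ InsA_R N c l j

/-- The return map after an insertion. -/
private def InsA_c (p c : Fin 4 → Fin 4) : Fin 4 ⊕ Fin 4 → Fin 4 ⊕ Fin 4 :=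
  Sum.elim (fun i => .inr (p i + 1)) (fun i => .inl (c (p i)))

omit [DecidableEq S] in
private lemma InsA_same {ι : Type} [Fintype ι] {k : Perm S} {E : ι → S} {c : ι → ι}
    (r : Ret k E c) (hE : Function.Injective E) {N : ℕ} (hN : Fintype.card ι = N) (i j : ι) :
    k.SameCycle (E i) (E j) ↔ InsA_R N c i j := by
  subst hN
  rw [r.same_iff' hE]
  exact ⟨fun ⟨n, hn⟩ => ⟨n, n.2, hn⟩, fun ⟨n, h1, h2⟩ => ⟨⟨n, h1⟩, h2⟩⟩

omit [DecidableEq S] in
private lemma InsA_two {ι : Type} [Fintype ι] {k : Perm S} {E : ι → S} {c : ι → ι}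
    (r : Ret k E c) (hE : Function.Injective E) {N : ℕ} (hN : Fintype.card ι = N) {W : Set S}
    (hW : ∀ z ∈ W, ∃ i, k.SameCycle z (E i)) {i j : ι} (t : InsA_T N c i j) :
    Two k W (E i) (E j) := by
  refine ⟨fun e => t.1 ((InsA_same r hE hN i j).1 e), fun z hz => ?_⟩
  obtain ⟨l, hl⟩ := hW z hz
  exact (t.2 l).imp (fun e => hl.trans ((InsA_same r hE hN _ _).2 e))
    fun e => hl.trans ((InsA_same r hE hN _ _).2 e)

omit [DecidableEq S] in
private lemma InsA_one {ι : Type} [Fintype ι] {k : Perm S} {E : ι → S} {c : ι → ι}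
    (r : Ret k E c) (hE : Function.Injective E) {N : ℕ} (hN : Fintype.card ι = N) {W : Set S}
    (hW : ∀ z ∈ W, ∃ i, k.SameCycle z (E i)) {i : ι} (t : ∀ l, InsA_R N c l i) : One k W := by
  intro x hx y hy
  obtain ⟨l, hl⟩ := hW x hx
  obtain ⟨m, hm⟩ := hW y hy
  exact (hl.trans ((InsA_same r hE hN _ _).2 (t l))).trans
    (hm.trans ((InsA_same r hE hN _ _).2 (t m))).symm

omit [DecidableEq S] in
private lemma InsA_ins {f' : Perm S} {e o nw : Fin 4 → S} {c p : Fin 4 → Fin 4} (r : Ret f e c)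
    (he : Function.Injective e) (I : Ins f f' o nw) (hp : ∀ i, p (p i) = i)
    (ho : ∀ i, e (p i) = o i) (hU : ∀ z ∈ U, ∃ i, f.SameCycle z (e i)) {W : Set S}
    (hW : W ⊆ U ∪ Set.range nw) :
    Ret f' (Sum.elim e nw) (InsA_c p c) ∧ Function.Injective (Sum.elim e nw) ∧
      ∀ z ∈ W, ∃ i, f'.SameCycle z (Sum.elim e nw i) := by
  have hd : ∀ i j, e i ≠ nw j := fun i j => by
    rw [← hp i, ho]
    exact I.dis _ _
  refine ⟨r.ins I hd ho (fun i => ?_) (fun i => rfl) (fun j hj => ?_) he,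
    he.sumElim I.ni hd, fun z hz => I.cover ho hU (hW hz)⟩
  · change Sum.inr (p (p i) + 1) = _
    rw [hp]
  · exact absurd (by rw [← ho, hp]) (hj (p j))

omit [DecidableEq S] in
private lemma InsA_both (I₁ : Ins f f₁ ![g, h, g', h'] ![a, b, a', b'])
    (I₂ : Ins f f₂ ![g, h', g', h] ![a, b', a', b]) {c : Fin 4 → Fin 4}
    (r : Ret f ![g, h, g', h'] c) (hU : ∀ z ∈ U, ∃ i, f.SameCycle z (![g, h, g', h'] i))
    {p : Fin 4 → Fin 4} (hp : p = id ∨ p = ![0, 3, 2, 1]) :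
    ∃ (k : Perm S) (E : Fin 4 ⊕ Fin 4 → S), (k = f₁ ∨ k = f₂) ∧ Ret k E (InsA_c p c) ∧
      Function.Injective E ∧ (∀ z ∈ U ∪ {a, a', b, b'}, ∃ i, k.SameCycle z (E i)) ∧
      g = E (.inl 0) ∧ g' = E (.inl 2) ∧ a = E (.inr 0) ∧ a' = E (.inr 2) := by
  rcases hp with rfl | rfl
  · obtain ⟨h1, h2, h3⟩ := InsA_ins (p := id) (W := U ∪ {a, a', b, b'}) r I₁.oi I₁ (fun _ => rfl)
      (fun _ => rfl) hU (Set.union_subset_union_right _ (by
        rintro z (rfl | rfl | rfl | rfl)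
        exacts [⟨0, rfl⟩, ⟨2, rfl⟩, ⟨1, rfl⟩, ⟨3, rfl⟩]))
    exact ⟨f₁, _, .inl rfl, h1, h2, h3, rfl, rfl, rfl, rfl⟩
  · obtain ⟨h1, h2, h3⟩ := InsA_ins (p := ![0, 3, 2, 1]) (W := U ∪ {a, a', b, b'}) r I₁.oi I₂
      (by decide) (fun i => by fin_cases i <;> rfl) hU (Set.union_subset_union_right _ (by
        rintro z (rfl | rfl | rfl | rfl)
        exacts [⟨0, rfl⟩, ⟨2, rfl⟩, ⟨3, rfl⟩, ⟨1, rfl⟩]))
    exact ⟨f₂, _, .inr rfl, h1, h2, h3, rfl, rfl, rfl, rfl⟩

private lemma InsA_eta (c : Fin 4 → Fin 4) : ∃ c0 c1 c2 c3, c = ![c0, c1, c2, c3] :=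
  ⟨c 0, c 1, c 2, c 3, funext fun i => by fin_cases i <;> rfl⟩

private lemma InsA_f1 : ∀ c0 c1 c2 c3 : Fin 4, (∀ i j, InsA_R 4 ![c0, c1, c2, c3] i j) →
    (InsA_T 8 (InsA_c id ![c0, c1, c2, c3]) (.inl 0) (.inr 2) ∨
      InsA_T 8 (InsA_c id ![c0, c1, c2, c3]) (.inr 0) (.inl 2)) ∨
    (InsA_T 8 (InsA_c ![0, 3, 2, 1] ![c0, c1, c2, c3]) (.inl 0) (.inr 2) ∨
      InsA_T 8 (InsA_c ![0, 3, 2, 1] ![c0, c1, c2, c3]) (.inr 0) (.inl 2)) := by
  decide +kernel

private lemma InsA_f2 : ∀ c0 c1 c2 c3 : Fin 4, Function.Injective ![c0, c1, c2, c3] →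
    InsA_T 4 ![c0, c1, c2, c3] 0 2 →
    InsA_T 8 (InsA_c id ![c0, c1, c2, c3] ∘ swap (.inl 0) (.inr 2)) (.inr 0) (.inl 2) ∨
    InsA_T 8 (InsA_c ![0, 3, 2, 1] ![c0, c1, c2, c3] ∘ swap (.inl 0) (.inr 2))
      (.inr 0) (.inl 2) := by
  decide +kernel

private lemma InsA_f3 : ∀ c0 c1 c2 c3 : Fin 4, Function.Injective ![c0, c1, c2, c3] →
    (InsA_T 4 ![c0, c1, c2, c3] 0 2 ∧ InsA_R 4 ![c0, c1, c2, c3] 1 3) ∨
      (InsA_T 4 ![c0, c1, c2, c3] 1 3 ∧ InsA_R 4 ![c0, c1, c2, c3] 0 2) →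
    (∀ l, InsA_R 8 (InsA_c id ![c0, c1, c2, c3]) l (.inl 0)) ∨
      ∀ l, InsA_R 8 (InsA_c ![0, 3, 2, 1] ![c0, c1, c2, c3]) l (.inl 0) := by
  decide +kernel

private lemma InsA_f4 : ∀ c0 c1 c2 c3 : Fin 4, Function.Injective ![c0, c1, c2, c3] →
    InsA_R 4 ![c0, c1, c2, c3] 0 2 → InsA_R 4 ![c0, c1, c2, c3] 1 3 →
    ¬ InsA_R 4 ![c0, c1, c2, c3] 0 1 → ∀ l, InsA_R 8 (InsA_c id ![c0, c1, c2, c3]) l (.inl 0) := by
  decide +kernel

omit [DecidableEq S] in
private lemma InsA_T4 {e : Fin 4 → S} {c : Fin 4 → Fin 4} (r : Ret f e c)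
    (he : Function.Injective e) {i j : Fin 4} (H : Two f U (e i) (e j))
    (hU : ∀ l, l = i ∨ l = j ∨ e l ∈ U) : InsA_T 4 c i j := by
  refine ⟨fun t => H.1 ((InsA_same r he rfl i j).2 t), fun l => ?_⟩
  rcases hU l with rfl | rfl | hl
  · exact .inl ⟨0, by norm_num, rfl⟩
  · exact .inr ⟨0, by norm_num, rfl⟩
  · exact (H.2 _ hl).imp (InsA_same r he rfl _ _).1 (InsA_same r he rfl _ _).1

theorem ins_one (I₁ : Ins f f₁ ![g, h, g', h'] ![a, b, a', b'])
    (I₂ : Ins f f₂ ![g, h', g', h] ![a, b', a', b]) (hU : g ∈ U ∧ g' ∈ U ∧ h ∈ U ∧ h' ∈ U)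
    (H : One f U) : ∃ k, (k = f₁ ∨ k = f₂) ∧
      (Two k (U ∪ {a, a', b, b'}) g a' ∨ Two k (U ∪ {a, a', b, b'}) a g') := by
  obtain ⟨c, r⟩ := exists_ret f ![g, h, g', h']
  obtain ⟨c0, c1, c2, c3, rfl⟩ := InsA_eta c
  have hm : ∀ i, ![g, h, g', h'] i ∈ U := fun i => by
    fin_cases i
    exacts [hU.1, hU.2.2.1, hU.2.1, hU.2.2.2]
  have hc : ∀ z ∈ U, ∃ i, f.SameCycle z (![g, h, g', h'] i) := fun z hz => ⟨0, H z hz _ (hm 0)⟩
  have key : ∃ p, (p = id ∨ p = ![0, 3, 2, 1]) ∧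
      (InsA_T 8 (InsA_c p ![c0, c1, c2, c3]) (.inl 0) (.inr 2) ∨
        InsA_T 8 (InsA_c p ![c0, c1, c2, c3]) (.inr 0) (.inl 2)) :=
    (InsA_f1 c0 c1 c2 c3 fun i j => (InsA_same r I₁.oi rfl i j).1 (H _ (hm i) _ (hm j))).elim
      (fun t => ⟨_, .inl rfl, t⟩) fun t => ⟨_, .inr rfl, t⟩
  obtain ⟨p, hp, t⟩ := key
  obtain ⟨k, E, hk, h1, h2, h3, e1, e2, e3, e4⟩ := InsA_both I₁ I₂ r hc hp
  refine ⟨k, hk, t.imp (fun t => ?_) fun t => ?_⟩
  · have := InsA_two h1 h2 rfl h3 t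
    rwa [← e1, ← e4] at this
  · have := InsA_two h1 h2 rfl h3 t
    rwa [← e2, ← e3] at this

theorem ins_two (I₁ : Ins f f₁ ![g, h, g', h'] ![a, b, a', b'])
    (I₂ : Ins f f₂ ![g, h', g', h] ![a, b', a', b]) (hU : h ∈ U ∧ h' ∈ U)
    (H : Two f U g g') : ∃ k, (k = f₁ ∨ k = f₂) ∧
      Two (k * swap g a') (U ∪ {a, a', b, b'}) a g' := by
  obtain ⟨c, r⟩ := exists_ret f ![g, h, g', h']
  obtain ⟨c0, c1, c2, c3, rfl⟩ := InsA_eta c
  have hc : ∀ z ∈ U, ∃ i, f.SameCycle z (![g, h, g', h'] i) := fun z hz =>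
    (H.2 z hz).elim (fun e => ⟨0, e⟩) fun e => ⟨2, e⟩
  have key : ∃ p, (p = id ∨ p = ![0, 3, 2, 1]) ∧
      InsA_T 8 (InsA_c p ![c0, c1, c2, c3] ∘ swap (.inl 0) (.inr 2)) (.inr 0) (.inl 2) :=
    (InsA_f2 c0 c1 c2 c3 (r.inj I₁.oi) (InsA_T4 r I₁.oi (i := 0) (j := 2) H fun l => by
      fin_cases l
      exacts [.inl rfl, .inr (.inr hU.1), .inr (.inl rfl), .inr (.inr hU.2)])).elim
      (fun t => ⟨_, .inl rfl, t⟩) fun t => ⟨_, .inr rfl, t⟩
  obtain ⟨p, hp, t⟩ := key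
  obtain ⟨k, E, hk, h1, h2, h3, e1, e2, e3, e4⟩ := InsA_both I₁ I₂ r hc hp
  refine ⟨k, hk, ?_⟩
  have := InsA_two (h1.swap h2 (.inl 0) (.inr 2)) h2 rfl (W := U ∪ {a, a', b, b'})
    (fun z hz => cover_of_eq (f := k) (fun x hx => by
      rw [Perm.mul_apply, swap_apply_of_ne_of_ne (hx _) (hx _)]) (h3 z hz)) t
  rwa [← e1, ← e2, ← e3, ← e4] at this

theorem ins_fin (I₁ : Ins f f₁ ![g, h, g', h'] ![a, b, a', b'])
    (I₂ : Ins f f₂ ![g, h', g', h] ![a, b', a', b]) (hU : g ∈ U ∧ g' ∈ U ∧ h ∈ U ∧ h' ∈ U)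
    (H : (Two f U g g' ∧ f.SameCycle h h') ∨ (Two f U h h' ∧ f.SameCycle g g')) :
    ∃ k, (k = f₁ ∨ k = f₂) ∧ One k (U ∪ {a, a', b, b'}) := by
  obtain ⟨c, r⟩ := exists_ret f ![g, h, g', h']
  obtain ⟨c0, c1, c2, c3, rfl⟩ := InsA_eta c
  have hm : ∀ i, ![g, h, g', h'] i ∈ U := fun i => by
    fin_cases i
    exacts [hU.1, hU.2.2.1, hU.2.1, hU.2.2.2]
  have hc : ∀ z ∈ U, ∃ i, f.SameCycle z (![g, h, g', h'] i) := fun z hz => by
    rcases H with H | H
    · exact (H.1.2 z hz).elim (fun e => ⟨0, e⟩) fun e => ⟨2, e⟩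
    · exact (H.1.2 z hz).elim (fun e => ⟨1, e⟩) fun e => ⟨3, e⟩
  have key : ∃ p, (p = id ∨ p = ![0, 3, 2, 1]) ∧
      ∀ l, InsA_R 8 (InsA_c p ![c0, c1, c2, c3]) l (.inl 0) :=
    (InsA_f3 c0 c1 c2 c3 (r.inj I₁.oi) (H.imp
      (fun H => ⟨InsA_T4 r I₁.oi (i := 0) (j := 2) H.1 fun l => .inr (.inr (hm l)),
        (InsA_same r I₁.oi rfl 1 3).1 H.2⟩)
      fun H => ⟨InsA_T4 r I₁.oi (i := 1) (j := 3) H.1 fun l => .inr (.inr (hm l)),
        (InsA_same r I₁.oi rfl 0 2).1 H.2⟩)).elim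
      (fun t => ⟨_, .inl rfl, t⟩) fun t => ⟨_, .inr rfl, t⟩
  obtain ⟨p, hp, t⟩ := key
  obtain ⟨k, E, hk, h1, h2, h3, -⟩ := InsA_both I₁ I₂ r hc hp
  exact ⟨k, hk, InsA_one h1 h2 rfl h3 t⟩

theorem ins_merge {U' : Set S} (I₁ : Ins f f₁ ![g, h, g', h'] ![a, b, a', b'])
    (hU : g ∈ U ∧ g' ∈ U) (hU' : h ∈ U' ∧ h' ∈ U') (H : One f U) (H' : One f U')
    (hn : ¬ f.SameCycle g h) : One f₁ (U ∪ U' ∪ {a, a', b, b'}) := by
  obtain ⟨c, r⟩ := exists_ret f ![g, h, g', h']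
  obtain ⟨c0, c1, c2, c3, rfl⟩ := InsA_eta c
  obtain ⟨h1, h2, h3⟩ := InsA_ins (p := id) (U := U ∪ U') (W := U ∪ U' ∪ {a, a', b, b'}) r I₁.oi I₁
    (fun _ => rfl) (fun _ => rfl)
    (fun z hz => hz.elim (fun hz => ⟨0, H z hz _ hU.1⟩) fun hz => ⟨1, H' z hz _ hU'.1⟩)
    (Set.union_subset_union_right _ (by
      rintro z (rfl | rfl | rfl | rfl)
      exacts [⟨0, rfl⟩, ⟨2, rfl⟩, ⟨1, rfl⟩, ⟨3, rfl⟩]))
  exact InsA_one h1 h2 rfl h3 (InsA_f4 c0 c1 c2 c3 (r.inj I₁.oi)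
    ((InsA_same r I₁.oi rfl 0 2).1 (H _ hU.1 _ hU.2))
    ((InsA_same r I₁.oi rfl 1 3).1 (H' _ hU'.1 _ hU'.2))
    fun t => hn ((InsA_same r I₁.oi rfl 0 1).2 t))

end

end Pool.Agent.P.MP_d39174_gt

end

section
/-! Insertions: the case with six marked sides. -/

namespace Pool.Agent.P.MP_d39174_gt

open UpperHalfPlane MatrixGroups

noncomputable section

open Equiv

open Sum

def insB_r {ι : Type} [DecidableEq ι] (c : ι → ι) (j : ι) : ℕ → ι → Bool
  | 0, _ => false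
  | n + 1, x => decide (x = j) || insB_r c j n (c x)

def insB_c (c : Fin 6 → Fin 6) (o : Fin 4 → Fin 6) : Fin 6 ⊕ Fin 4 → Fin 6 ⊕ Fin 4 :=
  Sum.elim (fun j => if j = o 0 then inr 1 else if j = o 1 then inr 2 else if j = o 2 then inr 3
    else if j = o 3 then inr 0 else inl (c j)) fun i => inl (c (o i))

def insB_L (c : Fin 6 ⊕ Fin 4 → Fin 6 ⊕ Fin 4) (e : Fin 3 → (Fin 6 ⊕ Fin 4) × (Fin 6 ⊕ Fin 4)) :
    Prop :=
  (∃ j, insB_r c (e j).2 10 (e j).1) ∧ ∃ i, ¬ insB_r c (e i).2 10 (e i).1 ∧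
    (∀ l, insB_r c (e i).1 10 (inl l) ∨ insB_r c (e i).2 10 (inl l)) ∧
    ∀ l, insB_r c (e i).1 10 (inr l) ∨ insB_r c (e i).2 10 (inr l)

theorem insB_fin : ∀ c0 c1 : Fin 6, c0 ≠ c1 → ∀ c2, c0 ≠ c2 ∧ c1 ≠ c2 → ∀ c3,
    c0 ≠ c3 ∧ c1 ≠ c3 ∧ c2 ≠ c3 → ∀ c4, c0 ≠ c4 ∧ c1 ≠ c4 ∧ c2 ≠ c4 ∧ c3 ≠ c4 → ∀ c5,
    c0 ≠ c5 ∧ c1 ≠ c5 ∧ c2 ≠ c5 ∧ c3 ≠ c5 ∧ c4 ≠ c5 →
    ¬ insB_r (![c0, c1, c2, c3, c4, c5] ∘ swap 0 1) 3 6 2 →
    (∀ l, insB_r (![c0, c1, c2, c3, c4, c5] ∘ swap 0 1) 2 6 l ∨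
      insB_r (![c0, c1, c2, c3, c4, c5] ∘ swap 0 1) 3 6 l) →
    (insB_L (insB_c ![c0, c1, c2, c3, c4, c5] ![0, 4, 1, 5])
      ![(inl 0, inr 2), (inr 0, inl 1), (inl 2, inl 3)] ∨
    insB_L (insB_c ![c0, c1, c2, c3, c4, c5] ![0, 5, 1, 4])
      ![(inl 0, inr 2), (inr 0, inl 1), (inl 2, inl 3)]) ∨
    insB_L (insB_c ![c0, c1, c2, c3, c4, c5] ![2, 4, 3, 5])
      ![(inl 2, inr 2), (inr 0, inl 3), (inl 0, inl 1)] ∨
    insB_L (insB_c ![c0, c1, c2, c3, c4, c5] ![2, 5, 3, 4])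
      ![(inl 2, inr 2), (inr 0, inl 3), (inl 0, inl 1)] := by
  unfold insB_L
  decide +kernel

lemma insB_r_iff {ι : Type} [DecidableEq ι] (c : ι → ι) (j : ι) (n : ℕ) (i : ι) :
    insB_r c j n i ↔ ∃ m < n, c^[m] i = j := by
  induction n generalizing i with
  | zero => simp [insB_r]
  | succ n ih =>
    rw [Nat.exists_lt_succ_left]
    simp [insB_r, ih]

lemma insB_same {S ι : Type} [Finite S] [Fintype ι] [DecidableEq ι] {f : Perm S} {e : ι → S}
    {c : ι → ι} (h : Ret f e c) (he : Function.Injective e) {n : ℕ} (hn : Fintype.card ι = n)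
    (i j : ι) : f.SameCycle (e i) (e j) ↔ insB_r c j n i := by
  rw [h.same_iff' he, insB_r_iff, ← hn]
  exact ⟨fun ⟨m, e⟩ => ⟨m, m.2, e⟩, fun ⟨m, hm, e⟩ => ⟨⟨m, hm⟩, e⟩⟩

lemma insB_LL {S : Type} [Finite S] {f k : Perm S} {e : Fin 6 → S} {c : Fin 6 → Fin 6}
    {o nw : Fin 4 → S} (h : Ret f e c) (he : Function.Injective e) (I : Ins f k o nw)
    (hd : ∀ i j, e i ≠ nw j) (p : Fin 4 → Fin 6) (hp : ∀ i, e (p i) = o i) {U U' : Set S}
    (hU : ∀ z ∈ U, ∃ i, f.SameCycle z (e i)) (hU' : U' ⊆ U ∪ Set.range nw)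
    {d : Fin 3 → (Fin 6 ⊕ Fin 4) × (Fin 6 ⊕ Fin 4)} (H : insB_L (insB_c c p) d) {d' : Fin 3 → S × S}
    (hd' : ∀ i, d' i = (Sum.elim e nw (d i).1, Sum.elim e nw (d i).2)) : LL k U' d' := by
  have h1 : Function.Injective p := fun i j e => I.oi (by rw [← hp, e, hp])
  have h2 := insB_same (h.ins I hd hp (c' := insB_c c p)
    (fun i => by fin_cases i <;> simp [insB_c, h1.eq_iff]) (fun _ => rfl) (fun j hj => by
      have : ∀ i, j ≠ p i := fun i e => hj i (by rw [e, hp])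
      simp [insB_c, this]) he) (he.sumElim I.ni hd) (n := 10) rfl
  obtain ⟨⟨j, a1⟩, i, a2, a3, a4⟩ := H
  refine ⟨i, j, ?_, hd' j ▸ (h2 _ _).2 a1⟩
  rw [hd']
  refine ⟨fun e => a2 ((h2 _ _).1 e), fun z hz => ?_⟩
  obtain ⟨l, hl⟩ := I.cover hp hU (hU' hz)
  refine Or.imp (fun e => hl.trans ((h2 _ _).2 e)) (fun e => hl.trans ((h2 _ _).2 e)) ?_
  cases l
  exacts [a3 _, a4 _]

theorem ins_mid {S : Type} [Finite S] [DecidableEq S] {f f₁ f₂ f₃ f₄ : Perm S} {U : Set S}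
    {p p' q q' h h' a a' b b' : S}
    (I₁ : Ins f f₁ ![p, h, p', h'] ![a, b, a', b']) (I₂ : Ins f f₂ ![p, h', p', h] ![a, b', a', b])
    (I₃ : Ins f f₃ ![q, h, q', h'] ![a, b, a', b']) (I₄ : Ins f f₄ ![q, h', q', h] ![a, b', a', b])
    (hne : p ≠ q ∧ p ≠ q' ∧ p' ≠ q ∧ p' ≠ q') (hU : p ∈ U ∧ p' ∈ U ∧ h ∈ U ∧ h' ∈ U)
    (H : Two (f * swap p p') U q q') :
    (∃ k, (k = f₁ ∨ k = f₂) ∧ LL k (U ∪ {a, a', b, b'}) ![(p, a'), (a, p'), (q, q')]) ∨
      ∃ k, (k = f₃ ∨ k = f₄) ∧ LL k (U ∪ {a, a', b, b'}) ![(q, a'), (a, q'), (p, p')] := by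
  have he : Function.Injective ![p, p', q, q', h, h'] := by
    have h1 := List.nodup_ofFn.2 I₁.oi
    have h2 := List.nodup_ofFn.2 I₃.oi
    refine List.nodup_ofFn.1 ?_
    simp only [List.ofFn_succ, List.ofFn_zero, Matrix.cons_val_zero, Matrix.cons_val_succ,
      List.nodup_cons, List.mem_cons, List.not_mem_nil, or_false, not_or] at h1 h2 ⊢
    tauto
  obtain ⟨c, hc⟩ := exists_ret (ι := Fin 6) f ![p, p', q, q', h, h']
  have h1 : ∀ {i j}, i ≠ j → c i ≠ c j := (hc.inj he).ne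
  have h2 := insB_same (hc.swap he 0 1) he (n := 6) rfl
  have h3 : ∀ z ∈ U, ∃ i, f.SameCycle z (![p, p', q, q', h, h'] i) := fun z hz =>
    cover_of_eq (f := f * swap p p')
      (fun x hx => congrArg f (swap_apply_of_ne_of_ne (hx 0) (hx 1)).symm)
      ((H.2 z hz).elim (fun e => ⟨2, e⟩) fun e => ⟨3, e⟩)
  have h4 : ∀ i j, ![p, p', q, q', h, h'] i ≠ ![a, b, a', b'] j := fun i => by
    fin_cases i
    exacts [I₁.dis 0, I₁.dis 2, I₃.dis 0, I₃.dis 2, I₁.dis 1, I₁.dis 3]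
  have h5 : ∀ i j, ![p, p', q, q', h, h'] i ≠ ![a, b', a', b] j := fun i => by
    fin_cases i
    exacts [I₂.dis 0, I₂.dis 2, I₄.dis 0, I₄.dis 2, I₂.dis 3, I₂.dis 1]
  have h6 : U ∪ {a, a', b, b'} ⊆ U ∪ Set.range ![a, b, a', b'] :=
    Set.union_subset_union_right _ fun z hz => by
      rcases hz with rfl | rfl | rfl | rfl
      exacts [⟨0, rfl⟩, ⟨2, rfl⟩, ⟨1, rfl⟩, ⟨3, rfl⟩]
  have h7 : U ∪ {a, a', b, b'} ⊆ U ∪ Set.range ![a, b', a', b] :=
    Set.union_subset_union_right _ fun z hz => by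
      rcases hz with rfl | rfl | rfl | rfl
      exacts [⟨0, rfl⟩, ⟨2, rfl⟩, ⟨3, rfl⟩, ⟨1, rfl⟩]
  have h8 : ![c 0, c 1, c 2, c 3, c 4, c 5] = c := funext fun i => by fin_cases i <;> rfl
  have h9 := insB_fin (c 0) (c 1) (h1 (by decide)) (c 2) ⟨h1 (by decide), h1 (by decide)⟩ (c 3)
    ⟨h1 (by decide), h1 (by decide), h1 (by decide)⟩ (c 4)
    ⟨h1 (by decide), h1 (by decide), h1 (by decide), h1 (by decide)⟩ (c 5)
    ⟨h1 (by decide), h1 (by decide), h1 (by decide), h1 (by decide), h1 (by decide)⟩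
  rw [h8] at h9
  rcases h9 (fun e => H.1 ((h2 2 3).2 e)) (fun l => by
    rw [← h2, ← h2]
    fin_cases l
    exacts [H.2 _ hU.1, H.2 _ hU.2.1, .inl (.refl _ _), .inr (.refl _ _), H.2 _ hU.2.2.1,
      H.2 _ hU.2.2.2]) with (e | e) | e | e
  · exact .inl ⟨_, .inl rfl, insB_LL hc he I₁ h4 _ (fun i => by fin_cases i <;> rfl) h3 h6 e
      fun i => by fin_cases i <;> rfl⟩
  · exact .inl ⟨_, .inr rfl, insB_LL hc he I₂ h5 _ (fun i => by fin_cases i <;> rfl) h3 h7 e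
      fun i => by fin_cases i <;> rfl⟩
  · exact .inr ⟨_, .inl rfl, insB_LL hc he I₃ h4 _ (fun i => by fin_cases i <;> rfl) h3 h6 e
      fun i => by fin_cases i <;> rfl⟩
  · exact .inr ⟨_, .inr rfl, insB_LL hc he I₄ h5 _ (fun i => by fin_cases i <;> rfl) h3 h7 e
      fun i => by fin_cases i <;> rfl⟩

end

end Pool.Agent.P.MP_d39174_gt

end

section
/-! Insertion of crossings along one curve. -/

namespace Pool.Agent.P.MP_d39174_gt

open UpperHalfPlane MatrixGroups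

noncomputable section

open Equiv

namespace St

variable {Vx : Type} [Finite Vx] {G : SimpleGraph Vx} {s : St G} {D : Set G.Dart}

lemma Act.π_mem (h : s.Act D) {a : G.Dart} (ha : a ∈ D) : s.π a ∈ D := by
  have _i : Finite Vx := inferInstance
  by_contra h1
  exact h1 (by rw [s.π.injective (h.fix _ h1)]; exact ha)

omit [Finite Vx] in
lemma Map1_inv_mem (h : s.Act D) {a : G.Dart} (ha : a ∈ D) : s.π⁻¹ a ∈ D := by
  by_contra h1
  have h2 : a = s.π⁻¹ a := (s.π.apply_symm_apply a).symm.trans (h.fix _ h1)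
  exact h1 (h2 ▸ ha)

omit [Finite Vx] in
lemma Map1_symm_not (h : s.Act D) {a : G.Dart} (ha : a ∉ D) : a.symm ∉ D := fun h1 =>
  ha (a.symm_symm ▸ h.symm _ h1)

lemma Map1_closed {X : Type} [Finite X] {σ : Perm X} {U : X → Prop} (hU : ∀ a, U a → U (σ a))
    {a b : X} (h : σ.SameCycle a b) (ha : U a) : U b := by
  obtain ⟨i, rfl⟩ := h.exists_nat_pow_eq
  clear h
  induction i with
  | zero => exact ha
  | succ i ih =>
    rw [pow_succ', Perm.mul_apply]
    exact hU _ ih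

omit [Finite Vx] in
lemma Map1_set (D : Set G.Dart) (a : G.Dart) :
    {h : G.Dart × Bool | h.1 ∈ D ∪ {a, a.symm}} =
      {h | h.1 ∈ D} ∪ {(a, true), (a, false), (a.symm, true), (a.symm, false)} := by
  ext ⟨c, b⟩
  cases b <;> simp

lemma Map1_ins (h : s.Act D) {a a₀ b₀ : G.Dart} (ha : a ∉ D) (h0 : a₀ ∈ D)
    (e0 : a₀.fst = a.fst) (h1 : b₀ ∈ D) (e1 : b₀.fst = a.snd) (e : Bool) :
    ∃ t : St G, (t.Act (D ∪ {a, a.symm}) ∧ t.π a₀ = a ∧
        t.π a = s.π a₀ ∧ ∀ c, c.fst = a.fst → c ≠ a₀ → c ≠ a → t.π c = s.π c) ∧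
      (t.f (a₀, true) = (a.symm, e) ∧ t.f (b₀, true) = (a, !e) ∧
        t.f (s.π a₀, false) = (a.symm, !e) ∧ t.f (s.π b₀, false) = (a, e)) ∧
      (t.f (a, true) = s.f (a₀, true) ∧ t.f (a.symm, true) = s.f (b₀, true) ∧
        t.f (a, false) = s.f (s.π a₀, false) ∧ t.f (a.symm, false) = s.f (s.π b₀, false)) ∧
      ∀ x : G.Dart × Bool, x ≠ (a₀, true) → x ≠ (b₀, true) → x ≠ (s.π a₀, false) →
        x ≠ (s.π b₀, false) → x.1 ≠ a → x.1 ≠ a.symm → t.f x = s.f x := by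
  classical
  have : Finite G.Dart := Finite.of_injective _ SimpleGraph.Dart.toProd_injective
  have ha' : a.symm ∉ D := Map1_symm_not h ha
  have pa := h.fix a ha
  have pa' := h.fix a.symm ha'
  have n1 : ∀ c ∈ D, c ≠ a := fun c hc e => ha (e ▸ hc)
  have n2 : ∀ c ∈ D, c ≠ a.symm := fun c hc e => ha' (e ▸ hc)
  have n3 : a₀ ≠ b₀ := fun e => a.fst_ne_snd (by rw [← e0, e, e1])
  have n4 : a.symm ≠ a := a.symm_ne
  obtain ⟨p, p1, p2, p3, p4, p5⟩ : ∃ p : Perm G.Dart, p a₀ = a ∧ p a = s.π a₀ ∧ p b₀ = a.symm ∧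
      p a.symm = s.π b₀ ∧ ∀ c, c ≠ a₀ → c ≠ a → c ≠ b₀ → c ≠ a.symm → p c = s.π c := by
    refine ⟨s.π * swap a₀ a * swap b₀ a.symm, ?_, ?_, ?_, ?_, fun c c1 c2 c3 c4 => ?_⟩
    · rw [Perm.mul_apply, Perm.mul_apply, swap_apply_of_ne_of_ne n3 (n2 _ h0), swap_apply_left, pa]
    · rw [Perm.mul_apply, Perm.mul_apply, swap_apply_of_ne_of_ne (n1 _ h1).symm n4.symm,
        swap_apply_right]
    · rw [Perm.mul_apply, Perm.mul_apply, swap_apply_left,
        swap_apply_of_ne_of_ne (n2 _ h0).symm n4, pa']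
    · rw [Perm.mul_apply, Perm.mul_apply, swap_apply_right,
        swap_apply_of_ne_of_ne n3.symm (n1 _ h1)]
    · rw [Perm.mul_apply, Perm.mul_apply, swap_apply_of_ne_of_ne c3 c4,
        swap_apply_of_ne_of_ne c1 c2]
  have cases5 : ∀ c : G.Dart, c = a₀ ∨ c = a ∨ c = b₀ ∨ c = a.symm ∨ p c = s.π c := fun c => by
    by_contra hc
    simp only [not_or] at hc
    exact hc.2.2.2.2 (p5 c hc.1 hc.2.1 hc.2.2.1 hc.2.2.2.1)
  obtain ⟨g, g1, g2, g3⟩ : ∃ g : G.Dart → Bool, g a = !e ∧ g a.symm = e ∧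
      ∀ c, c ≠ a → c ≠ a.symm → g c = s.sg c :=
    ⟨fun c => if c = a then !e else if c = a.symm then e else s.sg c, if_pos rfl,
      (if_neg n4).trans (if_pos rfl), fun c c1 c2 => (if_neg c1).trans (if_neg c2)⟩
  have g4 : ∀ c : G.Dart, c ≠ a → c ≠ a.symm → g c.symm = s.sg c.symm := fun c c1 c2 =>
    g3 _ (fun e => c2 (by rw [← e, c.symm_symm])) fun e => c1 (by rw [← c.symm_symm, e, a.symm_symm])
  have g5 : ∀ c ∈ D, g c.symm = s.sg c.symm := fun c hc => g4 c (n1 c hc) (n2 c hc)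
  have pf : ∀ c, (p c).fst = c.fst := fun c => by
    rcases cases5 c with rfl | rfl | rfl | rfl | hc
    · rw [p1, e0]
    · rw [p2, s.fst, e0]
    · rw [p3, e1]
      rfl
    · rw [p4, s.fst, e1]
      rfl
    · rw [hc, s.fst]
  have gf : ∀ c, g c.symm = !g c := fun c => by
    by_cases c1 : c = a
    · rw [c1, g1, g2, Bool.not_not]
    by_cases c2 : c = a.symm
    · rw [c2, a.symm_symm, g1, g2]
    · rw [g4 c c1 c2, g3 c c1 c2, s.flip]
  have q1 : p⁻¹ a = a₀ := Perm.inv_eq_iff_eq.2 p1.symm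
  have q2 : p⁻¹ (s.π a₀) = a := Perm.inv_eq_iff_eq.2 p2.symm
  have q3 : p⁻¹ a.symm = b₀ := Perm.inv_eq_iff_eq.2 p3.symm
  have q4 : p⁻¹ (s.π b₀) = a.symm := Perm.inv_eq_iff_eq.2 p4.symm
  have sc : ∀ c, p.SameCycle c (s.π c) := fun c => by
    rcases cases5 c with rfl | rfl | rfl | rfl | hc
    · rw [← p2, Perm.sameCycle_apply_right, ← p1, Perm.sameCycle_apply_right]
    · rw [pa]
    · rw [← p4, Perm.sameCycle_apply_right, ← p3, Perm.sameCycle_apply_right]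
    · rw [pa']
    · rw [← hc, Perm.sameCycle_apply_right]
  have rep : ∀ c ∈ D ∪ {a, a.symm}, ∃ r ∈ D, r.fst = c.fst ∧ p.SameCycle r c := by
    rintro c (hc | rfl | rfl)
    · exact ⟨c, hc, rfl, .refl _ _⟩
    · exact ⟨a₀, h0, e0, by rw [← p1, Perm.sameCycle_apply_right]⟩
    · exact ⟨b₀, h1, e1, by rw [← p3, Perm.sameCycle_apply_right]⟩
  refine ⟨⟨p, g, pf, gf⟩, ⟨⟨?_, fun c hc => ?_, fun c hc c' hc' ec => ?_⟩, p1, p2,
    fun c c0 c1 c2 => p5 c c1 c2 (fun e => a.fst_ne_snd (by rw [← c0, e, e1]))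
      fun e => a.fst_ne_snd (by rw [← c0, e]; rfl)⟩, ⟨?_, ?_, ?_, ?_⟩, ⟨?_, ?_, ?_, ?_⟩, ?_⟩
  · rintro c (hc | rfl | rfl)
    · exact .inl (h.symm c hc)
    · exact .inr (.inr rfl)
    · exact .inr (.inl a.symm_symm)
  · have c1 : c ∉ D := fun h => hc (.inl h)
    exact (p5 c (fun e => c1 (e ▸ h0)) (fun e => hc (.inr (.inl e))) (fun e => c1 (e ▸ h1))
      fun e => hc (.inr (.inr e))).trans (h.fix c c1)
  · obtain ⟨r, r1, r2, r3⟩ := rep c hc
    obtain ⟨r', r1', r2', r3'⟩ := rep c' hc'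
    refine (r3.symm.trans ?_).trans r3'
    exact Map1_closed (U := fun b => p.SameCycle r b) (fun b hb => hb.trans (sc b))
      (h.cyc r r1 r' r1' (by rw [r2, ec, r2'])) (.refl _ _)
  · rw [f_true]
    dsimp only
    rw [p1, g2]
  · rw [f_true]
    dsimp only
    rw [p3, a.symm_symm, g1]
  · rw [f_false]
    dsimp only
    rw [q2, g2]
  · rw [f_false]
    dsimp only
    rw [q4, a.symm_symm, g1, Bool.not_not]
  · rw [f_true, f_true]
    dsimp only
    rw [p2, g5 _ (h.π_mem h0)]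
  · rw [f_true, f_true]
    dsimp only
    rw [p4, g5 _ (h.π_mem h1)]
  · rw [f_false, f_false]
    dsimp only
    rw [q1, (Perm.inv_eq_iff_eq.2 rfl : s.π⁻¹ (s.π a₀) = a₀), g5 _ h0]
  · rw [f_false, f_false]
    dsimp only
    rw [q3, (Perm.inv_eq_iff_eq.2 rfl : s.π⁻¹ (s.π b₀) = b₀), g5 _ h1]
  · rintro ⟨c, _ | _⟩ c1 c2 c3 c4 c5 c6
    · have d1 : s.π⁻¹ c ≠ a := fun e => c5 (by rw [Perm.inv_eq_iff_eq.1 e, pa])
      have d2 : s.π⁻¹ c ≠ a.symm := fun e => c6 (by rw [Perm.inv_eq_iff_eq.1 e, pa'])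
      have d3 : p⁻¹ c = s.π⁻¹ c := Perm.inv_eq_iff_eq.2 (by
        rw [p5 _ (fun e => c3 (by rw [Perm.inv_eq_iff_eq.1 e])) d1
          (fun e => c4 (by rw [Perm.inv_eq_iff_eq.1 e])) d2]
        exact (s.π.apply_symm_apply c).symm)
      rw [f_false, f_false]
      dsimp only
      rw [d3, g4 _ d1 d2]
    · have d1 : s.π c ≠ a := fun e => c5 (s.π.injective (e.trans pa.symm))
      have d2 : s.π c ≠ a.symm := fun e => c6 (s.π.injective (e.trans pa'.symm))
      rw [f_true, f_true]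
      dsimp only
      rw [p5 c (fun e => c1 (by rw [e])) c5 (fun e => c2 (by rw [e])) c6, g4 _ d1 d2]

/-- Insertion of the crossing `a` after `a₀` and `b₀`, with either sign. -/
theorem Act.insert (h : s.Act D) {a a₀ b₀ : G.Dart} (ha : a ∉ D) (h0 : a₀ ∈ D)
    (e0 : a₀.fst = a.fst) (h1 : b₀ ∈ D) (e1 : b₀.fst = a.snd) :
    ∃ s₁ s₂ : St G, (∀ t, t = s₁ ∨ t = s₂ → t.Act (D ∪ {a, a.symm}) ∧ t.π a₀ = a ∧
        t.π a = s.π a₀ ∧ ∀ c, c.fst = a.fst → c ≠ a₀ → c ≠ a → t.π c = s.π c) ∧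
      Ins s.f s₁.f ![(a₀, true), (b₀, true), (s.π a₀, false), (s.π b₀, false)]
        ![(a, true), (a.symm, true), (a, false), (a.symm, false)] ∧
      Ins s.f s₂.f ![(a₀, true), (s.π b₀, false), (s.π a₀, false), (b₀, true)]
        ![(a, true), (a.symm, false), (a, false), (a.symm, true)] := by
  obtain ⟨s₁, A1, ⟨a1, a2, a3, a4⟩, ⟨a5, a6, a7, a8⟩, a9⟩ := Map1_ins h ha h0 e0 h1 e1 true
  obtain ⟨s₂, B1, ⟨b1, b2, b3, b4⟩, ⟨b5, b6, b7, b8⟩, b9⟩ := Map1_ins h ha h0 e0 h1 e1 false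
  have ha' : a.symm ∉ D := Map1_symm_not h ha
  have pa := h.fix a ha
  have pa' := h.fix a.symm ha'
  have ia : s.π⁻¹ a = a := Perm.inv_eq_iff_eq.2 pa.symm
  have ia' : s.π⁻¹ a.symm = a.symm := Perm.inv_eq_iff_eq.2 pa'.symm
  have n1 : ∀ c ∈ D, c ≠ a := fun c hc e => ha (e ▸ hc)
  have n2 : ∀ c ∈ D, c ≠ a.symm := fun c hc e => ha' (e ▸ hc)
  have n3 : a₀ ≠ b₀ := fun e => a.fst_ne_snd (by rw [← e0, e, e1])
  have n4 : a.symm ≠ a := a.symm_ne
  have m1 := n1 _ h0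
  have m2 := n1 _ h1
  have m3 := n1 _ (h.π_mem h0)
  have m4 := n1 _ (h.π_mem h1)
  have m5 := n2 _ h0
  have m6 := n2 _ h1
  have m7 := n2 _ (h.π_mem h0)
  have m8 := n2 _ (h.π_mem h1)
  have hv : ∀ x : G.Dart × Bool, x.1 = a ∨ x.1 = a.symm → (s.f x).1 = a ∨ (s.f x).1 = a.symm := by
    rintro ⟨c, _ | _⟩ (rfl | rfl)
    · exact .inr (by rw [f_false, ia])
    · exact .inl (by rw [f_false, ia', a.symm_symm])
    · exact .inr (by rw [f_true, pa])
    · exact .inl (by rw [f_true, pa', a.symm_symm])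
  refine ⟨s₁, s₂, by rintro t (rfl | rfl); exacts [A1, B1], ⟨?_, ?_, fun i j => ?_, fun i => ?_,
    fun i => ?_, fun i => ?_, fun x hx hx' => ?_⟩, ⟨?_, ?_, fun i j => ?_, fun i => ?_,
    fun i => ?_, fun i => ?_, fun x hx hx' => ?_⟩⟩
  · intro i j
    fin_cases i <;> fin_cases j <;> simp [n3, n3.symm]
  · intro i j
    fin_cases i <;> fin_cases j <;> simp [n4, n4.symm]
  · fin_cases i <;> fin_cases j <;> simp [m1, m2, m3, m4, m5, m6, m7, m8]
  · have h2 := hv (![(a, true), (a.symm, true), (a, false), (a.symm, false)] i)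
      (by fin_cases i <;> simp)
    generalize s.f _ = y at h2 ⊢
    obtain ⟨c, _ | _⟩ := y <;> rcases h2 with rfl | rfl
    exacts [⟨2, rfl⟩, ⟨3, rfl⟩, ⟨0, rfl⟩, ⟨1, rfl⟩]
  · fin_cases i
    exacts [a1, a2, a3, a4]
  · fin_cases i
    exacts [a5, a6, a7, a8]
  · refine a9 x (hx 0) (hx 1) (hx 2) (hx 3) ?_ ?_ <;> obtain ⟨c, _ | _⟩ := x <;> rintro rfl
    exacts [hx' 2 rfl, hx' 0 rfl, hx' 3 rfl, hx' 1 rfl]
  · intro i j
    fin_cases i <;> fin_cases j <;> simp [n3, n3.symm]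
  · intro i j
    fin_cases i <;> fin_cases j <;> simp [n4, n4.symm]
  · fin_cases i <;> fin_cases j <;> simp [m1, m2, m3, m4, m5, m6, m7, m8]
  · have h2 := hv (![(a, true), (a.symm, false), (a, false), (a.symm, true)] i)
      (by fin_cases i <;> simp)
    generalize s.f _ = y at h2 ⊢
    obtain ⟨c, _ | _⟩ := y <;> rcases h2 with rfl | rfl
    exacts [⟨2, rfl⟩, ⟨1, rfl⟩, ⟨0, rfl⟩, ⟨3, rfl⟩]
  · fin_cases i
    exacts [b1, b4, b3, b2]
  · fin_cases i
    exacts [b5, b8, b7, b6]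
  · refine b9 x (hx 0) (hx 3) (hx 2) (hx 1) ?_ ?_ <;> obtain ⟨c, _ | _⟩ := x <;> rintro rfl
    exacts [hx' 2 rfl, hx' 0 rfl, hx' 1 rfl, hx' 3 rfl]

omit [Finite Vx] in
lemma Map1_pick {s₁ s₂ : St G} {k : Perm (G.Dart × Bool)} (h : k = s₁.f ∨ k = s₂.f) :
    ∃ t : St G, (t = s₁ ∨ t = s₂) ∧ k = t.f :=
  h.elim (fun e => ⟨s₁, .inl rfl, e⟩) fun e => ⟨s₂, .inr rfl, e⟩

omit [Finite Vx] in
lemma Map1_LL {v : Vx} (h : s.Act D) {e : Fin 3 → (G.Dart × Bool) × (G.Dart × Bool)}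
    (H : LL s.f {h | h.1 ∈ D} e)
    (he : ∀ i, ∃ c ∈ D, c.fst = v ∧ e i = ((c, true), (s.π c, false))) : s.P2 D v := by
  obtain ⟨i, j, h1, h2⟩ := H
  obtain ⟨c, c1, c2, c3⟩ := he i
  obtain ⟨d, d1, d2, d3⟩ := he j
  rw [c3] at h1
  rw [d3] at h2
  exact ⟨⟨h, c, c1, c2, h1⟩, d, d1, d2, h2⟩

omit [Finite Vx] in
lemma Map1_torus {t : G.Dart} (h1 : s.π t = t) (h2 : s.π t.symm = t.symm) :
    One s.f {h | h.1 ∈ ({t, t.symm} : Set G.Dart)} := by
  have i1 : s.π⁻¹ t = t := Perm.inv_eq_iff_eq.2 h1.symm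
  have i2 : s.π⁻¹ t.symm = t.symm := Perm.inv_eq_iff_eq.2 h2.symm
  have a1 : s.f.SameCycle (t, true) (t.symm, !s.sg t) := by
    rw [← s.flip, ← Perm.sameCycle_apply_left, f_true, h1]
  have a2 : s.f.SameCycle (t, false) (t.symm, s.sg t) := by
    rw [← Perm.sameCycle_apply_left, f_false, i1, s.flip, Bool.not_not]
  have a3 : s.f.SameCycle (t.symm, true) (t, s.sg t) := by
    rw [← Perm.sameCycle_apply_left, f_true, h2, t.symm_symm]
  have a4 : s.f.SameCycle (t.symm, false) (t, !s.sg t) := by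
    rw [← Perm.sameCycle_apply_left, f_false, i2, t.symm_symm]
  have key : ∀ x ∈ {h : G.Dart × Bool | h.1 ∈ ({t, t.symm} : Set G.Dart)},
      s.f.SameCycle (t, true) x := by
    cases hs : s.sg t <;> rw [hs] at a1 a2 a3 a4 <;> rintro ⟨c, _ | _⟩ (rfl | rfl)
    exacts [a1.trans a3, (a1.trans a3).trans a2, .refl _ _, a1,
      a1.trans a4, a1, .refl _ _, a3.symm]
  exact fun x hx y hy => (key x hx).symm.trans (key y hy)

theorem P1.step (h : s.P1 D) (full : ∀ v, ∃ c ∈ D, c.fst = v) {a : G.Dart} (ha : a ∉ D) :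
    ∃ t : St G, t.Q2 (D ∪ {a, a.symm}) a.fst := by
  classical
  have : Finite G.Dart := Finite.of_injective _ SimpleGraph.Dart.toProd_injective
  obtain ⟨a₀, h0, e0⟩ := full a.fst
  obtain ⟨b₀, h1, e1⟩ := full a.snd
  obtain ⟨s₁, s₂, hA, I₁, I₂⟩ := h.1.insert ha h0 e0 h1 e1
  obtain ⟨k, hk, H⟩ := ins_one (U := {h : G.Dart × Bool | h.1 ∈ D}) I₁ I₂
    ⟨h0, h.1.π_mem h0, h1, h.1.π_mem h1⟩ h.2
  obtain ⟨t, ht, rfl⟩ := Map1_pick hk
  obtain ⟨t1, t2, t3, -⟩ := hA t ht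
  rw [← Map1_set] at H
  rcases H with H | H
  · exact ⟨t, t1, a₀, .inl h0, e0, t2.symm ▸ H⟩
  · exact ⟨t, t1, a, .inr (.inl rfl), rfl, t3.symm ▸ H⟩

theorem Q2.step {a : G.Dart} (h : s.Q2 D a.fst) (full : ∀ v, ∃ c ∈ D, c.fst = v) (ha : a ∉ D) :
    ∃ t : St G, t.Mid (D ∪ {a, a.symm}) a.fst := by
  classical
  have : Finite G.Dart := Finite.of_injective _ SimpleGraph.Dart.toProd_injective
  obtain ⟨hs, a₀, h0, e0, H0⟩ := h
  obtain ⟨b₀, h1, e1⟩ := full a.snd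
  obtain ⟨s₁, s₂, hA, I₁, I₂⟩ := hs.insert ha h0 e0 h1 e1
  obtain ⟨k, hk, H⟩ := ins_two (U := {h : G.Dart × Bool | h.1 ∈ D}) I₁ I₂ ⟨h1, hs.π_mem h1⟩ H0
  obtain ⟨t, ht, rfl⟩ := Map1_pick hk
  obtain ⟨t1, t2, t3, -⟩ := hA t ht
  rw [← Map1_set] at H
  refine ⟨t, t1, a₀, .inl h0, a, .inr (.inl rfl), e0, rfl, fun e => ha (e ▸ h0), ?_⟩
  rw [t2, t3]
  exact H

theorem Mid.step {a : G.Dart} (h : s.Mid D a.fst) (full : ∀ v, ∃ c ∈ D, c.fst = v) (ha : a ∉ D) :
    ∃ t : St G, t.P2 (D ∪ {a, a.symm}) a.fst := by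
  classical
  have : Finite G.Dart := Finite.of_injective _ SimpleGraph.Dart.toProd_injective
  obtain ⟨hs, a₁, h1, a₂, h2, e1, e2, hne, H0⟩ := h
  obtain ⟨b₀, h3, e3⟩ := full a.snd
  obtain ⟨s₁, s₂, hA, I₁, I₂⟩ := hs.insert ha h1 e1 h3 e3
  obtain ⟨s₃, s₄, hB, I₃, I₄⟩ := hs.insert ha h2 e2 h3 e3
  rcases ins_mid (U := {h : G.Dart × Bool | h.1 ∈ D}) I₁ I₂ I₃ I₄
    ⟨fun e => hne (Prod.mk.inj e).1, by simp, by simp,
      fun e => hne (s.π.injective (Prod.mk.inj e).1)⟩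
    ⟨h1, hs.π_mem h1, h3, hs.π_mem h3⟩ H0 with ⟨k, hk, H⟩ | ⟨k, hk, H⟩
  · obtain ⟨t, ht, rfl⟩ := Map1_pick hk
    obtain ⟨t1, t2, t3, t4⟩ := hA t ht
    rw [← Map1_set] at H
    refine ⟨t, Map1_LL t1 H fun i => ?_⟩
    fin_cases i
    · exact ⟨a₁, .inl h1, e1, by rw [t2]; rfl⟩
    · exact ⟨a, .inr (.inl rfl), rfl, by rw [t3]; rfl⟩
    · exact ⟨a₂, .inl h2, e2, by rw [t4 a₂ e2 hne.symm fun e => ha (e ▸ h2)]; rfl⟩
  · obtain ⟨t, ht, rfl⟩ := Map1_pick hk
    obtain ⟨t1, t2, t3, t4⟩ := hB t ht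
    rw [← Map1_set] at H
    refine ⟨t, Map1_LL t1 H fun i => ?_⟩
    fin_cases i
    · exact ⟨a₂, .inl h2, e2, by rw [t2]; rfl⟩
    · exact ⟨a, .inr (.inl rfl), rfl, by rw [t3]; rfl⟩
    · exact ⟨a₁, .inl h1, e1, by rw [t4 a₁ e1 hne fun e => ha (e ▸ h1)]; rfl⟩

theorem P2.step {a : G.Dart} (h : s.P2 D a.fst) (full : ∀ v, ∃ c ∈ D, c.fst = v) (ha : a ∉ D) :
    ∃ t : St G, t.P1 (D ∪ {a, a.symm}) := by
  classical
  have : Finite G.Dart := Finite.of_injective _ SimpleGraph.Dart.toProd_injective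
  obtain ⟨⟨hs, a₁, h1, e1, H1⟩, a₂, h2, e2, H2⟩ := h
  obtain ⟨b₀, h3, e3⟩ := full a.snd
  have fin : ∀ a₀ ∈ D, a₀.fst = a.fst →
      ((Two s.f {h | h.1 ∈ D} (a₀, true) (s.π a₀, false) ∧
        s.f.SameCycle (b₀, true) (s.π b₀, false)) ∨
      (Two s.f {h | h.1 ∈ D} (b₀, true) (s.π b₀, false) ∧
        s.f.SameCycle (a₀, true) (s.π a₀, false))) → ∃ t : St G, t.P1 (D ∪ {a, a.symm}) := by
    intro a₀ h0 e0 H0
    obtain ⟨s₁, s₂, hA, I₁, I₂⟩ := hs.insert ha h0 e0 h3 e3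
    obtain ⟨k, hk, H⟩ := ins_fin (U := {h : G.Dart × Bool | h.1 ∈ D}) I₁ I₂
      ⟨h0, hs.π_mem h0, h3, hs.π_mem h3⟩ H0
    obtain ⟨t, ht, rfl⟩ := Map1_pick hk
    rw [← Map1_set] at H
    exact ⟨t, (hA t ht).1, H⟩
  by_cases hb : s.f.SameCycle (b₀, true) (s.π b₀, false)
  · exact fin a₁ h1 e1 (.inl ⟨H1, hb⟩)
  · refine fin a₂ h2 e2 (.inr ⟨⟨hb, fun z hz => ?_⟩, H2⟩)
    rcases H1.2 (b₀, true) h3 with u | u <;> rcases H1.2 (s.π b₀, false) (hs.π_mem h3) with v | v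
    · exact (hb (u.trans v.symm)).elim
    · exact (H1.2 z hz).imp (fun w => w.trans u.symm) fun w => w.trans v.symm
    · exact (H1.2 z hz).symm.imp (fun w => w.trans u.symm) fun w => w.trans v.symm
    · exact (hb (u.trans v.symm)).elim

/-- A new torus `t` is attached by the crossing `a`. -/
theorem P1.grow (h : s.P1 D) {t a : G.Dart} (ht : ∀ c ∈ D, c.fst ≠ t.fst ∧ c.fst ≠ t.snd)
    (h0 : ∃ c ∈ D, c.fst = a.fst) (e : a.snd = t.snd) :
    ∃ s' : St G, s'.P1 (D ∪ {t, t.symm} ∪ {a, a.symm}) := by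
  classical
  have : Finite G.Dart := Finite.of_injective _ SimpleGraph.Dart.toProd_injective
  obtain ⟨a₀, h1, e1⟩ := h0
  have t1 : t ∉ D := fun h2 => (ht t h2).1 rfl
  have t2 : t.symm ∉ D := fun h2 => (ht _ h2).2 rfl
  have p1 := h.1.fix _ t1
  have p2 := h.1.fix _ t2
  have hs : s.Act (D ∪ {t, t.symm}) := by
    refine ⟨?_, fun c hc => h.1.fix c fun h2 => hc (.inl h2), ?_⟩
    · rintro c (hc | rfl | rfl)
      · exact .inl (h.1.symm c hc)
      · exact .inr (.inr rfl)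
      · exact .inr (.inl t.symm_symm)
    · rintro c (hc | rfl | rfl) c' (hc' | rfl | rfl) ec
      · exact h.1.cyc c hc c' hc' ec
      · exact ((ht c hc).1 ec).elim
      · exact ((ht c hc).2 ec).elim
      · exact ((ht c' hc').1 ec.symm).elim
      · exact .refl _ _
      · exact (c.fst_ne_snd ec).elim
      · exact ((ht c' hc').2 ec.symm).elim
      · exact (c'.fst_ne_snd ec.symm).elim
      · exact .refl _ _
  have ha : a ∉ D ∪ {t, t.symm} := by
    rintro (h2 | rfl | rfl)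
    · exact (ht _ (h.1.symm a h2)).2 e
    · exact (ht a₀ h1).1 e1
    · exact t.fst_ne_snd e
  obtain ⟨s₁, s₂, hA, I₁, -⟩ := hs.insert (b₀ := t.symm) ha (.inl h1) e1 (.inr (.inr rfl)) e.symm
  refine ⟨s₁, (hA s₁ (.inl rfl)).1, ?_⟩
  rw [Map1_set]
  refine ins_merge (U := {h : G.Dart × Bool | h.1 ∈ D})
    (U' := {h : G.Dart × Bool | h.1 ∈ ({t, t.symm} : Set G.Dart)}) I₁
    ⟨h1, h.1.π_mem h1⟩ ⟨.inr rfl, .inr p2⟩ h.2 (Map1_torus p1 p2) fun hc => t2 ?_
  refine Map1_closed (U := fun x : G.Dart × Bool => x.1 ∈ D) ?_ hc h1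
  rintro ⟨c, _ | _⟩ hc
  · rw [f_false]
    exact h.1.symm _ (Map1_inv_mem h.1 hc)
  · rw [f_true]
    exact h.1.symm _ (h.1.π_mem hc)

theorem exists_torus (t : G.Dart) : ∃ s : St G, s.P1 {t, t.symm} := by
  refine ⟨⟨1, fun a => decide (Finite.equivFin Vx a.fst < Finite.equivFin Vx a.snd),
    fun _ => rfl, fun a => ?_⟩, ⟨?_, fun _ _ => rfl, ?_⟩, Map1_torus rfl rfl⟩
  · have h : Finite.equivFin Vx a.fst ≠ Finite.equivFin Vx a.snd :=
      fun e => a.fst_ne_snd ((Finite.equivFin Vx).injective e)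
    change decide (Finite.equivFin Vx a.snd < Finite.equivFin Vx a.fst) = _
    rw [← decide_not, decide_eq_decide, not_lt]
    exact ⟨le_of_lt, fun h1 => lt_of_le_of_ne h1 h.symm⟩
  · rintro c (rfl | rfl)
    · exact .inr rfl
    · exact .inl t.symm_symm
  · rintro c (rfl | rfl) c' (rfl | rfl) ec
    · exact .refl _ _
    · exact (c.fst_ne_snd ec).elim
    · exact (c'.fst_ne_snd ec.symm).elim
    · exact .refl _ _

end St

end

end Pool.Agent.P.MP_d39174_gt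

end

section
/-! Existence of a filling system with one complementary polygon. -/

namespace Pool.Agent.P.MP_d39174_gt

open UpperHalfPlane MatrixGroups

noncomputable section

open Equiv

namespace St

variable {Vx : Type} [Finite Vx] {G : SimpleGraph Vx} {s : St G} {D : Set G.Dart}

/-- Removal of one dart from a set of darts at the curve `v`. -/
lemma Map2_peel {v : Vx} {R : Finset G.Dart} (full : ∀ v, ∃ c ∈ D, c.fst = v)
    (hv : ∀ a ∈ R, a.fst = v) (hD : ∀ a ∈ R, a ∉ D) {k : ℕ} (hk : R.card = k + 1) :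
    ∃ a : G.Dart, a.fst = v ∧ a ∉ D ∧ (∀ v, ∃ c ∈ D ∪ {a, a.symm}, c.fst = v) ∧
      ∃ R' : Finset G.Dart, (∀ c ∈ R', c.fst = v) ∧ (∀ c ∈ R', c ∉ D ∪ {a, a.symm}) ∧
        R'.card = k ∧ D ∪ {a, a.symm} ∪ {c | c ∈ R' ∨ c.symm ∈ R'} =
          D ∪ {c | c ∈ R ∨ c.symm ∈ R} := by
  classical
  obtain ⟨a, ha⟩ : R.Nonempty := Finset.card_pos.1 (by omega)
  refine ⟨a, hv a ha, hD a ha, fun w => ?_, R.erase a, fun c hc => hv c (Finset.mem_of_mem_erase hc),
    fun c hc => ?_, ?_, ?_⟩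
  · obtain ⟨c, hc, e⟩ := full w
    exact ⟨c, Or.inl hc, e⟩
  · obtain ⟨h1, h2⟩ := Finset.mem_erase.1 hc
    rintro (h | h | h)
    · exact hD c h2 h
    · exact h1 h
    · have h' : c = a.symm := h
      have e1 := hv c h2
      have e2 := hv a ha
      rw [h'] at e1
      exact a.snd_ne_fst (e1.trans e2.symm)
  · rw [Finset.card_erase_of_mem ha]; omega
  · ext c
    simp only [Set.mem_union, Set.mem_insert_iff, Set.mem_singleton_iff, Set.mem_ofPred_eq,
      Finset.mem_erase]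
    constructor
    · rintro ((h | h | h) | h | h)
      · exact Or.inl h
      · exact Or.inr (Or.inl (h ▸ ha))
      · exact Or.inr (Or.inr (by rw [h, SimpleGraph.Dart.symm_symm]; exact ha))
      · exact Or.inr (Or.inl h.2)
      · exact Or.inr (Or.inr h.2)
    · rintro (h | h | h)
      · exact Or.inl (Or.inl h)
      · by_cases e : c = a
        · exact Or.inl (Or.inr (Or.inl e))
        · exact Or.inr (Or.inl ⟨e, h⟩)
      · by_cases e : c.symm = a
        · exact Or.inl (Or.inr (Or.inr (by rw [← e, SimpleGraph.Dart.symm_symm])))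
        · exact Or.inr (Or.inr ⟨e, h⟩)

lemma Map2_Q2 {v : Vx} (k : ℕ) : ∀ {s : St G} {D : Set G.Dart} {R : Finset G.Dart},
    s.Q2 D v → (∀ v, ∃ c ∈ D, c.fst = v) → (∀ a ∈ R, a.fst = v) → (∀ a ∈ R, a ∉ D) →
    R.card = 2 * k + 3 → ∃ t : St G, t.P1 (D ∪ {c | c ∈ R ∨ c.symm ∈ R}) := by
  have key : ∀ (j : ℕ) {s : St G} {D : Set G.Dart} {R : Finset G.Dart},
      s.Q2 D v → (∀ v, ∃ c ∈ D, c.fst = v) → (∀ a ∈ R, a.fst = v) → (∀ a ∈ R, a ∉ D) →
      R.card = j + 2 → ∃ (t : St G) (D' : Set G.Dart) (R' : Finset G.Dart), t.P2 D' v ∧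
        (∀ v, ∃ c ∈ D', c.fst = v) ∧ (∀ a ∈ R', a.fst = v) ∧ (∀ a ∈ R', a ∉ D') ∧
        R'.card = j ∧ D' ∪ {c | c ∈ R' ∨ c.symm ∈ R'} = D ∪ {c | c ∈ R ∨ c.symm ∈ R} := by
    intro j s D R h full hv hD hk
    obtain ⟨a, rfl, a2, full1, R1, hv1, hD1, hk1, e1⟩ := Map2_peel (k := j + 1) full hv hD hk
    obtain ⟨t1, h1⟩ := Q2.step h full a2
    obtain ⟨b, b1, b2, full2, R2, hv2, hD2, hk2, e2⟩ := Map2_peel full1 hv1 hD1 hk1
    rw [← b1] at h1
    obtain ⟨t2, h2⟩ := Mid.step h1 full1 b2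
    rw [b1] at h2
    exact ⟨t2, _, R2, h2, full2, hv2, hD2, hk2, e2.trans e1⟩
  induction k with
  | zero =>
    intro s D R h full hv hD hk
    obtain ⟨t, D', R', h1, full1, hv1, hD1, hk1, e1⟩ := key 1 h full hv hD hk
    obtain ⟨a, rfl, a2, -, R2, -, -, hk2, e2⟩ := Map2_peel (k := 0) full1 hv1 hD1 hk1
    obtain ⟨t2, h2⟩ := P2.step h1 full1 a2
    rw [Finset.card_eq_zero] at hk2
    refine ⟨t2, ?_⟩
    rw [← e1, ← e2, hk2]
    simpa using h2
  | succ k ih =>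
    intro s D R h full hv hD hk
    obtain ⟨t, D', R', h1, full1, hv1, hD1, hk1, e1⟩ := key (2 * k + 3) h full hv hD (by omega)
    rw [← e1]
    exact ih h1.1 full1 hv1 hD1 hk1

/-- An even number, at least four, of crossings on one curve. -/
theorem P1.group (h : s.P1 D) (full : ∀ v, ∃ c ∈ D, c.fst = v) {v : Vx} {R : Finset G.Dart}
    (hv : ∀ a ∈ R, a.fst = v) (hD : ∀ a ∈ R, a ∉ D) (ev : Even R.card) (h4 : 4 ≤ R.card) :
    ∃ t : St G, t.P1 (D ∪ {a | a ∈ R ∨ a.symm ∈ R}) := by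
  obtain ⟨m, hm⟩ := ev
  obtain ⟨a, rfl, a2, full1, R1, hv1, hD1, hk1, e1⟩ :=
    Map2_peel (k := 2 * (m - 2) + 3) full hv hD (by omega)
  obtain ⟨t1, h1⟩ := P1.step h full a2
  rw [← e1]
  exact Map2_Q2 _ h1 full1 hv1 hD1 hk1

lemma Map2_ρρ (s : St G) (a : G.Dart) (b : Bool) : s.ρ (s.ρ (a, b)) = (a, !b) := by
  rw [ρ_apply, ρ_apply, s.flip, SimpleGraph.Dart.symm_symm]
  cases b <;> cases s.sg a <;> rfl

lemma Map2_true (s : St G) (a : G.Dart) (n : ℕ) :
    ((s.ρ * s.ρ * s.α) ^ n) (a, true) = ((s.π ^ n) a, true) := by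
  induction n with
  | zero => rfl
  | succ n ih =>
    rw [pow_succ', pow_succ', Perm.mul_apply, ih, Perm.mul_apply, Perm.mul_apply, α_true,
      Map2_ρρ]
    rfl

lemma Map2_false (s : St G) (a : G.Dart) (n : ℕ) :
    ((s.ρ * s.ρ * s.α) ^ n) (a, false) = ((s.π⁻¹ ^ n) a, false) := by
  induction n with
  | zero => rfl
  | succ n ih =>
    rw [pow_succ', pow_succ', Perm.mul_apply, ih, Perm.mul_apply, Perm.mul_apply, α_false,
      Map2_ρρ]
    rfl

lemma Map2_same (s : St G) (a a' : G.Dart) (b b' : Bool) :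
    (s.ρ * s.ρ * s.α).SameCycle (a, b) (a', b') ↔ b = b' ∧ s.π.SameCycle a a' := by
  have : Finite G.Dart := Finite.of_injective _ SimpleGraph.Dart.toProd_injective
  constructor
  · intro h
    obtain ⟨n, hn⟩ := h.exists_nat_pow_eq
    cases b
    · rw [Map2_false] at hn
      obtain ⟨h1, h2⟩ := Prod.mk.inj hn
      exact ⟨h2, Perm.sameCycle_inv.1 ⟨n, by rw [zpow_natCast]; exact h1⟩⟩
    · rw [Map2_true] at hn
      obtain ⟨h1, h2⟩ := Prod.mk.inj hn
      exact ⟨h2, ⟨n, by rw [zpow_natCast]; exact h1⟩⟩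
  · rintro ⟨rfl, h⟩
    cases b
    · obtain ⟨n, hn⟩ := (Perm.sameCycle_inv.2 h).exists_nat_pow_eq
      exact ⟨n, by rw [zpow_natCast, Map2_false, hn]⟩
    · obtain ⟨n, hn⟩ := h.exists_nat_pow_eq
      exact ⟨n, by rw [zpow_natCast, Map2_true, hn]⟩

lemma Map2_fst (s : St G) {a a' : G.Dart} (h : s.π.SameCycle a a') : a'.fst = a.fst := by
  have : Finite G.Dart := Finite.of_injective _ SimpleGraph.Dart.toProd_injective
  obtain ⟨n, rfl⟩ := h.exists_nat_pow_eq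
  induction n with
  | zero => rfl
  | succ n ih =>
    rw [pow_succ', Perm.mul_apply, s.fst]
    exact ih ⟨n, by rw [zpow_natCast]⟩

lemma Map2_inv_fst (s : St G) (a : G.Dart) : (s.π⁻¹ a).fst = a.fst := by
  rw [← s.fst (s.π⁻¹ a)]
  simp

theorem P1.cmb (h : s.P1 Set.univ) (full : ∀ v, ∃ c : G.Dart, c.fst = v) :
    Nonempty (Cmb G (G.Dart × Bool)) := by
  have cyc : ∀ a b : G.Dart, a.fst = b.fst → s.π.SameCycle a b := fun a b e =>
    h.1.cyc a trivial b trivial e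
  refine ⟨⟨s.α, s.ρ, fun x => x.1.fst, ?_, ?_, ?_, ?_, ?_, ?_, ?_, ?_, ?_, ?_, ?_⟩⟩
  · exact fun x => s.α.left_inv x
  · rintro ⟨a, b⟩
    rw [Map2_ρρ, Map2_ρρ, Bool.not_not]
  · rintro ⟨a, _ | _⟩
    · exact Map2_inv_fst s a
    · exact s.fst a
  · rintro ⟨a, b⟩
    rw [Map2_ρρ]
  · rintro ⟨a, b⟩
    exact a.adj
  · exact fun x y => h.2 x trivial y trivial
  · rintro ⟨a, b⟩ ⟨a', b'⟩ e
    have e' : a.fst = a'.fst := e
    cases b <;> cases b'
    · exact Or.inl ((Map2_same s _ _ _ _).2 ⟨rfl, cyc _ _ e'⟩)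
    · exact Or.inr ((Map2_same s _ _ _ _).2 ⟨rfl, cyc _ _ ((Map2_inv_fst s a).trans e')⟩)
    · exact Or.inr ((Map2_same s _ _ _ _).2 ⟨rfl, cyc _ _ ((s.fst a).trans e')⟩)
    · exact Or.inl ((Map2_same s _ _ _ _).2 ⟨rfl, cyc _ _ e'⟩)
  · rintro ⟨a, _ | _⟩ hh
    · rw [α_false] at hh
      exact Bool.false_ne_true ((Map2_same s _ _ _ _).1 hh).1
    · rw [α_true] at hh
      exact Bool.false_ne_true ((Map2_same s _ _ _ _).1 hh).1.symm
  · rintro ⟨a, b⟩ ⟨a', b'⟩ hh e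
    obtain ⟨rfl, h2⟩ := (Map2_same s _ _ _ _).1 hh
    have e1 : a'.snd = a.snd := e
    have e2 := Map2_fst s h2
    rw [SimpleGraph.Dart.ext a' a (Prod.ext e2 e1)]
  · rintro ⟨a, b⟩ w hw
    exact ⟨(⟨(a.fst, w), hw⟩, b), (Map2_same s _ _ _ _).2 ⟨rfl, cyc _ _ rfl⟩, rfl⟩
  · intro v
    obtain ⟨c, hc⟩ := full v
    exact ⟨(c, true), hc⟩

end St

/-- The darts, in both directions, of the edges from `(u, false)` to `(w, true)` with `p u w`. -/
def Map2_S {n : ℕ} (G : SimpleGraph (Fin n × Bool)) (p : ℕ → ℕ → Prop) : Set G.Dart :=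
  {c | (c.fst.2 = false ∧ p c.fst.1.val c.snd.1.val) ∨
    (c.snd.2 = false ∧ p c.snd.1.val c.fst.1.val)}

lemma Map2_path {n : ℕ} (G : SimpleGraph (Fin n × Bool))
    (bip : ∀ v w, G.Adj v w → v.2 ≠ w.2) (m0 : ∀ u, G.Adj (u, false) (u, true))
    (m1 : ∀ u w : Fin n, w.val = u.val + 1 → G.Adj (u, false) (w, true)) (i : ℕ) (hi : i < n) :
    ∃ s : St G, s.P1 (Map2_S G fun u w => (w = u ∨ w = u + 1) ∧ w ≤ i) := by
  induction i with
  | zero =>
    obtain ⟨s, hs⟩ := St.exists_torus (G := G) ⟨((⟨0, hi⟩, false), (⟨0, hi⟩, true)), m0 _⟩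
    refine ⟨s, ?_⟩
    convert hs using 1
    ext ⟨⟨⟨u, b⟩, ⟨w, b'⟩⟩, hc⟩
    have hb := bip _ _ hc
    cases b <;> cases b' <;>
      simp [Map2_S, SimpleGraph.Dart.ext_iff, Fin.ext_iff] at hb ⊢ <;> omega
  | succ i ih =>
    have hi' : i < n := by omega
    obtain ⟨s, hs⟩ := ih hi'
    obtain ⟨s', hs'⟩ := St.P1.grow hs
      (t := ⟨((⟨i + 1, hi⟩, false), (⟨i + 1, hi⟩, true)), m0 _⟩)
      (a := ⟨((⟨i, hi'⟩, false), (⟨i + 1, hi⟩, true)), m1 _ _ rfl⟩) (by
        rintro ⟨⟨⟨u, b⟩, ⟨w, b'⟩⟩, hc⟩ hD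
        simp only [Map2_S, Set.mem_ofPred_eq] at hD
        simp only [ne_eq, Prod.mk.injEq, Fin.ext_iff]
        omega)
      ⟨⟨((⟨i, hi'⟩, false), (⟨i, hi'⟩, true)), m0 _⟩, Or.inl ⟨rfl, Or.inl rfl, le_rfl⟩, rfl⟩ rfl
    refine ⟨s', ?_⟩
    convert hs' using 1
    ext ⟨⟨⟨u, b⟩, ⟨w, b'⟩⟩, hc⟩
    have hb := bip _ _ hc
    cases b <;> cases b' <;>
      simp [Map2_S, SimpleGraph.Dart.ext_iff, Fin.ext_iff] at hb ⊢ <;> omega

/-- Bipartite graphs that contain the standard Hamiltonian path. -/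
theorem exists_cmb {n : ℕ} (hn : 0 < n) (G : SimpleGraph (Fin n × Bool)) [DecidableRel G.Adj]
    (bip : ∀ v w, G.Adj v w → v.2 ≠ w.2) (m0 : ∀ u, G.Adj (u, false) (u, true))
    (m1 : ∀ u w : Fin n, w.val = u.val + 1 → G.Adj (u, false) (w, true))
    (deg : ∀ u : Fin n,
      Even (Finset.univ.filter fun w : Fin n =>
        G.Adj (u, false) (w, true) ∧ w ≠ u ∧ w.val ≠ u.val + 1).card ∧
      4 ≤ (Finset.univ.filter fun w : Fin n =>
        G.Adj (u, false) (w, true) ∧ w ≠ u ∧ w.val ≠ u.val + 1).card) :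
    Nonempty (Cmb G (G.Dart × Bool)) := by
  classical
  have full : ∀ (p : ℕ → ℕ → Prop), (∀ u, u < n → p u u) → ∀ v, ∃ c ∈ Map2_S G p, c.fst = v := by
    rintro p hp ⟨u, _ | _⟩
    · exact ⟨⟨((u, false), (u, true)), m0 u⟩, Or.inl ⟨rfl, hp _ u.2⟩, rfl⟩
    · exact ⟨⟨((u, true), (u, false)), (m0 u).symm⟩, Or.inr ⟨rfl, hp _ u.2⟩, rfl⟩
  have key : ∀ j, j ≤ n → ∃ s : St G,
      s.P1 (Map2_S G fun u w => (w = u ∨ w = u + 1) ∨ u < j) := by
    intro j
    induction j with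
    | zero =>
      intro _
      obtain ⟨s, hs⟩ := Map2_path G bip m0 m1 (n - 1) (by omega)
      refine ⟨s, ?_⟩
      convert hs using 1
      ext ⟨⟨⟨u, b⟩, ⟨w, b'⟩⟩, hc⟩
      have h1 := u.2
      have h2 := w.2
      simp only [Map2_S, Set.mem_ofPred_eq]
      cases b <;> cases b' <;> simp <;> omega
    | succ j ih =>
      intro hj
      have hj' : j < n := hj
      obtain ⟨s, hs⟩ := ih hj'.le
      obtain ⟨d1, d2⟩ := deg ⟨j, hj'⟩
      have hc : (Finset.univ.filter fun c : G.Dart => c.fst = (⟨j, hj'⟩, false) ∧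
          c.snd.1 ≠ ⟨j, hj'⟩ ∧ c.snd.1.val ≠ j + 1).card =
          (Finset.univ.filter fun w : Fin n => G.Adj (⟨j, hj'⟩, false) (w, true) ∧
            w ≠ ⟨j, hj'⟩ ∧ w.val ≠ (⟨j, hj'⟩ : Fin n).val + 1).card := by
        refine Finset.card_bij (fun c _ => c.snd.1) ?_ ?_ ?_
        · rintro ⟨⟨⟨u, b⟩, ⟨w, b'⟩⟩, hc⟩ hm
          have hb := bip _ _ hc
          simp only [Finset.mem_filter, Finset.mem_univ, true_and, Prod.mk.injEq] at hm ⊢
          obtain ⟨⟨rfl, rfl⟩, h1, h2⟩ := hm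
          cases b'
          · exact absurd rfl hb
          · exact ⟨hc, h1, h2⟩
        · rintro ⟨⟨⟨u, b⟩, ⟨w, b'⟩⟩, hc⟩ hm ⟨⟨⟨u1, b1⟩, ⟨w1, b1'⟩⟩, hc1⟩ hm1 e
          have hb := bip _ _ hc
          have hb1 := bip _ _ hc1
          simp only [Finset.mem_filter, Finset.mem_univ, true_and, Prod.mk.injEq] at hm hm1 e
          obtain ⟨⟨rfl, rfl⟩, -⟩ := hm
          obtain ⟨⟨rfl, rfl⟩, -⟩ := hm1
          subst e
          cases b' <;> cases b1' <;> simp_all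
        · intro w hw
          simp only [Finset.mem_filter, Finset.mem_univ, true_and] at hw
          exact ⟨⟨((⟨j, hj'⟩, false), (w, true)), hw.1⟩,
            Finset.mem_filter.2 ⟨Finset.mem_univ _, rfl, hw.2.1, hw.2.2⟩, rfl⟩
      rw [← hc] at d1 d2
      obtain ⟨t, ht⟩ := St.P1.group hs (full _ fun u _ => Or.inl (Or.inl rfl))
        (v := (⟨j, hj'⟩, false)) (fun a ha => (Finset.mem_filter.1 ha).2.1) (by
          rintro ⟨⟨⟨u, b⟩, ⟨w, b'⟩⟩, hc⟩ hm hD
          have hb := bip _ _ hc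
          simp only [Finset.mem_filter, Finset.mem_univ, true_and, Prod.mk.injEq, ne_eq,
            Fin.ext_iff] at hm
          simp only [Map2_S, Set.mem_ofPred_eq] at hD
          obtain ⟨⟨h0, rfl⟩, h1, h2⟩ := hm
          cases b'
          · exact absurd rfl hb
          · simp only [true_and, Bool.true_eq_false, false_and, or_false] at hD
            omega) d1 d2
      refine ⟨t, ?_⟩
      convert ht using 1
      ext ⟨⟨⟨u, b⟩, ⟨w, b'⟩⟩, hc⟩
      have hb := bip _ _ hc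
      cases b <;> cases b' <;>
        simp [Map2_S, Fin.ext_iff] at hb ⊢ <;> omega
  obtain ⟨s, hs⟩ := key n le_rfl
  have e : (Map2_S G fun u w => (w = u ∨ w = u + 1) ∨ u < n) = Set.univ := by
    refine Set.eq_univ_of_forall ?_
    rintro ⟨⟨⟨u, b⟩, ⟨w, b'⟩⟩, hc⟩
    have hb := bip _ _ hc
    cases b
    · exact Or.inl ⟨rfl, Or.inr u.2⟩
    · cases b'
      · exact Or.inr ⟨rfl, Or.inr w.2⟩
      · exact absurd rfl hb
  rw [e] at hs
  refine St.P1.cmb hs fun v => ?_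
  obtain ⟨c, -, hc⟩ := full (fun _ _ => True) (fun _ _ => trivial) v
  exact ⟨c, hc⟩

end

end Pool.Agent.P.MP_d39174_gt

end

section
/-! Bipartite graphs given by permutations: definitions. -/

namespace Pool.Agent.P.MP_d39174_gt

open UpperHalfPlane MatrixGroups

noncomputable section

open Equiv

/-- The edge at position `q = (colour, left vertex)` joins `x` and `y`. -/
def Joins {C X : Type} (τ : C → Perm X) (q : C × X) (x y : X × Bool) : Prop :=
  (x = (q.2, false) ∧ y = (τ q.1 q.2, true)) ∨ (y = (q.2, false) ∧ x = (τ q.1 q.2, true))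

/-- The bipartite graph of the edges at the positions in `P`. -/
def Gr {C X : Type} (τ : C → Perm X) (P : Set (C × X)) : SimpleGraph (X × Bool) where
  Adj x y := ∃ q ∈ P, Joins τ q x y
  symm := ⟨fun _ _ ⟨q, hq, h⟩ => ⟨q, hq, h.symm⟩⟩
  loopless := ⟨by rintro x ⟨q, -, ⟨h, h'⟩ | ⟨h, h'⟩⟩ <;> simpa using congrArg Prod.snd (h.symm.trans h')⟩

instance {C X : Type} (τ : C → Perm X) (P : Set (C × X)) : DecidableRel (Gr τ P).Adj :=
  Classical.decRel _

/-- The edge at position `p` lies on a cycle of length at most `K + 1`. -/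
def Bad {C X : Type} (τ : C → Perm X) (K : ℕ) (p : C × X) : Prop :=
  ∃ W : (Gr τ {q | q ≠ p}).Walk (p.2, false) (τ p.1 p.2, true), W.length ≤ K

/-- Two fixed colours that form a Hamiltonian cycle, and the colours `σ`. -/
def tau {n k : ℕ} (σ : Fin k → Perm (Fin n)) : Bool ⊕ Fin k → Perm (Fin n)
  | Sum.inl false => 1
  | Sum.inl true => finRotate n
  | Sum.inr c => σ c

/-- The positions that are kept. -/
def keep (n k J : ℕ) : Set ((Bool ⊕ Fin k) × Fin n) :=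
  {p | ¬ (p.1 = Sum.inl true ∧ p.2.val + 1 = n) ∧
    ¬ ∃ c : Fin k, p.1 = Sum.inr c ∧ c.val < 2 ∧ p.2.val < J}

/-- Number of edges from `A` to `T`. -/
def ecount {n k : ℕ} (σ : Fin k → Perm (Fin n)) (A T : Finset (Fin n)) : ℕ :=
  (Finset.univ.filter fun p : Fin k × Fin n => p.2 ∈ A ∧ σ p.1 p.2 ∈ T).card

/-- Small sets span few edges. -/
def Spr {n k : ℕ} (σ : Fin k → Perm (Fin n)) (b : ℕ) : Prop :=
  ∀ A T : Finset (Fin n), A.card + T.card ≤ n →
    20 * ecount σ A T ≤ (9 * k + b) * (A.card + T.card)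

/-- The bad positions of the free colours. -/
def badSet {n k : ℕ} (σ : Fin k → Perm (Fin n)) (K : ℕ) : Set (Fin k × Fin n) :=
  {p | Bad (tau σ) K (Sum.inr p.1, p.2)}

/-- The positions where two tuples differ. -/
def diffSet {n k : ℕ} (σ σ' : Fin k → Perm (Fin n)) : Set (Fin k × Fin n) :=
  {p | σ p.1 p.2 ≠ σ' p.1 p.2}

end

end Pool.Agent.P.MP_d39174_gt

end

section
/-! Random permutations expand. -/

namespace Pool.Agent.P.MP_d39174_gt

open UpperHalfPlane MatrixGroups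

noncomputable section

open Equiv

lemma card_maps_mul {n : ℕ} (J T : Finset (Fin n)) :
    (Finset.univ.filter fun σ : Perm (Fin n) => ∀ u ∈ J, σ u ∈ T).card * n ^ J.card ≤
      n.factorial * T.card ^ J.card := by
  induction J using Finset.induction_on with
  | empty => simp [Fintype.card_perm]
  | insert u J hu ih =>
    have h := Finset.card_mul_le_card_mul (s := (Finset.univ : Finset (Fin n)))
      (t := Finset.univ.filter fun σ : Perm (Fin n) => ∀ u ∈ J, σ u ∈ T) (fun v σ => σ v ∈ T)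
      (m := (Finset.univ.filter fun σ : Perm (Fin n) => ∀ v ∈ insert u J, σ v ∈ T).card)
      (n := T.card) (fun v _ => ?_) fun σ _ => Finset.card_le_card_of_injOn σ
        (fun v hv => ((Finset.mem_bipartiteBelow _).1 hv).2) σ.injective.injOn
    · rw [Finset.card_univ, Fintype.card_fin] at h
      rw [Finset.card_insert_of_notMem hu, pow_succ', pow_succ', ← mul_assoc, mul_comm _ n]
      refine (Nat.mul_le_mul_right _ h).trans ?_
      rw [mul_right_comm, mul_left_comm, mul_comm]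
      exact Nat.mul_le_mul_left _ ih
    · by_cases hv : v ∈ J
      · refine Finset.card_le_card fun σ hσ => ?_
        have h := (Finset.mem_filter.1 hσ).2
        exact (Finset.mem_bipartiteAbove _).2 ⟨Finset.mem_filter.2 ⟨Finset.mem_univ _,
          fun w hw => h w (Finset.mem_insert_of_mem hw)⟩, h v (Finset.mem_insert_of_mem hv)⟩
      · refine Finset.card_le_card_of_injOn (· * swap u v) (fun σ hσ => ?_)
          (mul_left_injective _).injOn
        have h := (Finset.mem_filter.1 hσ).2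
        refine (Finset.mem_bipartiteAbove _).2 ⟨Finset.mem_filter.2 ⟨Finset.mem_univ _,
          fun w hw => ?_⟩, ?_⟩
        · rw [Perm.mul_apply, swap_apply_of_ne_of_ne (ne_of_mem_of_not_mem hw hu)
            (ne_of_mem_of_not_mem hw hv)]
          exact h w (Finset.mem_insert_of_mem hw)
        · rw [Perm.mul_apply, swap_apply_right]
          exact h u (Finset.mem_insert_self _ _)

lemma Rand1_pow {α : Type} (A : Finset α) (y : ℝ) :
    (1 + y) ^ A.card = ∑ J ∈ A.powerset, y ^ J.card := by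
  rw [← Finset.prod_const, Finset.prod_one_add]
  simp only [Finset.prod_const]

lemma moment {n : ℕ} (A T : Finset (Fin n)) {y : ℝ} (hy : 0 ≤ y) :
    ∑ σ : Perm (Fin n), (1 + y) ^ (A.filter fun u => σ u ∈ T).card ≤
      n.factorial * (1 + y * T.card / n) ^ A.card := by
  have e : ∀ σ : Perm (Fin n), (1 + y) ^ (A.filter fun u => σ u ∈ T).card =
      ∑ J ∈ A.powerset, if ∀ u ∈ J, σ u ∈ T then y ^ J.card else 0 := fun σ => by
    rw [Rand1_pow, ← Finset.sum_filter]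
    refine Finset.sum_congr (Finset.ext fun J => ?_) fun _ _ => rfl
    simp only [Finset.mem_powerset, Finset.mem_filter, Finset.subset_iff, imp_and, forall_and]
  rw [Finset.sum_congr rfl fun σ _ => e σ, Finset.sum_comm, Rand1_pow, Finset.mul_sum]
  refine Finset.sum_le_sum fun J _ => ?_
  have h : ((Finset.univ.filter fun σ : Perm (Fin n) => ∀ u ∈ J, σ u ∈ T).card : ℝ) * n ^ J.card ≤
      n.factorial * T.card ^ J.card := by exact_mod_cast card_maps_mul J T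
  have hn : (0 : ℝ) < n ^ J.card := by
    rcases J.eq_empty_or_nonempty with rfl | ⟨u, -⟩
    · simp
    · exact pow_pos (Nat.cast_pos.2 u.pos) _
  rw [← Finset.sum_filter, Finset.sum_const, nsmul_eq_mul, div_pow, ← mul_div_assoc, le_div_iff₀ hn,
    mul_pow, mul_right_comm, mul_comm (y ^ J.card), ← mul_assoc]
  exact mul_le_mul_of_nonneg_right h (pow_nonneg hy _)

lemma Rand1_ecount {n k : ℕ} (σ : Fin k → Perm (Fin n)) (A T : Finset (Fin n)) :
    ecount σ A T = ∑ c, (A.filter fun u => σ c u ∈ T).card := by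
  rw [ecount, Finset.card_filter, Fintype.sum_prod_type]
  refine Finset.sum_congr rfl fun c _ => ?_
  rw [← Finset.card_filter]
  exact congrArg _ (Finset.ext fun u => by simp)

lemma Rand1_point {k s e : ℕ} {y : ℝ} (hk : 100 ≤ k) (hy : 1 ≤ y) (h : 9 * k * s < 20 * e) :
    (8 * Real.exp 1 * y) ^ s * Real.exp (s / 4) ^ k ≤ (1 + y) ^ e := by
  have h1 : 100 * s ≤ k * s := Nat.mul_le_mul_right _ hk
  rw [mul_assoc] at h
  obtain ⟨d, rfl⟩ : ∃ d, e = s + 3 * s + d := ⟨e - 4 * s, by omega⟩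
  have h2 : Real.exp 1 ^ s * Real.exp (s / 4) ^ k ≤ 2 ^ d := by
    rw [← Real.exp_log (two_pos (α := ℝ)), ← Real.exp_nat_mul, ← Real.exp_nat_mul,
      ← Real.exp_nat_mul, ← Real.exp_add, Real.exp_le_exp]
    have h3 : (100 : ℝ) * s ≤ k * s := by exact_mod_cast h1
    have h4 : (9 : ℝ) * (k * s) < 20 * (s + 3 * s + d) := by exact_mod_cast h
    have h5 := mul_le_mul_of_nonneg_left Real.log_two_gt_d9.le (Nat.cast_nonneg (α := ℝ) d)
    have h6 : (0 : ℝ) ≤ s := Nat.cast_nonneg _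
    linarith
  have h3 : (2 : ℝ) ≤ 1 + y := by linarith
  calc (8 * Real.exp 1 * y) ^ s * Real.exp (s / 4) ^ k
      = y ^ s * 2 ^ (3 * s) * (Real.exp 1 ^ s * Real.exp (s / 4) ^ k) := by
        rw [mul_pow, mul_pow, pow_mul]
        ring
    _ ≤ (1 + y) ^ s * (1 + y) ^ (3 * s) * (1 + y) ^ d := by
        refine mul_le_mul ?_ (h2.trans (pow_le_pow_left₀ zero_le_two h3 _)) (by positivity)
          (by positivity)
        gcongr
        linarith
    _ = _ := by rw [pow_add, pow_add]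

lemma Rand1_markov {n k s : ℕ} (hk : 100 ≤ k) (A T : Finset (Fin n)) (hs : A.card + T.card = s)
    (h0 : 0 < s) (hn : s ≤ n) :
    ((Finset.univ.filter fun σ : Fin k → Perm (Fin n) => 9 * k * s < 20 * ecount σ A T).card : ℝ) *
      (8 * Real.exp 1 * (n / s)) ^ s ≤ n.factorial ^ k := by
  have s0 : (0 : ℝ) < s := Nat.cast_pos.2 h0
  have n0 : (0 : ℝ) < n := Nat.cast_pos.2 (h0.trans_le hn)
  have hy : (1 : ℝ) ≤ n / s := (one_le_div s0).2 (Nat.cast_le.2 hn)
  have h1 : (1 + (n : ℝ) / s * T.card / n) ^ A.card ≤ Real.exp (s / 4) := by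
    refine (pow_le_pow_left₀ (by positivity) ((add_comm _ _).trans_le (Real.add_one_le_exp _))
      _).trans ?_
    rw [← Real.exp_nat_mul, Real.exp_le_exp]
    have e : (A.card : ℝ) * (n / s * T.card / n) = A.card * T.card / s := by field_simp
    rw [e, div_le_iff₀ s0, ← hs]
    push_cast
    nlinarith [sq_nonneg ((A.card : ℝ) - T.card)]
  refine le_of_mul_le_mul_right ?_ (pow_pos (Real.exp_pos (s / 4)) k)
  rw [mul_assoc, ← nsmul_eq_mul, ← mul_pow]
  refine (Finset.card_nsmul_le_sum _ (fun σ => (1 + (n : ℝ) / s) ^ ecount σ A T) _ fun σ hσ =>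
    Rand1_point hk hy (Finset.mem_filter.1 hσ).2).trans ?_
  refine (Finset.sum_le_univ_sum_of_nonneg fun σ => by positivity).trans ?_
  simp only [Rand1_ecount, ← Finset.prod_pow_eq_pow_sum]
  rw [← Fintype.sum_pow fun σ : Perm (Fin n) =>
    (1 + (n : ℝ) / s) ^ (A.filter fun u => σ u ∈ T).card]
  refine pow_le_pow_left₀ (by positivity) ((moment A T (by positivity)).trans ?_) _
  exact mul_le_mul_of_nonneg_left h1 (Nat.cast_nonneg _)

lemma Rand1_choose (n : ℕ) {s : ℕ} (h0 : 0 < s) :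
    ((n + n).choose s : ℝ) ≤ (1 / 4) ^ s * (8 * Real.exp 1 * (n / s)) ^ s := by
  have s0 : (0 : ℝ) < s := Nat.cast_pos.2 h0
  refine (Nat.choose_le_pow_div _ _).trans ?_
  have e : ((n + n : ℕ) : ℝ) = 2 * (n / s) * s := by
    push_cast
    field_simp
    ring
  have e' : (1 / 4 : ℝ) * (8 * Real.exp 1 * (n / s)) = 2 * (n / s) * Real.exp 1 := by ring
  rw [e, ← mul_pow, e', mul_pow _ (s : ℝ), mul_pow _ (Real.exp 1), mul_div_assoc,
    Real.exp_one_pow]
  exact mul_le_mul_of_nonneg_left (Real.pow_div_factorial_le_exp _ s0.le _) (by positivity)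

lemma Rand1_geom (N : ℕ) : ∑ m ∈ Finset.range N, (1 / 4 : ℝ) ^ (m + 1) = (1 - (1 / 4) ^ N) / 3 := by
  induction N with
  | zero => simp
  | succ N ih =>
    rw [Finset.sum_range_succ, ih]
    ring

theorem ncard_not_spr {n k : ℕ} (hk : 100 ≤ k) :
    3 * {σ : Fin k → Perm (Fin n) | ¬ Spr σ 0}.ncard ≤ n.factorial ^ k := by
  let Bd : Finset (Fin n ⊕ Fin n) → Finset (Fin k → Perm (Fin n)) := fun S =>
    Finset.univ.filter fun σ => S.card ≤ n ∧ 9 * k * S.card < 20 * ecount σ S.toLeft S.toRight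
  let g : ℕ → ℝ := fun s =>
    if s = 0 then 0 else n.factorial ^ k / (8 * Real.exp 1 * (n / s)) ^ s
  have h1 : {σ : Fin k → Perm (Fin n) | ¬ Spr σ 0}.ncard ≤
      ∑ S ∈ Finset.univ.powerset, (Bd S).card := by
    refine le_trans ?_ Finset.card_biUnion_le
    rw [← Set.ncard_coe_finset]
    refine Set.ncard_le_ncard (fun σ hσ => ?_) (Finset.finite_toSet _)
    simp only [Spr, Set.mem_ofPred_eq, not_forall, not_le] at hσ
    obtain ⟨A, T, h1, h2⟩ := hσ
    refine Finset.mem_biUnion.2 ⟨A.disjSum T, Finset.mem_powerset.2 (Finset.subset_univ _),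
      Finset.mem_filter.2 ⟨Finset.mem_univ _, ?_⟩⟩
    rw [Finset.card_disjSum, Finset.toLeft_disjSum, Finset.toRight_disjSum]
    exact ⟨h1, h2⟩
  have h2 : ∀ S, ((Bd S).card : ℝ) ≤ g S.card := fun S => by
    rcases (Bd S).eq_empty_or_nonempty with h | ⟨σ, hσ⟩
    · rw [h, Finset.card_empty, Nat.cast_zero]
      simp only [g]
      split_ifs <;> positivity
    obtain ⟨a1, a2⟩ := (Finset.mem_filter.1 hσ).2
    have h0 : 0 < S.card := Nat.pos_of_ne_zero fun h => by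
      rw [Finset.card_eq_zero.1 h] at a2
      simp [ecount] at a2
    have n0 : (0 : ℝ) < n := Nat.cast_pos.2 (h0.trans_le a1)
    simp only [g, if_neg h0.ne']
    rw [le_div_iff₀ (by positivity)]
    refine le_trans (mul_le_mul_of_nonneg_right (Nat.cast_le.2 (Finset.card_le_card
      fun τ hτ => ?_)) (by positivity))
      (Rand1_markov hk _ _ Finset.card_toLeft_add_card_toRight h0 a1)
    exact Finset.mem_filter.2 ⟨Finset.mem_univ _, (Finset.mem_filter.1 hτ).2.2⟩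
  have h3 : ∑ S ∈ (Finset.univ : Finset (Fin n ⊕ Fin n)).powerset, g S.card ≤
      ∑ m ∈ Finset.range (n + n), (1 / 4 : ℝ) ^ (m + 1) * n.factorial ^ k := by
    rw [Finset.sum_powerset_apply_card g, Finset.sum_range_succ', Finset.card_univ,
      Fintype.card_sum, Fintype.card_fin]
    simp only [g, if_pos, smul_zero, add_zero, if_neg (Nat.succ_ne_zero _), nsmul_eq_mul]
    refine Finset.sum_le_sum fun m hm => ?_
    have n0 : (0 : ℝ) < n := Nat.cast_pos.2 (by have := Finset.mem_range.1 hm; omega)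
    rw [← mul_div_assoc, div_le_iff₀ (by positivity), mul_right_comm]
    exact mul_le_mul_of_nonneg_right (Rand1_choose n m.succ_pos) (by positivity)
  rw [← Finset.sum_mul, Rand1_geom] at h3
  have h4 : ({σ : Fin k → Perm (Fin n) | ¬ Spr σ 0}.ncard : ℝ) ≤
      ∑ S ∈ Finset.univ.powerset, ((Bd S).card : ℝ) := by exact_mod_cast h1
  have h5 := h4.trans ((Finset.sum_le_sum fun S _ => h2 S).trans h3)
  have h6 : (0 : ℝ) ≤ (1 / 4) ^ (n + n) * n.factorial ^ k := by positivity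
  have h7 : (3 : ℝ) * {σ : Fin k → Perm (Fin n) | ¬ Spr σ 0}.ncard ≤ n.factorial ^ k := by
    linarith
  exact_mod_cast h7

end

end Pool.Agent.P.MP_d39174_gt

end

section
/-! Few short cycles on average. -/

namespace Pool.Agent.P.MP_d39174_gt

open UpperHalfPlane MatrixGroups

noncomputable section

open Equiv

lemma ncard_constr {n k : ℕ} (P : Finset (Fin k × Fin n)) (w : Fin k × Fin n → Fin n) :
    {σ : Fin k → Perm (Fin n) | ∀ p ∈ P, σ p.1 p.2 = w p}.ncard * (n - P.card) ^ P.card ≤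
      n.factorial ^ k := by
  induction P using Finset.induction_on with
  | empty => simp [Set.ncard_univ, Fintype.card_perm]
  | insert p P hp ih =>
    obtain ⟨c, u⟩ := p
    have hU : n - P.card ≤ {v : Fin n | (c, v) ∉ P}.ncard := by
      have h1 := Set.ncard_add_ncard_compl {v : Fin n | (c, v) ∉ P}
      have h2 : {v : Fin n | (c, v) ∉ P}ᶜ.ncard ≤ (P : Set (Fin k × Fin n)).ncard :=
        Set.ncard_le_ncard_of_injOn (fun v => (c, v)) (fun v hv => by simpa using hv)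
          fun v _ v' _ e => (Prod.mk.inj e).2
      rw [Set.ncard_coe_finset] at h2
      rw [Nat.card_eq_fintype_card, Fintype.card_fin] at h1
      omega
    have key : ({σ : Fin k → Perm (Fin n) | ∀ p ∈ insert (c, u) P, σ p.1 p.2 = w p} ×ˢ
        {v : Fin n | (c, v) ∉ P}).ncard ≤
        {σ : Fin k → Perm (Fin n) | ∀ p ∈ P, σ p.1 p.2 = w p}.ncard := by
      refine Set.ncard_le_ncard_of_injOn
        (fun x => Function.update x.1 c (x.1 c * swap u x.2)) ?_ ?_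
      · rintro ⟨σ, v⟩ ⟨hσ, hv⟩ ⟨c', z⟩ hz
        have := hσ _ (Finset.mem_insert_of_mem hz)
        by_cases e : c' = c
        · subst e
          simp only [Function.update_self, Perm.mul_apply]
          rwa [swap_apply_of_ne_of_ne (a := u) (b := v) (x := z) (fun q => hp (q ▸ hz))
            (fun q => hv (q ▸ hz))]
        · simpa only [Function.update_of_ne e] using this
      · rintro ⟨σ, v⟩ ⟨hσ, -⟩ ⟨σ', v'⟩ ⟨hσ', -⟩ e
        have e1 : σ c * swap u v = σ' c * swap u v' := by simpa using congrFun e c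
        have e2 : σ c u = σ' c u :=
          (hσ _ (Finset.mem_insert_self _ _)).trans (hσ' _ (Finset.mem_insert_self _ _)).symm
        have e3 : v = v' := by
          apply (σ' c * swap u v').injective
          rw [Perm.mul_apply _ _ v', swap_apply_right, ← e1, Perm.mul_apply, swap_apply_right, e2]
        subst e3
        refine Prod.ext (funext fun d => ?_) rfl
        by_cases q : d = c
        · subst q
          exact mul_right_cancel e1
        · simpa only [Function.update_of_ne q] using congrFun e d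
    rw [Set.ncard_prod] at key
    rw [Finset.card_insert_of_notMem hp, pow_succ', ← mul_assoc]
    refine le_trans (Nat.mul_le_mul (le_trans (Nat.mul_le_mul_left _ (by omega)) key)
      (Nat.pow_le_pow_left (by omega) _)) ih

private lemma joins_ends {C X : Type} {τ : C → Perm X} {q : C × X} {x y x' y' : X × Bool}
    (h : Joins τ q x y) (h' : Joins τ q x' y') : (x = x' ∧ y = y') ∨ (x = y' ∧ y = x') := by
  rcases h with ⟨rfl, rfl⟩ | ⟨rfl, rfl⟩ <;> rcases h' with ⟨rfl, rfl⟩ | ⟨rfl, rfl⟩ <;> simp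

/-- A bad position lies on a closed trail. -/
lemma Bad.trail {C X : Type} {τ : C → Perm X} {K : ℕ} {p : C × X} (h : Bad τ K p) :
    ∃ r, r ≤ K ∧ ∃ (x : Fin (r + 1) → X × Bool) (q : Fin (r + 1) → C × X), q 0 = p ∧
      Function.Injective q ∧ ∀ j, Joins τ (q j) (x j) (x (j + 1)) := by
  classical
  obtain ⟨W, hW⟩ := h
  have hp := W.bypass_isPath
  have hl := W.length_bypass_le_length.trans hW
  generalize W.bypass = U at hp hl
  have hq : ∀ j : Fin U.length, ∃ q, q ≠ p ∧ Joins τ q (U.getVert j) (U.getVert (j + 1)) :=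
    fun j => U.adj_getVert_succ j.2
  choose q q1 q2 using hq
  refine ⟨U.length, hl, fun j => U.getVert (j - 1).val, Fin.cons p q, rfl, ?_, fun j => ?_⟩
  · rw [Fin.cons_injective_iff]
    refine ⟨fun ⟨j, e⟩ => q1 j e, fun i j e => ?_⟩
    have hi := i.2
    have hj := j.2
    rcases joins_ends (q2 i) (e ▸ q2 j) with ⟨a, -⟩ | ⟨a, b⟩
    · exact Fin.ext (hp.getVert_injOn hi.le hj.le a)
    · have a' := hp.getVert_injOn hi.le (Nat.succ_le_of_lt hj) a
      have b' := hp.getVert_injOn (Nat.succ_le_of_lt hi) hj.le b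
      omega
  · simp only [add_sub_cancel_right, Fin.coe_sub_one]
    induction j using Fin.cases with
    | zero => exact .inr ⟨by simp, by simp⟩
    | succ j => simpa [Fin.succ_ne_zero] using q2 j

private lemma cover {α ι : Type} [Finite α] [Fintype ι] {S : Set α} (f : ι → Set α)
    (h : ∀ a ∈ S, ∃ i, a ∈ f i) {m N : ℕ} (hf : ∀ i, (f i).ncard * m ≤ N) :
    S.ncard * m ≤ Fintype.card ι * N := by
  have h1 : S.ncard ≤ ∑ i, (f i).ncard :=
    (Set.ncard_le_ncard fun a ha => Set.mem_iUnion.2 (h a ha)).trans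
      (Set.ncard_iUnion_le_of_fintype f)
  refine (Nat.mul_le_mul_right m h1).trans ?_
  rw [Finset.sum_mul]
  exact (Finset.sum_le_card_nsmul _ _ N fun i _ => hf i).trans (by simp)

private lemma joins_side {C X : Type} {τ : C → Perm X} {q : C × X} {x y : X × Bool}
    (h : Joins τ q x y) : y.2 = !x.2 := by
  rcases h with ⟨rfl, rfl⟩ | ⟨rfl, rfl⟩ <;> rfl

private lemma joins_next {C X : Type} {τ τ' : C → Perm X} {q q' : C × X} {x y y' : X × Bool}
    (h : Joins τ q x y) (h' : Joins τ' q' x y') (e : τ q.1 = τ' q'.1) : y = y' := by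
  rcases h with ⟨h1, rfl⟩ | ⟨rfl, h1⟩ <;> rcases h' with ⟨h2, rfl⟩ | ⟨rfl, h2⟩ <;>
    simp_all

private lemma joins_pos {C X : Type} {τ τ' : C → Perm X} {q q' : C × X} {x y : X × Bool}
    (h : Joins τ q x y) (h' : Joins τ' q' x y) : q.2 = q'.2 ∧ τ q.1 q.2 = τ' q'.1 q'.2 := by
  rcases h with ⟨h1, h3⟩ | ⟨h1, h3⟩ <;> rcases h' with ⟨h2, h4⟩ | ⟨h2, h4⟩ <;>
    simp_all

/-- Closed trails with given colours that start at a free position. -/
private def Trl {n k r : ℕ} (col : Fin (r + 1) → Bool ⊕ Fin k)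
    (a : Σ _ : Fin k → Perm (Fin n), Fin k × Fin n) (x : Fin (r + 1) → Fin n × Bool)
    (q : Fin (r + 1) → (Bool ⊕ Fin k) × Fin n) : Prop :=
  q 0 = (Sum.inr a.2.1, a.2.2) ∧ Function.Injective q ∧
    (∀ j, Joins (tau a.1) (q j) (x j) (x (j + 1))) ∧ ∀ j, (q j).1 = col j

private lemma Trl.uniq {n k r : ℕ} {col : Fin (r + 1) → Bool ⊕ Fin k}
    {a a' : Σ _ : Fin k → Perm (Fin n), Fin k × Fin n} {x x' : Fin (r + 1) → Fin n × Bool}
    {q q' : Fin (r + 1) → (Bool ⊕ Fin k) × Fin n} (h : Trl col a x q) (h' : Trl col a' x' q')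
    (e0 : (x 0).2 = (x' 0).2) (e : ∀ j, (col j).isRight → (x (j + 1)).1 = (x' (j + 1)).1) :
    x = x' := by
  have key : ∀ j, x (j + 1) = x' (j + 1) := by
    intro j
    induction j using Fin.induction with
    | zero =>
      refine Prod.ext (e 0 ?_) ?_
      · rw [← h.2.2.2, h.1]
        rfl
      · rw [joins_side (h.2.2.1 0), joins_side (h'.2.2.1 0), e0]
    | succ i ih =>
      rw [Fin.coeSucc_eq_succ] at ih
      have j1 := h.2.2.1 i.succ
      have j2 := h'.2.2.1 i.succ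
      rcases hc : col i.succ with b | c
      · refine joins_next j1 (ih ▸ j2) ?_
        rw [h.2.2.2, h'.2.2.2, hc]
        cases b <;> rfl
      · refine Prod.ext (e _ (by rw [hc]; rfl)) ?_
        rw [joins_side j1, joins_side j2, ih]
  funext j
  simpa using key (j - 1)

private lemma trl_fib {n k r : ℕ} (col : Fin (r + 1) → Bool ⊕ Fin k)
    (d : Bool × ({j // (col j).isRight} → Fin n)) :
    {a : Σ _ : Fin k → Perm (Fin n), Fin k × Fin n | ∃ x q, Trl col a x q ∧ (x 0).2 = d.1 ∧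
      ∀ j : {j // (col j).isRight}, (x (j + 1)).1 = d.2 j}.ncard *
      (n - Fintype.card {j // (col j).isRight}) ^ Fintype.card {j // (col j).isRight} ≤
      n.factorial ^ k := by
  rcases Set.eq_empty_or_nonempty {a : Σ _ : Fin k → Perm (Fin n), Fin k × Fin n |
    ∃ x q, Trl col a x q ∧ (x 0).2 = d.1 ∧
      ∀ j : {j // (col j).isRight}, (x (j + 1)).1 = d.2 j} with h | ⟨a, x, q, h, h0, h1⟩
  · rw [h]
    simp
  have hc : (Finset.univ.filter fun p : Fin k × Fin n => ∃ j, q j = (Sum.inr p.1, p.2)).card =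
      Fintype.card {j // (col j).isRight} := by
    rw [Fintype.card_subtype, ← Finset.card_image_of_injective _ h.2.1,
      ← Finset.card_image_of_injective
        (f := fun p : Fin k × Fin n => ((Sum.inr p.1 : Bool ⊕ Fin k), p.2)) _
        fun p p' e => by simpa [Prod.ext_iff] using e]
    congr 1
    ext z
    simp only [Finset.mem_image, Finset.mem_filter, Finset.mem_univ, true_and]
    constructor
    · rintro ⟨p, ⟨j, e⟩, rfl⟩
      exact ⟨j, by rw [← h.2.2.2, e]; rfl, e⟩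
    · rintro ⟨j, hj, rfl⟩
      obtain ⟨c, hc⟩ := Sum.isRight_iff.1 hj
      have : q j = (Sum.inr c, (q j).2) := Prod.ext ((h.2.2.2 j).trans hc) rfl
      exact ⟨(c, (q j).2), ⟨j, this⟩, this.symm⟩
  rw [← hc]
  refine le_trans (Nat.mul_le_mul_right _ ?_) (ncard_constr _ fun p => a.1 p.1 p.2)
  have key : ∀ b y s, Trl col b y s → (y 0).2 = d.1 →
      (∀ j : {j // (col j).isRight}, (y (j + 1)).1 = d.2 j) →
      ∀ j, s j = q j ∧ tau b.1 (s j).1 (s j).2 = tau a.1 (q j).1 (q j).2 := by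
    intro b y s g g0 g1 j
    obtain rfl := g.uniq h (g0.trans h0.symm) fun j hj => (g1 ⟨j, hj⟩).trans (h1 ⟨j, hj⟩).symm
    have := joins_pos (g.2.2.1 j) (h.2.2.1 j)
    exact ⟨Prod.ext ((g.2.2.2 j).trans (h.2.2.2 j).symm) this.1, this.2⟩
  refine Set.ncard_le_ncard_of_injOn Sigma.fst ?_ ?_
  · rintro b ⟨y, s, g, g0, g1⟩ p hp
    obtain ⟨j, e⟩ := (Finset.mem_filter.1 hp).2
    obtain ⟨e1, e2⟩ := key b y s g g0 g1 j
    rwa [e1, e] at e2
  · rintro ⟨σ, p⟩ ⟨y, s, g, g0, g1⟩ ⟨σ', p'⟩ ⟨y', s', g', g0', g1'⟩ e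
    obtain rfl : σ = σ' := e
    have := (g.1.symm.trans (key _ y s g g0 g1 0).1).trans
      ((key _ y' s' g' g0' g1' 0).1.symm.trans g'.1)
    obtain rfl : p = p' := by simpa [Prod.ext_iff] using this
    rfl

private lemma trl_col {n k r K : ℕ} (hr : r ≤ K) (hn : 2 * K + 2 ≤ n)
    (col : Fin (r + 1) → Bool ⊕ Fin k) :
    {a : Σ _ : Fin k → Perm (Fin n), Fin k × Fin n | ∃ x q, Trl col a x q}.ncard * 1 ≤
      2 ^ (K + 2) * n.factorial ^ k := by
  have h := cover (S := {a : Σ _ : Fin k → Perm (Fin n), Fin k × Fin n | ∃ x q, Trl col a x q})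
    _ ?_ (trl_fib col)
  swap
  · rintro a ⟨x, q, h⟩
    exact ⟨((x 0).2, fun j => (x (j + 1)).1), x, q, h, rfl, fun _ => rfl⟩
  have hj : Fintype.card {j // (col j).isRight} ≤ r + 1 :=
    (Fintype.card_subtype_le _).trans (by simp)
  rw [Fintype.card_prod, Fintype.card_bool, Fintype.card_fun, Fintype.card_fin] at h
  generalize Fintype.card {j // (col j).isRight} = j at h hj
  have h1 : n ^ j ≤ 2 ^ (K + 1) * (n - j) ^ j := by
    refine (Nat.pow_le_pow_left (show n ≤ 2 * (n - j) by omega) j).trans ?_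
    rw [mul_pow]
    exact Nat.mul_le_mul_right _ (Nat.pow_le_pow_right two_pos (by omega))
  rw [mul_one]
  refine Nat.le_of_mul_le_mul_right (h.trans ?_) (pow_pos (show 0 < n - j by omega) j)
  calc 2 * n ^ j * n.factorial ^ k ≤ 2 * (2 ^ (K + 1) * (n - j) ^ j) * n.factorial ^ k := by
        gcongr
    _ = _ := by ring

theorem ncard_bad (k K : ℕ) : ∃ c : ℕ, ∀ n, 2 * K + 2 ≤ n →
    3 * {σ : Fin k → Perm (Fin n) | c < (badSet σ K).ncard}.ncard ≤ n.factorial ^ k := by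
  classical
  refine ⟨3 * (Fintype.card (Σ r : Fin (K + 1), Fin (r + 1) → Bool ⊕ Fin k) * 2 ^ (K + 2)),
    fun n hn => ?_⟩
  have h := cover (S := {a : Σ _ : Fin k → Perm (Fin n), Fin k × Fin n | a.2 ∈ badSet a.1 K})
    (fun i : Σ r : Fin (K + 1), Fin (r + 1) → Bool ⊕ Fin k => {a | ∃ x q, Trl i.2 a x q})
    (fun a ha => by
      obtain ⟨r, hr, x, q, h0, h1, h2⟩ := Bad.trail ha
      exact ⟨⟨⟨r, Nat.lt_succ_of_le hr⟩, fun j => (q j).1⟩, x, q, h0, h1, h2, fun _ => rfl⟩)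
    fun i => trl_col (Nat.le_of_lt_succ i.1.2) hn i.2
  rw [mul_one, ← mul_assoc] at h
  generalize Fintype.card (Σ r : Fin (K + 1), Fin (r + 1) → Bool ⊕ Fin k) * 2 ^ (K + 2) = M at h ⊢
  have h1 : {σ : Fin k → Perm (Fin n) | 3 * M < (badSet σ K).ncard}.ncard * (3 * M + 1) ≤
      {a : Σ _ : Fin k → Perm (Fin n), Fin k × Fin n | a.2 ∈ badSet a.1 K}.ncard := by
    have h2 := Finset.card_nsmul_le_sum
      {σ : Fin k → Perm (Fin n) | 3 * M < (badSet σ K).ncard}.toFinset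
      (fun σ => (badSet σ K).toFinset.card) (3 * M + 1) fun σ hσ => by
        rw [← Set.ncard_eq_toFinset_card']
        simpa using hσ
    rw [← Finset.card_sigma, ← Set.ncard_eq_toFinset_card', ← Set.ncard_coe_finset] at h2
    exact h2.trans (Set.ncard_le_ncard fun a ha => by simpa using (Finset.mem_sigma.1 ha).2)
  refine Nat.le_of_mul_le_mul_right ?_ (Nat.succ_pos (3 * M))
  rw [mul_assoc, Nat.succ_eq_add_one]
  refine (Nat.mul_le_mul_left 3 (h1.trans h)).trans ?_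
  rw [mul_add, mul_comm _ (3 * M), mul_assoc]
  exact Nat.le_add_right _ _

end

end Pool.Agent.P.MP_d39174_gt

end

section
/-! One switching. -/

namespace Pool.Agent.P.MP_d39174_gt

open UpperHalfPlane MatrixGroups

noncomputable section

open Equiv

section aux

variable {C X : Type} {τ τ' : C → Perm X} {P P' : Set (C × X)} {x y z e e' : X × Bool}
  {k k' : ℕ} {p q : C × X}

/-- There is a walk of length at most `k` along the positions in `P`. -/
def Switch1R (τ : C → Perm X) (P : Set (C × X)) (x y : X × Bool) (k : ℕ) : Prop :=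
  ∃ W : (Gr τ P).Walk x y, W.length ≤ k

lemma Switch1R.refl (τ : C → Perm X) (P : Set (C × X)) (x : X × Bool) (k : ℕ) :
    Switch1R τ P x x k := ⟨.nil, Nat.zero_le _⟩

lemma Switch1R.symm (h : Switch1R τ P x y k) : Switch1R τ P y x k := by
  obtain ⟨W, h⟩ := h
  exact ⟨W.reverse, by rwa [SimpleGraph.Walk.length_reverse]⟩

lemma Switch1R.trans (h : Switch1R τ P x y k) (h' : Switch1R τ P y z k') :
    Switch1R τ P x z (k + k') := by
  obtain ⟨W, h⟩ := h
  obtain ⟨W', h'⟩ := h'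
  exact ⟨W.append W', by rw [SimpleGraph.Walk.length_append]; omega⟩

lemma Switch1R.one (hq : q ∈ P) (h : Joins τ q x y) : Switch1R τ P x y 1 :=
  ⟨.cons ⟨q, hq, h⟩ .nil, le_rfl⟩

lemma Switch1R.mono (h : Switch1R τ P x y k) (e : ∀ q ∈ P, q ∈ P' ∧ τ' q.1 q.2 = τ q.1 q.2)
    (hk : k ≤ k') : Switch1R τ' P' x y k' := by
  obtain ⟨W, h⟩ := h
  have : Gr τ P ≤ Gr τ' P' := by
    rintro x y ⟨q, hq, h⟩
    exact ⟨q, (e q hq).1, by unfold Joins at h ⊢; rwa [(e q hq).2]⟩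
  exact ⟨W.mapLe this, by simpa using h.trans hk⟩

lemma Switch1R.ind {M : X × Bool → ℕ → Prop} (h0 : ∀ k, M y k)
    (h1 : ∀ x z k, ∀ q ∈ P, Joins τ q x z → Switch1R τ P z y k → M z k → M x (k + 1))
    (h : Switch1R τ P x y k) : M x k := by
  obtain ⟨W, h⟩ := h
  induction W generalizing k with
  | nil => exact h0 k
  | cons a W ih =>
    obtain ⟨q, hq, a⟩ := a
    rw [SimpleGraph.Walk.length_cons] at h
    obtain ⟨k, rfl⟩ : ∃ j, k = j + 1 := ⟨k - 1, by omega⟩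
    exact h1 _ _ k q hq a ⟨W, by omega⟩ (ih h0 h1 (by omega))

lemma Switch1_ends (h : Joins τ q x y) (h' : Joins τ q e e') :
    (e = x ∧ e' = y) ∨ (e = y ∧ e' = x) := by
  rcases h with ⟨rfl, rfl⟩ | ⟨rfl, rfl⟩ <;> rcases h' with ⟨rfl, rfl⟩ | ⟨rfl, rfl⟩ <;> simp

lemma Switch1R.split (h : Switch1R τ P x y k) (q : C × X) :
    Switch1R τ (P \ {q}) x y k ∨ ∃ e e' k₁ k₂, Joins τ q e e' ∧ Switch1R τ (P \ {q}) x e k₁ ∧
      Switch1R τ (P \ {q}) e' y k₂ ∧ k₁ + k₂ + 1 ≤ k := by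
  refine h.ind (M := fun x k => Switch1R τ (P \ {q}) x y k ∨ ∃ e e' k₁ k₂, Joins τ q e e' ∧
    Switch1R τ (P \ {q}) x e k₁ ∧ Switch1R τ (P \ {q}) e' y k₂ ∧ k₁ + k₂ + 1 ≤ k)
    (fun k => .inl (.refl _ _ _ _)) fun x z k q' hq' a _ ih => ?_
  by_cases hq : q' = q
  · subst hq
    rcases ih with ih | ⟨e, e', k₁, k₂, j, -, h₂, hk⟩
    · exact .inr ⟨x, z, 0, k, a, .refl _ _ _ _, ih, by omega⟩
    · rcases Switch1_ends a j with ⟨-, rfl⟩ | ⟨-, rfl⟩
      · exact .inr ⟨x, e', 0, k₂, a, .refl _ _ _ _, h₂, by omega⟩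
      · exact .inl (h₂.mono (fun _ h => ⟨h, rfl⟩) (by omega))
  · have s : Switch1R τ (P \ {q}) x z 1 := .one ⟨hq', hq⟩ a
    rcases ih with ih | ⟨e, e', k₁, k₂, j, h₁, h₂, hk⟩
    · exact .inl (add_comm 1 k ▸ s.trans ih)
    · exact .inr ⟨e, e', 1 + k₁, k₂, j, s.trans h₁, h₂, by omega⟩

lemma Switch1R.bad (h : Switch1R τ P x y k) (j : Joins τ q x y) (hq : q ∉ P) (hk : k ≤ k') :
    Bad τ k' q := by
  have h' : Switch1R τ {p | p ≠ q} x y k' :=
    h.mono (fun p hp => ⟨fun e => hq (e ▸ hp), rfl⟩) hk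
  rcases j with ⟨rfl, rfl⟩ | ⟨rfl, rfl⟩
  · exact h'
  · exact h'.symm

/-- The exchange lemma. -/
lemma Switch1R.exch (h : Switch1R τ P x y k) (j : Joins τ p x y) (hq : p ≠ q) (hb : ¬Bad τ k q) :
    Switch1R τ (P \ {q}) x y k := by
  refine (h.split q).resolve_right ?_
  rintro ⟨e, e', k₁, k₂, j', h₁, h₂, hk⟩
  have m : ∀ r ∈ P \ {q}, r ∈ {r | r ≠ q} ∧ τ r.1 r.2 = τ r.1 r.2 := fun _ h => ⟨h.2, rfl⟩
  have s : Switch1R τ {r | r ≠ q} y x 1 := .one hq j.symm
  exact hb ((((h₂.mono m le_rfl).trans s).trans (h₁.mono m le_rfl)).bad j'.symm (by simp)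
    (by omega))

lemma Switch1R.height (h : Switch1R τ P x y k) (f : X × Bool → ℕ)
    (hf : ∀ q ∈ P, f (q.2, false) ≤ f (τ q.1 q.2, true) + 1 ∧
      f (τ q.1 q.2, true) ≤ f (q.2, false) + 1) : f x ≤ f y + k := by
  refine h.ind (M := fun x k => f x ≤ f y + k) (fun k => by omega) fun x z k q hq a _ ih => ?_
  have := hf q hq
  rcases a with ⟨rfl, rfl⟩ | ⟨rfl, rfl⟩ <;> omega

/-- The neighbour along a colour. -/
def Switch1N (τ : C → Perm X) : Option C × X × Bool → X × Bool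
  | (none, y) => y
  | (some c, u, false) => (τ c u, true)
  | (some c, u, true) => ((τ c).symm u, false)

end aux

lemma ball_card {C X : Type} [Fintype C] [Finite X] (τ : C → Perm X) (x : X × Bool) (K : ℕ) :
    {y | ∃ W : (Gr τ Set.univ).Walk x y, W.length ≤ K}.ncard ≤ (Fintype.card C + 1) ^ K := by
  induction K with
  | zero =>
    refine (Set.ncard_le_ncard (t := {x}) ?_).trans (by simp)
    rintro y ⟨W, h⟩
    exact (W.eq_of_length_eq_zero (Nat.le_zero.1 h)).symm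
  | succ K ih =>
    have s : {y | ∃ W : (Gr τ Set.univ).Walk x y, W.length ≤ K + 1} ⊆ Switch1N τ ''
        (Set.univ ×ˢ {y | ∃ W : (Gr τ Set.univ).Walk x y, W.length ≤ K}) := by
      intro y hy
      refine Switch1R.ind (M := fun y k => k = K + 1 → y ∈ Switch1N τ ''
        (Set.univ ×ˢ {y | ∃ W : (Gr τ Set.univ).Walk x y, W.length ≤ K})) (fun k _ => ?_)
        (fun y z k q _ a h _ hk => ?_) (Switch1R.symm hy) rfl
      · exact ⟨(none, x), ⟨trivial, Switch1R.refl _ _ _ _⟩, rfl⟩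
      · obtain rfl : k = K := by omega
        refine ⟨(some q.1, z), ⟨trivial, h.symm⟩, ?_⟩
        rcases a with ⟨rfl, rfl⟩ | ⟨rfl, rfl⟩ <;> simp [Switch1N]
    refine (Set.ncard_le_ncard s).trans (le_trans (Set.ncard_image_le (Set.toFinite _)) ?_)
    rw [Set.ncard_prod, Set.ncard_univ, Nat.card_eq_fintype_card, Fintype.card_option, pow_succ']
    exact Nat.mul_le_mul_left _ ih

/-- A switching with a distant good position creates no short cycle. -/
theorem switch_one {C X : Type} [Fintype C] [DecidableEq C] [Finite X] [DecidableEq X]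
    (τ : C → Perm X) (K : ℕ) (c : C) (u : X) : ∃ F : Set X,
    F.ncard ≤ 4 * (Fintype.card C + 1) ^ K ∧ u ∈ F ∧ ∀ u', u' ∉ F → ¬ Bad τ K (c, u') →
      ∀ p, Bad (Function.update τ c (τ c * swap u u')) K p → Bad τ K p ∧ p ≠ (c, u) := by
  have b : ∀ (x : X × Bool) (f : X → X × Bool), Function.Injective f →
      {v | Switch1R τ Set.univ x (f v) K}.ncard ≤ (Fintype.card C + 1) ^ K := fun x f hf =>
    (Set.ncard_le_ncard_of_injOn f (fun _ h => h) hf.injOn).trans (ball_card τ x K)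
  have i₁ : Function.Injective fun v : X => (v, false) := fun _ _ h => congrArg Prod.fst h
  have i₂ : Function.Injective fun v : X => (τ c v, true) := fun _ _ h =>
    (τ c).injective (congrArg Prod.fst h)
  refine ⟨({v | Switch1R τ Set.univ (u, false) (v, false) K} ∪
      {v | Switch1R τ Set.univ (τ c u, true) (v, false) K}) ∪
      {v | Switch1R τ Set.univ (u, false) (τ c v, true) K}, ?_,
    .inl (.inl (Switch1R.refl _ _ _ _)), fun u' hu hb => ?_⟩
  · have h1 := b (u, false) _ i₁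
    have h2 := b (τ c u, true) _ i₁
    have h3 := b (u, false) _ i₂
    refine (Set.ncard_union_le _ _).trans
      ((Nat.add_le_add_right (Set.ncard_union_le _ _) _).trans ?_)
    omega
  simp only [Set.mem_union, Set.mem_setOf_eq, not_or] at hu
  obtain ⟨⟨n₁, n₂⟩, n₃⟩ := hu
  obtain ⟨τ', hτ⟩ : ∃ τ', τ' = Function.update τ c (τ c * swap u u') := ⟨_, rfl⟩
  rw [← hτ]
  have e₁ : τ' c u = τ c u' := by simp [hτ]
  have e₂ : τ' c u' = τ c u := by simp [hτ]
  have e₃ : ∀ q : C × X, q ≠ (c, u) → q ≠ (c, u') → τ q.1 q.2 = τ' q.1 q.2 := by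
    rintro ⟨d, v⟩ h₁ h₂
    by_cases hd : d = c
    · subst hd
      simp only [hτ, Function.update_self, Perm.mul_apply]
      rw [swap_apply_of_ne_of_ne (fun e => h₁ (by rw [← e])) fun e => h₂ (by rw [← e])]
    · simp only [hτ, Function.update_of_ne hd]
  have t₁ : ∀ {x y k}, Switch1R τ' ({q | q ≠ (c, u)} \ {(c, u')}) x y k → k ≤ K →
      Switch1R τ {q | q ≠ (c, u')} x y K := fun h hk =>
    h.mono (fun q hq => ⟨hq.2, e₃ q hq.1 hq.2⟩) hk
  have t₂ : ∀ {x y k}, Switch1R τ' ({q | q ≠ (c, u')} \ {(c, u)}) x y k → k ≤ K →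
      Switch1R τ {q | q ≠ (c, u')} x y K := fun h hk =>
    h.mono (fun q hq => ⟨hq.1, e₃ q hq.2 hq.1⟩) hk
  have t₃ : ∀ {x y}, Switch1R τ {q | q ≠ (c, u')} x y K → Switch1R τ Set.univ x y K := fun h =>
    h.mono (fun q _ => ⟨trivial, rfl⟩) le_rfl
  have g₁ : ¬Bad τ' K (c, u) := fun h => by
    rcases Switch1R.split h (c, u') with h | ⟨e, e', k₁, k₂, j, h₁, h₂, hk⟩
    · exact n₃ (e₁ ▸ t₃ (t₁ h le_rfl))
    · rcases j with ⟨rfl, rfl⟩ | ⟨rfl, rfl⟩
      · exact n₁ (t₃ (t₁ h₁ (by omega)))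
      · exact hb (e₁ ▸ t₁ h₂ (by omega) :)
  have g₂ : ¬Bad τ' K (c, u') := fun h => by
    rcases Switch1R.split h (c, u) with h | ⟨e, e', k₁, k₂, j, h₁, h₂, hk⟩
    · exact n₂ (e₂ ▸ t₃ (t₂ h le_rfl).symm)
    · rcases j with ⟨rfl, rfl⟩ | ⟨rfl, rfl⟩
      · exact n₁ (t₃ (t₂ h₁ (by omega)).symm)
      · exact hb (e₁ ▸ t₂ h₁ (by omega) :)
  intro p hp
  have p₁ : p ≠ (c, u) := fun e => g₁ (e ▸ hp)
  have p₂ : p ≠ (c, u') := fun e => g₂ (e ▸ hp)
  have j : Joins τ' p (p.2, false) (τ' p.1 p.2, true) := .inl ⟨rfl, rfl⟩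
  have h := (Switch1R.exch hp j p₁ g₁).exch j p₂ g₂
  rw [← e₃ p p₁ p₂] at h
  exact ⟨h.mono (fun q hq => ⟨hq.1.1, e₃ q hq.1.2 hq.2⟩) le_rfl, p₁⟩

/-- Every short cycle uses a free colour. -/
theorem not_bad_of_empty {n k K : ℕ} (σ : Fin k → Perm (Fin n)) (hn : K < n)
    (h : badSet σ K = ∅) (p : (Bool ⊕ Fin k) × Fin n) : ¬ Bad (tau σ) K p := by
  intro hp
  have fr : ∀ q : (Bool ⊕ Fin k) × Fin n, q.1.isRight → ¬Bad (tau σ) K q := by
    rintro ⟨b | c, v⟩ hq hb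
    · simp at hq
    · exact (h ▸ (hb : (c, v) ∈ badSet σ K) : (c, v) ∈ (∅ : Set _))
  have j : Joins (tau σ) p (p.2, false) (tau σ p.1 p.2, true) := .inl ⟨rfl, rfl⟩
  have s : ∀ S : Finset ((Bool ⊕ Fin k) × Fin n), (∀ q ∈ S, q.1.isRight) →
      Switch1R (tau σ) ({q | q ≠ p} \ S) (p.2, false) (tau σ p.1 p.2, true) K := by
    intro S
    induction S using Finset.induction_on with
    | empty => exact fun _ => Switch1R.mono hp (fun q hq => ⟨⟨hq, by simp⟩, rfl⟩) le_rfl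
    | insert q S _ ih =>
      intro hS
      have hq := fr q (hS q (Finset.mem_insert_self _ _))
      have ne : p ≠ q := fun e => hq (e ▸ hp)
      refine ((ih fun r hr => hS r (Finset.mem_insert_of_mem hr)).exch j ne hq).mono
        (fun r hr => ⟨⟨hr.1.1, ?_⟩, rfl⟩) le_rfl
      rw [Finset.coe_insert]
      exact fun e => e.elim hr.2 hr.1.2
  have w := s (Finset.univ.filter fun q => q.1.isRight) fun q hq => (Finset.mem_filter.1 hq).2
  obtain ⟨n, rfl⟩ : ∃ m, n = m + 1 := ⟨n - 1, by omega⟩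
  have rot : ∀ v : Fin (n + 1), ((finRotate (n + 1) v).1 = 0 ∧ v.1 = n) ∨
      ((finRotate (n + 1) v).1 = v.1 + 1 ∧ v.1 < n) := fun v => by
    rw [coe_finRotate]
    split_ifs with hv
    · exact .inl ⟨rfl, congrArg Fin.val hv⟩
    · exact .inr ⟨rfl, Fin.val_lt_last hv⟩
  obtain ⟨b | c, u⟩ := p
  swap
  · exact fr _ rfl hp
  have := w.height (fun x => if 2 * x.1.1 + (!x.2).toNat ≤ 2 * u.1 + b.toNat then
    2 * x.1.1 + (!x.2).toNat + 2 * (n + 1) else 2 * x.1.1 + (!x.2).toNat) ?_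
  have := w.symm.height (fun x => if 2 * x.1.1 + (!x.2).toNat ≤ 2 * u.1 + b.toNat then
    2 * x.1.1 + (!x.2).toNat + 2 * (n + 1) else 2 * x.1.1 + (!x.2).toNat) ?_
  · have r := rot u
    cases b <;> simp only [tau, Perm.one_apply, Bool.not_false, Bool.not_true, Bool.toNat_true,
      Bool.toNat_false] at * <;> split_ifs at * <;> omega
  all_goals
    rintro ⟨b' | c, v⟩ ⟨h₁, h₂⟩
    swap
    · exact absurd (by simp) h₂
    have r := rot v
    have hu := u.2
    have hv := v.2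
    have ne : b' = b → v.1 ≠ u.1 := fun e e' => h₁ (by rw [e, Fin.ext e'])
    cases b <;> cases b' <;> simp only [tau, Perm.one_apply, Bool.not_false, Bool.not_true,
      Bool.toNat_true, Bool.toNat_false, forall_const] at * <;> split_ifs <;> omega

end

end Pool.Agent.P.MP_d39174_gt

end

section
/-! Removing all short cycles. -/

namespace Pool.Agent.P.MP_d39174_gt

open UpperHalfPlane MatrixGroups

noncomputable section

open Equiv

lemma Switch_tau {n k : ℕ} (σ : Fin k → Perm (Fin n)) (c : Fin k) (x : Perm (Fin n)) :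
    tau (Function.update σ c x) = Function.update (tau σ) (Sum.inr c) x := by
  funext d
  rcases d with (_ | _) | d
  · rw [Function.update_of_ne (by simp)]; rfl
  · rw [Function.update_of_ne (by simp)]; rfl
  · by_cases h : d = c
    · subst h
      rw [Function.update_self]
      exact Function.update_self ..
    · rw [Function.update_of_ne (by simpa using h)]
      exact Function.update_of_ne h ..

lemma Switch_eq {n k : ℕ} (σ : Fin k → Perm (Fin n)) {c : Fin k} {u u' : Fin n}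
    {p : Fin k × Fin n} (h : p ≠ (c, u)) (h' : p ≠ (c, u')) :
    Function.update σ c (σ c * swap u u') p.1 p.2 = σ p.1 p.2 := by
  obtain ⟨d, x⟩ := p
  by_cases hd : d = c
  · subst hd
    simp only [Function.update_self, Perm.mul_apply]
    rw [swap_apply_of_ne_of_ne (by simpa using h) (by simpa using h')]
  · simp only [Function.update_of_ne hd]

lemma Switch_ecount {n k : ℕ} (σ : Fin k → Perm (Fin n)) (c : Fin k) (u u' : Fin n)
    (A T : Finset (Fin n)) : ecount (Function.update σ c (σ c * swap u u')) A T ≤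
      ecount σ A T + (if u' ∈ A then 1 else 0) + if σ c u' ∈ T then 1 else 0 := by
  have h1 : ∀ (Q : Prop) [Decidable Q] (p : Fin k × Fin n),
      (if Q then ({p} : Finset _) else ∅).card = if Q then 1 else 0 := fun Q _ p => by
    split_ifs <;> simp
  rw [← h1 _ (c, u'), ← h1 _ (c, u), ecount, ecount]
  refine (Finset.card_le_card fun p hp => ?_).trans ((Finset.card_union_le _ _).trans
    (Nat.add_le_add_right (Finset.card_union_le _ _) _))
  simp only [Finset.mem_filter, Finset.mem_univ, true_and, Finset.mem_union] at hp ⊢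
  by_cases h : p = (c, u)
  · subst h
    simp only [Function.update_self, Perm.mul_apply, swap_apply_left] at hp
    simp [hp.2]
  by_cases h' : p = (c, u')
  · subst h'
    simp [show u' ∈ A from hp.1]
  · rw [Switch_eq σ h h'] at hp
    exact .inl (.inl hp)

lemma Switch_inter {X : Type} [DecidableEq X] {x : X} {U : Finset X} (h : x ∉ U) (A : Finset X) :
    (A ∩ insert x U).card = (A ∩ U).card + if x ∈ A then 1 else 0 := by
  split_ifs with hx
  · rw [Finset.inter_insert_of_mem hx, Finset.card_insert_of_notMem (by simp [h])]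
  · rw [Finset.inter_insert_of_notMem hx, add_zero]

lemma Switch_ind {n k K c : ℕ} (hn : 7 * c + 4 * (k + 3) ^ K < n) (σ : Fin k → Perm (Fin n))
    (m : ℕ) : ∀ (σ₁ : Fin k → Perm (Fin n)) (U V : Finset (Fin n)), (badSet σ₁ K).ncard ≤ m →
      U.card + m ≤ c → V.card + m ≤ c → (diffSet σ σ₁).ncard + 2 * m ≤ 2 * c →
      (∀ A T, ecount σ₁ A T ≤ ecount σ A T + (A ∩ U).card + (T ∩ V).card) →
      ∃ σ' : Fin k → Perm (Fin n), badSet σ' K = ∅ ∧ (diffSet σ σ').ncard ≤ 2 * c ∧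
        ∀ A T, ecount σ' A T ≤ ecount σ A T + A.card + T.card := by
  induction m with
  | zero =>
    intro σ₁ U V hb _ _ hd he
    refine ⟨σ₁, (Set.ncard_eq_zero (Set.toFinite _)).1 (Nat.le_zero.1 hb), hd, fun A T => ?_⟩
    have h1 := Finset.card_le_card (Finset.inter_subset_left (s₁ := A) (s₂ := U))
    have h2 := Finset.card_le_card (Finset.inter_subset_left (s₁ := T) (s₂ := V))
    have := he A T
    omega
  | succ m ih =>
    intro σ₁ U V hb hU hV hd he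
    rcases (badSet σ₁ K).eq_empty_or_nonempty with h0 | ⟨⟨c0, u⟩, hp⟩
    · exact ih σ₁ U V (by simp [h0]) (by omega) (by omega) (by omega) he
    obtain ⟨F, hF, -, hs⟩ := switch_one (tau σ₁) K (Sum.inr c0) u
    have h1 : {x | Bad (tau σ₁) K (Sum.inr c0, x)}.ncard ≤ (badSet σ₁ K).ncard :=
      Set.ncard_le_ncard_of_injOn (fun x => (c0, x)) (fun _ hx => hx)
        fun _ _ _ _ e => congrArg Prod.snd e
    have h2 : {x | σ₁ c0 x ∈ V}.ncard ≤ V.card := by
      rw [← Set.ncard_coe_finset]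
      exact Set.ncard_le_ncard_of_injOn (σ₁ c0) (fun _ hx => hx) (σ₁ c0).injective.injOn
    obtain ⟨u', -, hu'⟩ := Set.exists_mem_notMem_of_ncard_lt_ncard (t := Set.univ)
      (s := F ∪ {x | Bad (tau σ₁) K (Sum.inr c0, x)} ∪ (U ∪ {x | σ₁ c0 x ∈ V})) (by
        have h3 := Set.ncard_union_le (F ∪ {x | Bad (tau σ₁) K (Sum.inr c0, x)})
          (U ∪ {x | σ₁ c0 x ∈ V})
        have h4 := Set.ncard_union_le F {x | Bad (tau σ₁) K (Sum.inr c0, x)}
        have h5 := Set.ncard_union_le (U : Set (Fin n)) {x | σ₁ c0 x ∈ V}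
        rw [Set.ncard_coe_finset] at h5
        rw [Fintype.card_sum, Fintype.card_bool, Fintype.card_fin,
          show 2 + k + 1 = k + 3 by omega] at hF
        rw [Set.ncard_univ, Nat.card_eq_fintype_card, Fintype.card_fin]
        omega)
    simp only [Set.mem_union, not_or, Set.mem_ofPred_eq, Finset.mem_coe] at hu'
    obtain ⟨⟨h3, h4⟩, h5, h6⟩ := hu'
    refine ih (Function.update σ₁ c0 (σ₁ c0 * swap u u')) (insert u' U) (insert (σ₁ c0 u') V) ?_
      (by rw [Finset.card_insert_of_notMem h5]; omega)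
      (by rw [Finset.card_insert_of_notMem h6]; omega) ?_ fun A T => ?_
    · refine Nat.le_of_lt_succ (lt_of_lt_of_le (Set.ncard_lt_ncard ⟨fun p hp' => ?_, fun h => ?_⟩
        (Set.toFinite _)) hb)
      · exact (hs u' h3 h4 _ (Switch_tau σ₁ c0 _ ▸ hp')).1
      · exact (hs u' h3 h4 _ (Switch_tau σ₁ c0 _ ▸ h hp)).2 rfl
    · have h7 : diffSet σ (Function.update σ₁ c0 (σ₁ c0 * swap u u')) ⊆
          insert (c0, u) (insert (c0, u') (diffSet σ σ₁)) := fun p hp' => by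
        by_contra h
        simp only [Set.mem_insert_iff, not_or] at h
        exact h.2.2 fun e => hp' (e.trans (Switch_eq σ₁ h.1 h.2.1).symm)
      have h8 := Set.ncard_le_ncard h7
      have h9 := Set.ncard_insert_le (c0, u) (insert (c0, u') (diffSet σ σ₁))
      have h10 := Set.ncard_insert_le (c0, u') (diffSet σ σ₁)
      omega
    · have h7 := Switch_ecount σ₁ c0 u u' A T
      have h8 := he A T
      rw [Switch_inter h5, Switch_inter h6]
      omega

lemma Switch_range {X Y : Type} [Fintype X] (g : X → Y) : (Set.range g).ncard ≤ Fintype.card X := by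
  rw [← Set.image_univ, ← Nat.card_eq_fintype_card, ← Set.ncard_univ]
  exact Set.ncard_image_le

lemma Switch_small {X : Type} [Fintype X] (a : ℕ) :
    {s : Set X | s.ncard ≤ a}.ncard ≤ (Fintype.card X + 1) ^ a := by
  classical
  refine le_trans (Set.ncard_le_ncard fun s hs => ?_)
    ((Switch_range fun f : Fin a → Option X => {x | ∃ i, f i = some x}).trans (by simp))
  refine ⟨fun i => s.toFinset.toList[i.1]?, Set.ext fun x => ?_⟩
  rw [← Set.mem_toFinset (s := s), ← Finset.mem_toList, List.mem_iff_getElem?]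
  refine ⟨fun ⟨i, h⟩ => ⟨i, h⟩, fun ⟨i, h⟩ => ⟨⟨i, ?_⟩, h⟩⟩
  obtain ⟨h1, -⟩ := List.getElem?_eq_some_iff.1 h
  rw [Finset.length_toList, ← Set.ncard_eq_toFinset_card'] at h1
  exact h1.trans_le hs

theorem exists_switch {n k K c : ℕ} (hn : 7 * c + 4 * (k + 3) ^ K < n)
    (σ : Fin k → Perm (Fin n)) (hc : (badSet σ K).ncard ≤ c) :
    ∃ σ' : Fin k → Perm (Fin n), badSet σ' K = ∅ ∧ (diffSet σ σ').ncard ≤ 2 * c ∧
      ∀ A T, ecount σ' A T ≤ ecount σ A T + A.card + T.card :=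
  Switch_ind hn σ c σ ∅ ∅ hc (by simp) (by simp) (by simp [diffSet]) fun A T => by simp

lemma ncard_near {n k a : ℕ} (σ' : Fin k → Perm (Fin n)) :
    {σ | (diffSet σ σ').ncard ≤ a}.ncard ≤ (k * n * n + 1) ^ a := by
  refine le_trans (Set.ncard_le_ncard_of_injOn
    (fun σ => (fun p => (p, σ p.1 p.2)) '' diffSet σ σ') (fun σ hσ => ?_) fun σ _ ρ _ e => ?_)
    ((Switch_small (X := (Fin k × Fin n) × Fin n) a).trans (by simp))
  · exact le_trans Set.ncard_image_le hσ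
  · funext c
    ext1 x
    by_cases h : (c, x) ∈ diffSet σ σ'
    · obtain ⟨p, -, hp⟩ := (Set.ext_iff.1 e _).1 ⟨_, h, rfl⟩
      obtain ⟨rfl, h1⟩ := Prod.mk.inj hp
      exact h1.symm
    by_cases h' : (c, x) ∈ diffSet ρ σ'
    · obtain ⟨p, -, hp⟩ := (Set.ext_iff.1 e _).2 ⟨_, h', rfl⟩
      obtain ⟨rfl, h1⟩ := Prod.mk.inj hp
      exact h1
    · exact (not_not.1 h).trans (not_not.1 h').symm

lemma ncard_same_graph {n k J : ℕ} (σ' : Fin k → Perm (Fin n)) :
    {σ : Fin k → Perm (Fin n) | Gr (tau σ) (keep n k J) = Gr (tau σ') (keep n k J)}.ncard ≤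
      (k + 2) ^ (k * n) * (n + 1) ^ (2 * J) := by
  refine le_trans (Set.ncard_le_ncard_of_injOn (fun σ p => σ p.1 p.2) (fun σ hσ => ?_)
    fun σ _ ρ _ e => funext fun c => Equiv.ext fun x => congrFun e (c, x))
    ((Switch_range fun (f : (Fin k × Fin n → Bool ⊕ Fin k) × (Fin 2 × Fin J → Option (Fin n)))
      (p : Fin k × Fin n) => if h : p.1.val < 2 ∧ p.2.val < J then
        (f.2 (⟨_, h.1⟩, ⟨_, h.2⟩)).getD p.2 else tau σ' (f.1 p) p.2).trans (by simp [add_comm]))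
  have h1 : ∀ p : Fin k × Fin n, ∃ d, ¬(p.1.val < 2 ∧ p.2.val < J) →
      tau σ' d p.2 = σ p.1 p.2 := fun p => by
    by_cases h : p.1.val < 2 ∧ p.2.val < J
    · exact ⟨Sum.inl true, fun h' => absurd h h'⟩
    have h2 : (Gr (tau σ) (keep n k J)).Adj (p.2, false) (σ p.1 p.2, true) :=
      ⟨(Sum.inr p.1, p.2), ⟨by simp, by simpa using h⟩, .inl ⟨rfl, rfl⟩⟩
    rw [show Gr (tau σ) (keep n k J) = _ from hσ] at h2
    obtain ⟨q, -, ⟨h3, h4⟩ | ⟨h3, -⟩⟩ := h2
    · exact ⟨q.1, fun _ => by rw [(Prod.mk.inj h3).1, ← (Prod.mk.inj h4).1, (Prod.mk.inj h3).1]⟩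
    · simp at h3
  choose d hd using h1
  refine ⟨(d, fun q => if h : q.1.val < k ∧ q.2.val < n then some (σ ⟨_, h.1⟩ ⟨_, h.2⟩) else none),
    funext fun p => ?_⟩
  by_cases h : p.1.val < 2 ∧ p.2.val < J
  · simp [h]
  · simp only [dif_neg h, hd p h]

lemma ncard_iso {Vx : Type} [Fintype Vx] (G : SimpleGraph Vx) :
    {G' : SimpleGraph Vx | Nonempty (G ≃g G')}.ncard ≤ (Fintype.card Vx).factorial := by
  classical
  refine le_trans (Set.ncard_le_ncard fun G' ⟨φ⟩ => ?_)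
    ((Switch_range fun e : Perm Vx => G.comap e).trans Fintype.card_perm.le)
  exact ⟨φ.symm.toEquiv, SimpleGraph.ext (funext₂ fun a b => propext φ.symm.map_rel_iff)⟩

end

end Pool.Agent.P.MP_d39174_gt

end

section
/-! Properties of the graphs. -/

namespace Pool.Agent.P.MP_d39174_gt

open UpperHalfPlane MatrixGroups

noncomputable section

open Equiv

theorem nbg_of_not_bad {C X : Type} {τ : C → Perm X} {K : ℕ} (h : ∀ p, ¬ Bad τ K p)
    (P : Set (C × X)) : NBG (Gr τ P) K := by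
  classical
  intro r v h1 hK ha hb e
  have ex : ∃ d, 0 < d ∧ ∃ i, i + d ≤ r ∧ v i = v (i + d) :=
    ⟨r, h1, 0, (zero_add r).le, by rw [zero_add, e]⟩
  obtain ⟨d0, i, hi, hv⟩ := Nat.find_spec ex
  have hm : ∀ a b, a < b → b ≤ r → b - a < Nat.find ex → v a ≠ v b := fun a b hab hb hd e' =>
    Nat.find_min ex hd ⟨by omega, a, by omega, by rwa [Nat.add_sub_cancel' hab.le]⟩
  generalize Nat.find ex = d at d0 hi hv hm
  obtain ⟨p, -, hp⟩ := ha i (by omega)
  have key : ∀ m, m + 1 ≤ d →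
      ∃ W : (Gr τ {q | q ≠ p}).Walk (v (i + 1)) (v (i + (m + 1))), W.length = m := by
    intro m
    induction m with
    | zero => exact fun _ => ⟨.nil, rfl⟩
    | succ m ih =>
      intro hd
      obtain ⟨W, hW⟩ := ih (by omega)
      obtain ⟨q, -, hq⟩ := ha (i + (m + 1)) (by omega)
      refine ⟨W.concat ⟨q, ?_, hq⟩, by rw [SimpleGraph.Walk.length_concat, hW]⟩
      rintro rfl
      have : v i = v (i + (m + 1)) ∨
          (v (i + 1) = v (i + (m + 1)) ∧ v i = v (i + (m + 1) + 1)) := by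
        rcases hp with ⟨p1, p2⟩ | ⟨p1, p2⟩ <;> rcases hq with ⟨q1, q2⟩ | ⟨q1, q2⟩
        exacts [.inl (p1.trans q1.symm), .inr ⟨p2.trans q2.symm, p1.trans q1.symm⟩,
          .inr ⟨p1.trans q1.symm, p2.trans q2.symm⟩, .inl (p2.trans q2.symm)]
      rcases this with e1 | ⟨e1, e2⟩
      · exact hm _ _ (by omega) (by omega) (by omega) e1
      · cases m with
        | zero => exact hb i (by omega) e2
        | succ m => exact hm _ _ (by omega) (by omega) (by omega) e1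
  obtain ⟨m, rfl⟩ : ∃ m, d = m + 1 := ⟨d - 1, by omega⟩
  obtain ⟨W, hW⟩ := key m le_rfl
  rcases hp with ⟨p1, p2⟩ | ⟨p1, p2⟩
  · exact h p ⟨W.reverse.copy (hv.symm.trans p1) p2, by simp; omega⟩
  · exact h p ⟨W.copy p1 (hv.symm.trans p2), by simp; omega⟩

section

open Finset

variable {C X : Type} {τ : C → Perm X} {P : Set (C × X)} {K : ℕ}

/-- The left end of the edge of colour `c` at `v`. -/
def GrPpos (τ : C → Perm X) (v : X × Bool) (c : C) : X := if v.2 then (τ c)⁻¹ v.1 else v.1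

/-- The other end of the edge of colour `c` at `v`. -/
def GrPnb (τ : C → Perm X) (v : X × Bool) (c : C) : X × Bool :=
  if v.2 then ((τ c)⁻¹ v.1, false) else (τ c v.1, true)

lemma GrP_adj {v y : X × Bool} :
    (Gr τ P).Adj v y ↔ ∃ c, (c, GrPpos τ v c) ∈ P ∧ GrPnb τ v c = y := by
  obtain ⟨u, b⟩ := v
  constructor
  · rintro ⟨⟨c, x⟩, hq, ⟨h1, h2⟩ | ⟨h1, h2⟩⟩
    · cases h1
      exact ⟨c, hq, h2.symm⟩
    · cases h2
      exact ⟨c, by simpa [GrPpos] using hq, by simp [GrPnb, h1]⟩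
  · rintro ⟨c, hc, rfl⟩
    cases b
    · exact ⟨_, hc, .inl ⟨rfl, rfl⟩⟩
    · exact ⟨_, hc, .inr ⟨rfl, by simp [GrPpos]⟩⟩

lemma GrP_inj (h : ∀ p, ¬ Bad τ K p) (hK : 1 ≤ K) {u : X} {c c' : C} (e : τ c u = τ c' u) :
    c = c' := by
  by_contra hc
  have ha : (Gr τ {q | q ≠ (c, u)}).Adj (u, false) (τ c u, true) :=
    ⟨(c', u), fun e' => hc (congrArg Prod.fst e').symm, .inl ⟨rfl, by rw [e]⟩⟩
  exact h (c, u) ⟨.cons ha .nil, by simpa using hK⟩

lemma GrP_nb_inj (h : ∀ p, ¬ Bad τ K p) (hK : 1 ≤ K) (v : X × Bool) :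
    Function.Injective (GrPnb τ v) := by
  obtain ⟨u, b⟩ := v
  intro c c' e
  cases b
  · exact GrP_inj h hK (congrArg Prod.fst e)
  · have e' : (τ c)⁻¹ u = (τ c')⁻¹ u := congrArg Prod.fst e
    refine GrP_inj h hK (u := (τ c)⁻¹ u) ?_
    exact ((τ c).apply_symm_apply u).trans (e' ▸ ((τ c').apply_symm_apply u).symm)

open Classical in
lemma GrP_nbr [Fintype C] [Fintype X] [DecidableEq X] (v : X × Bool) :
    (Gr τ P).neighborFinset v =
      (univ.filter fun c => (c, GrPpos τ v c) ∈ P).image (GrPnb τ v) := by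
  ext y
  simp [GrP_adj]

open Classical in
lemma GrP_edges [Fintype C] [Fintype X] [DecidableEq X] (h : ∀ p, ¬ Bad τ K p) (hK : 1 ≤ K) :
    (Gr τ P).edgeFinset.card = (univ.filter fun q => q ∈ P).card := by
  refine (card_bij (fun q _ => s((q.2, false), (τ q.1 q.2, true))) (fun q hq => ?_)
    (fun q _ q' _ e => ?_) fun e he => ?_).symm
  · exact SimpleGraph.mem_edgeFinset.2 ⟨q, (mem_filter.1 hq).2, .inl ⟨rfl, rfl⟩⟩
  · obtain ⟨c, u⟩ := q
    obtain ⟨c', u'⟩ := q'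
    simp only [Sym2.eq_iff, Prod.mk.injEq, and_true, Bool.false_eq_true, and_false, false_and,
      or_false] at e
    obtain ⟨rfl, e⟩ := e
    rw [GrP_inj h hK e]
  · induction e with
    | _ x y =>
      obtain ⟨q, hq, ⟨rfl, rfl⟩ | ⟨rfl, rfl⟩⟩ := SimpleGraph.mem_edgeFinset.1 he
      · exact ⟨q, mem_filter.2 ⟨mem_univ _, hq⟩, rfl⟩
      · exact ⟨q, mem_filter.2 ⟨mem_univ _, hq⟩, Sym2.eq_swap⟩

end

lemma GrP_rot {n : ℕ} {u : Fin n} (h : u.val + 1 ≠ n) : (finRotate n u).val = u.val + 1 := by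
  cases n with
  | zero => exact u.elim0
  | succ n => exact coe_finRotate_of_ne_last fun e => h (by rw [e, Fin.val_last])

variable {n k J K : ℕ} {σ : Fin k → Perm (Fin n)}

lemma gr_bip (v w : Fin n × Bool) (h : (Gr (tau σ) (keep n k J)).Adj v w) : v.2 ≠ w.2 := by
  obtain ⟨q, -, ⟨rfl, rfl⟩ | ⟨rfl, rfl⟩⟩ := h <;> simp

lemma gr_m0 (u : Fin n) : (Gr (tau σ) (keep n k J)).Adj (u, false) (u, true) :=
  ⟨(.inl false, u), by simp [keep], .inl ⟨rfl, rfl⟩⟩

lemma gr_m1 (u w : Fin n) (h : w.val = u.val + 1) :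
    (Gr (tau σ) (keep n k J)).Adj (u, false) (w, true) := by
  have h1 : u.val + 1 ≠ n := by omega
  exact ⟨(.inl true, u), by simp [keep, h1],
    .inl ⟨rfl, Prod.ext (Fin.ext (h.trans (GrP_rot h1).symm)) rfl⟩⟩

lemma gr_free (h : ∀ p, ¬ Bad (tau σ) K p) (hK : 1 ≤ K) (hk : 2 ≤ k) (u : Fin n) :
    (Finset.univ.filter fun w : Fin n =>
      (Gr (tau σ) (keep n k J)).Adj (u, false) (w, true) ∧ w ≠ u ∧ w.val ≠ u.val + 1).card =
      if u.val < J then k - 2 else k := by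
  have e : (Finset.univ.filter fun w : Fin n =>
      (Gr (tau σ) (keep n k J)).Adj (u, false) (w, true) ∧ w ≠ u ∧ w.val ≠ u.val + 1) =
      (Finset.univ.filter fun c : Fin k => ¬ (c.val < 2 ∧ u.val < J)).image fun c => σ c u := by
    ext w
    simp only [Finset.mem_filter, Finset.mem_univ, true_and, Finset.mem_image, GrP_adj]
    constructor
    · rintro ⟨⟨c, hc, e⟩, h1, h2⟩
      obtain rfl : tau σ c u = w := congrArg Prod.fst e
      rcases c with (_ | _) | c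
      · exact absurd rfl h1
      · exact absurd (GrP_rot fun e => hc.1 ⟨rfl, e⟩) h2
      · exact ⟨c, fun h3 => hc.2 ⟨c, rfl, h3⟩, rfl⟩
    · rintro ⟨c, hc, rfl⟩
      refine ⟨⟨.inr c, by simpa [keep, GrPpos] using hc, rfl⟩, fun e => ?_, fun e => ?_⟩
      · exact Sum.inr_ne_inl (GrP_inj h hK (c := .inr c) (c' := .inl false) e)
      · have h1 : u.val + 1 ≠ n := by omega
        exact Sum.inr_ne_inl (GrP_inj h hK (c := .inr c) (c' := .inl true)
          (Fin.ext (e.trans (GrP_rot h1).symm)))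
  have hi : Function.Injective fun c => σ c u := fun c c' e =>
    Sum.inr_injective (GrP_inj h hK (c := .inr c) (c' := .inr c') e)
  rw [e, Finset.card_image_of_injective _ hi]
  split_ifs with h1
  · have := Finset.card_filter_add_card_filter_not (s := Finset.univ) fun c : Fin k => c.val < 2
    rw [Fin.card_filter_val_lt, Finset.card_fin] at this
    simp only [h1, and_true]
    omega
  · simp [h1]

lemma gr_deg_le (v : Fin n × Bool) : (Gr (tau σ) (keep n k J)).degree v ≤ k + 2 := by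
  rw [← SimpleGraph.card_neighborFinset_eq_degree, GrP_nbr]
  refine Finset.card_image_le.trans ((Finset.card_le_univ _).trans_eq ?_)
  simp [add_comm]

lemma gr_le_deg (h : ∀ p, ¬ Bad (tau σ) K p) (hK : 1 ≤ K) (v : Fin n × Bool) :
    k + 2 ≤ (Gr (tau σ) (keep n k J)).degree v + 3 := by
  classical
  rw [← SimpleGraph.card_neighborFinset_eq_degree, GrP_nbr,
    Finset.card_image_of_injective _ (GrP_nb_inj h hK v)]
  have h1 := Finset.card_filter_add_card_filter_not (s := Finset.univ)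
    fun c => (c, GrPpos (tau σ) v c) ∈ keep n k J
  have h2 : (Finset.univ.filter fun c => ¬ (c, GrPpos (tau σ) v c) ∈ keep n k J) ⊆
      insert (.inl true) ((Finset.univ.filter fun c : Fin k => c.val < 2).image Sum.inr) := by
    intro c hc
    by_contra h3
    simp only [Finset.mem_insert, Finset.mem_image, Finset.mem_filter, Finset.mem_univ, true_and,
      not_or, not_exists, not_and] at h3
    exact (Finset.mem_filter.1 hc).2 ⟨fun h4 => h3.1 h4.1, fun ⟨c', h4, h5⟩ => h3.2 c' h5.1 h4.symm⟩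
  have h3 := (Finset.card_le_card h2).trans ((Finset.card_insert_le _ _).trans
    (Nat.add_le_add_right Finset.card_image_le 1))
  rw [Fin.card_filter_val_lt] at h3
  rw [Finset.card_univ, Fintype.card_sum, Fintype.card_bool, Fintype.card_fin] at h1
  omega

lemma gr_edges (h : ∀ p, ¬ Bad (tau σ) K p) (hK : 1 ≤ K) (hk : 2 ≤ k) (hn : 0 < n) (hJ : J ≤ n) :
    (Gr (tau σ) (keep n k J)).edgeFinset.card + 1 + 2 * J = n * (k + 2) := by
  classical
  rw [GrP_edges h hK]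
  have h1 := Finset.card_filter_add_card_filter_not (s := Finset.univ) fun q => q ∈ keep n k J
  have h2 : (Finset.univ.filter fun q => ¬ q ∈ keep n k J) =
      insert (.inl true, ⟨n - 1, by omega⟩)
        (((Finset.univ.filter fun c : Fin k => c.val < 2).image Sum.inr) ×ˢ
          Finset.univ.filter fun u : Fin n => u.val < J) := by
    ext ⟨c, u⟩
    simp only [keep, Set.mem_ofPred_eq, Finset.mem_filter, Finset.mem_univ, true_and,
      Finset.mem_insert, Prod.mk.injEq, Finset.mem_product, Finset.mem_image, Fin.ext_iff,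
      ← not_or, not_not]
    refine or_congr (and_congr_right fun _ => by omega)
      ⟨fun ⟨c', h3, h4⟩ => ⟨⟨c', h4.1, h3.symm⟩, h4.2⟩, fun ⟨⟨c', h3, h4⟩, h5⟩ => ⟨c', h4.symm, h3, h5⟩⟩
  rw [h2, Finset.card_insert_of_notMem (by simp), Finset.card_product,
    Finset.card_image_of_injective _ Sum.inr_injective, Fin.card_filter_val_lt,
    Fin.card_filter_val_lt, min_eq_right hk, min_eq_right hJ, Finset.card_univ, Fintype.card_prod,
    Fintype.card_sum, Fintype.card_bool, Fintype.card_fin, Fintype.card_fin] at h1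
  rw [mul_comm n, add_comm k, ← h1]
  omega

lemma gr_expd (h : ∀ p, ¬ Bad (tau σ) K p) (hK : 1 ≤ K) (hk : 102 ≤ k) (s : Spr σ 20) :
    Expd (Gr (tau σ) (keep n k J)) (k + 2) := by
  classical
  intro S hS
  set A := Finset.univ.filter fun u : Fin n => (u, false) ∈ S
  set T := Finset.univ.filter fun u : Fin n => (u, true) ∈ S
  have hc : A.card + T.card = S.card := by
    rw [← Finset.filter_univ_mem S, Finset.card_filter, Finset.card_filter, Finset.card_filter,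
      Fintype.sum_prod_type_right, Fintype.sum_bool, add_comm]
  rw [Fintype.card_prod, Fintype.card_fin, Fintype.card_bool] at hS
  have h1 := s A T (by omega)
  have h2 : ∀ v ∈ S, k + 2 ≤ ((Gr (tau σ) (keep n k J)).neighborFinset v \ S).card +
      ∑ c, (if GrPnb (tau σ) v c ∈ S then 1 else 0) + 3 := fun v _ => by
    refine (gr_le_deg (J := J) h hK v).trans (Nat.add_le_add_right ?_ 3)
    rw [← SimpleGraph.card_neighborFinset_eq_degree, ← Finset.card_sdiff_add_card_inter _ S,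
      ← Finset.card_filter]
    refine Nat.add_le_add_left ((Finset.card_le_card fun y hy => ?_).trans
      (Finset.card_image_le (f := GrPnb (tau σ) v))) _
    obtain ⟨h3, h4⟩ := Finset.mem_inter.1 hy
    obtain ⟨c, -, rfl⟩ := GrP_adj.1 ((SimpleGraph.mem_neighborFinset _ _ _).1 h3)
    exact Finset.mem_image_of_mem _ (Finset.mem_filter.2 ⟨Finset.mem_univ _, h4⟩)
  have h3 := Finset.sum_le_sum h2
  rw [Finset.sum_const, Finset.sum_add_distrib, Finset.sum_add_distrib, Finset.sum_comm,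
    Fintype.sum_sum_type, Finset.sum_const, smul_eq_mul, smul_eq_mul] at h3
  have h4 : ∑ b : Bool, ∑ v ∈ S, (if GrPnb (tau σ) v (.inl b) ∈ S then 1 else 0) ≤
      ∑ _b : Bool, S.card := Finset.sum_le_sum fun b _ => by
    rw [← Finset.card_filter]
    exact Finset.card_filter_le _ _
  have h5 : ∑ c : Fin k, ∑ v ∈ S, (if GrPnb (tau σ) v (.inr c) ∈ S then 1 else 0) ≤
      ∑ c : Fin k, 2 * ∑ u, (if u ∈ A ∧ σ c u ∈ T then 1 else 0) := Finset.sum_le_sum fun c _ => by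
    rw [← Finset.card_filter, ← Finset.card_filter, two_mul]
    refine (Finset.card_le_card fun v hv => ?_).trans ((Finset.card_union_le _ _).trans
      (add_le_add (Finset.card_image_le (f := fun u => (u, false)))
        (Finset.card_image_le (f := fun u => (σ c u, true)))))
    obtain ⟨u, b⟩ := v
    obtain ⟨h6, h7⟩ := Finset.mem_filter.1 hv
    cases b
    · exact Finset.mem_union_left _ (Finset.mem_image_of_mem _
        (by simpa [A, T, GrPnb, tau] using And.intro h6 h7))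
    · exact Finset.mem_union_right _ (Finset.mem_image.2 ⟨(σ c)⁻¹ u,
        by simpa [A, T, GrPnb, tau] using And.intro h7 h6, by simp⟩)
  rw [← Finset.mul_sum, ← Fintype.sum_prod_type', ← Finset.card_filter] at h5
  rw [Fintype.sum_bool fun _ => S.card] at h4
  change _ ≤ 2 * ecount σ A T at h5
  rw [hc] at h1
  nlinarith [Nat.mul_le_mul_right S.card hk]

end

end Pool.Agent.P.MP_d39174_gt

end

section
/-! Numerical estimates. -/

namespace Pool.Agent.P.MP_d39174_gt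

open UpperHalfPlane MatrixGroups

noncomputable section

open Filter Topology

private theorem pow_self_le (n : ℕ) : n ^ n ≤ 3 ^ n * n.factorial := by
  have h1 := Real.pow_div_factorial_le_exp (n : ℝ) (Nat.cast_nonneg n) n
  have h2 : Real.exp n ≤ 3 ^ n := by
    rw [← Real.exp_one_pow]
    exact pow_le_pow_left₀ (Real.exp_pos 1).le
      (Real.exp_one_lt_d9.le.trans (by norm_num)) n
  have h3 : (0 : ℝ) < n.factorial := by exact_mod_cast n.factorial_pos
  rw [div_le_iff₀ h3] at h1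
  have h4 : (n : ℝ) ^ n ≤ 3 ^ n * n.factorial := h1.trans (mul_le_mul_of_nonneg_right h2 h3.le)
  exact_mod_cast h4

private theorem two_mul_fac_le (n : ℕ) : (2 * n).factorial ≤ 4 ^ n * n.factorial ^ 2 := by
  have h1 := Nat.choose_mul_factorial_mul_factorial (show n ≤ 2 * n by omega)
  rw [show 2 * n - n = n by omega] at h1
  have h2 := Nat.choose_le_two_pow (2 * n) n
  rw [pow_mul] at h2
  rw [← h1, mul_assoc, ← sq]
  exact Nat.mul_le_mul_right _ h2

theorem num_lower (q m c : ℕ) (hq : 1 ≤ q) (hm : 5 * q ≤ m) : ∃ K g₀ : ℕ, ∀ g n J : ℕ, g₀ ≤ g →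
    g + J = n * m → J < m →
    (g + 1) ^ (2 * g - g / q) * (3 * ((2 * m - 2) * n * n + 1) ^ (2 * c) *
      ((2 * n).factorial * ((2 * m) ^ ((2 * m - 2) * n) * (n + 1) ^ (2 * J)))) ≤
      K ^ g * n.factorial ^ (2 * m - 2) := by
  obtain ⟨r, rfl⟩ : ∃ r, m = r + 2 := ⟨m - 2, by omega⟩
  have e1 : 2 * (r + 2) - 2 = 2 * r + 2 := by omega
  rw [e1]
  set m := r + 2 with hmr
  refine ⟨(2 * m * 3) ^ (2 * r) * (3 * (8 * m) ^ (2 * c) *
    (4 * ((2 * m) ^ (2 * r + 2) * 2 ^ (2 * m)))), 5 * m, fun g n J hg hJ hJm => ?_⟩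
  have hm0 : 0 < m := by omega
  have hn : 5 ≤ n := Nat.le_of_mul_le_mul_right (by omega) hm0
  obtain ⟨k, rfl⟩ : ∃ k, n = k + 1 := ⟨n - 1, by omega⟩
  set n := k + 1 with hnk
  have h1 : k * m < g := by
    have : n * m = k * m + m := by rw [hnk]; ring
    omega
  have h2 : k * (5 * q) ≤ k * m := Nat.mul_le_mul_left _ hm
  have h3 : 5 * k ≤ g / q := (Nat.le_div_iff_mul_le (by omega)).2 (by nlinarith)
  have h4 : 2 * g - g / q ≤ n * (2 * r) := by
    have : n * m = n * r + 2 * n := by rw [hmr]; ring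
    have : n * (2 * r) = 2 * (n * r) := by ring
    omega
  have h5 : n ≤ g := by nlinarith
  have h6 : g + 1 ≤ 2 * m * n := by nlinarith
  have h7 : (g + 1) ^ (2 * g - g / q) ≤ ((2 * m * 3) ^ (2 * r)) ^ n * n.factorial ^ (2 * r) := by
    calc (g + 1) ^ (2 * g - g / q) ≤ (g + 1) ^ (n * (2 * r)) := Nat.pow_le_pow_right (by omega) h4
      _ ≤ (2 * m * n) ^ (n * (2 * r)) := Nat.pow_le_pow_left h6 _
      _ = ((2 * m) ^ n * n ^ n) ^ (2 * r) := by rw [pow_mul, mul_pow]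
      _ ≤ ((2 * m) ^ n * (3 ^ n * n.factorial)) ^ (2 * r) :=
        Nat.pow_le_pow_left (Nat.mul_le_mul_left _ (pow_self_le n)) _
      _ = _ := by rw [← mul_assoc, ← mul_pow, mul_pow _ n.factorial, pow_right_comm]
  have h8 : n + 1 ≤ 2 ^ n := Nat.lt_two_pow_self
  have h9 : (2 * r + 2) * n * n + 1 ≤ (8 * m) ^ n := by
    have k1 : 2 * m ≤ (2 * m) ^ n := Nat.le_self_pow (by omega) _
    calc (2 * r + 2) * n * n + 1 ≤ 2 * m * ((n + 1) * (n + 1)) := by rw [hmr]; nlinarith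
      _ ≤ (2 * m) ^ n * (2 ^ n * 2 ^ n) := Nat.mul_le_mul k1 (Nat.mul_le_mul h8 h8)
      _ = (8 * m) ^ n := by rw [← mul_pow, ← mul_pow]; congr 1; ring
  have h10 : ((2 * r + 2) * n * n + 1) ^ (2 * c) ≤ ((8 * m) ^ (2 * c)) ^ n := by
    rw [pow_right_comm]
    exact Nat.pow_le_pow_left h9 _
  have h11 : (n + 1) ^ (2 * J) ≤ (2 ^ (2 * m)) ^ n := by
    rw [pow_right_comm]
    exact (Nat.pow_le_pow_right (by omega) (by omega)).trans (Nat.pow_le_pow_left h8 _)
  have h12 : 3 ≤ 3 ^ n := Nat.le_self_pow (by omega) _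
  calc _ ≤ ((2 * m * 3) ^ (2 * r)) ^ n * n.factorial ^ (2 * r) *
        (3 ^ n * ((8 * m) ^ (2 * c)) ^ n * (4 ^ n * n.factorial ^ 2 *
          (((2 * m) ^ (2 * r + 2)) ^ n * (2 ^ (2 * m)) ^ n))) :=
        Nat.mul_le_mul h7 (Nat.mul_le_mul (Nat.mul_le_mul h12 h10) (Nat.mul_le_mul
          (two_mul_fac_le n) (Nat.mul_le_mul (pow_mul _ _ _).le h11)))
    _ = ((2 * m * 3) ^ (2 * r) * (3 * (8 * m) ^ (2 * c) *
        (4 * ((2 * m) ^ (2 * r + 2) * 2 ^ (2 * m))))) ^ n * n.factorial ^ (2 * r + 2) := by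
      generalize (2 * m * 3) ^ (2 * r) = x
      generalize (8 * m) ^ (2 * c) = y
      generalize (2 * m) ^ (2 * r + 2) = z
      generalize 2 ^ (2 * m) = w
      rw [pow_add n.factorial]
      generalize n.factorial ^ (2 * r) = u
      generalize n.factorial ^ 2 = v
      simp only [mul_pow]
      ac_rfl
    _ ≤ _ := Nat.mul_le_mul_right _ (Nat.pow_le_pow_right (by positivity) h5)

theorem num_ratio (q K K' : ℕ) (hq : 1 ≤ q) {a b : ℕ → ℕ} {g₀ : ℕ}
    (ha : ∀ g, a g ≤ K ^ (g + 1) * (g + 1) ^ (2 * g - g / q))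
    (hb : ∀ g, g₀ ≤ g → (g + 1) ^ (2 * g - g / (2 * q)) ≤ K' ^ g * b g) :
    Tendsto (fun g => (a g : ℝ) / b g) atTop (𝓝 0) := by
  set M := ((K + 1) * (K' + 1)) ^ (2 * q) with hM
  have hM0 : 0 < M := by positivity
  have key : ∀ g, g₀ ≤ g → M ≤ g → 2 * q ≤ g → a g * (g + 1) ≤ M ^ 2 * b g := by
    intro g h0 h1 h2
    have h3 : 1 ≤ g / (2 * q) := (Nat.le_div_iff_mul_le (by omega)).2 (by omega)
    obtain ⟨d, hd⟩ : ∃ d, g / (2 * q) = d + 1 := ⟨g / (2 * q) - 1, by omega⟩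
    have h4 : (d + 1) * (2 * q) ≤ g := hd ▸ Nat.div_mul_le_self g (2 * q)
    have h5 : 2 * (d + 1) ≤ g / q := (Nat.le_div_iff_mul_le (by omega)).2 (by nlinarith)
    have h6 : g < (d + 1 + 1) * (2 * q) := by
      rw [← hd]
      exact (Nat.div_lt_iff_lt_mul (by omega)).1 (Nat.lt_succ_self _)
    have h7 : g / q ≤ g := Nat.div_le_self g q
    have h8 := hb g h0
    rw [hd] at h8
    have h9 : K ^ (g + 1) * K' ^ g ≤ M ^ (d + 2) := by
      calc K ^ (g + 1) * K' ^ g ≤ (K + 1) ^ (g + 1) * (K' + 1) ^ (g + 1) :=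
            Nat.mul_le_mul (Nat.pow_le_pow_left (Nat.le_succ K) _)
              ((Nat.pow_le_pow_left (Nat.le_succ K') _).trans
                (Nat.pow_le_pow_right (by omega) (by omega)))
        _ = ((K + 1) * (K' + 1)) ^ (g + 1) := (mul_pow _ _ _).symm
        _ ≤ ((K + 1) * (K' + 1)) ^ (2 * q * (d + 2)) :=
            Nat.pow_le_pow_right (by positivity) (by nlinarith)
        _ = M ^ (d + 2) := pow_mul _ _ _
    refine Nat.le_of_mul_le_mul_right ?_ (pow_pos hM0 d)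
    calc a g * (g + 1) * M ^ d
        ≤ K ^ (g + 1) * (g + 1) ^ (2 * g - g / q) * (g + 1) * (g + 1) ^ d :=
          Nat.mul_le_mul (Nat.mul_le_mul_right _ (ha g)) (Nat.pow_le_pow_left (by omega) _)
      _ = K ^ (g + 1) * (g + 1) ^ (2 * g - g / q + 1 + d) := by
          rw [pow_add (g + 1), pow_succ (g + 1)]
          ac_rfl
      _ ≤ K ^ (g + 1) * (g + 1) ^ (2 * g - (d + 1)) :=
          Nat.mul_le_mul_left _ (Nat.pow_le_pow_right (by omega) (by omega))
      _ ≤ K ^ (g + 1) * (K' ^ g * b g) := Nat.mul_le_mul_left _ h8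
      _ ≤ M ^ (d + 2) * b g := by
          rw [← mul_assoc]
          exact Nat.mul_le_mul_right _ h9
      _ = M ^ 2 * b g * M ^ d := by
          rw [pow_add]
          ac_rfl
  have lim := (tendsto_one_div_add_atTop_nhds_zero_nat (𝕜 := ℝ)).const_mul ((M : ℝ) ^ 2)
  rw [mul_zero] at lim
  refine squeeze_zero' (Eventually.of_forall fun g => by positivity) ?_ lim
  filter_upwards [eventually_ge_atTop g₀, eventually_ge_atTop M, eventually_ge_atTop (2 * q)]
    with g h0 h1 h2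
  have h3 : (a g : ℝ) * (g + 1) ≤ M ^ 2 * b g := by exact_mod_cast key g h0 h1 h2
  refine div_le_of_le_mul₀ (Nat.cast_nonneg _) (by positivity) ?_
  rw [mul_one_div, div_mul_eq_mul_div, le_div_iff₀ (by positivity)]
  exact h3

end

end Pool.Agent.P.MP_d39174_gt

end

section
/-! Many critical points. -/

namespace Pool.Agent.P.MP_d39174_gt

open UpperHalfPlane MatrixGroups

noncomputable section

open Equiv

lemma ncard_le_mul_of_cover {X Y : Type} [Finite X] {s : Set X} {t : Set Y} (ht : t.Finite)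
    (R : Y → Set X) (cov : ∀ a ∈ s, ∃ b ∈ t, a ∈ R b) {M : ℕ} (hM : ∀ b ∈ t, (R b).ncard ≤ M) :
    s.ncard ≤ t.ncard * M := by
  induction t, ht using Set.Finite.induction_on generalizing s with
  | empty =>
    have : s = ∅ := Set.eq_empty_of_forall_notMem fun a ha => by simpa using cov a ha
    simp [this]
  | @insert b t hb ht ih =>
    have h1 : (s \ R b).ncard ≤ t.ncard * M := by
      refine ih (fun a ha => ?_) fun b' hb' => hM b' (Set.mem_insert_of_mem _ hb')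
      obtain ⟨b', hb', h⟩ := cov a ha.1
      rcases hb' with rfl | hb'
      · exact absurd h ha.2
      · exact ⟨b', hb', h⟩
    have h2 : s.ncard ≤ (s \ R b).ncard + (R b).ncard :=
      (Set.ncard_le_ncard (fun a ha => by by_cases h : a ∈ R b <;> simp [ha, h])).trans
        (Set.ncard_union_le _ _)
    rw [Set.ncard_insert_of_notMem hb ht, add_mul, one_mul]
    exact h2.trans (add_le_add h1 (hM b (Set.mem_insert _ _)))

lemma NBG.mono {Vx : Type} {G : SimpleGraph Vx} {K K' : ℕ} (h : NBG G K) (e : K' ≤ K) :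
    NBG G K' := fun r v h1 h2 => h r v h1 (h2.trans e)

/-- Many tuples of permutations give expanders of large girth. -/
lemma many_good {k : ℕ} (hk : 100 ≤ k) (K : ℕ) : ∃ c n₀ : ℕ, ∀ n, n₀ ≤ n →
    n.factorial ^ k ≤ 3 * (k * n * n + 1) ^ (2 * c) *
      {σ : Fin k → Perm (Fin n) | badSet σ K = ∅ ∧ Spr σ 20}.ncard := by
  obtain ⟨c, hc⟩ := ncard_bad k K
  refine ⟨c, 7 * c + 4 * (k + 3) ^ K + 2 * K + 2, fun n hn => ?_⟩
  have h1 := hc n (by omega)
  have h2 := ncard_not_spr (n := n) hk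
  have h3 : {σ : Fin k → Perm (Fin n) | Spr σ 0 ∧ (badSet σ K).ncard ≤ c}.ncard ≤
      {σ : Fin k → Perm (Fin n) | badSet σ K = ∅ ∧ Spr σ 20}.ncard * (k * n * n + 1) ^ (2 * c) := by
    refine ncard_le_mul_of_cover (Set.toFinite _) (fun σ' => {σ | (diffSet σ σ').ncard ≤ 2 * c})
      (fun σ hσ => ?_) fun σ' _ => ncard_near σ'
    obtain ⟨σ', e1, e2, e3⟩ := exists_switch (by omega) σ hσ.2
    refine ⟨σ', ⟨e1, fun A T hAT => ?_⟩, e2⟩
    have a := hσ.1 A T hAT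
    have b := e3 A T
    nlinarith
  have h4 : n.factorial ^ k ≤
      {σ : Fin k → Perm (Fin n) | Spr σ 0 ∧ (badSet σ K).ncard ≤ c}.ncard +
        {σ : Fin k → Perm (Fin n) | ¬ Spr σ 0}.ncard +
        {σ : Fin k → Perm (Fin n) | c < (badSet σ K).ncard}.ncard := by
    have e : n.factorial ^ k = (Set.univ : Set (Fin k → Perm (Fin n))).ncard := by
      rw [Set.ncard_univ, Nat.card_eq_fintype_card]
      simp [Fintype.card_perm]
    rw [e]
    refine le_trans (Set.ncard_le_ncard fun σ _ => ?_)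
      ((Set.ncard_union_le _ _).trans (add_le_add_left (Set.ncard_union_le _ _) _))
    simp only [Set.mem_union, Set.mem_setOf_eq]
    by_cases a : Spr σ 0 <;> by_cases b : c < (badSet σ K).ncard <;> simp [a, b]
    omega
  nlinarith

theorem lower (q : ℕ) (hq : 1 ≤ q) : ∃ K g₀ : ℕ, ∀ g, g₀ ≤ g →
    ∃ s : Set (Set (Subgroup SL(2, ℝ))), s.Finite ∧ s ⊆ Crit g ∧
      (g + 1) ^ (2 * g - g / q) ≤ K ^ g * s.ncard := by
  obtain ⟨m₀, hgeo⟩ := geo
  obtain ⟨m, hm0, hm1, hm2⟩ : ∃ m, m₀ ≤ m ∧ 5 * q ≤ m ∧ 60 ≤ m := ⟨m₀ + 5 * q + 60, by omega⟩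
  obtain ⟨k, hk⟩ : ∃ k, k = 2 * m - 2 := ⟨_, rfl⟩
  obtain ⟨K, N, hG⟩ := hgeo (k + 2) (by omega)
  obtain ⟨c, n₀, hgood⟩ := many_good (k := k) (by omega) (K + 1)
  obtain ⟨K', g₀, hnum⟩ := num_lower q m c hq hm1
  refine ⟨K', g₀ + m * (N + n₀ + K + m + 2), fun g hg => ?_⟩
  obtain ⟨n, J, e, hJ⟩ : ∃ n J, g + J = n * m ∧ J < m := by
    refine ⟨(g + m - 1) / m, (g + m - 1) / m * m - g, ?_⟩
    have a := Nat.div_add_mod (g + m - 1) m
    have b := Nat.mod_lt (g + m - 1) (show 0 < m by omega)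
    rw [mul_comm] at a
    omega
  have hn : N + n₀ + K + m + 2 ≤ n := by
    refine Nat.le_of_mul_le_mul_left (c := m) ?_ (by omega)
    rw [mul_comm m n]
    omega
  set good := {σ : Fin k → Perm (Fin n) | badSet σ (K + 1) = ∅ ∧ Spr σ 20} with hgd
  have ex : ∀ σ ∈ good, ∃ Γ l, IsSurfaceGroup g Γ ∧ IsCritical Γ ∧ Sys Γ l ∧
      Rz (Gr (tau σ) (keep n k J)) Γ l := fun σ hσ => by
    have nb := not_bad_of_empty σ (show K + 1 < n by omega) hσ.1
    have hE := gr_edges (J := J) nb (by omega) (by omega) (by omega) (by omega)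
    have hmul : n * (k + 2) = 2 * (n * m) := by
      rw [show k + 2 = 2 * m by omega]; ring
    obtain ⟨C⟩ := exists_cmb (by omega) (Gr (tau σ) (keep n k J)) gr_bip gr_m0 gr_m1 fun u => by
      rw [gr_free nb (by omega) (by omega)]
      split_ifs
      · exact ⟨⟨m - 2, by omega⟩, by omega⟩
      · exact ⟨⟨m - 1, by omega⟩, by omega⟩
    refine hG _ _ _ C g (by simp; omega) (gr_le_deg nb (by omega)) gr_deg_le
      (gr_expd nb (by omega) (by omega) hσ.2) ?_ ((nbg_of_not_bad nb _).mono (by omega))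
      (by omega)
    have h0 : ∑ v, ((Gr (tau σ) (keep n k J)).degree v : ℝ) =
        2 * (Gr (tau σ) (keep n k J)).edgeFinset.card := by
      exact_mod_cast SimpleGraph.sum_degrees_eq_twice_card_edges _
    rw [Finset.sum_sub_distrib, h0]
    have h1 : n * 2 * (k + 2) ≤ 2 * (k + 2) + 2 * (Gr (tau σ) (keep n k J)).edgeFinset.card := by
      have : n * 2 * (k + 2) = 2 * (n * (k + 2)) := by ring
      omega
    have h2 : ((n * 2 * (k + 2) : ℕ) : ℝ) ≤
        ((2 * (k + 2) + 2 * (Gr (tau σ) (keep n k J)).edgeFinset.card : ℕ) : ℝ) := by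
      exact_mod_cast h1
    simp only [Finset.sum_const, Finset.card_univ, Fintype.card_prod, Fintype.card_fin,
      Fintype.card_bool, nsmul_eq_mul]
    push_cast at h2 ⊢
    linarith
  choose! Γ l hΓ using ex
  refine ⟨(fun σ => cls (Γ σ)) '' good, (Set.toFinite _).image _, ?_, ?_⟩
  · rintro _ ⟨σ, hσ, rfl⟩
    exact ⟨Γ σ, ⟨(hΓ σ hσ).1, (hΓ σ hσ).2.1⟩, rfl⟩
  have h1 := hgood n (by omega)
  have h2 : good.ncard ≤ ((fun σ => cls (Γ σ)) '' good).ncard *
      ((2 * n).factorial * ((k + 2) ^ (k * n) * (n + 1) ^ (2 * J))) := by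
    refine ncard_le_mul_of_cover ((Set.toFinite _).image _)
      (fun y => {σ | σ ∈ good ∧ cls (Γ σ) = y}) (fun σ hσ => ⟨_, ⟨σ, hσ, rfl⟩, hσ, rfl⟩) ?_
    rintro _ ⟨σ₀, h0, rfl⟩
    refine (ncard_le_mul_of_cover
      (t := {G' | Nonempty (Gr (tau σ₀) (keep n k J) ≃g G')}) (Set.toFinite _)
      (fun G' => {σ : Fin k → Perm (Fin n) | Gr (tau σ) (keep n k J) = G'})
      (M := (k + 2) ^ (k * n) * (n + 1) ^ (2 * J)) (fun σ hσ => ?_) fun G' _ => ?_).trans ?_
    · exact ⟨_, iso_of_cls (hΓ σ₀ h0).2.2.1 (hΓ σ hσ.1).2.2.1 (hΓ σ₀ h0).2.2.2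
        (hΓ σ hσ.1).2.2.2 hσ.2, rfl⟩
    · rcases Set.eq_empty_or_nonempty
        {σ : Fin k → Perm (Fin n) | Gr (tau σ) (keep n k J) = G'} with h | ⟨σ, rfl⟩
      · simp [h]
      · exact ncard_same_graph σ
    · refine Nat.mul_le_mul_right _ ((ncard_iso _).trans (le_of_eq ?_))
      simp [mul_comm]
  have h3 := hnum g n J (by omega) e hJ
  rw [← hk, show 2 * m = k + 2 by omega] at h3
  refine Nat.le_of_mul_le_mul_right (h3.trans ?_) (by positivity)
  calc K' ^ g * n.factorial ^ k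
      ≤ K' ^ g * (3 * (k * n * n + 1) ^ (2 * c) * (((fun σ => cls (Γ σ)) '' good).ncard *
        ((2 * n).factorial * ((k + 2) ^ (k * n) * (n + 1) ^ (2 * J))))) :=
        Nat.mul_le_mul_left _ (h1.trans (Nat.mul_le_mul_left _ h2))
    _ = _ := by ring

end

end Pool.Agent.P.MP_d39174_gt

end

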